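import Pool.Agent.PT.Stmts5

/-!
# ALTK: the number of alternating matrices with large kernel

Adding one row and one column to an alternating matrix `A` changes the dimension of the kernel by
`-1` if the new column is not in the image of `A`; in any case it increases at most by `1`.
-/

namespace Pool.Agent.PT

namespace ALTK

/-- the entries -/
abbrev F3 : Type := ZMod 3

instance : Fact (Nat.Prime 3) := ⟨Nat.prime_three⟩

variable {s : ℕ}

theorem alt_skew (v : Fin s → Fin s → ZMod 3) (i j : Fin s) : alt v i j = - alt v j i := by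
  unfold alt
  rcases lt_trichotomy i j with h | h | h
  · simp [h, h.not_gt]
  · subst h
    simp
  · simp [h, h.not_gt]

/-- the smaller matrix -/
def res (v : Fin (s + 1) → Fin (s + 1) → ZMod 3) : Fin s → Fin s → ZMod 3 :=
  fun j i => v j.succ i.succ

/-- the new row -/
def row (v : Fin (s + 1) → Fin (s + 1) → ZMod 3) : Fin s → ZMod 3 := fun i => v 0 i.succ

theorem alt_succ (v : Fin (s + 1) → Fin (s + 1) → ZMod 3) (j i : Fin s) :
    alt v j.succ i.succ = alt (res v) j i := by
  unfold alt res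
  simp only [Fin.succ_lt_succ_iff]

theorem alt_zero_succ (v : Fin (s + 1) → Fin (s + 1) → ZMod 3) (i : Fin s) :
    alt v 0 i.succ = row v i := by
  unfold alt row
  simp

theorem alt_succ_zero (v : Fin (s + 1) → Fin (s + 1) → ZMod 3) (i : Fin s) :
    alt v i.succ 0 = - row v i := by
  rw [alt_skew, alt_zero_succ]

/-- the matrix without its first row -/
def BB (v : Fin (s + 1) → Fin (s + 1) → ZMod 3) : Matrix (Fin s) (Fin (s + 1)) (ZMod 3) :=
  fun j i => alt v j.succ i

theorem range_A_le (v : Fin (s + 1) → Fin (s + 1) → ZMod 3) :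
    LinearMap.range (alt (res v)).mulVecLin ≤ LinearMap.range (BB v).mulVecLin := by
  rintro _ ⟨x, rfl⟩
  refine ⟨Fin.cons 0 x, ?_⟩
  ext j
  simp only [Matrix.mulVecLin_apply, Matrix.mulVec, dotProduct, Fin.sum_univ_succ, Fin.cons_zero,
    Fin.cons_succ, mul_zero, zero_add, BB, alt_succ]

theorem row_mem (v : Fin (s + 1) → Fin (s + 1) → ZMod 3) :
    row v ∈ LinearMap.range (BB v).mulVecLin := by
  refine ⟨Fin.cons (-1) 0, ?_⟩
  ext j
  simp only [Matrix.mulVecLin_apply, Matrix.mulVec, dotProduct, Fin.sum_univ_succ, Fin.cons_zero,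
    Fin.cons_succ, BB, alt_succ_zero, Pi.zero_apply, mul_zero, Finset.sum_const_zero, add_zero]
  ring

theorem range_B_le (v : Fin (s + 1) → Fin (s + 1) → ZMod 3) :
    LinearMap.range (BB v).transpose.mulVecLin ≤ LinearMap.range (alt v).transpose.mulVecLin := by
  rintro _ ⟨x, rfl⟩
  refine ⟨Fin.cons 0 x, ?_⟩
  ext j
  simp only [Matrix.mulVecLin_apply, Matrix.mulVec, dotProduct, Fin.sum_univ_succ, Fin.cons_zero,
    Fin.cons_succ, mul_zero, zero_add, BB, Matrix.transpose_apply]

theorem first_mem (v : Fin (s + 1) → Fin (s + 1) → ZMod 3) :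
    alt v 0 ∈ LinearMap.range (alt v).transpose.mulVecLin := by
  refine ⟨Pi.single 0 1, ?_⟩
  ext j
  simp

theorem first_not_mem (v : Fin (s + 1) → Fin (s + 1) → ZMod 3)
    (h : row v ∉ LinearMap.range (alt (res v)).mulVecLin) :
    alt v 0 ∉ LinearMap.range (BB v).transpose.mulVecLin := by
  rintro ⟨y, hy⟩
  apply h
  refine ⟨-y, ?_⟩
  ext i
  have h1 := congrFun hy i.succ
  rw [alt_zero_succ] at h1
  rw [← h1]
  simp only [Matrix.mulVecLin_apply, Matrix.mulVec, dotProduct, Matrix.transpose_apply, BB,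
    alt_succ, Pi.neg_apply]
  refine Finset.sum_congr rfl fun j _ => ?_
  rw [alt_skew (res v) i j]
  ring

theorem rank_le (v : Fin (s + 1) → Fin (s + 1) → ZMod 3) :
    (alt (res v)).rank ≤ (alt v).rank := by
  have h1 : (alt (res v)).rank ≤ (BB v).rank := Submodule.finrank_mono (range_A_le v)
  have h2 : (BB v).transpose.rank ≤ (alt v).transpose.rank := Submodule.finrank_mono (range_B_le v)
  rw [Matrix.rank_transpose, Matrix.rank_transpose] at h2
  exact h1.trans h2

theorem rank_lt (v : Fin (s + 1) → Fin (s + 1) → ZMod 3)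
    (h : row v ∉ LinearMap.range (alt (res v)).mulVecLin) :
    (alt (res v)).rank + 2 ≤ (alt v).rank := by
  have h1 : (alt (res v)).rank < (BB v).rank := by
    refine Submodule.finrank_lt_finrank_of_lt (lt_of_le_of_ne (range_A_le v) ?_)
    intro h2
    exact h (h2 ▸ row_mem v)
  have h2 : (BB v).transpose.rank < (alt v).transpose.rank := by
    refine Submodule.finrank_lt_finrank_of_lt (lt_of_le_of_ne (range_B_le v) ?_)
    intro h2
    exact first_not_mem v h (h2 ▸ first_mem v)
  rw [Matrix.rank_transpose, Matrix.rank_transpose] at h2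
  omega

theorem card_range (A : Matrix (Fin s) (Fin s) (ZMod 3)) :
    Nat.card {c : Fin s → ZMod 3 // c ∈ LinearMap.range A.mulVecLin} = 3 ^ A.rank := by
  have h1 := Module.natCard_eq_pow_finrank (K := ZMod 3) (V := LinearMap.range A.mulVecLin)
  rw [Nat.card_zmod] at h1
  exact h1

/-- the number of matrices with large kernel -/
noncomputable def N (s t : ℕ) : ℕ :=
  Nat.card {v : Fin s → Fin s → ZMod 3 // t ≤ s - (alt v).rank}

/-- the number of all matrices -/
theorem card_all (s : ℕ) : Nat.card (Fin s → Fin s → ZMod 3) = 3 ^ (s * s) := by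
  rw [Nat.card_fun, Nat.card_fun, Nat.card_zmod, Nat.card_fin, pow_mul]

theorem rank_le_s (A : Matrix (Fin s) (Fin s) (ZMod 3)) : A.rank ≤ s := by
  have h1 := A.rank_le_card_width
  rwa [Fintype.card_fin] at h1

theorem step (s t : ℕ) : N (s + 1) (t + 1) ≤
    3 ^ (s + 1) * (N s (t + 2) * 3 ^ s + N s t * 3 ^ (s - t)) := by
  classical
  let T1 : Type := {v : Fin s → Fin s → ZMod 3 // t + 2 ≤ s - (alt v).rank} × (Fin s → ZMod 3)
  let T2 : Type := Σ v : {v : Fin s → Fin s → ZMod 3 // t ≤ s - (alt v).rank},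
    {c : Fin s → ZMod 3 // c ∈ LinearMap.range (alt v.1).mulVecLin}
  have key : ∀ v : {v : Fin (s + 1) → Fin (s + 1) → ZMod 3 // t + 1 ≤ s + 1 - (alt v).rank},
      ¬ (t + 2 ≤ s - (alt (res v.1)).rank) → t ≤ s - (alt (res v.1)).rank ∧
        row v.1 ∈ LinearMap.range (alt (res v.1)).mulVecLin := by
    intro v hv
    have h0 := v.2
    have h1 := rank_le v.1
    refine ⟨by omega, ?_⟩
    by_contra h2
    have h3 := rank_lt v.1 h2
    have h4 := rank_le_s (alt v.1)
    omega
  let f : {v : Fin (s + 1) → Fin (s + 1) → ZMod 3 // t + 1 ≤ s + 1 - (alt v).rank} →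
      (ZMod 3 × (Fin s → ZMod 3)) × (T1 ⊕ T2) := fun v =>
    ((v.1 0 0, fun j => v.1 j.succ 0), if h : t + 2 ≤ s - (alt (res v.1)).rank then
      Sum.inl (⟨res v.1, h⟩, row v.1) else
      Sum.inr ⟨⟨res v.1, (key v h).1⟩, ⟨row v.1, (key v h).2⟩⟩)
  have hf : Function.Injective f := by
    intro v v' h
    have h1 := congrArg Prod.fst h
    have h2 := congrArg Prod.snd h
    have h00 : v.1 0 0 = v'.1 0 0 := congrArg Prod.fst h1
    have h10 : ∀ j : Fin s, v.1 j.succ 0 = v'.1 j.succ 0 := fun j =>
      congrFun (congrArg Prod.snd h1) j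
    have h3 : res v.1 = res v'.1 ∧ row v.1 = row v'.1 := by
      simp only [f] at h2
      by_cases ha : t + 2 ≤ s - (alt (res v.1)).rank
      · rw [dif_pos ha] at h2
        by_cases hb : t + 2 ≤ s - (alt (res v'.1)).rank
        · rw [dif_pos hb] at h2
          have h4 := Sum.inl_injective h2
          exact ⟨congrArg (fun z : T1 => z.1.1) h4, congrArg (fun z : T1 => z.2) h4⟩
        · rw [dif_neg hb] at h2
          cases h2
      · rw [dif_neg ha] at h2
        by_cases hb : t + 2 ≤ s - (alt (res v'.1)).rank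
        · rw [dif_pos hb] at h2
          cases h2
        · rw [dif_neg hb] at h2
          have h4 := Sum.inr_injective h2
          exact ⟨congrArg (fun z : T2 => z.1.1) h4, congrArg (fun z : T2 => z.2.1) h4⟩
    apply Subtype.ext
    funext j i
    refine Fin.cases ?_ (fun j => ?_) j
    · refine Fin.cases h00 (fun i => ?_) i
      exact congrFun h3.2 i
    · refine Fin.cases (h10 j) (fun i => ?_) i
      exact congrFun (congrFun h3.1 j) i
  have h1 := Nat.card_le_card_of_injective f hf
  have hT1 : Nat.card T1 = N s (t + 2) * 3 ^ s := by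
    simp only [T1, Nat.card_prod, Nat.card_fun, Nat.card_zmod, Nat.card_fin]
    rfl
  have hT2 : Nat.card T2 ≤ N s t * 3 ^ (s - t) := by
    simp only [T2]
    rw [Nat.card_sigma]
    have h2 : ∀ v : {v : Fin s → Fin s → ZMod 3 // t ≤ s - (alt v).rank},
        Nat.card {c : Fin s → ZMod 3 // c ∈ LinearMap.range (alt v.1).mulVecLin} ≤ 3 ^ (s - t) := by
      intro v
      rw [card_range]
      have h3 := v.2
      have h4 := rank_le_s (alt v.1)
      exact Nat.pow_le_pow_right (by norm_num) (by omega)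
    refine (Finset.sum_le_sum fun v _ => h2 v).trans ?_
    rw [Finset.sum_const, smul_eq_mul, Finset.card_univ, ← Nat.card_eq_fintype_card]
    exact le_of_eq rfl
  have h2 : Nat.card ((ZMod 3 × (Fin s → ZMod 3)) × (T1 ⊕ T2)) =
      3 ^ (s + 1) * (Nat.card T1 + Nat.card T2) := by
    have : Finite T1 := by
      simp only [T1]
      infer_instance
    have : Finite T2 := by
      simp only [T2]
      infer_instance
    rw [Nat.card_prod, Nat.card_prod, Nat.card_sum, Nat.card_fun, Nat.card_zmod, Nat.card_fin,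
      pow_succ]
    ring
  rw [h2] at h1
  refine h1.trans (Nat.mul_le_mul_left _ ?_)
  rw [hT1]
  exact Nat.add_le_add_left hT2 _

theorem half (t : ℕ) : (t + 1) * t / 2 = t * (t - 1) / 2 + t := by
  rcases Nat.eq_zero_or_pos t with h | h
  · subst h
    rfl
  · obtain ⟨u, rfl⟩ : ∃ u, t = u + 1 := ⟨t - 1, by omega⟩
    have h1 : (u + 1 + 1) * (u + 1) = (u + 1) * u + (u + 1) * 2 := by ring
    rw [h1, Nat.add_mul_div_right _ _ (by norm_num)]
    rfl

theorem main (s : ℕ) : ∀ t : ℕ, 3 ^ (t * (t - 1) / 2 + t) * N s t + 3 ^ (s * s) ≤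
    2 * 3 ^ t * 3 ^ (s * s) := by
  induction s with
  | zero =>
    intro t
    rcases Nat.eq_zero_or_pos t with h | h
    · subst h
      have h1 : N 0 0 ≤ 1 := by
        unfold N
        rw [Finite.card_le_one_iff_subsingleton]
        infer_instance
      simp
      omega
    · have h1 : N 0 t = 0 := by
        unfold N
        rw [Finite.card_eq_zero_iff]
        refine ⟨fun v => ?_⟩
        have := v.2
        omega
      rw [h1, mul_zero, zero_add]
      have h2 : 1 ≤ 3 ^ t := Nat.one_le_pow _ _ (by norm_num)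
      nlinarith [Nat.one_le_pow (0 * 0) 3 (by norm_num)]
  | succ s ih =>
    intro t
    rcases Nat.eq_zero_or_pos t with h | h
    · subst h
      have h1 : N (s + 1) 0 ≤ 3 ^ ((s + 1) * (s + 1)) := by
        rw [← card_all]
        exact Finite.card_subtype_le _
      simp
      omega
    · obtain ⟨t, rfl⟩ : ∃ u, t = u + 1 := ⟨t - 1, by omega⟩
      have h1 := step s t
      have h2 := ih t
      have h3 := ih (t + 2)
      have e1 : (t + 1) * (t + 1 - 1) / 2 = t * (t - 1) / 2 + t := half t
      have e2 : (t + 2) * (t + 2 - 1) / 2 = t * (t - 1) / 2 + t + (t + 1) := by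
        have h4 := half (t + 1)
        have h5 : (t + 2) * (t + 2 - 1) / 2 = (t + 1 + 1) * (t + 1) / 2 := rfl
        rw [h5, h4, e1]
      set E := t * (t - 1) / 2 with hE
      set T := 3 ^ (s * s) with hT
      have hT1 : 3 ^ ((s + 1) * (s + 1)) = 3 ^ (s + 1) * 3 ^ s * T := by
        rw [hT, ← pow_add, ← pow_add]
        congr 1
        ring
      rw [e1, hT1]
      -- the first term
      have h4 : 3 ^ (E + t + (t + 1)) * N s (t + 2) ≤ 2 * T := by
        have h5 : 3 ^ (t + 2) * (3 ^ (E + t + (t + 1)) * N s (t + 2)) ≤ 3 ^ (t + 2) * (2 * T) := by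
          rw [e2, pow_add _ _ (t + 2)] at h3
          nlinarith
        exact Nat.le_of_mul_le_mul_left h5 (by positivity)
      rcases Nat.lt_or_ge s t with hst | hst
      · have h5 : N s t = 0 := by
          unfold N
          rw [Finite.card_eq_zero_iff]
          refine ⟨fun v => ?_⟩
          have := v.2
          omega
        have h6 : N s (t + 2) = 0 := by
          unfold N
          rw [Finite.card_eq_zero_iff]
          refine ⟨fun v => ?_⟩
          have := v.2
          omega
        have h7 : N (s + 1) (t + 1) = 0 := by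
          rw [h5, h6] at h1
          simpa using h1
        rw [h7, mul_zero, zero_add]
        have h8 : 1 ≤ 3 ^ (t + 1) := Nat.one_le_pow _ _ (by norm_num)
        calc 3 ^ (s + 1) * 3 ^ s * T = 1 * (3 ^ (s + 1) * 3 ^ s * T) := by ring
          _ ≤ 2 * 3 ^ (t + 1) * (3 ^ (s + 1) * 3 ^ s * T) := Nat.mul_le_mul_right _ (by omega)
      · have h5 : 3 ^ (t + 1) * 3 ^ (s - t) = 3 * 3 ^ s := by
          rw [← pow_add, ← pow_succ']
          congr 1
          omega
        have h6 : 3 ^ (E + t + (t + 1)) * N (s + 1) (t + 1) ≤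
            3 ^ (s + 1) * 3 ^ s * (2 * T + 3 * (3 ^ (E + t) * N s t)) := by
          calc 3 ^ (E + t + (t + 1)) * N (s + 1) (t + 1)
              ≤ 3 ^ (E + t + (t + 1)) *
                (3 ^ (s + 1) * (N s (t + 2) * 3 ^ s + N s t * 3 ^ (s - t))) :=
                Nat.mul_le_mul_left _ h1
            _ = 3 ^ (s + 1) * 3 ^ s * (3 ^ (E + t + (t + 1)) * N s (t + 2)) +
                3 ^ (s + 1) * 3 ^ (E + t) * N s t * (3 ^ (t + 1) * 3 ^ (s - t)) := by
                rw [pow_add 3 (E + t) (t + 1)]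
                ring
            _ ≤ 3 ^ (s + 1) * 3 ^ s * (2 * T) +
                3 ^ (s + 1) * 3 ^ (E + t) * N s t * (3 ^ (t + 1) * 3 ^ (s - t)) :=
                Nat.add_le_add_right (Nat.mul_le_mul_left _ h4) _
            _ = 3 ^ (s + 1) * 3 ^ s * (2 * T + 3 * (3 ^ (E + t) * N s t)) := by
                rw [h5]
                ring
        calc 3 ^ (E + t + (t + 1)) * N (s + 1) (t + 1) + 3 ^ (s + 1) * 3 ^ s * T
            ≤ 3 ^ (s + 1) * 3 ^ s * (2 * T + 3 * (3 ^ (E + t) * N s t)) +
              3 ^ (s + 1) * 3 ^ s * T := Nat.add_le_add_right h6 _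
          _ = 3 ^ (s + 1) * 3 ^ s * (3 * (3 ^ (E + t) * N s t + T)) := by ring
          _ ≤ 3 ^ (s + 1) * 3 ^ s * (3 * (2 * 3 ^ t * T)) :=
              Nat.mul_le_mul_left _ (Nat.mul_le_mul_left _ h2)
          _ = 2 * 3 ^ (t + 1) * (3 ^ (s + 1) * 3 ^ s * T) := by
              rw [pow_succ 3 t]
              ring

end ALTK

theorem ALTK_thm : ALTK := by
  intro s t
  have h1 := ALTK.main s t
  rw [ALTK.card_all]
  have h2 : 3 ^ t * (3 ^ (t * (t - 1) / 2) * ALTK.N s t) ≤ 3 ^ t * (2 * 3 ^ (s * s)) := by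
    rw [pow_add] at h1
    calc 3 ^ t * (3 ^ (t * (t - 1) / 2) * ALTK.N s t)
        = 3 ^ (t * (t - 1) / 2) * 3 ^ t * ALTK.N s t := by ring
      _ ≤ 2 * 3 ^ t * 3 ^ (s * s) := (Nat.le_add_right _ _).trans h1
      _ = 3 ^ t * (2 * 3 ^ (s * s)) := by ring
  exact Nat.le_of_mul_le_mul_left h2 (by positivity)

end Pool.Agent.PT
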