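import Pool.Agent.PT.Stmts1

/-!
# Prime twists of rank zero: the value `AV`
-/

namespace Pool.Agent.PT

open Pool.Agent.Lib_helper18 Pool.Agent.Lib_helper18.Eis Pool.Agent.Lib_helper84.Cub

namespace AVV

theorem cast_ne {n : ℤ} (h : n ≠ 0) : (n : Eis) ≠ 0 := by
  intro h0
  apply h
  have h1 := congrArg Eis.re h0
  simpa using h1

/-- the symbol at a place is a symbol at its uniformizer -/
theorem lsym (hSTM : STM) (hSPP : SPP) (hSLC : SLC) (v : Pl) : ∃ e, LSym (uni v) (sy v) e := by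
  cases v with
  | none => exact ⟨4, hSLC⟩
  | some π => exact ⟨1, hSTM π.1 π.2.1 (hSPP.2.2.2.1 π).1⟩

end AVV

theorem AVV_thm (hSTM : STM) (hSPP : SPP) (hSLC : SLC) (hROOT : ROOT) : AVV := by
  intro v B b x p q p' q' hB hb hx hsol hs hlc
  obtain ⟨e, he⟩ := AVV.lsym hSTM hSPP hSLC v
  obtain ⟨N0, hN0⟩ := hROOT (uni v) (sy v) e he b x p q p' q' (B : Eis) hb hx hsol
    (AVV.cast_ne hB) hs
  obtain ⟨r0, hr0⟩ := hlc N0
  have h : ∃ c : ZMod 3, ∃ N0 : ℕ, ∀ r : ℤ, uni v ^ N0 ∣ (r : Eis) ^ 3 - (b : Eis) →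
      AS (sy v) (B : Eis) p q p' q' r = c :=
    ⟨AS (sy v) (B : Eis) p q p' q' r0, N0, fun r hr => hN0 r r0 hr hr0⟩
  have hav : AV v B b p q p' q' = h.choose := by
    unfold AV
    rw [dif_pos h]
  have h1 : ∃ N0 : ℕ, ∀ r : ℤ, uni v ^ N0 ∣ (r : Eis) ^ 3 - (b : Eis) →
      AS (sy v) (B : Eis) p q p' q' r = AV v B b p q p' q' := by
    rw [hav]
    exact h.choose_spec
  refine ⟨h1, fun c N hN => ?_⟩
  obtain ⟨M, hM⟩ := h1
  obtain ⟨r, hr⟩ := hlc (max M N)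
  rw [← hM r ((pow_dvd_pow _ (le_max_left M N)).trans hr),
    hN r ((pow_dvd_pow _ (le_max_right M N)).trans hr)]

end Pool.Agent.PT
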