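import Pool.Agent.PT.Stmts5
import Pool.Agent.RI.FROBD

/-!
# Prime twists, module BDENS: upper bound for the density of the primes with large kernel
-/

open NumberField IsDedekindDomain Finset
open scoped nonZeroDivisors Pointwise

namespace Pool.Agent.PT

open Pool.Agent.Lib_helper18 Pool.Agent.Lib_helper18.Eis Pool.Agent.Lib_helper84.Cub

namespace BDENS

/-! ### Sums over sets of primes -/

/-- the sum over the primes of a set -/
noncomputable def sm (S : Set ℕ) (σ : ℝ) : ℝ := ∑' q : {q : ℕ // q.Prime ∧ q ∈ S}, (q : ℝ) ^ (-σ)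

/-- the summands as a function on the natural numbers -/
noncomputable def ind (S : Set ℕ) (σ : ℝ) (n : ℕ) : ℝ :=
  Set.indicator {n : ℕ | n.Prime ∧ n ∈ S} (fun n : ℕ => (n : ℝ) ^ (-σ)) n

theorem sm_eq (S : Set ℕ) (σ : ℝ) : sm S σ = ∑' n, ind S σ n :=
  tsum_subtype {n : ℕ | n.Prime ∧ n ∈ S} (fun n : ℕ => (n : ℝ) ^ (-σ))

theorem ind_summable (S : Set ℕ) {σ : ℝ} (hσ : 1 < σ) : Summable (ind S σ) :=
  (Real.summable_nat_rpow.mpr (by linarith : -σ < -1)).indicator _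

theorem ind_nonneg (S : Set ℕ) (σ : ℝ) (n : ℕ) : 0 ≤ ind S σ n :=
  Set.indicator_nonneg (fun n _ => Real.rpow_nonneg (Nat.cast_nonneg n) _) n

theorem ind_mem {S : Set ℕ} {σ : ℝ} {n : ℕ} (h : n.Prime) (hS : n ∈ S) :
    ind S σ n = (n : ℝ) ^ (-σ) := Set.indicator_of_mem (s := {n : ℕ | n.Prime ∧ n ∈ S}) ⟨h, hS⟩ _

theorem ind_not {S : Set ℕ} {σ : ℝ} {n : ℕ} (h : ¬ (n.Prime ∧ n ∈ S)) : ind S σ n = 0 :=
  Set.indicator_of_notMem (s := {n : ℕ | n.Prime ∧ n ∈ S}) h _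

theorem ind_le_one {S : Set ℕ} {σ : ℝ} (hσ : 1 < σ) (n : ℕ) : ind S σ n ≤ 1 := by
  by_cases h : n.Prime ∧ n ∈ S
  · rw [ind_mem h.1 h.2]
    exact Real.rpow_le_one_of_one_le_of_nonpos (by exact_mod_cast h.1.one_lt.le) (by linarith)
  · rw [ind_not h]
    exact zero_le_one

/-- Two sets of primes, disjoint and contained in a third one up to finitely many primes. -/
theorem sm_add_le (S₁ S₂ W : Set ℕ) (A : Finset ℕ)
    (h1 : ∀ n, n.Prime → n ∉ A → n ∈ S₁ → n ∈ W ∧ n ∉ S₂)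
    (h2 : ∀ n, n.Prime → n ∉ A → n ∈ S₂ → n ∈ W) {σ : ℝ} (hσ : 1 < σ) :
    sm S₁ σ + sm S₂ σ ≤ sm W σ + 2 * A.card := by
  classical
  rw [sm_eq, sm_eq, sm_eq, ← (ind_summable S₁ hσ).tsum_add (ind_summable S₂ hσ)]
  have h3 : Summable fun n : ℕ => if n ∈ A then (2 : ℝ) else 0 :=
    summable_of_ne_finset_zero (s := A) fun n hn => if_neg hn
  have h4 : ∑' n : ℕ, (if n ∈ A then (2 : ℝ) else 0) = 2 * A.card := by
    rw [tsum_eq_sum (s := A) fun n hn => if_neg hn, Finset.sum_congr rfl fun n hn => if_pos hn,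
      Finset.sum_const, nsmul_eq_mul, mul_comm]
  rw [← h4, ← (ind_summable W hσ).tsum_add h3]
  refine ((ind_summable S₁ hσ).add (ind_summable S₂ hσ)).tsum_le_tsum (fun n => ?_)
    ((ind_summable W hσ).add h3)
  by_cases hA : n ∈ A
  · rw [if_pos hA]
    have e1 := ind_le_one (S := S₁) hσ n
    have e2 := ind_le_one (S := S₂) hσ n
    have e3 := ind_nonneg W σ n
    linarith
  · rw [if_neg hA, add_zero]
    by_cases hp : n.Prime
    · by_cases hs1 : n ∈ S₁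
      · obtain ⟨e1, e2⟩ := h1 n hp hA hs1
        rw [ind_mem hp hs1, ind_not fun h => e2 h.2, ind_mem hp e1, add_zero]
      · by_cases hs2 : n ∈ S₂
        · rw [ind_not fun h => hs1 h.2, ind_mem hp hs2, ind_mem hp (h2 n hp hA hs2), zero_add]
        · rw [ind_not fun h => hs1 h.2, ind_not fun h => hs2 h.2, add_zero]
          exact ind_nonneg _ _ _
    · rw [ind_not fun h => hp h.1, ind_not fun h => hp h.1, add_zero]
      exact ind_nonneg _ _ _

/-- A set of primes covered by arithmetic progressions. -/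
theorem sm_cover {f : ℕ} (W : Set ℕ) (V : Finset (ZMod f)ˣ)
    (h : ∀ n : ℕ, n.Prime → n ∈ W → ∃ a ∈ V, (n : ZMod f) = a) {σ : ℝ} (hσ : 1 < σ) :
    sm W σ ≤ ∑ a ∈ V, ∑' q : {q : ℕ // q.Prime ∧ (q : ZMod f) = a}, (q : ℝ) ^ (-σ) := by
  classical
  have e : ∀ a ∈ V, ∑' q : {q : ℕ // q.Prime ∧ (q : ZMod f) = a}, (q : ℝ) ^ (-σ) =
      ∑' n, ind {q : ℕ | (q : ZMod f) = a} σ n := fun a _ => sm_eq {q : ℕ | (q : ZMod f) = a} σ
  rw [Finset.sum_congr rfl e, ← Summable.tsum_finsetSum fun a _ => ind_summable _ hσ, sm_eq]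
  refine (ind_summable W hσ).tsum_le_tsum (fun n => ?_)
    (summable_sum fun a _ => ind_summable _ hσ)
  by_cases hn : n.Prime ∧ n ∈ W
  · obtain ⟨a, ha, hna⟩ := h n hn.1 hn.2
    rw [ind_mem hn.1 hn.2, ← ind_mem (S := {q : ℕ | (q : ZMod f) = a}) hn.1 hna]
    exact Finset.single_le_sum (f := fun a : (ZMod f)ˣ => ind {q : ℕ | (q : ZMod f) = a} σ n)
      (fun a _ => ind_nonneg _ _ _) ha
  · rw [ind_not hn]
    exact Finset.sum_nonneg fun a _ => ind_nonneg _ _ _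

/-! ### Generators of cyclic groups -/

/-- Generators of a cyclic group of even order are powers with odd exponent prime to `3`. -/
theorem exists_pow {G : Type} [Group G] [Finite G] {g h : G}
    (hz : Subgroup.zpowers h = Subgroup.zpowers g) (he : Even (orderOf g)) :
    ∃ k : ℕ, Odd k ∧ k % 3 ≠ 0 ∧ h = g ^ k := by
  have h1 : h ∈ Subgroup.zpowers g := by
    rw [← hz]
    exact Subgroup.mem_zpowers h
  obtain ⟨k, hk⟩ := (isOfFinOrder_of_finite g).mem_powers_iff_mem_zpowers.2 h1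
  have hk' : g ^ k = h := hk
  have h2 : orderOf h = orderOf g := by
    rw [← Nat.card_zpowers, ← Nat.card_zpowers, hz]
  have h3 : (orderOf g).gcd k = 1 := by
    have h5 : orderOf (g ^ k) = orderOf g / (orderOf g).gcd k := orderOf_pow g
    rw [hk', h2] at h5
    have h6 : 0 < orderOf g := orderOf_pos g
    have h7 : (orderOf g).gcd k ∣ orderOf g := Nat.gcd_dvd_left _ _
    obtain ⟨c, hc⟩ := h7
    have h8 : 0 < (orderOf g).gcd k := Nat.gcd_pos_of_pos_left _ h6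
    have h9 : orderOf g / (orderOf g).gcd k = c := Nat.div_eq_of_eq_mul_right h8 hc
    rw [h9] at h5
    rw [← h5] at hc
    have h10 : (orderOf g) * (orderOf g).gcd k = orderOf g * 1 := by
      rw [mul_one, mul_comm]
      exact hc.symm
    exact Nat.eq_of_mul_eq_mul_left h6 h10
  have hodd : ¬ Even k := by
    intro hk2
    have h4 : 2 ∣ (orderOf g).gcd k := Nat.dvd_gcd he.two_dvd hk2.two_dvd
    rw [h3] at h4
    omega
  rw [Nat.not_even_iff_odd] at hodd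
  by_cases h30 : k % 3 = 0
  · refine ⟨k + orderOf g, hodd.add_even he, ?_, ?_⟩
    · intro h4
      have h5 : 3 ∣ (orderOf g).gcd k := Nat.dvd_gcd (by omega) (by omega)
      rw [h3] at h5
      omega
    · rw [pow_add, pow_orderOf_eq_one, mul_one, hk']
  · exact ⟨k, hodd, h30, hk'.symm⟩

/-- generators of the same cyclic group -/
theorem zpowers_pow_eq {G : Type} [Group G] [Finite G] {g : G} {k : ℕ}
    (hk : k.Coprime (orderOf g)) : Subgroup.zpowers (g ^ k) = Subgroup.zpowers g := by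
  apply Subgroup.eq_of_le_of_card_ge
  · rw [Subgroup.zpowers_le]
    exact Subgroup.pow_mem _ (Subgroup.mem_zpowers g) k
  · rw [Nat.card_zpowers, Nat.card_zpowers, orderOf_pow, Nat.gcd_comm, hk, Nat.div_one]

/-! ### Classes modulo `f` -/

theorem M2_iff {f : ℕ} (hf : 0 < f) (h3 : 3 ∣ f) (a : (ZMod f)ˣ) :
    M2 a ↔ ZMod.castHom h3 (ZMod 3) (a : ZMod f) = -1 := by
  have : NeZero f := ⟨hf.ne'⟩
  have h1 : ZMod.castHom h3 (ZMod 3) (a : ZMod f) = (((a : ZMod f).val : ℕ) : ZMod 3) := by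
    rw [ZMod.castHom_apply, ZMod.natCast_val]
  rw [h1]
  unfold M2
  rw [show (-1 : ZMod 3) = ((2 : ℕ) : ZMod 3) from rfl, ZMod.natCast_eq_natCast_iff']

theorem M2_pow {f : ℕ} (hf : 0 < f) (h3 : 3 ∣ f) {a : (ZMod f)ˣ} (ha : M2 a) {k : ℕ}
    (hk : Odd k) : M2 (a ^ k) := by
  rw [M2_iff hf h3] at ha ⊢
  rw [Units.val_pow_eq_pow_val, map_pow, ha, hk.neg_one_pow]

theorem M2_even {f : ℕ} (hf : 0 < f) (h3 : 3 ∣ f) {a : (ZMod f)ˣ} (ha : M2 a) {n : ℕ}
    (hn : a ^ n = 1) : Even n := by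
  by_contra hne
  rw [Nat.not_even_iff_odd] at hne
  have h1 := M2_pow hf h3 ha hne
  rw [hn, M2_iff hf h3, Units.val_one, map_one] at h1
  exact absurd h1 (by decide)

theorem nsmul_one {A : Type} [AddCommGroup A] (h3 : ∀ x : A, 3 • x = 0) {k : ℕ}
    (hk : k % 3 = 1) (x : A) : k • x = x := by
  have h : k = 3 * (k / 3) + 1 := by omega
  rw [h, add_smul, one_smul, mul_smul, h3, zero_add]

theorem nsmul_two {A : Type} [AddCommGroup A] (h3 : ∀ x : A, 3 • x = 0) {k : ℕ}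
    (hk : k % 3 = 2) (x : A) : k • x = -x := by
  have h1 : k • x + x = 0 := by
    have h2 := nsmul_one h3 (k := k + 2) (by omega) x
    have h4 : k • x + x + x = (k + 2) • x := by
      rw [add_smul, two_smul, add_assoc]
    rw [h2] at h4
    exact add_eq_right.1 h4
  exact eq_neg_of_add_eq_zero_left h1

theorem three_z (y : ZMod 3) : 3 • y = 0 := by
  rw [nsmul_eq_mul, show ((3 : ℕ) : ZMod 3) = 0 from rfl, zero_mul]

theorem cast_one {k : ℕ} (hk : k % 3 = 1) (y : ZMod 3) : (k : ZMod 3) * y = y := by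
  rw [← nsmul_eq_mul]
  exact nsmul_one three_z hk y

theorem cast_two {k : ℕ} (hk : k % 3 = 2) (y : ZMod 3) : (k : ZMod 3) * y = -y := by
  rw [← nsmul_eq_mul]
  exact nsmul_two three_z hk y

/-! ### Counting -/

/-- counting over the classes -/
theorem count_le {G H : Type} [Finite G] [Fintype H] (χ : G → H) (P : G → Prop)
    (C : H → Prop) (K M : ℕ)
    (h : ∀ a, C a → K * Nat.card {g : G // χ g = a ∧ P g} ≤ M) :
    K * Nat.card {g : G // C (χ g) ∧ P g} ≤ Nat.card {a : H // C a} * M := by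
  classical
  have := Fintype.ofFinite G
  have e1 : Nat.card {g : G // C (χ g) ∧ P g} =
      (Finset.univ.filter fun g : G => C (χ g) ∧ P g).card := by
    rw [Nat.card_eq_fintype_card, Fintype.card_subtype]
  have e2 : Nat.card {a : H // C a} = (Finset.univ.filter fun a : H => C a).card := by
    rw [Nat.card_eq_fintype_card, Fintype.card_subtype]
  have e3 : ∀ a, Nat.card {g : G // χ g = a ∧ P g} =
      (Finset.univ.filter fun g : G => χ g = a ∧ P g).card := fun a => by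
    rw [Nat.card_eq_fintype_card, Fintype.card_subtype]
  rw [e1, e2, Finset.card_eq_sum_card_fiberwise (f := χ)
    (t := Finset.univ.filter fun a : H => C a) (fun g hg => by
      have hg' := (Finset.mem_filter.1 (Finset.mem_coe.1 hg)).2.1
      exact Finset.mem_coe.2 (Finset.mem_filter.2 ⟨Finset.mem_univ _, hg'⟩)), Finset.mul_sum,
    ← smul_eq_mul (Finset.card _), ← Finset.sum_const]
  refine Finset.sum_le_sum fun a ha => ?_
  have ha' := (Finset.mem_filter.1 ha).2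
  refine le_trans (Nat.mul_le_mul_left K (le_of_eq ?_)) (h a ha')
  rw [e3]
  congr 1
  ext g
  simp only [Finset.mem_filter, Finset.mem_univ, true_and]
  constructor
  · rintro ⟨⟨_, h2⟩, h3⟩
    exact ⟨h3, h2⟩
  · rintro ⟨rfl, h2⟩
    exact ⟨⟨ha', h2⟩, rfl⟩

theorem count_eq {G H : Type} [Finite G] [Fintype H] (χ : G → H)
    (C : H → Prop) (M : ℕ)
    (h : ∀ a, C a → Nat.card {g : G // χ g = a} = M) :
    Nat.card {g : G // C (χ g)} = Nat.card {a : H // C a} * M := by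
  classical
  have := Fintype.ofFinite G
  have e1 : Nat.card {g : G // C (χ g)} =
      (Finset.univ.filter fun g : G => C (χ g)).card := by
    rw [Nat.card_eq_fintype_card, Fintype.card_subtype]
  have e2 : Nat.card {a : H // C a} = (Finset.univ.filter fun a : H => C a).card := by
    rw [Nat.card_eq_fintype_card, Fintype.card_subtype]
  have e3 : ∀ a, Nat.card {g : G // χ g = a} =
      (Finset.univ.filter fun g : G => χ g = a).card := fun a => by
    rw [Nat.card_eq_fintype_card, Fintype.card_subtype]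
  rw [e1, e2, Finset.card_eq_sum_card_fiberwise (f := χ)
    (t := Finset.univ.filter fun a : H => C a) (fun g hg => by
      have hg' := (Finset.mem_filter.1 (Finset.mem_coe.1 hg)).2
      exact Finset.mem_coe.2 (Finset.mem_filter.2 ⟨Finset.mem_univ _, hg'⟩)),
    ← smul_eq_mul (Finset.card _), ← Finset.sum_const]
  refine Finset.sum_congr rfl fun a ha => ?_
  have ha' := (Finset.mem_filter.1 ha).2
  rw [← h a ha', e3]
  congr 1
  ext g
  simp only [Finset.mem_filter, Finset.mem_univ, true_and]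
  constructor
  · rintro ⟨_, h3⟩
    exact h3
  · rintro rfl
    exact ⟨ha', rfl⟩

/-- fibres of a surjective homomorphism -/
theorem fibre {G H : Type} [Group G] [Finite G] [Group H] (χ : G →* H)
    (hχ : Function.Surjective χ) :
    (∀ a : H, Nat.card {g : G // χ g = a} = Nat.card χ.ker) ∧
      Nat.card χ.ker * Nat.card H = Nat.card G := by
  constructor
  · intro a
    obtain ⟨g0, hg0⟩ := hχ a
    refine Nat.card_congr ⟨fun g => ⟨g0⁻¹ * g.1, ?_⟩, fun g => ⟨g0 * g.1, ?_⟩, ?_, ?_⟩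
    · rw [MonoidHom.mem_ker, map_mul, map_inv, hg0, g.2, inv_mul_cancel]
    · rw [map_mul, hg0, MonoidHom.mem_ker.1 g.2, mul_one]
    · intro g
      exact Subtype.ext (mul_inv_cancel_left _ _)
    · intro g
      exact Subtype.ext (inv_mul_cancel_left _ _)
  · have e2 : Nat.card H = χ.ker.index := by
      rw [Subgroup.index_ker, MonoidHom.range_eq_top.2 hχ]
      exact (Nat.card_congr Subgroup.topEquiv.toEquiv).symm
    rw [e2, Subgroup.card_mul_index]

/-! ### The bad elements -/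

/-- the alternating matrix depends only on the entries above the diagonal -/
theorem alt_congr {s : ℕ} {v w : Fin s → Fin s → ZMod 3} (h : ∀ j i, j < i → v j i = w j i) :
    alt v = alt w := by
  funext j i
  unfold alt
  by_cases h1 : j < i
  · rw [if_pos h1, if_pos h1, h j i h1]
  · rw [if_neg h1, if_neg h1]
    by_cases h2 : i < j
    · rw [if_pos h2, if_pos h2, h i j h2]
    · rw [if_neg h2, if_neg h2]

/-- the elements with class `c` or `-c` -/
def InU {G : Type} [Group G] {f m : ℕ} (χ : G →* (ZMod f)ˣ)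
    (κ : (ZMod f)ˣ →* Multiplicative (Fin (m + 1) → ZMod 3)) (c : Fin (m + 1) → ZMod 3)
    (g : G) : Prop := M2 (χ g) ∧ ((κ (χ g)).toAdd = c ∨ (κ (χ g)).toAdd = -c)

/-- the elements with large kernel -/
def Bad {G : Type} [Group G] {f m s : ℕ} (χ : G →* (ZMod f)ˣ)
    (κ : (ZMod f)ˣ →* Multiplicative (Fin (m + 1) → ZMod 3)) (c : Fin (m + 1) → ZMod 3)
    (C : Fin s → Fin s → ZMod 3) (Φ : (ZMod f)ˣ →* Multiplicative (Fin s → Fin s → ZMod 3))
    (t : ℕ) (tt : G → Fin s → Fin s → ZMod 3) (g : G) : Prop :=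
  M2 (χ g) ∧
    (((κ (χ g)).toAdd = c ∧ t ≤ s - (alt (C + (Φ (χ g)).toAdd - tt g)).rank) ∨
      ((κ (χ g)).toAdd = -c ∧ t ≤ s - (alt (C - (Φ (χ g)).toAdd + tt g)).rank))

section
variable {G : Type} [Group G] {f m s : ℕ} (χ : G →* (ZMod f)ˣ)
    (κ : (ZMod f)ˣ →* Multiplicative (Fin (m + 1) → ZMod 3)) (c : Fin (m + 1) → ZMod 3)
    (C : Fin s → Fin s → ZMod 3) (Φ : (ZMod f)ˣ →* Multiplicative (Fin s → Fin s → ZMod 3))
    (t : ℕ) (tt : G → Fin s → Fin s → ZMod 3)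

theorem three_f (x : Fin (m + 1) → ZMod 3) : 3 • x = 0 := by
  funext i
  exact three_z (x i)

theorem three_ff (x : Fin s → Fin s → ZMod 3) : 3 • x = 0 := by
  funext i j
  exact three_z (x i j)

/-- passing to a power with exponent prime to `6` -/
theorem transfer (hf : 0 < f) (h3 : 3 ∣ f) {g h : G} {k : ℕ} (hk : Odd k) (hk3 : k % 3 ≠ 0)
    (hχ : χ h = χ g ^ k) (hg : M2 (χ g)) (ht : ∀ j i, j ≠ i → tt h j i = k * tt g j i) :
    (InU χ κ c g → InU χ κ c h) ∧ (Bad χ κ c C Φ t tt h → Bad χ κ c C Φ t tt g) := by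
  have hM : M2 (χ h) := by
    rw [hχ]
    exact M2_pow hf h3 hg hk
  have e1 : (κ (χ h)).toAdd = k • (κ (χ g)).toAdd := by
    rw [hχ, map_pow, toAdd_pow]
  have e2 : (Φ (χ h)).toAdd = k • (Φ (χ g)).toAdd := by
    rw [hχ, map_pow, toAdd_pow]
  have hk12 : k % 3 = 1 ∨ k % 3 = 2 := by omega
  rcases hk12 with hk1 | hk2
  · rw [nsmul_one three_f hk1] at e1
    rw [nsmul_one three_ff hk1] at e2
    have e3 : alt (C + (Φ (χ h)).toAdd - tt h) = alt (C + (Φ (χ g)).toAdd - tt g) := by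
      apply alt_congr
      intro j i hji
      rw [Pi.sub_apply, Pi.sub_apply, Pi.sub_apply, Pi.sub_apply, ht j i hji.ne,
        cast_one hk1, e2]
    have e4 : alt (C - (Φ (χ h)).toAdd + tt h) = alt (C - (Φ (χ g)).toAdd + tt g) := by
      apply alt_congr
      intro j i hji
      rw [Pi.add_apply, Pi.add_apply, Pi.add_apply, Pi.add_apply, ht j i hji.ne,
        cast_one hk1, e2]
    constructor
    · rintro ⟨-, h2⟩
      refine ⟨hM, ?_⟩
      rw [e1]
      exact h2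
    · rintro ⟨-, h2⟩
      refine ⟨hg, ?_⟩
      rw [e1, e3, e4] at h2
      exact h2
  · rw [nsmul_two three_f hk2] at e1
    rw [nsmul_two three_ff hk2] at e2
    have e3 : alt (C + (Φ (χ h)).toAdd - tt h) = alt (C - (Φ (χ g)).toAdd + tt g) := by
      apply alt_congr
      intro j i hji
      rw [Pi.sub_apply, Pi.sub_apply, Pi.add_apply, Pi.add_apply, ht j i hji.ne,
        cast_two hk2, e2]
      show C j i + -((Φ (χ g)).toAdd j i) - -tt g j i = C j i - (Φ (χ g)).toAdd j i + tt g j i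
      ring
    have e4 : alt (C - (Φ (χ h)).toAdd + tt h) = alt (C + (Φ (χ g)).toAdd - tt g) := by
      apply alt_congr
      intro j i hji
      rw [Pi.add_apply, Pi.add_apply, Pi.sub_apply, Pi.sub_apply, ht j i hji.ne,
        cast_two hk2, e2]
      show C j i - -((Φ (χ g)).toAdd j i) + -tt g j i = C j i + (Φ (χ g)).toAdd j i - tt g j i
      ring
    constructor
    · rintro ⟨-, h2⟩
      refine ⟨hM, ?_⟩
      rw [e1]
      rcases h2 with h2 | h2
      · exact Or.inr (by rw [h2])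
      · exact Or.inl (by rw [h2, neg_neg])
    · rintro ⟨-, h2⟩
      refine ⟨hg, ?_⟩
      rw [e1, e3, e4] at h2
      rcases h2 with ⟨h2, h4⟩ | ⟨h2, h4⟩
      · exact Or.inr ⟨by rw [← h2, neg_neg], h4⟩
      · exact Or.inl ⟨neg_injective h2, h4⟩

/-- the elements that are not bad are stable under conjugation and change of generator -/
theorem stable [Finite G] (hf : 0 < f) (h3 : 3 ∣ f)
    (hconj : ∀ g τ : G, M2 (χ g) → ∀ j i, j ≠ i → tt (τ * g * τ⁻¹) j i = tt g j i)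
    (hpow : ∀ (g : G) (k : ℕ), M2 (χ g) → Odd k → ∀ j i, j ≠ i →
      tt (g ^ k) j i = k * tt g j i)
    {g h τ : G} (hg : InU χ κ c g ∧ ¬ Bad χ κ c C Φ t tt g)
    (hz : Subgroup.zpowers h = Subgroup.zpowers (τ * g * τ⁻¹)) :
    InU χ κ c h ∧ ¬ Bad χ κ c C Φ t tt h := by
  have hM := hg.1.1
  have hχg : χ (τ * g * τ⁻¹) = χ g := by
    rw [map_mul, map_mul, map_inv, mul_comm (χ τ), mul_inv_cancel_right]
  have hM' : M2 (χ (τ * g * τ⁻¹)) := by
    rw [hχg]
    exact hM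
  have he : Even (orderOf (τ * g * τ⁻¹)) := by
    apply M2_even hf h3 hM'
    rw [← map_pow, pow_orderOf_eq_one, map_one]
  obtain ⟨k, hk, hk3, hh⟩ := exists_pow hz he
  have h1 : χ h = χ g ^ k := by
    rw [hh, map_pow, hχg]
  have h2 : ∀ j i, j ≠ i → tt h j i = k * tt g j i := by
    intro j i hji
    rw [hh, hpow _ k hM' hk j i hji, hconj g τ hM j i hji]
  obtain ⟨h4, h5⟩ := transfer χ κ c C Φ t tt hf h3 hk hk3 h1 hM h2
  exact ⟨h4 hg.1, fun h6 => hg.2 (h5 h6)⟩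

/-- counting the bad elements -/
theorem card_bad [Finite G] (hALTK : ALTK) (hEQD : EQD) (hf : 0 < f)
    (hχ : Function.Surjective χ)
    (heq : ∀ (a : (ZMod f)ˣ) (v v' : Fin s → Fin s → ZMod 3), M2 a →
      Nat.card {g : G // χ g = a ∧ ∀ j i, j < i → tt g j i = v j i} =
        Nat.card {g : G // χ g = a ∧ ∀ j i, j < i → tt g j i = v' j i})
    (hκ : ∀ c : Fin (m + 1) → ZMod 3,
      Nat.card {a : (ZMod f)ˣ // M2 a ∧ (κ a).toAdd = c} * (2 * 3 ^ (m + 1)) = f.totient) :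
    3 ^ (t * (t - 1) / 2) * 3 ^ (m + 1) * Nat.card {g : G // Bad χ κ c C Φ t tt g} ≤
      2 * Nat.card G := by
  have : NeZero f := ⟨hf.ne'⟩
  obtain ⟨hfib, hcard⟩ := fibre χ hχ
  have hH : Nat.card (ZMod f)ˣ = f.totient := by
    rw [Nat.card_eq_fintype_card, ZMod.card_units_eq_totient]
  have hW : 0 < Nat.card (Fin s → Fin s → ZMod 3) := Nat.card_pos
  -- one class
  have cls : ∀ (a : (ZMod f)ˣ) (D : Fin s → Fin s → ZMod 3), M2 a →
      3 ^ (t * (t - 1) / 2) * Nat.card {g : G // χ g = a ∧ t ≤ s - (alt (D - tt g)).rank} ≤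
        2 * Nat.card χ.ker ∧
      3 ^ (t * (t - 1) / 2) * Nat.card {g : G // χ g = a ∧ t ≤ s - (alt (D + tt g)).rank} ≤
        2 * Nat.card χ.ker := by
    intro a D ha
    obtain ⟨h1, h2⟩ := hEQD s f G χ tt hf heq a D {M | t ≤ s - M.rank} ha
    rw [hfib a] at h1 h2
    have h4 := hALTK s t
    have aux : ∀ X Y Z W E : ℕ, 0 < W → X * W = Y * Z → E * Y ≤ 2 * W → E * X ≤ 2 * Z := by
      intro X Y Z W E hW h5 h6
      have h7 : W * (E * X) ≤ W * (2 * Z) := by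
        calc W * (E * X) = E * (X * W) := by ring
          _ = E * (Y * Z) := by rw [h5]
          _ = E * Y * Z := by ring
          _ ≤ 2 * W * Z := Nat.mul_le_mul_right _ h6
          _ = W * (2 * Z) := by ring
      exact Nat.le_of_mul_le_mul_left h7 hW
    exact ⟨aux _ _ _ _ _ hW h1 h4, aux _ _ _ _ _ hW h2 h4⟩
  have hP : 3 ^ (t * (t - 1) / 2) * Nat.card {g : G // (M2 (χ g) ∧ (κ (χ g)).toAdd = c) ∧
      t ≤ s - (alt (C + (Φ (χ g)).toAdd - tt g)).rank} ≤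
      Nat.card {a : (ZMod f)ˣ // M2 a ∧ (κ a).toAdd = c} * (2 * Nat.card χ.ker) := by
    refine count_le χ (fun g => t ≤ s - (alt (C + (Φ (χ g)).toAdd - tt g)).rank)
      (fun a => M2 a ∧ (κ a).toAdd = c) _ _ fun a ha => ?_
    refine le_trans (Nat.mul_le_mul_left _ (le_of_eq ?_)) (cls a (C + (Φ a).toAdd) ha.1).1
    refine Nat.card_congr (Equiv.subtypeEquivRight fun g => ?_)
    constructor
    · rintro ⟨rfl, h⟩
      exact ⟨rfl, h⟩
    · rintro ⟨rfl, h⟩
      exact ⟨rfl, h⟩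
  have hN : 3 ^ (t * (t - 1) / 2) * Nat.card {g : G // (M2 (χ g) ∧ (κ (χ g)).toAdd = -c) ∧
      t ≤ s - (alt (C - (Φ (χ g)).toAdd + tt g)).rank} ≤
      Nat.card {a : (ZMod f)ˣ // M2 a ∧ (κ a).toAdd = -c} * (2 * Nat.card χ.ker) := by
    refine count_le χ (fun g => t ≤ s - (alt (C - (Φ (χ g)).toAdd + tt g)).rank)
      (fun a => M2 a ∧ (κ a).toAdd = -c) _ _ fun a ha => ?_
    refine le_trans (Nat.mul_le_mul_left _ (le_of_eq ?_)) (cls a (C - (Φ a).toAdd) ha.1).2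
    refine Nat.card_congr (Equiv.subtypeEquivRight fun g => ?_)
    constructor
    · rintro ⟨rfl, h⟩
      exact ⟨rfl, h⟩
    · rintro ⟨rfl, h⟩
      exact ⟨rfl, h⟩
  have hB : Nat.card {g : G // Bad χ κ c C Φ t tt g} ≤
      Nat.card {g : G // (M2 (χ g) ∧ (κ (χ g)).toAdd = c) ∧
        t ≤ s - (alt (C + (Φ (χ g)).toAdd - tt g)).rank} +
      Nat.card {g : G // (M2 (χ g) ∧ (κ (χ g)).toAdd = -c) ∧
        t ≤ s - (alt (C - (Φ (χ g)).toAdd + tt g)).rank} := by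
    have h1 : {g : G | Bad χ κ c C Φ t tt g} ⊆
        {g : G | (M2 (χ g) ∧ (κ (χ g)).toAdd = c) ∧
          t ≤ s - (alt (C + (Φ (χ g)).toAdd - tt g)).rank} ∪
        {g : G | (M2 (χ g) ∧ (κ (χ g)).toAdd = -c) ∧
          t ≤ s - (alt (C - (Φ (χ g)).toAdd + tt g)).rank} := by
      rintro g ⟨h2, ⟨h4, h5⟩ | ⟨h4, h5⟩⟩
      · exact Or.inl ⟨⟨h2, h4⟩, h5⟩
      · exact Or.inr ⟨⟨h2, h4⟩, h5⟩
    exact (Set.ncard_le_ncard h1 (Set.toFinite _)).trans (Set.ncard_union_le _ _)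
  rw [hH] at hcard
  have h1 := hκ c
  have h2 := hκ (-c)
  generalize Nat.card {g : G // Bad χ κ c C Φ t tt g} = nB at *
  generalize Nat.card {g : G // (M2 (χ g) ∧ (κ (χ g)).toAdd = c) ∧
        t ≤ s - (alt (C + (Φ (χ g)).toAdd - tt g)).rank} = nP at *
  generalize Nat.card {g : G // (M2 (χ g) ∧ (κ (χ g)).toAdd = -c) ∧
        t ≤ s - (alt (C - (Φ (χ g)).toAdd + tt g)).rank} = nN at *
  generalize Nat.card {a : (ZMod f)ˣ // M2 a ∧ (κ a).toAdd = c} = cP at *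
  generalize Nat.card {a : (ZMod f)ˣ // M2 a ∧ (κ a).toAdd = -c} = cN at *
  generalize 3 ^ (t * (t - 1) / 2) = E at *
  generalize 3 ^ (m + 1) = F at *
  generalize Nat.card χ.ker = K at *
  rw [← hcard]
  calc E * F * nB ≤ E * F * (nP + nN) := Nat.mul_le_mul_left _ hB
    _ = F * (E * nP + E * nN) := by ring
    _ ≤ F * (cP * (2 * K) + cN * (2 * K)) := Nat.mul_le_mul_left _ (add_le_add hP hN)
    _ = K * (cP * (2 * F)) + K * (cN * (2 * F)) := by ring
    _ = K * f.totient + K * f.totient := by rw [h1, h2]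
    _ = 2 * (K * f.totient) := by ring

/-- counting the elements of `T` -/
theorem card_T [Finite G] (hALTK : ALTK) (hEQD : EQD) (hf : 0 < f)
    (hχ : Function.Surjective χ)
    (heq : ∀ (a : (ZMod f)ˣ) (v v' : Fin s → Fin s → ZMod 3), M2 a →
      Nat.card {g : G // χ g = a ∧ ∀ j i, j < i → tt g j i = v j i} =
        Nat.card {g : G // χ g = a ∧ ∀ j i, j < i → tt g j i = v' j i})
    (hκ : ∀ c : Fin (m + 1) → ZMod 3,
      Nat.card {a : (ZMod f)ˣ // M2 a ∧ (κ a).toAdd = c} * (2 * 3 ^ (m + 1)) = f.totient) :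
    (Nat.card {a : (ZMod f)ˣ // M2 a ∧ ((κ a).toAdd = c ∨ (κ a).toAdd = -c)} : ℝ) *
        (1 / (f.totient : ℝ)) -
      (Nat.card {g : G // InU χ κ c g ∧ ¬ Bad χ κ c C Φ t tt g} : ℝ) / Nat.card G ≤
      2 / 3 ^ (t * (t - 1) / 2) / 3 ^ (m + 1) := by
  have : NeZero f := ⟨hf.ne'⟩
  obtain ⟨hfib, hcard⟩ := fibre χ hχ
  have hH : Nat.card (ZMod f)ˣ = f.totient := by
    rw [Nat.card_eq_fintype_card, ZMod.card_units_eq_totient]
  rw [hH] at hcard
  have hU : Nat.card {g : G // InU χ κ c g} =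
      Nat.card {a : (ZMod f)ˣ // M2 a ∧ ((κ a).toAdd = c ∨ (κ a).toAdd = -c)} *
        Nat.card χ.ker :=
    count_eq χ (fun a => M2 a ∧ ((κ a).toAdd = c ∨ (κ a).toAdd = -c)) _ fun a _ => hfib a
  have hUT : Nat.card {g : G // InU χ κ c g} ≤
      Nat.card {g : G // InU χ κ c g ∧ ¬ Bad χ κ c C Φ t tt g} +
        Nat.card {g : G // Bad χ κ c C Φ t tt g} := by
    have h1 : {g : G | InU χ κ c g} ⊆
        {g : G | InU χ κ c g ∧ ¬ Bad χ κ c C Φ t tt g} ∪ {g : G | Bad χ κ c C Φ t tt g} := by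
      intro g hg
      by_cases hb : Bad χ κ c C Φ t tt g
      · exact Or.inr hb
      · exact Or.inl ⟨hg, hb⟩
    exact (Set.ncard_le_ncard h1 (Set.toFinite _)).trans (Set.ncard_union_le _ _)
  have hB := card_bad χ κ c C Φ t tt hALTK hEQD hf hχ heq hκ
  have hK : 0 < Nat.card χ.ker := Nat.card_pos
  have hφ : 0 < f.totient := Nat.totient_pos.2 hf
  rw [hU] at hUT
  generalize Nat.card {a : (ZMod f)ˣ // M2 a ∧ ((κ a).toAdd = c ∨ (κ a).toAdd = -c)} = nV at *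
  generalize Nat.card {g : G // InU χ κ c g ∧ ¬ Bad χ κ c C Φ t tt g} = nT at *
  generalize Nat.card {g : G // Bad χ κ c C Φ t tt g} = nB at *
  generalize Nat.card χ.ker = K at *
  rw [← hcard] at hB ⊢
  have hK' : (0 : ℝ) < K := Nat.cast_pos.2 hK
  have hφ' : (0 : ℝ) < f.totient := Nat.cast_pos.2 hφ
  have hE : (0 : ℝ) < 3 ^ (t * (t - 1) / 2) := by positivity
  have hF : (0 : ℝ) < 3 ^ (m + 1) := by positivity
  have h1 : (nV : ℝ) * K ≤ nT + nB := by exact_mod_cast hUT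
  have h2 : (3 : ℝ) ^ (t * (t - 1) / 2) * 3 ^ (m + 1) * nB ≤ 2 * (K * f.totient) := by
    exact_mod_cast hB
  have h3 : (nV : ℝ) * (1 / (f.totient : ℝ)) - (nT : ℝ) / ((K * f.totient : ℕ) : ℝ) =
      (nV * K - nT) / (K * f.totient) := by
    push_cast
    field_simp
  rw [h3, div_div, div_le_div_iff₀ (by positivity) (by positivity)]
  calc ((nV : ℝ) * K - nT) * (3 ^ (t * (t - 1) / 2) * 3 ^ (m + 1))
      ≤ nB * (3 ^ (t * (t - 1) / 2) * 3 ^ (m + 1)) :=
        mul_le_mul_of_nonneg_right (by linarith) (by positivity)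
    _ = 3 ^ (t * (t - 1) / 2) * 3 ^ (m + 1) * nB := by ring
    _ ≤ 2 * (K * f.totient) := h2

end

end BDENS

open BDENS in
/-- BDENS: upper bound for the density of the primes with large kernel. -/
theorem BDENS_thm (hGALD : GALD) (hALTK : ALTK) (hEQD : EQD) (hDIR : DIR) : BDENS := by
  classical
  intro s b p q p' q' f m t κ c C Φ hSys hf h9 hκ
  obtain ⟨L, iF, iN, iG, χ, tt, N₀, hχ, hconj, hpow, heq, hfrob⟩ :=
    hGALD s b p q p' q' f hSys hf h9
  have h3 : 3 ∣ f := Dvd.dvd.trans (by norm_num) h9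
  have : NeZero f := ⟨hf.ne'⟩
  have hst : ∀ g h τ : L ≃ₐ[ℚ] L, g ∈ {g | InU χ κ c g ∧ ¬ Bad χ κ c C Φ t tt g} →
      Subgroup.zpowers h = Subgroup.zpowers (τ * g * τ⁻¹) →
      h ∈ {g | InU χ κ c g ∧ ¬ Bad χ κ c C Φ t tt g} := fun g h τ hg hz =>
    stable χ κ c C Φ t tt hf h3 hconj hpow hg hz
  obtain ⟨C1, hC1⟩ := RI.FROBD_thm L _ hst
  choose DC hDC using fun a : (ZMod f)ˣ => hDIR f a hf
  have hT := card_T χ κ c C Φ t tt hALTK hEQD hf hχ heq hκ
  -- the sets of primes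
  obtain ⟨SB, hSB⟩ : ∃ SB : Set ℕ, SB = {Q : ℕ | ∃ hQ : Q.Coprime f, Q % 3 = 2 ∧
      (κ (ZMod.unitOfCoprime Q hQ)).toAdd = c ∧
      ∀ τ : Fin s → Fin s → ZMod 3,
        (∀ j i, j ≠ i → ∀ r : ℤ, (Q : ℤ) ∣ r ^ 3 - b j →
          τ j i = TAUV Q (p j i) (q j i) (p' j i) (q' j i) r) →
        t ≤ s - (alt (C + (Φ (ZMod.unitOfCoprime Q hQ)).toAdd - τ)).rank} := ⟨_, rfl⟩
  obtain ⟨ST, hST⟩ : ∃ ST : Set ℕ, ST = {Q : ℕ | ∃ g ∈ {g | InU χ κ c g ∧
      ¬ Bad χ κ c C Φ t tt g}, ∃ P : Ideal (𝓞 L), P.IsPrime ∧ (Q : 𝓞 L) ∈ P ∧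
      MulAction.stabilizer (L ≃ₐ[ℚ] L) P = Subgroup.zpowers g} := ⟨_, rfl⟩
  obtain ⟨V, hV⟩ : ∃ V : Finset (ZMod f)ˣ, V = Finset.univ.filter fun a =>
      M2 a ∧ ((κ a).toAdd = c ∨ (κ a).toAdd = -c) := ⟨_, rfl⟩
  have hVc : V.card =
      Nat.card {a : (ZMod f)ˣ // M2 a ∧ ((κ a).toAdd = c ∨ (κ a).toAdd = -c)} := by
    rw [Nat.card_eq_fintype_card, Fintype.card_subtype, hV]
  have hM : ∀ (Q : ℕ) (hQ : Q.Coprime f), M2 (ZMod.unitOfCoprime Q hQ) ↔ Q % 3 = 2 := by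
    intro Q hQ
    unfold M2
    rw [ZMod.coe_unitOfCoprime, ZMod.val_natCast, Nat.mod_mod_of_dvd _ h3]
  have hcop : ∀ n : ℕ, n.Prime → n ∉ Finset.range (max N₀ f + 1) → n.Coprime f ∧ N₀ < n := by
    intro n hn hA
    rw [Finset.mem_range, not_lt] at hA
    refine ⟨(Nat.Prime.coprime_iff_not_dvd hn).2 fun h => ?_, ?_⟩
    · have h1 := Nat.le_of_dvd hf h
      have h2 := le_max_right N₀ f
      omega
    · have h2 := le_max_left N₀ f
      omega
  -- the elements of `ST`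
  have hSTe : ∀ n : ℕ, n.Prime → n ∉ Finset.range (max N₀ f + 1) → n ∈ ST →
      ∃ (hQ : n.Coprime f) (g : L ≃ₐ[ℚ] L), (InU χ κ c g ∧ ¬ Bad χ κ c C Φ t tt g) ∧
        χ g = ZMod.unitOfCoprime n hQ ∧ (n % 3 = 2 → ∀ j i, j ≠ i → ∀ r : ℤ,
          (n : ℤ) ∣ r ^ 3 - b j → tt g j i = TAUV n (p j i) (q j i) (p' j i) (q' j i) r) := by
    intro n hn hA hnST
    rw [hST] at hnST
    obtain ⟨g, hg, P, hP, hnP, hstab⟩ := hnST
    obtain ⟨hQ, hN⟩ := hcop n hn hA
    obtain ⟨k, hk, hχk, htk⟩ := hfrob n hQ hn hN P g hP hnP hstab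
    refine ⟨hQ, g ^ k, ?_, hχk, htk⟩
    refine hst g (g ^ k) 1 hg ?_
    rw [one_mul, inv_one, mul_one]
    exact zpowers_pow_eq hk
  refine ⟨2 * (Finset.range (max N₀ f + 1)).card + ∑ a ∈ V, DC a + C1, fun σ h1 h2 => ?_⟩
  have key := sm_add_le SB ST {Q : ℕ | ∃ a ∈ V, (Q : ZMod f) = a}
    (Finset.range (max N₀ f + 1)) ?_ ?_ h1
  · have cov := sm_cover {Q : ℕ | ∃ a ∈ V, (Q : ZMod f) = a} V (fun n _ hn => hn) h1
    have hfr := hC1 σ h1 h2
    have hfr' : ((Nat.card {g : L ≃ₐ[ℚ] L // InU χ κ c g ∧ ¬ Bad χ κ c C Φ t tt g} : ℝ) /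
        Nat.card (L ≃ₐ[ℚ] L)) * Real.log (1 / (σ - 1)) - C1 ≤ sm ST σ := by
      rw [hST]
      exact hfr
    have hsum : ∑ a ∈ V, ∑' q : {q : ℕ // q.Prime ∧ (q : ZMod f) = a}, (q : ℝ) ^ (-σ) ≤
        ∑ a ∈ V, ((1 / (f.totient : ℝ)) * Real.log (1 / (σ - 1)) + DC a) :=
      Finset.sum_le_sum fun a _ => hDC a σ h1 h2
    rw [Finset.sum_add_distrib, Finset.sum_const, nsmul_eq_mul, hVc] at hsum
    have hlog : 0 ≤ Real.log (1 / (σ - 1)) := by
      apply Real.log_nonneg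
      rw [le_div_iff₀ (by linarith)]
      linarith
    have hmul := mul_le_mul_of_nonneg_right hT hlog
    have hgoal : sm SB σ ≤ 2 / 3 ^ (t * (t - 1) / 2) / 3 ^ (m + 1) * Real.log (1 / (σ - 1)) +
        (2 * (Finset.range (max N₀ f + 1)).card + ∑ a ∈ V, DC a + C1) := by
      rw [sub_mul, mul_assoc] at hmul
      linarith
    rw [hSB] at hgoal
    exact hgoal
  · intro n hn hA hnB
    rw [hSB] at hnB
    obtain ⟨hQ, hn3, hnc, hnτ⟩ := hnB
    constructor
    · refine ⟨ZMod.unitOfCoprime n hQ, ?_, ZMod.coe_unitOfCoprime n hQ⟩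
      rw [hV]
      exact Finset.mem_filter.2 ⟨Finset.mem_univ _, (hM n hQ).2 hn3, Or.inl hnc⟩
    · intro hnST
      obtain ⟨hQ', g, ⟨hgU, hgB⟩, hχg, htg⟩ := hSTe n hn hA hnST
      apply hgB
      refine ⟨hgU.1, Or.inl ⟨?_, ?_⟩⟩
      · rw [hχg]
        exact hnc
      · rw [hχg]
        exact hnτ (tt g) (htg hn3)
  · intro n hn hA hnST
    obtain ⟨hQ', g, ⟨hgU, hgB⟩, hχg, htg⟩ := hSTe n hn hA hnST
    refine ⟨ZMod.unitOfCoprime n hQ', ?_, ZMod.coe_unitOfCoprime n hQ'⟩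
    rw [hV]
    have h5 := hgU
    unfold InU at h5
    rw [hχg] at h5
    exact Finset.mem_filter.2 ⟨Finset.mem_univ _, h5⟩

end Pool.Agent.PT
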