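import Pool.Agent.PT.Stmts5

/-!
# BFINA: the distribution of the rank over prime twists, final assembly
-/

open NumberField IsDedekindDomain Finset
open scoped nonZeroDivisors Pointwise

namespace Pool.Agent.PT

open Pool.Agent.Lib_helper18 Pool.Agent.Lib_helper18.Eis Pool.Agent.Lib_helper84.Cub

namespace BFINA

/-! ### Sums over sets of natural numbers -/

/-- The sum of `q ^ (-σ)` over the set `A`. -/
noncomputable def PS (A : Set ℕ) (σ : ℝ) : ℝ := ∑' q : A, ((q : ℕ) : ℝ) ^ (-σ)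

theorem PS_eq (A : Set ℕ) (σ : ℝ) : PS A σ = ∑' n : ℕ, A.indicator (fun n : ℕ => (n : ℝ) ^ (-σ)) n :=
  tsum_subtype A fun n : ℕ => (n : ℝ) ^ (-σ)

theorem summ {σ : ℝ} (h : 1 < σ) (A : Set ℕ) :
    Summable (A.indicator (fun n : ℕ => (n : ℝ) ^ (-σ))) :=
  (Real.summable_nat_rpow.2 (by linarith)).indicator A

theorem rpow_nn (n : ℕ) (σ : ℝ) : 0 ≤ (n : ℝ) ^ (-σ) := Real.rpow_nonneg (Nat.cast_nonneg n) _

theorem PS_mono {A B : Set ℕ} (hAB : A ⊆ B) {σ : ℝ} (h : 1 < σ) : PS A σ ≤ PS B σ := by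
  rw [PS_eq, PS_eq]
  apply (summ h A).tsum_le_tsum _ (summ h B)
  intro n
  exact Set.indicator_le_indicator_of_subset hAB (fun n => rpow_nn n σ) n

theorem PS_union {A B : Set ℕ} {σ : ℝ} (h : 1 < σ) : PS (A ∪ B) σ ≤ PS A σ + PS B σ := by
  classical
  rw [PS_eq, PS_eq, PS_eq, ← (summ h A).tsum_add (summ h B)]
  apply (summ h (A ∪ B)).tsum_le_tsum _ ((summ h A).add (summ h B))
  intro n
  have h0 := rpow_nn n σ
  rw [Set.indicator_apply, Set.indicator_apply, Set.indicator_apply]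
  by_cases hA : n ∈ A
  · rw [if_pos (show n ∈ A ∪ B from Or.inl hA), if_pos hA]
    split_ifs <;> linarith
  · by_cases hB : n ∈ B
    · rw [if_pos (show n ∈ A ∪ B from Or.inr hB), if_neg hA, if_pos hB, zero_add]
    · rw [if_neg (show n ∉ A ∪ B from fun h => h.elim hA hB), if_neg hA, if_neg hB, zero_add]

theorem PS_small (M : ℕ) {σ : ℝ} (h : 1 < σ) : PS {q | q ≤ M} σ ≤ M + 1 := by
  classical
  rw [PS_eq, tsum_eq_sum (s := Finset.range (M + 1))]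
  · calc ∑ n ∈ Finset.range (M + 1), Set.indicator {q | q ≤ M} (fun n : ℕ => (n : ℝ) ^ (-σ)) n
        ≤ ∑ n ∈ Finset.range (M + 1), (1 : ℝ) := by
          refine Finset.sum_le_sum fun n _ => ?_
          rw [Set.indicator_apply]
          split_ifs
          · rcases Nat.eq_zero_or_pos n with rfl | hn
            · rw [Nat.cast_zero, Real.zero_rpow (by linarith)]
              exact zero_le_one
            · exact Real.rpow_le_one_of_one_le_of_nonpos (by exact_mod_cast hn) (by linarith)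
          · exact zero_le_one
      _ = M + 1 := by
          rw [Finset.sum_const, Finset.card_range, nsmul_eq_mul, mul_one]
          push_cast
          ring
  · intro n hn
    rw [Finset.mem_range, not_lt] at hn
    exact Set.indicator_of_notMem (s := {q | q ≤ M})
      (fun h => absurd (show n ≤ M from h) (by omega)) _

/-! ### Cube roots -/

theorem exists_root {q : ℕ} (hq : q.Prime) (h3 : q % 3 = 2) (b : ℤ) : ∃ r : ℤ, (q : ℤ) ∣ r ^ 3 - b := by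
  have : Fact q.Prime := ⟨hq⟩
  obtain ⟨k, hk⟩ : ∃ k, k = (2 * q - 1) / 3 := ⟨_, rfl⟩
  have hk3 : k * 3 = q + (q - 1) := by
    have := hq.two_le
    omega
  refine ⟨b ^ k, ?_⟩
  rw [← ZMod.intCast_zmod_eq_zero_iff_dvd]
  push_cast
  rw [← pow_mul, hk3, pow_add, ZMod.pow_card, ← pow_succ', Nat.sub_add_cancel hq.one_le,
    ZMod.pow_card, sub_self]

section Cls

variable {k : ℕ} {r f : Fin k → ℕ} (hk : 1 ≤ k) (hr : ∀ i, (r i).Prime) (h2 : ∀ i, r i % 3 = 2)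
  (hinj : Function.Injective r) (hf : ∀ i, f i = 1 ∨ f i = 2)

include hr h2 in
theorem three_ndvd : ¬ 3 ∣ ∏ i, r i ^ f i := by
  intro h
  obtain ⟨i, -, hi⟩ := (Nat.prime_three.prime.dvd_finset_prod_iff _).1 h
  have h3 := Nat.prime_three.dvd_of_dvd_pow hi
  have := h2 i
  omega

include hr h2 hinj hf in
theorem nf : NF (∏ i, r i ^ f i) (fun i : Fin 0 => i.elim0) (fun i : Fin 0 => i.elim0)
    (fun i : Fin 0 => i.elim0) r f where
  pp := fun i => i.elim0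
  p1 := fun i => i.elim0
  pπ := fun i => i.elim0
  pe := fun i => i.elim0
  pinj := fun i => i.elim0
  rp := hr
  r2 := h2
  rf := hf
  rinj := hinj
  eq := by rw [Fin.prod_univ_zero, one_mul]

include hk hr h2 hinj hf in
theorem cls (hBSYS : BSYS) (hDCONST : DCONST) (hCLSC : CLSC) (hBKER : BKER) (hBDENS : BDENS)
    (hTEND : TEND) (hEADM : EADM) (t : ℕ) (w0 : ZMod 3) :
    ∃ K : ℝ, ∀ σ : ℝ, 1 < σ → σ ≤ 2 →
      PS {q : ℕ | (q.Prime ∧ q % 3 = 2 ∧ (q % 9 ≠ 8 ∨ ∃ i, r i % 9 ≠ 8) ∧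
        t ≤ CubeRank.rr ((∏ i, (r i : ℤ) ^ f i) * q)) ∧ wt ((q : ℤ) ^ 2) = w0} σ ≤
      2 / 3 ^ (t * (t - 1) / 2) / 3 * Real.log (1 / (σ - 1)) + K := by
  classical
  obtain ⟨n, hn⟩ : ∃ n, n = ∏ i, r i ^ f i := ⟨_, rfl⟩
  have hNF := nf hr h2 hinj hf
  rw [← hn] at hNF
  have hn0 : 0 < n := by
    rw [hn]
    exact Finset.prod_pos fun i _ => pow_pos (hr i).pos _
  have hn3 : ¬ 3 ∣ n := by
    rw [hn]
    exact three_ndvd hr h2
  have hnZ : (∏ i, (r i : ℤ) ^ f i) = (n : ℤ) := by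
    rw [hn]
    push_cast
    rfl
  obtain ⟨s, b, P, Q, P', Q', hAC, hSys, hspan⟩ := hBSYS n k (fun i : Fin 0 => i.elim0)
    (fun i : Fin 0 => i.elim0) (fun i : Fin 0 => i.elim0) r f w0 (fun i : Fin 0 => i.elim0) hNF
  -- the conductor
  have hD : ∀ j i : Fin s, ∃ f₀ : ℕ, 0 < f₀ ∧ (j ≠ i → ∀ f : ℕ, 0 < f → f₀ ∣ f →
      ∃ (C : ZMod 3) (Φ : (ZMod f)ˣ →* Multiplicative (ZMod 3)) (N₀ : ℕ),
        ∀ (q : ℕ) (hQ : q.Coprime f), q.Prime → N₀ < q → q % 3 = 2 →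
          BOk ((n : ℤ) * q) → Adm ((n : ℤ) * q) (b j) → Adm ((n : ℤ) * q) (b i) →
          ∀ r : ℤ, (q : ℤ) ∣ r ^ 3 - b j →
            OO ((n : ℤ) * q) (b j) (b i) (P j i) (Q j i) (P' j i) (Q' j i) =
            C + (Φ (ZMod.unitOfCoprime q hQ)).toAdd -
              TAUV q (P j i) (Q j i) (P' j i) (Q' j i) r) := by
    intro j i
    by_cases hji : j = i
    · exact ⟨1, one_pos, fun h => absurd hji h⟩
    · obtain ⟨f₀, h0, h1⟩ := hDCONST n (b j) (b i) (P j i) (Q j i) (P' j i) (Q' j i) hn0 hn3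
        (hSys.sol j i hji) (hAC j).ne (hAC i).ne
      exact ⟨f₀, h0, fun _ => h1⟩
  choose F0 hF0 hF1 using hD
  obtain ⟨F, hFdef⟩ : ∃ F, F = 9 * ∏ j, ∏ i, F0 j i := ⟨_, rfl⟩
  have hFpos : 0 < F := by
    rw [hFdef]
    exact Nat.mul_pos (by norm_num) (Finset.prod_pos fun j _ => Finset.prod_pos fun i _ => hF0 j i)
  have hF9 : 9 ∣ F := by
    rw [hFdef]
    exact dvd_mul_right _ _
  have hFd : ∀ j i, F0 j i ∣ F := by
    intro j i
    rw [hFdef]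
    apply Dvd.dvd.mul_left
    exact (Finset.dvd_prod_of_mem (fun i => F0 j i) (Finset.mem_univ i)).trans
      (Finset.dvd_prod_of_mem (fun j => ∏ i, F0 j i) (Finset.mem_univ j))
  have hC : ∀ j i : Fin s, ∃ (C : ZMod 3) (Φ : (ZMod F)ˣ →* Multiplicative (ZMod 3)) (N₀ : ℕ),
      j ≠ i → ∀ (q : ℕ) (hQ : q.Coprime F), q.Prime → N₀ < q → q % 3 = 2 →
          BOk ((n : ℤ) * q) → Adm ((n : ℤ) * q) (b j) → Adm ((n : ℤ) * q) (b i) →
          ∀ r : ℤ, (q : ℤ) ∣ r ^ 3 - b j →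
            OO ((n : ℤ) * q) (b j) (b i) (P j i) (Q j i) (P' j i) (Q' j i) =
            C + (Φ (ZMod.unitOfCoprime q hQ)).toAdd -
              TAUV q (P j i) (Q j i) (P' j i) (Q' j i) r := by
    intro j i
    by_cases hji : j = i
    · exact ⟨0, 1, 0, fun h => absurd hji h⟩
    · obtain ⟨C, Φ, N₀, h⟩ := hF1 j i hji F hFpos (hFd j i)
      exact ⟨C, Φ, N₀, fun _ => h⟩
  choose C Φ N₀ hC using hC
  obtain ⟨κ, hκ1, hκ2⟩ := hCLSC 0 (fun i : Fin 0 => i.elim0) (fun i : Fin 0 => i.elim0)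
    (fun i => i.elim0) (fun i => i.elim0) (fun i => i.elim0) (fun i => i.elim0) F hFpos hF9
    (fun i => i.elim0)
  let Φ' : (ZMod F)ˣ →* Multiplicative (Fin s → Fin s → ZMod 3) :=
    { toFun := fun a => Multiplicative.ofAdd fun j i => (Φ j i a).toAdd
      map_one' := by
        rw [← ofAdd_zero]
        congr 1
        funext j i
        rw [map_one]
        rfl
      map_mul' := by
        intro a a'
        rw [← ofAdd_add]
        congr 1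
        funext j i
        rw [map_mul]
        rfl }
  obtain ⟨K, hK⟩ := hBDENS s b P Q P' Q' F 0 t κ (Fin.cons w0 fun i : Fin 0 => i.elim0) C Φ' hSys
    hFpos hF9 hκ2
  obtain ⟨M, hM⟩ : ∃ M, M = n + F + ∑ j, ∑ i, N₀ j i := ⟨_, rfl⟩
  refine ⟨K + (M + 1), fun σ h1 hσ2 => ?_⟩
  have hB := hK σ h1 hσ2
  obtain ⟨B, hBdef⟩ : ∃ B : Set ℕ, B = {q : ℕ | q.Prime ∧ ∃ hQ : q.Coprime F, q % 3 = 2 ∧
      (κ (ZMod.unitOfCoprime q hQ)).toAdd = (Fin.cons w0 fun i : Fin 0 => i.elim0) ∧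
      ∀ τ : Fin s → Fin s → ZMod 3,
        (∀ j i, j ≠ i → ∀ r : ℤ, (q : ℤ) ∣ r ^ 3 - b j →
          τ j i = TAUV q (P j i) (Q j i) (P' j i) (Q' j i) r) →
        t ≤ s - (alt (C + (Φ' (ZMod.unitOfCoprime q hQ)).toAdd - τ)).rank} := ⟨_, rfl⟩
  have hB' : PS B σ ≤ 2 / 3 ^ (t * (t - 1) / 2) / 3 ^ (0 + 1) * Real.log (1 / (σ - 1)) + K := by
    rw [hBdef]
    exact hB
  have hsub : {q : ℕ | (q.Prime ∧ q % 3 = 2 ∧ (q % 9 ≠ 8 ∨ ∃ i, r i % 9 ≠ 8) ∧
      t ≤ CubeRank.rr ((∏ i, (r i : ℤ) ^ f i) * q)) ∧ wt ((q : ℤ) ^ 2) = w0} ⊆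
      B ∪ {q | q ≤ M} := by
    rintro q ⟨⟨hq, hq3, hq9, hrr⟩, hw⟩
    rcases le_or_gt q M with hqM | hqM
    · exact Or.inr hqM
    left
    rw [hnZ] at hrr
    have hqn : ¬ q ∣ n := fun h => by
      have := Nat.le_of_dvd hn0 h
      omega
    have hQ : q.Coprime F := by
      rw [Nat.Prime.coprime_iff_not_dvd hq]
      intro h
      have := Nat.le_of_dvd hFpos h
      omega
    have hIn : InCl (fun i : Fin 0 => i.elim0) w0 (fun i : Fin 0 => i.elim0) q :=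
      ⟨hq3, hw, fun i => i.elim0⟩
    obtain ⟨hBOk, hA⟩ := hEADM n 0 k (fun i : Fin 0 => i.elim0) (fun i : Fin 0 => i.elim0)
      (fun i : Fin 0 => i.elim0) r f w0 (fun i : Fin 0 => i.elim0) q hNF hq hIn hqn
    have hAdm : ∀ i, Adm ((n : ℤ) * q) (b i) := fun i => (hA (b i) (hAC i).supp).1 (hAC i)
    have hgen := hBKER n k (fun i : Fin 0 => i.elim0) (fun i : Fin 0 => i.elim0)
      (fun i : Fin 0 => i.elim0) r f w0 (fun i : Fin 0 => i.elim0) s b P Q P' Q' q hNF hk hAC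
      hSys hspan hq hq3 hw hqn hq9.symm
    have ht : t ≤ s - (Mat b P Q P' Q' ((n : ℤ) * q)).rank := hrr.trans (CubeRank.rr_le hgen)
    rw [hBdef]
    refine ⟨hq, hQ, hq3, ?_, ?_⟩
    · rw [hκ1]
      funext i
      refine Fin.cases ?_ (fun i => i.elim0) i
      rw [Fin.cons_zero, Fin.cons_zero, hw]
    · intro τ hτ
      have hent : ∀ j i, j ≠ i → Mat b P Q P' Q' ((n : ℤ) * q) j i =
          (C + (Φ' (ZMod.unitOfCoprime q hQ)).toAdd - τ) j i := by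
        intro j i hji
        obtain ⟨ρ, hρ⟩ := exists_root hq hq3 (b j)
        have hN : N₀ j i < q := by
          have e1 : N₀ j i ≤ ∑ i, N₀ j i :=
            Finset.single_le_sum (f := fun i => N₀ j i) (fun _ _ => Nat.zero_le _)
              (Finset.mem_univ i)
          have e2 : ∑ i, N₀ j i ≤ ∑ j, ∑ i, N₀ j i :=
            Finset.single_le_sum (f := fun j => ∑ i, N₀ j i) (fun _ _ => Nat.zero_le _)
              (Finset.mem_univ j)
          omega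
        rw [Mat, if_neg hji, hC j i hji q hQ hq hN hq3 hBOk (hAdm j) (hAdm i) ρ hρ,
          ← hτ j i hji ρ hρ]
        rfl
      have hMat : Mat b P Q P' Q' ((n : ℤ) * q) =
          alt (C + (Φ' (ZMod.unitOfCoprime q hQ)).toAdd - τ) := by
        have hanti := (hTEND s b P Q P' Q' ((n : ℤ) * q) hSys hBOk hAdm).1
        ext j i
        rw [alt]
        rcases lt_trichotomy j i with h | h | h
        · rw [if_pos h, hent j i h.ne]
        · subst h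
          rw [if_neg (lt_irrefl _), if_neg (lt_irrefl _), Mat, if_pos rfl]
        · rw [if_neg (not_lt.2 h.le), if_pos h, hanti j i, hent i j h.ne]
      rw [← hMat]
      exact ht
  have h5 := PS_mono hsub h1
  have h6 := PS_union (A := B) (B := {q | q ≤ M}) h1
  have h7 := PS_small M h1
  rw [zero_add, pow_one] at hB'
  linarith

end Cls

end BFINA

open BFINA

/-- BFINA. -/
theorem BFIN_thm (hSPP : SPP) (hBSYS : BSYS) (hDCONST : DCONST) (hCLSC : CLSC) (hBKER : BKER)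
    (hBDENS : BDENS) (hTEND : TEND) (hEADM : EADM) : BFIN := by
  intro k r f hk hr h2 hinj hf t
  have hcl := fun w0 => cls hk hr h2 hinj hf hBSYS hDCONST hCLSC hBKER hBDENS hTEND hEADM t w0
  obtain ⟨K0, hK0⟩ := hcl 0
  obtain ⟨K1, hK1⟩ := hcl 1
  obtain ⟨K2, hK2⟩ := hcl 2
  refine ⟨K0 + K1 + K2, fun σ h1 hσ => ?_⟩
  obtain ⟨A, hA⟩ : ∃ A : ZMod 3 → Set ℕ, ∀ w0, A w0 = {q : ℕ | (q.Prime ∧ q % 3 = 2 ∧
      (q % 9 ≠ 8 ∨ ∃ i, r i % 9 ≠ 8) ∧
        t ≤ CubeRank.rr ((∏ i, (r i : ℤ) ^ f i) * q)) ∧ wt ((q : ℤ) ^ 2) = w0} :=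
    ⟨_, fun _ => rfl⟩
  have h3 : {q : ℕ | q.Prime ∧ q % 3 = 2 ∧ (q % 9 ≠ 8 ∨ ∃ i, r i % 9 ≠ 8) ∧
        t ≤ CubeRank.rr ((∏ i, (r i : ℤ) ^ f i) * q)} ⊆ (A 0 ∪ A 1) ∪ A 2 := by
    intro q hq
    rw [Set.mem_union, Set.mem_union, hA, hA, hA]
    have h4 : ∀ v : ZMod 3, (v = 0 ∨ v = 1) ∨ v = 2 := by decide
    rcases h4 (wt ((q : ℤ) ^ 2)) with (h | h) | h
    · exact Or.inl (Or.inl ⟨hq, h⟩)
    · exact Or.inl (Or.inr ⟨hq, h⟩)
    · exact Or.inr ⟨hq, h⟩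
  have h4 := PS_mono h3 h1
  have h5 := PS_union (A := A 0 ∪ A 1) (B := A 2) h1
  have h6 := PS_union (A := A 0) (B := A 1) h1
  have e0 := hK0 σ h1 hσ
  have e1 := hK1 σ h1 hσ
  have e2 := hK2 σ h1 hσ
  rw [← hA] at e0 e1 e2
  have h7 : PS {q : ℕ | q.Prime ∧ q % 3 = 2 ∧ (q % 9 ≠ 8 ∨ ∃ i, r i % 9 ≠ 8) ∧
        t ≤ CubeRank.rr ((∏ i, (r i : ℤ) ^ f i) * q)} σ ≤
      2 / 3 ^ (t * (t - 1) / 2) * Real.log (1 / (σ - 1)) + (K0 + K1 + K2) := by
    have h8 : (2 / 3 ^ (t * (t - 1) / 2) : ℝ) * Real.log (1 / (σ - 1)) =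
        3 * (2 / 3 ^ (t * (t - 1) / 2) / 3 * Real.log (1 / (σ - 1))) := by
      ring
    rw [h8]
    linarith
  exact h7

end Pool.Agent.PT
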