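import Pool.Agent.PT.Stmts5

/-!
# BKER: the rank is bounded by the dimension of the kernel of the matrix
-/

set_option autoImplicit false

namespace Pool.Agent.PT

open Pool.Agent.Lib_helper18 Pool.Agent.Lib_helper18.Eis Pool.Agent.Lib_helper84.Cub

namespace BKER

open Pool.Agent.CubeRank (UG HypG AA GenBy zf)

/-- the class of the vector `v` -/
def Z {k : ℕ} (r f : Fin k → ℕ) (v : Fin (k + 1) → ZMod 3) : ℕ :=
  ∏ j, r j ^ (f j * (2 - (v j.succ).val))

/-- the primes -/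
def pc {k : ℕ} (q : ℕ) (r : Fin k → ℕ) : Fin (k + 1) → ℕ := Fin.cons q r

theorem AA_pc {k : ℕ} (q : ℕ) (r f : Fin k → ℕ) :
    AA (pc q r) (pc 1 f) = (q : ℤ) * ∏ i, (r i : ℤ) ^ f i := by
  unfold AA
  rw [Fin.prod_univ_succ]
  simp [pc]

theorem cases3 (z : ZMod 3) : z = 0 ∨ z = 1 ∨ z = 2 := by revert z; decide

theorem Z_eq {k : ℕ} (q : ℕ) (r f : Fin k → ℕ) (v : Fin (k + 1) → ZMod 3) (h0 : v 0 = 2) :
    (Z r f v : ℤ) = cell (pc q r) (pc 1 f) (fun i => zf (v i)) 0 ^ 2 *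
      cell (pc q r) (pc 1 f) (fun i => zf (v i)) 1 := by
  unfold cell Z
  rw [Fin.prod_univ_succ, Fin.prod_univ_succ]
  have h1 : zf (v 0) ≠ 0 := by rw [h0]; decide
  have h2 : zf (v 0) ≠ 1 := by rw [h0]; decide
  rw [if_neg h1, if_neg h2, one_mul, one_mul, ← Finset.prod_pow, ← Finset.prod_mul_distrib]
  push_cast
  refine Finset.prod_congr rfl (fun j _ => ?_)
  simp only [pc, Fin.cons_succ]
  rcases cases3 (v j.succ) with h | h | h
  · rw [h, if_pos (by decide), if_neg (by decide), mul_one, ← pow_mul]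
    rfl
  · rw [h, if_neg (by decide), if_pos (by decide), one_pow, one_mul]
    have : (2 - (1 : ZMod 3).val) = 1 := by decide
    rw [this, mul_one]
  · rw [h, if_neg (by decide), if_neg (by decide), one_pow, one_mul]
    have : (2 - (2 : ZMod 3).val) = 0 := by decide
    rw [this, mul_zero, pow_zero]

theorem val_prod {k : ℕ} {r : Fin k → ℕ} (hr : ∀ j, (r j).Prime) (hinj : Function.Injective r)
    (n : Fin k → ℕ) (j : Fin k) : (∏ i, r i ^ n i).factorization (r j) = n j := by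
  rw [Nat.factorization_prod (fun i _ => pow_ne_zero _ (hr i).ne_zero), Finsupp.finset_sum_apply,
    Finset.sum_eq_single j]
  · rw [(hr j).factorization_pow, Finsupp.single_eq_same]
  · intro i _ hij
    rw [(hr i).factorization_pow, Finsupp.single_eq_of_ne (fun h => hij (hinj h).symm)]
  · intro h
    exact absurd (Finset.mem_univ j) h

theorem Z_pos {k : ℕ} {r f : Fin k → ℕ} (hr : ∀ j, (r j).Prime) (v : Fin (k + 1) → ZMod 3) :
    Z r f v ≠ 0 := Finset.prod_ne_zero_iff.mpr (fun j _ => pow_ne_zero _ (hr j).ne_zero)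

/-- equal classes have equal exponents modulo `3` -/
theorem fact_eq {a b : ℕ} {A B : ℤ} (ha : a ≠ 0) (hb : b ≠ 0) (hA : A ≠ 0) (hB : B ≠ 0)
    (h : (a : ℤ) * A ^ 3 = b * B ^ 3) (p : ℕ) :
    (a.factorization p : ZMod 3) = b.factorization p := by
  have h1 : a * A.natAbs ^ 3 = b * B.natAbs ^ 3 := by
    have := congrArg Int.natAbs h
    simpa [Int.natAbs_mul, Int.natAbs_pow] using this
  have hA' : A.natAbs ≠ 0 := Int.natAbs_ne_zero.mpr hA
  have hB' : B.natAbs ≠ 0 := Int.natAbs_ne_zero.mpr hB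
  have h2 := congrArg (fun n => n.factorization p) h1
  simp only [Nat.factorization_mul ha (pow_ne_zero 3 hA'),
    Nat.factorization_mul hb (pow_ne_zero 3 hB'), Nat.factorization_pow, Finsupp.add_apply,
    Finsupp.smul_apply, smul_eq_mul] at h2
  have h3 := congrArg (fun n : ℕ => (n : ZMod 3)) h2
  simp only [Nat.cast_add, Nat.cast_mul] at h3
  have h30 : ((3 : ℕ) : ZMod 3) = 0 := by decide
  rw [h30, zero_mul, zero_mul, add_zero, add_zero] at h3
  exact h3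

theorem Z_inj {k : ℕ} {r f : Fin k → ℕ} (hr : ∀ j, (r j).Prime) (hinj : Function.Injective r)
    (hf : ∀ j, f j = 1 ∨ f j = 2) {v v' : Fin (k + 1) → ZMod 3} (h0 : v 0 = v' 0)
    {A B : ℤ} (hA : A ≠ 0) (hB : B ≠ 0) (h : (Z r f v : ℤ) * A ^ 3 = Z r f v' * B ^ 3) :
    v = v' := by
  funext i
  refine Fin.cases h0 (fun j => ?_) i
  have h1 := fact_eq (Z_pos hr v) (Z_pos hr v') hA hB h (r j)
  unfold Z at h1
  rw [val_prod hr hinj, val_prod hr hinj] at h1
  generalize v j.succ = a at *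
  generalize v' j.succ = b at *
  rcases hf j with h2 | h2 <;> rw [h2] at h1 <;> revert h1 <;> revert a b <;> decide

/-- two products that agree modulo cubes -/
theorem prod_cube {s : ℕ} (b : Fin s → ℤ) (hb : ∀ i, b i ≠ 0) (g g' : Fin s → ℕ)
    (h : ∀ i, (g i : ZMod 3) = g' i) : ∃ A B : ℤ, A ≠ 0 ∧ B ≠ 0 ∧
      (∏ i, b i ^ g i) * A ^ 3 = (∏ i, b i ^ g' i) * B ^ 3 := by
  refine ⟨∏ i, b i ^ (g' i / 3), ∏ i, b i ^ (g i / 3),
    Finset.prod_ne_zero_iff.mpr (fun i _ => pow_ne_zero _ (hb i)),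
    Finset.prod_ne_zero_iff.mpr (fun i _ => pow_ne_zero _ (hb i)), ?_⟩
  rw [← Finset.prod_pow, ← Finset.prod_pow, ← Finset.prod_mul_distrib, ← Finset.prod_mul_distrib]
  refine Finset.prod_congr rfl (fun i _ => ?_)
  rw [← pow_mul, ← pow_mul, ← pow_add, ← pow_add]
  congr 1
  have h1 : g i % 3 = g' i % 3 := (ZMod.natCast_eq_natCast_iff _ _ _).mp (h i)
  omega

theorem NF_eq {n k : ℕ} {π : Fin 0 → PP} {p e : Fin 0 → ℕ} {r f : Fin k → ℕ}
    (hNF : NF n π p e r f) : n = ∏ j, r j ^ f j := by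
  have := hNF.eq
  rwa [Fin.prod_univ_zero, one_mul] at this

theorem AA_eq {n k : ℕ} {π : Fin 0 → PP} {p e : Fin 0 → ℕ} {r f : Fin k → ℕ}
    (hNF : NF n π p e r f) (q : ℕ) : AA (pc q r) (pc 1 f) = (n : ℤ) * q := by
  rw [AA_pc, NF_eq hNF]
  push_cast
  ring

theorem r_dvd {n k : ℕ} {π : Fin 0 → PP} {p e : Fin 0 → ℕ} {r f : Fin k → ℕ}
    (hNF : NF n π p e r f) (j : Fin k) : r j ∣ n := by
  rw [NF_eq hNF]
  refine (dvd_pow_self (r j) ?_).trans (Finset.dvd_prod_of_mem _ (Finset.mem_univ j))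
  have := hNF.rf j
  omega

theorem main (hEADM : EADM) (hFDX : FDX) (hTEND : TEND) {n k : ℕ} {π : Fin 0 → PP}
    {p e : Fin 0 → ℕ} {r f : Fin k → ℕ} {w0 : ZMod 3} {c : Fin 0 → ZMod 3} {s : ℕ}
    {b : Fin s → ℤ} {P Q P' Q' : Fin s → Fin s → ℤ} {q : ℕ} (hNF : NF n π p e r f)
    (hAdm : ∀ i, AdmC n π w0 c (b i)) (hSys : Sys b P Q P' Q')
    (hgen : ∀ x : ℤ, AdmC n π w0 c x → ∃ (g : Fin s → ℕ) (u v : ℤ), u ≠ 0 ∧ v ≠ 0 ∧
      x * u ^ 3 = (∏ i, b i ^ g i) * v ^ 3)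
    (hq : q.Prime) (hq2 : q % 3 = 2) (hw : wt ((q : ℤ) ^ 2) = w0) (hqn : ¬ q ∣ n)
    (hG : HypG (pc q r) (pc 1 f)) {v : Fin (k + 1) → ZMod 3} (hv : UG (pc q r) (pc 1 f) v)
    (h0 : v 0 = 2) :
    ∃ (g : Fin s → ℕ) (u y : ℤ), u ≠ 0 ∧ y ≠ 0 ∧ (Z r f v : ℤ) * u ^ 3 =
      (∏ i, b i ^ g i) * y ^ 3 ∧
      ∀ j, ∑ i, Mat b P Q P' Q' ((n : ℤ) * q) j i * (g i : ZMod 3) = 0 := by
  obtain ⟨hB, hE⟩ := hEADM n 0 k π p e r f w0 c q hNF hq ⟨hq2, hw, fun i => i.elim0⟩ hqn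
  have hA : ∀ i, Adm ((n : ℤ) * q) (b i) := fun i => (hE _ (hAdm i).supp).1 (hAdm i)
  by_cases hc : ∃ c, ∀ i, v i = c
  · obtain ⟨d, hd⟩ := hc
    have hd2 : d = 2 := by rw [← hd 0, h0]
    refine ⟨0, 1, 1, one_ne_zero, one_ne_zero, ?_, fun j => by simp⟩
    have hZ : Z r f v = 1 := by
      unfold Z
      refine Finset.prod_eq_one (fun j _ => ?_)
      rw [hd, hd2]
      have : (2 - (2 : ZMod 3).val) = 0 := by decide
      rw [this, mul_zero, pow_zero]
    rw [hZ]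
    simp
  · obtain ⟨x, hx⟩ := CubeRank.UG_rep hG hv hc
    obtain ⟨hPt, hAz⟩ := hFDX ((n : ℤ) * q) (cell (pc q r) (pc 1 f) (fun i => zf (v i))) x hB
      hx.ne hx.sum (by
        rw [Fin.prod_univ_three, cell_prod]
        exact AA_eq hNF q) hx.cop
    rw [← Z_eq q r f v h0] at hPt hAz
    have hsupp : ∀ l : ℕ, l.Prime → (l : ℤ) ∣ (Z r f v : ℤ) → l ∣ n := by
      intro l hl hlZ
      rw [Int.natCast_dvd_natCast, Z, hl.prime.dvd_finset_prod_iff] at hlZ
      obtain ⟨j, -, hj⟩ := hlZ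
      exact (hl.dvd_of_dvd_pow hj).trans (r_dvd hNF j)
    obtain ⟨g, u, y, hu, hy, hg⟩ := hgen _ ((hE _ hsupp).2 hAz)
    refine ⟨g, u, y, hu, hy, hg, ?_⟩
    by_cases hex : ∃ i, ¬ 3 ∣ g i
    · generalize (Z r f v : ℤ) = z at *
      set W : ℤ := ∏ i, b i ^ g i with hW
      obtain ⟨c0, hc0, h1⟩ := hPt.eq
      have hPt' : Pt ((n : ℤ) * q) (∏ i, b i ^ g i)
          (u * y * (cell (pc q r) (pc 1 f) (fun i => zf (v i)) 0 * x 0)) (y ^ 2 * x 1) := by
        refine ⟨mul_ne_zero (mul_ne_zero hu hy) hPt.hX, mul_ne_zero (pow_ne_zero 2 hy) hPt.hY,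
          c0 * u ^ 2, mul_ne_zero hc0 (pow_ne_zero 2 hu), ?_⟩
        rw [← hW]
        generalize cell (pc q r) (pc 1 f) (fun i => zf (v i)) 0 * x 0 = X1 at *
        generalize x 1 = Y1 at *
        have e1 : W * ((u * y * X1) ^ 3 + W * (y ^ 2 * Y1) ^ 3) =
            (W * y ^ 3) * (u ^ 3 * X1 ^ 3 + (W * y ^ 3) * Y1 ^ 3) := by ring
        rw [e1, ← hg]
        have e2 : z * u ^ 3 * (u ^ 3 * X1 ^ 3 + z * u ^ 3 * Y1 ^ 3) =
            u ^ 6 * (z * (X1 ^ 3 + z * Y1 ^ 3)) := by ring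
        rw [e2, h1]
        ring
      exact (hTEND s b P Q P' Q' ((n : ℤ) * q) hSys hB hA).2 g _ _ hex hPt'
    · push Not at hex
      intro j
      refine Finset.sum_eq_zero (fun i _ => ?_)
      rw [(ZMod.natCast_eq_zero_iff (g i) 3).2 (hex i), mul_zero]

end BKER

open BKER in
/-- BKER: the rank is bounded by the dimension of the kernel of the matrix. -/
theorem BKER_thm (hEADM : EADM) (hFDX : FDX) (hTEND : TEND) (hSPP : SPP) : BKER := by
  clear hSPP
  classical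
  intro n k π p e r f w0 c s b P Q P' Q' q hNF hk hAdm hSys hgen hq hq2 hw hqn hex
  have hG : CubeRank.HypG (pc q r) (pc 1 f) := by
    refine CubeRank.hypG_of (fun i => ?_) (fun i => ?_) ?_ (fun i => ?_) ?_
    · refine Fin.cases ?_ (fun i => ?_) i
      · simpa [pc] using hq
      · simpa [pc] using hNF.rp i
    · refine Fin.cases ?_ (fun i => ?_) i
      · simpa [pc] using hq2
      · simpa [pc] using hNF.r2 i
    · unfold pc
      rw [Fin.cons_injective_iff]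
      refine ⟨?_, hNF.rinj⟩
      rintro ⟨i, hi⟩
      exact hqn (by rw [← hi]; exact r_dvd hNF i)
    · refine Fin.cases ?_ (fun i => ?_) i
      · left; simp [pc]
      · simpa [pc] using hNF.rf i
    · rcases hex with ⟨j, hj⟩ | h
      · exact ⟨j.succ, by simpa [pc] using hj⟩
      · exact ⟨0, by simpa [pc] using h⟩
  set M := Mat b P Q P' Q' ((n : ℤ) * q) with hMdef
  have H : ∀ v : {v // CubeRank.UG (pc q r) (pc 1 f) v},
      ∃ (g : Fin s → ℕ) (u y : ℤ), u ≠ 0 ∧ y ≠ 0 ∧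
        (Z r f (v.1 + fun _ => 2 - v.1 0) : ℤ) * u ^ 3 = (∏ i, b i ^ g i) * y ^ 3 ∧
        ∀ j, ∑ i, M j i * (g i : ZMod 3) = 0 := by
    intro v
    exact main hEADM hFDX hTEND hNF hAdm hSys hgen hq hq2 hw hqn hG
      (CubeRank.UG_add hG v.2 (CubeRank.UG_const _ _ _)) (by
        simp only [Pi.add_apply]; ring)
  choose g u y hu hy hZ hM using H
  let F : {v // CubeRank.UG (pc q r) (pc 1 f) v} → ZMod 3 × LinearMap.ker M.mulVecLin :=
    fun v => (v.1 0, ⟨fun i => (g v i : ZMod 3), by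
      rw [LinearMap.mem_ker]
      funext j
      exact hM v j⟩)
  have hF : Function.Injective F := by
    intro v v' hvv
    have h0 : v.1 0 = v'.1 0 := congrArg Prod.fst hvv
    have h1 : ∀ i, (g v i : ZMod 3) = g v' i := by
      intro i
      have h2 := congrArg (fun x => (x.2 : Fin s → ZMod 3) i) hvv
      exact h2
    obtain ⟨A, B, hA, hB, hAB⟩ := prod_cube b (fun i => (hAdm i).ne) (g v) (g v') h1
    have h3 := Z_inj (v := v.1 + fun _ => 2 - v.1 0) (v' := v'.1 + fun _ => 2 - v'.1 0)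
      hNF.rp hNF.rinj hNF.rf (by simp only [Pi.add_apply]; ring)
      (A := u v * A * y v') (B := u v' * B * y v)
      (mul_ne_zero (mul_ne_zero (hu v) hA) (hy v')) (mul_ne_zero (mul_ne_zero (hu v') hB) (hy v))
      (by
        have e1 := hZ v
        have e2 := hZ v'
        generalize (Z r f (v.1 + fun _ => 2 - v.1 0) : ℤ) = z1 at *
        generalize (Z r f (v'.1 + fun _ => 2 - v'.1 0) : ℤ) = z2 at *
        linear_combination (A ^ 3 * y v' ^ 3) * e1 - (B ^ 3 * y v ^ 3) * e2 +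
          (y v ^ 3 * y v' ^ 3) * hAB)
    apply Subtype.ext
    rw [h0] at h3
    exact add_right_cancel h3
  have hcard := Nat.card_le_card_of_injective F hF
  have hker : Module.finrank (ZMod 3) (LinearMap.ker M.mulVecLin) = s - M.rank := by
    have h1 := LinearMap.finrank_range_add_finrank_ker M.mulVecLin
    rw [Module.finrank_fintype_fun_eq_card, Fintype.card_fin] at h1
    have h2 : Module.finrank (ZMod 3) (LinearMap.range M.mulVecLin) = M.rank := rfl
    omega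
  rw [Nat.card_prod, Nat.card_zmod,
    Module.natCard_eq_pow_finrank (K := ZMod 3) (V := LinearMap.ker M.mulVecLin), Nat.card_zmod,
    hker] at hcard
  have hfin := CubeRank.gen_of_cardG (by omega) hG (s - M.rank) (by
    rw [pow_succ, mul_comm]
    exact hcard)
  rw [AA_eq hNF q] at hfin
  exact hfin

end Pool.Agent.PT
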