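import Pool.Agent.PT.Stmts5

/-!
# Prime twists: systems for products of primes `= 2 (mod 3)`
-/

set_option autoImplicit false

namespace Pool.Agent.PT

open Pool.Agent.Lib_helper18 Pool.Agent.Lib_helper18.Eis Pool.Agent.Lib_helper84.Cub

namespace BSYS

/-- A basis of `W` with at most one vector outside the kernel of `lam`. -/
theorem basis_exists {k : ℕ} (W : Submodule (ZMod 3) (Fin k → ZMod 3))
    (φ : (Fin k → ZMod 3) →ₗ[ZMod 3] ZMod 3) :
    ∃ (s : ℕ) (v : Fin s → Fin k → ZMod 3), (∀ i, v i ∈ W) ∧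
      (∀ g : Fin s → ZMod 3, ∑ i, g i • v i = 0 → g = 0) ∧
      (∀ x ∈ W, ∃ g : Fin s → ZMod 3, x = ∑ i, g i • v i) ∧
      ∀ i j, i ≠ j → φ (v i) = 0 ∨ φ (v j) = 0 := by
  have gen : ∀ (s : ℕ) (B : Module.Basis (Fin s) (ZMod 3) W),
      (∀ i j, i ≠ j → φ (B i) = 0 ∨ φ (B j) = 0) →
      ∃ (s : ℕ) (v : Fin s → Fin k → ZMod 3), (∀ i, v i ∈ W) ∧
      (∀ g : Fin s → ZMod 3, ∑ i, g i • v i = 0 → g = 0) ∧
      (∀ x ∈ W, ∃ g : Fin s → ZMod 3, x = ∑ i, g i • v i) ∧
      ∀ i j, i ≠ j → φ (v i) = 0 ∨ φ (v j) = 0 := by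
    intro s B hB
    refine ⟨s, fun i => B i, fun i => (B i).2, ?_, ?_, hB⟩
    · intro g hg
      have h1 : ∑ i, g i • B i = 0 := by
        apply Subtype.ext
        rw [Submodule.coe_sum]
        simpa using hg
      funext i
      exact Fintype.linearIndependent_iff.mp B.linearIndependent g h1 i
    · intro x hx
      refine ⟨fun i => B.repr ⟨x, hx⟩ i, ?_⟩
      have h1 := congrArg (Subtype.val : W → Fin k → ZMod 3) (B.sum_repr ⟨x, hx⟩)
      rw [Submodule.coe_sum] at h1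
      simpa using h1.symm
  let N : Submodule (ZMod 3) (Fin k → ZMod 3) := W ⊓ LinearMap.ker φ
  let b := Module.finBasis (ZMod 3) N
  have hb : ∀ i, φ (b i) = 0 := fun i => LinearMap.mem_ker.mp (b i).2.2
  by_cases h : ∃ y ∈ W, φ y ≠ 0
  · obtain ⟨y, hy, hyφ⟩ := h
    have hNW : N ≤ W := inf_le_left
    have hli : ∀ (c : ZMod 3), ∀ x ∈ N, c • y + x = 0 → c = 0 := by
      intro c x hx h1
      have h2 := congrArg φ h1
      rw [map_add, map_smul, map_zero, LinearMap.mem_ker.mp hx.2, add_zero, smul_eq_mul] at h2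
      exact (mul_eq_zero.mp h2).resolve_right hyφ
    have hsp : ∀ z ∈ W, ∃ c : ZMod 3, z + c • y ∈ N := by
      intro z hz
      refine ⟨-(φ z / φ y), Submodule.mem_inf.mpr ⟨W.add_mem hz (W.smul_mem _ hy), ?_⟩⟩
      rw [LinearMap.mem_ker, map_add, map_smul, smul_eq_mul, neg_mul, div_mul_cancel₀ _ hyφ,
        add_neg_cancel]
    refine gen _ (Module.Basis.mkFinConsOfLE y hy b hNW hli hsp) ?_
    intro i j hij
    rw [Module.Basis.coe_mkFinConsOfLE]
    rcases Fin.eq_zero_or_eq_succ i with rfl | ⟨i', rfl⟩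
    · rcases Fin.eq_zero_or_eq_succ j with rfl | ⟨j', rfl⟩
      · exact absurd rfl hij
      · right
        rw [Fin.cons_succ]
        exact hb j'
    · left
      rw [Fin.cons_succ]
      exact hb i'
  · push Not at h
    have hWN : W = N := le_antisymm (fun x hx => ⟨hx, LinearMap.mem_ker.mpr (h x hx)⟩) inf_le_left
    refine gen _ (b.map (LinearEquiv.ofEq N W hWN.symm)) ?_
    intro i j _
    left
    exact hb i

section

variable {k : ℕ} {r : Fin k → ℕ}

/-- The product of the powers of the `r j`. -/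
def R (r : Fin k → ℕ) (A : Fin k → ℕ) : ℕ := ∏ j, r j ^ A j

theorem R_ne (hr : ∀ j, (r j).Prime) (A : Fin k → ℕ) : R r A ≠ 0 :=
  Finset.prod_ne_zero_iff.mpr fun j _ => pow_ne_zero _ (hr j).ne_zero

theorem R_supp (hr : ∀ j, (r j).Prime) {A : Fin k → ℕ} {l : ℕ} (hl : l.Prime)
    (h : l ∣ R r A) : ∃ j, l = r j := by
  obtain ⟨j, -, hj⟩ := (Prime.dvd_finsetProd_iff hl.prime _).mp h
  exact ⟨j, (Nat.prime_dvd_prime_iff_eq hl (hr j)).mp (hl.dvd_of_dvd_pow hj)⟩

theorem R_val (hr : ∀ j, (r j).Prime) (hinj : Function.Injective r) (A : Fin k → ℕ) (j : Fin k) :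
    padicValInt (r j) (R r A : ℤ) = A j := by
  classical
  have hf : Fact (r j).Prime := ⟨hr j⟩
  rw [padicValInt.of_nat, R, ← Finset.mul_prod_erase _ _ (Finset.mem_univ j), padicValNat.mul,
    padicValNat.prime_pow, padicValNat.eq_zero_of_not_dvd, add_zero]
  · intro h
    obtain ⟨j', hj', h1⟩ := (Prime.dvd_finsetProd_iff (hr j).prime _).mp h
    have h2 := (Nat.prime_dvd_prime_iff_eq (hr j) (hr j')).mp ((hr j).dvd_of_dvd_pow h1)
    exact (Finset.mem_erase.mp hj').1 (hinj h2).symm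
  · exact pow_ne_zero _ (hr j).ne_zero
  · exact Finset.prod_ne_zero_iff.mpr fun j' _ => pow_ne_zero _ (hr j').ne_zero

theorem V_prod {l : Eis} (hl : Prime l) {ι : Type} (s : Finset ι) (f : ι → Eis)
    (hf : ∀ i, f i ≠ 0) : V l (∏ i ∈ s, f i) = ∑ i ∈ s, V l (f i) := by
  classical
  induction s using Finset.induction_on with
  | empty =>
    rw [Finset.prod_empty, Finset.sum_empty]
    exact V_eq_zero fun h => hl.not_isUnit (isUnit_of_dvd_one h)
  | insert a s ha ih =>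
    rw [Finset.prod_insert ha, Finset.sum_insert ha, V_mul hl (hf a)
      (Finset.prod_ne_zero_iff.mpr fun i _ => hf i), ih]

theorem nat_ne {n : ℕ} (h : n ≠ 0) : (n : Eis) ≠ 0 := by
  intro h'
  have := congrArg Eis.re h'
  simp at this
  exact h this

/-- The valuations of the products are bounded. -/
theorem R_V (hSPP : SPP) (hr : ∀ j, (r j).Prime) (hr2 : ∀ j, r j % 3 = 2)
    (hinj : Function.Injective r) {A : Fin k → ℕ} (hA : ∀ j, A j ≤ 2) (π : PP) :
    V π.1 ((R r A : ℤ) : Eis) ≤ 2 := by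
  classical
  have hπ : Prime π.1 := π.2.1
  have hd : ∀ j, π.1 ∣ (r j : Eis) → π.1 = (r j : Eis) := by
    intro j h
    obtain ⟨π', hπ'⟩ := hSPP.2.2.2.2.1 (r j) (hr j) (hr2 j)
    rw [← hπ'] at h ⊢
    rw [hSPP.2.1 π π' (hπ.associated_of_dvd π'.2.1 h)]
  have h1 : ((R r A : ℤ) : Eis) = ∏ j, (r j : Eis) ^ A j := by
    rw [R]
    push_cast
    rfl
  have h2 : ∀ j, (r j : Eis) ≠ 0 := fun j => nat_ne (hr j).ne_zero
  rw [h1, V_prod hπ _ _ fun j => pow_ne_zero _ (h2 j)]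
  by_cases h : ∃ j, π.1 = (r j : Eis)
  · obtain ⟨j, hj⟩ := h
    rw [Finset.sum_eq_single j]
    · rw [V_pow hπ (h2 j), ← hj, V_self, mul_one]
      exact hA j
    · intro j' _ hne
      apply V_eq_zero
      intro h3
      have h4 := hd j' (hπ.dvd_of_dvd_pow h3)
      rw [hj] at h4
      have h5 := congrArg Eis.re h4
      simp at h5
      exact hne (hinj h5).symm
    · intro h3
      exact absurd (Finset.mem_univ _) h3
  · rw [Finset.sum_eq_zero]
    · norm_num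
    · intro j _
      apply V_eq_zero
      intro h3
      exact h ⟨j, hd j (hπ.dvd_of_dvd_pow h3)⟩

end

end BSYS

open BSYS in
theorem BSYS_thm (hEVEC : EVEC) (hESYS : ESYS) (hSPP : SPP) : BSYS := by
  classical
  intro n k π p e r f w0 c hNF
  obtain ⟨hE1, hE2⟩ := hEVEC n 0 k π p e r f w0 c hNF
  have hr := hNF.rp
  have hinj := hNF.rinj
  have hn : n = ∏ j, r j ^ f j := by
    rw [hNF.eq, Finset.univ_eq_empty (α := Fin 0), Finset.prod_empty, one_mul]
  have hrn : ∀ j, r j ∣ n := by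
    intro j
    rw [hn]
    refine (dvd_pow_self (r j) ?_).trans (Finset.dvd_prod_of_mem _ (Finset.mem_univ j))
    rcases hNF.rf j with h | h <;> omega
  -- the functional
  let φ : (Fin k → ZMod 3) →ₗ[ZMod 3] ZMod 3 :=
    ∑ j, wt ((r j : ℤ) ^ 2) • LinearMap.proj j
  have hφ : ∀ z, φ z = ∑ j, z j * wt ((r j : ℤ) ^ 2) := by
    intro z
    change (∑ j, wt ((r j : ℤ) ^ 2) • LinearMap.proj j : (Fin k → ZMod 3) →ₗ[ZMod 3] ZMod 3) z = _
    rw [LinearMap.sum_apply]
    refine Finset.sum_congr rfl fun j _ => ?_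
    rw [LinearMap.smul_apply, LinearMap.proj_apply, smul_eq_mul, mul_comm]
  let W : Submodule (ZMod 3) (Fin k → ZMod 3) :=
    if wt ((n : ℤ) ^ 2) + w0 = 0 then LinearMap.ker φ else ⊤
  have hW : ∀ z, z ∈ W ↔ (wt ((n : ℤ) ^ 2) + w0 = 0 → φ z = 0) := by
    intro z
    change z ∈ (if wt ((n : ℤ) ^ 2) + w0 = 0 then LinearMap.ker φ else ⊤) ↔ _
    split_ifs with h
    · rw [LinearMap.mem_ker]
      exact ⟨fun h1 _ => h1, fun h1 => h1 h⟩
    · exact ⟨fun _ h1 => absurd h1 h, fun _ => Submodule.mem_top⟩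
  obtain ⟨s, v, hv1, hv2, hv3, hv4⟩ := basis_exists W φ
  -- elementary facts on the products
  have hR0 : ∀ A, (R r A : ℤ) ≠ 0 := fun A => by exact_mod_cast R_ne hr A
  have hRs : ∀ A, ∀ l : ℕ, l.Prime → (l : ℤ) ∣ (R r A : ℤ) → l ∣ n := by
    intro A l hl h
    obtain ⟨j, rfl⟩ := R_supp hr hl (Int.natCast_dvd_natCast.mp h)
    exact hrn j
  have hR3 : ∀ A, ¬ (3 : ℤ) ∣ (R r A : ℤ) := by
    intro A h
    have h1 : ((3 : ℕ) : ℤ) ∣ (R r A : ℤ) := by exact_mod_cast h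
    obtain ⟨j, hj⟩ := R_supp hr Nat.prime_three (Int.natCast_dvd_natCast.mp h1)
    have h2 := hNF.r2 j
    omega
  have hRv : ∀ A j, (padicValInt (r j) (R r A : ℤ) : ZMod 3) = A j := fun A j => by
    rw [R_val hr hinj]
  have hRφ : ∀ A : Fin k → ℕ, (∑ i : Fin 0, (padicValInt (p i) (R r A : ℤ) : ZMod 3) *
      wt ((p i : ℤ) ^ 2)) + ∑ j, (padicValInt (r j) (R r A : ℤ) : ZMod 3) *
      wt ((r j : ℤ) ^ 2) = φ fun j => (A j : ZMod 3) := by
    intro A
    rw [Finset.univ_eq_empty (α := Fin 0), Finset.sum_empty, zero_add, hφ]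
    exact Finset.sum_congr rfl fun j _ => by rw [hRv]
  have hRC : ∀ A : Fin k → ℕ, AdmC n π w0 c (R r A : ℤ) ↔ (fun j => (A j : ZMod 3)) ∈ W := by
    intro A
    rw [(hE1 _ (hR0 A) (hR3 A) (hRs A)).1, hRφ, hW]
    exact ⟨fun h => h.2, fun h => ⟨fun i => i.elim0, h⟩⟩
  have hR9 : ∀ A : Fin k → ℕ, C9 (R r A : ℤ) ↔ φ (fun j => (A j : ZMod 3)) = 0 := by
    intro A
    rw [(hE1 _ (hR0 A) (hR3 A) (hRs A)).2, hRφ]
  -- the basis
  let a : Fin s → Fin k → ℕ := fun i j => (v i j).val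
  have ha : ∀ i, (fun j => (a i j : ZMod 3)) = v i := by
    intro i
    funext j
    exact ZMod.natCast_zmod_val (v i j)
  let b : Fin s → ℤ := fun i => (R r (a i) : ℤ)
  have hprod : ∀ g : Fin s → ℕ, ∏ i, b i ^ g i = (R r (fun j => ∑ i, g i * a i j) : ℤ) := by
    intro g
    change ∏ i, ((R r (a i) : ℕ) : ℤ) ^ g i = _
    unfold R
    push_cast
    simp only [← Finset.prod_pow]
    rw [Finset.prod_comm]
    refine Finset.prod_congr rfl fun j _ => ?_
    rw [← Finset.prod_pow_eq_pow_sum]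
    refine Finset.prod_congr rfl fun i _ => ?_
    rw [← pow_mul, mul_comm]
  have hAdm : ∀ i, AdmC n π w0 c (b i) := by
    intro i
    rw [hRC, ha]
    exact hv1 i
  have hind : ∀ g : Fin s → ℕ, (∃ i, ¬ 3 ∣ g i) → ¬ ∃ t : ℤ, t ^ 3 = ∏ i, b i ^ g i := by
    rintro g ⟨i, hi⟩ ⟨t, ht⟩
    rw [hprod] at ht
    have ht0 : t ≠ 0 := by
      rintro rfl
      exact hR0 _ (by rw [← ht]; norm_num)
    have h1 := (hE2 (R r fun j => ∑ i, g i * a i j) 1 (hR0 _) one_ne_zero (hRs _) (by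
      intro l hl h
      exact absurd (Int.natCast_dvd_natCast.mp (by exact_mod_cast h) : l ∣ 1)
        hl.not_dvd_one)).mp ⟨1, t, one_ne_zero, ht0, by rw [← ht]; ring⟩
    have h2 : (fun i => (g i : ZMod 3)) = 0 := by
      apply hv2
      funext j
      have h3 := h1.2 j
      rw [hRv, padicValInt.one] at h3
      push_cast at h3
      rw [Finset.sum_apply, Pi.zero_apply, ← h3]
      refine Finset.sum_congr rfl fun i _ => ?_
      rw [Pi.smul_apply, smul_eq_mul, ← congrFun (ha i) j]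
    have h3 := congrFun h2 i
    exact hi ((ZMod.natCast_eq_zero_iff (g i) 3).mp h3)
  have h9 : ∀ i j, i ≠ j → C9 (b i) ∨ C9 (b j) := by
    intro i j hij
    rw [hR9, hR9, ha, ha]
    exact hv4 i j hij
  have hV : ∀ i (π : PP), V π.1 (b i : Eis) ≤ 2 := by
    intro i π
    refine R_V hSPP hr hNF.r2 hinj (fun j => ?_) π
    have := ZMod.val_lt (v i j)
    change (v i j).val ≤ 2
    omega
  obtain ⟨P, Q, P', Q', hSys⟩ := hESYS n 0 k π p e r f w0 c s b hNF hAdm hV hind h9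
  refine ⟨s, b, P, Q, P', Q', hAdm, hSys, ?_⟩
  intro x hx
  have h1 := (hE1 x hx.ne hx.three hx.supp).1.mp hx
  have h2 : (fun j => (padicValInt (r j) x : ZMod 3)) ∈ W := by
    rw [hW, hφ]
    intro h
    have h3 := h1.2 h
    rwa [Finset.univ_eq_empty (α := Fin 0), Finset.sum_empty, zero_add] at h3
  obtain ⟨g, hg⟩ := hv3 _ h2
  obtain ⟨u, w, hu, hw, huw⟩ := (hE2 x (R r fun j => ∑ i, (g i).val * a i j) hx.ne (hR0 _)
    hx.supp (hRs _)).mpr ⟨fun i => i.elim0, fun j => by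
      rw [hRv]
      have h3 := congrFun hg j
      change (padicValInt (r j) x : ZMod 3) = _ at h3
      rw [h3, Finset.sum_apply]
      push_cast
      refine Finset.sum_congr rfl fun i _ => ?_
      rw [Pi.smul_apply, smul_eq_mul, ← congrFun (ha i) j, ZMod.natCast_zmod_val (g i)]⟩
  refine ⟨fun i => (g i).val, u, w, hu, hw, ?_⟩
  rw [hprod]
  exact huw

end Pool.Agent.PT
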