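import Pool.Agent.PT.Stmts4

/-!
# PT: CLSC, the classes modulo `f` and their number
-/

namespace Pool.Agent.PT

open Pool.Agent.Lib_helper18 Pool.Agent.Lib_helper18.Eis Pool.Agent.Lib_helper84.Cub

namespace CLSC

theorem fib_card {G H : Type*} [Group G] [Group H] [Finite G] (φ : G →* H)
    (hφ : Function.Surjective φ) (y : H) :
    Nat.card {a : G // φ a = y} * Nat.card H = Nat.card G := by
  have h1 : Nat.card {a : G // φ a = y} = Nat.card φ.ker :=
    Nat.card_congr (MonoidHom.fiberEquivKerOfSurjective hφ y)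
  rw [h1]
  have h2 := Subgroup.card_mul_index φ.ker
  rw [Subgroup.index_ker, MonoidHom.range_eq_top.2 hφ] at h2
  simpa using h2

theorem wt_congr {m n : ℤ} (h : (9 : ℤ) ∣ m - n) : wt m = wt n := by
  obtain ⟨k, hk⟩ := h
  unfold wt
  have h1 : (m - 1) / 3 = (n - 1) / 3 + 3 * k := by omega
  rw [h1]
  push_cast
  have h3 : (3 : ZMod 3) = 0 := by decide
  rw [h3]; ring

/-- the value of `κ` at an integer -/
noncomputable def kv {m : ℕ} (π : Fin m → PP) (n : ℕ) : Fin (m + 1) → ZMod 3 :=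
  Fin.cons (wt ((n : ℤ) ^ 2)) (fun i => sym (π i).1 (n : Eis))

theorem kv_congr {m : ℕ} (π : Fin m → PP) (p : Fin m → ℕ)
    (hπ : ∀ i, (p i : Eis) = (π i).1 * conj (π i).1) {a b : ℕ} (h9 : (9 : ℤ) ∣ (a : ℤ) - b)
    (hp : ∀ i, (p i : ℤ) ∣ (a : ℤ) - b) : kv π a = kv π b := by
  unfold kv
  have h1 : wt ((a : ℤ) ^ 2) = wt ((b : ℤ) ^ 2) := by
    apply wt_congr
    have e : (a : ℤ) ^ 2 - (b : ℤ) ^ 2 = ((a : ℤ) - b) * (a + b) := by ring
    rw [e]
    exact Dvd.dvd.mul_right h9 _
  have h2 : (fun i => sym (π i).1 (a : Eis)) = fun i => sym (π i).1 (b : Eis) := by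
    funext i
    apply sym_congr
    obtain ⟨k, hk⟩ := hp i
    have e : (a : Eis) - (b : Eis) = (p i : Eis) * (k : Eis) := by
      have : (((a : ℤ) - b : ℤ) : Eis) = (((p i : ℤ) * k : ℤ) : Eis) := by rw [hk]
      push_cast at this
      exact this
    rw [e, hπ i]
    exact ⟨conj (π i).1 * k, by ring⟩
  rw [h1, h2]

theorem norm_of (π : Eis) (p : ℕ) (h : (p : Eis) = π * conj π) : π.norm = p := by
  rw [mul_conj] at h
  have h1 := congrArg Eis.re h
  simpa using h1.symm

theorem kv_mul (hSPP : SPP) {m : ℕ} (π : Fin m → PP) (p : Fin m → ℕ) (hp : ∀ i, (p i).Prime)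
    (hπ : ∀ i, (p i : Eis) = (π i).1 * conj (π i).1) {a b : ℕ} (ha9 : ¬ 3 ∣ a) (hb9 : ¬ 3 ∣ b)
    (ha : ∀ i, ¬ p i ∣ a) (hb : ∀ i, ¬ p i ∣ b) : kv π (a * b) = kv π a + kv π b := by
  funext j
  refine Fin.cases ?_ (fun i => ?_) j
  · show wt (((a * b : ℕ) : ℤ) ^ 2) = wt ((a : ℤ) ^ 2) + wt ((b : ℤ) ^ 2)
    rw [← wt_mul (sq_mod_three (by exact_mod_cast ha9)) (sq_mod_three (by exact_mod_cast hb9))]
    congr 1
    push_cast
    ring
  · show sym (π i).1 ((a * b : ℕ) : Eis) = sym (π i).1 (a : Eis) + sym (π i).1 (b : Eis)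
    have : Fact (p i).Prime := ⟨hp i⟩
    have hn := norm_of _ _ (hπ i)
    rw [Nat.cast_mul]
    refine sym_mul (π i).2.1 (hSPP.2.2.2.1 (π i)).1 ?_ ?_
    · rw [dvd_natCast_iff hn]
      exact ha i
    · rw [dvd_natCast_iff hn]
      exact hb i

/-- the cubic character modulo `p` is surjective -/
theorem sym_surj {π : Eis} (hπ : Prime π) (h3 : ¬ π ∣ 3) {p : ℕ} (hp : p.Prime)
    (hn : π.norm = p) (hp3 : p % 3 = 1) (t : ZMod 3) : ∃ n : ℕ, ¬ p ∣ n ∧ sym π (n : Eis) = t := by
  have : Fact p.Prime := ⟨hp⟩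
  obtain ⟨g, hg⟩ := IsCyclic.exists_generator (α := (ZMod p)ˣ)
  have hord : orderOf g = p - 1 := by
    rw [orderOf_eq_card_of_forall_mem_zpowers hg, Nat.card_eq_fintype_card,
      ZMod.card_units_eq_totient, Nat.totient_prime hp]
  set k := (g : ZMod p).val with hk
  have hkg : ((k : ℕ) : ZMod p) = (g : ZMod p) := ZMod.natCast_zmod_val _
  have hpk : ¬ p ∣ k := by
    rw [← ZMod.natCast_eq_zero_iff, hkg]
    exact g.ne_zero
  have hπk : ¬ π ∣ (k : Eis) := by
    rw [dvd_natCast_iff hn]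
    exact hpk
  have hN : N π = p := by
    have := N_cast π
    rw [hn] at this
    exact_mod_cast this
  have hs : sym π (k : Eis) ≠ 0 := by
    intro h0
    have h1 := sym_spec hπ h3 hπk
    rw [h0, hN] at h1
    have e : (k : Eis) ^ ((p - 1) / 3) - w ^ (0 : ZMod 3).val =
        (((k : ℤ) ^ ((p - 1) / 3) - 1 : ℤ) : Eis) := by
      have : (0 : ZMod 3).val = 0 := rfl
      rw [this]
      push_cast
      ring
    rw [e, dvd_intCast_iff hn] at h1
    have h2 : ((k : ZMod p)) ^ ((p - 1) / 3) = 1 := by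
      have h3' := (ZMod.intCast_zmod_eq_zero_iff_dvd _ p).2 h1
      push_cast at h3'
      rwa [sub_eq_zero] at h3'
    rw [hkg] at h2
    have h4 : g ^ ((p - 1) / 3) = 1 := by
      ext
      push_cast
      exact h2
    have h5 := orderOf_dvd_of_pow_eq_one h4
    rw [hord] at h5
    have h6 : 0 < (p - 1) / 3 := by
      have := hp.two_le
      omega
    have h7 := Nat.le_of_dvd h6 h5
    omega
  have hex : ∃ j : ℕ, (j : ZMod 3) * sym π (k : Eis) = t := by
    generalize sym π (k : Eis) = s at hs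
    revert s t
    intro t s hs
    refine ⟨(t * s).val, ?_⟩
    rw [ZMod.natCast_zmod_val]
    revert s t
    decide
  obtain ⟨j, hj⟩ := hex
  refine ⟨k ^ j, ?_, ?_⟩
  · intro h
    exact hpk (hp.dvd_of_dvd_pow h)
  · rw [Nat.cast_pow, sym_pow hπ h3 hπk, hj]

theorem nine_surj (e : (ZMod 3)ˣ) (t : ZMod 3) :
    ∃ n : ℕ, ¬ 3 ∣ n ∧ ((n : ℕ) : ZMod 3) = e ∧ wt ((n : ℤ) ^ 2) = t := by
  have key : ∀ (e : (ZMod 3)ˣ) (t : ZMod 3), ∃ n ∈ Finset.range 9, ¬ 3 ∣ n ∧
      ((n : ℕ) : ZMod 3) = e ∧ wt ((n : ℤ) ^ 2) = t := by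
    unfold wt
    decide
  obtain ⟨n, -, h⟩ := key e t
  exact ⟨n, h⟩

end CLSC

open CLSC in
theorem CLSC_thm (hSPP : SPP) : CLSC := by
  intro m π p hp hp3 hpπ hinj f hf h9 hpf
  have : NeZero f := ⟨hf.ne'⟩
  have h3f : 3 ∣ f := (by norm_num : 3 ∣ 9).trans h9
  -- elements coprime to `f`
  have hco3 : ∀ Q : ℕ, Q.Coprime f → ¬ 3 ∣ Q := by
    intro Q hQ h
    have := Nat.Coprime.eq_one_of_dvd (hQ.coprime_dvd_left h) h3f
    omega
  have hcop : ∀ Q : ℕ, Q.Coprime f → ∀ i, ¬ p i ∣ Q := by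
    intro Q hQ i h
    exact (hp i).one_lt.ne' (Nat.Coprime.eq_one_of_dvd (hQ.coprime_dvd_left h) (hpf i))
  have hcongr : ∀ a b : ℕ, (f : ℤ) ∣ (a : ℤ) - b → kv π a = kv π b := by
    intro a b h
    refine kv_congr π p hpπ ((Int.natCast_dvd_natCast.2 h9).trans h) fun i => ?_
    exact (Int.natCast_dvd_natCast.2 (hpf i)).trans h
  have hval : ∀ a : (ZMod f)ˣ, (a : ZMod f).val.Coprime f := fun a => ZMod.val_coe_unit_coprime a
  let κ : (ZMod f)ˣ →* Multiplicative (Fin (m + 1) → ZMod 3) :=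
    MonoidHom.mk' (fun a => Multiplicative.ofAdd (kv π (a : ZMod f).val)) (by
      intro a b
      rw [← ofAdd_add]
      congr 1
      rw [← kv_mul hSPP π p hp hpπ (hco3 _ (hval a)) (hco3 _ (hval b)) (hcop _ (hval a))
        (hcop _ (hval b))]
      apply hcongr
      rw [← ZMod.intCast_eq_intCast_iff_dvd_sub]
      push_cast
      simp)
  have hκ : ∀ a : (ZMod f)ˣ, (κ a).toAdd = kv π (a : ZMod f).val := fun a => rfl
  have hκQ : ∀ (u : (ZMod f)ˣ) (n : ℕ), (9 : ℤ) ∣ ((u : ZMod f).val : ℤ) - n →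
      (∀ i, (p i : ℤ) ∣ ((u : ZMod f).val : ℤ) - n) → (κ u).toAdd = kv π n := by
    intro u n h1 h2
    rw [hκ]
    exact kv_congr π p hpπ h1 h2
  refine ⟨κ, ?_, ?_⟩
  · intro Q hQ
    rw [hκ]
    show kv π _ = kv π Q
    apply hcongr
    rw [← ZMod.intCast_eq_intCast_iff_dvd_sub]
    push_cast
    simp [ZMod.coe_unitOfCoprime]
  · intro c
    let Ψ : (ZMod f)ˣ →* (ZMod 3)ˣ × Multiplicative (Fin (m + 1) → ZMod 3) :=
      (ZMod.unitsMap h3f).prod κ
    have hΨ : Function.Surjective Ψ := by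
      rintro ⟨e, d⟩
      obtain ⟨n0, hn0, hn1, hn2⟩ := nine_surj e (d.toAdd 0)
      have hloc : ∀ i : Fin m, ∃ n : ℕ, ¬ p i ∣ n ∧ sym (π i).1 (n : Eis) = d.toAdd i.succ :=
        fun i => sym_surj (π i).2.1 (hSPP.2.2.2.1 (π i)).1 (hp i) (norm_of _ _ (hpπ i)) (hp3 i) _
      choose n hn3 hn4 using hloc
      -- Chinese remainder theorem
      let s : Fin (m + 1) → ℕ := Fin.cons 9 p
      let a : Fin (m + 1) → ℕ := Fin.cons n0 n
      have hs0 : ∀ i ∈ (Finset.univ : Finset (Fin (m + 1))), s i ≠ 0 := by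
        intro i _
        refine Fin.cases ?_ (fun i => ?_) i
        · show (9 : ℕ) ≠ 0
          norm_num
        · exact (hp i).ne_zero
      have h9p : ∀ i, Nat.Coprime 9 (p i) := by
        intro i
        have h1 : Nat.Coprime 3 (p i) := by
          rw [Nat.coprime_primes Nat.prime_three (hp i)]
          intro h
          have := hp3 i
          omega
        exact Nat.Coprime.pow_left 2 h1
      have hpw : ((Finset.univ : Finset (Fin (m + 1))) : Set (Fin (m + 1))).Pairwise
          (Function.onFun Nat.Coprime s) := by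
        intro i _ j _ hij
        revert hij
        refine Fin.cases ?_ (fun i => ?_) i
        · refine Fin.cases ?_ (fun j => ?_) j
          · intro h; exact absurd rfl h
          · intro _; exact h9p j
        · refine Fin.cases ?_ (fun j => ?_) j
          · intro _; exact (h9p i).symm
          · intro h
            have hij : i ≠ j := fun h' => h (by rw [h'])
            show Nat.Coprime (p i) (p j)
            rw [Nat.coprime_primes (hp i) (hp j)]
            exact fun h' => hij (hinj h')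
      obtain ⟨k, hk⟩ := Nat.chineseRemainderOfFinset a s Finset.univ hs0 hpw
      have hk9 : k ≡ n0 [MOD 9] := hk 0 (Finset.mem_univ _)
      have hkp : ∀ i : Fin m, k ≡ n i [MOD p i] := fun i => hk i.succ (Finset.mem_univ _)
      -- the modulus `g = 9 ∏ p i`
      let g : ℕ := 9 * ∏ i, p i
      have hg9 : 9 ∣ g := ⟨_, rfl⟩
      have hgp : ∀ i, p i ∣ g := fun i =>
        (Finset.dvd_prod_of_mem p (Finset.mem_univ i)).trans ⟨9, by ring⟩
      have hgf : g ∣ f := by
        have h1 : (∏ i, p i) ∣ f := by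
          refine Finset.prod_dvd_of_isRelPrime ?_ (fun i _ => hpf i)
          intro i _ j _ hij
          show IsRelPrime (p i) (p j)
          rw [← Nat.coprime_iff_isRelPrime, Nat.coprime_primes (hp i) (hp j)]
          exact fun h' => hij (hinj h')
        refine Nat.Coprime.mul_dvd_of_dvd_of_dvd ?_ h9 h1
        exact Nat.Coprime.prod_right fun i _ => h9p i
      have hkg : k.Coprime g := by
        refine Nat.Coprime.mul_right ?_ (Nat.Coprime.prod_right fun i _ => ?_)
        · have h1 : Nat.Coprime k 3 := by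
            rw [Nat.coprime_comm, Nat.Prime.coprime_iff_not_dvd Nat.prime_three]
            intro h
            apply hn0
            have h2 : k ≡ n0 [MOD 3] := hk9.of_dvd (by norm_num)
            exact (h2.dvd_iff (dvd_refl 3)).1 h
          exact Nat.Coprime.pow_right 2 h1
        · rw [Nat.coprime_comm, Nat.Prime.coprime_iff_not_dvd (hp i)]
          intro h
          exact hn3 i (((hkp i).dvd_iff (dvd_refl _)).1 h)
      obtain ⟨u, hu⟩ := ZMod.unitsMap_surjective hgf (ZMod.unitOfCoprime k hkg)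
      have hug : (g : ℤ) ∣ ((u : ZMod f).val : ℤ) - k := by
        have h1 : ((u : ZMod f).val : ZMod g) = (k : ZMod g) := by
          have h2 := congrArg (fun v : (ZMod g)ˣ => (v : ZMod g)) hu
          simp only [ZMod.unitsMap_def, Units.coe_map, MonoidHom.coe_coe, ZMod.castHom_apply,
            ZMod.coe_unitOfCoprime] at h2
          rw [← h2, ZMod.natCast_val]
        have h3 : (((u : ZMod f).val : ℤ) : ZMod g) = ((k : ℤ) : ZMod g) := by
          push_cast
          exact h1
        exact (ZMod.intCast_eq_intCast_iff_dvd_sub _ _ _).1 h3.symm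
      refine ⟨u, ?_⟩
      have hk9' : (9 : ℤ) ∣ (k : ℤ) - n0 := by
        have := (Nat.modEq_iff_dvd.1 hk9.symm)
        exact_mod_cast this
      have hkp' : ∀ i, (p i : ℤ) ∣ (k : ℤ) - n i := fun i => Nat.modEq_iff_dvd.1 (hkp i).symm
      have hu9 : (9 : ℤ) ∣ ((u : ZMod f).val : ℤ) - k :=
        (by exact_mod_cast hg9 : (9 : ℤ) ∣ (g : ℤ)).trans hug
      have hup : ∀ i, (p i : ℤ) ∣ ((u : ZMod f).val : ℤ) - k := fun i =>
        (Int.natCast_dvd_natCast.2 (hgp i)).trans hug
      apply Prod.ext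
      · show ZMod.unitsMap h3f u = e
        ext
        simp only [ZMod.unitsMap_def, Units.coe_map, MonoidHom.coe_coe, ZMod.castHom_apply]
        rw [← ZMod.natCast_val, ← hn1]
        have h1 : (3 : ℤ) ∣ ((u : ZMod f).val : ℤ) - n0 := by omega
        have h2 := (ZMod.intCast_eq_intCast_iff_dvd_sub (n0 : ℤ) ((u : ZMod f).val : ℤ) 3).2 h1
        push_cast at h2
        exact h2.symm
      · show κ u = d
        apply Multiplicative.toAdd.injective
        rw [hκQ u k hu9 hup]
        funext j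
        refine Fin.cases ?_ (fun i => ?_) j
        · show wt ((k : ℤ) ^ 2) = d.toAdd 0
          rw [← hn2]
          apply wt_congr
          have e : (k : ℤ) ^ 2 - (n0 : ℤ) ^ 2 = ((k : ℤ) - n0) * (k + n0) := by ring
          rw [e]
          exact Dvd.dvd.mul_right hk9' _
        · show sym (π i).1 (k : Eis) = d.toAdd i.succ
          rw [← hn4 i]
          apply sym_congr
          obtain ⟨l, hl⟩ := hkp' i
          have e : (k : Eis) - (n i : Eis) = (p i : Eis) * (l : Eis) := by
            have : (((k : ℤ) - n i : ℤ) : Eis) = (((p i : ℤ) * l : ℤ) : Eis) := by rw [hl]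
            push_cast at this
            exact this
          rw [e, hpπ i]
          exact ⟨conj (π i).1 * l, by ring⟩
    have hcard := fib_card Ψ hΨ (-1, Multiplicative.ofAdd c)
    have hM2 : ∀ u : (ZMod f)ˣ, M2 u ↔ ZMod.unitsMap h3f u = -1 := by
      intro u
      unfold M2
      have h1 : ((ZMod.unitsMap h3f u : (ZMod 3)ˣ) : ZMod 3) = (((u : ZMod f).val : ℕ) : ZMod 3) := by
        simp only [ZMod.unitsMap_def, Units.coe_map, MonoidHom.coe_coe, ZMod.castHom_apply]
        rw [ZMod.natCast_val]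
      have h2 : ZMod.unitsMap h3f u = -1 ↔ (((u : ZMod f).val : ℕ) : ZMod 3) = ((2 : ℕ) : ZMod 3) := by
        rw [← h1]
        constructor
        · intro h
          rw [h]
          decide
        · intro h
          ext
          rw [h]
          decide
      rw [h2, ZMod.natCast_eq_natCast_iff']
    have hfib : Nat.card {a : (ZMod f)ˣ // M2 a ∧ (κ a).toAdd = c} =
        Nat.card {a : (ZMod f)ˣ // Ψ a = (-1, Multiplicative.ofAdd c)} := by
      apply Nat.card_congr
      refine Equiv.subtypeEquivRight fun a => ?_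
      rw [hM2 a]
      constructor
      · rintro ⟨h1, h2⟩
        exact Prod.ext h1 (Multiplicative.toAdd.injective h2)
      · intro h
        exact ⟨congrArg Prod.fst h, congrArg Multiplicative.toAdd (congrArg Prod.snd h)⟩
    rw [hfib]
    have hH : Nat.card ((ZMod 3)ˣ × Multiplicative (Fin (m + 1) → ZMod 3)) = 2 * 3 ^ (m + 1) := by
      rw [Nat.card_prod]
      congr 1
      · rw [Nat.card_eq_fintype_card, ZMod.card_units_eq_totient]
        decide
      · rw [Nat.card_eq_fintype_card, Fintype.card_multiplicative]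
        simp
    rw [← hH, hcard, Nat.card_eq_fintype_card, ZMod.card_units_eq_totient]

end Pool.Agent.PT
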