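import Pool.Agent.PT.Stmts4

/-!
# Prime twists of rank zero: elements with singular matrix in a class of the Galois group
-/

namespace Pool.Agent.PT

open Pool.Agent.Lib_helper18 Pool.Agent.Lib_helper18.Eis Pool.Agent.Lib_helper84.Cub

namespace DCNT

/-- equality of the entries above the diagonal -/
def Up {s : ℕ} (v w : Fin s → Fin s → ZMod 3) : Prop := ∀ j i, j < i → v j i = w j i

theorem alt_congr {s : ℕ} {v w : Fin s → Fin s → ZMod 3} (h : Up v w) : alt v = alt w := by
  funext j i
  unfold alt
  split_ifs with h1 h2
  · exact h j i h1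
  · rw [h i j h2]
  · rfl

open Classical in
/-- Double counting. -/
theorem count {s : ℕ} {G : Type} [Fintype G] (A : Finset G) (t : G → Fin s → Fin s → ZMod 3)
    (hA : ∀ v v' : Fin s → Fin s → ZMod 3,
      (A.filter fun g => Up (t g) v).card = (A.filter fun g => Up (t g) v').card) :
    ∃ N K : ℕ, 0 < K ∧ ∀ P : (Fin s → Fin s → ZMod 3) → Prop,
      (∀ v w, Up v w → P v → P w) →
      K * (A.filter fun g => P (t g)).card =
        N * (Finset.univ.filter fun v : Fin s → Fin s → ZMod 3 => P v).card := by
  refine ⟨(A.filter fun g => Up (t g) 0).card,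
    (Finset.univ.filter fun v : Fin s → Fin s → ZMod 3 => Up 0 v).card, ?_, ?_⟩
  · apply Finset.card_pos.mpr
    exact ⟨0, Finset.mem_filter.mpr ⟨Finset.mem_univ _, fun j i _ => rfl⟩⟩
  · intro P hP
    have hK : ∀ w : Fin s → Fin s → ZMod 3,
        (Finset.univ.filter fun v : Fin s → Fin s → ZMod 3 => Up w v).card =
          (Finset.univ.filter fun v : Fin s → Fin s → ZMod 3 => Up 0 v).card := by
      intro w
      refine Finset.card_bij (fun v _ => v - w) ?_ ?_ ?_
      · intro v hv
        rw [Finset.mem_filter] at hv ⊢
        refine ⟨Finset.mem_univ _, fun j i hji => ?_⟩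
        have := hv.2 j i hji
        simp [this]
      · intro v _ v' _ h
        exact sub_left_injective h
      · intro v hv
        rw [Finset.mem_filter] at hv
        refine ⟨v + w, ?_, add_sub_cancel_right _ _⟩
        rw [Finset.mem_filter]
        refine ⟨Finset.mem_univ _, fun j i hji => ?_⟩
        have := hv.2 j i hji
        simp only [Pi.zero_apply] at this
        simp [← this]
    have h1 : ∑ v : Fin s → Fin s → ZMod 3, ∑ g ∈ A, (if P v ∧ Up (t g) v then 1 else 0) =
        (A.filter fun g => Up (t g) 0).card *
          (Finset.univ.filter fun v : Fin s → Fin s → ZMod 3 => P v).card := by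
      rw [Finset.card_filter (fun v : Fin s → Fin s → ZMod 3 => P v), Finset.mul_sum]
      refine Finset.sum_congr rfl fun v _ => ?_
      by_cases hv : P v
      · simp only [hv, true_and, if_true, mul_one]
        rw [← Finset.card_filter]
        exact hA v 0
      · simp [hv]
    have h2 : ∑ g ∈ A, ∑ v : Fin s → Fin s → ZMod 3, (if P v ∧ Up (t g) v then 1 else 0) =
        (Finset.univ.filter fun v : Fin s → Fin s → ZMod 3 => Up 0 v).card *
          (A.filter fun g => P (t g)).card := by
      rw [Finset.card_filter (fun g => P (t g)), Finset.mul_sum]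
      refine Finset.sum_congr rfl fun g _ => ?_
      by_cases hg : P (t g)
      · rw [if_pos hg, mul_one, ← hK (t g), Finset.card_filter]
        refine Finset.sum_congr rfl fun v _ => ?_
        refine if_congr ⟨fun h => h.2, fun h => ⟨hP _ _ h hg, h⟩⟩ rfl rfl
      · rw [if_neg hg, mul_zero]
        refine Finset.sum_eq_zero fun v _ => ?_
        rw [if_neg]
        rintro ⟨h3, h4⟩
        exact hg (hP _ _ (fun j i hji => (h4 j i hji).symm) h3)
    rw [← h2, ← h1, Finset.sum_comm]

end DCNT

open DCNT in
theorem DCNT_thm (hSING : SING) : DCNT := by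
  classical
  intro s f G _ _ χ t hs hf hχ ht a C ha
  have hft : Fintype G := Fintype.ofFinite G
  let A : Finset G := Finset.univ.filter fun g => χ g = a
  have hcard : ∀ P : G → Prop, Nat.card {g : G // χ g = a ∧ P g} = (A.filter P).card := by
    intro P
    rw [Nat.card_eq_fintype_card, Fintype.card_subtype, Finset.filter_filter]
  have hA : ∀ v v' : Fin s → Fin s → ZMod 3,
      (A.filter fun g => Up (t g) v).card = (A.filter fun g => Up (t g) v').card := by
    intro v v'
    rw [← hcard, ← hcard]
    exact ht a v v' ha
  obtain ⟨N, K, hK, hNK⟩ := count A t hA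
  have hall : K * A.card = N * Nat.card (Fin s → Fin s → ZMod 3) := by
    have h1 := hNK (fun _ => True) (fun _ _ _ _ => trivial)
    rw [Finset.filter_true, Finset.filter_true, Finset.card_univ] at h1
    rw [h1, Nat.card_eq_fintype_card]
  have hAc : Nat.card {g : G // χ g = a} = A.card := by
    rw [Nat.card_eq_fintype_card, Fintype.card_subtype]
  have hmain : ∀ P : (Fin s → Fin s → ZMod 3) → Prop, (∀ v w, Up v w → P v → P w) →
      Nat.card {v : Fin s → Fin s → ZMod 3 // P v} =
        Nat.card {v : Fin s → Fin s → ZMod 3 // (alt v).det = 0} →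
      8 * Nat.card {g : G // χ g = a ∧ P (t g)} ≤ 3 * Nat.card {g : G // χ g = a} := by
    intro P hP hPc
    have h1 := hNK P hP
    rw [← Fintype.card_subtype, ← Nat.card_eq_fintype_card] at h1
    have h2 := hSING s hs
    rw [hcard (fun g => P (t g)), hAc]
    have h3 : K * (8 * (A.filter fun g => P (t g)).card) ≤ K * (3 * A.card) := by
      calc K * (8 * (A.filter fun g => P (t g)).card)
          = 8 * (K * (A.filter fun g => P (t g)).card) := by ring
        _ = N * (8 * Nat.card {v : Fin s → Fin s → ZMod 3 // (alt v).det = 0}) := by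
            rw [h1, hPc]
            ring
        _ ≤ N * (3 * Nat.card (Fin s → Fin s → ZMod 3)) := Nat.mul_le_mul_left N h2
        _ = 3 * (K * A.card) := by
            rw [hall]
            ring
        _ = K * (3 * A.card) := by ring
    exact Nat.le_of_mul_le_mul_left h3 hK
  refine ⟨?_, ?_, ?_⟩
  · refine hmain (fun v => (alt (C - v)).det = 0) ?_ ?_
    · intro v w hvw hv
      have h1 : Up (C - w) (C - v) := fun j i hji => by
        simp [hvw j i hji]
      change (alt (C - w)).det = 0
      rw [alt_congr h1]
      exact hv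
    · exact Nat.card_congr ((Equiv.subLeft C).subtypeEquiv fun v => Iff.rfl)
  · refine hmain (fun v => (alt (C + v)).det = 0) ?_ ?_
    · intro v w hvw hv
      have h1 : Up (C + w) (C + v) := fun j i hji => by
        simp [hvw j i hji]
      change (alt (C + w)).det = 0
      rw [alt_congr h1]
      exact hv
    · exact Nat.card_congr ((Equiv.addLeft C).subtypeEquiv fun v => Iff.rfl)
  · have : NeZero f := ⟨hf.ne'⟩
    obtain ⟨g0, hg0⟩ := hχ a
    have h1 : Nat.card {g : G // χ g = a} = Nat.card χ.ker := by
      refine Nat.card_congr ⟨fun g => ⟨g0⁻¹ * g.1, ?_⟩, fun g => ⟨g0 * g.1, ?_⟩, ?_, ?_⟩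
      · rw [MonoidHom.mem_ker, map_mul, map_inv, hg0, g.2, inv_mul_cancel]
      · rw [map_mul, hg0, MonoidHom.mem_ker.mp g.2, mul_one]
      · intro g
        exact Subtype.ext (mul_inv_cancel_left _ _)
      · intro g
        exact Subtype.ext (inv_mul_cancel_left _ _)
    have h2 : χ.ker.index = f.totient := by
      rw [Subgroup.index_ker, MonoidHom.range_eq_top.mpr hχ, Subgroup.card_top,
        Nat.card_eq_fintype_card, ZMod.card_units_eq_totient]
    rw [h1, ← h2, Subgroup.card_mul_index]

end Pool.Agent.PT
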