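import Pool.Agent.PT.Stmts4

/-!
# Prime twists of rank zero: the pairing as a function of the prime
-/

set_option autoImplicit false

namespace Pool.Agent.PT

open Pool.Agent.Lib_helper18 Pool.Agent.Lib_helper18.Eis Pool.Agent.Lib_helper84.Cub

namespace DCONST

lemma cast_ne {n : ℤ} (h : n ≠ 0) : ((n : ℤ) : Eis) ≠ 0 := by
  intro h1
  apply h
  have h2 := congrArg Eis.re h1
  simpa using h2

lemma Lf_mul (p q r : ℤ) (i : ℕ) :
    Lf p q i r * ((p : Eis) ^ 2 - p * (q * w ^ i * r) + (q * w ^ i * r) ^ 2) =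
      (p : Eis) ^ 3 + (q : Eis) ^ 3 * (r : Eis) ^ 3 := by
  have h2 : (w ^ i) ^ 3 = 1 := by rw [← pow_mul, mul_comm, pow_mul, w_cube, one_pow]
  unfold Lf
  linear_combination ((q : Eis) ^ 3 * (r : Eis) ^ 3) * h2

/-- The linear forms at good approximations have bounded valuation. -/
lemma Lf_ndvd {u : Eis} {b p q r : ℤ} (hr : u ∣ (r : Eis) ^ 3 - (b : Eis))
    (h : ¬ u ∣ ((p ^ 3 + b * q ^ 3 : ℤ) : Eis)) (i : ℕ) : ¬ u ∣ Lf p q i r := by
  intro hd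
  apply h
  have h1 : ((p ^ 3 + b * q ^ 3 : ℤ) : Eis) =
      Lf p q i r * ((p : Eis) ^ 2 - p * (q * w ^ i * r) + (q * w ^ i * r) ^ 2) -
        (q : Eis) ^ 3 * ((r : Eis) ^ 3 - (b : Eis)) := by
    rw [Lf_mul]
    push_cast
    ring
  rw [h1]
  exact dvd_sub (dvd_mul_of_dvd_left hd _) (dvd_mul_of_dvd_right hr _)

lemma ndvd_pow {u a : Eis} (hu : Prime u) (ha : a ≠ 0) {K : ℕ} (h : V u a ≤ K) :
    ¬ u ^ (K + 1) ∣ a :=
  (fin hu ha).multiplicity_lt_iff_not_dvd.1 (Nat.lt_succ_of_le h)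

lemma ne_of_ndvd {u a : Eis} (h : ¬ u ∣ a) : a ≠ 0 := by
  rintro rfl
  exact h (dvd_zero _)

lemma V_le_of_ndvd {u a : Eis} (hu : Prime u) {K : ℕ} (h : ¬ u ^ (K + 1) ∣ a) : V u a ≤ K :=
  Nat.le_of_lt_succ ((fin hu (ne_of_ndvd h)).multiplicity_lt_iff_not_dvd.2 h)

/-- a symbol does not see small changes of its second argument -/
lemma LSym.cont' {u : Eis} {s : Eis → Eis → ZMod 3} {e : ℕ} (h : LSym u s e) {B a a' : Eis}
    (hB : B ≠ 0) (ha : a ≠ 0) (ha' : a' ≠ 0) (hd : u ^ (V u a + e) ∣ a' - a) :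
    s B a' = s B a := by
  rw [h.skew a' B ha' hB, h.skew a B ha hB, h.cont a a' B ha hB hd]

lemma Lf_cont {u : Eis} {s : Eis → Eis → ZMod 3} {e : ℕ} (h : LSym u s e) {b p q r r' : ℤ}
    {K : ℕ} (hn : ¬ u ^ (K + 1) ∣ ((p ^ 3 + b * q ^ 3 : ℤ) : Eis))
    (hr : u ^ (K + 1) ∣ (r : Eis) ^ 3 - (b : Eis)) (hr' : u ^ (K + 1) ∣ (r' : Eis) ^ 3 - (b : Eis))
    (hrr : u ^ (K + e) ∣ (r' : Eis) - r) {B : Eis} (hB : B ≠ 0) (i : ℕ) :
    s B (Lf p q i r') = s B (Lf p q i r) := by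
  have h1 := Lf_ndvd hr hn i
  have h2 := Lf_ndvd hr' hn i
  refine LSym.cont' h hB (ne_of_ndvd h1) (ne_of_ndvd h2) ?_
  have h3 : Lf p q i r' - Lf p q i r = (q * w ^ i) * ((r' : Eis) - r) := by
    unfold Lf
    ring
  rw [h3]
  refine dvd_mul_of_dvd_right ((pow_dvd_pow u ?_).trans hrr) _
  have := V_le_of_ndvd h.prime h1
  omega

/-- a fixed good approximation of a cube root -/
lemma exists_root {u : Eis} {s : Eis → Eis → ZMod 3} {e : ℕ} (h : LSym u s e)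
    {b p q p' q' : ℤ} (hn : p ^ 3 + b * q ^ 3 ≠ 0) (hn' : p' ^ 3 + b * q' ^ 3 ≠ 0)
    (hLC : LC u b) : ∃ r : ℤ, (∀ i, Lf p q i r ≠ 0) ∧ (∀ i, Lf p' q' i r ≠ 0) ∧
      ∀ (B : Eis) (c : ZMod 3) (N0 : ℕ), B ≠ 0 → (∀ r : ℤ, u ^ N0 ∣ (r : Eis) ^ 3 - (b : Eis) →
        AS s B p q p' q' r = c) → AS s B p q p' q' r = c := by
  have hu := h.prime
  set K := V u ((p ^ 3 + b * q ^ 3 : ℤ) : Eis) + V u ((p' ^ 3 + b * q' ^ 3 : ℤ) : Eis) with hK
  have k1 : ¬ u ^ (K + 1) ∣ ((p ^ 3 + b * q ^ 3 : ℤ) : Eis) :=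
    ndvd_pow hu (cast_ne hn) (Nat.le_add_right _ _)
  have k2 : ¬ u ^ (K + 1) ∣ ((p' ^ 3 + b * q' ^ 3 : ℤ) : Eis) :=
    ndvd_pow hu (cast_ne hn') (Nat.le_add_left _ _)
  choose ρ hρ using hLC
  have hNu : 1 < N u := N_prime hu
  set m := (N u) ^ (K + e) with hm
  have hm0 : m ≠ 0 := pow_ne_zero _ (by omega)
  have : NeZero m := ⟨hm0⟩
  have hum : u ^ (K + e) ∣ ((m : ℤ) : Eis) := by
    have h1 : u ∣ ((N u : ℤ) : Eis) := by
      rw [N_cast, ← mul_conj]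
      exact Dvd.intro _ rfl
    have h2 := pow_dvd_pow_of_dvd h1 (K + e)
    rw [hm]
    push_cast
    push_cast at h2
    exact h2
  obtain ⟨y, hy⟩ := Finite.exists_infinite_fiber (fun N : ℕ => ((ρ N : ℤ) : ZMod m))
  have hinf : ((fun N : ℕ => ((ρ N : ℤ) : ZMod m)) ⁻¹' {y}).Infinite := Set.infinite_coe_iff.1 hy
  obtain ⟨N1, hN1, hN1'⟩ := hinf.exists_gt K
  have lev : ∀ N, K < N → u ^ (K + 1) ∣ ((ρ N : ℤ) : Eis) ^ 3 - (b : Eis) :=
    fun N hN => (pow_dvd_pow u hN).trans (hρ N)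
  refine ⟨ρ N1, fun i => ne_of_ndvd (Lf_ndvd (lev N1 hN1') k1 i),
    fun i => ne_of_ndvd (Lf_ndvd (lev N1 hN1') k2 i), ?_⟩
  intro B c N0 hB hc
  obtain ⟨N2, hN2, hN2'⟩ := hinf.exists_gt (max K N0)
  have h2 := hc (ρ N2) ((pow_dvd_pow u ((le_max_right K N0).trans hN2'.le)).trans (hρ N2))
  have hrr : u ^ (K + e) ∣ ((ρ N1 : ℤ) : Eis) - ((ρ N2 : ℤ) : Eis) := by
    have h3 : ((ρ N2 : ℤ) : ZMod m) = ((ρ N1 : ℤ) : ZMod m) := by
      rw [Set.mem_preimage, Set.mem_singleton_iff] at hN1 hN2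
      rw [hN1, hN2]
    have h4 : (m : ℤ) ∣ ρ N1 - ρ N2 := (ZMod.intCast_eq_intCast_iff_dvd_sub _ _ _).1 h3
    have h5 : ((m : ℤ) : Eis) ∣ ((ρ N1 - ρ N2 : ℤ) : Eis) := intCast_dvd_intCast.2 h4
    rw [Int.cast_sub] at h5
    exact hum.trans h5
  have l2 := lev N2 ((le_max_left K N0).trans_lt hN2')
  have l1 := lev N1 hN1'
  rw [← h2]
  unfold AS
  rw [Lf_cont h k1 l2 l1 hrr hB 2, Lf_cont h k2 l2 l1 hrr hB 1, Lf_cont h k1 l2 l1 hrr hB 1,
    Lf_cont h k2 l2 l1 hrr hB 2]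

/-- a homomorphism from a periodic multiplicative function -/
lemma exists_hom {f : ℕ} (hf : 1 < f) (ψ : ℤ → ZMod 3)
    (hmul : ∀ a b : ℤ, IsCoprime a (f : ℤ) → IsCoprime b (f : ℤ) → ψ (a * b) = ψ a + ψ b)
    (hper : ∀ a b : ℤ, IsCoprime a (f : ℤ) → IsCoprime b (f : ℤ) → (f : ℤ) ∣ b - a → ψ b = ψ a) :
    ∃ Φ : (ZMod f)ˣ →* Multiplicative (ZMod 3), ∀ (Q : ℕ) (hQ : Q.Coprime f),
      (Φ (ZMod.unitOfCoprime Q hQ)).toAdd = ψ Q := by
  have : NeZero f := ⟨by omega⟩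
  have hcop : ∀ u : (ZMod f)ˣ, IsCoprime (((u : ZMod f).val : ℕ) : ℤ) (f : ℤ) := fun u =>
    Nat.isCoprime_iff_coprime.2 (ZMod.val_coe_unit_coprime u)
  have h1 : ψ 1 = 0 := by
    have h2 := hmul 1 1 isCoprime_one_left isCoprime_one_left
    rw [mul_one] at h2
    exact left_eq_add.1 h2
  refine ⟨⟨⟨fun u => Multiplicative.ofAdd (ψ (((u : ZMod f).val : ℕ) : ℤ)), ?_⟩, ?_⟩, ?_⟩
  · rw [← ofAdd_zero]
    congr 1
    rw [Units.val_one, ← h1]
    have : Fact (1 < f) := ⟨hf⟩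
    rw [ZMod.val_one]
    rfl
  · intro u v
    show Multiplicative.ofAdd (ψ ((((u * v : (ZMod f)ˣ) : ZMod f).val : ℕ) : ℤ)) =
      Multiplicative.ofAdd (ψ (((u : ZMod f).val : ℕ) : ℤ)) *
        Multiplicative.ofAdd (ψ (((v : ZMod f).val : ℕ) : ℤ))
    rw [← ofAdd_add, ← hmul _ _ (hcop u) (hcop v)]
    congr 1
    refine hper _ _ ((hcop u).mul_left (hcop v)) (hcop (u * v)) ?_
    rw [← ZMod.intCast_eq_intCast_iff_dvd_sub]
    push_cast
    rw [ZMod.natCast_zmod_val, ZMod.natCast_zmod_val, ZMod.natCast_zmod_val]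
  · intro Q hQ
    show ψ ((((ZMod.unitOfCoprime Q hQ : (ZMod f)ˣ) : ZMod f).val : ℕ) : ℤ) = ψ Q
    refine hper _ _ (Nat.isCoprime_iff_coprime.2 hQ) (hcop _) ?_
    rw [← ZMod.intCast_eq_intCast_iff_dvd_sub]
    push_cast
    rw [ZMod.natCast_zmod_val, ZMod.coe_unitOfCoprime]

lemma AS_mul {u : Eis} {s : Eis → Eis → ZMod 3} {e : ℕ} (h : LSym u s e) {p q p' q' r : ℤ}
    (hr : ∀ i, Lf p q i r ≠ 0) (hr' : ∀ i, Lf p' q' i r ≠ 0) {A B : Eis} (hA : A ≠ 0)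
    (hB : B ≠ 0) : AS s (A * B) p q p' q' r = AS s A p q p' q' r + AS s B p q p' q' r := by
  unfold AS
  rw [h.mul A B _ hA hB (hr 2), h.mul A B _ hA hB (hr' 1), h.mul A B _ hA hB (hr 1),
    h.mul A B _ hA hB (hr' 2)]
  ring

/-- places where `b` is a cube -/
lemma place_LC {u : Eis} {s : Eis → Eis → ZMod 3} {e : ℕ} (h : LSym u s e)
    {b p q p' q' n : ℤ} (hn0 : n ≠ 0) (hn : p ^ 3 + b * q ^ 3 ≠ 0)
    (hn' : p' ^ 3 + b * q' ^ 3 ≠ 0) (hLC : LC u b) {f : ℕ} (hf : 1 < f)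
    (huf : u ^ e ∣ ((f : ℤ) : Eis)) :
    ∃ (C : ZMod 3) (Φ : (ZMod f)ˣ →* Multiplicative (ZMod 3)),
      ∀ (Q : ℕ) (hQ : Q.Coprime f) (c : ZMod 3) (N0 : ℕ),
      (∀ r : ℤ, u ^ N0 ∣ (r : Eis) ^ 3 - (b : Eis) →
        AS s ((n * Q : ℤ) : Eis) p q p' q' r = c) →
      c = C + (Φ (ZMod.unitOfCoprime Q hQ)).toAdd := by
  obtain ⟨r, hr, hr', H⟩ := exists_root h hn hn' hLC
  have hne : ∀ a : ℤ, IsCoprime a (f : ℤ) → (a : Eis) ≠ 0 := by
    intro a ha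
    apply cast_ne
    rintro rfl
    have h1 := isCoprime_zero_left.1 ha
    have h2 := Int.isUnit_iff.1 h1
    omega
  have huf1 : u ∣ ((f : ℤ) : Eis) := by
    have h1 : u ^ 1 ∣ u ^ e := pow_dvd_pow u h.pos
    rw [pow_one] at h1
    exact h1.trans huf
  have hV : ∀ a : ℤ, IsCoprime a (f : ℤ) → V u (a : Eis) = 0 := by
    intro a ha
    apply V_eq_zero
    intro hd
    obtain ⟨x, y, hxy⟩ := ha
    apply h.prime.not_isUnit
    apply isUnit_of_dvd_one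
    have h1 : (1 : Eis) = (x : Eis) * (a : Eis) + (y : Eis) * ((f : ℤ) : Eis) := by
      have h2 := congrArg (fun t : ℤ => (t : Eis)) hxy
      simp only [Int.cast_add, Int.cast_mul, Int.cast_one] at h2
      exact h2.symm
    rw [h1]
    exact dvd_add (dvd_mul_of_dvd_right hd _) (dvd_mul_of_dvd_right huf1 _)
  obtain ⟨Φ, hΦ⟩ := exists_hom hf (fun a => AS s (a : Eis) p q p' q' r) (by
    intro a c ha hc
    show AS s ((a * c : ℤ) : Eis) p q p' q' r = _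
    rw [Int.cast_mul]
    exact AS_mul h hr hr' (hne a ha) (hne c hc)) (by
    intro a c ha hc hd
    have h1 : u ^ (V u (a : Eis) + e) ∣ (c : Eis) - (a : Eis) := by
      rw [hV a ha, zero_add, ← Int.cast_sub]
      exact huf.trans (intCast_dvd_intCast.2 hd)
    show AS s (c : Eis) p q p' q' r = AS s (a : Eis) p q p' q' r
    unfold AS
    rw [h.cont _ _ _ (hne a ha) (hr 2) h1, h.cont _ _ _ (hne a ha) (hr' 1) h1,
      h.cont _ _ _ (hne a ha) (hr 1) h1, h.cont _ _ _ (hne a ha) (hr' 2) h1])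
  refine ⟨AS s (n : Eis) p q p' q' r, Φ, ?_⟩
  intro Q hQ c N0 hc
  have hQ0 : ((Q : ℤ) : Eis) ≠ 0 := hne Q (Nat.isCoprime_iff_coprime.2 hQ)
  have hB : ((n * Q : ℤ) : Eis) = (n : Eis) * ((Q : ℤ) : Eis) := Int.cast_mul _ _
  rw [hΦ, ← H ((n * Q : ℤ) : Eis) c N0 (by rw [hB]; exact mul_ne_zero (cast_ne hn0) hQ0) hc, hB,
    AS_mul h hr hr' (cast_ne hn0) hQ0]

lemma tm_zero {π a b : Eis} (ha : ¬ π ∣ a) (hb : ¬ π ∣ b) : tm π a b = 0 := by
  unfold tm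
  rw [V_eq_zero ha, V_eq_zero hb]
  simp

/-- the symbol at an inert prime dividing the first argument once -/
lemma tm_inert {Q : Eis} {n : ℤ} (hQ : Prime Q) (hn : ¬ Q ∣ (n : Eis)) {L : Eis}
    (hL : ¬ Q ∣ L) : tm Q ((n : Eis) * Q) L = - sym Q L := by
  have h1 : V Q ((n : Eis) * Q) = 1 := by
    rw [V_mul_not_dvd hQ hn hQ.ne_zero, V_self]
  have h2 : up Q L = L := by
    unfold up
    rw [V_eq_zero hL, pow_zero, EuclideanDomain.div_one]
  unfold tm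
  rw [V_eq_zero hL, h1]
  unfold ch
  rw [h2]
  simp

/-- cube roots modulo a prime `= 2 (mod 3)` are unique -/
lemma root_unique {Q : ℕ} (hQ : Q.Prime) (hQ3 : Q % 3 = 2) {r r' : ℤ}
    (h : (Q : ℤ) ∣ r ^ 3 - r' ^ 3) : (Q : ℤ) ∣ r - r' := by
  have : Fact Q.Prime := ⟨hQ⟩
  have h1 : (r : ZMod Q) ^ 3 = (r' : ZMod Q) ^ 3 := by
    have h2 := (ZMod.intCast_zmod_eq_zero_iff_dvd _ Q).2 h
    push_cast at h2
    exact sub_eq_zero.1 h2
  have h3 : ∀ a : ZMod Q, a ≠ 0 → a = (a ^ 3) ^ ((2 * Q - 1) / 3) := by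
    intro a ha
    have h4 : 3 * ((2 * Q - 1) / 3) = (Q - 1) + (Q - 1) + 1 := by
      have := hQ.two_le
      omega
    rw [← pow_mul, h4, pow_add, pow_add, ZMod.pow_card_sub_one_eq_one ha]
    ring
  have h5 : (r : ZMod Q) = (r' : ZMod Q) := by
    by_cases hr : (r : ZMod Q) = 0
    · rw [hr, zero_pow (by norm_num)] at h1
      rw [hr]
      exact (pow_eq_zero_iff (by norm_num)).1 h1.symm |>.symm
    · have hr' : (r' : ZMod Q) ≠ 0 := by
        intro h0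
        rw [h0, zero_pow (by norm_num)] at h1
        exact hr ((pow_eq_zero_iff (by norm_num)).1 h1)
      rw [h3 _ hr, h3 _ hr', h1]
  rw [← ZMod.intCast_zmod_eq_zero_iff_dvd]
  push_cast
  rw [h5, sub_self]

lemma sy_zero (hSTM : STM) (hSPP : SPP) {B x : ℤ} (hB : B ≠ 0) (hx : Adm B x) (v : Pl) :
    sy v (B : Eis) (x : Eis) = 0 := by
  have h1 : ∀ π : PP, tm π.1 (B : Eis) (x : Eis) = 0 := by
    intro π
    have h1 := (hSTM π.1 π.2.1 (hSPP.2.2.2.1 π).1).skew (x : Eis) (B : Eis)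
      (cast_ne hx.ne) (cast_ne hB)
    rw [h1, hx.sym π, neg_zero]
  rcases v with _ | π
  · show sl (B : Eis) (x : Eis) = 0
    unfold sl
    rw [finsum_eq_zero_of_forall_eq_zero h1, neg_zero]
  · exact h1 π

lemma TT_LC {v : Pl} {B b x p q p' q' : ℤ} (h : LC (uni v) b) : TT v B b x p q p' q' =
    AV v B b p q p' q' + sy v w (x : Eis) := by
  unfold TT
  rw [if_pos h]

lemma TT_some {π : PP} {B b x p q p' q' : ℤ} (h : ¬ LC π.1 b) :
    TT (some π) B b x p q p' q' =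
      if 3 ∣ V π.1 (b : Eis) + V π.1 (B : Eis) ∧ ¬ 3 ∣ V π.1 (b : Eis)
        then - tm π.1 w (x : Eis) else 0 := by
  have h' : ¬ LC (uni (some π)) b := h
  unfold TT
  rw [if_neg h']

end DCONST

open DCONST in
/-- DCONST: the pairing `O_{nQ}(b, η)` as a function of the prime `Q`. -/
theorem DCONST_thm (hSTM : STM) (hSPP : SPP) (_hSSL : SSL) (hSLC : SLC) (_hSCJ : SCJ)
    (hLCI : LCI) (hAVV : AVV) (_hLFIN : LFIN) : DCONST := by
  intro n b x p q p' q' hn0 _hn3 hs hb hx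
  have hn1 := hs.n1
  have hn2 : p' ^ 3 + b * q' ^ 3 ≠ 0 := by
    intro h
    apply hs.n1
    rw [hs.eq, h, mul_zero]
  have hnz : (n : ℤ) ≠ 0 := by omega
  obtain ⟨M, hMdef⟩ : ∃ M : ℤ, M = (n : ℤ) * b * x * (p ^ 3 + b * q ^ 3) *
    (p' ^ 3 + b * q' ^ 3) := ⟨_, rfl⟩
  have hM : M ≠ 0 := by
    rw [hMdef]
    exact mul_ne_zero (mul_ne_zero (mul_ne_zero (mul_ne_zero hnz hb) hx) hn1) hn2
  have dn : (n : ℤ) ∣ M := ⟨b * x * (p ^ 3 + b * q ^ 3) * (p' ^ 3 + b * q' ^ 3), by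
    rw [hMdef]; ring⟩
  have db : b ∣ M := ⟨(n : ℤ) * x * (p ^ 3 + b * q ^ 3) * (p' ^ 3 + b * q' ^ 3), by
    rw [hMdef]; ring⟩
  have dx : x ∣ M := ⟨(n : ℤ) * b * (p ^ 3 + b * q ^ 3) * (p' ^ 3 + b * q' ^ 3), by
    rw [hMdef]; ring⟩
  have d1 : p ^ 3 + b * q ^ 3 ∣ M := ⟨(n : ℤ) * b * x * (p' ^ 3 + b * q' ^ 3), by
    rw [hMdef]; ring⟩
  have d2 : p' ^ 3 + b * q' ^ 3 ∣ M := ⟨(n : ℤ) * b * x * (p ^ 3 + b * q ^ 3), by
    rw [hMdef]; ring⟩
  have hfin := hSPP.2.2.1 (M : Eis) (cast_ne hM)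
  have hMa : 0 < M.natAbs := Int.natAbs_pos.2 hM
  refine ⟨9 * M.natAbs, by omega, ?_⟩
  intro f hf0 hf
  have h9 : 9 ∣ f := (Dvd.intro _ rfl).trans hf
  have hf1 : 1 < f := by
    have := Nat.le_of_dvd hf0 h9
    omega
  have hMf : M ∣ (f : ℤ) := by
    have h1 : M.natAbs ∣ f := (Dvd.intro_left 9 rfl).trans hf
    exact Int.natAbs_dvd.1 (Int.natCast_dvd_natCast.2 h1)
  have hlamf : lam ^ 4 ∣ ((f : ℤ) : Eis) := by
    have h1 : ((9 : ℤ) : Eis) ∣ ((f : ℤ) : Eis) :=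
      intCast_dvd_intCast.2 (by exact_mod_cast h9)
    refine Dvd.dvd.trans ⟨w ^ 4, ?_⟩ h1
    have h2 : ((9 : ℤ) : Eis) = (3 : Eis) ^ 2 := by norm_num
    rw [h2, three_eq]
    ring
  have hQM : ∀ Q : ℕ, Q.Prime → Q.Coprime f → ¬ (Q : ℤ) ∣ M := by
    intro Q hQ hQf h
    have h1 : (Q : ℤ) ∣ (f : ℤ) := h.trans hMf
    have h2 : Q ∣ f := Int.natCast_dvd_natCast.1 h1
    have h3 := Nat.Coprime.eq_one_of_dvd hQf h2
    exact hQ.one_lt.ne' h3
  have hBne : ∀ Q : ℕ, Q.Prime → (n : ℤ) * Q ≠ 0 := fun Q hQ =>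
    mul_ne_zero hnz (by exact_mod_cast hQ.ne_zero)
  -- the place above `3`
  obtain ⟨c₀, Φ₀, H₀⟩ : ∃ (c : ZMod 3) (Φ : (ZMod f)ˣ →* Multiplicative (ZMod 3)),
      ∀ (Q : ℕ) (hQ : Q.Coprime f), Q.Prime → Adm ((n : ℤ) * Q) x →
        TT none ((n : ℤ) * Q) b x p q p' q' =
          c + (Φ (ZMod.unitOfCoprime Q hQ)).toAdd := by
    by_cases hLC : LC (uni none) b
    · obtain ⟨C, Φ, H⟩ := place_LC (n := (n : ℤ)) hSLC hnz hn1 hn2 hLC hf1 hlamf
      refine ⟨C + sl w (x : Eis), Φ, ?_⟩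
      intro Q hQ hQp hax
      rw [TT_LC hLC]
      obtain ⟨N0, hN0⟩ := (hAVV none ((n : ℤ) * Q) b x p q p' q' (hBne Q hQp) hb hx hs.toSolW
        (sy_zero hSTM hSPP (hBne Q hQp) hax none) hLC).1
      rw [H Q hQ _ N0 hN0]
      show _ + sl w (x : Eis) = _
      ring
    · refine ⟨0, 1, ?_⟩
      intro Q hQ hQp hax
      unfold TT
      rw [if_neg hLC]
      rfl
  -- the places dividing `M`
  have hpl : ∀ π : PP, ∃ (c : ZMod 3) (Φ : (ZMod f)ˣ →* Multiplicative (ZMod 3)),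
      π.1 ∣ (M : Eis) → ∀ (Q : ℕ) (hQ : Q.Coprime f), Q.Prime → Adm ((n : ℤ) * Q) x →
        TT (some π) ((n : ℤ) * Q) b x p q p' q' =
          c + (Φ (ZMod.unitOfCoprime Q hQ)).toAdd := by
    intro π
    by_cases hπM : π.1 ∣ (M : Eis)
    · have hπf : π.1 ∣ ((f : ℤ) : Eis) := hπM.trans (intCast_dvd_intCast.2 hMf)
      by_cases hLC : LC (uni (some π)) b
      · obtain ⟨C, Φ, H⟩ := place_LC (n := (n : ℤ)) (hSTM π.1 π.2.1 (hSPP.2.2.2.1 π).1) hnz hn1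
          hn2 hLC hf1 (by rw [pow_one]; exact hπf)
        refine ⟨C + tm π.1 w (x : Eis), Φ, ?_⟩
        intro _ Q hQ hQp hax
        rw [TT_LC hLC]
        obtain ⟨N0, hN0⟩ := (hAVV (some π) ((n : ℤ) * Q) b x p q p' q' (hBne Q hQp) hb hx
          hs.toSolW (sy_zero hSTM hSPP (hBne Q hQp) hax (some π)) hLC).1
        rw [H Q hQ _ N0 hN0]
        show _ + tm π.1 w (x : Eis) = _
        ring
      · refine ⟨if 3 ∣ V π.1 (b : Eis) + V π.1 ((n : ℤ) : Eis) ∧ ¬ 3 ∣ V π.1 (b : Eis)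
          then - tm π.1 w (x : Eis) else 0, 1, ?_⟩
        intro _ Q hQ hQp hax
        rw [TT_some hLC]
        have hVQ : V π.1 ((Q : ℤ) : Eis) = 0 := by
          apply V_eq_zero
          intro hd
          obtain ⟨y, z, hyz⟩ := Nat.isCoprime_iff_coprime.2 hQ
          apply π.2.1.not_isUnit
          apply isUnit_of_dvd_one
          have h1 : (1 : Eis) = (y : Eis) * ((Q : ℤ) : Eis) + (z : Eis) * ((f : ℤ) : Eis) := by
            have h2 := congrArg (fun t : ℤ => (t : Eis)) hyz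
            simp only [Int.cast_add, Int.cast_mul, Int.cast_one] at h2
            exact h2.symm
          rw [h1]
          exact dvd_add (dvd_mul_of_dvd_right hd _) (dvd_mul_of_dvd_right hπf _)
        have hV : V π.1 (((n : ℤ) * Q : ℤ) : Eis) = V π.1 ((n : ℤ) : Eis) := by
          rw [Int.cast_mul, V_mul π.2.1 (cast_ne hnz) (cast_ne (by exact_mod_cast hQp.ne_zero)),
            hVQ, add_zero]
        rw [hV]
        simp
    · exact ⟨0, 1, fun h => absurd h hπM⟩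
  choose c Φ H using hpl
  refine ⟨c₀ + ∑ π ∈ hfin.toFinset, c π, Φ₀ * ∏ π ∈ hfin.toFinset, Φ π, 0, ?_⟩
  intro Q hQ hQp _ hQ3 hBk hab hax r hr
  obtain ⟨πQ, hπQ⟩ := hSPP.2.2.2.2.1 Q hQp hQ3
  have hQc : ((Q : ℤ) : Eis) = (Q : Eis) := Int.cast_natCast Q
  have hπQ' : πQ.1 = ((Q : ℤ) : Eis) := by rw [hπQ, hQc]
  have hQnd : ∀ m : ℤ, m ∣ M → ¬ πQ.1 ∣ (m : Eis) := by
    intro m hm h
    rw [hπQ'] at h
    exact hQM Q hQp hQ ((intCast_dvd_intCast.1 h).trans hm)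
  have hQw : ¬ πQ.1 ∣ w := not_dvd_w πQ.2.1
  have hBcast : (((n : ℤ) * Q : ℤ) : Eis) = ((n : ℤ) : Eis) * πQ.1 := by
    rw [Int.cast_mul, hπQ']
  -- the place `Q`
  have hTQ : TT (some πQ) ((n : ℤ) * Q) b x p q p' q' = - TAUV Q p q p' q' r := by
    have hLC : LC (uni (some πQ)) b := by
      refine (hLCI.1 πQ b hb).2 ⟨?_, ?_⟩
      · rw [V_eq_zero (hQnd b db)]
        exact dvd_zero 3
      · unfold ch up
        rw [V_eq_zero (hQnd b db), pow_zero, EuclideanDomain.div_one, hπQ]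
        refine sym_int hQp hQ3 ?_
        intro h
        exact hQM Q hQp hQ (h.trans db)
    rw [TT_LC hLC]
    have hw : sy (some πQ) w (x : Eis) = 0 := tm_zero hQw (hQnd x dx)
    rw [hw, add_zero]
    refine (hAVV (some πQ) ((n : ℤ) * Q) b x p q p' q' (hBne Q hQp) hb hx
      hs.toSolW (sy_zero hSTM hSPP (hBne Q hQp) hax (some πQ)) hLC).2 _ 1 ?_
    intro r' hr'
    have hr1 : πQ.1 ∣ (r' : Eis) ^ 3 - (b : Eis) := by
      have h1 : πQ.1 ^ 1 ∣ (r' : Eis) ^ 3 - (b : Eis) := hr'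
      rwa [pow_one] at h1
    have hrr : (Q : ℤ) ∣ r' - r := by
      apply root_unique hQp hQ3
      have h1 : (Q : ℤ) ∣ r' ^ 3 - b := by
        rw [hπQ'] at hr1
        apply intCast_dvd_intCast.1
        push_cast
        push_cast at hr1
        exact hr1
      have h2 : r' ^ 3 - r ^ 3 = (r' ^ 3 - b) - (r ^ 3 - b) := by ring
      rw [h2]
      exact dvd_sub h1 hr
    have hrr' : πQ.1 ∣ (r' : Eis) - (r : Eis) := by
      rw [hπQ', ← Int.cast_sub]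
      exact intCast_dvd_intCast.2 hrr
    have hsym : ∀ (g h : ℤ) (i : ℕ), sym (Q : Eis) (Lf g h i r') = sym (Q : Eis) (Lf g h i r) := by
      intro g h i
      apply sym_congr
      rw [← hπQ]
      have h1 : Lf g h i r' - Lf g h i r = (h * w ^ i) * ((r' : Eis) - r) := by
        unfold Lf
        ring
      rw [h1]
      exact dvd_mul_of_dvd_right hrr' _
    have k1 := Lf_ndvd (p := p) (q := q) hr1 (hQnd _ d1)
    have k2 := Lf_ndvd (p := p') (q := q') hr1 (hQnd _ d2)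
    show tm πQ.1 (((n : ℤ) * Q : ℤ) : Eis) (Lf p q 2 r') +
      tm πQ.1 (((n : ℤ) * Q : ℤ) : Eis) (Lf p' q' 1 r') -
      tm πQ.1 (((n : ℤ) * Q : ℤ) : Eis) (Lf p q 1 r') -
      tm πQ.1 (((n : ℤ) * Q : ℤ) : Eis) (Lf p' q' 2 r') = - TAUV Q p q p' q' r
    rw [hBcast, tm_inert πQ.2.1 (hQnd _ dn) (k1 2), tm_inert πQ.2.1 (hQnd _ dn) (k2 1),
      tm_inert πQ.2.1 (hQnd _ dn) (k1 1), tm_inert πQ.2.1 (hQnd _ dn) (k2 2), hπQ, hsym, hsym,
      hsym, hsym]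
    unfold TAUV
    ring
  -- the sum
  have hQS : πQ ∉ hfin.toFinset := by
    rw [Set.Finite.mem_toFinset]
    exact hQnd M dvd_rfl
  classical
  have hsupp : (Function.support fun v : Pl => TT v ((n : ℤ) * Q) b x p q p' q') ⊆
      ((insert none (insert (some πQ) (hfin.toFinset.image some)) : Finset Pl) : Set Pl) := by
    intro v hv
    by_contra hnv
    apply hv
    rcases v with _ | π
    · exact absurd (Finset.mem_coe.2 (Finset.mem_insert_self _ _)) hnv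
    · have hnM : ¬ π.1 ∣ (M : Eis) := by
        intro h
        apply hnv
        rw [Finset.mem_coe]
        refine Finset.mem_insert_of_mem (Finset.mem_insert_of_mem (Finset.mem_image_of_mem _ ?_))
        rw [Set.Finite.mem_toFinset]
        exact h
      have hπne : π ≠ πQ := by
        rintro rfl
        apply hnv
        rw [Finset.mem_coe]
        exact Finset.mem_insert_of_mem (Finset.mem_insert_self _ _)
      have hd : ∀ m : ℤ, m ∣ M → ¬ π.1 ∣ (m : Eis) := fun m hm h =>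
        hnM (h.trans (intCast_dvd_intCast.2 hm))
      have hπQnd : ¬ π.1 ∣ πQ.1 := by
        intro h
        exact hπne (hSPP.2.1 π πQ (π.2.1.associated_of_dvd πQ.2.1 h))
      have hnB : ¬ π.1 ∣ (((n : ℤ) * Q : ℤ) : Eis) := by
        rw [hBcast]
        intro h
        rcases π.2.1.dvd_or_dvd h with h1 | h1
        · exact hd _ dn h1
        · exact hπQnd h1
      have hnw : ¬ π.1 ∣ w := not_dvd_w π.2.1
      show TT (some π) ((n : ℤ) * Q) b x p q p' q' = 0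
      by_cases hLC : LC (uni (some π)) b
      · rw [TT_LC hLC]
        have hw : sy (some π) w (x : Eis) = 0 := tm_zero hnw (hd x dx)
        obtain ⟨N0, hN0⟩ := (hAVV (some π) ((n : ℤ) * Q) b x p q p' q' (hBne Q hQp) hb hx
          hs.toSolW (sy_zero hSTM hSPP (hBne Q hQp) hax (some π)) hLC).1
        obtain ⟨r₁, hr₁⟩ := hLC (max N0 1)
        have hr0 : uni (some π) ^ N0 ∣ (r₁ : Eis) ^ 3 - (b : Eis) :=
          (pow_dvd_pow _ (le_max_left _ _)).trans hr₁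
        have hr1 : π.1 ∣ (r₁ : Eis) ^ 3 - (b : Eis) := by
          have h1 : π.1 ^ 1 ∣ (r₁ : Eis) ^ 3 - (b : Eis) :=
            (pow_dvd_pow π.1 (le_max_right N0 1)).trans hr₁
          rwa [pow_one] at h1
        have k1 := Lf_ndvd (p := p) (q := q) hr1 (hd _ d1)
        have k2 := Lf_ndvd (p := p') (q := q') hr1 (hd _ d2)
        rw [hw, ← hN0 r₁ hr0]
        show tm π.1 (((n : ℤ) * Q : ℤ) : Eis) (Lf p q 2 r₁) +
          tm π.1 (((n : ℤ) * Q : ℤ) : Eis) (Lf p' q' 1 r₁) -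
          tm π.1 (((n : ℤ) * Q : ℤ) : Eis) (Lf p q 1 r₁) -
          tm π.1 (((n : ℤ) * Q : ℤ) : Eis) (Lf p' q' 2 r₁) + 0 = 0
        rw [tm_zero hnB (k1 2), tm_zero hnB (k2 1), tm_zero hnB (k1 1), tm_zero hnB (k2 2)]
        simp
      · rw [TT_some hLC, if_neg]
        rintro ⟨-, h1⟩
        apply h1
        rw [V_eq_zero (hd b db)]
        exact dvd_zero 3
  have hn_notin : (none : Pl) ∉ insert (some πQ) (hfin.toFinset.image some) := by
    simp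
  have hQ_notin : (some πQ : Pl) ∉ hfin.toFinset.image some := by
    intro h
    obtain ⟨y, hy, hy'⟩ := Finset.mem_image.1 h
    rw [Option.some.injEq] at hy'
    rw [hy'] at hy
    exact hQS hy
  have hsum : ∑ π ∈ hfin.toFinset, TT (some π) ((n : ℤ) * Q) b x p q p' q' =
      ∑ π ∈ hfin.toFinset, (c π + (Φ π (ZMod.unitOfCoprime Q hQ)).toAdd) := by
    refine Finset.sum_congr rfl ?_
    intro π hπ
    rw [Set.Finite.mem_toFinset] at hπ
    exact H π hπ Q hQ hQp hax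
  unfold OO
  rw [finsum_eq_sum_of_support_subset _ hsupp, Finset.sum_insert hn_notin,
    Finset.sum_insert hQ_notin, Finset.sum_image (fun _ _ _ _ h => Option.some_injective _ h),
    hsum, hTQ, H₀ Q hQ hQp hax, Finset.sum_add_distrib, MonoidHom.mul_apply,
    MonoidHom.finsetProd_apply, toAdd_mul, toAdd_prod]
  ring

end Pool.Agent.PT
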