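import Pool.Agent.PT.Stmts4
import Pool.Agent.RI.FROBD
import Pool.Agent.RI.PDGE

/-!
# Prime twists of rank zero: module DENS (the density of the primes with nonsingular matrix)
-/

open NumberField IsDedekindDomain Finset
open scoped nonZeroDivisors Pointwise

namespace Pool.Agent.PT

open Pool.Agent.Lib_helper18 Pool.Agent.Lib_helper18.Eis Pool.Agent.Lib_helper84.Cub

namespace DENS

/-! ### Cube roots modulo `Q = 2 (mod 3)` -/

lemma root_exists {Q : ℕ} (hQ : Q.Prime) (h3 : Q % 3 = 2) (b : ℤ) :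
    ∃ r : ℤ, (Q : ℤ) ∣ r ^ 3 - b := by
  have : Fact Q.Prime := ⟨hQ⟩
  obtain ⟨k, hk⟩ : ∃ k, Q = 3 * k + 2 := ⟨Q / 3, by omega⟩
  refine ⟨b ^ (2 * k + 1), ?_⟩
  have h : (b : ZMod Q) ^ (3 * k + 2) = b :=
    (congrArg (fun n => (b : ZMod Q) ^ n) hk).symm.trans (ZMod.pow_card (b : ZMod Q))
  have h1 : (((b ^ (2 * k + 1)) ^ 3 - b : ℤ) : ZMod Q) = 0 := by
    push_cast
    have h2 : ((b : ZMod Q) ^ (2 * k + 1)) ^ 3 =
        (b : ZMod Q) ^ (3 * k + 2) * (b : ZMod Q) ^ (3 * k + 1) := by ring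
    rw [h2, h]
    have h3 : (b : ZMod Q) * (b : ZMod Q) ^ (3 * k + 1) = (b : ZMod Q) ^ (3 * k + 2) := by ring
    rw [h3, h, sub_self]
  exact (ZMod.intCast_zmod_eq_zero_iff_dvd _ Q).mp h1

/-! ### Densities -/

lemma cls_eq (s : ℝ) {f : ℕ} (a : (ZMod f)ˣ) :
    ∑' q : {q : ℕ // q.Prime ∧ (q : ZMod f) = a}, (q : ℝ) ^ (-s) =
      ∑' n : ℕ, Set.indicator {q : ℕ | q.Prime ∧ (q : ZMod f) = a}
        (fun n : ℕ => (n : ℝ) ^ (-s)) n :=
  tsum_subtype {q : ℕ | q.Prime ∧ (q : ZMod f) = a} (fun n : ℕ => (n : ℝ) ^ (-s))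

open RI.PD in
/-- Removing primes in finitely many residue classes. -/
lemma dens_sub (hDIR : DIR) {f : ℕ} (hf : 0 < f) (𝒞 : Finset (ZMod f)ˣ) (F S : Set ℕ) (δ : ℝ)
    (hF : RI.DensityGE F δ)
    (hsub : ∀ q ∈ F, q.Prime → q ∉ S → ∃ a ∈ 𝒞, (q : ZMod f) = a) :
    RI.DensityGE S (δ - 𝒞.card / f.totient) := by
  classical
  obtain ⟨C, h⟩ := hF
  have hD : ∀ a : (ZMod f)ˣ, ∃ C : ℝ, ∀ s : ℝ, 1 < s → s ≤ 2 →
    ∑' q : {q : ℕ // q.Prime ∧ (q : ZMod f) = a}, (q : ℝ) ^ (-s) ≤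
      (1 / (f.totient : ℝ)) * Real.log (1 / (s - 1)) + C := fun a => hDIR f a hf
  choose D hD using hD
  refine ⟨C + ∑ a ∈ 𝒞, D a, fun s hs hs2 => ?_⟩
  have h1 := h s hs hs2
  rw [sub_eq] at h1 ⊢
  have hsum := summ hs
  have hSF := hsum.indicator {q : ℕ | q.Prime ∧ q ∈ F}
  have hSS := hsum.indicator {q : ℕ | q.Prime ∧ q ∈ S}
  have hSa : ∀ a ∈ 𝒞, Summable (Set.indicator {q : ℕ | q.Prime ∧ (q : ZMod f) = a}
      (fun n : ℕ => (n : ℝ) ^ (-s))) := fun a _ => hsum.indicator _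
  have hpt : ∀ n : ℕ, Set.indicator {q : ℕ | q.Prime ∧ q ∈ F} (fun n : ℕ => (n : ℝ) ^ (-s)) n ≤
      Set.indicator {q : ℕ | q.Prime ∧ q ∈ S} (fun n : ℕ => (n : ℝ) ^ (-s)) n +
        ∑ a ∈ 𝒞, Set.indicator {q : ℕ | q.Prime ∧ (q : ZMod f) = a}
          (fun n : ℕ => (n : ℝ) ^ (-s)) n := by
    intro n
    have h0 : ∀ a ∈ 𝒞, 0 ≤ Set.indicator {q : ℕ | q.Prime ∧ (q : ZMod f) = a}
        (fun n : ℕ => (n : ℝ) ^ (-s)) n :=
      fun a _ => Set.indicator_nonneg (fun x _ => term_nonneg s x) n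
    have hS0 : 0 ≤ Set.indicator {q : ℕ | q.Prime ∧ q ∈ S} (fun n : ℕ => (n : ℝ) ^ (-s)) n :=
      Set.indicator_nonneg (fun x _ => term_nonneg s x) n
    have hsum0 := Finset.sum_nonneg h0
    by_cases hn : n ∈ {q : ℕ | q.Prime ∧ q ∈ F}
    · rw [Set.indicator_of_mem hn]
      by_cases hnS : n ∈ S
      · have hnT : n ∈ {q : ℕ | q.Prime ∧ q ∈ S} := ⟨hn.1, hnS⟩
        rw [Set.indicator_of_mem hnT]
        linarith
      · obtain ⟨a, ha, hna⟩ := hsub n hn.2 hn.1 hnS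
        have h2 := Finset.single_le_sum h0 ha
        have hna' : n ∈ {q : ℕ | q.Prime ∧ (q : ZMod f) = a} := ⟨hn.1, hna⟩
        rw [Set.indicator_of_mem hna'] at h2
        linarith
    · rw [Set.indicator_of_notMem hn]
      linarith
  have h2 := hSF.tsum_le_tsum hpt (hSS.add (summable_sum hSa))
  rw [hSS.tsum_add (summable_sum hSa), Summable.tsum_finsetSum hSa] at h2
  have h3 : ∑ a ∈ 𝒞, ∑' n : ℕ, Set.indicator {q : ℕ | q.Prime ∧ (q : ZMod f) = a}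
      (fun n : ℕ => (n : ℝ) ^ (-s)) n ≤
      ∑ a ∈ 𝒞, ((1 / (f.totient : ℝ)) * Real.log (1 / (s - 1)) + D a) := by
    refine Finset.sum_le_sum fun a _ => ?_
    have h4 := hD a s hs hs2
    rwa [cls_eq] at h4
  rw [Finset.sum_add_distrib, Finset.sum_const, nsmul_eq_mul] at h3
  have h5 : (δ - (𝒞.card : ℝ) / f.totient) * Real.log (1 / (s - 1)) =
      δ * Real.log (1 / (s - 1)) -
        𝒞.card * (1 / (f.totient : ℝ) * Real.log (1 / (s - 1))) := by ring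
  rw [h5]
  linarith

lemma dens_mono {S : Set ℕ} {δ δ' : ℝ} (h : RI.DensityGE S δ) (hδ : δ' ≤ δ) :
    RI.DensityGE S δ' := by
  obtain ⟨C, h⟩ := h
  refine ⟨C, fun s hs hs2 => le_trans ?_ (h s hs hs2)⟩
  have h0 : 0 ≤ Real.log (1 / (s - 1)) := by
    apply Real.log_nonneg
    rw [le_div_iff₀ (by linarith)]
    linarith
  have h1 := mul_le_mul_of_nonneg_right hδ h0
  linarith

/-! ### The counts -/

lemma card_fib {G β : Type} [Finite G] [Fintype β] [DecidableEq β] (χ : G → β) (S : β → Prop)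
    [DecidablePred S] (R : G → Prop) :
    Nat.card {g : G // S (χ g) ∧ R g} =
      ∑ a ∈ univ.filter S, Nat.card {g : G // χ g = a ∧ R g} := by
  classical
  have := Fintype.ofFinite G
  simp only [Nat.card_eq_fintype_card, Fintype.card_subtype]
  rw [Finset.card_eq_sum_card_fiberwise (f := χ) (t := univ.filter S)]
  · refine Finset.sum_congr rfl fun a ha => ?_
    rw [Finset.filter_filter]
    congr 1
    ext g
    simp only [Finset.mem_filter, Finset.mem_univ, true_and] at ha ⊢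
    constructor
    · rintro ⟨⟨_, h2⟩, h3⟩
      exact ⟨h3, h2⟩
    · rintro ⟨h3, h2⟩
      exact ⟨⟨h3 ▸ ha, h2⟩, h3⟩
  · intro g hg
    simp only [Finset.coe_filter, Finset.mem_univ, true_and] at hg ⊢
    exact hg.1

/-- The data for the counts. -/
structure Dat {G : Type} [Group G] [Finite G] {s f m : ℕ} [NeZero f] (χ : G →* (ZMod f)ˣ)
    (t : G → Fin s → Fin s → ZMod 3) (K : (ZMod f)ˣ → Fin (m + 1) → ZMod 3) : Prop where
  hK : ∀ c : Fin (m + 1) → ZMod 3,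
    Nat.card {a : (ZMod f)ˣ // M2 a ∧ K a = c} * (2 * 3 ^ (m + 1)) = f.totient
  hD : ∀ (a : (ZMod f)ˣ) (C : Fin s → Fin s → ZMod 3), M2 a →
    8 * Nat.card {g : G // χ g = a ∧ (alt (C - t g)).det = 0} ≤
      3 * Nat.card {g : G // χ g = a} ∧
    8 * Nat.card {g : G // χ g = a ∧ (alt (C + t g)).det = 0} ≤
      3 * Nat.card {g : G // χ g = a} ∧
    Nat.card {g : G // χ g = a} * f.totient = Nat.card G

section counts

variable {G : Type} [Group G] [Finite G] {s f m : ℕ} [NeZero f] {χ : G →* (ZMod f)ˣ}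
  {t : G → Fin s → Fin s → ZMod 3} {K : (ZMod f)ˣ → Fin (m + 1) → ZMod 3}

omit [Finite G] [NeZero f] in
lemma card_true (a : (ZMod f)ˣ) :
    Nat.card {g : G // χ g = a ∧ True} = Nat.card {g : G // χ g = a} := by
  simp only [and_true]

omit [Finite G] [NeZero f] in
lemma card_true' (c : Fin (m + 1) → ZMod 3) :
    Nat.card {g : G // (M2 (χ g) ∧ K (χ g) = c) ∧ True} =
      Nat.card {g : G // M2 (χ g) ∧ K (χ g) = c} := by
  simp only [and_true]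

lemma countN (h : Dat χ t K) (c : Fin (m + 1) → ZMod 3) :
    Nat.card {g : G // M2 (χ g) ∧ K (χ g) = c} * (2 * 3 ^ (m + 1)) = Nat.card G := by
  classical
  have h1 := card_fib (G := G) (β := (ZMod f)ˣ) χ (fun a => M2 a ∧ K a = c) (fun _ => True)
  rw [card_true' c] at h1
  simp only [card_true] at h1
  have h2 : (∑ a ∈ univ.filter (fun a : (ZMod f)ˣ => M2 a ∧ K a = c),
      Nat.card {g : G // χ g = a}) * f.totient =
      Nat.card {a : (ZMod f)ˣ // M2 a ∧ K a = c} * Nat.card G := by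
    rw [Finset.sum_mul, Nat.card_eq_fintype_card (α := {a : (ZMod f)ˣ // M2 a ∧ K a = c}),
      Fintype.card_subtype, ← smul_eq_mul (a := Finset.card _), ← Finset.sum_const]
    refine Finset.sum_congr rfl fun a ha => ?_
    simp only [Finset.mem_filter, Finset.mem_univ, true_and] at ha
    exact (h.hD a 0 ha.1).2.2
  have h3 := h.hK c
  have hφ : 0 < f.totient := Nat.totient_pos.mpr (NeZero.pos f)
  apply Nat.eq_of_mul_eq_mul_right hφ
  rw [h1]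
  calc (∑ a ∈ univ.filter (fun a : (ZMod f)ˣ => M2 a ∧ K a = c), Nat.card {g : G // χ g = a}) *
        (2 * 3 ^ (m + 1)) * f.totient =
      ((∑ a ∈ univ.filter (fun a : (ZMod f)ˣ => M2 a ∧ K a = c),
        Nat.card {g : G // χ g = a}) * f.totient) * (2 * 3 ^ (m + 1)) := by ring
    _ = (Nat.card {a : (ZMod f)ˣ // M2 a ∧ K a = c} * (2 * 3 ^ (m + 1))) * Nat.card G := by
        rw [h2]; ring
    _ = Nat.card G * f.totient := by rw [h3]; ring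

lemma countB (c : Fin (m + 1) → ZMod 3) (D : G → Prop)
    (D' : (ZMod f)ˣ → G → Prop) (hDD : ∀ g, D g ↔ D' (χ g) g)
    (hb : ∀ a, M2 a → 8 * Nat.card {g : G // χ g = a ∧ D' a g} ≤
      3 * Nat.card {g : G // χ g = a}) :
    8 * Nat.card {g : G // (M2 (χ g) ∧ K (χ g) = c) ∧ D g} ≤
      3 * Nat.card {g : G // M2 (χ g) ∧ K (χ g) = c} := by
  classical
  have h1 := card_fib (G := G) (β := (ZMod f)ˣ) χ (fun a => M2 a ∧ K a = c) (fun _ => True)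
  rw [card_true' c] at h1
  simp only [card_true] at h1
  have h2 := card_fib (G := G) (β := (ZMod f)ˣ) χ (fun a => M2 a ∧ K a = c) D
  rw [h1, h2, Finset.mul_sum, Finset.mul_sum]
  refine Finset.sum_le_sum fun a ha => ?_
  simp only [Finset.mem_filter, Finset.mem_univ, true_and] at ha
  refine le_trans (le_of_eq ?_) (hb a ha.1)
  congr 1
  refine Nat.card_congr (Equiv.subtypeEquivRight fun g => ?_)
  constructor
  · rintro ⟨h3, h4⟩
    exact ⟨h3, h3 ▸ (hDD g).mp h4⟩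
  · rintro ⟨h3, h4⟩
    exact ⟨h3, (hDD g).mpr (h3.symm ▸ h4)⟩

/-- The positive part: nonsingular elements with class `c`. -/
lemma countP (h : Dat χ t K) (c : Fin (m + 1) → ZMod 3) (D : G → Prop)
    (D' : (ZMod f)ˣ → G → Prop) (hDD : ∀ g, D g ↔ D' (χ g) g)
    (hb : ∀ a, M2 a → 8 * Nat.card {g : G // χ g = a ∧ D' a g} ≤
      3 * Nat.card {g : G // χ g = a}) :
    5 * Nat.card G ≤ 8 * (2 * 3 ^ (m + 1)) *
      Nat.card {g : G // (M2 (χ g) ∧ K (χ g) = c) ∧ ¬ D g} := by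
  classical
  have h1 := countB (K := K) c D D' hDD hb
  have h2 := countN h c
  have h3 : Nat.card {g : G // (M2 (χ g) ∧ K (χ g) = c) ∧ D g} +
      Nat.card {g : G // (M2 (χ g) ∧ K (χ g) = c) ∧ ¬ D g} =
      Nat.card {g : G // M2 (χ g) ∧ K (χ g) = c} := by
    have := Fintype.ofFinite G
    simp only [Nat.card_eq_fintype_card, Fintype.card_subtype]
    have h5 := Finset.card_filter_add_card_filter_not
      (s := univ.filter (fun g => M2 (χ g) ∧ K (χ g) = c)) D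
    rwa [Finset.filter_filter, Finset.filter_filter] at h5
  rw [← h2]
  have h4 : 5 * Nat.card {g : G // M2 (χ g) ∧ K (χ g) = c} ≤
      8 * Nat.card {g : G // (M2 (χ g) ∧ K (χ g) = c) ∧ ¬ D g} := by omega
  calc 5 * (Nat.card {g : G // M2 (χ g) ∧ K (χ g) = c} * (2 * 3 ^ (m + 1))) =
      5 * Nat.card {g : G // M2 (χ g) ∧ K (χ g) = c} * (2 * 3 ^ (m + 1)) := by ring
    _ ≤ 8 * Nat.card {g : G // (M2 (χ g) ∧ K (χ g) = c) ∧ ¬ D g} * (2 * 3 ^ (m + 1)) :=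
        Nat.mul_le_mul_right _ h4
    _ = 8 * (2 * 3 ^ (m + 1)) *
        Nat.card {g : G // (M2 (χ g) ∧ K (χ g) = c) ∧ ¬ D g} := by ring

/-- Both conditions at once. -/
lemma countPP (h : Dat χ t K) (c : Fin (m + 1) → ZMod 3) (D E : G → Prop)
    (D' E' : (ZMod f)ˣ → G → Prop) (hDD : ∀ g, D g ↔ D' (χ g) g) (hEE : ∀ g, E g ↔ E' (χ g) g)
    (hb : ∀ a, M2 a → 8 * Nat.card {g : G // χ g = a ∧ D' a g} ≤
      3 * Nat.card {g : G // χ g = a})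
    (hb' : ∀ a, M2 a → 8 * Nat.card {g : G // χ g = a ∧ E' a g} ≤
      3 * Nat.card {g : G // χ g = a}) :
    Nat.card G ≤ 4 * (2 * 3 ^ (m + 1)) *
      Nat.card {g : G // (M2 (χ g) ∧ K (χ g) = c) ∧ ¬ D g ∧ ¬ E g} := by
  classical
  have h1 := countB (K := K) c D D' hDD hb
  have h1' := countB (K := K) c E E' hEE hb'
  have h2 := countN h c
  have h3 : Nat.card {g : G // M2 (χ g) ∧ K (χ g) = c} ≤
      Nat.card {g : G // (M2 (χ g) ∧ K (χ g) = c) ∧ D g} +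
      Nat.card {g : G // (M2 (χ g) ∧ K (χ g) = c) ∧ E g} +
      Nat.card {g : G // (M2 (χ g) ∧ K (χ g) = c) ∧ ¬ D g ∧ ¬ E g} := by
    have := Fintype.ofFinite G
    simp only [Nat.card_eq_fintype_card, Fintype.card_subtype]
    refine le_trans (Finset.card_le_card ?_) (le_trans (Finset.card_union_le _ _)
      (Nat.add_le_add_right (Finset.card_union_le _ _) _))
    intro g hg
    simp only [Finset.mem_filter, Finset.mem_univ, true_and, Finset.mem_union] at hg ⊢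
    tauto
  rw [← h2]
  have h4 : Nat.card {g : G // M2 (χ g) ∧ K (χ g) = c} ≤
      4 * Nat.card {g : G // (M2 (χ g) ∧ K (χ g) = c) ∧ ¬ D g ∧ ¬ E g} := by omega
  calc Nat.card {g : G // M2 (χ g) ∧ K (χ g) = c} * (2 * 3 ^ (m + 1)) ≤
      4 * Nat.card {g : G // (M2 (χ g) ∧ K (χ g) = c) ∧ ¬ D g ∧ ¬ E g} * (2 * 3 ^ (m + 1)) :=
        Nat.mul_le_mul_right _ h4
    _ = 4 * (2 * 3 ^ (m + 1)) *
        Nat.card {g : G // (M2 (χ g) ∧ K (χ g) = c) ∧ ¬ D g ∧ ¬ E g} := by ring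

end counts

/-! ### Invariance -/

lemma alt_congr {s : ℕ} {v v' : Fin s → Fin s → ZMod 3} (h : ∀ j i, j < i → v j i = v' j i) :
    alt v = alt v' := by
  ext j i
  unfold alt
  split_ifs with h1 h2
  · exact h j i h1
  · rw [h i j h2]
  · rfl

lemma M2_iff {f : ℕ} [NeZero f] (h3 : 3 ∣ f) (a : (ZMod f)ˣ) :
    M2 a ↔ ZMod.castHom h3 (ZMod 3) (a : ZMod f) = 2 := by
  have h1 : ZMod.castHom h3 (ZMod 3) (a : ZMod f) = (((a : ZMod f).val : ℕ) : ZMod 3) := by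
    rw [ZMod.castHom_apply, ZMod.cast_eq_val]
  rw [h1]
  unfold M2
  have h2 : ((2 : ℕ) : ZMod 3) = 2 := rfl
  rw [← h2, ZMod.natCast_eq_natCast_iff']

lemma two_pow_even {k : ℕ} (hk : Even k) : (2 : ZMod 3) ^ k = 1 := by
  obtain ⟨l, rfl⟩ := hk
  rw [← two_mul, pow_mul]
  have : (2 : ZMod 3) ^ 2 = 1 := by decide
  rw [this, one_pow]

lemma two_pow_odd {k : ℕ} (hk : Odd k) : (2 : ZMod 3) ^ k = 2 := by
  obtain ⟨l, rfl⟩ := hk
  rw [pow_succ, two_pow_even (even_two_mul l), one_mul]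

section inv

variable {G : Type} [Group G] [Finite G] {s f m : ℕ} [NeZero f] {χ : G →* (ZMod f)ˣ}
  {t : G → Fin s → Fin s → ZMod 3} {κ : (ZMod f)ˣ →* Multiplicative (Fin (m + 1) → ZMod 3)}
  {Φ : (ZMod f)ˣ →* Multiplicative (Fin s → Fin s → ZMod 3)}

lemma exps (h3 : 3 ∣ f) {g h : G} (hg : M2 (χ g)) (hz : Subgroup.zpowers h = Subgroup.zpowers g) :
    ∃ k l : ℕ, g ^ k = h ∧ h ^ l = g ∧ Odd k ∧ Odd l ∧ M2 (χ h) := by
  obtain ⟨k, hk⟩ : ∃ k : ℕ, g ^ k = h := by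
    have h1 : h ∈ Subgroup.zpowers g := hz ▸ Subgroup.mem_zpowers h
    exact mem_powers_iff_mem_zpowers.mpr h1
  obtain ⟨l, hl⟩ : ∃ l : ℕ, h ^ l = g := by
    have h1 : g ∈ Subgroup.zpowers h := hz ▸ Subgroup.mem_zpowers g
    exact mem_powers_iff_mem_zpowers.mpr h1
  rw [M2_iff h3] at hg
  have e1 : ZMod.castHom h3 (ZMod 3) ((χ h : (ZMod f)ˣ) : ZMod f) = 2 ^ k := by
    rw [← hk, map_pow, Units.val_pow_eq_pow_val, map_pow, hg]
  have e2 : (2 : ZMod 3) = (2 ^ k) ^ l := by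
    rw [← e1, ← map_pow, ← Units.val_pow_eq_pow_val, ← map_pow, hl, hg]
  have hodd : Odd k := by
    by_contra hc
    rw [Nat.not_odd_iff_even] at hc
    rw [two_pow_even hc, one_pow] at e2
    exact absurd e2 (by decide)
  rw [two_pow_odd hodd] at e1 e2
  have hodd' : Odd l := by
    by_contra hc
    rw [Nat.not_odd_iff_even] at hc
    rw [two_pow_even hc] at e2
    exact absurd e2 (by decide)
  exact ⟨k, l, hk, hl, hodd, hodd', (M2_iff h3 _).mpr e1⟩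

/-- Generators of conjugate cyclic subgroups have the same data up to a common sign. -/
lemma inv_main (h3 : 3 ∣ f)
    (hconj : ∀ g τ : G, M2 (χ g) → ∀ j i, j ≠ i → t (τ * g * τ⁻¹) j i = t g j i)
    (hpow : ∀ (g : G) (k : ℕ), M2 (χ g) → Odd k → ∀ j i, j ≠ i → t (g ^ k) j i = k * t g j i)
    {g h τ : G} (hg : M2 (χ g)) (hz : Subgroup.zpowers h = Subgroup.zpowers (τ * g * τ⁻¹)) :
    M2 (χ h) ∧
    (((κ (χ h)).toAdd = (κ (χ g)).toAdd ∧ (Φ (χ h)).toAdd = (Φ (χ g)).toAdd ∧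
        ∀ j i, j ≠ i → t h j i = t g j i) ∨
      ((κ (χ h)).toAdd = - (κ (χ g)).toAdd ∧ (Φ (χ h)).toAdd = - (Φ (χ g)).toAdd ∧
        ∀ j i, j ≠ i → t h j i = - t g j i)) := by
  have hχ : χ (τ * g * τ⁻¹) = χ g := by
    rw [map_mul, map_mul, map_inv, mul_comm (χ τ) (χ g), mul_inv_cancel_right]
  have hg' : M2 (χ (τ * g * τ⁻¹)) := by rw [hχ]; exact hg
  obtain ⟨k, l, hk, hl, hkodd, hlodd, hM⟩ := exps h3 hg' hz
  refine ⟨hM, ?_⟩
  have c1 : χ h = χ g ^ k := by rw [← hk, map_pow, hχ]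
  have c2 : χ g = χ h ^ l := by rw [← map_pow, hl, hχ]
  have k1 : (κ (χ h)).toAdd = k • (κ (χ g)).toAdd := by rw [c1, map_pow, toAdd_pow]
  have k2 : (κ (χ g)).toAdd = l • (κ (χ h)).toAdd := by
    rw [← toAdd_pow, ← map_pow, ← c2]
  have p1 : (Φ (χ h)).toAdd = k • (Φ (χ g)).toAdd := by rw [c1, map_pow, toAdd_pow]
  have p2 : (Φ (χ g)).toAdd = l • (Φ (χ h)).toAdd := by
    rw [← toAdd_pow, ← map_pow, ← c2]
  have t1 : ∀ j i, j ≠ i → t h j i = k * t g j i := by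
    intro j i hji
    rw [← hk, hpow _ k hg' hkodd j i hji, hconj g τ hg j i hji]
  have t2 : ∀ j i, j ≠ i → t g j i = l * t h j i := by
    intro j i hji
    rw [← hpow h l hM hlodd j i hji, hl, hconj g τ hg j i hji]
  rw [← Nat.cast_smul_eq_nsmul (ZMod 3)] at k1 k2 p1 p2
  have hcases : (k : ZMod 3) = 0 ∨ (k : ZMod 3) = 1 ∨ (k : ZMod 3) = -1 := by
    generalize (k : ZMod 3) = x
    revert x
    decide
  rcases hcases with hk0 | hk1 | hk2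
  · left
    rw [hk0] at k1 p1
    rw [zero_smul] at k1 p1
    rw [k1, smul_zero] at k2
    rw [p1, smul_zero] at p2
    refine ⟨k1.trans k2.symm, p1.trans p2.symm, fun j i hji => ?_⟩
    have h1 := t1 j i hji
    have h2 := t2 j i hji
    rw [hk0, zero_mul] at h1
    rw [h1, mul_zero] at h2
    exact h1.trans h2.symm
  · left
    rw [hk1, one_smul] at k1 p1
    refine ⟨k1, p1, fun j i hji => ?_⟩
    rw [t1 j i hji, hk1, one_mul]
  · right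
    rw [hk2, neg_smul, one_smul] at k1 p1
    refine ⟨k1, p1, fun j i hji => ?_⟩
    rw [t1 j i hji, hk2, neg_mul, one_mul]

end inv

/-! ### The final step -/

/-- The data of the governing field (`GALD`). -/
structure Gov {s : ℕ} (b : Fin s → ℤ) (p q p' q' : Fin s → Fin s → ℤ) (f : ℕ)
    (L : Type) [Field L] [NumberField L] (χ : (L ≃ₐ[ℚ] L) →* (ZMod f)ˣ)
    (t : (L ≃ₐ[ℚ] L) → Fin s → Fin s → ZMod 3) (N₀ : ℕ) : Prop where
  hconj : ∀ g τ : L ≃ₐ[ℚ] L, M2 (χ g) → ∀ j i, j ≠ i → t (τ * g * τ⁻¹) j i = t g j i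
  hpow : ∀ (g : L ≃ₐ[ℚ] L) (k : ℕ), M2 (χ g) → Odd k → ∀ j i, j ≠ i →
    t (g ^ k) j i = k * t g j i
  hfrob : ∀ (Q : ℕ) (hQ : Q.Coprime f), Q.Prime → N₀ < Q → ∀ (P : Ideal (𝓞 L))
      (g : L ≃ₐ[ℚ] L), P.IsPrime → (Q : 𝓞 L) ∈ P →
      MulAction.stabilizer (L ≃ₐ[ℚ] L) P = Subgroup.zpowers g →
      ∃ k : ℕ, k.Coprime (orderOf g) ∧ χ (g ^ k) = ZMod.unitOfCoprime Q hQ ∧
        (Q % 3 = 2 → ∀ j i, j ≠ i → ∀ r : ℤ, (Q : ℤ) ∣ r ^ 3 - b j →
          t (g ^ k) j i = TAUV Q (p j i) (q j i) (p' j i) (q' j i) r)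

section final

variable {s : ℕ} {b : Fin s → ℤ} {p q p' q' : Fin s → Fin s → ℤ} {f : ℕ}
    {L : Type} [Field L] [NumberField L] {χ : (L ≃ₐ[ℚ] L) →* (ZMod f)ˣ}
    {t : (L ≃ₐ[ℚ] L) → Fin s → Fin s → ZMod 3} {N₀ : ℕ}

lemma zp {G : Type} [Group G] {g : G} {k : ℕ} (hk : k.Coprime (orderOf g)) :
    Subgroup.zpowers (g ^ k) = Subgroup.zpowers g := by
  apply le_antisymm
  · rw [Subgroup.zpowers_le]
    exact Subgroup.npow_mem_zpowers g k
  · rw [Subgroup.zpowers_le]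
    obtain ⟨l, hl⟩ := exists_pow_eq_self_of_coprime hk
    have h1 := Subgroup.npow_mem_zpowers (g ^ k) l
    rwa [hl] at h1

/-- The primes with decomposition group generated by an element of an invariant set. -/
lemma frob_step (hG : Gov b p q p' q' f L χ t N₀) (hf : 0 < f) (T : Set (L ≃ₐ[ℚ] L))
    (hT : ∀ g h τ : L ≃ₐ[ℚ] L, g ∈ T → Subgroup.zpowers h = Subgroup.zpowers (τ * g * τ⁻¹) →
      h ∈ T) {Q : ℕ} (hQ : Q.Prime) (hN : N₀ < Q) (hfQ : f < Q)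
    (hF : ∃ g ∈ T, ∃ P : Ideal (𝓞 L), P.IsPrime ∧ (Q : 𝓞 L) ∈ P ∧
      MulAction.stabilizer (L ≃ₐ[ℚ] L) P = Subgroup.zpowers g) :
    ∃ (hc : Q.Coprime f) (φ : L ≃ₐ[ℚ] L), φ ∈ T ∧ χ φ = ZMod.unitOfCoprime Q hc ∧
      (Q % 3 = 2 → ∀ j i, j ≠ i → ∀ r : ℤ, (Q : ℤ) ∣ r ^ 3 - b j →
          t φ j i = TAUV Q (p j i) (q j i) (p' j i) (q' j i) r) := by
  obtain ⟨g, hg, P, hP, hQP, hst⟩ := hF
  have hc : Q.Coprime f := by
    rw [Nat.Prime.coprime_iff_not_dvd hQ]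
    intro hd
    have := Nat.le_of_dvd hf hd
    omega
  obtain ⟨k, hk, h1, h2⟩ := hG.hfrob Q hc hQ hN P g hP hQP hst
  refine ⟨hc, g ^ k, ?_, h1, h2⟩
  refine hT g (g ^ k) 1 hg ?_
  rw [one_mul, inv_one, mul_one]
  exact zp hk

/-- The set of the theorem. -/
def SS (b : Fin s → ℤ) (p q p' q' : Fin s → Fin s → ℤ) (f : ℕ) {m : ℕ}
    (κ : (ZMod f)ˣ →* Multiplicative (Fin (m + 1) → ZMod 3)) (c : Fin (m + 1) → ZMod 3)
    (C : Fin s → Fin s → ZMod 3) (Φ : (ZMod f)ˣ →* Multiplicative (Fin s → Fin s → ZMod 3)) :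
    Set ℕ :=
  {Q : ℕ | ∃ hQ : Q.Coprime f, Q % 3 = 2 ∧
    (κ (ZMod.unitOfCoprime Q hQ)).toAdd = c ∧
    ∀ τ : Fin s → Fin s → ZMod 3,
      (∀ j i, j ≠ i → ∀ r : ℤ, (Q : ℤ) ∣ r ^ 3 - b j →
        τ j i = TAUV Q (p j i) (q j i) (p' j i) (q' j i) r) →
      (alt (C + (Φ (ZMod.unitOfCoprime Q hQ)).toAdd - τ)).det ≠ 0}

variable {m : ℕ} {κ : (ZMod f)ˣ →* Multiplicative (Fin (m + 1) → ZMod 3)}
  {c : Fin (m + 1) → ZMod 3} {C : Fin s → Fin s → ZMod 3}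
  {Φ : (ZMod f)ˣ →* Multiplicative (Fin s → Fin s → ZMod 3)}

lemma mem_SS {Q : ℕ} (hQ : Q.Prime) (h3 : Q % 3 = 2) (hc : Q.Coprime f) {φ : L ≃ₐ[ℚ] L}
    (hφ : χ φ = ZMod.unitOfCoprime Q hc)
    (ht : ∀ j i, j ≠ i → ∀ r : ℤ, (Q : ℤ) ∣ r ^ 3 - b j →
          t φ j i = TAUV Q (p j i) (q j i) (p' j i) (q' j i) r)
    (hκ : (κ (χ φ)).toAdd = c) (hdet : ¬ (alt (C + (Φ (χ φ)).toAdd - t φ)).det = 0) :
    Q ∈ SS b p q p' q' f κ c C Φ := by
  rw [hφ] at hκ hdet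
  refine ⟨hc, h3, hκ, fun τ hτ hd => hdet ?_⟩
  rw [← hd]
  congr 1
  refine alt_congr fun j i hji => ?_
  obtain ⟨r, hr⟩ := root_exists hQ h3 (b j)
  simp only [Pi.sub_apply]
  rw [ht j i hji.ne r hr, hτ j i hji.ne r hr]

lemma M2_Q {Q : ℕ} (h3 : 3 ∣ f) (hc : Q.Coprime f) (h : M2 (ZMod.unitOfCoprime Q hc)) :
    Q % 3 = 2 := by
  unfold M2 at h
  rw [ZMod.coe_unitOfCoprime, ZMod.val_natCast, Nat.mod_mod_of_dvd _ h3] at h
  exact h

/-- Transfer of the conditions. -/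
lemma det_same {t₁ t₂ P₁ P₂ : Fin s → Fin s → ZMod 3} (hP : P₁ = P₂)
    (ht : ∀ j i, j ≠ i → t₁ j i = t₂ j i) :
    alt (C + P₁ - t₁) = alt (C + P₂ - t₂) ∧ alt (C - P₁ + t₁) = alt (C - P₂ + t₂) := by
  subst hP
  refine ⟨alt_congr fun j i hji => ?_, alt_congr fun j i hji => ?_⟩
  · simp only [Pi.sub_apply, Pi.add_apply, ht j i hji.ne]
  · simp only [Pi.sub_apply, Pi.add_apply, ht j i hji.ne]

lemma det_opp {t₁ t₂ P₁ P₂ : Fin s → Fin s → ZMod 3} (hP : P₁ = -P₂)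
    (ht : ∀ j i, j ≠ i → t₁ j i = - t₂ j i) :
    alt (C + P₁ - t₁) = alt (C - P₂ + t₂) ∧ alt (C - P₁ + t₁) = alt (C + P₂ - t₂) := by
  subst hP
  refine ⟨alt_congr fun j i hji => ?_, alt_congr fun j i hji => ?_⟩
  · simp only [Pi.sub_apply, Pi.add_apply, Pi.neg_apply, ht j i hji.ne]
    ring
  · simp only [Pi.sub_apply, Pi.add_apply, Pi.neg_apply, ht j i hji.ne]
    ring

end final

end DENS

open DENS in
theorem DENS_thm (hGALD : GALD) (hDCNT : DCNT) (hDIR : DIR) : DENS := by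
  classical
  intro s b p q p' q' f m κ c C Φ hSys hs hf h9 hK
  have : NeZero f := ⟨hf.ne'⟩
  have h3f : 3 ∣ f := dvd_trans (by norm_num) h9
  obtain ⟨L, iF, iN, iG, χ, t, N₀, hsurj, hconj, hpow, hcnt, hfrob⟩ :=
    hGALD s b p q p' q' f hSys hf h9
  have hG : Gov b p q p' q' f L χ t N₀ := ⟨hconj, hpow, hfrob⟩
  have hDat : Dat χ t (fun a => (κ a).toAdd) := ⟨hK, hDCNT s f _ χ t hs hf hsurj hcnt⟩
  change RI.DensityGE (SS b p q p' q' f κ c C Φ) (1 / (24 * 3 ^ m))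
  have hGpos : 0 < Nat.card (L ≃ₐ[ℚ] L) := Nat.card_pos
  have hb1 : ∀ a, M2 a → 8 * Nat.card {g : L ≃ₐ[ℚ] L // χ g = a ∧
      (alt (C + (Φ a).toAdd - t g)).det = 0} ≤ 3 * Nat.card {g : L ≃ₐ[ℚ] L // χ g = a} :=
    fun a ha => (hDat.hD a (C + (Φ a).toAdd) ha).1
  have hb2 : ∀ a, M2 a → 8 * Nat.card {g : L ≃ₐ[ℚ] L // χ g = a ∧
      (alt (C - (Φ a).toAdd + t g)).det = 0} ≤ 3 * Nat.card {g : L ≃ₐ[ℚ] L // χ g = a} :=
    fun a ha => (hDat.hD a (C - (Φ a).toAdd) ha).2.1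
  by_cases hc0 : c = 0
  · subst hc0
    let T : Set (L ≃ₐ[ℚ] L) := {g | (M2 (χ g) ∧ (κ (χ g)).toAdd = 0) ∧
      ¬ (alt (C + (Φ (χ g)).toAdd - t g)).det = 0 ∧
      ¬ (alt (C - (Φ (χ g)).toAdd + t g)).det = 0}
    have hT : ∀ g h τ : L ≃ₐ[ℚ] L, g ∈ T →
        Subgroup.zpowers h = Subgroup.zpowers (τ * g * τ⁻¹) → h ∈ T := by
      rintro g h τ ⟨⟨hM, hκ⟩, hd1, hd2⟩ hz
      obtain ⟨hM', hh⟩ := inv_main (κ := κ) (Φ := Φ) h3f hconj hpow hM hz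
      rcases hh with ⟨e1, e2, e3⟩ | ⟨e1, e2, e3⟩
      · obtain ⟨d1, d2⟩ := det_same (C := C) e2 e3
        refine ⟨⟨hM', e1.trans hκ⟩, ?_, ?_⟩
        · rw [d1]; exact hd1
        · rw [d2]; exact hd2
      · obtain ⟨d1, d2⟩ := det_opp (C := C) e2 e3
        refine ⟨⟨hM', by rw [e1, hκ, neg_zero]⟩, ?_, ?_⟩
        · rw [d1]; exact hd2
        · rw [d2]; exact hd1
    have hcard := countPP hDat 0 (fun g => (alt (C + (Φ (χ g)).toAdd - t g)).det = 0)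
      (fun g => (alt (C - (Φ (χ g)).toAdd + t g)).det = 0)
      (fun a g => (alt (C + (Φ a).toAdd - t g)).det = 0)
      (fun a g => (alt (C - (Φ a).toAdd + t g)).det = 0)
      (fun g => Iff.rfl) (fun g => Iff.rfl) hb1 hb2
    have hF := RI.FROBD_thm L T hT
    have hF2 := RI.PDGE_thm _ (SS b p q p' q' f κ 0 C Φ) (Finset.range (N₀ + f + 1)) _ hF (by
      rintro Q hQF hQ hQA
      rw [Finset.mem_range, not_lt] at hQA
      obtain ⟨hc, φ, hφT, hφ, ht⟩ := frob_step hG hf T hT hQ (by omega) (by omega) hQF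
      have hQ3 : Q % 3 = 2 := M2_Q h3f hc (hφ ▸ hφT.1.1)
      exact mem_SS hQ hQ3 hc hφ (ht hQ3) hφT.1.2 hφT.2.1)
    refine dens_mono hF2 ?_
    have h1 : (Nat.card (L ≃ₐ[ℚ] L) : ℝ) ≤ 4 * (2 * 3 ^ (m + 1)) * Nat.card T := by
      exact_mod_cast hcard
    rw [div_le_div_iff₀ (by positivity) (by exact_mod_cast hGpos)]
    rw [pow_succ] at h1
    linarith
  · let T : Set (L ≃ₐ[ℚ] L) := {g | ((M2 (χ g) ∧ (κ (χ g)).toAdd = c) ∧
      ¬ (alt (C + (Φ (χ g)).toAdd - t g)).det = 0) ∨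
      ((M2 (χ g) ∧ (κ (χ g)).toAdd = -c) ∧
      ¬ (alt (C - (Φ (χ g)).toAdd + t g)).det = 0)}
    have hT : ∀ g h τ : L ≃ₐ[ℚ] L, g ∈ T →
        Subgroup.zpowers h = Subgroup.zpowers (τ * g * τ⁻¹) → h ∈ T := by
      rintro g h τ hg hz
      have hM : M2 (χ g) := by
        rcases hg with ⟨⟨hM, -⟩, -⟩ | ⟨⟨hM, -⟩, -⟩ <;> exact hM
      obtain ⟨hM', hh⟩ := inv_main (κ := κ) (Φ := Φ) h3f hconj hpow hM hz
      rcases hh with ⟨e1, e2, e3⟩ | ⟨e1, e2, e3⟩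
      · obtain ⟨d1, d2⟩ := det_same (C := C) e2 e3
        rcases hg with ⟨⟨-, hκ⟩, hd⟩ | ⟨⟨-, hκ⟩, hd⟩
        · left
          refine ⟨⟨hM', e1.trans hκ⟩, ?_⟩
          rw [d1]; exact hd
        · right
          refine ⟨⟨hM', e1.trans hκ⟩, ?_⟩
          rw [d2]; exact hd
      · obtain ⟨d1, d2⟩ := det_opp (C := C) e2 e3
        rcases hg with ⟨⟨-, hκ⟩, hd⟩ | ⟨⟨-, hκ⟩, hd⟩
        · right
          refine ⟨⟨hM', by rw [e1, hκ]⟩, ?_⟩
          rw [d2]; exact hd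
        · left
          refine ⟨⟨hM', by rw [e1, hκ, neg_neg]⟩, ?_⟩
          rw [d1]; exact hd
    have hcard1 := countP hDat c (fun g => (alt (C + (Φ (χ g)).toAdd - t g)).det = 0)
      (fun a g => (alt (C + (Φ a).toAdd - t g)).det = 0) (fun g => Iff.rfl) hb1
    have hcard2 := countP hDat (-c) (fun g => (alt (C - (Φ (χ g)).toAdd + t g)).det = 0)
      (fun a g => (alt (C - (Φ a).toAdd + t g)).det = 0) (fun g => Iff.rfl) hb2
    have hne : c ≠ -c := by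
      intro h
      apply hc0
      ext i
      have h1 := congrFun h i
      rw [Pi.neg_apply] at h1
      rw [Pi.zero_apply]
      revert h1
      generalize c i = x
      revert x
      decide
    have hcardT : Nat.card T = Nat.card {g : L ≃ₐ[ℚ] L // (M2 (χ g) ∧ (κ (χ g)).toAdd = c) ∧
        ¬ (alt (C + (Φ (χ g)).toAdd - t g)).det = 0} +
        Nat.card {g : L ≃ₐ[ℚ] L // (M2 (χ g) ∧ (κ (χ g)).toAdd = -c) ∧
        ¬ (alt (C - (Φ (χ g)).toAdd + t g)).det = 0} := by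
      have := Fintype.ofFinite (L ≃ₐ[ℚ] L)
      change Nat.card {g : L ≃ₐ[ℚ] L // ((M2 (χ g) ∧ (κ (χ g)).toAdd = c) ∧
      ¬ (alt (C + (Φ (χ g)).toAdd - t g)).det = 0) ∨
      ((M2 (χ g) ∧ (κ (χ g)).toAdd = -c) ∧
      ¬ (alt (C - (Φ (χ g)).toAdd + t g)).det = 0)} = _
      simp only [Nat.card_eq_fintype_card, Fintype.card_subtype]
      rw [Finset.filter_or, Finset.card_union_of_disjoint]
      rw [Finset.disjoint_filter]
      rintro g - ⟨⟨-, h1⟩, -⟩ ⟨⟨-, h2⟩, -⟩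
      exact hne (h1.symm.trans h2)
    have hF := RI.FROBD_thm L T hT
    have hF2 := RI.PDGE_thm _ {Q : ℕ | Q ∈ SS b p q p' q' f κ c C Φ ∨
        ∃ a ∈ univ.filter (fun a : (ZMod f)ˣ => M2 a ∧ (κ a).toAdd = -c), (Q : ZMod f) = a}
      (Finset.range (N₀ + f + 1)) _ hF (by
      rintro Q hQF hQ hQA
      rw [Finset.mem_range, not_lt] at hQA
      obtain ⟨hc, φ, hφT, hφ, ht⟩ := frob_step hG hf T hT hQ (by omega) (by omega) hQF
      have hM : M2 (χ φ) := by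
        rcases hφT with ⟨⟨hM, -⟩, -⟩ | ⟨⟨hM, -⟩, -⟩ <;> exact hM
      have hQ3 : Q % 3 = 2 := M2_Q h3f hc (hφ ▸ hM)
      rcases hφT with ⟨⟨-, hκ⟩, hd⟩ | ⟨⟨-, hκ⟩, hd⟩
      · left
        exact mem_SS hQ hQ3 hc hφ (ht hQ3) hκ hd
      · right
        refine ⟨χ φ, ?_, ?_⟩
        · rw [Finset.mem_filter]
          exact ⟨Finset.mem_univ _, hM, hκ⟩
        · rw [hφ, ZMod.coe_unitOfCoprime])
    have hF3 := dens_sub hDIR hf (univ.filter (fun a : (ZMod f)ˣ => M2 a ∧ (κ a).toAdd = -c)) _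
      (SS b p q p' q' f κ c C Φ) _ hF2 (by
      rintro Q hQ1 - hQ2
      exact hQ1.resolve_left hQ2)
    refine dens_mono hF3 ?_
    have hφ : 0 < f.totient := Nat.totient_pos.mpr hf
    have hKc := hK (-c)
    rw [Nat.card_eq_fintype_card, Fintype.card_subtype] at hKc
    have e1 : ((univ.filter (fun a : (ZMod f)ˣ => M2 a ∧ (κ a).toAdd = -c)).card : ℝ) /
        f.totient = 1 / (2 * 3 ^ (m + 1)) := by
      rw [div_eq_div_iff (by exact_mod_cast hφ.ne') (by positivity), one_mul]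
      exact_mod_cast hKc
    rw [e1]
    have h1 : (5 : ℝ) * (Nat.card (L ≃ₐ[ℚ] L) : ℝ) ≤ 8 * 3 ^ (m + 1) * Nat.card T := by
      have h2 : 10 * Nat.card (L ≃ₐ[ℚ] L) ≤ 8 * (2 * 3 ^ (m + 1)) * Nat.card T := by
        rw [hcardT, mul_add]
        omega
      have h4 : (10 : ℝ) * (Nat.card (L ≃ₐ[ℚ] L) : ℝ) ≤ 8 * (2 * 3 ^ (m + 1)) * Nat.card T := by
        exact_mod_cast h2
      linarith
    have h2 : (5 : ℝ) / (8 * 3 ^ (m + 1)) ≤ (Nat.card T : ℝ) / Nat.card (L ≃ₐ[ℚ] L) := by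
      rw [div_le_div_iff₀ (by positivity) (by exact_mod_cast hGpos)]
      linarith
    have h5 : (1 : ℝ) / (24 * 3 ^ m) = 5 / (8 * 3 ^ (m + 1)) - 1 / (2 * 3 ^ (m + 1)) := by
      have h6 : (3 : ℝ) ^ m ≠ 0 := by positivity
      rw [pow_succ]
      field_simp
      norm_num
    rw [h5]
    linarith

end Pool.Agent.PT
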