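import Pool.Agent.PT.Stmts4

/-!
# DIR: upper bound for the number of primes in an arithmetic progression
-/

namespace Pool.Agent.PT

open Pool.Agent.Lib_helper18 Pool.Agent.Lib_helper18.Eis Pool.Agent.Lib_helper84.Cub

namespace DIR

open Complex ArithmeticFunction ArithmeticFunction.vonMangoldt

variable {q : ℕ} [NeZero q] {a : ZMod q}

theorem upper (ha : IsUnit a) :
    ∃ C : ℝ, ∀ x : ℝ, x ∈ Set.Ioc (1:ℝ) 2 →
      ∑' n, residueClass a n / (n : ℝ) ^ x ≤ (q.totient : ℝ)⁻¹ / (x - 1) + C := by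
  have H {x : ℝ} (hx : 1 < x) :
      ∑' n, residueClass a n / (n : ℝ) ^ x =
        (LFunctionResidueClassAux a x).re + (q.totient : ℝ)⁻¹ / (x - 1) := by
    refine ofReal_injective ?_
    simp only [ofReal_tsum, ofReal_div, ofReal_cpow (Nat.cast_nonneg _), ofReal_natCast,
      ofReal_add, ofReal_inv, ofReal_sub, ofReal_one]
    simp_rw [← LFunctionResidueClassAux_real ha hx,
      eqOn_LFunctionResidueClassAux ha <| Set.mem_ofPred.mpr (ofReal_re x ▸ hx), sub_add_cancel,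
      LSeries, LSeries.term]
    refine tsum_congr fun n ↦ ?_
    split_ifs with hn
    · simp only [hn, residueClass_apply_zero, ofReal_zero, zero_div]
    · rfl
  have hc : ContinuousOn (fun x : ℝ ↦ (LFunctionResidueClassAux a x).re) (Set.Icc 1 2) :=
    continuous_re.continuousOn.comp (t := Set.univ) (continuousOn_LFunctionResidueClassAux a)
      (fun ⦃x⦄ a ↦ trivial) |>.comp continuous_ofReal.continuousOn fun x hx ↦ by
        simpa only [Set.mem_ofPred_eq, ofReal_re] using hx.1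
  obtain ⟨C, hC⟩ := bddAbove_def.mp <| IsCompact.bddAbove_image isCompact_Icc hc
  replace hC {x : ℝ} (hx : x ∈ Set.Icc 1 2) : (LFunctionResidueClassAux a x).re ≤ C :=
    hC (LFunctionResidueClassAux a x).re <|
      Set.mem_image_of_mem (fun x : ℝ ↦ (LFunctionResidueClassAux a x).re) hx
  refine ⟨C, fun x hx ↦ ?_⟩
  rw [H hx.1, add_comm]
  exact add_le_add_right (hC (Set.mem_Icc_of_Ioc hx)) _

theorem summ {x : ℝ} (hx : 1 < x) : Summable fun n : ℕ => residueClass a n / (n : ℝ) ^ x :=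
  LSeries.summable_real_of_abscissaOfAbsConv_lt <|
    (abscissaOfAbsConv_residueClass_le_one a).trans_lt <| mod_cast hx

theorem part (T : Finset {p : ℕ // p.Prime ∧ (p : ZMod q) = a}) {x : ℝ} (hx : 1 < x) :
    ∑ p ∈ T, Real.log (p : ℕ) * ((p : ℕ) : ℝ) ^ (-x) ≤ ∑' n, residueClass a n / (n : ℝ) ^ x := by
  classical
  have h1 : ∑ p ∈ T, Real.log (p : ℕ) * ((p : ℕ) : ℝ) ^ (-x) =
      ∑ n ∈ T.map (Function.Embedding.subtype _), residueClass a n / (n : ℝ) ^ x := by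
    rw [Finset.sum_map]
    refine Finset.sum_congr rfl fun p _ => ?_
    change Real.log (p : ℕ) * ((p : ℕ) : ℝ) ^ (-x) = residueClass a (p : ℕ) / ((p : ℕ) : ℝ) ^ x
    have h2 : residueClass a (p : ℕ) = Real.log (p : ℕ) := by
      have h3 : residueClass a (p : ℕ) = vonMangoldt (p : ℕ) := by
        rw [residueClass, Set.indicator_of_mem]
        exact p.2.2
      rw [h3, vonMangoldt_apply_prime p.2.1]
    rw [h2, Real.rpow_neg (Nat.cast_nonneg _), div_eq_mul_inv]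
  rw [h1]
  refine (summ hx).sum_le_tsum _ fun n _ => ?_
  exact div_nonneg (residueClass_nonneg a n) (Real.rpow_nonneg (Nat.cast_nonneg _) _)

end DIR

/-- DIR. -/
theorem DIR_thm : DIR := by
  classical
  intro f a hf
  haveI : NeZero f := ⟨hf.ne'⟩
  obtain ⟨C, hC⟩ := DIR.upper (a := (a : ZMod f)) a.isUnit
  obtain ⟨D, hD⟩ : ∃ D : ℝ, D = |C| := ⟨_, rfl⟩
  have hD0 : 0 ≤ D := by rw [hD]; exact abs_nonneg _
  have hCD : C ≤ D := by rw [hD]; exact le_abs_self _
  obtain ⟨c, hc⟩ : ∃ c : ℝ, c = 1 / (f.totient : ℝ) := ⟨_, rfl⟩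
  have hc0 : 0 ≤ c := by rw [hc]; positivity
  have hs2 : Summable fun n : ℕ => (n : ℝ) ^ (-(2:ℝ)) := by
    rw [Real.summable_nat_rpow]
    norm_num
  obtain ⟨Z, hZ⟩ : ∃ Z : ℝ, Z = ∑' n : ℕ, (n : ℝ) ^ (-(2:ℝ)) := ⟨_, rfl⟩
  have hZ0 : 0 ≤ Z := by
    rw [hZ]
    exact tsum_nonneg fun n => Real.rpow_nonneg (Nat.cast_nonneg _) _
  refine ⟨D + Z, ?_⟩
  intro s hs1 hs2'
  have hlog : 0 ≤ Real.log (1 / (s - 1)) := by
    apply Real.log_nonneg
    rw [le_div_iff₀ (by linarith)]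
    linarith
  rw [← hc]
  apply tsum_le_of_sum_le' (by positivity)
  intro T
  obtain ⟨H, hH⟩ : ∃ H : ℝ → ℝ, H = fun x => ∑ p ∈ T, ((p : ℕ) : ℝ) ^ (-x) +
    c * Real.log (x - 1) + D * x := ⟨_, rfl⟩
  have hder : ∀ x : ℝ, 1 < x → HasDerivAt H (∑ p ∈ T, Real.log (p : ℕ) * (-1) *
      ((p : ℕ) : ℝ) ^ (-x) + c * (1 / (x - 1)) + D * 1) x := by
    intro x hx
    rw [hH]
    refine ((HasDerivAt.fun_sum fun p _ => ?_).add ?_).add ((hasDerivAt_id x).const_mul D)
    · have hp : (0:ℝ) < ((p : ℕ) : ℝ) := by exact_mod_cast p.2.1.pos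
      exact (hasDerivAt_neg x).const_rpow hp
    · exact (((hasDerivAt_id x).sub_const 1).log (by simp only [id]; linarith)).const_mul c
  have hmono : MonotoneOn H (Set.Ioc 1 2) := by
    apply monotoneOn_of_deriv_nonneg (convex_Ioc 1 2)
    · intro x hx
      exact (hder x hx.1).continuousAt.continuousWithinAt
    · intro x hx
      rw [interior_Ioc] at hx
      exact (hder x hx.1).differentiableAt.differentiableWithinAt
    · intro x hx
      rw [interior_Ioc] at hx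
      rw [(hder x hx.1).deriv]
      have h1 := DIR.part (a := (a : ZMod f)) T hx.1
      have h2 := hC x ⟨hx.1, hx.2.le⟩
      have h3 : ∑ p ∈ T, Real.log (p : ℕ) * (-1) * ((p : ℕ) : ℝ) ^ (-x) =
          - ∑ p ∈ T, Real.log (p : ℕ) * ((p : ℕ) : ℝ) ^ (-x) := by
        rw [← Finset.sum_neg_distrib]
        exact Finset.sum_congr rfl fun p _ => by ring
      rw [h3]
      have h4 : c * (1 / (x - 1)) = (f.totient : ℝ)⁻¹ / (x - 1) := by
        rw [hc]
        ring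
      rw [h4]
      linarith
  have h5 := hmono ⟨hs1, hs2'⟩ ⟨by norm_num, le_refl (2:ℝ)⟩ hs2'
  rw [hH] at h5
  have h6 : ∑ p ∈ T, ((p : ℕ) : ℝ) ^ (-(2:ℝ)) ≤ Z := by
    have h7 : ∑ p ∈ T, ((p : ℕ) : ℝ) ^ (-(2:ℝ)) =
        ∑ n ∈ T.map (Function.Embedding.subtype _), (n : ℝ) ^ (-(2:ℝ)) := by
      rw [Finset.sum_map]
      rfl
    rw [h7, hZ]
    exact hs2.sum_le_tsum _ fun n _ => Real.rpow_nonneg (Nat.cast_nonneg _) _
  have h8 : Real.log (1 / (s - 1)) = - Real.log (s - 1) := by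
    rw [one_div, Real.log_inv]
  have h9 : Real.log ((2:ℝ) - 1) = 0 := by norm_num
  simp only at h5
  rw [h9] at h5
  rw [h8]
  nlinarith

end Pool.Agent.PT
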