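import Pool.Agent.Lib_helper18.Suppl
import Pool.Agent.Lib_helper84.Cub.LemC
import Pool.Agent.RI.Stmts2

/-!
# Prime twists of rank zero: definitions

`Eis` is the ring `Z[w]` (library of helper18), `sym l x : ZMod 3` the cubic residue symbol,
`V l x` the multiplicity of `l` in `x`.
-/

namespace Pool.Agent.PT

open Pool.Agent.Lib_helper18 Pool.Agent.Lib_helper18.Eis Pool.Agent.Lib_helper84.Cub

/-- The primes of `Z[w]` not above `3`, one from each class of associates: primary and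
`= 2 (mod 3)`. -/
def PP : Type := {π : Eis // Prime π ∧ π.re % 3 = 2 ∧ (3 : ℤ) ∣ π.im}

/-- the unit part of `a` at `π` -/
noncomputable def up (π a : Eis) : Eis := a / π ^ V π a

/-- the cubic residue symbol of the unit part of `a` at `π` -/
noncomputable def ch (π a : Eis) : ZMod 3 := sym π (up π a)

/-- the tame symbol at `π` with values in `ZMod 3` -/
noncomputable def tm (π a b : Eis) : ZMod 3 := (V π b : ZMod 3) * ch π a - (V π a : ZMod 3) * ch π b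

/-- the symbol at the prime `lam` above `3`, defined by the product formula -/
noncomputable def sl (a b : Eis) : ZMod 3 := -∑ᶠ π : PP, tm π.1 a b

/-- the places: `none` is the prime above `3` -/
abbrev Pl : Type := Option PP

/-- the symbol at a place -/
noncomputable def sy : Pl → Eis → Eis → ZMod 3
  | none => sl
  | some π => tm π.1

/-- the uniformizer of a place -/
def uni : Pl → Eis
  | none => lam
  | some π => π.1

/-- A cubic symbol on `Z[w]` that is continuous for the `π`-adic topology, with exponent `e`. -/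
structure LSym (π : Eis) (s : Eis → Eis → ZMod 3) (e : ℕ) : Prop where
  prime : Prime π
  pos : 1 ≤ e
  mul : ∀ a b c : Eis, a ≠ 0 → b ≠ 0 → c ≠ 0 → s (a * b) c = s a c + s b c
  skew : ∀ a b : Eis, a ≠ 0 → b ≠ 0 → s b a = - s a b
  stein : ∀ a b c : Eis, a ≠ 0 → b ≠ 0 → c ≠ 0 → a + b + c = 0 → s a b + s b c + s c a = 0
  cont : ∀ a a' b : Eis, a ≠ 0 → b ≠ 0 → π ^ (V π a + e) ∣ a' - a → s a' b = s a b

/-- the linear form `p + q w^i r` -/
def Lf (p q : ℤ) (i : ℕ) (r : ℤ) : Eis := (p : Eis) + (q : Eis) * w ^ i * (r : Eis)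

/-- the symbol of `B` with `α = [(p + q w^2 r)(p' + q' w r)] / [(p + q w r)(p' + q' w^2 r)]` -/
def AS (s : Eis → Eis → ZMod 3) (B : Eis) (p q p' q' r : ℤ) : ZMod 3 :=
  s B (Lf p q 2 r) + s B (Lf p' q' 1 r) - s B (Lf p q 1 r) - s B (Lf p' q' 2 r)

/-- `G_i = q p' - w^i p q'` -/
def Gf (p q p' q' : ℤ) (i : ℕ) : Eis := (q : Eis) * p' - w ^ i * p * q'

/-- `D_i = X u + w^i v Y` -/
def Df (X Y u v : ℤ) (i : ℕ) : Eis := (X : Eis) * u + w ^ i * v * Y

/-- The local term of the point `(X, Y)`: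
`(D_1/D_2, N'/n_0) - (D'_1/D'_2, N''/n_0)`, where `D_i = X p' + w^i p Y`, `D'_i = X q' + w^i q Y`,
`N' = p^3 - x p'^3`, `N'' = x q'^3 - q^3`, `n_0 = X^3 + x Y^3`. -/
def SV (s : Eis → Eis → ZMod 3) (x p q p' q' X Y : ℤ) : ZMod 3 :=
  (s (Df X Y p' p 1) ((p ^ 3 - x * p' ^ 3 : ℤ) : Eis) -
    s (Df X Y p' p 2) ((p ^ 3 - x * p' ^ 3 : ℤ) : Eis) -
    s (Df X Y p' p 1) ((X ^ 3 + x * Y ^ 3 : ℤ) : Eis) +
    s (Df X Y p' p 2) ((X ^ 3 + x * Y ^ 3 : ℤ) : Eis)) -
  (s (Df X Y q' q 1) ((x * q' ^ 3 - q ^ 3 : ℤ) : Eis) -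
    s (Df X Y q' q 2) ((x * q' ^ 3 - q ^ 3 : ℤ) : Eis) -
    s (Df X Y q' q 1) ((X ^ 3 + x * Y ^ 3 : ℤ) : Eis) +
    s (Df X Y q' q 2) ((X ^ 3 + x * Y ^ 3 : ℤ) : Eis))

/-- The sum of the local terms `U_v = (B, G_1/G_2) + (w, B x b)`. -/
def UV (s : Eis → Eis → ZMod 3) (B b x p q p' q' : ℤ) : ZMod 3 :=
  s (B : Eis) (Gf p q p' q' 1) - s (B : Eis) (Gf p q p' q' 2) + s w ((B * x * b : ℤ) : Eis)

/-- `b` is a cube in the completion at `π` (through rational integers) -/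
def LC (π : Eis) (b : ℤ) : Prop := ∀ N : ℕ, ∃ r : ℤ, π ^ N ∣ (r : Eis) ^ 3 - (b : Eis)

open Classical in
/-- the value of `AS` at all good approximations of a cube root of `b` -/
noncomputable def AV (v : Pl) (B b p q p' q' : ℤ) : ZMod 3 :=
  if h : ∃ c : ZMod 3, ∃ N0 : ℕ, ∀ r : ℤ, uni v ^ N0 ∣ (r : Eis) ^ 3 - (b : Eis) →
      AS (sy v) (B : Eis) p q p' q' r = c then h.choose else 0

open Classical in
/-- The local term `T_v` of the pair `(b, η)`, `η = (p + q T)/(p' + q' T)` of norm `x` from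
`Q(b^(1/3))`. -/
noncomputable def TT (v : Pl) (B b x p q p' q' : ℤ) : ZMod 3 :=
  if LC (uni v) b then AV v B b p q p' q' + sy v w (x : Eis)
  else match v with
    | none => 0
    | some π => if 3 ∣ V π.1 (b : Eis) + V π.1 (B : Eis) ∧ ¬ 3 ∣ V π.1 (b : Eis)
        then - tm π.1 w (x : Eis) else 0

/-- The pairing `O_B(b, η)`. -/
noncomputable def OO (B b x p q p' q' : ℤ) : ZMod 3 := ∑ᶠ v : Pl, TT v B b x p q p' q'

/-- being a cube modulo `9` (prime to `3`) -/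
def C9 (m : ℤ) : Prop := m % 9 = 1 ∨ m % 9 = 8

/-- `η = (p + q T)/(p' + q' T)` has norm `x` from `Q(b^(1/3))`. -/
structure SolW (b x p q p' q' : ℤ) : Prop where
  eq : p ^ 3 + b * q ^ 3 = x * (p' ^ 3 + b * q' ^ 3)
  n1 : p ^ 3 + b * q ^ 3 ≠ 0

/-- `SolW` with a further nondegeneracy condition (automatic when `x` is not a cube). -/
structure Sol (b x p q p' q' : ℤ) : Prop extends SolW b x p q p' q' where
  n2 : p ^ 3 - x * p' ^ 3 ≠ 0

/-- `b` is an admissible class for the curve `X^3 + Y^3 = B`. -/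
structure Adm (B b : ℤ) : Prop where
  ne : b ≠ 0
  three : ¬ (3 : ℤ) ∣ b
  sym : ∀ π : PP, tm π.1 (b : Eis) (B : Eis) = 0
  unr : ∀ π : PP, ¬ π.1 ∣ (B : Eis) → ¬ π.1 ∣ (b : Eis)
  nine : C9 B → C9 b

/-- conditions on `B`: nonzero, prime to `3`, cube-free -/
structure BOk (B : ℤ) : Prop where
  ne : B ≠ 0
  three : ¬ (3 : ℤ) ∣ B
  cf : ∀ π : PP, V π.1 (B : Eis) ≤ 2

/-- `HypM B`: the part of the Selmer group on which complex conjugation acts by `-1` is trivial. -/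
def HypM (B : ℤ) : Prop := ∀ z t : Eis, z ≠ 0 → z * conj z = t ^ 3 →
  (∀ π : PP, tm π.1 z (B : Eis) = 0) → (∀ π : PP, ¬ π.1 ∣ (B : Eis) → 3 ∣ V π.1 z) →
  ∃ γ : Eis, z = γ ^ 3

/-- `(X, Y)` is a point of class `x` on the curve `X^3 + Y^3 = B`. -/
structure Pt (B x X Y : ℤ) : Prop where
  hX : X ≠ 0
  hY : Y ≠ 0
  eq : ∃ c : ℤ, c ≠ 0 ∧ x * (X ^ 3 + x * Y ^ 3) = B * c ^ 3

end Pool.Agent.PT
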