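import Pool.Agent.PT.Stmts2

/-!
# EADM: `AdmC` and `Adm`
-/

set_option autoImplicit false

namespace Pool.Agent.PT

open Pool.Agent.Lib_helper18 Pool.Agent.Lib_helper18.Eis Pool.Agent.Lib_helper84.Cub

namespace EADM

theorem up_eq {π a c : Eis} {k : ℕ} (hπ : Prime π) (hc : ¬ π ∣ c) (ha : a = π ^ k * c) :
    V π a = k ∧ up π a = c := by
  have h1 : V π a = k := by rw [ha]; exact V_pow_mul hπ k hc
  refine ⟨h1, ?_⟩
  unfold up
  rw [h1, ha]
  exact mul_div_cancel_left₀ c (pow_ne_zero _ hπ.ne_zero)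

theorem up_spec {π a : Eis} (hπ : Prime π) (ha : a ≠ 0) :
    a = π ^ V π a * up π a ∧ ¬ π ∣ up π a := by
  obtain ⟨c, hc, hd⟩ := V_split hπ ha
  have h1 := (up_eq hπ hd hc).2
  rw [h1]
  exact ⟨hc, hd⟩

theorem ch_mul {π a b : Eis} (hπ : Prime π) (h3 : ¬ π ∣ 3) (ha : a ≠ 0) (hb : b ≠ 0) :
    ch π (a * b) = ch π a + ch π b := by
  obtain ⟨h1, h2⟩ := up_spec hπ ha
  obtain ⟨h3', h4⟩ := up_spec hπ hb
  have h5 : a * b = π ^ (V π a + V π b) * (up π a * up π b) := by
    conv_lhs => rw [h1, h3']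
    ring
  have h6 : ¬ π ∣ up π a * up π b := fun h => (hπ.dvd_or_dvd h).elim h2 h4
  have h7 := (up_eq hπ h6 h5).2
  unfold ch
  rw [h7, sym_mul hπ h3 h2 h4]

theorem ch_unit {π a : Eis} (hπ : Prime π) (h : ¬ π ∣ a) : ch π a = sym π a := by
  have h1 := (up_eq (k := 0) hπ h (by simp : a = π ^ 0 * a)).2
  unfold ch
  rw [h1]

/-- the rational prime below a prime of `Z[w]` -/
structure Below (π : PP) (p : ℕ) : Prop where
  pr : p.Prime
  h : (p % 3 = 2 ∧ π.1 = (p : Eis)) ∨
    (p % 3 = 1 ∧ π.1.norm = p ∧ (p : Eis) = π.1 * conj π.1 ∧ ¬ Associated π.1 (conj π.1))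

theorem Below.dvd_int {π : PP} {p : ℕ} (h : Below π p) (m : ℤ) :
    π.1 ∣ (m : Eis) ↔ (p : ℤ) ∣ m := by
  have := Fact.mk h.pr
  rcases h.h with ⟨_, h2⟩ | ⟨_, h2, _, _⟩
  · rw [h2]
    have := intCast_dvd_intCast (m := (p : ℤ)) (n := m)
    rwa [Int.cast_natCast] at this
  · exact dvd_intCast_iff h2

theorem Below.dvd_nat {π : PP} {p : ℕ} (h : Below π p) (m : ℕ) :
    π.1 ∣ (m : Eis) ↔ p ∣ m := by
  have h1 := h.dvd_int (m : ℤ)
  rw [Int.cast_natCast] at h1
  rw [h1]
  exact Int.natCast_dvd_natCast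

theorem Below.V_self {π : PP} {p : ℕ} (h : Below π p) : V π.1 (p : Eis) = 1 := by
  rcases h.h with ⟨_, h2⟩ | ⟨_, _, h3, h4⟩
  · rw [← h2]
    exact Lib_helper84.Cub.V_self
  · rw [h3]
    have h5 : ¬ π.1 ∣ conj π.1 := fun h6 =>
      h4 (π.2.1.associated_of_dvd (prime_conj π.2.1) h6)
    have h6 : π.1 * conj π.1 = π.1 ^ 1 * conj π.1 := by rw [pow_one]
    rw [h6]
    exact V_pow_mul π.2.1 1 h5

theorem natCast_ne {m : ℕ} (hm : m ≠ 0) : (m : Eis) ≠ 0 := by
  intro h
  have := congrArg Eis.re h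
  simp only [natCast_re, zero_re] at this
  exact hm (by exact_mod_cast this)

theorem intCast_ne {m : ℤ} (hm : m ≠ 0) : (m : Eis) ≠ 0 := by
  intro h
  have := congrArg Eis.re h
  simp only [intCast_re, zero_re] at this
  exact hm this

theorem Below.V_nat {π : PP} {p : ℕ} (h : Below π p) {m : ℕ} (hm : m ≠ 0) :
    V π.1 (m : Eis) = m.factorization p := by
  obtain ⟨v, m', hm', rfl⟩ := Nat.exists_eq_pow_mul_and_not_dvd hm p h.pr.ne_one
  have hm0 : m' ≠ 0 := by rintro rfl; exact hm' (dvd_zero _)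
  have h1 : ((p ^ v * m' : ℕ) : Eis) = (p : Eis) ^ v * (m' : Eis) := by push_cast; ring
  have hp0 : (p : Eis) ≠ 0 := natCast_ne h.pr.ne_zero
  rw [h1, V_mul π.2.1 (pow_ne_zero _ hp0) (natCast_ne hm0), V_pow π.2.1 hp0, h.V_self,
    V_eq_zero (fun h2 => hm' ((h.dvd_nat m').1 h2)), Nat.factorization_mul
      (pow_ne_zero _ h.pr.ne_zero) hm0, Finsupp.add_apply, h.pr.factorization_pow,
    Finsupp.single_eq_same, Nat.factorization_eq_zero_of_not_dvd hm']
  ring

theorem C9_iff {m : ℤ} (hm : ¬ (3 : ℤ) ∣ m) : C9 m ↔ wt (m ^ 2) = 0 := by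
  have h1 : ∃ k r : ℤ, m = 9 * k + r ∧ (r = 1 ∨ r = 2 ∨ r = 4 ∨ r = 5 ∨ r = 7 ∨ r = 8) :=
    ⟨m / 9, m % 9, by omega, by omega⟩
  obtain ⟨k, r, rfl, hr⟩ := h1
  have h2 : ∀ s t : ℤ, r ^ 2 = 1 + 3 * (3 * s + t) →
      wt ((9 * k + r) ^ 2) = (t : ZMod 3) := by
    intro s t h
    have h3 : (9 * k + r) ^ 2 = 1 + 3 * (3 * (9 * k ^ 2 + 2 * k * r + s) + t) := by
      linear_combination h
    rw [wt_eq h3]
    push_cast
    have h4 : (3 : ZMod 3) = 0 := by decide
    rw [h4]
    ring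
  unfold C9
  rcases hr with rfl | rfl | rfl | rfl | rfl | rfl
  · rw [h2 0 0 (by norm_num)]
    constructor
    · intro _; decide
    · intro _; left; omega
  · rw [h2 0 1 (by norm_num)]
    constructor
    · rintro (h | h) <;> omega
    · intro h; exact absurd h (by decide)
  · rw [h2 1 2 (by norm_num)]
    constructor
    · rintro (h | h) <;> omega
    · intro h; exact absurd h (by decide)
  · rw [h2 2 2 (by norm_num)]
    constructor
    · rintro (h | h) <;> omega
    · intro h; exact absurd h (by decide)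
  · rw [h2 5 1 (by norm_num)]
    constructor
    · rintro (h | h) <;> omega
    · intro h; exact absurd h (by decide)
  · rw [h2 7 0 (by norm_num)]
    constructor
    · intro _; decide
    · intro _; right; omega

section NFs

variable {n m k : ℕ} {π : Fin m → PP} {p e : Fin m → ℕ} {r f : Fin k → ℕ}

theorem n_ne (hN : NF n π p e r f) : n ≠ 0 := by
  rw [hN.eq]
  exact mul_ne_zero (Finset.prod_ne_zero_iff.2 fun i _ => pow_ne_zero _ (hN.pp i).ne_zero)
    (Finset.prod_ne_zero_iff.2 fun j _ => pow_ne_zero _ (hN.rp j).ne_zero)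

theorem prime_dvd (hN : NF n π p e r f) {l : ℕ} (hl : l.Prime) (h : l ∣ n) :
    (∃ i, l = p i) ∨ ∃ j, l = r j := by
  rw [hN.eq] at h
  rcases hl.dvd_mul.1 h with h | h
  · obtain ⟨i, _, hi⟩ := (Prime.dvd_finsetProd_iff hl.prime _).1 h
    exact Or.inl ⟨i, (Nat.prime_dvd_prime_iff_eq hl (hN.pp i)).1 (hl.dvd_of_dvd_pow hi)⟩
  · obtain ⟨j, _, hj⟩ := (Prime.dvd_finsetProd_iff hl.prime _).1 h
    exact Or.inr ⟨j, (Nat.prime_dvd_prime_iff_eq hl (hN.rp j)).1 (hl.dvd_of_dvd_pow hj)⟩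

theorem three_not (hN : NF n π p e r f) : ¬ 3 ∣ n := by
  intro h
  rcases prime_dvd hN Nat.prime_three h with ⟨i, hi⟩ | ⟨j, hj⟩
  · have := hN.p1 i
    omega
  · have := hN.r2 j
    omega

/-- the exponents of `n` are at most `2` -/
theorem fac_le (hN : NF n π p e r f) (l : ℕ) : n.factorization l ≤ 2 := by
  classical
  have h1 : n.factorization l = (∑ i, if p i = l then e i else 0) +
      ∑ j, if r j = l then f j else 0 := by
    have ha : (∏ i, p i ^ e i) ≠ 0 :=
      Finset.prod_ne_zero_iff.2 fun i _ => pow_ne_zero _ (hN.pp i).ne_zero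
    have hb : (∏ j, r j ^ f j) ≠ 0 :=
      Finset.prod_ne_zero_iff.2 fun j _ => pow_ne_zero _ (hN.rp j).ne_zero
    rw [hN.eq, Nat.factorization_mul ha hb, Finsupp.add_apply,
      Nat.factorization_prod fun i _ => pow_ne_zero _ (hN.pp i).ne_zero,
      Nat.factorization_prod fun j _ => pow_ne_zero _ (hN.rp j).ne_zero,
      Finsupp.finsetSum_apply, Finsupp.finsetSum_apply]
    congr 1
    · refine Finset.sum_congr rfl fun i _ => ?_
      rw [(hN.pp i).factorization_pow, Finsupp.single_apply]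
    · refine Finset.sum_congr rfl fun j _ => ?_
      rw [(hN.rp j).factorization_pow, Finsupp.single_apply]
  rw [h1]
  by_cases hp : ∃ i, p i = l
  · obtain ⟨i, rfl⟩ := hp
    rw [Finset.sum_eq_single i (fun i' _ hi' => if_neg fun h => hi' (hN.pinj h))
      (fun h => absurd (Finset.mem_univ i) h), if_pos rfl,
      Finset.sum_eq_zero fun j _ => if_neg fun h => by
        have h2 := hN.p1 i
        have h3 := hN.r2 j
        rw [h] at h3
        omega]
    have := hN.pe i
    omega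
  · have h2 : (∑ i, if p i = l then e i else 0) = 0 :=
      Finset.sum_eq_zero fun i _ => if_neg fun h => hp ⟨i, h⟩
    rw [h2, zero_add]
    by_cases hr : ∃ j, r j = l
    · obtain ⟨j, rfl⟩ := hr
      rw [Finset.sum_eq_single j (fun j' _ hj' => if_neg fun h => hj' (hN.rinj h))
        (fun h => absurd (Finset.mem_univ j) h), if_pos rfl]
      have := hN.rf j
      omega
    · rw [Finset.sum_eq_zero fun j _ => if_neg fun h => hr ⟨j, h⟩]
      omega

end NFs

end EADM

open EADM in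
/-- EADM: `AdmC` and `Adm`. -/
theorem EADM_thm (hSTM : STM) (hSPP : SPP) (hSCJ : SCJ) : EADM := by
  intro n m k π p e r f w0 c q hN hq hcl hqn
  obtain ⟨_, hSPP2, _, hSPP4, _, hSPP6⟩ := hSPP
  obtain ⟨hSCJ1, _, _, hSCJ4⟩ := hSCJ
  obtain ⟨hq3, hqw, hqc⟩ := hcl
  have hn0 : n ≠ 0 := n_ne hN
  have hn3 : ¬ 3 ∣ n := three_not hN
  have hbelow : ∀ π : PP, ∃ l, Below π l := by
    intro π
    obtain ⟨l, hl, h⟩ := hSPP6 π
    exact ⟨l, hl, h⟩
  have hcast : (((n : ℤ) * (q : ℤ) : ℤ) : Eis) = ((n * q : ℕ) : Eis) := by push_cast; ring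
  have hnq0 : n * q ≠ 0 := mul_ne_zero hn0 hq.ne_zero
  have hB0 : (n : ℤ) * (q : ℤ) ≠ 0 := by exact_mod_cast hnq0
  have hB3 : ¬ (3 : ℤ) ∣ (n : ℤ) * (q : ℤ) := by
    intro h
    have h1 : 3 ∣ n * q := by exact_mod_cast h
    rcases Nat.prime_three.dvd_mul.1 h1 with h2 | h2
    · exact hn3 h2
    · have := (Nat.prime_dvd_prime_iff_eq Nat.prime_three hq).1 h2
      omega
  refine ⟨⟨hB0, hB3, ?_⟩, ?_⟩
  · intro ϖ
    obtain ⟨l, hl⟩ := hbelow ϖ
    rw [hcast, hl.V_nat hnq0, Nat.factorization_mul hn0 hq.ne_zero, Finsupp.add_apply]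
    have h1 := fac_le hN l
    by_cases hlq : l = q
    · have h2 : n.factorization l = 0 := by
        rw [hlq]
        exact Nat.factorization_eq_zero_of_not_dvd hqn
      have h3 : q.factorization l = 1 := by
        rw [hlq]
        exact hq.factorization_self
      omega
    · have h3 : q.factorization l = 0 := by
        apply Nat.factorization_eq_zero_of_not_dvd
        intro h
        exact hlq ((Nat.prime_dvd_prime_iff_eq hl.pr hq).1 h)
      omega
  · intro x hsupp
    -- the conditions at the `π i`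
    have key : x ≠ 0 → ∀ i, (V (π i).1 (n : Eis) : ZMod 3) * ch (π i).1 (x : Eis) -
        (V (π i).1 (x : Eis) : ZMod 3) * (ch (π i).1 (n : Eis) + c i) =
        tm (π i).1 (x : Eis) (((n : ℤ) * (q : ℤ) : ℤ) : Eis) := by
      intro hx i
      obtain ⟨l, hl⟩ := hbelow (π i)
      have hpi : (p i : Eis) = (π i).1 * conj (π i).1 := hN.pπ i
      have hlp : l = p i := by
        have h1 : (π i).1 ∣ (p i : Eis) := by rw [hpi]; exact dvd_mul_right _ _
        exact (Nat.prime_dvd_prime_iff_eq hl.pr (hN.pp i)).1 ((hl.dvd_nat _).1 h1)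
      have hq' : ¬ (π i).1 ∣ (q : Eis) := by
        intro h
        have h1 := (Nat.prime_dvd_prime_iff_eq hl.pr hq).1 ((hl.dvd_nat _).1 h)
        have h2 := hN.p1 i
        rw [← hlp, h1] at h2
        omega
      have h3 : ¬ (π i).1 ∣ 3 := (hSPP4 (π i)).1
      have e1 : (((n : ℤ) * (q : ℤ) : ℤ) : Eis) = (n : Eis) * (q : Eis) := by push_cast; ring
      rw [e1]
      unfold tm
      rw [V_mul (π i).2.1 (natCast_ne hn0) (natCast_ne hq.ne_zero), V_eq_zero hq', add_zero,
        ch_mul (π i).2.1 h3 (natCast_ne hn0) (natCast_ne hq.ne_zero), ch_unit (π i).2.1 hq',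
        hqc i]
    have hnine : ¬ (3 : ℤ) ∣ (n : ℤ) := by
      intro h
      exact hn3 (by exact_mod_cast h)
    have hqq : ¬ (3 : ℤ) ∣ (q : ℤ) := by
      intro h
      have : 3 ∣ q := by exact_mod_cast h
      omega
    have hC : C9 ((n : ℤ) * (q : ℤ)) ↔ wt ((n : ℤ) ^ 2) + w0 = 0 := by
      rw [C9_iff hB3, mul_pow, wt_mul (sq_mod_three hnine) (sq_mod_three hqq), hqw]
    constructor
    · rintro ⟨hx, h3, _, hsym, h9⟩
      refine ⟨hx, h3, ?_, ?_, fun h => h9 (hC.1 h)⟩
      · intro ϖ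
        obtain ⟨l, hl⟩ := hbelow ϖ
        rcases hl.h with ⟨hl3, hl2⟩ | ⟨hl3, hl2, hl4, hl5⟩
        · rw [hl2]
          exact hSCJ4 l hl.pr hl3 x _ hx hB0
        · by_cases hln : l ∣ n
          · rcases prime_dvd hN hl.pr hln with ⟨i, hi⟩ | ⟨j, hj⟩
            · have h4 : ϖ.1 ∣ (π i).1 * conj (π i).1 := by
                rw [← hN.pπ i, ← hi, hl4]
                exact dvd_mul_right _ _
              rcases ϖ.2.1.dvd_or_dvd h4 with h5 | h5
              · have h6 : ϖ = π i :=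
                  hSPP2 _ _ (ϖ.2.1.associated_of_dvd (π i).2.1 h5)
                rw [h6, ← key hx i]
                exact hsym i
              · obtain ⟨ϖ', hϖ'⟩ := (hSPP4 (π i)).2
                have h6 : ϖ = ϖ' := by
                  apply hSPP2
                  rw [hϖ']
                  exact ϖ.2.1.associated_of_dvd (prime_conj (π i).2.1) h5
                rw [h6, hϖ']
                have h7 := hSCJ1 (π i).1 (x : Eis) (((n : ℤ) * (q : ℤ) : ℤ) : Eis) (π i).2.1
                  (hSPP4 (π i)).1 (intCast_ne hx) (intCast_ne hB0)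
                rw [map_intCast, map_intCast] at h7
                rw [h7, ← key hx i, hsym i, neg_zero]
            · have := hN.r2 j
              rw [← hj] at this
              omega
          · have h4 : ¬ ϖ.1 ∣ (x : Eis) := by
              intro h
              exact hln (hsupp l hl.pr ((hl.dvd_int x).1 h))
            have h5 : ¬ ϖ.1 ∣ (((n : ℤ) * (q : ℤ) : ℤ) : Eis) := by
              rw [hcast, hl.dvd_nat]
              intro h
              rcases hl.pr.dvd_mul.1 h with h6 | h6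
              · exact hln h6
              · have := (Nat.prime_dvd_prime_iff_eq hl.pr hq).1 h6
                omega
            unfold tm
            rw [V_eq_zero h4, V_eq_zero h5]
            simp
      · intro ϖ hϖ h
        obtain ⟨l, hl⟩ := hbelow ϖ
        apply hϖ
        rw [hcast, hl.dvd_nat]
        exact (hsupp l hl.pr ((hl.dvd_int x).1 h)).mul_right q
    · rintro ⟨hx, h3, hsym, _, h9⟩
      refine ⟨hx, h3, hsupp, fun i => ?_, fun h => h9 (hC.2 h)⟩
      rw [key hx i]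
      exact hsym (π i)

end Pool.Agent.PT
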