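import Pool.Agent.PT.Stmts2

/-!
# Prime twists of rank zero: basis of the admissible classes (module EBAS)
-/

set_option autoImplicit false

namespace Pool.Agent.PT

open Pool.Agent.Lib_helper18 Pool.Agent.Lib_helper18.Eis Pool.Agent.Lib_helper84.Cub

namespace EBAS

/-! ### Linear algebra -/

/-- Exponent vectors modulo `3`. -/
abbrev EV (m k : ℕ) : Type := (Fin m → ZMod 3) × (Fin k → ZMod 3)

/-- A basis of a subspace such that a linear form vanishes at all its members with at most one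
exception. -/
theorem exists_basis {M : Type} [AddCommGroup M] [Module (ZMod 3) M] [Module.Finite (ZMod 3) M]
    (W : M →ₗ[ZMod 3] ZMod 3) (S : Submodule (ZMod 3) M) :
    ∃ b : Module.Basis (Fin (Module.finrank (ZMod 3) S)) (ZMod 3) S,
      ∀ i j, i ≠ j → W (b i) = 0 ∨ W (b j) = 0 := by
  classical
  set b0 := Module.finBasis (ZMod 3) S with hb0
  by_cases h : ∀ i, W (b0 i) = 0
  · exact ⟨b0, fun i j _ => Or.inl (h i)⟩
  · push Not at h
    obtain ⟨i0, hi0⟩ := h
    let b : Fin (Module.finrank (ZMod 3) S) → S := fun i =>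
      if i = i0 then b0 i0 else b0 i - (W (b0 i) / W (b0 i0)) • b0 i0
    have hb1 : b i0 = b0 i0 := if_pos rfl
    have hb2 : ∀ i, i ≠ i0 → b i = b0 i - (W (b0 i) / W (b0 i0)) • b0 i0 := fun i hi => if_neg hi
    have hspan : ⊤ ≤ Submodule.span (ZMod 3) (Set.range b) := by
      rw [← b0.span_eq, Submodule.span_le]
      rintro x ⟨i, rfl⟩
      have h0 : b0 i0 ∈ Submodule.span (ZMod 3) (Set.range b) := by
        rw [← hb1]
        exact Submodule.subset_span ⟨i0, rfl⟩
      by_cases hi : i = i0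
      · rw [hi]
        exact h0
      · have h1 : b0 i = b i + (W (b0 i) / W (b0 i0)) • b0 i0 := by
          rw [hb2 i hi, sub_add_cancel]
        rw [h1]
        exact add_mem (Submodule.subset_span ⟨i, rfl⟩) (Submodule.smul_mem _ _ h0)
    have hli : LinearIndependent (ZMod 3) b :=
      linearIndependent_of_top_le_span_of_card_eq_finrank hspan (by simp)
    refine ⟨Module.Basis.mk hli hspan, fun i j hij => ?_⟩
    rw [Module.Basis.mk_apply, Module.Basis.mk_apply]
    have h2 : ∀ i, i ≠ i0 → W (b i) = 0 := by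
      intro i hi
      rw [hb2 i hi, Submodule.coe_sub, Submodule.coe_smul, map_sub, map_smul, smul_eq_mul,
        div_mul_cancel₀ _ hi0, sub_self]
    by_cases hi : i = i0
    · exact Or.inr (h2 j (by rw [← hi]; exact hij.symm))
    · exact Or.inl (h2 i hi)

/-- The conditions at the split primes. -/
noncomputable def Lm (n : ℕ) {m k : ℕ} (π : Fin m → PP) (p e : Fin m → ℕ) (r : Fin k → ℕ)
    (c : Fin m → ZMod 3) : EV m k →ₗ[ZMod 3] (Fin m → ZMod 3) where
  toFun v i := (e i : ZMod 3) * (∑ i', v.1 i' *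
      (if i' = i then sym (π i).1 (conj (π i).1) else sym (π i).1 (p i' : Eis))) +
    (e i : ZMod 3) * (∑ j, v.2 j * sym (π i).1 (r j : Eis)) -
    v.1 i * (ch (π i).1 (n : Eis) + c i)
  map_add' := by
    intro v v'
    funext i
    simp only [Prod.fst_add, Prod.snd_add, Pi.add_apply, add_mul, Finset.sum_add_distrib]
    ring
  map_smul' := by
    intro t v
    funext i
    simp only [Prod.smul_fst, Prod.smul_snd, Pi.smul_apply, smul_eq_mul, mul_assoc,
      RingHom.id_apply, ← Finset.mul_sum]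
    ring

/-- The condition modulo `9`. -/
noncomputable def Wm {m k : ℕ} (p : Fin m → ℕ) (r : Fin k → ℕ) :
    EV m k →ₗ[ZMod 3] ZMod 3 where
  toFun v := (∑ i, v.1 i * wt ((p i : ℤ) ^ 2)) + ∑ j, v.2 j * wt ((r j : ℤ) ^ 2)
  map_add' := by
    intro v v'
    simp only [Prod.fst_add, Prod.snd_add, Pi.add_apply, add_mul, Finset.sum_add_distrib]
    ring
  map_smul' := by
    intro t v
    simp only [Prod.smul_fst, Prod.smul_snd, Pi.smul_apply, smul_eq_mul, mul_assoc,
      RingHom.id_apply, ← Finset.mul_sum]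
    ring

/-- The rows of the matrix. -/
theorem row (n : ℕ) {m k : ℕ} (π : Fin m → PP) (p e : Fin m → ℕ) (r : Fin k → ℕ)
    (c : Fin m → ZMod 3) (v : EV m k) (i : Fin m) :
    Lm n π p e r c v i = (∑ i', (if i' = i then
          (e i : ZMod 3) * sym (π i).1 (conj (π i).1) - ch (π i).1 (n : Eis) - c i
        else (e i : ZMod 3) * sym (π i).1 (p i' : Eis)) * v.1 i') +
      (e i : ZMod 3) * (∑ j, v.2 j * sym (π i).1 (r j : Eis)) := by
  classical
  have h1 : ∀ i', (if i' = i then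
          (e i : ZMod 3) * sym (π i).1 (conj (π i).1) - ch (π i).1 (n : Eis) - c i
        else (e i : ZMod 3) * sym (π i).1 (p i' : Eis)) * v.1 i' =
      (e i : ZMod 3) * (v.1 i' *
        (if i' = i then sym (π i).1 (conj (π i).1) else sym (π i).1 (p i' : Eis))) -
      (if i' = i then v.1 i' * (ch (π i).1 (n : Eis) + c i) else 0) := by
    intro i'
    split_ifs
    · ring
    · ring
  rw [Finset.sum_congr rfl fun i' _ => h1 i', Finset.sum_sub_distrib, ← Finset.mul_sum,
    Finset.sum_ite_eq' Finset.univ i, if_pos (Finset.mem_univ i)]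
  change (e i : ZMod 3) * (∑ i', v.1 i' *
      (if i' = i then sym (π i).1 (conj (π i).1) else sym (π i).1 (p i' : Eis))) +
    (e i : ZMod 3) * (∑ j, v.2 j * sym (π i).1 (r j : Eis)) -
    v.1 i * (ch (π i).1 (n : Eis) + c i) = _
  ring

theorem solve {m : ℕ} (M : Matrix (Fin (m + 1)) (Fin (m + 1)) (ZMod 3)) (h : M.det ≠ 0)
    (v : Fin (m + 1) → ZMod 3) : ∃ u : Fin (m + 1) → ZMod 3, ∀ a, ∑ b, M a b * u b = v a := by
  refine ⟨M⁻¹.mulVec v, fun a => ?_⟩
  have h1 : M.mulVec (M⁻¹.mulVec v) = v := by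
    rw [Matrix.mulVec_mulVec, Matrix.mul_nonsing_inv _ (isUnit_iff_ne_zero.mpr h),
      Matrix.one_mulVec]
  exact congrFun h1 a

theorem surj_none (n : ℕ) {m k : ℕ} (π : Fin m → PP) (p e : Fin m → ℕ) (r : Fin k → ℕ)
    (c : Fin m → ZMod 3) (h : (Mp n π p e r none c).det ≠ 0) :
    Function.Surjective (Lm n π p e r c : EV m k →ₗ[ZMod 3] (Fin m → ZMod 3)) := by
  intro v
  obtain ⟨u, hu⟩ := solve _ h (Fin.cons 0 v)
  refine ⟨(fun i => u i.succ, 0), ?_⟩
  funext i
  rw [row]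
  have h1 := hu i.succ
  rw [Fin.sum_univ_succ, Fin.cons_succ] at h1
  have h2 : Mp n π p e r none c i.succ 0 = 0 := rfl
  rw [h2, zero_mul, zero_add] at h1
  rw [← h1]
  have h3 : ∑ j : Fin k, (0 : Fin k → ZMod 3) j * sym (π i).1 (r j : Eis) = 0 := by simp
  rw [h3, mul_zero, add_zero]
  rfl

theorem surj_some (n : ℕ) {m k : ℕ} (π : Fin m → PP) (p e : Fin m → ℕ) (r : Fin k → ℕ)
    (c : Fin m → ZMod 3) (j0 : Fin k) (h : (Mp n π p e r (some j0) c).det ≠ 0) :
    Function.Surjective ((Wm p r).prod (Lm n π p e r c) :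
      EV m k →ₗ[ZMod 3] (ZMod 3 × (Fin m → ZMod 3))) := by
  classical
  rintro ⟨t, v⟩
  obtain ⟨u, hu⟩ := solve _ h (Fin.cons t v)
  refine ⟨(fun i => u i.succ, Pi.single j0 (u 0)), ?_⟩
  have hs : ∀ f : Fin k → ZMod 3, ∑ j, (Pi.single j0 (u 0) : Fin k → ZMod 3) j * f j =
      f j0 * u 0 := by
    intro f
    rw [Finset.sum_eq_single j0]
    · rw [Pi.single_eq_same, mul_comm]
    · intro j _ hj
      rw [Pi.single_eq_of_ne hj, zero_mul]
    · intro hj
      exact absurd (Finset.mem_univ _) hj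
  refine Prod.ext ?_ ?_
  · have h1 := hu 0
    rw [Fin.sum_univ_succ, Fin.cons_zero] at h1
    change (∑ i, u i.succ * wt ((p i : ℤ) ^ 2)) +
      ∑ j, (Pi.single j0 (u 0) : Fin k → ZMod 3) j * wt ((r j : ℤ) ^ 2) = t
    rw [hs, ← h1, add_comm]
    congr 1
    exact Finset.sum_congr rfl fun i _ => mul_comm _ _
  · change Lm n π p e r c (fun i => u i.succ, Pi.single j0 (u 0)) = v
    funext i
    rw [row]
    have h1 := hu i.succ
    rw [Fin.sum_univ_succ, Fin.cons_succ] at h1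
    have h2 : Mp n π p e r (some j0) c i.succ 0 = (e i : ZMod 3) * sym (π i).1 (r j0 : Eis) :=
      rfl
    rw [h2] at h1
    rw [← h1]
    have h3 := hs fun j => sym (π i).1 (r j : Eis)
    simp only at h3 ⊢
    rw [h3, add_comm, mul_assoc]
    rfl

/-- The space of admissible exponent vectors. -/
theorem exists_space (n : ℕ) {m k : ℕ} (π : Fin m → PP) (p e : Fin m → ℕ) (r : Fin k → ℕ)
    (w0 : ZMod 3) (c : Fin m → ZMod 3) (j0 : Option (Fin k))
    (hj0 : (j0 = none ∧ Even k ∧ wt ((n : ℤ) ^ 2) + w0 ≠ 0) ∨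
      (j0 ≠ none ∧ Odd k ∧ wt ((n : ℤ) ^ 2) + w0 = 0))
    (h : (Mp n π p e r j0 c).det ≠ 0) :
    ∃ S : Submodule (ZMod 3) (EV m k), Even (Module.finrank (ZMod 3) S) ∧
      ∀ v : EV m k, v ∈ S ↔ (∀ i, Lm n π p e r c v i = 0) ∧
        (wt ((n : ℤ) ^ 2) + w0 = 0 → Wm p r v = 0) := by
  rcases hj0 with ⟨rfl, hk, hw⟩ | ⟨hne, hk, hw⟩
  · refine ⟨LinearMap.ker (Lm n π p e r c), ?_, fun v => ?_⟩
    · have h1 := LinearMap.finrank_range_add_finrank_ker
        (Lm n π p e r c : EV m k →ₗ[ZMod 3] (Fin m → ZMod 3))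
      rw [LinearMap.range_eq_top.mpr (surj_none n π p e r c h), finrank_top] at h1
      simp only [Module.finrank_prod, Module.finrank_fintype_fun_eq_card, Fintype.card_fin] at h1
      have h2 : Module.finrank (ZMod 3) (LinearMap.ker
          (Lm n π p e r c : EV m k →ₗ[ZMod 3] (Fin m → ZMod 3))) = k := by omega
      rw [h2]
      exact hk
    · rw [LinearMap.mem_ker, funext_iff]
      exact ⟨fun h3 => ⟨h3, fun h4 => absurd h4 hw⟩, fun h3 => h3.1⟩
  · obtain ⟨j1, rfl⟩ := Option.ne_none_iff_exists'.mp hne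
    refine ⟨LinearMap.ker ((Wm p r).prod (Lm n π p e r c)), ?_, fun v => ?_⟩
    · have h1 := LinearMap.finrank_range_add_finrank_ker
        ((Wm p r).prod (Lm n π p e r c) : EV m k →ₗ[ZMod 3] (ZMod 3 × (Fin m → ZMod 3)))
      rw [LinearMap.range_eq_top.mpr (surj_some n π p e r c j1 h), finrank_top] at h1
      simp only [Module.finrank_prod, Module.finrank_fintype_fun_eq_card, Fintype.card_fin,
        Module.finrank_self] at h1
      obtain ⟨k', hk'⟩ := hk
      have h2 : Module.finrank (ZMod 3) (LinearMap.ker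
          ((Wm p r).prod (Lm n π p e r c) :
            EV m k →ₗ[ZMod 3] (ZMod 3 × (Fin m → ZMod 3)))) = 2 * k' := by omega
      rw [h2]
      exact even_two_mul k'
    · rw [LinearMap.mem_ker]
      change (Wm p r v, Lm n π p e r c v) = 0 ↔ _
      rw [Prod.mk_eq_zero, funext_iff]
      exact ⟨fun h3 => ⟨h3.2, fun _ => h3.1⟩, fun h3 => ⟨h3.2 hw, h3.1⟩⟩

/-! ### From exponent vectors to integers -/

/-- The number with given exponents. -/
def toN {m k : ℕ} (p : Fin m → ℕ) (r : Fin k → ℕ) (v : EV m k) : ℕ :=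
  (∏ i, p i ^ (v.1 i).val) * ∏ j, r j ^ (v.2 j).val

section

variable {n m k : ℕ} {π : Fin m → PP} {p e : Fin m → ℕ} {r f : Fin k → ℕ}

theorem toN_ne (h : NF n π p e r f) (v : EV m k) : toN p r v ≠ 0 :=
  mul_ne_zero (Finset.prod_ne_zero_iff.mpr fun i _ => pow_ne_zero _ (h.pp i).ne_zero)
    (Finset.prod_ne_zero_iff.mpr fun j _ => pow_ne_zero _ (h.rp j).ne_zero)

theorem val_prod {a : ℕ} (q : Fin a → ℕ) (hq : ∀ i, (q i).Prime) (x : Fin a → ℕ) (l : ℕ)
    (hl : l.Prime) : padicValNat l (∏ i, q i ^ x i) = ∑ i, if q i = l then x i else 0 := by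
  classical
  have hl' : Fact l.Prime := ⟨hl⟩
  have key : ∀ s : Finset (Fin a), padicValNat l (∏ i ∈ s, q i ^ x i) =
      ∑ i ∈ s, if q i = l then x i else 0 := by
    intro s
    induction s using Finset.induction_on with
    | empty => simp
    | insert b s hb ih =>
      rw [Finset.prod_insert hb, Finset.sum_insert hb,
        padicValNat.mul (pow_ne_zero _ (hq b).ne_zero)
          (Finset.prod_ne_zero_iff.mpr fun i _ => pow_ne_zero _ (hq i).ne_zero), ih,
        padicValNat.pow _ _]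
      congr 1
      split_ifs with h1
      · rw [h1, padicValNat_self, mul_one]
      · have hq' : Fact (q b).Prime := ⟨hq b⟩
        rw [padicValNat_primes (Ne.symm h1), mul_zero]
  exact key Finset.univ

theorem val_toN (h : NF n π p e r f) (v : EV m k) (l : ℕ) (hl : l.Prime) :
    padicValNat l (toN p r v) = (∑ i, if p i = l then (v.1 i).val else 0) +
      ∑ j, if r j = l then (v.2 j).val else 0 := by
  have hl' : Fact l.Prime := ⟨hl⟩
  rw [toN, padicValNat.mul
    (Finset.prod_ne_zero_iff.mpr fun i _ => pow_ne_zero _ (h.pp i).ne_zero)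
    (Finset.prod_ne_zero_iff.mpr fun j _ => pow_ne_zero _ (h.rp j).ne_zero),
    val_prod p h.pp _ l hl, val_prod r h.rp _ l hl]

theorem pr_ne (h : NF n π p e r f) (i : Fin m) (j : Fin k) : p i ≠ r j := by
  intro h1
  have h2 := h.p1 i
  rw [h1, h.r2 j] at h2
  omega

theorem val_p (h : NF n π p e r f) (v : EV m k) (i : Fin m) :
    padicValNat (p i) (toN p r v) = (v.1 i).val := by
  rw [val_toN h v _ (h.pp i)]
  have h1 : ∀ i', (if p i' = p i then (v.1 i').val else 0) = if i' = i then (v.1 i').val else 0 := by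
    intro i'
    by_cases h2 : i' = i
    · rw [h2, if_pos rfl, if_pos rfl]
    · rw [if_neg h2, if_neg fun h3 => h2 (h.pinj h3)]
  have h2 : ∀ j, (if r j = p i then (v.2 j).val else 0) = 0 := fun j =>
    if_neg (pr_ne h i j).symm
  rw [Finset.sum_congr rfl fun i' _ => h1 i', Finset.sum_congr rfl fun j _ => h2 j]
  simp

theorem val_r (h : NF n π p e r f) (v : EV m k) (j : Fin k) :
    padicValNat (r j) (toN p r v) = (v.2 j).val := by
  rw [val_toN h v _ (h.rp j)]
  have h1 : ∀ j', (if r j' = r j then (v.2 j').val else 0) = if j' = j then (v.2 j').val else 0 := by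
    intro j'
    by_cases h2 : j' = j
    · rw [h2, if_pos rfl, if_pos rfl]
    · rw [if_neg h2, if_neg fun h3 => h2 (h.rinj h3)]
  have h2 : ∀ i, (if p i = r j then (v.1 i).val else 0) = 0 := fun i =>
    if_neg (pr_ne h i j)
  rw [Finset.sum_congr rfl fun j' _ => h1 j', Finset.sum_congr rfl fun i _ => h2 i]
  simp

theorem zval_le (a : ZMod 3) : a.val ≤ 2 := by
  have h := ZMod.val_lt a
  omega

/-- The primes dividing `toN`. -/
theorem dvd_toN (h : NF n π p e r f) (v : EV m k) (l : ℕ) (hl : l.Prime) (hd : l ∣ toN p r v) :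
    (∃ i, p i = l) ∨ ∃ j, r j = l := by
  rcases hl.prime.dvd_mul.mp hd with h1 | h1
  · obtain ⟨i, -, hi⟩ := (hl.prime.dvd_finsetProd_iff _).mp h1
    exact Or.inl ⟨i, ((Nat.prime_dvd_prime_iff_eq hl (h.pp i)).mp (hl.dvd_of_dvd_pow hi)).symm⟩
  · obtain ⟨j, -, hj⟩ := (hl.prime.dvd_finsetProd_iff _).mp h1
    exact Or.inr ⟨j, ((Nat.prime_dvd_prime_iff_eq hl (h.rp j)).mp (hl.dvd_of_dvd_pow hj)).symm⟩

theorem val_le (h : NF n π p e r f) (v : EV m k) (l : ℕ) (hl : l.Prime) :
    padicValNat l (toN p r v) ≤ 2 := by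
  by_cases hd : l ∣ toN p r v
  · rcases dvd_toN h v l hl hd with ⟨i, rfl⟩ | ⟨j, rfl⟩
    · rw [val_p h]
      exact zval_le _
    · rw [val_r h]
      exact zval_le _
  · rw [padicValNat.eq_zero_of_not_dvd hd]
    exact Nat.zero_le _

theorem p_dvd (h : NF n π p e r f) (i : Fin m) : p i ∣ n := by
  rw [h.eq]
  refine Dvd.dvd.mul_right ?_ _
  refine dvd_trans (dvd_pow_self (p i) ?_) (Finset.dvd_prod_of_mem _ (Finset.mem_univ i))
  rcases h.pe i with h1 | h1 <;> rw [h1] <;> omega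

theorem r_dvd (h : NF n π p e r f) (j : Fin k) : r j ∣ n := by
  rw [h.eq]
  refine Dvd.dvd.mul_left ?_ _
  refine dvd_trans (dvd_pow_self (r j) ?_) (Finset.dvd_prod_of_mem _ (Finset.mem_univ j))
  rcases h.rf j with h1 | h1 <;> rw [h1] <;> omega

theorem supp_toN (h : NF n π p e r f) (v : EV m k) (l : ℕ) (hl : l.Prime)
    (hd : (l : ℤ) ∣ (toN p r v : ℤ)) : l ∣ n := by
  rcases dvd_toN h v l hl (Int.natCast_dvd_natCast.mp hd) with ⟨i, rfl⟩ | ⟨j, rfl⟩
  · exact p_dvd h i
  · exact r_dvd h j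

theorem three_toN (h : NF n π p e r f) (v : EV m k) : ¬ (3 : ℤ) ∣ (toN p r v : ℤ) := by
  intro hd
  have hd' : 3 ∣ toN p r v := by exact_mod_cast hd
  rcases dvd_toN h v 3 Nat.prime_three hd' with ⟨i, hi⟩ | ⟨j, hj⟩
  · have := h.p1 i
    rw [hi] at this
    omega
  · have := h.r2 j
    rw [hj] at this
    omega

end

/-! ### Multiplicities in `Z[w]` -/

theorem int_dvd {l x : ℤ} (h : (l : Eis) ∣ (x : Eis)) : l ∣ x := by
  obtain ⟨c, hc⟩ := h
  refine ⟨c.re, ?_⟩
  have h1 := congrArg Eis.re hc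
  simpa using h1

theorem V_le (hSPP : SPP) (π : PP) {x : ℤ} (hx : x ≠ 0) :
    ∃ l : ℕ, l.Prime ∧ V π.1 (x : Eis) ≤ padicValInt l x := by
  obtain ⟨l, hl, hcase⟩ := hSPP.2.2.2.2.2 π
  refine ⟨l, hl, ?_⟩
  have hl' : Fact l.Prime := ⟨hl⟩
  have hπ : Prime π.1 := π.2.1
  set a := V π.1 (x : Eis) with ha
  have hxE : (x : Eis) ≠ 0 := by
    intro h
    apply hx
    have h1 := congrArg Eis.re h
    simpa using h1
  have hd : π.1 ^ a ∣ (x : Eis) := pow_multiplicity_dvd _ _
  have key : (l : ℤ) ^ a ∣ x := by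
    apply int_dvd
    rcases hcase with ⟨-, h1⟩ | ⟨-, -, h2, h3⟩
    · rw [h1] at hd
      push_cast
      exact hd
    · have hd' : conj π.1 ^ a ∣ (x : Eis) := by
        have h4 := conj_dvd hd
        rwa [map_pow, conj_intCast] at h4
      have hcop : IsCoprime (π.1 ^ a) (conj π.1 ^ a) := by
        apply IsCoprime.pow
        rw [hπ.irreducible.coprime_iff_not_dvd]
        intro h5
        exact h3 (hπ.irreducible.associated_of_dvd (prime_conj hπ).irreducible h5)
      have h6 := hcop.mul_dvd hd hd'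
      rw [← mul_pow, ← h2] at h6
      push_cast
      exact h6
  have h7 : l ^ a ∣ x.natAbs := by
    have h8 := Int.natAbs_dvd_natAbs.mpr key
    rwa [Int.natAbs_pow, Int.natAbs_natCast] at h8
  rw [padicValInt]
  exact (padicValNat_dvd_iff_le (Int.natAbs_ne_zero.mpr hx)).mp h7

/-! ### The exponent vector of an integer -/

/-- The exponent vector modulo `3`. -/
noncomputable def ev {m k : ℕ} (p : Fin m → ℕ) (r : Fin k → ℕ) (x : ℤ) : EV m k :=
  (fun i => (padicValInt (p i) x : ZMod 3), fun j => (padicValInt (r j) x : ZMod 3))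

theorem padicInt_mul (l : ℕ) (hl : l.Prime) {x y : ℤ} (hx : x ≠ 0) (hy : y ≠ 0) :
    padicValInt l (x * y) = padicValInt l x + padicValInt l y := by
  have hl' : Fact l.Prime := ⟨hl⟩
  exact padicValInt.mul hx hy

theorem padicInt_pow (l : ℕ) (hl : l.Prime) {x : ℤ} (hx : x ≠ 0) (a : ℕ) :
    padicValInt l (x ^ a) = a * padicValInt l x := by
  induction a with
  | zero => simp
  | succ a ih =>
    rw [pow_succ, padicInt_mul l hl (pow_ne_zero _ hx) hx, ih]
    ring

theorem padicInt_prod (l : ℕ) (hl : l.Prime) {ι : Type} (s : Finset ι) (x : ι → ℤ)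
    (hx : ∀ i, x i ≠ 0) : padicValInt l (∏ i ∈ s, x i) = ∑ i ∈ s, padicValInt l (x i) := by
  classical
  induction s using Finset.induction_on with
  | empty => simp
  | insert a s ha ih =>
    rw [Finset.prod_insert ha, Finset.sum_insert ha,
      padicInt_mul l hl (hx a) (Finset.prod_ne_zero_iff.mpr fun i _ => hx i), ih]

section

variable {n m k : ℕ} {π : Fin m → PP} {p e : Fin m → ℕ} {r f : Fin k → ℕ}

theorem ev_toN (h : NF n π p e r f) (v : EV m k) : ev p r (toN p r v : ℤ) = v := by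
  refine Prod.ext ?_ ?_
  · funext i
    change ((padicValInt (p i) (toN p r v : ℤ) : ℕ) : ZMod 3) = v.1 i
    rw [padicValInt.of_nat, val_p h, ZMod.natCast_zmod_val]
  · funext j
    change ((padicValInt (r j) (toN p r v : ℤ) : ℕ) : ZMod 3) = v.2 j
    rw [padicValInt.of_nat, val_r h, ZMod.natCast_zmod_val]

theorem ev_prod (h : NF n π p e r f) {s : ℕ} (x : Fin s → ℤ) (hx : ∀ i, x i ≠ 0)
    (g : Fin s → ℕ) : ev p r (∏ i, x i ^ g i) = ∑ i, (g i : ZMod 3) • ev p r (x i) := by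
  have key : ∀ l : ℕ, l.Prime → ((padicValInt l (∏ i, x i ^ g i) : ℕ) : ZMod 3) =
      ∑ i, (g i : ZMod 3) * (padicValInt l (x i) : ZMod 3) := by
    intro l hl
    rw [padicInt_prod l hl _ _ fun i => pow_ne_zero _ (hx i), Nat.cast_sum]
    refine Finset.sum_congr rfl fun i _ => ?_
    rw [padicInt_pow l hl (hx i), Nat.cast_mul]
  refine Prod.ext ?_ ?_
  · rw [Prod.fst_sum]
    funext i
    rw [Finset.sum_apply]
    exact key _ (h.pp i)
  · rw [Prod.snd_sum]
    funext j
    rw [Finset.sum_apply]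
    exact key _ (h.rp j)

theorem ev_cube (h : NF n π p e r f) (t : ℤ) (ht : t ≠ 0) : ev p r (t ^ 3) = 0 := by
  have h3 : ((3 : ℕ) : ZMod 3) = 0 := ZMod.natCast_self 3
  refine Prod.ext ?_ ?_
  · funext i
    change ((padicValInt (p i) (t ^ 3) : ℕ) : ZMod 3) = 0
    rw [padicInt_pow _ (h.pp i) ht, Nat.cast_mul, h3, zero_mul]
  · funext j
    change ((padicValInt (r j) (t ^ 3) : ℕ) : ZMod 3) = 0
    rw [padicInt_pow _ (h.rp j) ht, Nat.cast_mul, h3, zero_mul]

end

end EBAS

open EBAS in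
/-- EBAS: basis of the admissible classes. -/
theorem EBAS_thm (hEVEC : EVEC) (hSPP : SPP) : EBAS := by
  intro n m k π p e r f w0 c j0 h hj0 _ hdet
  obtain ⟨S, hS, hmem⟩ := exists_space n π p e r w0 c j0 hj0 hdet
  obtain ⟨b, hb⟩ := exists_basis (Wm p r) S
  obtain ⟨hE1, hE2⟩ := hEVEC n m k π p e r f w0 c h
  have hB0 : ∀ v : EV m k, (toN p r v : ℤ) ≠ 0 := fun v => by
    exact_mod_cast toN_ne h v
  have hadm : ∀ x : ℤ, x ≠ 0 → ¬ (3 : ℤ) ∣ x → (∀ l : ℕ, l.Prime → (l : ℤ) ∣ x → l ∣ n) →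
      (AdmC n π w0 c x ↔ ev p r x ∈ S) := by
    intro x h1 h2 h3
    rw [(hE1 x h1 h2 h3).1, hmem]
    exact Iff.rfl
  refine ⟨Module.finrank (ZMod 3) S, fun i => (toN p r (b i) : ℤ), hS, fun i => ?_,
    fun i π' => ?_, fun g hg => ?_, fun i j hij => ?_, fun x hx => ?_⟩
  · rw [hadm _ (hB0 _) (three_toN h _) (supp_toN h _), ev_toN h]
    exact (b i).2
  · obtain ⟨l, hl, hle⟩ := V_le hSPP π' (hB0 (b i))
    refine hle.trans ?_
    rw [padicValInt.of_nat]
    exact val_le h _ l hl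
  · rintro ⟨t, ht⟩
    have hprod : ∏ i, (toN p r (b i) : ℤ) ^ g i ≠ 0 :=
      Finset.prod_ne_zero_iff.mpr fun i _ => pow_ne_zero _ (hB0 _)
    have ht0 : t ≠ 0 := by
      rintro rfl
      apply hprod
      rw [← ht]
      norm_num
    have h1 := ev_prod h (fun i => (toN p r (b i) : ℤ)) (fun i => hB0 _) g
    rw [← ht, ev_cube h t ht0] at h1
    simp only [ev_toN h] at h1
    have h2 : ∑ i, (g i : ZMod 3) • b i = 0 := by
      apply Subtype.ext
      rw [AddSubmonoidClass.coe_finsetSum]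
      exact h1.symm
    have h3 := Fintype.linearIndependent_iff.mp b.linearIndependent _ h2
    obtain ⟨i, hi⟩ := hg
    exact hi ((ZMod.natCast_eq_zero_iff _ _).mp (h3 i))
  · have h1 : ∀ i, C9 (toN p r (b i) : ℤ) ↔ Wm p r (b i : EV m k) = 0 := by
      intro i
      rw [(hE1 _ (hB0 _) (three_toN h _) (supp_toN h _)).2]
      change Wm p r (ev p r (toN p r (b i) : ℤ)) = 0 ↔ _
      rw [ev_toN h]
    rcases hb i j hij with h2 | h2
    · exact Or.inl ((h1 i).mpr h2)
    · exact Or.inr ((h1 j).mpr h2)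
  · have hxS : ev p r x ∈ S := (hadm x hx.ne hx.three hx.supp).mp hx
    refine ⟨fun i => (b.repr ⟨ev p r x, hxS⟩ i).val, ?_⟩
    rw [hE2 x _ hx.ne (Finset.prod_ne_zero_iff.mpr fun i _ => pow_ne_zero _ (hB0 _)) hx.supp
      (fun l hl hd => ?_)]
    · have h1 := ev_prod h (fun i => (toN p r (b i) : ℤ)) (fun i => hB0 _)
        (fun i => (b.repr ⟨ev p r x, hxS⟩ i).val)
      simp only [ev_toN h, ZMod.natCast_zmod_val] at h1
      have h2 : ev p r x = ev p r (∏ i, (toN p r (b i) : ℤ) ^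
          (b.repr ⟨ev p r x, hxS⟩ i).val) := by
        rw [h1]
        have h3 := congrArg (fun z : S => (z : EV m k)) (b.sum_repr ⟨ev p r x, hxS⟩)
        simp only [AddSubmonoidClass.coe_finsetSum] at h3
        exact h3.symm
      exact ⟨fun i => congrFun (congrArg Prod.fst h2) i, fun j => congrFun (congrArg Prod.snd h2) j⟩
    · obtain ⟨i, -, hi⟩ := (Nat.prime_iff_prime_int.mp hl).dvd_finsetProd_iff _ |>.mp hd
      exact supp_toN h _ l hl ((Nat.prime_iff_prime_int.mp hl).dvd_of_dvd_pow hi)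

end Pool.Agent.PT
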