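import Pool.Agent.PT.Stmts2

/-!
# Prime twists of rank zero: the class and the system
-/

set_option autoImplicit false

namespace Pool.Agent.PT

open Pool.Agent.Lib_helper18 Pool.Agent.Lib_helper18.Eis Pool.Agent.Lib_helper84.Cub

namespace ECL

lemma wt_ne {r : ℕ} (h : r % 9 = 2 ∨ r % 9 = 5) : wt ((r : ℤ) ^ 2) ≠ 0 := by
  have h3 : (3 : ZMod 3) = 0 := rfl
  rcases h with h | h
  · obtain ⟨t, ht⟩ : ∃ t : ℕ, r = 9 * t + 2 := ⟨r / 9, by omega⟩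
    have e : (r : ℤ) ^ 2 = 1 + 3 * (27 * (t : ℤ) ^ 2 + 12 * t + 1) := by
      rw [ht]
      push_cast
      ring
    rw [wt_eq e]
    have e2 : ((27 * (t : ℤ) ^ 2 + 12 * t + 1 : ℤ) : ZMod 3) = 1 := by
      push_cast
      linear_combination (9 * (t : ZMod 3) ^ 2 + 4 * t) * h3
    rw [e2]
    decide
  · obtain ⟨t, ht⟩ : ∃ t : ℕ, r = 9 * t + 5 := ⟨r / 9, by omega⟩
    have e : (r : ℤ) ^ 2 = 1 + 3 * (27 * (t : ℤ) ^ 2 + 30 * t + 8) := by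
      rw [ht]
      push_cast
      ring
    rw [wt_eq e]
    have e2 : ((27 * (t : ℤ) ^ 2 + 30 * t + 8 : ℤ) : ZMod 3) = 2 := by
      push_cast
      linear_combination (9 * (t : ZMod 3) ^ 2 + 10 * t + 2) * h3
    rw [e2]
    decide

/-- a rational cube that is an integer is a cube -/
lemma cube_of {z u t : ℤ} (hu : u ≠ 0) (h : z * u ^ 3 = t ^ 3) : ∃ m : ℤ, m ^ 3 = z := by
  have h1 : u ^ 3 ∣ t ^ 3 := ⟨z, by rw [← h]; ring⟩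
  have h2 : u ∣ t := (Int.pow_dvd_pow_iff (by norm_num)).1 h1
  obtain ⟨m, hm⟩ := h2
  refine ⟨m, ?_⟩
  have h3 : z * u ^ 3 = m ^ 3 * u ^ 3 := by rw [h, hm]; ring
  exact (mul_right_cancel₀ (pow_ne_zero 3 hu) h3).symm

/-- the determinant vanishes -/
lemma point_det (hEHYP : EHYP) (hEADM : EADM) (hFD1 : FD1) (hFD2 : FD2) (hTEND : TEND)
    {n m k : ℕ} {π : Fin m → PP} {p e : Fin m → ℕ} {r f : Fin k → ℕ} (hNF : NF n π p e r f)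
    {w0 : ZMod 3} {c : Fin m → ZMod 3} {j0 : Option (Fin k)}
    (h0 : j0 = none → wt ((n : ℤ) ^ 2) + w0 ≠ 0) (hdet : (Mm n π e r j0 c).det ≠ 0)
    {s : ℕ} {b : Fin s → ℤ} (hAdm : ∀ i, AdmC n π w0 c (b i))
    (hgen : ∀ x : ℤ, AdmC n π w0 c x → ∃ (g : Fin s → ℕ) (u v : ℤ), u ≠ 0 ∧ v ≠ 0 ∧
      x * u ^ 3 = (∏ i, b i ^ g i) * v ^ 3)
    {P Q P' Q' : Fin s → Fin s → ℤ} (hSys : Sys b P Q P' Q') (q : ℕ) (hq : q.Prime)
    (hIn : InCl π w0 c q) (hqn : ¬ q ∣ n) (hq3 : 3 < q) :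
    (∀ i, Adm ((n : ℤ) * q) (b i)) ∧ BOk ((n : ℤ) * q) ∧
      ((∃ X Y : ℚ, X ^ 3 + Y ^ 3 = (n : ℚ) * q) → (Mat b P Q P' Q' ((n : ℤ) * q)).det = 0) := by
  obtain ⟨hB, hE⟩ := hEADM n m k π p e r f w0 c q hNF hq hIn hqn
  have hA : ∀ i, Adm ((n : ℤ) * q) (b i) := fun i => (hE _ (hAdm i).supp).1 (hAdm i)
  refine ⟨hA, hB, ?_⟩
  rintro ⟨X, Y, hXY⟩
  have hn0 : 0 < n := by
    rcases Nat.eq_zero_or_pos n with h | h
    · exact absurd (by rw [h]; exact dvd_zero q) hqn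
    · exact h
  have h3 : 3 ≤ |(n : ℤ) * q| := by
    have h1 : (3 : ℤ) ≤ (n : ℤ) * q := by
      have h2 : 3 ≤ n * q := by nlinarith
      exact_mod_cast h2
    exact h1.trans (le_abs_self _)
  have hH : HypM ((n : ℤ) * q) := hEHYP n m k π p e r f w0 c j0 q hNF hq hIn hqn h0 hdet
  obtain ⟨a, x, hC⟩ := hFD1 ((n : ℤ) * q) hB h3 hH ⟨X, Y, by rw [hXY]; push_cast; ring⟩
  obtain ⟨z, X1, Y1, hPt, hAz, hsupp, hcube⟩ := hFD2 n q a x hq hIn.1 hqn hn0 hB hC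
  obtain ⟨g, u, v, hu, hv, hg⟩ := hgen z ((hE z hsupp).2 hAz)
  set W : ℤ := ∏ i, b i ^ g i with hW
  have hex : ∃ i, ¬ 3 ∣ g i := by
    by_contra hcon
    push Not at hcon
    choose g' hg' using hcon
    apply hcube
    have h1 : z * u ^ 3 = ((∏ i, b i ^ g' i) * v) ^ 3 := by
      rw [hg, hW, mul_pow, ← Finset.prod_pow]
      congr 1
      refine Finset.prod_congr rfl fun i _ => ?_
      rw [← pow_mul, hg' i, mul_comm]
    exact cube_of hu h1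
  have hPt' : Pt ((n : ℤ) * q) (∏ i, b i ^ g i) (u * v * X1) (v ^ 2 * Y1) := by
    refine ⟨mul_ne_zero (mul_ne_zero hu hv) hPt.hX, mul_ne_zero (pow_ne_zero 2 hv) hPt.hY, ?_⟩
    obtain ⟨c0, hc0, h1⟩ := hPt.eq
    refine ⟨c0 * u ^ 2, mul_ne_zero hc0 (pow_ne_zero 2 hu), ?_⟩
    rw [← hW]
    have e1 : W * ((u * v * X1) ^ 3 + W * (v ^ 2 * Y1) ^ 3) =
        (W * v ^ 3) * (u ^ 3 * X1 ^ 3 + (W * v ^ 3) * Y1 ^ 3) := by ring
    rw [e1, ← hg]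
    have e2 : z * u ^ 3 * (u ^ 3 * X1 ^ 3 + z * u ^ 3 * Y1 ^ 3) =
        u ^ 6 * (z * (X1 ^ 3 + z * Y1 ^ 3)) := by ring
    rw [e2, h1]
    ring
  have hker := (hTEND s b P Q P' Q' ((n : ℤ) * q) hSys hB hA).2 g _ _ hex hPt'
  rw [← Matrix.exists_mulVec_eq_zero_iff]
  refine ⟨fun i => (g i : ZMod 3), ?_, ?_⟩
  · intro h1
    obtain ⟨i, hi⟩ := hex
    apply hi
    have h2 := congrFun h1 i
    exact (ZMod.natCast_eq_zero_iff (g i) 3).1 h2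
  · ext j
    exact hker j

end ECL

open ECL in
/-- ECL: the class and the system. -/
theorem ECL_thm (hEMAT : EMAT) (hEHYP : EHYP) (hEBAS : EBAS) (hEADM : EADM) (hESYS : ESYS)
    (hFD1 : FD1) (hFD2 : FD2) (hTEND : TEND) : ECL := by
  intro n m k π p e r f hNF hk
  have key : ∀ (j0 : Option (Fin k)) (w0 : ZMod 3),
      ((j0 = none ∧ Even k ∧ wt ((n : ℤ) ^ 2) + w0 ≠ 0) ∨
        (j0 ≠ none ∧ Odd k ∧ wt ((n : ℤ) ^ 2) + w0 = 0)) →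
      (∀ j, j0 = some j → wt ((r j : ℤ) ^ 2) ≠ 0) → ∃ (w0 : ZMod 3) (c : Fin m → ZMod 3) (s : ℕ)
      (b : Fin s → ℤ) (P Q P' Q' : Fin s → Fin s → ℤ),
      Even s ∧ (∀ i, AdmC n π w0 c (b i)) ∧ Sys b P Q P' Q' ∧
      ∀ q : ℕ, q.Prime → InCl π w0 c q → ¬ q ∣ n → 3 < q →
        (∀ i, Adm ((n : ℤ) * q) (b i)) ∧ BOk ((n : ℤ) * q) ∧
        ((∃ X Y : ℚ, X ^ 3 + Y ^ 3 = (n : ℚ) * q) →
          (Mat b P Q P' Q' ((n : ℤ) * q)).det = 0) := by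
    intro j0 w0 hj hwt
    obtain ⟨c, hc1, hc2⟩ := hEMAT n m k π p e r f j0 hNF hwt
    obtain ⟨s, b, hs, hAdm, hV, hind, hc9, hgen⟩ :=
      hEBAS n m k π p e r f w0 c j0 hNF hj hwt hc2
    obtain ⟨P, Q, P', Q', hSys⟩ := hESYS n m k π p e r f w0 c s b hNF hAdm hV hind hc9
    refine ⟨w0, c, s, b, P, Q, P', Q', hs, hAdm, hSys, ?_⟩
    intro q hq hIn hqn hq3
    refine point_det hEHYP hEADM hFD1 hFD2 hTEND hNF ?_ hc1 hAdm hgen hSys q hq hIn hqn hq3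
    intro h
    rcases hj with h1 | h1
    · exact h1.2.2
    · exact absurd h h1.1
  rcases Nat.even_or_odd k with hev | hodd
  · refine key none (1 - wt ((n : ℤ) ^ 2)) (Or.inl ⟨rfl, hev, ?_⟩) (fun j hj => by cases hj)
    rw [add_sub_cancel]
    exact one_ne_zero
  · rcases hk with h | ⟨j, hj⟩
    · exact absurd hodd (Nat.not_odd_iff_even.2 h)
    · refine key (some j) (-wt ((n : ℤ) ^ 2)) (Or.inr ⟨by simp, hodd, ?_⟩) ?_
      · rw [add_neg_cancel]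
      · intro j' hj'
        rw [← Option.some.inj hj']
        exact wt_ne hj

end Pool.Agent.PT
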