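import Pool.Agent.PT.Stmts2

/-!
# Prime twists of rank zero: EDET, the choice of a diagonal
-/

namespace Pool.Agent.PT

open Pool.Agent.Lib_helper18 Pool.Agent.Lib_helper18.Eis Pool.Agent.Lib_helper84.Cub

namespace EDET

theorem choice : ∀ b D b' D' : ZMod 3, D ≠ 0 → D' ≠ 0 →
    ∃ t : ZMod 3, b - t * D ≠ 0 ∧ b' - t * D' ≠ 0 := by
  decide

/-- The determinant is affine in the last diagonal entry. -/
theorem det_last {n : ℕ} (A : Matrix (Fin (n + 2)) (Fin (n + 2)) (ZMod 3))
    (d : Fin (n + 1) → ZMod 3) (t : ZMod 3) :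
    (A - Matrix.diagonal (Fin.snoc d t : Fin (n + 2) → ZMod 3)).det =
      (A - Matrix.diagonal (Fin.snoc d 0 : Fin (n + 2) → ZMod 3)).det -
        t * (A.submatrix Fin.castSucc Fin.castSucc - Matrix.diagonal d).det := by
  set B : Matrix (Fin (n + 2)) (Fin (n + 2)) (ZMod 3) :=
    A - Matrix.diagonal (Fin.snoc d 0 : Fin (n + 2) → ZMod 3) with hB
  have h1 : A - Matrix.diagonal (Fin.snoc d t : Fin (n + 2) → ZMod 3) =
      Matrix.updateRow B (Fin.last (n + 1))
        (B (Fin.last (n + 1)) + (-t) • (Pi.single (Fin.last (n + 1)) (1 : ZMod 3))) := by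
    ext i j
    by_cases hi : i = Fin.last (n + 1)
    · subst hi
      rw [Matrix.updateRow_self, Pi.add_apply, Pi.smul_apply, hB, Matrix.sub_apply,
        Matrix.sub_apply]
      by_cases hj : Fin.last (n + 1) = j
      · subst hj
        rw [Matrix.diagonal_apply_eq, Matrix.diagonal_apply_eq, Fin.snoc_last, Fin.snoc_last,
          Pi.single_eq_same, smul_eq_mul]
        ring
      · rw [Matrix.diagonal_apply_ne _ hj, Matrix.diagonal_apply_ne _ hj,
          Pi.single_eq_of_ne (Ne.symm hj), smul_zero, add_zero]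
    · rw [Matrix.updateRow_ne hi, hB, Matrix.sub_apply, Matrix.sub_apply]
      by_cases hj : i = j
      · subst hj
        obtain ⟨i', rfl⟩ : ∃ i' : Fin (n + 1), i = i'.castSucc := by
          exact ⟨i.castPred hi, (Fin.castSucc_castPred i hi).symm⟩
        rw [Matrix.diagonal_apply_eq, Matrix.diagonal_apply_eq, Fin.snoc_castSucc,
          Fin.snoc_castSucc]
      · rw [Matrix.diagonal_apply_ne _ hj, Matrix.diagonal_apply_ne _ hj]
  have h2 : (Matrix.updateRow B (Fin.last (n + 1))
      (Pi.single (Fin.last (n + 1)) (1 : ZMod 3))).det =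
      (A.submatrix Fin.castSucc Fin.castSucc - Matrix.diagonal d).det := by
    rw [← Matrix.adjugate_apply, Matrix.adjugate_fin_succ_eq_det_submatrix]
    have h3 : (-1 : ZMod 3) ^ (((Fin.last (n + 1) : Fin (n + 2)) : ℕ) +
        ((Fin.last (n + 1) : Fin (n + 2)) : ℕ)) = 1 := by
      rw [← two_mul, pow_mul]
      norm_num
    rw [h3, one_mul, Fin.succAbove_last]
    congr 1
    ext i j
    rw [Matrix.submatrix_apply, hB, Matrix.sub_apply, Matrix.sub_apply, Matrix.submatrix_apply]
    congr 1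
    by_cases hij : i = j
    · subst hij
      rw [Matrix.diagonal_apply_eq, Matrix.diagonal_apply_eq, Fin.snoc_castSucc]
    · rw [Matrix.diagonal_apply_ne _ hij, Matrix.diagonal_apply_ne _ (by
        intro h
        exact hij (Fin.castSucc_injective _ h))]
  rw [h1, Matrix.det_updateRow_add, Matrix.det_updateRow_smul, h2, Matrix.updateRow_eq_self]
  ring

theorem cons_snoc {n : ℕ} (d : Fin n → ZMod 3) (t : ZMod 3) :
    (Fin.cons 0 (Fin.snoc d t : Fin (n + 1) → ZMod 3) : Fin (n + 2) → ZMod 3) =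
      Fin.snoc (Fin.cons 0 d : Fin (n + 1) → ZMod 3) t :=
  Fin.cons_snoc_eq_snoc_cons 0 d t

end EDET

theorem EDET_thm : EDET := by
  intro m
  induction m with
  | zero =>
    intro A A' hA hA'
    refine ⟨fun i => 0, ?_, ?_⟩
    · rw [Matrix.det_fin_one, Matrix.sub_apply, Matrix.diagonal_apply_eq, Fin.cons_zero, sub_zero]
      exact hA
    · rw [Matrix.det_fin_one, Matrix.sub_apply, Matrix.diagonal_apply_eq, Fin.cons_zero, sub_zero]
      exact hA'
  | succ m ih =>
    intro A A' hA hA'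
    obtain ⟨d, hd, hd'⟩ := ih (A.submatrix Fin.castSucc Fin.castSucc)
      (A'.submatrix Fin.castSucc Fin.castSucc) hA hA'
    obtain ⟨t, ht, ht'⟩ := EDET.choice
      (A - Matrix.diagonal (Fin.snoc (Fin.cons 0 d : Fin (m + 1) → ZMod 3) 0 :
        Fin (m + 2) → ZMod 3)).det _
      (A' - Matrix.diagonal (Fin.snoc (Fin.cons 0 d : Fin (m + 1) → ZMod 3) 0 :
        Fin (m + 2) → ZMod 3)).det _ hd hd'
    refine ⟨Fin.snoc d t, ?_, ?_⟩
    · rw [EDET.cons_snoc, EDET.det_last]
      exact ht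
    · rw [EDET.cons_snoc, EDET.det_last]
      exact ht'

end Pool.Agent.PT
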