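import Pool.Agent.PT.Stmts4

/-!
# EHYP: the minus part of the Selmer group is trivial
-/

namespace Pool.Agent.PT

open Pool.Agent.Lib_helper18 Pool.Agent.Lib_helper18.Eis Pool.Agent.Lib_helper84.Cub

namespace EHYP

theorem up_eq {π a c : Eis} {k : ℕ} (hπ : Prime π) (hc : ¬ π ∣ c) (ha : a = π ^ k * c) :
    V π a = k ∧ up π a = c := by
  have h1 : V π a = k := by rw [ha]; exact V_pow_mul hπ k hc
  refine ⟨h1, ?_⟩
  unfold up
  rw [h1, ha]
  exact mul_div_cancel_left₀ c (pow_ne_zero _ hπ.ne_zero)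

theorem up_spec {π a : Eis} (hπ : Prime π) (ha : a ≠ 0) :
    a = π ^ V π a * up π a ∧ ¬ π ∣ up π a := by
  obtain ⟨c, hc, hd⟩ := V_split hπ ha
  have h1 := (up_eq hπ hd hc).2
  rw [h1]
  exact ⟨hc, hd⟩

theorem ch_mul {π a b : Eis} (hπ : Prime π) (h3 : ¬ π ∣ 3) (ha : a ≠ 0) (hb : b ≠ 0) :
    ch π (a * b) = ch π a + ch π b := by
  obtain ⟨h1, h2⟩ := up_spec hπ ha
  obtain ⟨h3', h4⟩ := up_spec hπ hb
  have h5 : a * b = π ^ (V π a + V π b) * (up π a * up π b) := by
    conv_lhs => rw [h1, h3']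
    ring
  have h6 : ¬ π ∣ up π a * up π b := fun h => (hπ.dvd_or_dvd h).elim h2 h4
  have h7 := (up_eq hπ h6 h5).2
  unfold ch
  rw [h7, sym_mul hπ h3 h2 h4]

theorem ch_of_not_dvd {π a : Eis} (hπ : Prime π) (ha : ¬ π ∣ a) : ch π a = sym π a := by
  unfold ch
  rw [(up_eq (k := 0) hπ ha (by simp : a = π ^ 0 * a)).2]

theorem ch_self {π : Eis} (hπ : Prime π) (h3 : ¬ π ∣ 3) : ch π π = 0 := by
  unfold ch
  rw [(up_eq (k := 1) hπ (not_dvd_of_isUnit hπ isUnit_one) (by simp : π = π ^ 1 * 1)).2]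
  exact sym_one hπ h3

theorem V_conj {π a : Eis} (hπ : Prime π) (ha : a ≠ 0) : V (conj π) (conj a) = V π a := by
  obtain ⟨c, hc, hd⟩ := V_split hπ ha
  obtain ⟨k, hk⟩ : ∃ k, k = V π a := ⟨_, rfl⟩
  rw [← hk] at hc ⊢
  rw [hc, map_mul, map_pow]
  exact V_pow_mul (prime_conj hπ) k (fun h => hd (conj_dvd_iff.1 h))

theorem V_assoc {l m a : Eis} (h : Associated l m) : V l a = V m a :=
  multiplicity_eq_of_associated_left h.symm

theorem V_self_assoc {l m : Eis} (hl : Prime l) (h : Associated l m) : V l m = 1 := by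
  obtain ⟨u, hu⟩ := h
  rw [← hu]
  have := V_pow_mul hl 1 (not_dvd_of_isUnit hl u.isUnit)
  rwa [pow_one] at this

theorem V_ne {l m : Eis} (hl : Prime l) (hm : Prime m) (h : ¬ Associated l m) : V l m = 0 :=
  V_eq_zero fun h' => h (hl.associated_of_dvd hm h')

theorem V_prod {l : Eis} (hl : Prime l) {ι : Type} (s : Finset ι) (f : ι → Eis)
    (hf : ∀ i ∈ s, f i ≠ 0) : V l (∏ i ∈ s, f i) = ∑ i ∈ s, V l (f i) := by
  classical
  induction s using Finset.induction_on with
  | empty =>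
    rw [Finset.prod_empty, Finset.sum_empty]
    exact V_eq_zero (not_dvd_of_isUnit hl isUnit_one)
  | insert i s hi ih =>
    have h1 : ∀ j ∈ s, f j ≠ 0 := fun j hj => hf j (Finset.mem_insert_of_mem hj)
    rw [Finset.prod_insert hi, Finset.sum_insert hi,
      V_mul hl (hf i (Finset.mem_insert_self i s)) (Finset.prod_ne_zero_iff.2 h1), ih h1]

/-- A number all of whose valuations are divisible by `3` is a unit times a cube. -/
theorem cube_of_V : ∀ (n : ℕ) (z : Eis), z ≠ 0 → N z ≤ n → (∀ l, Prime l → 3 ∣ V l z) →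
    ∃ u g : Eis, IsUnit u ∧ g ≠ 0 ∧ z = u * g ^ 3 := by
  intro n
  induction n with
  | zero =>
    intro z hz hn
    have := N_pos hz
    omega
  | succ n ih =>
    intro z hz hn hV
    by_cases hu : IsUnit z
    · exact ⟨z, 1, hu, one_ne_zero, by ring⟩
    obtain ⟨l, hl', hlz⟩ := WfDvdMonoid.exists_irreducible_factor hu hz
    have hl : Prime l := hl'.prime
    have h1 : V l z ≠ 0 := fun h => (V_eq_zero_iff.1 h) hlz
    have h2 : 3 ≤ V l z := Nat.le_of_dvd (Nat.pos_of_ne_zero h1) (hV l hl)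
    obtain ⟨c, hc, -⟩ := V_split hl hz
    obtain ⟨z', hz'⟩ : ∃ z', z = l ^ 3 * z' := by
      have h3 : l ^ 3 ∣ z := by
        rw [hc]
        have h4 : V l (l ^ V l z * c) = V l z := by rw [← hc]
        exact (pow_dvd_pow l h2).trans (dvd_mul_right _ _)
      exact h3
    have hz'0 : z' ≠ 0 := by
      rintro rfl
      exact hz (by rw [hz', mul_zero])
    have hl3 : l ^ 3 ≠ 0 := pow_ne_zero _ hl.ne_zero
    have hN : N z' < N z := by
      rw [hz', N_mul]
      have h5 : 1 < N (l ^ 3) := by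
        have h6 := N_prime hl
        have h7 : N (l ^ 3) = N l * N l * N l := by
          rw [pow_succ, pow_succ, pow_one, N_mul, N_mul]
        rw [h7]
        nlinarith
      have h6 := N_pos hz'0
      nlinarith
    obtain ⟨u, g, hu', hg, h⟩ := ih z' hz'0 (by omega) fun m hm => by
      have h5 := hV m hm
      rw [hz', V_mul hm hl3 hz'0, V_pow hm hl.ne_zero] at h5
      exact (Nat.dvd_add_right (dvd_mul_right 3 _)).1 h5
    exact ⟨u, l * g, hu', mul_ne_zero hl.ne_zero hg, by rw [hz', h]; ring⟩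

/-- additive functions with values in `ZMod 3` -/
def Add3 (F : Eis → ZMod 3) : Prop := ∀ a b, a ≠ 0 → b ≠ 0 → F (a * b) = F a + F b

theorem Add3.one {F : Eis → ZMod 3} (hF : Add3 F) : F 1 = 0 := by
  have := hF 1 1 one_ne_zero one_ne_zero
  rw [mul_one] at this
  exact left_eq_add.1 this

theorem three_zero (a : ZMod 3) : 3 * a = 0 := by
  have : (3 : ZMod 3) = 0 := rfl
  rw [this, zero_mul]

theorem Add3.neg_one {F : Eis → ZMod 3} (hF : Add3 F) : F (-1) = 0 := by
  have h1 := hF (-1) (-1) (by simp) (by simp)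
  have h2 : (-1 : Eis) * (-1) = 1 := by ring
  rw [h2, hF.one] at h1
  have h3 := three_zero (F (-1))
  linear_combination h3 + h1

theorem Add3.pow {F : Eis → ZMod 3} (hF : Add3 F) {a : Eis} (ha : a ≠ 0) (k : ℕ) :
    F (a ^ k) = k * F a := by
  induction k with
  | zero => rw [pow_zero, hF.one]; simp
  | succ k ih =>
    rw [pow_succ, hF _ _ (pow_ne_zero _ ha) ha, ih]
    push_cast
    ring

theorem Add3.prod {F : Eis → ZMod 3} (hF : Add3 F) {ι : Type} (s : Finset ι) (f : ι → Eis)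
    (hf : ∀ i ∈ s, f i ≠ 0) : F (∏ i ∈ s, f i) = ∑ i ∈ s, F (f i) := by
  classical
  induction s using Finset.induction_on with
  | empty => rw [Finset.prod_empty, Finset.sum_empty, hF.one]
  | insert i s hi ih =>
    have h1 : ∀ j ∈ s, f j ≠ 0 := fun j hj => hf j (Finset.mem_insert_of_mem hj)
    rw [Finset.prod_insert hi, Finset.sum_insert hi,
      hF _ _ (hf i (Finset.mem_insert_self i s)) (Finset.prod_ne_zero_iff.2 h1), ih h1]

theorem w_ne : w ≠ 0 := isUnit_w.ne_zero

theorem Add3.unit {F : Eis → ZMod 3} (hF : Add3 F) {u : Eis} {a : ℕ}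
    (h : u = w ^ a ∨ u = -w ^ a) : F u = a * F w := by
  rcases h with rfl | rfl
  · exact hF.pow w_ne a
  · have h1 : -w ^ a = -1 * w ^ a := by ring
    rw [h1, hF _ _ (by simp) (pow_ne_zero _ w_ne), hF.neg_one, zero_add]
    exact hF.pow w_ne a

theorem add3_ch {π : Eis} (hπ : Prime π) (h3 : ¬ π ∣ 3) : Add3 (ch π) :=
  fun _ _ ha hb => ch_mul hπ h3 ha hb

theorem add3_tm (hSTM : STM) {π B : Eis} (hπ : Prime π) (h3 : ¬ π ∣ 3) (hB : B ≠ 0) :
    Add3 fun z => tm π z B :=
  fun _ _ ha hb => (hSTM π hπ h3).mul _ _ _ ha hb hB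

theorem add3_sl (hSSL : SSL) {B : Eis} (hB : B ≠ 0) : Add3 fun z => sl z B :=
  fun _ _ ha hb => hSSL.1 _ _ _ ha hb hB

theorem inert (hSPP : SPP) {s : ℕ} (hs : s.Prime) (hs2 : s % 3 = 2) :
    Prime (s : Eis) ∧ ¬ (s : Eis) ∣ 3 := by
  obtain ⟨π, hπ⟩ := hSPP.2.2.2.2.1 s hs hs2
  rw [← hπ]
  exact ⟨π.2.1, (hSPP.2.2.2.1 π).1⟩

theorem self_conj {l z t : Eis} (hl : Prime l) (h : Associated (conj l) l) (hz : z ≠ 0)
    (hzt : z * conj z = t ^ 3) : 3 ∣ V l z := by
  have hcz : conj z ≠ 0 := by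
    intro h0
    apply hz
    have := congrArg conj h0
    rwa [conj_conj, map_zero] at this
  have ht : t ≠ 0 := by
    rintro rfl
    rw [zero_pow (by norm_num)] at hzt
    exact (mul_ne_zero hz hcz) hzt
  have h1 : V l (conj z) = V l z := by
    rw [← V_assoc h]
    exact V_conj hl hz
  have h2 := congrArg (V l) hzt
  rw [V_mul hl hz hcz, V_pow hl ht, h1] at h2
  omega

theorem conj_lam : Associated (conj lam) lam := by
  have h1 : Prime (conj lam) := prime_conj prime_lam
  refine (dvd_three_iff h1).1 ?_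
  have h2 := conj_dvd lam_dvd_three
  have h3 : conj (3 : Eis) = 3 := conj_natCast 3
  rwa [h3] at h2

section

variable {n m k : ℕ} {π : Fin m → PP} {p e : Fin m → ℕ} {r f : Fin k → ℕ}

theorem norm_eq (h : NF n π p e r f) (i : Fin m) : (π i).1.norm = p i := by
  have h1 := h.pπ i
  rw [mul_conj] at h1
  have h2 := congrArg Eis.re h1
  simp only [natCast_re, intCast_re] at h2
  exact h2.symm

theorem not_assoc (h : NF n π p e r f) (i j : Fin m) : ¬ Associated (π i).1 (conj (π j).1) := by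
  intro h1
  have h2 : (π i).1.norm = (conj (π j).1).norm := by
    obtain ⟨u, hu⟩ := h1
    rw [← hu, norm_mul, isUnit_iff_norm.mp u.isUnit, mul_one]
  rw [norm_conj, norm_eq h, norm_eq h] at h2
  have h3 : i = j := h.pinj (by exact_mod_cast h2)
  subst h3
  have : Fact (p i).Prime := ⟨h.pp i⟩
  exact not_dvd_conj (h.p1 i) (norm_eq h i) h1.dvd

theorem assoc_iff (h : NF n π p e r f) (i j : Fin m) (h1 : Associated (π i).1 (π j).1) : i = j := by
  have h2 : (π i).1.norm = (π j).1.norm := by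
    obtain ⟨u, hu⟩ := h1
    rw [← hu, norm_mul, isUnit_iff_norm.mp u.isUnit, mul_one]
  rw [norm_eq h, norm_eq h] at h2
  exact h.pinj (by exact_mod_cast h2)

theorem V_self_i (h : NF n π p e r f) (i j : Fin m) : V (π i).1 (π j).1 = if j = i then 1 else 0 := by
  split_ifs with hij
  · rw [hij]; exact V_self
  · exact V_ne (π i).2.1 (π j).2.1 fun h1 => hij (assoc_iff h i j h1).symm

theorem V_conj_i (h : NF n π p e r f) (i j : Fin m) : V (π i).1 (conj (π j).1) = 0 :=
  V_ne (π i).2.1 (prime_conj (π j).2.1) (not_assoc h i j)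

theorem assoc_conj {l m : Eis} (h : Associated l m) : Associated (conj l) (conj m) := by
  obtain ⟨u, rfl⟩ := h
  rw [map_mul]
  exact ⟨(u.isUnit.map conj).unit, rfl⟩

theorem V_conj_self (h : NF n π p e r f) (i j : Fin m) : V (conj (π i).1) (π j).1 = 0 :=
  V_ne (prime_conj (π i).2.1) (π j).2.1 fun h1 => not_assoc h i j (by
    have := assoc_conj h1
    rwa [conj_conj] at this)

theorem V_conj_conj (h : NF n π p e r f) (i j : Fin m) :
    V (conj (π i).1) (conj (π j).1) = if j = i then 1 else 0 := by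
  rw [V_conj (π i).2.1 (π j).2.1.ne_zero]
  exact V_self_i h i j

/-- primes dividing `B` -/
theorem dvd_B (hSPP : SPP) (h : NF n π p e r f) {q : ℕ} (hq : q.Prime) (hq2 : q % 3 = 2) {l : Eis}
    (hl : Prime l) (hd : l ∣ (((n : ℤ) * q : ℤ) : Eis)) :
    (∃ i, Associated l (π i).1 ∨ Associated l (conj (π i).1)) ∨
      ∃ s : ℕ, s.Prime ∧ s % 3 = 2 ∧ Associated l (s : Eis) := by
  have h1 : (((n : ℤ) * q : ℤ) : Eis) = (n : Eis) * (q : Eis) := by push_cast; rfl
  rw [h1, h.eq] at hd
  push_cast at hd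
  rcases hl.dvd_or_dvd hd with hd | hd
  · rcases hl.dvd_or_dvd hd with hd | hd
    · obtain ⟨i, -, hi⟩ := hl.exists_mem_finset_dvd hd
      have h2 := hl.dvd_of_dvd_pow hi
      rw [h.pπ i] at h2
      left
      refine ⟨i, ?_⟩
      rcases hl.dvd_or_dvd h2 with h3 | h3
      · exact Or.inl (hl.associated_of_dvd (π i).2.1 h3)
      · exact Or.inr (hl.associated_of_dvd (prime_conj (π i).2.1) h3)
    · obtain ⟨j, -, hj⟩ := hl.exists_mem_finset_dvd hd
      have h2 := hl.dvd_of_dvd_pow hj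
      exact Or.inr ⟨r j, h.rp j, h.r2 j, hl.associated_of_dvd (inert hSPP (h.rp j) (h.r2 j)).1 h2⟩
  · exact Or.inr ⟨q, hq, hq2, hl.associated_of_dvd (inert hSPP hq hq2).1 hd⟩

/-- the correcting factor -/
noncomputable def fac (π : Fin m → PP) (z : Eis) : Eis :=
  ∏ i, ((π i).1 ^ (2 * V (π i).1 z) * conj (π i).1 ^ (2 * V (conj (π i).1) z))

theorem fac_ne (z : Eis) : fac π z ≠ 0 :=
  Finset.prod_ne_zero_iff.2 fun i _ => mul_ne_zero (pow_ne_zero _ (π i).2.1.ne_zero)
    (pow_ne_zero _ (prime_conj (π i).2.1).ne_zero)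

theorem V_fac {l : Eis} (hl : Prime l) (z : Eis) : V l (fac π z) =
    ∑ i, (2 * V (π i).1 z * V l (π i).1 + 2 * V (conj (π i).1) z * V l (conj (π i).1)) := by
  unfold fac
  rw [V_prod hl _ _ fun i _ => mul_ne_zero (pow_ne_zero _ (π i).2.1.ne_zero)
    (pow_ne_zero _ (prime_conj (π i).2.1).ne_zero)]
  refine Finset.sum_congr rfl fun i _ => ?_
  rw [V_mul hl (pow_ne_zero _ (π i).2.1.ne_zero) (pow_ne_zero _ (prime_conj (π i).2.1).ne_zero),
    V_pow hl (π i).2.1.ne_zero, V_pow hl (prime_conj (π i).2.1).ne_zero]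

theorem V_sum (hSPP : SPP) (h : NF n π p e r f) {q : ℕ} (hq : q.Prime) (hq2 : q % 3 = 2)
    {z t : Eis} (hz : z ≠ 0) (hzt : z * conj z = t ^ 3)
    (hun : ∀ π : PP, ¬ π.1 ∣ (((n : ℤ) * q : ℤ) : Eis) → 3 ∣ V π.1 z) {l : Eis} (hl : Prime l) :
    3 ∣ V l (z * fac π z) := by
  rw [V_mul hl hz (fac_ne z), V_fac hl]
  by_cases h1 : ∃ i, Associated l (π i).1
  · obtain ⟨j, hj⟩ := h1
    rw [V_assoc hj]
    have h2 : ∀ i, 2 * V (π i).1 z * V l (π i).1 + 2 * V (conj (π i).1) z * V l (conj (π i).1) =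
        if i = j then 2 * V (π j).1 z else 0 := by
      intro i
      rw [V_assoc hj, V_self_i h j i, V_assoc hj, V_conj_i h j i]
      split_ifs with hij
      · rw [hij]; ring
      · ring
    rw [Finset.sum_congr rfl fun i _ => h2 i, Finset.sum_ite_eq' Finset.univ j]
    simp only [Finset.mem_univ, if_true]
    omega
  by_cases h1' : ∃ i, Associated l (conj (π i).1)
  · obtain ⟨j, hj⟩ := h1'
    rw [V_assoc hj]
    have h2 : ∀ i, 2 * V (π i).1 z * V l (π i).1 + 2 * V (conj (π i).1) z * V l (conj (π i).1) =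
        if i = j then 2 * V (conj (π j).1) z else 0 := by
      intro i
      rw [V_assoc hj, V_conj_self h j i, V_assoc hj, V_conj_conj h j i]
      split_ifs with hij
      · rw [hij]; ring
      · ring
    rw [Finset.sum_congr rfl fun i _ => h2 i, Finset.sum_ite_eq' Finset.univ j]
    simp only [Finset.mem_univ, if_true]
    omega
  have h2 : ∀ i, 2 * V (π i).1 z * V l (π i).1 + 2 * V (conj (π i).1) z * V l (conj (π i).1) =
      0 := by
    intro i
    rw [V_ne hl (π i).2.1 fun h3 => h1 ⟨i, h3⟩,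
      V_ne hl (prime_conj (π i).2.1) fun h3 => h1' ⟨i, h3⟩]
    ring
  rw [Finset.sum_congr rfl fun i _ => h2 i, Finset.sum_const_zero, add_zero]
  by_cases h3 : l ∣ 3
  · have h4 := (dvd_three_iff hl).1 h3
    rw [V_assoc h4]
    exact self_conj prime_lam conj_lam hz hzt
  obtain ⟨l', hl'⟩ := hSPP.1 l hl h3
  by_cases h4 : l'.1 ∣ (((n : ℤ) * q : ℤ) : Eis)
  · rcases dvd_B hSPP h hq hq2 hl (hl'.dvd.trans h4) with ⟨i, h5 | h5⟩ | ⟨s, hs, hs2, h5⟩
    · exact absurd ⟨i, h5⟩ h1
    · exact absurd ⟨i, h5⟩ h1'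
    · rw [V_assoc h5]
      refine self_conj (inert hSPP hs hs2).1 ?_ hz hzt
      rw [conj_natCast]
  · rw [V_assoc hl']
    exact hun l' h4

end

section

variable {n m k : ℕ} {π : Fin m → PP} {p e : Fin m → ℕ} {r f : Fin k → ℕ}

theorem conj_ne {z : Eis} (hz : z ≠ 0) : conj z ≠ 0 := by
  intro h0
  apply hz
  have := congrArg conj h0
  rwa [conj_conj, map_zero] at this

theorem V_add_conj {l z t : Eis} (hl : Prime l) (hz : z ≠ 0) (hzt : z * conj z = t ^ 3) :
    3 ∣ V l z + V (conj l) z := by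
  have hcz := conj_ne hz
  have ht : t ≠ 0 := by
    rintro rfl
    rw [zero_pow (by norm_num)] at hzt
    exact (mul_ne_zero hz hcz) hzt
  have h1 : V l (conj z) = V (conj l) z := by
    have := V_conj (prime_conj hl) hz
    rwa [conj_conj] at this
  have h2 := congrArg (V l) hzt
  rw [V_mul hl hz hcz, V_pow hl ht, h1] at h2
  omega

theorem F_fac {F : Eis → ZMod 3} (hF : Add3 F) {z t : Eis} (hz : z ≠ 0)
    (hzt : z * conj z = t ^ 3) : F (fac π z) =
      -∑ i, (V (π i).1 z : ZMod 3) * (F (π i).1 - F (conj (π i).1)) := by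
  unfold fac
  rw [hF.prod _ _ fun i _ => mul_ne_zero (pow_ne_zero _ (π i).2.1.ne_zero)
    (pow_ne_zero _ (prime_conj (π i).2.1).ne_zero), ← Finset.sum_neg_distrib]
  refine Finset.sum_congr rfl fun i _ => ?_
  rw [hF _ _ (pow_ne_zero _ (π i).2.1.ne_zero) (pow_ne_zero _ (prime_conj (π i).2.1).ne_zero),
    hF.pow (π i).2.1.ne_zero, hF.pow (prime_conj (π i).2.1).ne_zero]
  have h1 := V_add_conj (π i).2.1 hz hzt
  have h2 : ((V (π i).1 z + V (conj (π i).1) z : ℕ) : ZMod 3) = 0 :=
    (ZMod.natCast_eq_zero_iff _ 3).2 h1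
  push_cast at h2 ⊢
  have h3 := three_zero ((V (π i).1 z : ZMod 3) * F (π i).1)
  have h4 := three_zero ((V (π i).1 z : ZMod 3) * F (conj (π i).1))
  linear_combination h3 + 2 * F (conj (π i).1) * h2 - h4

/-- the value of additive functions at `z`; `z` is a cube if all coordinates vanish -/
theorem decomp (hSPP : SPP) (h : NF n π p e r f) {q : ℕ} (hq : q.Prime) (hq2 : q % 3 = 2)
    {z t : Eis} (hz : z ≠ 0) (hzt : z * conj z = t ^ 3)
    (hun : ∀ π : PP, ¬ π.1 ∣ (((n : ℤ) * q : ℤ) : Eis) → 3 ∣ V π.1 z) :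
    ∃ a : ℕ, (∀ F : Eis → ZMod 3, Add3 F → F z =
      a * F w + ∑ i, (V (π i).1 z : ZMod 3) * (F (π i).1 - F (conj (π i).1))) ∧
      ((a : ZMod 3) = 0 → (∀ i, (V (π i).1 z : ZMod 3) = 0) → ∃ γ, z = γ ^ 3) := by
  obtain ⟨u, g, hu, hg, hug⟩ := cube_of_V _ (z * fac π z) (mul_ne_zero hz (fac_ne z)) le_rfl
    fun l hl => V_sum hSPP h hq hq2 hz hzt hun hl
  obtain ⟨a, -, ha⟩ := unit_cases hu
  refine ⟨a, fun F hF => ?_, fun ha0 hv => ?_⟩
  · have h1 := congrArg F hug
    rw [hF _ _ hz (fac_ne z), hF _ _ hu.ne_zero (pow_ne_zero _ hg), hF.pow hg, hF.unit ha,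
      F_fac hF hz hzt] at h1
    have h2 := three_zero (F g)
    push_cast at h1
    linear_combination h1 + h2
  · have h1 : ∀ i, 3 ∣ V (π i).1 z := fun i => (ZMod.natCast_eq_zero_iff _ 3).1 (hv i)
    have h2 : ∀ i, 3 ∣ V (conj (π i).1) z := fun i =>
      (Nat.dvd_add_right (h1 i)).1 (V_add_conj (π i).2.1 hz hzt)
    have h3 : 3 ∣ a := (ZMod.natCast_eq_zero_iff _ 3).1 ha0
    obtain ⟨b, rfl⟩ := h3
    have hw : w ^ (3 * b) = 1 := by rw [pow_mul, w_cube, one_pow]
    rw [hw] at ha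
    obtain ⟨u', hu'⟩ : ∃ u' : Eis, u = u' ^ 3 := by
      rcases ha with rfl | rfl
      · exact ⟨1, by ring⟩
      · exact ⟨-1, by ring⟩
    obtain ⟨d, hd0, hd⟩ : ∃ d : Eis, d ≠ 0 ∧ fac π z = d ^ 3 := by
      refine ⟨∏ i, ((π i).1 ^ (2 * (V (π i).1 z / 3)) *
        conj (π i).1 ^ (2 * (V (conj (π i).1) z / 3))), ?_, ?_⟩
      · exact Finset.prod_ne_zero_iff.2 fun i _ => mul_ne_zero (pow_ne_zero _ (π i).2.1.ne_zero)
          (pow_ne_zero _ (prime_conj (π i).2.1).ne_zero)
      · unfold fac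
        rw [← Finset.prod_pow]
        refine Finset.prod_congr rfl fun i _ => ?_
        rw [mul_pow, ← pow_mul, ← pow_mul]
        congr 2
        · have := h1 i
          omega
        · have := h2 i
          omega
    rw [hd, hu'] at hug
    have h4 : d ^ 3 ∣ (u' * g) ^ 3 := ⟨z, by rw [mul_pow, ← hug]; ring⟩
    obtain ⟨c, hc⟩ := (IsIntegrallyClosed.pow_dvd_pow_iff (by norm_num : (3 : ℕ) ≠ 0)).1 h4
    refine ⟨c, ?_⟩
    have h5 : z * d ^ 3 = c ^ 3 * d ^ 3 := by
      rw [hug, ← mul_pow, hc]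
      ring
    exact mul_right_cancel₀ (pow_ne_zero _ hd0) h5

end

section

variable {n m k : ℕ} {π : Fin m → PP} {p e : Fin m → ℕ} {r f : Fin k → ℕ}

theorem norm_assoc {l l' : Eis} (h : Associated l l') : l.norm = l'.norm := by
  obtain ⟨u, hu⟩ := h
  rw [← hu, norm_mul, isUnit_iff_norm.mp u.isUnit, mul_one]

theorem not_sq {p s : ℕ} (hp : p.Prime) : (p : ℤ) ≠ (s : ℤ) ^ 2 := by
  intro h
  have h1 : p = s ^ 2 := by exact_mod_cast h
  rw [h1] at hp
  exact Nat.Prime.not_prime_pow le_rfl hp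

theorem not_assoc_nat (h : NF n π p e r f) (i : Fin m) (s : ℕ) :
    ¬ Associated (π i).1 (s : Eis) := by
  intro h1
  have h2 := norm_assoc h1
  rw [norm_eq h, norm_natCast] at h2
  exact not_sq (h.pp i) h2

theorem not_assoc_nat' (h : NF n π p e r f) (i : Fin m) (s : ℕ) :
    ¬ Associated (conj (π i).1) (s : Eis) := by
  intro h1
  have h2 := norm_assoc h1
  rw [norm_conj, norm_eq h, norm_natCast] at h2
  exact not_sq (h.pp i) h2

theorem V_nat_nat {s s' : ℕ} (hs : Prime (s : Eis)) (hs' : Prime (s' : Eis)) :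
    V (s : Eis) (s' : Eis) = if s' = s then 1 else 0 := by
  split_ifs with h
  · rw [h]; exact V_self
  · refine V_ne hs hs' fun h1 => h ?_
    have h2 := norm_assoc h1
    rw [norm_natCast, norm_natCast] at h2
    have h3 : s ^ 2 = s' ^ 2 := by exact_mod_cast h2
    exact (Nat.pow_left_injective (by norm_num : (2 : ℕ) ≠ 0) h3).symm

theorem V_n (hSPP : SPP) (h : NF n π p e r f) {l : Eis} (hl : Prime l) : V l (n : Eis) =
    ∑ i, e i * (V l (π i).1 + V l (conj (π i).1)) + ∑ j, f j * V l (r j : Eis) := by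
  have hr : ∀ j, (r j : Eis) ≠ 0 := fun j => (inert hSPP (h.rp j) (h.r2 j)).1.ne_zero
  have hp : ∀ i, (p i : Eis) ≠ 0 := fun i => by
    rw [h.pπ i]
    exact mul_ne_zero (π i).2.1.ne_zero (prime_conj (π i).2.1).ne_zero
  conv_lhs => rw [h.eq]
  push_cast
  rw [V_mul hl (Finset.prod_ne_zero_iff.2 fun i _ => pow_ne_zero _ (hp i))
    (Finset.prod_ne_zero_iff.2 fun j _ => pow_ne_zero _ (hr j)),
    V_prod hl _ _ fun i _ => pow_ne_zero _ (hp i), V_prod hl _ _ fun j _ => pow_ne_zero _ (hr j)]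
  congr 1
  · refine Finset.sum_congr rfl fun i _ => ?_
    rw [V_pow hl (hp i), h.pπ i, V_mul hl (π i).2.1.ne_zero (prime_conj (π i).2.1).ne_zero]
  · refine Finset.sum_congr rfl fun j _ => ?_
    rw [V_pow hl (hr j)]

theorem V_n_i (hSPP : SPP) (h : NF n π p e r f) (i : Fin m) : V (π i).1 (n : Eis) = e i := by
  rw [V_n hSPP h (π i).2.1]
  have h1 : ∀ i', e i' * (V (π i).1 (π i').1 + V (π i).1 (conj (π i').1)) =
      if i' = i then e i else 0 := by
    intro i'
    rw [V_self_i h, V_conj_i h]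
    split_ifs with h2
    · rw [h2]; ring
    · ring
  have h2 : ∀ j, f j * V (π i).1 (r j : Eis) = 0 := by
    intro j
    rw [V_ne (π i).2.1 (inert hSPP (h.rp j) (h.r2 j)).1 (not_assoc_nat h i _), mul_zero]
  rw [Finset.sum_congr rfl fun i' _ => h1 i', Finset.sum_congr rfl fun j _ => h2 j,
    Finset.sum_ite_eq' Finset.univ i]
  simp

theorem V_n_j (hSPP : SPP) (h : NF n π p e r f) (j : Fin k) : V (r j : Eis) (n : Eis) = f j := by
  have hj := (inert hSPP (h.rp j) (h.r2 j)).1
  rw [V_n hSPP h hj]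
  have h1 : ∀ i', e i' * (V (r j : Eis) (π i').1 + V (r j : Eis) (conj (π i').1)) = 0 := by
    intro i'
    rw [V_ne hj (π i').2.1 fun h2 => not_assoc_nat h i' _ h2.symm,
      V_ne hj (prime_conj (π i').2.1) fun h2 => not_assoc_nat' h i' _ h2.symm]
    ring
  have h2 : ∀ j', f j' * V (r j : Eis) (r j' : Eis) = if j' = j then f j else 0 := by
    intro j'
    rw [V_nat_nat hj (inert hSPP (h.rp j') (h.r2 j')).1]
    by_cases h3 : j' = j
    · rw [h3]; simp
    · rw [if_neg h3, if_neg fun h4 => h3 (h.rinj h4), mul_zero]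
  rw [Finset.sum_congr rfl fun i' _ => h1 i', Finset.sum_congr rfl fun j _ => h2 j,
    Finset.sum_ite_eq' Finset.univ j]
  simp

theorem n_ne (h : NF n π p e r f) : n ≠ 0 := by
  rw [h.eq]
  exact mul_ne_zero (Finset.prod_ne_zero_iff.2 fun i _ => pow_ne_zero _ (h.pp i).ne_zero)
    (Finset.prod_ne_zero_iff.2 fun j _ => pow_ne_zero _ (h.rp j).ne_zero)

theorem three_n (h : NF n π p e r f) : ¬ 3 ∣ n := by
  intro h3
  rw [h.eq] at h3
  rcases (Nat.prime_three.dvd_mul).1 h3 with h3 | h3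
  · obtain ⟨i, -, hi⟩ := Nat.prime_three.prime.exists_mem_finset_dvd h3
    have h4 := Nat.prime_three.dvd_of_dvd_pow hi
    have h5 := h.p1 i
    omega
  · obtain ⟨j, -, hj⟩ := Nat.prime_three.prime.exists_mem_finset_dvd h3
    have h4 := Nat.prime_three.dvd_of_dvd_pow hj
    have h5 := h.r2 j
    omega

end

end EHYP

open EHYP in
theorem EHYP_thm (hSTM : STM) (hSPP : SPP) (hSSL : SSL) (hSREC : SREC) (_hSCJ : SCJ) : EHYP := by
  intro n m k π p e r f w0 c j0 q h hq hcl hqn hnone hdet z t hz hzt htm hun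
  have hn := n_ne h
  obtain ⟨hq2, hq9, hqs⟩ := hcl
  have hqI := inert hSPP hq hq2
  obtain ⟨B, hB⟩ : ∃ B : Eis, B = (((n : ℤ) * q : ℤ) : Eis) := ⟨_, rfl⟩
  have hB2 : B = (n : Eis) * (q : Eis) := by rw [hB]; push_cast; rfl
  have hn0 : (n : Eis) ≠ 0 := by
    intro h0
    have := congrArg Eis.re h0
    simp only [natCast_re, zero_re] at this
    exact hn (by exact_mod_cast this)
  have hB0 : B ≠ 0 := by rw [hB2]; exact mul_ne_zero hn0 hqI.1.ne_zero
  obtain ⟨a, hF, hcube⟩ := decomp hSPP h hq hq2 hz hzt hun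
  rw [← hB] at htm
  have h3 : ∀ i, ¬ (π i).1 ∣ 3 := fun i => (hSPP.2.2.2.1 (π i)).1
  have hvec : (Mm n π e r j0 c).mulVec
      (Fin.cons (a : ZMod 3) fun i => (V (π i).1 z : ZMod 3)) = 0 := by
    funext b
    refine Fin.cases ?_ (fun i => ?_) b
    · cases j0 with
      | none =>
        have h1 : (Mm n π e r none c).mulVec
            (Fin.cons (a : ZMod 3) fun i => (V (π i).1 z : ZMod 3)) 0 = a := by
          simp [Matrix.mulVec, dotProduct, Mm, Fin.sum_univ_succ]
        rw [h1]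
        have hsl : sl z B = 0 := by
          unfold sl
          rw [finsum_eq_zero_of_forall_eq_zero fun π => htm π, neg_zero]
        have h2 := hF _ (add3_sl hSSL hB0)
        have hPB : Prim B := by
          rw [hB]
          refine ⟨by simp, ?_⟩
          simp only [intCast_re]
          intro h4
          rcases Int.prime_three.dvd_or_dvd h4 with h5 | h5
          · exact three_n h (by exact_mod_cast h5)
          · have h6 : 3 ∣ q := by exact_mod_cast h5
            omega
        have hPi : ∀ i, Prim (π i).1 := fun i => ⟨(π i).2.2.2, by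
          have := (π i).2.2.1
          omega⟩
        have h4 : ∀ i, sl (π i).1 B = 0 := fun i => hSREC.1 _ _ (hPi i) hPB
        have h5 : ∀ i, sl (conj (π i).1) B = 0 := fun i => hSREC.1 _ _ (hPi i).conj hPB
        simp only [h4, h5, sub_zero, mul_zero, Finset.sum_const_zero, add_zero] at h2
        rw [hsl, hSSL.2.1 B w hB0 w_ne, hSREC.2.1 B hPB] at h2
        have h6 : wt B.norm = wt ((n : ℤ) ^ 2) + w0 := by
          rw [← hq9, ← wt_mul]
          · rw [hB, norm_intCast, mul_pow]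
          · exact sq_mod_three fun h7 => three_n h (by exact_mod_cast h7)
          · refine sq_mod_three fun h7 => ?_
            have h8 : 3 ∣ q := by exact_mod_cast h7
            omega
        have h7 := hnone rfl
        rw [← h6] at h7
        have h8 : (a : ZMod 3) * wt B.norm = 0 := by linear_combination h2
        have : Fact (Nat.Prime 3) := ⟨Nat.prime_three⟩
        exact (mul_eq_zero.1 h8).resolve_right h7
      | some j =>
        have hj := inert hSPP (h.rp j) (h.r2 j)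
        have h1 : (Mm n π e r (some j) c).mulVec
            (Fin.cons (a : ZMod 3) fun i => (V (π i).1 z : ZMod 3)) 0 = sym (r j : Eis) w * a +
            ∑ i, (sym (r j : Eis) (π i).1 - sym (r j : Eis) (conj (π i).1)) *
              (V (π i).1 z : ZMod 3) := by
          simp [Matrix.mulVec, dotProduct, Mm, Fin.sum_univ_succ]
        rw [h1]
        have h2 := hF _ (add3_ch hj.1 hj.2)
        have h4 : ∀ i, ch (r j : Eis) (π i).1 = sym (r j : Eis) (π i).1 := fun i =>
          ch_of_not_dvd hj.1 fun h5 => not_assoc_nat h i _ (hj.1.associated_of_dvd (π i).2.1 h5).symm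
        have h5 : ∀ i, ch (r j : Eis) (conj (π i).1) = sym (r j : Eis) (conj (π i).1) := fun i =>
          ch_of_not_dvd hj.1 fun h5 =>
            not_assoc_nat' h i _ (hj.1.associated_of_dvd (prime_conj (π i).2.1) h5).symm
        have h6 : ch (r j : Eis) w = sym (r j : Eis) w :=
          ch_of_not_dvd hj.1 (not_dvd_of_isUnit hj.1 isUnit_w)
        simp only [h4, h5, h6] at h2
        have h7 : ch (r j : Eis) z = 0 := by
          obtain ⟨ρ, hρ⟩ := hSPP.2.2.2.2.1 (r j) (h.rp j) (h.r2 j)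
          have h8 := htm ρ
          rw [hρ] at h8
          unfold tm at h8
          have h9 : 3 ∣ V (r j : Eis) z := self_conj hj.1 (by rw [conj_natCast]) hz hzt
          rw [(ZMod.natCast_eq_zero_iff _ 3).2 h9, zero_mul, sub_zero] at h8
          have hqr : V (r j : Eis) (q : Eis) = 0 := by
            rw [V_nat_nat hj.1 hqI.1, if_neg]
            intro h10
            apply hqn
            rw [h10, h.eq]
            refine Dvd.dvd.mul_left ?_ _
            have h11 : r j ^ f j ∣ ∏ j, r j ^ f j := Finset.dvd_prod_of_mem _ (Finset.mem_univ j)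
            refine (dvd_pow_self _ ?_).trans h11
            have := h.rf j
            omega
          have hVB : V (r j : Eis) B = f j := by
            rw [hB2, V_mul hj.1 hn0 hqI.1.ne_zero, V_n_j hSPP h, hqr, add_zero]
          rw [hVB] at h8
          have hf : (f j : ZMod 3) ≠ 0 := by
            rcases h.rf j with h10 | h10 <;> rw [h10] <;> decide
          have : Fact (Nat.Prime 3) := ⟨Nat.prime_three⟩
          exact (mul_eq_zero.1 h8).resolve_left hf
        rw [h7] at h2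
        rw [Pi.zero_apply, h2]
        rw [mul_comm (sym (r j : Eis) w)]
        congr 1
        exact Finset.sum_congr rfl fun i _ => mul_comm _ _
    · have h1 : (Mm n π e r j0 c).mulVec
          (Fin.cons (a : ZMod 3) fun i => (V (π i).1 z : ZMod 3)) i.succ =
          (e i : ZMod 3) * sym (π i).1 w * a + ∑ i', (if i' = i then
            - (e i : ZMod 3) * sym (π i).1 (conj (π i).1) - ch (π i).1 (n : Eis) - c i
            else (e i : ZMod 3) * (sym (π i).1 (π i').1 - sym (π i).1 (conj (π i').1))) *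
              (V (π i').1 z : ZMod 3) := by
        simp [Matrix.mulVec, dotProduct, Mm, Fin.sum_univ_succ]
      rw [h1]
      have hi := (π i).2.1
      have hqi : ¬ (π i).1 ∣ (q : Eis) := fun h5 =>
        not_assoc_nat h i q (hi.associated_of_dvd hqI.1 h5)
      have hVB : V (π i).1 B = e i := by
        rw [hB2, V_mul hi hn0 hqI.1.ne_zero, V_n_i hSPP h, V_eq_zero hqi, add_zero]
      have hcB : ch (π i).1 B = ch (π i).1 (n : Eis) + c i := by
        rw [hB2, ch_mul hi (h3 i) hn0 hqI.1.ne_zero, ch_of_not_dvd hi hqi, hqs i]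
      have h2 := hF _ (add3_tm hSTM hi (h3 i) hB0)
      simp only [htm (π i)] at h2
      have hw : tm (π i).1 w B = (e i : ZMod 3) * sym (π i).1 w := by
        unfold tm
        rw [hVB, V_eq_zero (not_dvd_of_isUnit hi isUnit_w),
          ch_of_not_dvd hi (not_dvd_of_isUnit hi isUnit_w)]
        simp
      have hd : ∀ i', tm (π i).1 (π i').1 B - tm (π i).1 (conj (π i').1) B = if i' = i then
            - (e i : ZMod 3) * sym (π i).1 (conj (π i).1) - ch (π i).1 (n : Eis) - c i
            else (e i : ZMod 3) * (sym (π i).1 (π i').1 - sym (π i).1 (conj (π i').1)) := by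
        intro i'
        unfold tm
        have hcj : ¬ (π i).1 ∣ conj (π i').1 := fun h5 =>
          not_assoc h i i' (hi.associated_of_dvd (prime_conj (π i').2.1) h5)
        rw [V_self_i h, V_conj_i h, hVB, hcB, ch_of_not_dvd hi hcj]
        split_ifs with hii
        · subst hii
          rw [ch_self hi (h3 i')]
          push_cast
          ring
        · have hci : ¬ (π i).1 ∣ (π i').1 := fun h5 =>
            hii (assoc_iff h i i' (hi.associated_of_dvd (π i').2.1 h5)).symm
          rw [ch_of_not_dvd hi hci]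
          push_cast
          ring
      rw [hw] at h2
      simp only [hd] at h2
      rw [Pi.zero_apply, h2, mul_comm (a : ZMod 3)]
      congr 1
      exact Finset.sum_congr rfl fun i _ => mul_comm _ _
  have hx := Matrix.eq_zero_of_mulVec_eq_zero hdet hvec
  refine hcube ?_ fun i => ?_
  · have := congrFun hx 0
    simpa using this
  · have := congrFun hx i.succ
    simpa using this

end Pool.Agent.PT
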