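import Pool.Agent.PT.Stmts2

/-!
# EMAT: the class can be chosen such that both matrices are invertible
-/

namespace Pool.Agent.PT

open Pool.Agent.Lib_helper18 Pool.Agent.Lib_helper18.Eis Pool.Agent.Lib_helper84.Cub

namespace EMAT

theorem Mm_eq (n : ℕ) {m k : ℕ} (π : Fin m → PP) (e : Fin m → ℕ) (r : Fin k → ℕ)
    (j0 : Option (Fin k)) (c : Fin m → ZMod 3) :
    Mm n π e r j0 c = Mm n π e r j0 0 -
      Matrix.diagonal (Fin.cons 0 c : Fin (m + 1) → ZMod 3) := by
  ext a b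
  rw [Matrix.sub_apply]
  refine Fin.cases ?_ (fun i => ?_) a
  · have h : (Matrix.diagonal (Fin.cons 0 c : Fin (m + 1) → ZMod 3)) 0 b = 0 := by
      by_cases hb : (0 : Fin (m + 1)) = b
      · rw [← hb, Matrix.diagonal_apply_eq, Fin.cons_zero]
      · rw [Matrix.diagonal_apply_ne _ hb]
    rw [h, sub_zero]
    rfl
  · refine Fin.cases ?_ (fun i' => ?_) b
    · rw [Matrix.diagonal_apply_ne _ (Fin.succ_ne_zero i), sub_zero]
      rfl
    · by_cases h : i' = i
      · subst h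
        rw [Matrix.diagonal_apply_eq, Fin.cons_succ]
        simp [Mm]
      · have h' : i.succ ≠ i'.succ := fun h1 => h (Fin.succ_injective _ h1).symm
        rw [Matrix.diagonal_apply_ne _ h', sub_zero]
        simp [Mm, h]

theorem Mp_eq (n : ℕ) {m k : ℕ} (π : Fin m → PP) (p e : Fin m → ℕ) (r : Fin k → ℕ)
    (j0 : Option (Fin k)) (c : Fin m → ZMod 3) :
    Mp n π p e r j0 c = Mp n π p e r j0 0 -
      Matrix.diagonal (Fin.cons 0 c : Fin (m + 1) → ZMod 3) := by
  ext a b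
  rw [Matrix.sub_apply]
  refine Fin.cases ?_ (fun i => ?_) a
  · have h : (Matrix.diagonal (Fin.cons 0 c : Fin (m + 1) → ZMod 3)) 0 b = 0 := by
      by_cases hb : (0 : Fin (m + 1)) = b
      · rw [← hb, Matrix.diagonal_apply_eq, Fin.cons_zero]
      · rw [Matrix.diagonal_apply_ne _ hb]
    rw [h, sub_zero]
    rfl
  · refine Fin.cases ?_ (fun i' => ?_) b
    · rw [Matrix.diagonal_apply_ne _ (Fin.succ_ne_zero i), sub_zero]
      rfl
    · by_cases h : i' = i
      · subst h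
        rw [Matrix.diagonal_apply_eq, Fin.cons_succ]
        simp [Mp]
      · have h' : i.succ ≠ i'.succ := fun h1 => h (Fin.succ_injective _ h1).symm
        rw [Matrix.diagonal_apply_ne _ h', sub_zero]
        simp [Mp, h]

end EMAT

open EMAT in
theorem EMAT_thm (hEDET : EDET) : EMAT := by
  intro n m k π p e r f j0 hNF hj
  have h0 : Mm n π e r j0 0 0 0 ≠ 0 ∧ Mp n π p e r j0 0 0 0 ≠ 0 := by
    cases j0 with
    | none => exact ⟨one_ne_zero, one_ne_zero⟩
    | some j =>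
      have h1 : Mm n π e r (some j) 0 0 0 = sym (r j : Eis) w := rfl
      have h2 : Mp n π p e r (some j) 0 0 0 = wt ((r j : ℤ) ^ 2) := rfl
      rw [h1, h2]
      refine ⟨?_, hj j rfl⟩
      rw [sym_w' (prime_inert (hNF.rp j) (hNF.r2 j)) (n3 (hNF.rp j) (hNF.r2 j)), norm_natCast]
      exact hj j rfl
  obtain ⟨d, h1, h2⟩ := hEDET m _ _ h0.1 h0.2
  refine ⟨d, ?_, ?_⟩
  · rw [Mm_eq]
    exact h1
  · rw [Mp_eq]
    exact h2

end Pool.Agent.PT
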