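import Pool.Agent.PT.Stmts2

/-!
# ENF: existence of the normal form
-/

namespace Pool.Agent.PT

open Pool.Agent.Lib_helper18 Pool.Agent.Lib_helper18.Eis Pool.Agent.Lib_helper84.Cub

namespace ENF

/-- A prime of `Z[w]` above a split prime. -/
theorem exists_pi (hSPP : SPP) {p : ℕ} (hp : p.Prime) (h1 : p % 3 = 1) :
    ∃ π : PP, (p : Eis) = π.1 * conj π.1 := by
  obtain ⟨S1, -, -, -, -, S6⟩ := hSPP
  have hp0 : (p : Eis) ≠ 0 := by
    intro h
    have := congrArg Eis.re h
    rw [natCast_re, zero_re] at this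
    exact hp.ne_zero (by exact_mod_cast this)
  have hpu : ¬ IsUnit (p : Eis) := by
    rw [isUnit_iff_norm, norm_natCast]
    have h2 : (2 : ℤ) ≤ p := by exact_mod_cast hp.two_le
    nlinarith
  obtain ⟨l, hl, hlp⟩ := WfDvdMonoid.exists_irreducible_factor hpu hp0
  have hl' : Prime l := hl.prime
  have h3 : ¬ l ∣ 3 := by
    intro h3
    have hcop : IsCoprime (p : ℤ) 3 := by
      rw [Int.isCoprime_iff_gcd_eq_one]
      have h4 : Nat.Coprime p 3 := by
        rw [Nat.Prime.coprime_iff_not_dvd hp]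
        intro h5
        have := (Nat.prime_dvd_prime_iff_eq hp Nat.prime_three).1 h5
        subst this
        omega
      exact_mod_cast h4
    obtain ⟨a, b, hab⟩ := hcop
    apply hl'.not_unit
    rw [isUnit_iff_dvd_one]
    have h6 : (1 : Eis) = (a : Eis) * (p : Eis) + (b : Eis) * 3 := by
      have h7 : ((a * p + b * 3 : ℤ) : Eis) = ((1 : ℤ) : Eis) := by rw [hab]
      push_cast at h7
      exact h7.symm
    rw [h6]
    exact dvd_add (hlp.mul_left _) (h3.mul_left _)
  obtain ⟨π, hπ⟩ := S1 l hl' h3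
  have hπp : π.1 ∣ (p : Eis) := hπ.dvd_iff_dvd_left.1 hlp
  obtain ⟨q, hq, h | h⟩ := S6 π
  · exfalso
    rw [h.2] at hπp
    obtain ⟨c, hc⟩ := hπp
    have h4 := congrArg Eis.norm hc
    rw [norm_natCast, norm_mul, norm_natCast] at h4
    have h5 : q ∣ p ^ 2 := by
      have h6 : (q : ℤ) ∣ (p : ℤ) ^ 2 := by
        rw [h4]
        exact (dvd_pow_self _ two_ne_zero).mul_right _
      exact_mod_cast h6
    have h7 := (Nat.prime_dvd_prime_iff_eq hq hp).1 (hq.dvd_of_dvd_pow h5)
    omega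
  · have h4 : q = p := by
      obtain ⟨c, hc⟩ := hπp
      have h4 := congrArg Eis.norm hc
      rw [norm_natCast, norm_mul, h.2.1] at h4
      have h5 : q ∣ p ^ 2 := by
        have h6 : (q : ℤ) ∣ (p : ℤ) ^ 2 := by
          rw [h4]
          exact dvd_mul_right _ _
        exact_mod_cast h6
      exact (Nat.prime_dvd_prime_iff_eq hq hp).1 (hq.dvd_of_dvd_pow h5)
    refine ⟨π, ?_⟩
    rw [← h4]
    exact h.2.2.1

theorem mem_pf {N l : ℕ} (hl : l.Prime) (h : ¬ 3 ∣ N.factorization l) : l ∈ N.primeFactors := by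
  rw [← Nat.support_factorization, Finsupp.mem_support_iff]
  intro h0
  rw [h0] at h
  exact h (dvd_zero 3)

theorem fin_set (N a : ℕ) :
    Finite {p : ℕ // p.Prime ∧ p % 3 = a ∧ ¬ 3 ∣ N.factorization p} := by
  apply Set.Finite.to_subtype (s := {p : ℕ | p.Prime ∧ p % 3 = a ∧ ¬ 3 ∣ N.factorization p})
  exact (N.primeFactors.finite_toSet).subset fun p hp => mem_pf hp.1 hp.2.2

theorem prod_fin (N a : ℕ) (g : ℕ → ℕ)
    (e : {p : ℕ // p.Prime ∧ p % 3 = a ∧ ¬ 3 ∣ N.factorization p} ≃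
      Fin (Nat.card {p : ℕ // p.Prime ∧ p % 3 = a ∧ ¬ 3 ∣ N.factorization p})) :
    ∏ i, g (e.symm i).1 =
      ∏ l ∈ N.primeFactors, if l % 3 = a ∧ ¬ 3 ∣ N.factorization l then g l else 1 := by
  classical
  have := fin_set N a
  let _ : Fintype {p : ℕ // p.Prime ∧ p % 3 = a ∧ ¬ 3 ∣ N.factorization p} := Fintype.ofFinite _
  rw [e.symm.prod_comp (fun s => g s.1), ← Finset.prod_filter,
    Finset.prod_subtype (N.primeFactors.filter fun l => l % 3 = a ∧ ¬ 3 ∣ N.factorization l)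
      (p := fun p => p.Prime ∧ p % 3 = a ∧ ¬ 3 ∣ N.factorization p)]
  intro l
  rw [Finset.mem_filter]
  constructor
  · intro h
    exact ⟨Nat.prime_of_mem_primeFactors h.1, h.2⟩
  · intro h
    exact ⟨mem_pf h.1 h.2.2, h.2⟩

end ENF

open ENF

/-- ENF. -/
theorem ENF_thm (hSPP : SPP) : ENF := by
  classical
  intro N hN h3
  have f1 := fin_set N 1
  have f2 := fin_set N 2
  obtain ⟨e1⟩ : Nonempty ({p : ℕ // p.Prime ∧ p % 3 = 1 ∧ ¬ 3 ∣ N.factorization p} ≃
      Fin (Nat.card {p : ℕ // p.Prime ∧ p % 3 = 1 ∧ ¬ 3 ∣ N.factorization p})) :=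
    ⟨Finite.equivFin _⟩
  obtain ⟨e2⟩ : Nonempty ({p : ℕ // p.Prime ∧ p % 3 = 2 ∧ ¬ 3 ∣ N.factorization p} ≃
      Fin (Nat.card {p : ℕ // p.Prime ∧ p % 3 = 2 ∧ ¬ 3 ∣ N.factorization p})) :=
    ⟨Finite.equivFin _⟩
  choose π hπ using fun i => exists_pi hSPP (e1.symm i).2.1 (e1.symm i).2.2.1
  have hmod : ∀ l, ¬ 3 ∣ N.factorization l →
      N.factorization l % 3 = 1 ∨ N.factorization l % 3 = 2 := by
    intro l hl
    omega
  refine ⟨∏ l ∈ N.primeFactors, l ^ (N.factorization l % 3),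
    ∏ l ∈ N.primeFactors, l ^ (N.factorization l / 3), π, fun i => (e1.symm i).1,
    fun i => N.factorization (e1.symm i).1 % 3, fun j => (e2.symm j).1,
    fun j => N.factorization (e2.symm j).1 % 3, ?_, ?_, ?_, ?_, ?_⟩
  · exact Finset.prod_pos fun l hl => pow_pos (Nat.prime_of_mem_primeFactors hl).pos _
  · exact Finset.prod_pos fun l hl => pow_pos (Nat.prime_of_mem_primeFactors hl).pos _
  · rw [← Finset.prod_pow, ← Finset.prod_mul_distrib]
    conv_lhs => rw [← Nat.prod_factorization_pow_eq_self hN.ne']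
    rw [Nat.prod_factorization_eq_prod_primeFactors]
    refine Finset.prod_congr rfl fun l _ => ?_
    rw [← pow_mul, ← pow_add]
    congr 1
    omega
  · refine ⟨fun i => (e1.symm i).2.1, fun i => (e1.symm i).2.2.1, hπ,
      fun i => hmod _ (e1.symm i).2.2.2, ?_, fun j => (e2.symm j).2.1,
      fun j => (e2.symm j).2.2.1, fun j => hmod _ (e2.symm j).2.2.2, ?_, ?_⟩
    · intro i i' h
      exact e1.symm.injective (Subtype.ext h)
    · intro i i' h
      exact e2.symm.injective (Subtype.ext h)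
    · rw [prod_fin N 1 (fun l => l ^ (N.factorization l % 3)) e1,
        prod_fin N 2 (fun l => l ^ (N.factorization l % 3)) e2, ← Finset.prod_mul_distrib]
      refine Finset.prod_congr rfl fun l hl => ?_
      have hlp := Nat.prime_of_mem_primeFactors hl
      have hl3 : l % 3 ≠ 0 := by
        intro h0
        have h4 := (Nat.prime_dvd_prime_iff_eq Nat.prime_three hlp).1 (Nat.dvd_of_mod_eq_zero h0)
        apply h3
        rw [h4]
        exact Nat.dvd_of_mem_primeFactors hl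
      by_cases hv : 3 ∣ N.factorization l
      · rw [if_neg (fun h => h.2 hv), if_neg (fun h => h.2 hv), Nat.mod_eq_zero_of_dvd hv]
        simp
      · by_cases h1 : l % 3 = 1
        · rw [if_pos ⟨h1, hv⟩, if_neg (fun h => by omega), mul_one]
        · have h2 : l % 3 = 2 := by omega
          rw [if_neg (fun h => h1 h.1), if_pos ⟨h2, hv⟩, one_mul]
  · intro l hl hv h2
    exact ⟨e2 ⟨l, hl, h2, hv⟩, congrArg Subtype.val (e2.symm_apply_apply ⟨l, hl, h2, hv⟩)⟩

end Pool.Agent.PT
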