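import Pool.Agent.PT.Stmts5

/-!
# EQD: equidistribution of the matrices in a class of the Galois group
-/

namespace Pool.Agent.PT.EQD

open Pool.Agent.Lib_helper18 Pool.Agent.Lib_helper18.Eis Pool.Agent.Lib_helper84.Cub

/-- counting with fibres of equal cardinality -/
theorem fib_count {X E : Type} [Finite X] [Finite E] (φ : X → E)
    (h : ∀ e e', Nat.card {x // φ x = e} = Nat.card {x // φ x = e'}) (S : Set E) :
    Nat.card {x // φ x ∈ S} * Nat.card E = Nat.card S * Nat.card X := by
  classical
  have := Fintype.ofFinite E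
  rcases isEmpty_or_nonempty E with hE | ⟨⟨e0⟩⟩
  · have h1 : Nat.card E = 0 := Nat.card_of_isEmpty
    have h2 : Nat.card S = 0 := Nat.card_of_isEmpty
    rw [h1, h2, mul_zero, zero_mul]
  · have h1 : Nat.card X = Nat.card E * Nat.card {x // φ x = e0} := by
      rw [← Nat.card_congr (Equiv.sigmaFiberEquiv φ), Nat.card_sigma,
        Finset.sum_congr rfl fun e _ => h e e0, Finset.sum_const, Finset.card_univ,
        smul_eq_mul, Nat.card_eq_fintype_card (α := E)]
    have e : {x // φ x ∈ S} ≃ Σ e : S, {x // φ x = (e : E)} :=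
      { toFun := fun x => ⟨⟨φ x.1, x.2⟩, ⟨x.1, rfl⟩⟩
        invFun := fun y => ⟨y.2.1, by
          rw [y.2.2]
          exact y.1.2⟩
        left_inv := fun x => rfl
        right_inv := by
          rintro ⟨e, ⟨x, hx⟩⟩
          have hmem : φ x ∈ S := by
            rw [hx]
            exact e.2
          obtain rfl : (⟨φ x, hmem⟩ : S) = e := Subtype.ext hx
          rfl }
    have := Fintype.ofFinite S
    have h2 : Nat.card {x // φ x ∈ S} = Nat.card S * Nat.card {x // φ x = e0} := by
      rw [Nat.card_congr e, Nat.card_sigma, Finset.sum_congr rfl fun (e : S) _ => h (e : E) e0,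
        Finset.sum_const, Finset.card_univ, smul_eq_mul, Nat.card_eq_fintype_card (α := S)]
    rw [h1, h2]
    ring

/-- the pairs above the diagonal -/
abbrev Pr (s : ℕ) : Type := {x : Fin s × Fin s // x.1 < x.2}

/-- the entries above the diagonal -/
def rst {s : ℕ} (v : Fin s → Fin s → ZMod 3) : Pr s → ZMod 3 := fun x => v x.1.1 x.1.2

/-- a function with given entries above the diagonal -/
def lft {s : ℕ} (e : Pr s → ZMod 3) : Fin s → Fin s → ZMod 3 :=
  fun j i => if h : j < i then e ⟨(j, i), h⟩ else 0

theorem rst_lft {s : ℕ} (e : Pr s → ZMod 3) : rst (lft e) = e := by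
  funext x
  exact dif_pos x.2

theorem alt_lft {s : ℕ} (v : Fin s → Fin s → ZMod 3) : alt (lft (rst v)) = alt v := by
  funext j i
  unfold alt lft rst
  by_cases h1 : j < i
  · rw [if_pos h1, if_pos h1, dif_pos h1]
  · rw [if_neg h1, if_neg h1]
    by_cases h2 : i < j
    · rw [if_pos h2, if_pos h2, dif_pos h2]
    · rw [if_neg h2, if_neg h2]

theorem rst_eq_iff {s : ℕ} (v : Fin s → Fin s → ZMod 3) (e : Pr s → ZMod 3) :
    rst v = e ↔ ∀ j i, j < i → v j i = lft e j i := by
  constructor
  · rintro rfl j i h
    have h1 : lft (rst v) j i = rst v ⟨(j, i), h⟩ := dif_pos h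
    rw [h1]
    rfl
  · intro h
    funext x
    have h1 := h x.1.1 x.1.2 x.2
    rw [show rst v x = v x.1.1 x.1.2 from rfl, h1]
    exact dif_pos x.2

theorem fib_all {s : ℕ} (e e' : Pr s → ZMod 3) :
    Nat.card {v : Fin s → Fin s → ZMod 3 // rst v = e} =
      Nat.card {v : Fin s → Fin s → ZMod 3 // rst v = e'} := by
  refine Nat.card_congr ⟨fun v => ⟨v.1 - lft e + lft e', ?_⟩, fun v => ⟨v.1 - lft e' + lft e, ?_⟩,
    ?_, ?_⟩
  · have h1 : rst (v.1 - lft e + lft e') = rst v.1 - rst (lft e) + rst (lft e') := rfl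
    rw [h1, v.2, rst_lft, rst_lft]
    abel
  · have h1 : rst (v.1 - lft e' + lft e) = rst v.1 - rst (lft e') + rst (lft e) := rfl
    rw [h1, v.2, rst_lft, rst_lft]
    abel
  · intro v
    apply Subtype.ext
    show v.1 - lft e + lft e' - lft e' + lft e = v.1
    abel
  · intro v
    apply Subtype.ext
    show v.1 - lft e' + lft e - lft e + lft e' = v.1
    abel

/-- The comparison of two counts. -/
theorem main {s : ℕ} {X : Type} [Finite X] (u : X → Fin s → Fin s → ZMod 3)
    (h : ∀ e e' : Pr s → ZMod 3, Nat.card {x // rst (u x) = e} = Nat.card {x // rst (u x) = e'})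
    (S : Set (Matrix (Fin s) (Fin s) (ZMod 3))) :
    Nat.card {x : X // alt (u x) ∈ S} * Nat.card (Fin s → Fin s → ZMod 3) =
      Nat.card {v : Fin s → Fin s → ZMod 3 // alt v ∈ S} * Nat.card X := by
  have h1 := fib_count (fun x => rst (u x)) h {e | alt (lft e) ∈ S}
  have h2 := fib_count (rst (s := s)) fib_all {e | alt (lft e) ∈ S}
  simp only [Set.mem_ofPred_eq, alt_lft] at h1 h2
  have h3 : 0 < Nat.card (Pr s → ZMod 3) := Nat.card_pos
  apply Nat.eq_of_mul_eq_mul_right h3
  calc Nat.card {x : X // alt (u x) ∈ S} * Nat.card (Fin s → Fin s → ZMod 3) *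
      Nat.card (Pr s → ZMod 3)
      = (Nat.card {x : X // alt (u x) ∈ S} * Nat.card (Pr s → ZMod 3)) *
        Nat.card (Fin s → Fin s → ZMod 3) := by ring
    _ = (Nat.card {e : Pr s → ZMod 3 | alt (lft e) ∈ S} *
        Nat.card (Fin s → Fin s → ZMod 3)) * Nat.card X := by
        rw [h1]
        ring
    _ = Nat.card {v : Fin s → Fin s → ZMod 3 // alt v ∈ S} * Nat.card X *
      Nat.card (Pr s → ZMod 3) := by
        rw [← h2]
        ring

end Pool.Agent.PT.EQD

namespace Pool.Agent.PT

theorem EQD_thm : EQD := by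
  intro s f G _ _ χ t hf h a C S ha
  have hsub : ∀ (P : G → Prop),
      Nat.card {x : {g : G // χ g = a} // P x.1} = Nat.card {g : G // χ g = a ∧ P g} := by
    intro P
    exact Nat.card_congr (Equiv.subtypeSubtypeEquivSubtypeInter (fun g => χ g = a) P)
  constructor
  · have h1 := EQD.main (fun x : {g : G // χ g = a} => C - t x.1) ?_ S
    · rw [hsub (fun g => alt (C - t g) ∈ S)] at h1
      exact h1
    · intro e e'
      have h2 : ∀ e : EQD.Pr s → ZMod 3,
          Nat.card {x : {g : G // χ g = a} // EQD.rst (C - t x.1) = e} =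
            Nat.card {g : G // χ g = a ∧ ∀ j i, j < i → t g j i = (C - EQD.lft e) j i} := by
        intro e
        rw [← hsub]
        refine Nat.card_congr (Equiv.subtypeEquivRight fun x => ?_)
        rw [EQD.rst_eq_iff]
        refine forall₃_congr fun j i _ => ?_
        show C j i - t x.1 j i = EQD.lft e j i ↔ t x.1 j i = C j i - EQD.lft e j i
        constructor
        · intro h3
          rw [← h3]
          ring
        · intro h3
          rw [h3]
          ring
      rw [h2, h2]
      exact h a _ _ ha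
  · have h1 := EQD.main (fun x : {g : G // χ g = a} => C + t x.1) ?_ S
    · rw [hsub (fun g => alt (C + t g) ∈ S)] at h1
      exact h1
    · intro e e'
      have h2 : ∀ e : EQD.Pr s → ZMod 3,
          Nat.card {x : {g : G // χ g = a} // EQD.rst (C + t x.1) = e} =
            Nat.card {g : G // χ g = a ∧ ∀ j i, j < i → t g j i = (EQD.lft e - C) j i} := by
        intro e
        rw [← hsub]
        refine Nat.card_congr (Equiv.subtypeEquivRight fun x => ?_)
        rw [EQD.rst_eq_iff]
        refine forall₃_congr fun j i _ => ?_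
        show C j i + t x.1 j i = EQD.lft e j i ↔ t x.1 j i = EQD.lft e j i - C j i
        constructor
        · intro h3
          rw [← h3]
          ring
        · intro h3
          rw [h3]
          ring
      rw [h2, h2]
      exact h a _ _ ha

end Pool.Agent.PT
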