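import Pool.Agent.PT.Stmts2

/-!
# ESYS: from a basis to a system with solutions
-/

namespace Pool.Agent.PT

open Pool.Agent.Lib_helper18 Pool.Agent.Lib_helper18.Eis Pool.Agent.Lib_helper84.Cub

namespace ESYS

theorem cast_ne {n : ℤ} (h : n ≠ 0) : (n : Eis) ≠ 0 := by
  intro h1
  apply h
  have := congrArg Eis.re h1
  simpa using this

theorem dvd_int {ρ : Eis} {p : ℕ} (hp : p.Prime) (h : ρ.norm = p) {m : ℤ}
    (hd : ρ ∣ (m : Eis)) : (p : ℤ) ∣ m := by
  obtain ⟨t, ht⟩ := hd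
  have h1 := congrArg Eis.norm ht
  rw [norm_intCast, norm_mul, h] at h1
  exact (Nat.prime_iff_prime_int.1 hp).dvd_of_dvd_pow ⟨t.norm, h1⟩

theorem V_p {ρ : Eis} {p : ℕ} (hρ : Prime ρ) (hn : (p : Eis) = ρ * conj ρ)
    (hna : ¬ Associated ρ (conj ρ)) : V ρ (p : Eis) = 1 := by
  have hc : Prime (conj ρ) := prime_conj hρ
  have hd : ¬ ρ ∣ conj ρ := fun h => hna ((hρ.dvd_prime_iff_associated hc).1 h)
  rw [hn, V_mul hρ hρ.ne_zero hc.ne_zero, V_self, V_eq_zero hd]

theorem prime_cases {n m k : ℕ} {π : Fin m → PP} {p e : Fin m → ℕ} {r f : Fin k → ℕ}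
    (h : NF n π p e r f) {l : ℕ} (hl : l.Prime) (hd : l ∣ n) : (∃ i, p i = l) ∨ ∃ j, r j = l := by
  rw [h.eq] at hd
  rcases hl.dvd_mul.1 hd with h1 | h1
  · obtain ⟨i, -, hi⟩ := (hl.prime.dvd_finsetProd_iff _).1 h1
    exact Or.inl ⟨i, ((Nat.prime_dvd_prime_iff_eq hl (h.pp i)).1 (hl.dvd_of_dvd_pow hi)).symm⟩
  · obtain ⟨i, -, hi⟩ := (hl.prime.dvd_finsetProd_iff _).1 h1
    exact Or.inr ⟨i, ((Nat.prime_dvd_prime_iff_eq hl (h.rp i)).1 (hl.dvd_of_dvd_pow hi)).symm⟩

theorem V_n {n m k : ℕ} {π : Fin m → PP} {p e : Fin m → ℕ} {r f : Fin k → ℕ}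
    (h : NF n π p e r f) {ρ : Eis} (i0 : Fin m) (hρ : Prime ρ) (hnorm : ρ.norm = p i0)
    (hn : (p i0 : Eis) = ρ * conj ρ) (hna : ¬ Associated ρ (conj ρ)) : V ρ (n : Eis) = e i0 := by
  classical
  set M : ℕ := (∏ i ∈ Finset.univ.erase i0, p i ^ e i) * ∏ j, r j ^ f j with hM
  have hnM : n = p i0 ^ e i0 * M := by
    rw [h.eq, hM, ← mul_assoc, Finset.mul_prod_erase Finset.univ (fun i => p i ^ e i)
      (Finset.mem_univ i0)]
  have hMd : ¬ ρ ∣ (M : Eis) := by
    intro hd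
    have h1 : ρ ∣ ((M : ℤ) : Eis) := by
      rw [Int.cast_natCast]
      exact hd
    have h2 := dvd_int (h.pp i0) hnorm h1
    have h3 : p i0 ∣ M := by exact_mod_cast h2
    have hl := h.pp i0
    rcases hl.dvd_mul.1 h3 with h4 | h4
    · obtain ⟨i, hi, hi'⟩ := (hl.prime.dvd_finsetProd_iff _).1 h4
      have h5 := (Nat.prime_dvd_prime_iff_eq hl (h.pp i)).1 (hl.dvd_of_dvd_pow hi')
      exact (Finset.ne_of_mem_erase hi) (h.pinj h5).symm
    · obtain ⟨i, -, hi'⟩ := (hl.prime.dvd_finsetProd_iff _).1 h4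
      have h5 := (Nat.prime_dvd_prime_iff_eq hl (h.rp i)).1 (hl.dvd_of_dvd_pow hi')
      have h6 := h.p1 i0
      have h7 := h.r2 i
      omega
  have hM0 : (M : Eis) ≠ 0 := by
    intro h0
    rw [h0] at hMd
    exact hMd (dvd_zero _)
  have hp0 : (p i0 : Eis) ≠ 0 := by
    rw [hn]
    exact mul_ne_zero hρ.ne_zero (prime_conj hρ).ne_zero
  rw [hnM, Nat.cast_mul, Nat.cast_pow, V_mul hρ (pow_ne_zero _ hp0) hM0, V_pow hρ hp0,
    V_p hρ hn hna, V_eq_zero hMd]
  ring

theorem sol_swap {b x p q p' q' : ℤ} (h : Sol b x p q p' q') : Sol x b p (-p') (-q) q' := by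
  have h1 := h.eq
  have h2 := h.n1
  have h3 := h.n2
  refine ⟨⟨?_, ?_⟩, ?_⟩
  · linear_combination h1
  · intro h0
    apply h3
    linear_combination h0
  · intro h0
    apply h2
    linear_combination h0

theorem cube_of {x u v : ℤ} (hv : v ≠ 0) (h : u ^ 3 = x * v ^ 3) : ∃ t : ℤ, t ^ 3 = x := by
  have h1 : v ^ 3 ∣ u ^ 3 := ⟨x, by rw [h]; ring⟩
  have h2 : v ∣ u := (Int.pow_dvd_pow_iff (by norm_num)).1 h1
  obtain ⟨t, rfl⟩ := h2
  refine ⟨t, ?_⟩
  have h3 : v ^ 3 ≠ 0 := pow_ne_zero _ hv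
  apply mul_left_cancel₀ h3
  linear_combination h

theorem sol_of {b x p q p' q' : ℤ} (h : SolW b x p q p' q') (hb : b ≠ 0)
    (hx : ¬ ∃ t : ℤ, t ^ 3 = x) : Sol b x p q p' q' := by
  refine ⟨h, ?_⟩
  intro h0
  by_cases hp' : p' = 0
  · subst hp'
    have hp : p ^ 3 = 0 := by linear_combination h0
    have h1 : q ^ 3 = x * q' ^ 3 := by
      apply mul_left_cancel₀ hb
      linear_combination h.eq - hp
    have hq' : q' ≠ 0 := by
      rintro rfl
      apply h.n1
      have h2 : q ^ 3 = 0 := by linear_combination h1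
      rw [hp, h2]
      ring
    exact hx (cube_of hq' h1)
  · exact hx (cube_of (u := p) hp' (by linear_combination h0))

/-- the symbols of two admissible classes -/
theorem tm_zero (hSPP : SPP) (hSCJ : SCJ) {n m k : ℕ} {π : Fin m → PP} {p e : Fin m → ℕ}
    {r f : Fin k → ℕ} {w0 : ZMod 3} {c : Fin m → ZMod 3} (h : NF n π p e r f) {x y : ℤ}
    (hx : AdmC n π w0 c x) (hy : AdmC n π w0 c y) (ρ : PP) :
    tm ρ.1 (x : Eis) (y : Eis) = 0 := by
  obtain ⟨-, hS2, -, hS4, -, hS6⟩ := hSPP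
  obtain ⟨hC1, -, -, hC4⟩ := hSCJ
  obtain ⟨l, hl, ⟨hl3, hρ⟩ | ⟨hl3, hnorm, hn, hna⟩⟩ := hS6 ρ
  · rw [hρ]
    exact hC4 l hl hl3 x y hx.ne hy.ne
  by_cases hln : l ∣ n
  · rcases prime_cases h hl hln with ⟨i, rfl⟩ | ⟨j, rfl⟩
    · -- the key computation
      have key : ∀ σ : PP, σ = π i → σ.1.norm = p i → (p i : Eis) = σ.1 * conj σ.1 →
          ¬ Associated σ.1 (conj σ.1) → tm σ.1 (x : Eis) (y : Eis) = 0 := by
        intro σ hσ h1 h2 h3
        have hV := V_n h i σ.2.1 h1 h2 h3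
        have e1 := hx.sym i
        have e2 := hy.sym i
        rw [← hσ, hV] at e1 e2
        have h4 : (e i : ZMod 3) * tm σ.1 (x : Eis) (y : Eis) = 0 := by
          unfold tm
          linear_combination (V σ.1 (y : Eis) : ZMod 3) * e1 - (V σ.1 (x : Eis) : ZMod 3) * e2
        rcases h.pe i with h5 | h5
        · rw [h5] at h4
          simpa using h4
        · rw [h5] at h4
          generalize tm σ.1 (x : Eis) (y : Eis) = z at h4
          revert z
          decide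
      have hd : ρ.1 ∣ (π i).1 * conj (π i).1 := by
        rw [← h.pπ i, hn]
        exact Dvd.intro _ rfl
      rcases ρ.2.1.dvd_or_dvd hd with h1 | h1
      · have h2 := hS2 ρ (π i) ((ρ.2.1.dvd_prime_iff_associated (π i).2.1).1 h1)
        exact key ρ h2 hnorm hn hna
      · obtain ⟨σ, hσ⟩ := (hS4 (π i)).2
        have h2 : ρ = σ := by
          apply hS2
          rw [hσ]
          exact (ρ.2.1.dvd_prime_iff_associated (prime_conj (π i).2.1)).1 h1
        have h3 : (π i).1 = conj ρ.1 := by rw [h2, hσ, conj_conj]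
        have h4 := key (π i) rfl (by rw [h3, norm_conj, hnorm])
          (by rw [h3, conj_conj, mul_comm, ← hn])
          (by
            rw [h3, conj_conj]
            exact fun h => hna h.symm)
        have h5 : ¬ (π i).1 ∣ 3 := (hS4 (π i)).1
        have h6 := hC1 (π i).1 (x : Eis) (y : Eis) (π i).2.1 h5 (cast_ne hx.ne) (cast_ne hy.ne)
        rw [h4, neg_zero, conj_intCast, conj_intCast, h3, conj_conj] at h6
        exact h6
    · have := h.r2 j
      omega
  · have hnd : ∀ z : ℤ, AdmC n π w0 c z → V ρ.1 (z : Eis) = 0 := by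
      intro z hz
      apply V_eq_zero
      intro hd
      exact hln (hz.supp l hl (dvd_int hl hnorm hd))
    unfold tm
    rw [hnd x hx, hnd y hy]
    simp

end ESYS

open ESYS in
theorem ESYS_thm (hSTM : STM) (hSPP : SPP) (hSCJ : SCJ) (hHN : HN) : ESYS := by
  classical
  intro n m k π p e r f w0 c s b hNF hA hV hind hC9
  have hnc : ∀ i, ¬ ∃ t : ℤ, t ^ 3 = b i := by
    intro i
    have := hind (fun j => if j = i then 1 else 0) ⟨i, by simp⟩
    simpa [Finset.prod_ite_eq'] using this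
  have hex : ∀ j i : Fin s, ∃ P Q P' Q' : ℤ, Sol (b j) (b i) P Q P' Q' := by
    intro j i
    obtain ⟨P, Q, P', Q', h⟩ := hHN (b j) (b i) (hA j).ne (hA j).three (hnc j) (hV j) (hA i).ne
      (hA i).three (fun ρ => tm_zero hSPP hSCJ hNF (hA j) (hA i) ρ)
    exact ⟨P, Q, P', Q', sol_of h (hA j).ne (hnc i)⟩
  choose P Q P' Q' hsol using hex
  refine ⟨fun j i => if j < i then P j i else P i j, fun j i => if j < i then Q j i else - P' i j,
    fun j i => if j < i then P' j i else - Q i j, fun j i => if j < i then Q' j i else Q' i j,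
    hind, hC9, ?_, ?_⟩
  · intro j i hji
    rcases lt_or_gt_of_ne hji with h | h
    · simp only [h, if_true]
      exact hsol j i
    · simp only [not_lt_of_gt h, if_false]
      exact sol_swap (hsol i j)
  · intro j i hji
    rcases lt_or_gt_of_ne hji with h | h
    · simp [h, not_lt_of_gt h]
    · simp [h, not_lt_of_gt h]

end Pool.Agent.PT
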