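import Pool.Agent.PT.Stmts4

/-!
# EVEC: the admissible classes in terms of exponent vectors
-/

set_option autoImplicit false

namespace Pool.Agent.PT

open Pool.Agent.Lib_helper18 Pool.Agent.Lib_helper18.Eis Pool.Agent.Lib_helper84.Cub

namespace EVEC

/-! ### additive functions -/

/-- the value of an additive function at a product of powers -/
theorem fun_prod {M ι : Type} [AddCommMonoid M] [DecidableEq ι] (G : ℤ → Prop) (F : ℤ → M)
    (hG1 : G 1) (hGm : ∀ a b, G a → G b → G (a * b)) (hF1 : F 1 = 0)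
    (hF : ∀ a b, G a → G b → F (a * b) = F a + F b) (s : Finset ι) (a : ι → ℤ) (k : ι → ℕ)
    (ha : ∀ i ∈ s, G (a i)) :
    G (∏ i ∈ s, a i ^ k i) ∧ F (∏ i ∈ s, a i ^ k i) = ∑ i ∈ s, k i • F (a i) := by
  have hpow : ∀ b, G b → ∀ j : ℕ, G (b ^ j) ∧ F (b ^ j) = j • F b := by
    intro b hb j
    induction j with
    | zero => rw [pow_zero, zero_nsmul]; exact ⟨hG1, hF1⟩
    | succ j ih =>
      rw [pow_succ, succ_nsmul]
      exact ⟨hGm _ _ ih.1 hb, by rw [hF _ _ ih.1 hb, ih.2]⟩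
  induction s using Finset.induction_on with
  | empty => rw [Finset.prod_empty, Finset.sum_empty]; exact ⟨hG1, hF1⟩
  | insert i s hi ih =>
    rw [Finset.prod_insert hi, Finset.sum_insert hi]
    obtain ⟨h1, h2⟩ := hpow (a i) (ha i (Finset.mem_insert_self i s)) (k i)
    obtain ⟨h3, h4⟩ := ih fun j hj => ha j (Finset.mem_insert_of_mem hj)
    exact ⟨hGm _ _ h1 h3, by rw [hF _ _ h1 h3, h2, h4]⟩

section NF

variable {n m k : ℕ} {π : Fin m → PP} {p e : Fin m → ℕ} {r f : Fin k → ℕ}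

/-- the primes dividing `n` -/
theorem prime_dvd (h : NF n π p e r f) {l : ℕ} (hl : l.Prime) (hn : l ∣ n) :
    (∃ i, l = p i) ∨ ∃ j, l = r j := by
  rw [h.eq, hl.dvd_mul] at hn
  rcases hn with hn | hn
  · left
    obtain ⟨i, -, hi⟩ := (hl.prime.dvd_finsetProd_iff _).1 hn
    exact ⟨i, (Nat.prime_dvd_prime_iff_eq hl (h.pp i)).1 (hl.dvd_of_dvd_pow hi)⟩
  · right
    obtain ⟨j, -, hj⟩ := (hl.prime.dvd_finsetProd_iff _).1 hn
    exact ⟨j, (Nat.prime_dvd_prime_iff_eq hl (h.rp j)).1 (hl.dvd_of_dvd_pow hj)⟩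

/-- the factorisation of a number supported on `n` -/
theorem natAbs_eq (h : NF n π p e r f) {x : ℤ} (hx : x ≠ 0)
    (hs : ∀ l : ℕ, l.Prime → (l : ℤ) ∣ x → l ∣ n) :
    x.natAbs = (∏ i, p i ^ padicValInt (p i) x) * ∏ j, r j ^ padicValInt (r j) x := by
  classical
  have hx' : x.natAbs ≠ 0 := Int.natAbs_ne_zero.2 hx
  have h1 := Nat.prod_factorization_pow_eq_self hx'
  have hsub : x.natAbs.factorization.support ⊆
      Finset.univ.image p ∪ Finset.univ.image r := by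
    intro l hl
    rw [Nat.support_factorization, Nat.mem_primeFactors] at hl
    have h2 := hs l hl.1 (Int.natCast_dvd.2 hl.2.1)
    rw [Finset.mem_union, Finset.mem_image, Finset.mem_image]
    rcases prime_dvd h hl.1 h2 with ⟨i, hi⟩ | ⟨j, hj⟩
    · exact Or.inl ⟨i, Finset.mem_univ _, hi.symm⟩
    · exact Or.inr ⟨j, Finset.mem_univ _, hj.symm⟩
  have hdis : Disjoint (Finset.univ.image p) (Finset.univ.image r) := by
    rw [Finset.disjoint_left]
    intro l hl hl'
    obtain ⟨i, -, rfl⟩ := Finset.mem_image.1 hl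
    obtain ⟨j, -, hj⟩ := Finset.mem_image.1 hl'
    have e1 := h.p1 i
    have e2 := h.r2 j
    omega
  rw [Finsupp.prod_of_support_subset _ hsub _ (fun i _ => pow_zero i),
    Finset.prod_union hdis, Finset.prod_image (fun a _ b _ hab => h.pinj hab),
    Finset.prod_image (fun a _ b _ hab => h.rinj hab)] at h1
  have hval : ∀ l : ℕ, l.Prime → x.natAbs.factorization l = padicValInt l x := by
    intro l hl
    rw [Nat.factorization_def _ hl]
    rfl
  rw [← h1]
  congr 1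
  · exact Finset.prod_congr rfl fun i _ => by rw [hval _ (h.pp i)]
  · exact Finset.prod_congr rfl fun j _ => by rw [hval _ (h.rp j)]

theorem eq_prod (h : NF n π p e r f) {x : ℤ} (hx : x ≠ 0)
    (hs : ∀ l : ℕ, l.Prime → (l : ℤ) ∣ x → l ∣ n) :
    x = x.sign * ((∏ i, (p i : ℤ) ^ padicValInt (p i) x) *
      ∏ j, (r j : ℤ) ^ padicValInt (r j) x) := by
  conv_lhs => rw [← Int.sign_mul_natAbs x, natAbs_eq h hx hs]
  push_cast
  rfl

theorem sign_cases {x : ℤ} (hx : x ≠ 0) : x.sign = 1 ∨ x.sign = -1 := by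
  rcases lt_or_gt_of_ne hx with h | h
  · exact Or.inr (Int.sign_eq_neg_one_of_neg h)
  · exact Or.inl (Int.sign_eq_one_of_pos h)

/-- the value of an additive function with values in `ZMod 3` -/
theorem fun_eq (h : NF n π p e r f) (F : ℤ → ZMod 3)
    (hF : ∀ a b : ℤ, a ≠ 0 → b ≠ 0 → ¬ (3 : ℤ) ∣ a → ¬ (3 : ℤ) ∣ b → F (a * b) = F a + F b)
    (hneg : F (-1) = 0) {x : ℤ} (hx : x ≠ 0)
    (hs : ∀ l : ℕ, l.Prime → (l : ℤ) ∣ x → l ∣ n) :
    F x = ∑ i, (padicValInt (p i) x : ZMod 3) * F (p i) +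
      ∑ j, (padicValInt (r j) x : ZMod 3) * F (r j) := by
  classical
  let G : ℤ → Prop := fun a => a ≠ 0 ∧ ¬ (3 : ℤ) ∣ a
  have hG1 : G 1 := ⟨one_ne_zero, by norm_num⟩
  have hGm : ∀ a b, G a → G b → G (a * b) := fun a b ha hb =>
    ⟨mul_ne_zero ha.1 hb.1, fun hd => ((Int.prime_three.dvd_or_dvd hd).elim ha.2 hb.2)⟩
  have hF' : ∀ a b, G a → G b → F (a * b) = F a + F b := fun a b ha hb =>
    hF a b ha.1 hb.1 ha.2 hb.2
  have hF1 : F 1 = 0 := by
    have e1 := hF' 1 1 hG1 hG1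
    rw [one_mul] at e1
    exact (left_eq_add.1 e1)
  have hp : ∀ i, G (p i) := fun i => ⟨by exact_mod_cast (h.pp i).ne_zero, by
    have := h.p1 i
    omega⟩
  have hr : ∀ j, G (r j) := fun j => ⟨by exact_mod_cast (h.rp j).ne_zero, by
    have := h.r2 j
    omega⟩
  obtain ⟨a1, a2⟩ := fun_prod G F hG1 hGm hF1 hF' Finset.univ (fun i => (p i : ℤ))
    (fun i => padicValInt (p i) x) (fun i _ => hp i)
  obtain ⟨b1, b2⟩ := fun_prod G F hG1 hGm hF1 hF' Finset.univ (fun j => (r j : ℤ))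
    (fun j => padicValInt (r j) x) (fun j _ => hr j)
  have e1 : F x = F ((∏ i, (p i : ℤ) ^ padicValInt (p i) x) *
      ∏ j, (r j : ℤ) ^ padicValInt (r j) x) := by
    conv_lhs => rw [eq_prod h hx hs]
    rcases sign_cases hx with hs | hs
    · rw [hs, one_mul]
    · rw [hs, hF' (-1) _ ⟨by norm_num, by norm_num⟩ (hGm _ _ a1 b1), hneg, zero_add]
  rw [e1, hF' _ _ a1 b1, a2, b2]
  simp only [nsmul_eq_mul]

/-- a number supported on `n` with all exponents divisible by three is a cube -/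
theorem exists_cube (h : NF n π p e r f) {x : ℤ} (hx : x ≠ 0)
    (hs : ∀ l : ℕ, l.Prime → (l : ℤ) ∣ x → l ∣ n) (h1 : ∀ i, 3 ∣ padicValInt (p i) x)
    (h2 : ∀ j, 3 ∣ padicValInt (r j) x) : ∃ t : ℤ, t ≠ 0 ∧ x = t ^ 3 := by
  have e1 := eq_prod h hx hs
  choose a ha using h1
  choose b hb using h2
  have e2 : (∏ i, (p i : ℤ) ^ padicValInt (p i) x) * ∏ j, (r j : ℤ) ^ padicValInt (r j) x =
      ((∏ i, (p i : ℤ) ^ a i) * ∏ j, (r j : ℤ) ^ b j) ^ 3 := by
    rw [mul_pow, ← Finset.prod_pow, ← Finset.prod_pow]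
    congr 1
    · exact Finset.prod_congr rfl fun i _ => by rw [ha, ← pow_mul, mul_comm]
    · exact Finset.prod_congr rfl fun j _ => by rw [hb, ← pow_mul, mul_comm]
  have e3 : x = (x.sign * ((∏ i, (p i : ℤ) ^ a i) * ∏ j, (r j : ℤ) ^ b j)) ^ 3 := by
    rw [mul_pow, ← e2]
    have e4 : x.sign ^ 3 = x.sign := by
      rcases sign_cases hx with h | h
      · rw [h]; norm_num
      · rw [h]; norm_num
    rw [e4]
    exact e1
  refine ⟨_, ?_, e3⟩
  intro h0
  rw [h0] at e3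
  exact hx (by rw [e3]; norm_num)

end NF

/-! ### valuations and symbols at a split prime -/

section Split

variable {π : Eis} {p : ℕ}

/-- a split prime -/
structure Sp (π : Eis) (p : ℕ) : Prop where
  hp : p.Prime
  hp1 : p % 3 = 1
  pr : Prime π
  h3 : ¬ π ∣ 3
  norm : π.norm = p
  eq : (p : Eis) = π * conj π
  na : ¬ Associated π (conj π)

theorem Sp.dvd_int (h : Sp π p) {a : ℤ} (ha : π ∣ (a : Eis)) : (p : ℤ) ∣ a := by
  obtain ⟨c, hc⟩ := ha
  have h1 : a ^ 2 = p * c.norm := by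
    have h2 := congrArg Eis.norm hc
    rwa [norm_intCast, norm_mul, h.norm] at h2
  have h2 : (p : ℤ) ∣ a ^ 2 := ⟨_, h1⟩
  exact (Nat.prime_iff_prime_int.1 h.hp).dvd_of_dvd_pow h2

theorem Sp.not_dvd_conj (h : Sp π p) : ¬ π ∣ conj π := fun hd =>
  h.na (h.pr.associated_of_dvd (prime_conj h.pr) hd)

theorem Sp.V_self (h : Sp π p) : V π (p : Eis) = 1 := by
  rw [h.eq, V_mul h.pr h.pr.ne_zero (prime_conj h.pr).ne_zero, Pool.Agent.Lib_helper84.Cub.V_self,
    V_eq_zero h.not_dvd_conj]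

theorem Sp.V_int (h : Sp π p) {x : ℤ} (hx : x ≠ 0) : V π (x : Eis) = padicValInt p x := by
  have : Fact p.Prime := ⟨h.hp⟩
  obtain ⟨c, hc⟩ : (p : ℤ) ^ padicValInt p x ∣ x := padicValInt_dvd x
  have hc0 : c ≠ 0 := by
    rintro rfl
    rw [mul_zero] at hc
    exact hx hc
  have hpc : ¬ (p : ℤ) ∣ c := by
    rintro ⟨d, rfl⟩
    have h1 : (p : ℤ) ^ (padicValInt p x + 1) ∣ x := ⟨d, by
      rw [pow_succ]
      conv_lhs => rw [hc]
      ring⟩
    rw [padicValInt_dvd_iff] at h1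
    rcases h1 with h1 | h1
    · exact hx h1
    · omega
  have h1 : (x : Eis) = (p : Eis) ^ padicValInt p x * (c : Eis) := by
    conv_lhs => rw [hc]
    push_cast
    rfl
  have hp0 : (p : Eis) ≠ 0 := by
    rw [h.eq]
    exact mul_ne_zero h.pr.ne_zero (prime_conj h.pr).ne_zero
  have hcE : (c : Eis) ≠ 0 := by
    intro h0
    apply hc0
    have := congrArg Eis.re h0
    simpa using this
  rw [h1, V_mul h.pr (pow_ne_zero _ hp0) hcE, V_pow h.pr hp0, h.V_self,
    V_eq_zero (fun hd => hpc (h.dvd_int hd)), mul_one, add_zero]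

end Split

/-! ### the symbols of the unit parts -/

section Ch

variable {π : Eis}

theorem up_eq (hπ : Prime π) {a c : Eis} {v : ℕ} (h : a = π ^ v * c) (hc : ¬ π ∣ c) :
    up π a = c := by
  have hv : V π a = v := by rw [h, V_pow_mul hπ v hc]
  rw [up, hv, h, mul_div_cancel_left₀ _ (pow_ne_zero _ hπ.ne_zero)]

theorem ch_mul (hπ : Prime π) (h3 : ¬ π ∣ 3) {a b : Eis} (ha : a ≠ 0) (hb : b ≠ 0) :
    ch π (a * b) = ch π a + ch π b := by
  obtain ⟨c, hc, hc'⟩ := V_split hπ ha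
  obtain ⟨d, hd, hd'⟩ := V_split hπ hb
  have h1 : a * b = π ^ (V π a + V π b) * (c * d) := by
    conv_lhs => rw [hc, hd]
    ring
  have h2 : ¬ π ∣ c * d := fun h => (hπ.dvd_or_dvd h).elim hc' hd'
  rw [ch, ch, ch, up_eq hπ h1 h2, up_eq hπ hc hc', up_eq hπ hd hd', sym_mul hπ h3 hc' hd']

theorem ch_not_dvd (hπ : Prime π) {a : Eis} (ha : ¬ π ∣ a) : ch π a = sym π a := by
  rw [ch, up_eq hπ (v := 0) (by rw [pow_zero, one_mul]) ha]

theorem ch_neg_one (hπ : Prime π) (h3 : ¬ π ∣ 3) : ch π (-1) = 0 := by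
  rw [ch_not_dvd hπ (not_dvd_of_isUnit hπ (by simp)), sym_neg_one hπ h3]

theorem ch_self_mul (hπ : Prime π) {a : Eis} (ha : ¬ π ∣ a) : ch π (π * a) = sym π a := by
  rw [ch, up_eq hπ (v := 1) (by rw [pow_one]) ha]

end Ch

/-! ### the condition modulo nine -/

theorem wt_eq_zero_iff {a : ℤ} (ha : a % 3 = 1) : wt a = 0 ↔ a % 9 = 1 := by
  rw [wt, ZMod.intCast_zmod_eq_zero_iff_dvd]
  omega

theorem C9_iff {x : ℤ} (hx : ¬ (3 : ℤ) ∣ x) : C9 x ↔ wt (x ^ 2) = 0 := by
  rw [wt_eq_zero_iff (sq_mod_three hx), C9]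
  have h1 : x ^ 2 % 9 = (x % 9) ^ 2 % 9 := by rw [pow_two, pow_two, Int.mul_emod]
  rw [h1]
  have h2 : x % 9 = 0 ∨ x % 9 = 1 ∨ x % 9 = 2 ∨ x % 9 = 3 ∨ x % 9 = 4 ∨ x % 9 = 5 ∨
      x % 9 = 6 ∨ x % 9 = 7 ∨ x % 9 = 8 := by omega
  rcases h2 with h | h | h | h | h | h | h | h | h
  · omega
  · rw [h]; norm_num
  · rw [h]; norm_num
  · omega
  · rw [h]; norm_num
  · rw [h]; norm_num
  · omega
  · rw [h]; norm_num
  · rw [h]; norm_num

end EVEC

open EVEC in
theorem EVEC_thm (_hSTM : STM) (hSPP : SPP) : EVEC := by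
  classical
  intro n m k π p e r f w0 c h
  -- the primes are split
  have hSp : ∀ i, Sp (π i).1 (p i) := by
    intro i
    obtain ⟨-, -, -, h4, -, h6⟩ := hSPP
    obtain ⟨p', hp', hc⟩ := h6 (π i)
    rcases hc with ⟨-, hc⟩ | ⟨-, hc1, hc2, hc3⟩
    · exfalso
      have e1 := h.pπ i
      rw [hc, conj_natCast, ← Nat.cast_mul] at e1
      have e2 : p i = p' * p' := by
        have := congrArg Eis.re e1
        rw [natCast_re, natCast_re] at this
        exact_mod_cast this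
      have e3 := h.pp i
      rw [e2] at e3
      exact Nat.not_prime_mul hp'.one_lt.ne' hp'.one_lt.ne' e3
    · have e1 : p i = p' := by
        have e2 : (p i : Eis) = (p' : Eis) := by rw [h.pπ i, hc2]
        have := congrArg Eis.re e2
        simpa using this
      exact ⟨h.pp i, h.p1 i, (π i).2.1, (h4 (π i)).1, by rw [e1]; exact hc1, h.pπ i, hc3⟩
  have hpne : ∀ i i', i' ≠ i → ¬ (π i).1 ∣ (p i' : Eis) := by
    intro i i' hii hd
    have e1 : (p i : ℤ) ∣ (p i' : ℤ) := (hSp i).dvd_int (by exact_mod_cast hd)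
    rw [Int.natCast_dvd_natCast, Nat.prime_dvd_prime_iff_eq (h.pp i) (h.pp i')] at e1
    exact hii (h.pinj e1).symm
  have hrne : ∀ i j, ¬ (π i).1 ∣ (r j : Eis) := by
    intro i j hd
    have e1 : (p i : ℤ) ∣ (r j : ℤ) := (hSp i).dvd_int (by exact_mod_cast hd)
    rw [Int.natCast_dvd_natCast, Nat.prime_dvd_prime_iff_eq (h.pp i) (h.rp j)] at e1
    have e2 := h.p1 i
    have e3 := h.r2 j
    omega
  have hcast0 : ∀ a : ℤ, a ≠ 0 → (a : Eis) ≠ 0 := by
    intro a ha h0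
    apply ha
    have := congrArg Eis.re h0
    simpa using this
  -- the valuation of `n`
  have hVn : ∀ i, V (π i).1 (n : Eis) = e i := by
    intro i
    let F : ℤ → ℕ := fun a => V (π i).1 (a : Eis)
    have hF1 : F 1 = 0 := by
      show V (π i).1 ((1 : ℤ) : Eis) = 0
      rw [Int.cast_one]
      exact V_eq_zero (not_dvd_of_isUnit (π i).2.1 isUnit_one)
    have hF : ∀ a b : ℤ, a ≠ 0 → b ≠ 0 → F (a * b) = F a + F b := by
      intro a b ha hb
      show V (π i).1 ((a * b : ℤ) : Eis) = _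
      rw [Int.cast_mul, V_mul (π i).2.1 (hcast0 a ha) (hcast0 b hb)]
    obtain ⟨a1, a2⟩ := fun_prod (fun a : ℤ => a ≠ 0) F one_ne_zero
      (fun a b => mul_ne_zero) hF1 hF Finset.univ (fun i => (p i : ℤ)) e
      (fun i _ => by exact_mod_cast (h.pp i).ne_zero)
    obtain ⟨b1, b2⟩ := fun_prod (fun a : ℤ => a ≠ 0) F one_ne_zero
      (fun a b => mul_ne_zero) hF1 hF Finset.univ (fun j => (r j : ℤ)) f
      (fun j _ => by exact_mod_cast (h.rp j).ne_zero)
    have e1 : V (π i).1 (n : Eis) = F ((∏ i, (p i : ℤ) ^ e i) * ∏ j, (r j : ℤ) ^ f j) := by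
      have e2 : ((n : ℕ) : ℤ) = (∏ i, (p i : ℤ) ^ e i) * ∏ j, (r j : ℤ) ^ f j := by
        rw [h.eq]
        push_cast
        rfl
      rw [← e2]
      show V (π i).1 (n : Eis) = V (π i).1 ((n : ℤ) : Eis)
      rw [Int.cast_natCast]
    have hFp : F (p i) = 1 := by
      show V (π i).1 ((p i : ℤ) : Eis) = 1
      rw [Int.cast_natCast]
      exact (hSp i).V_self
    have hFp' : ∀ i', i' ≠ i → F (p i') = 0 := by
      intro i' hi'
      show V (π i).1 ((p i' : ℤ) : Eis) = 0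
      rw [Int.cast_natCast]
      exact V_eq_zero (hpne i i' hi')
    have hFr : ∀ j, F (r j) = 0 := by
      intro j
      show V (π i).1 ((r j : ℤ) : Eis) = 0
      rw [Int.cast_natCast]
      exact V_eq_zero (hrne i j)
    rw [e1, hF _ _ a1 b1, a2, b2, Finset.sum_eq_single i, hFp,
      Finset.sum_eq_zero fun j _ => by rw [hFr, smul_zero]]
    · simp
    · intro i' _ hi'
      rw [hFp' i' hi', smul_zero]
    · intro h0
      exact absurd (Finset.mem_univ _) h0
  -- the symbols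
  have hch : ∀ (x : ℤ), x ≠ 0 → (∀ l : ℕ, l.Prime → (l : ℤ) ∣ x → l ∣ n) → ∀ i,
      ch (π i).1 (x : Eis) = (∑ i', (padicValInt (p i') x : ZMod 3) *
          (if i' = i then sym (π i).1 (conj (π i).1) else sym (π i).1 (p i' : Eis))) +
        ∑ j, (padicValInt (r j) x : ZMod 3) * sym (π i).1 (r j : Eis) := by
    intro x hx hs i
    have hπ := (hSp i).pr
    have h3 := (hSp i).h3
    have e1 := fun_eq h (fun a => ch (π i).1 (a : Eis))
      (fun a b ha hb _ _ => by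
        show ch (π i).1 ((a * b : ℤ) : Eis) = _
        rw [Int.cast_mul, ch_mul hπ h3 (hcast0 a ha) (hcast0 b hb)])
      (by
        show ch (π i).1 ((-1 : ℤ) : Eis) = 0
        rw [Int.cast_neg, Int.cast_one, ch_neg_one hπ h3]) hx hs
    rw [e1]
    congr 1
    · refine Finset.sum_congr rfl fun i' _ => ?_
      congr 1
      show ch (π i).1 ((p i' : ℤ) : Eis) = _
      rw [Int.cast_natCast]
      by_cases hi' : i' = i
      · rw [if_pos hi', hi', (hSp i).eq, ch_self_mul hπ (hSp i).not_dvd_conj]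
      · rw [if_neg hi', ch_not_dvd hπ (hpne i i' hi')]
    · refine Finset.sum_congr rfl fun j _ => ?_
      congr 1
      show ch (π i).1 ((r j : ℤ) : Eis) = _
      rw [Int.cast_natCast, ch_not_dvd hπ (hrne i j)]
  -- the weight
  have hwt : ∀ (x : ℤ), x ≠ 0 → (∀ l : ℕ, l.Prime → (l : ℤ) ∣ x → l ∣ n) →
      wt (x ^ 2) = (∑ i, (padicValInt (p i) x : ZMod 3) * wt ((p i : ℤ) ^ 2)) +
        ∑ j, (padicValInt (r j) x : ZMod 3) * wt ((r j : ℤ) ^ 2) := by
    intro x hx hs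
    exact fun_eq h (fun a => wt (a ^ 2))
      (fun a b _ _ ha hb => by
        show wt ((a * b) ^ 2) = _
        rw [mul_pow, wt_mul (sq_mod_three ha) (sq_mod_three hb)])
      (by
        show wt ((-1) ^ 2) = 0
        rw [neg_one_sq, wt_one]) hx hs
  have hC9 : ∀ (x : ℤ), x ≠ 0 → ¬ (3 : ℤ) ∣ x → (∀ l : ℕ, l.Prime → (l : ℤ) ∣ x → l ∣ n) →
      (C9 x ↔ (∑ i, (padicValInt (p i) x : ZMod 3) * wt ((p i : ℤ) ^ 2)) +
        ∑ j, (padicValInt (r j) x : ZMod 3) * wt ((r j : ℤ) ^ 2) = 0) := by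
    intro x hx h3 hs
    rw [C9_iff h3, hwt x hx hs]
  refine ⟨fun x hx h3 hs => ⟨?_, hC9 x hx h3 hs⟩, ?_⟩
  · have e1 : ∀ i, ((V (π i).1 (n : Eis) : ZMod 3) * ch (π i).1 (x : Eis) -
        (V (π i).1 (x : Eis) : ZMod 3) * (ch (π i).1 (n : Eis) + c i) = 0) ↔
        ((e i : ZMod 3) * (∑ i', (padicValInt (p i') x : ZMod 3) *
          (if i' = i then sym (π i).1 (conj (π i).1) else sym (π i).1 (p i' : Eis))) +
        (e i : ZMod 3) * (∑ j, (padicValInt (r j) x : ZMod 3) * sym (π i).1 (r j : Eis)) -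
        (padicValInt (p i) x : ZMod 3) * (ch (π i).1 (n : Eis) + c i) = 0) := by
      intro i
      rw [hVn i, (hSp i).V_int hx, hch x hx hs i, mul_add]
    constructor
    · intro hA
      exact ⟨fun i => (e1 i).1 (hA.sym i), fun hw => (hC9 x hx h3 hs).1 (hA.nine hw)⟩
    · rintro ⟨hA, hB⟩
      exact ⟨hx, h3, hs, fun i => (e1 i).2 (hA i), fun hw => (hC9 x hx h3 hs).2 (hB hw)⟩
  · -- equality modulo cubes
    intro x x' hx hx' hs hs'
    have hmod : ∀ l : ℕ, l.Prime → ∀ u v : ℤ, u ≠ 0 → v ≠ 0 → x * u ^ 3 = x' * v ^ 3 →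
        (padicValInt l x : ZMod 3) = padicValInt l x' := by
      intro l hl u v hu hv huv
      have : Fact l.Prime := ⟨hl⟩
      have e1 := congrArg (padicValInt l) huv
      rw [padicValInt.mul hx (pow_ne_zero _ hu), padicValInt.mul hx' (pow_ne_zero _ hv),
        pow_succ, pow_succ, pow_one, pow_succ, pow_succ, pow_one,
        padicValInt.mul (mul_ne_zero hu hu) hu, padicValInt.mul hu hu,
        padicValInt.mul (mul_ne_zero hv hv) hv, padicValInt.mul hv hv] at e1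
      have e2 := congrArg (fun t : ℕ => (t : ZMod 3)) e1
      push_cast at e2
      have e3 : (3 : ZMod 3) = 0 := by decide
      linear_combination e2 + ((padicValInt l v : ZMod 3) - padicValInt l u) * e3
    constructor
    · rintro ⟨u, v, hu, hv, huv⟩
      exact ⟨fun i => hmod _ (h.pp i) u v hu hv huv, fun j => hmod _ (h.rp j) u v hu hv huv⟩
    · rintro ⟨hA, hB⟩
      have hxx : x * x' ^ 2 ≠ 0 := mul_ne_zero hx (pow_ne_zero _ hx')
      have h3 : ∀ l : ℕ, l.Prime → (padicValInt l x : ZMod 3) = padicValInt l x' →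
          3 ∣ padicValInt l (x * x' ^ 2) := by
        intro l hl he
        have : Fact l.Prime := ⟨hl⟩
        rw [padicValInt.mul hx (pow_ne_zero _ hx'), pow_two, padicValInt.mul hx' hx',
          ← ZMod.natCast_eq_zero_iff]
        push_cast
        rw [he]
        have e3 : (3 : ZMod 3) = 0 := by decide
        linear_combination (padicValInt l x' : ZMod 3) * e3
      obtain ⟨t, ht, hxt⟩ := exists_cube h hxx (by
        intro l hl hd
        rcases (Nat.prime_iff_prime_int.1 hl).dvd_or_dvd hd with h1 | h1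
        · exact hs l hl h1
        · exact hs' l hl ((Nat.prime_iff_prime_int.1 hl).dvd_of_dvd_pow h1))
        (fun i => h3 _ (h.pp i) (hA i)) (fun j => h3 _ (h.rp j) (hB j))
      refine ⟨x', t, hx', ht, ?_⟩
      rw [← hxt]
      ring

end Pool.Agent.PT
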