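import Pool.Agent.PT.Stmts4

/-!
# F2B
-/

namespace Pool.Agent.PT.F2B

open Pool.Agent.Lib_helper18 Pool.Agent.Lib_helper18.Eis Pool.Agent.Lib_helper84.Cub

theorem two_eq (a : ZMod 3) (h : a + a = a) : a = 0 := by
  revert a
  decide

theorem neg_zero' (a : ZMod 3) (h : a + a = 0) : a = 0 := by
  revert a
  decide

theorem prop_zmod : ∀ vb cb vx cx : ZMod 3, vb * cx - vx * cb = 0 → ¬ (vx = 0 ∧ cx = 0) →
    ∃ j : ZMod 3, vb = j * vx ∧ cb = j * cx := by decide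

theorem s_one {π : Eis} {s : Eis → Eis → ZMod 3} {e : ℕ} (h : LSym π s e) {c : Eis}
    (hc : c ≠ 0) : s 1 c = 0 := by
  have h1 := h.mul 1 1 c one_ne_zero one_ne_zero hc
  rw [mul_one] at h1
  exact two_eq _ h1.symm

theorem s_neg {π : Eis} {s : Eis → Eis → ZMod 3} {e : ℕ} (h : LSym π s e) {a c : Eis}
    (ha : a ≠ 0) (hc : c ≠ 0) : s (-a) c = s a c := by
  have h0 : (-1 : Eis) ≠ 0 := neg_ne_zero.2 one_ne_zero
  have h1 := h.mul (-1) (-1) c h0 h0 hc
  rw [neg_mul_neg, mul_one, s_one h hc] at h1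
  have h2 := neg_zero' _ h1.symm
  have h3 := h.mul (-1) a c h0 ha hc
  rw [neg_one_mul, h2, zero_add] at h3
  exact h3

/-- the value of `AS` is multiplied by `j` -/
theorem AS_smul {s : Eis → Eis → ZMod 3} {B x : Eis} {j : ZMod 3} {p q p' q' r : ℤ}
    (h : ∀ y : Eis, y ≠ 0 → s B y = j * s x y) (h1 : Lf p q 1 r ≠ 0) (h2 : Lf p q 2 r ≠ 0)
    (h3 : Lf p' q' 1 r ≠ 0) (h4 : Lf p' q' 2 r ≠ 0) :
    AS s B p q p' q' r = j * AS s x p q p' q' r := by
  unfold AS
  rw [h _ h1, h _ h2, h _ h3, h _ h4]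
  ring

theorem Gf_ne {b x p q p' q' : ℤ} (h : Sol b x p q p' q') :
    Gf p q p' q' 1 ≠ 0 ∧ Gf p q p' q' 2 ≠ 0 := by
  have key : ¬ (q * p' = 0 ∧ p * q' = 0) := by
    rintro ⟨h1, h2⟩
    apply h.n2
    have h3 := h.n1
    have h4 := h.eq
    have h5 : p' ^ 3 + b * q' ^ 3 ≠ 0 := by
      intro h0
      rw [h0, mul_zero] at h4
      exact h3 h4
    rcases mul_eq_zero.1 h1 with h6 | h6
    · rcases mul_eq_zero.1 h2 with h7 | h7
      · exact absurd (by rw [h6, h7]; ring) h3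
      · rw [h6, h7] at h4
        linarith
    · rcases mul_eq_zero.1 h2 with h7 | h7
      · rw [h6, h7]
        ring
      · exact absurd (by rw [h6, h7]; ring) h5
  constructor
  · intro h0
    apply key
    have hre := congrArg Eis.re h0
    have him := congrArg Eis.im h0
    simp only [Gf, pow_one, sub_re, sub_im, mul_re, mul_im, intCast_re, intCast_im, w_re, w_im,
      zero_re, zero_im] at hre him
    constructor <;> linarith
  · intro h0
    apply key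
    have hre := congrArg Eis.re h0
    have him := congrArg Eis.im h0
    simp only [Gf, pow_two, sub_re, sub_im, mul_re, mul_im, intCast_re, intCast_im, w_re, w_im,
      zero_re, zero_im] at hre him
    constructor <;> linarith

theorem Lf_ne {p q r b : ℤ} (hb : ¬ (3 : ℤ) ∣ b) (h : p ^ 3 + b * q ^ 3 ≠ 0)
    (hr : lam ∣ (r : Eis) ^ 3 - (b : Eis)) : Lf p q 1 r ≠ 0 ∧ Lf p q 2 r ≠ 0 := by
  have key : ¬ (p = 0 ∧ q * r = 0) := by
    rintro ⟨h1, h2⟩
    rcases mul_eq_zero.1 h2 with h3 | h3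
    · exact h (by rw [h1, h3]; ring)
    · rw [h3] at hr
      have h4 : lam ∣ (b : Eis) := by
        have h5 : (b : Eis) = -(((0 : ℤ) : Eis) ^ 3 - (b : Eis)) := by
          ext <;> simp [pow_succ]
        rw [h5]
        exact hr.neg_right
      rw [lam_dvd_iff] at h4
      simp only [intCast_re, intCast_im, add_zero] at h4
      exact hb h4
  constructor
  · intro h0
    apply key
    have hre := congrArg Eis.re h0
    have him := congrArg Eis.im h0
    simp only [Lf, pow_one, add_re, add_im, mul_re, mul_im, intCast_re, intCast_im, w_re, w_im,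
      zero_re, zero_im] at hre him
    constructor <;> linarith
  · intro h0
    apply key
    have hre := congrArg Eis.re h0
    have him := congrArg Eis.im h0
    simp only [Lf, pow_two, add_re, add_im, mul_re, mul_im, intCast_re, intCast_im, w_re, w_im,
      zero_re, zero_im] at hre him
    constructor <;> linarith

/-- units modulo `9` -/
theorem units_nine {B x : ℤ} (hB : ¬ (3 : ℤ) ∣ B) (hx : ¬ (3 : ℤ) ∣ x) (h9 : ¬ C9 x) :
    ∃ (ε : ℤ) (j : ℕ), (ε = 1 ∨ ε = -1) ∧ (9 : ℤ) ∣ B - ε * x ^ j := by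
  have hx' : x % 9 = 2 ∨ x % 9 = 4 ∨ x % 9 = 5 ∨ x % 9 = 7 := by
    unfold C9 at h9
    omega
  have hB' : B % 9 = 1 ∨ B % 9 = 2 ∨ B % 9 = 4 ∨ B % 9 = 5 ∨ B % 9 = 7 ∨ B % 9 = 8 := by omega
  have hsq : x * x % 9 = (x % 9) * (x % 9) % 9 := Int.mul_emod x x 9
  have h0 : x ^ 0 = 1 := pow_zero x
  have h1 : x ^ 1 = x := pow_one x
  have h2 : x ^ 2 = x * x := pow_two x
  rcases hx' with hx' | hx' | hx' | hx' <;> rw [hx'] at hsq <;>
    rcases hB' with hB' | hB' | hB' | hB' | hB' | hB' <;>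
    first
      | exact ⟨1, 0, Or.inl rfl, by rw [h0]; omega⟩
      | exact ⟨-1, 0, Or.inr rfl, by rw [h0]; omega⟩
      | exact ⟨1, 1, Or.inl rfl, by rw [h1]; omega⟩
      | exact ⟨-1, 1, Or.inr rfl, by rw [h1]; omega⟩
      | exact ⟨1, 2, Or.inl rfl, by rw [h2]; omega⟩
      | exact ⟨-1, 2, Or.inr rfl, by rw [h2]; omega⟩

theorem s_pow {π : Eis} {s : Eis → Eis → ZMod 3} {e : ℕ} (h : LSym π s e) {a c : Eis}
    (ha : a ≠ 0) (hc : c ≠ 0) (j : ℕ) : s (a ^ j) c = (j : ZMod 3) * s a c := by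
  induction j with
  | zero => rw [pow_zero, s_one h hc, Nat.cast_zero, zero_mul]
  | succ j ih =>
    rw [pow_succ, h.mul _ _ _ (pow_ne_zero j ha) ha hc, ih]
    push_cast
    ring

/-- the functional of `B` is a multiple of the one of `x` at `lam` -/
theorem sl_smul (hSLC : SLC) {B x : ℤ} (hB : ¬ (3 : ℤ) ∣ B) (hx : ¬ (3 : ℤ) ∣ x) (h9 : ¬ C9 x) :
    ∃ j : ZMod 3, ∀ y : Eis, y ≠ 0 → sl (B : Eis) y = j * sl (x : Eis) y := by
  obtain ⟨ε, j, hε, h⟩ := units_nine hB hx h9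
  have hx0 : (x : Eis) ≠ 0 := by
    intro h0
    have h1 := congrArg Eis.re h0
    simp only [intCast_re, zero_re] at h1
    exact hx (by rw [h1]; exact dvd_zero 3)
  have hε0 : (ε : Eis) ≠ 0 := by
    intro h0
    have h1 := congrArg Eis.re h0
    simp only [intCast_re, zero_re] at h1
    omega
  have hlx : ¬ lam ∣ (x : Eis) := by
    rw [lam_dvd_iff]
    simp only [intCast_re, intCast_im, add_zero]
    exact hx
  have hlε : ¬ lam ∣ (ε : Eis) := by
    rw [lam_dvd_iff]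
    simp only [intCast_re, intCast_im, add_zero]
    omega
  refine ⟨(j : ZMod 3), fun y hy => ?_⟩
  have h1 : ¬ lam ∣ (ε : Eis) * (x : Eis) ^ j := by
    intro h2
    rcases prime_lam.dvd_or_dvd h2 with h3 | h3
    · exact hlε h3
    · exact hlx (prime_lam.dvd_of_dvd_pow h3)
  have h2 : lam ^ (V lam ((ε : Eis) * (x : Eis) ^ j) + 4) ∣ (B : Eis) - (ε : Eis) * (x : Eis) ^ j := by
    rw [V_eq_zero h1, zero_add]
    obtain ⟨k, hk⟩ := h
    have h3 : (B : Eis) - (ε : Eis) * (x : Eis) ^ j = ((9 * k : ℤ) : Eis) := by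
      rw [← hk]
      push_cast
      ring
    rw [h3]
    refine ⟨w * (k : Eis), ?_⟩
    have h4 : lam ^ 4 * w = ((9 : ℤ) : Eis) := by
      have h5 : lam ^ 4 * w = lam * lam * lam * lam * w := by ring
      rw [h5]
      rfl
    rw [← mul_assoc, h4, Int.cast_mul]
  rw [hSLC.cont _ _ y (mul_ne_zero hε0 (pow_ne_zero j hx0)) hy h2,
    hSLC.mul _ _ y hε0 (pow_ne_zero j hx0) hy, s_pow hSLC hx0 hy]
  have h3 : sl (ε : Eis) y = 0 := by
    rcases hε with rfl | rfl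
    · rw [Int.cast_one]
      exact s_one hSLC hy
    · rw [Int.cast_neg, Int.cast_one, s_neg hSLC one_ne_zero hy]
      exact s_one hSLC hy
  rw [h3, zero_add]

/-- the functional of `B` is a multiple of the one of `x` at a tame place -/
theorem tm_smul {π : Eis} {B x : Eis} (h : tm π x B = 0)
    (hx : ¬ (3 ∣ V π x ∧ ch π x = 0)) :
    ∃ j : ZMod 3, (∀ y : Eis, tm π B y = j * tm π x y) ∧ ∀ y : Eis, tm π y B = j * tm π y x := by
  have h1 : ¬ ((V π x : ZMod 3) = 0 ∧ ch π x = 0) := by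
    rintro ⟨h2, h3⟩
    exact hx ⟨(ZMod.natCast_eq_zero_iff _ _).1 h2, h3⟩
  obtain ⟨j, hj1, hj2⟩ := prop_zmod (V π B : ZMod 3) (ch π B) (V π x : ZMod 3) (ch π x) h h1
  refine ⟨j, fun y => ?_, fun y => ?_⟩
  · unfold tm
    rw [hj1, hj2]
    ring
  · unfold tm
    rw [hj1, hj2]
    ring

end Pool.Agent.PT.F2B

namespace Pool.Agent.PT

open Pool.Agent.Lib_helper18 Pool.Agent.Lib_helper18.Eis Pool.Agent.Lib_helper84.Cub

theorem F2B_thm (hSTM : STM) (hSPP : SPP) (hSLC : SLC) (hLCI : LCI) (hSCJ : SCJ) (hSREC : SREC)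
    (hSSL : SSL) (hIF2 : IF2) : F2B := by
  intro v B b x p q p' q' hB hb hx hsol hLb hLx
  rcases v with _ | π
  · have h9 : ¬ C9 x := fun h => hLx ((hLCI.2.1 x hx.three).2 h)
    obtain ⟨j, hj⟩ := F2B.sl_smul hSLC hB.three hx.three h9
    obtain ⟨N0, hN0⟩ := hIF2 lam sl 4 hSLC b x p q p' q' hb.ne hx.ne hsol
    refine ⟨N0 + 1, fun r hr => ?_⟩
    have hr1 : lam ^ N0 ∣ (r : Eis) ^ 3 - (b : Eis) := (pow_dvd_pow lam (Nat.le_succ N0)).trans hr
    have hr2 : lam ∣ (r : Eis) ^ 3 - (b : Eis) := (dvd_pow_self lam (Nat.succ_ne_zero N0)).trans hr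
    have hn : p' ^ 3 + b * q' ^ 3 ≠ 0 := by
      intro h0
      have h1 := hsol.eq
      rw [h0, mul_zero] at h1
      exact hsol.n1 h1
    obtain ⟨h1, h2⟩ := F2B.Lf_ne hb.three hsol.n1 hr2
    obtain ⟨h3, h4⟩ := F2B.Lf_ne hb.three hn hr2
    obtain ⟨h5, h6⟩ := F2B.Gf_ne hsol
    have hw : (w : Eis) ≠ 0 := by
      intro h0
      have h7 := congrArg Eis.im h0
      simp at h7
    have hB0 : (B : Eis) ≠ 0 := by
      intro h0
      have h7 := congrArg Eis.re h0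
      simp only [intCast_re, zero_re] at h7
      exact hB.ne h7
    have hx0 : (x : Eis) ≠ 0 := by
      intro h0
      have h7 := congrArg Eis.re h0
      simp only [intCast_re, zero_re] at h7
      exact hx.ne h7
    show AS sl (B : Eis) p q p' q' r =
      sl (B : Eis) (Gf p q p' q' 1) - sl (B : Eis) (Gf p q p' q' 2) + sl w (B : Eis)
    rw [F2B.AS_smul hj h1 h2 h3 h4, hN0 r hr1, hj _ h5, hj _ h6, hSLC.skew _ _ hB0 hw, hj _ hw,
      hSLC.skew _ _ hx0 hw]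
    ring
  · have hLSym : LSym π.1 (tm π.1) 1 := hSTM π.1 π.2.1 (hSPP.2.2.2.1 π).1
    have h1 : ¬ (3 ∣ V π.1 (x : Eis) ∧ ch π.1 (x : Eis) = 0) :=
      fun h => hLx ((hLCI.1 π x hx.ne).2 h)
    obtain ⟨j, hj, hj'⟩ := F2B.tm_smul (hx.sym π) h1
    obtain ⟨N0, hN0⟩ := hIF2 π.1 (tm π.1) 1 hLSym b x p q p' q' hb.ne hx.ne hsol
    refine ⟨N0, fun r hr => ?_⟩
    have h2 := hN0 r hr
    show AS (tm π.1) (B : Eis) p q p' q' r =
      tm π.1 (B : Eis) (Gf p q p' q' 1) - tm π.1 (B : Eis) (Gf p q p' q' 2) + tm π.1 w (B : Eis)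
    have h3 : AS (tm π.1) (B : Eis) p q p' q' r = j * AS (tm π.1) (x : Eis) p q p' q' r := by
      unfold AS
      rw [hj, hj, hj, hj]
      ring
    rw [h3, h2, hj, hj, hj']
    ring

end Pool.Agent.PT
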