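import Pool.Agent.PT.Stmts1

/-!
# F3R: two noncubes at a place dividing `B`
-/

namespace Pool.Agent.PT

open Pool.Agent.Lib_helper18 Pool.Agent.Lib_helper18.Eis Pool.Agent.Lib_helper84.Cub

namespace F3R

theorem not_dvd_three (π : PP) : ¬ π.1 ∣ 3 := by
  intro h
  obtain ⟨π, hp, h1, h2⟩ := π
  have h3 : lam ∣ π := ((dvd_three_iff hp).1 h).symm.dvd
  rw [lam_dvd_iff] at h3
  change π ∣ 3 at h
  omega

theorem pow_dvd_iff {l z : Eis} (hl : Prime l) (hz : z ≠ 0) (k : ℕ) : l ^ k ∣ z ↔ k ≤ V l z :=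
  (fin hl hz).pow_dvd_iff_le_multiplicity

theorem taut {Pa Pb Pc Pd : Prop} (n : ¬ (Pa ∧ Pb ∧ Pc ∧ Pd)) (s1 : Pb → Pc → Pd → Pa)
    (s2 : Pa → Pc → Pd → Pb) (s3 : Pa → Pb → Pd → Pc) (s4 : Pa → Pb → Pc → Pd) (k1 : Pa ∨ Pb)
    (k2 : Pa ∨ Pc) (k3 : Pa ∨ Pd) (k4 : Pb ∨ Pd) (k5 : Pc ∨ Pd) : Pa ∧ Pd ∧ ¬ Pb ∧ ¬ Pc := by
  have a1 : Pa := by
    by_contra h
    exact h (s1 (k1.resolve_left h) (k2.resolve_left h) (k3.resolve_left h))
  have d1 : Pd := by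
    by_contra h
    exact h (s4 a1 (k4.resolve_right h) (k5.resolve_right h))
  exact ⟨a1, d1, fun hb => n ⟨a1, hb, s3 a1 hb d1, d1⟩, fun hc => n ⟨a1, s2 a1 hc d1, hc, d1⟩⟩

/-- Four terms with sum zero whose valuations are known modulo 3. -/
theorem four {l : Eis} (hl : Prime l) {a b c d : Eis} {ra rb rc rd : ZMod 3}
    (h : a + b + c + d = 0) (ha : a ≠ 0 → (V l a : ZMod 3) = ra)
    (hb : b ≠ 0 → (V l b : ZMod 3) = rb) (hc : c ≠ 0 → (V l c : ZMod 3) = rc)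
    (hd : d ≠ 0 → (V l d : ZMod 3) = rd) (h1 : ra ≠ rb) (h2 : ra ≠ rc) (h3 : ra ≠ rd)
    (h4 : rb ≠ rd) (h5 : rc ≠ rd) (h0 : ¬ (a = 0 ∧ b = 0 ∧ c = 0 ∧ d = 0)) :
    b ≠ 0 ∧ c ≠ 0 ∧ V l b = V l c ∧ l ^ (V l b + 1) ∣ a ∧ l ^ (V l b + 1) ∣ d := by
  classical
  have hex : ∃ k : ℕ, ¬ (l ^ (k + 1) ∣ a ∧ l ^ (k + 1) ∣ b ∧ l ^ (k + 1) ∣ c ∧
      l ^ (k + 1) ∣ d) := by
    by_contra hno
    push Not at hno
    have key : ∀ z : Eis, (∀ k : ℕ, l ^ (k + 1) ∣ z) → z = 0 := by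
      intro z hz
      by_contra hz0
      have := (pow_dvd_iff hl hz0 _).1 (hz (V l z))
      omega
    exact h0 ⟨key a fun k => (hno k).1, key b fun k => (hno k).2.1,
      key c fun k => (hno k).2.2.1, key d fun k => (hno k).2.2.2⟩
  obtain ⟨k, hk, hmin⟩ : ∃ k : ℕ, ¬ (l ^ (k + 1) ∣ a ∧ l ^ (k + 1) ∣ b ∧ l ^ (k + 1) ∣ c ∧
      l ^ (k + 1) ∣ d) ∧ (l ^ k ∣ a ∧ l ^ k ∣ b ∧ l ^ k ∣ c ∧ l ^ k ∣ d) := by
    refine ⟨Nat.find hex, Nat.find_spec hex, ?_⟩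
    rcases Nat.eq_zero_or_pos (Nat.find hex) with h6 | h6
    · rw [h6, pow_zero]
      exact ⟨one_dvd _, one_dvd _, one_dvd _, one_dvd _⟩
    · have h7 := Nat.find_min hex (m := Nat.find hex - 1) (by omega)
      rw [not_not, Nat.sub_add_cancel h6] at h7
      exact h7
  have res : ∀ z : Eis, l ^ k ∣ z → ¬ l ^ (k + 1) ∣ z → z ≠ 0 ∧ V l z = k := by
    intro z hz hz'
    have hz0 : z ≠ 0 := by
      rintro rfl
      exact hz' (dvd_zero _)
    rw [pow_dvd_iff hl hz0] at hz hz'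
    exact ⟨hz0, by omega⟩
  obtain ⟨ka, kb, kc, kd⟩ := hmin
  have s1 : l ^ (k + 1) ∣ b → l ^ (k + 1) ∣ c → l ^ (k + 1) ∣ d → l ^ (k + 1) ∣ a := by
    intro p1 p2 p3
    have e : a = -(b + c + d) := by linear_combination h
    rw [e]
    exact ((p1.add p2).add p3).neg_right
  have s2 : l ^ (k + 1) ∣ a → l ^ (k + 1) ∣ c → l ^ (k + 1) ∣ d → l ^ (k + 1) ∣ b := by
    intro p1 p2 p3
    have e : b = -(a + c + d) := by linear_combination h
    rw [e]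
    exact ((p1.add p2).add p3).neg_right
  have s3 : l ^ (k + 1) ∣ a → l ^ (k + 1) ∣ b → l ^ (k + 1) ∣ d → l ^ (k + 1) ∣ c := by
    intro p1 p2 p3
    have e : c = -(a + b + d) := by linear_combination h
    rw [e]
    exact ((p1.add p2).add p3).neg_right
  have s4 : l ^ (k + 1) ∣ a → l ^ (k + 1) ∣ b → l ^ (k + 1) ∣ c → l ^ (k + 1) ∣ d := by
    intro p1 p2 p3
    have e : d = -(a + b + c) := by linear_combination h
    rw [e]
    exact ((p1.add p2).add p3).neg_right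
  have kk : ∀ {y z : Eis} {ry rz : ZMod 3}, (y ≠ 0 → (V l y : ZMod 3) = ry) →
      (z ≠ 0 → (V l z : ZMod 3) = rz) → ry ≠ rz → l ^ k ∣ y → l ^ k ∣ z →
      l ^ (k + 1) ∣ y ∨ l ^ (k + 1) ∣ z := by
    intro y z ry rz hy hz hyz ky kz
    by_contra hno
    rw [not_or] at hno
    obtain ⟨y0, vy⟩ := res y ky hno.1
    obtain ⟨z0, vz⟩ := res z kz hno.2
    apply hyz
    rw [← hy y0, ← hz z0, vy, vz]
  have k1 := kk ha hb h1 ka kb
  have k2 := kk ha hc h2 ka kc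
  have k3 := kk ha hd h3 ka kd
  have k4 := kk hb hd h4 kb kd
  have k5 := kk hc hd h5 kc kd
  obtain ⟨f1, f2, f3, f4⟩ := taut hk s1 s2 s3 s4 k1 k2 k3 k4 k5
  obtain ⟨b0, vb⟩ := res b kb f3
  obtain ⟨c0, vc⟩ := res c kc f4
  exact ⟨b0, c0, by rw [vb, vc], by rw [vb]; exact f1, by rw [vb]; exact f2⟩

theorem ne_zero_cast {z : ℤ} (h : z ≠ 0) : (z : Eis) ≠ 0 := by
  intro h1
  apply h
  have h2 := congrArg Eis.re h1
  simpa using h2

/-- From the valuations of the four terms. -/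
theorem cmp {l : Eis} (hl : Prime l) {A a b c d y z : Eis} (hA : A ≠ 0) (hb : b ≠ 0) (hc : c ≠ 0)
    (hV : V l b = V l c) (ha : l ^ (V l b + 1) ∣ a) (hd : l ^ (V l b + 1) ∣ d)
    (e1 : b * c = A * y ^ 3) (e2 : a * d = A * z ^ 3) : y ≠ 0 ∧ l ^ (V l y + 1) ∣ z := by
  have hy : y ≠ 0 := by
    rintro rfl
    have : b * c = 0 := by rw [e1]; ring
    exact (mul_ne_zero hb hc) this
  refine ⟨hy, ?_⟩
  by_cases hz : z = 0
  · rw [hz]
    exact dvd_zero _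
  · rw [pow_dvd_iff hl hz]
    have h1 : V l (b * c) = V l A + 3 * V l y := by
      rw [e1, V_mul hl hA (pow_ne_zero _ hy), V_pow hl hy]
    rw [V_mul hl hb hc] at h1
    have h2 : V l (A * z ^ 3) = V l A + 3 * V l z := by
      rw [V_mul hl hA (pow_ne_zero _ hz), V_pow hl hz]
    have h3 : l ^ (V l b + 1 + (V l b + 1)) ∣ A * z ^ 3 := by
      rw [← e2, pow_add]
      exact mul_dvd_mul ha hd
    rw [pow_dvd_iff hl (mul_ne_zero hA (pow_ne_zero _ hz)), h2] at h3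
    omega

theorem three_dvd_iff' (n : ℕ) : 3 ∣ n ↔ (n : ZMod 3) = 0 := (ZMod.natCast_eq_zero_iff n 3).symm

theorem ite3 (n : ℕ) (u : ZMod 3) [Decidable (3 ∣ n)] :
    (if 3 ∣ n then u else 0) = if (n : ZMod 3) = 0 then u else 0 :=
  if_congr (three_dvd_iff' n) rfl rfl

theorem fin1 : ∀ v β o : ZMod 3, v ≠ 0 → β ≠ 0 →
    (v + β + β) * o = (if β + v = 0 then -(β * o) else 0) + (if β + v = 0 then -(β * o) else 0) := by
  decide

theorem fin2 : ∀ v β ξ o : ZMod 3, v ≠ 0 → β ≠ 0 → ξ ≠ 0 → β ≠ ξ →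
    v * o + (v + ξ + β) * o =
      (if β + v = 0 then -(ξ * o) else 0) + (if ξ + v = 0 then -(β * o) else 0) := by
  decide

end F3R

open F3R in
theorem F3R_thm (hSTM : STM) : F3R := by
  intro π B b x p q p' q' hB hb hx hs hdvd hVb hVx
  have hπ : Prime π.1 := π.2.1
  have h3 := not_dvd_three π
  have S := hSTM π.1 hπ h3
  have B0 : (B : Eis) ≠ 0 := ne_zero_cast hB.ne
  have b0 : (b : Eis) ≠ 0 := ne_zero_cast hb.ne
  have x0 : (x : Eis) ≠ 0 := ne_zero_cast hx.ne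
  have w0 : w ≠ 0 := isUnit_w.ne_zero
  have Vw : V π.1 w = 0 := V_eq_zero (not_dvd_of_isUnit hπ isUnit_w)
  have tw : ∀ y : Eis, tm π.1 w y = (V π.1 y : ZMod 3) * ch π.1 w := by
    intro y
    unfold tm
    rw [Vw]
    push_cast
    ring
  have hv : (V π.1 (B : Eis) : ZMod 3) ≠ 0 := by
    rw [Ne, ← three_dvd_iff']
    have h1 : V π.1 (B : Eis) ≠ 0 := fun h => V_eq_zero_iff.1 h hdvd
    have h2 := hB.cf π
    omega
  have hβ : (V π.1 (b : Eis) : ZMod 3) ≠ 0 := by rwa [Ne, ← three_dvd_iff']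
  have hξ : (V π.1 (x : Eis) : ZMod 3) ≠ 0 := by rwa [Ne, ← three_dvd_iff']
  have skw : ∀ a c : Eis, tm π.1 a c = - tm π.1 c a := by
    intro a c
    unfold tm
    ring
  have e3 : ∀ n : ℕ, ((3 * n : ℕ) : ZMod 3) = 0 := fun n => (three_dvd_iff' _).1 ⟨n, rfl⟩
  -- the valuations of the four terms
  have c1 : (p : Eis) ^ 3 ≠ 0 → (V π.1 ((p : Eis) ^ 3) : ZMod 3) = 0 := by
    intro h
    have h1 : (p : Eis) ≠ 0 := fun h' => h (by rw [h']; ring)
    rw [V_pow hπ h1, e3]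
  have c2 : (b : Eis) * (q : Eis) ^ 3 ≠ 0 →
      (V π.1 ((b : Eis) * (q : Eis) ^ 3) : ZMod 3) = V π.1 (b : Eis) := by
    intro h
    have h1 : (q : Eis) ≠ 0 := fun h' => h (by rw [h']; ring)
    rw [V_mul hπ b0 (pow_ne_zero _ h1), V_pow hπ h1, Nat.cast_add, e3, add_zero]
  have c3 : -((x : Eis) * (p' : Eis) ^ 3) ≠ 0 →
      (V π.1 (-((x : Eis) * (p' : Eis) ^ 3)) : ZMod 3) = V π.1 (x : Eis) := by
    intro h
    have h1 : (p' : Eis) ≠ 0 := fun h' => h (by rw [h']; ring)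
    rw [V_neg, V_mul hπ x0 (pow_ne_zero _ h1), V_pow hπ h1, Nat.cast_add, e3, add_zero]
  have c4 : -((x : Eis) * (b : Eis) * (q' : Eis) ^ 3) ≠ 0 →
      (V π.1 (-((x : Eis) * (b : Eis) * (q' : Eis) ^ 3)) : ZMod 3) =
        V π.1 (x : Eis) + V π.1 (b : Eis) := by
    intro h
    have h1 : (q' : Eis) ≠ 0 := fun h' => h (by rw [h']; ring)
    rw [V_neg, V_mul hπ (mul_ne_zero x0 b0) (pow_ne_zero _ h1), V_mul hπ x0 b0, V_pow hπ h1,
      Nat.cast_add, e3, add_zero, Nat.cast_add]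
  have heq : (p : Eis) ^ 3 + (b : Eis) * (q : Eis) ^ 3 =
      (x : Eis) * ((p' : Eis) ^ 3 + (b : Eis) * (q' : Eis) ^ 3) := by
    exact_mod_cast congrArg (Int.cast : ℤ → Eis) hs.eq
  have hn1 : (p : Eis) ^ 3 + (b : Eis) * (q : Eis) ^ 3 ≠ 0 := by
    have := ne_zero_cast hs.n1
    push_cast at this
    exact this
  have hG : ∀ i, Gf p q p' q' i = (q : Eis) * p' - w ^ i * p * q' := fun i => rfl
  have hBxb : ((B * x * b : ℤ) : Eis) = (B : Eis) * x * b := by push_cast; ring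
  have hsum : tm π.1 w ((B * x * b : ℤ) : Eis) = ((V π.1 (B : Eis) : ZMod 3) +
      V π.1 (x : Eis) + V π.1 (b : Eis)) * ch π.1 w := by
    rw [tw, hBxb, V_mul hπ (mul_ne_zero B0 x0) b0, V_mul hπ B0 x0]
    push_cast
    ring
  unfold UV
  rw [hsum, tw, tw, ite3, ite3, Nat.cast_add, Nat.cast_add]
  by_cases hj : (V π.1 (b : Eis) : ZMod 3) = V π.1 (x : Eis)
  · obtain ⟨f1, f2, f3, f4, f5⟩ := four hπ (a := (p : Eis) ^ 3) (b := (b : Eis) * (q : Eis) ^ 3)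
      (c := -((x : Eis) * (p' : Eis) ^ 3)) (d := -((x : Eis) * (b : Eis) * (q' : Eis) ^ 3))
      (by linear_combination heq) c1 c2 c3 c4 hβ.symm hξ.symm
      (by
        rw [← hj]
        intro h
        apply hβ
        linear_combination h + (V π.1 (b : Eis) : ZMod 3) * three_zmod)
      (by
        intro h
        apply hξ
        linear_combination -h)
      (by
        intro h
        apply hβ
        linear_combination -h)
      (fun h => hn1 (by rw [h.1, h.2.1, add_zero]))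
    obtain ⟨g1, g2⟩ := cmp hπ (A := -((x : Eis) * b)) (y := (q : Eis) * p') (z := (p : Eis) * q')
      (neg_ne_zero.2 (mul_ne_zero x0 b0)) f1 f2 f3 f4 f5 (by ring) (by ring)
    have hc : ∀ i, tm π.1 (B : Eis) (Gf p q p' q' i) = tm π.1 (B : Eis) ((q : Eis) * p') := by
      intro i
      rw [skw, skw (B : Eis), S.cont ((q : Eis) * p') (Gf p q p' q' i) (B : Eis) g1 B0]
      have e : Gf p q p' q' i - (q : Eis) * p' = (p : Eis) * q' * (-w ^ i) := by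
        rw [hG]
        ring
      rw [e]
      exact Dvd.dvd.mul_right g2 _
    rw [hc, hc, sub_self, zero_add, ← hj]
    exact fin1 _ _ _ hv hβ
  · obtain ⟨f1, f2, f3, f4, f5⟩ := four hπ (a := (b : Eis) * (q : Eis) ^ 3) (b := (p : Eis) ^ 3)
      (c := -((x : Eis) * (b : Eis) * (q' : Eis) ^ 3)) (d := -((x : Eis) * (p' : Eis) ^ 3))
      (by linear_combination heq) c2 c1 c4 c3 hβ
      (by
        intro h
        apply hξ
        linear_combination -h)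
      hj hξ.symm
      (by
        intro h
        apply hβ
        linear_combination h)
      (fun h => hn1 (by rw [h.1, h.2.1, add_zero]))
    obtain ⟨g1, g2⟩ := cmp hπ (A := -((x : Eis) * b)) (y := (p : Eis) * q') (z := (q : Eis) * p')
      (neg_ne_zero.2 (mul_ne_zero x0 b0)) f1 f2 f3 f4 f5 (by ring) (by ring)
    have hc : ∀ i, tm π.1 (B : Eis) (Gf p q p' q' i) =
        -(tm π.1 (w ^ i) (B : Eis) + tm π.1 (-((p : Eis) * q')) (B : Eis)) := by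
      intro i
      have gn : -((p : Eis) * q') ≠ 0 := neg_ne_zero.2 g1
      have wi : w ^ i ≠ 0 := pow_ne_zero _ w0
      have hVi : V π.1 (w ^ i * -((p : Eis) * q')) = V π.1 ((p : Eis) * q') := by
        rw [V_mul hπ wi gn, V_neg, V_eq_zero (not_dvd_of_isUnit hπ (isUnit_w.pow i)), zero_add]
      rw [skw, ← S.mul _ _ _ wi gn B0,
        S.cont (w ^ i * -((p : Eis) * q')) (Gf p q p' q' i) (B : Eis) (mul_ne_zero wi gn) B0]
      have e : Gf p q p' q' i - w ^ i * -((p : Eis) * q') = (q : Eis) * p' := by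
        rw [hG]
        ring
      rw [e, hVi]
      exact g2
    have hw2 : tm π.1 (w ^ 2) (B : Eis) = tm π.1 w (B : Eis) + tm π.1 w (B : Eis) := by
      rw [pow_two, S.mul _ _ _ w0 w0 B0]
    rw [hc, hc, hw2, pow_one, tw]
    have h6 := fin2 _ _ _ (ch π.1 w) hv hβ hξ hj
    rw [← h6]
    ring

end Pool.Agent.PT
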