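import Pool.Agent.PT.Stmts4

/-!
# F3U: the case of two noncubes at a place not dividing `B`
-/

namespace Pool.Agent.PT

open Pool.Agent.Lib_helper18 Pool.Agent.Lib_helper18.Eis Pool.Agent.Lib_helper84.Cub

namespace F3U

/-- `u ^ 3 + b v ^ 3` has no nontrivial zero modulo `l` when `b` is not a cube. -/
theorem noncube {l b : Eis} (hl : Prime l) (h3 : ¬ l ∣ 3) (hb : ¬ l ∣ b) (hs : sym l b ≠ 0)
    {u v : Eis} (h : l ∣ u ^ 3 + b * v ^ 3) : l ∣ u ∧ l ∣ v := by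
  have hv : l ∣ v := by
    by_contra hv
    have hu : ¬ l ∣ u := by
      intro hu
      have h1 : l ∣ b * v ^ 3 := (dvd_add_right (dvd_pow hu (by norm_num))).1 h
      rcases hl.dvd_or_dvd h1 with h2 | h2
      · exact hb h2
      · exact hv (hl.dvd_of_dvd_pow h2)
    apply hs
    have hv3 : ¬ l ∣ v ^ 3 := fun h' => hv (hl.dvd_of_dvd_pow h')
    have hu' : ¬ l ∣ -u := by rwa [dvd_neg]
    have e1 : sym l (b * v ^ 3) = sym l ((-u) ^ 3) := by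
      apply sym_congr
      have e2 : b * v ^ 3 - (-u) ^ 3 = u ^ 3 + b * v ^ 3 := by ring
      rw [e2]
      exact h
    rw [sym_mul hl h3 hb hv3, sym_cube hl h3 hv, sym_cube hl h3 hu', add_zero] at e1
    exact e1
  refine ⟨?_, hv⟩
  have h1 : l ∣ b * v ^ 3 := Dvd.dvd.mul_left (dvd_pow hv (by norm_num)) _
  exact hl.dvd_of_dvd_pow ((dvd_add_left h1).1 h)

/-- The key step: the case where not all four numbers are divisible by `l`. -/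
theorem key {l b x : Eis} (hl : Prime l) (h3 : ¬ l ∣ 3) (hb : ¬ l ∣ b) (hs : sym l b ≠ 0)
    (hx : ¬ l ∣ x) (hxs : sym l x ≠ 0) {p q p' q' : Eis}
    (h : p ^ 3 + b * q ^ 3 = x * (p' ^ 3 + b * q' ^ 3))
    (hn : ¬ (l ∣ p ∧ l ∣ q ∧ l ∣ p' ∧ l ∣ q')) (i : ℕ) : ¬ l ∣ q * p' - w ^ i * p * q' := by
  intro hG
  have hw3 : (w ^ i) ^ 3 = 1 := by
    rw [← pow_mul, mul_comm, pow_mul, w_cube, one_pow]
  have hG3 : l ∣ (q * p') ^ 3 - (p * q') ^ 3 := by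
    have e1 : (q * p') ^ 3 - (p * q') ^ 3 = (q * p') ^ 3 - (w ^ i * p * q') ^ 3 := by
      have e2 : (w ^ i * p * q') ^ 3 = (w ^ i) ^ 3 * (p * q') ^ 3 := by ring
      rw [e2, hw3, one_mul]
    rw [e1]
    exact hG.trans (sub_dvd_pow_sub_pow _ _ 3)
  have h5 : l ∣ (x * p' ^ 3 - p ^ 3) * (p' ^ 3 + b * q' ^ 3) := by
    have e1 : (x * p' ^ 3 - p ^ 3) * (p' ^ 3 + b * q' ^ 3) =
        b * ((q * p') ^ 3 - (p * q') ^ 3) := by
      linear_combination (-(p' ^ 3)) * h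
    rw [e1]
    exact hG3.mul_left _
  rcases hl.dvd_or_dvd h5 with h6 | h6
  · have hx' : ¬ l ∣ -x := by rwa [dvd_neg]
    have hxs' : sym l (-x) ≠ 0 := by rwa [sym_neg hl h3 hx]
    have h7 : l ∣ p ^ 3 + (-x) * p' ^ 3 := by
      have e1 : p ^ 3 + (-x) * p' ^ 3 = -(x * p' ^ 3 - p ^ 3) := by ring
      rw [e1, dvd_neg]
      exact h6
    obtain ⟨h8, h9⟩ := noncube hl h3 hx' hxs' h7
    have h10 : l ∣ b * (q ^ 3 + (-x) * q' ^ 3) := by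
      have e1 : b * (q ^ 3 + (-x) * q' ^ 3) = x * p' ^ 3 - p ^ 3 := by
        linear_combination h
      rw [e1]
      exact h6
    obtain ⟨h11, h12⟩ := noncube hl h3 hx' hxs' ((hl.dvd_or_dvd h10).resolve_left hb)
    exact hn ⟨h8, h11, h9, h12⟩
  · obtain ⟨h8, h9⟩ := noncube hl h3 hb hs h6
    have h10 : l ∣ p ^ 3 + b * q ^ 3 := by
      rw [h]
      exact h6.mul_left _
    obtain ⟨h11, h12⟩ := noncube hl h3 hb hs h10
    exact hn ⟨h11, h12, h8, h9⟩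

/-- The maximal power which divides all four numbers. -/
theorem exists_max {l p q p' q' : Eis} (hl : Prime l) (h : ¬ (p = 0 ∧ q = 0)) :
    ∃ (m : ℕ) (P Q P' Q' : Eis), p = l ^ m * P ∧ q = l ^ m * Q ∧ p' = l ^ m * P' ∧
      q' = l ^ m * Q' ∧ ¬ (l ∣ P ∧ l ∣ Q ∧ l ∣ P' ∧ l ∣ Q') := by
  classical
  have hex : ∃ m : ℕ, ¬ (l ^ (m + 1) ∣ p ∧ l ^ (m + 1) ∣ q ∧ l ^ (m + 1) ∣ p' ∧
      l ^ (m + 1) ∣ q') := by
    by_cases hp : p = 0
    · have hq : q ≠ 0 := fun hq => h ⟨hp, hq⟩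
      exact ⟨V l q, fun h' => (fin hl hq).not_pow_dvd_of_multiplicity_lt (Nat.lt_succ_self _) h'.2.1⟩
    · exact ⟨V l p, fun h' => (fin hl hp).not_pow_dvd_of_multiplicity_lt (Nat.lt_succ_self _) h'.1⟩
  let m := Nat.find hex
  have hm := Nat.find_spec hex
  have hlow : l ^ m ∣ p ∧ l ^ m ∣ q ∧ l ^ m ∣ p' ∧ l ^ m ∣ q' := by
    rcases Nat.eq_zero_or_pos m with h0 | h0
    · rw [h0, pow_zero]
      exact ⟨one_dvd _, one_dvd _, one_dvd _, one_dvd _⟩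
    · have h1 := Nat.find_min hex (m := m - 1) (Nat.sub_lt h0 one_pos)
      have h2 : m - 1 + 1 = m := Nat.sub_add_cancel h0
      rw [not_not, h2] at h1
      exact h1
  obtain ⟨⟨P, hP⟩, ⟨Q, hQ⟩, ⟨P', hP'⟩, ⟨Q', hQ'⟩⟩ := hlow
  refine ⟨m, P, Q, P', Q', hP, hQ, hP', hQ', ?_⟩
  rintro ⟨⟨a, rfl⟩, ⟨b, rfl⟩, ⟨c, rfl⟩, ⟨d, rfl⟩⟩
  apply hm
  change l ^ (m + 1) ∣ p ∧ l ^ (m + 1) ∣ q ∧ l ^ (m + 1) ∣ p' ∧ l ^ (m + 1) ∣ q'
  refine ⟨⟨a, ?_⟩, ⟨b, ?_⟩, ⟨c, ?_⟩, ⟨d, ?_⟩⟩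
  · rw [hP, pow_succ, mul_assoc]
  · rw [hQ, pow_succ, mul_assoc]
  · rw [hP', pow_succ, mul_assoc]
  · rw [hQ', pow_succ, mul_assoc]

theorem ch_eq {l a : Eis} (h : ¬ l ∣ a) : ch l a = sym l a := by
  unfold ch up
  rw [V_eq_zero h, pow_zero]
  congr 1
  exact EuclideanDomain.div_one a

end F3U

theorem F3U_thm (hSTM : STM) : F3U := by
  intro π B b x p q p' q' hB hAb hAx hS hπB hcb hcx
  have hl : Prime π.1 := π.2.1
  have h3 : ¬ π.1 ∣ 3 := by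
    intro h
    have h1 := (dvd_three_iff hl).1 h
    have h2 : lam ∣ π.1 := h1.symm.dvd
    rw [lam_dvd_iff] at h2
    have h4 := π.2.2.1
    have h5 := π.2.2.2
    omega
  have hb : ¬ π.1 ∣ (b : Eis) := hAb.unr π hπB
  have hx : ¬ π.1 ∣ (x : Eis) := hAx.unr π hπB
  rw [F3U.ch_eq hb] at hcb
  rw [F3U.ch_eq hx] at hcx
  have hw : ¬ π.1 ∣ w := not_dvd_of_isUnit hl isUnit_w
  -- the maximal power
  have hpq : ¬ ((p : Eis) = 0 ∧ (q : Eis) = 0) := by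
    rintro ⟨h1, h2⟩
    have h1' : p = 0 := by
      have h4 := congrArg Eis.re h1
      simpa using h4
    have h2' : q = 0 := by
      have h4 := congrArg Eis.re h2
      simpa using h4
    apply hS.n1
    rw [h1', h2']
    ring
  obtain ⟨m, P, Q, P', Q', eP, eQ, eP', eQ', hn⟩ :=
    F3U.exists_max (p' := (p' : Eis)) (q' := (q' : Eis)) hl hpq
  have heq : (p : Eis) ^ 3 + b * (q : Eis) ^ 3 = x * ((p' : Eis) ^ 3 + b * (q' : Eis) ^ 3) := by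
    have h1 : ((p ^ 3 + b * q ^ 3 : ℤ) : Eis) = ((x * (p' ^ 3 + b * q' ^ 3) : ℤ) : Eis) := by
      rw [hS.eq]
    push_cast at h1
    exact h1
  have heq2 : P ^ 3 + (b : Eis) * Q ^ 3 = (x : Eis) * (P' ^ 3 + b * Q' ^ 3) := by
    have h0 : (π.1 ^ m) ^ 3 ≠ 0 := pow_ne_zero _ (pow_ne_zero _ hl.ne_zero)
    apply mul_left_cancel₀ h0
    rw [eP, eQ, eP', eQ'] at heq
    linear_combination heq
  have hV : ∀ i, V π.1 (Gf p q p' q' i) = m + m := by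
    intro i
    have e1 : Gf p q p' q' i = π.1 ^ (m + m) * (Q * P' - w ^ i * P * Q') := by
      unfold Gf
      rw [eP, eQ, eP', eQ', pow_add]
      ring
    rw [e1]
    exact V_pow_mul hl _ (F3U.key hl h3 hb hcb hx hcx heq2 hn i)
  have hVB : V π.1 (B : Eis) = 0 := V_eq_zero hπB
  have hVw : V π.1 w = 0 := V_eq_zero hw
  have hVP : V π.1 ((B * x * b : ℤ) : Eis) = 0 := by
    apply V_eq_zero
    push_cast
    intro h
    rcases hl.dvd_or_dvd h with h1 | h1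
    · rcases hl.dvd_or_dvd h1 with h2 | h2
      · exact hπB h2
      · exact hx h2
    · exact hb h1
  unfold UV tm
  rw [hV 1, hV 2, hVB, hVw, hVP]
  simp

end Pool.Agent.PT
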