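import Pool.Agent.PT.Stmts1

/-!
# Module F5L: the local term of a point at `lam` when `b` is a cube and `x` is not
-/

set_option autoImplicit false

namespace Pool.Agent.PT

open Pool.Agent.Lib_helper18 Pool.Agent.Lib_helper18.Eis Pool.Agent.Lib_helper84.Cub

namespace F5L

theorem three0 (a : ZMod 3) (h : 2 * a = 0) : a = 0 := by
  revert a; decide

theorem eisInt_ne {n : ℤ} (h : n ≠ 0) : (n : Eis) ≠ 0 := by
  intro h0
  have := congrArg Eis.re h0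
  simp at this
  exact h this

/-- the element `g + h w` -/
def E (g h : ℤ) : Eis := (g : Eis) + (h : Eis) * w

theorem E_ne {g h : ℤ} (H : ¬ (g = 0 ∧ h = 0)) : E g h ≠ 0 := by
  intro h0
  apply H
  have h1 := congrArg Eis.re h0
  have h2 := congrArg Eis.im h0
  simp [E] at h1 h2
  exact ⟨h1, h2⟩

theorem E_re (g h : ℤ) : (E g h).re = g := by simp [E]
theorem E_im (g h : ℤ) : (E g h).im = h := by simp [E]

/-- the symbol of `g + h w` and an integer -/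
noncomputable def S (g h N : ℤ) : ZMod 3 := sl (E g h) (N : Eis)

section basic

variable (hS : SSL)
include hS

theorem mulL {a b c : Eis} (ha : a ≠ 0) (hb : b ≠ 0) (hc : c ≠ 0) :
    sl (a * b) c = sl a c + sl b c := hS.1 a b c ha hb hc

theorem skew {a b : Eis} (ha : a ≠ 0) (hb : b ≠ 0) : sl b a = - sl a b := hS.2.1 a b ha hb

theorem mulR {a b c : Eis} (ha : a ≠ 0) (hb : b ≠ 0) (hc : c ≠ 0) :
    sl a (b * c) = sl a b + sl a c := by
  rw [skew hS (mul_ne_zero hb hc) ha, mulL hS hb hc ha, skew hS ha hb, skew hS ha hc]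
  ring

theorem oneL {c : Eis} (hc : c ≠ 0) : sl 1 c = 0 := by
  have h := mulL hS one_ne_zero one_ne_zero hc
  rw [one_mul] at h
  linear_combination -h

theorem negOneL {c : Eis} (hc : c ≠ 0) : sl (-1) c = 0 := by
  have h := mulL hS (neg_ne_zero.2 (one_ne_zero (α := Eis))) (neg_ne_zero.2 one_ne_zero) hc
  rw [neg_one_mul, neg_neg, oneL hS hc] at h
  exact three0 _ (by linear_combination -h)

theorem negL {a c : Eis} (ha : a ≠ 0) (hc : c ≠ 0) : sl (-a) c = sl a c := by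
  rw [← neg_one_mul, mulL hS (neg_ne_zero.2 one_ne_zero) ha hc, negOneL hS hc, zero_add]

theorem negR {a c : Eis} (ha : a ≠ 0) (hc : c ≠ 0) : sl a (-c) = sl a c := by
  rw [skew hS (neg_ne_zero.2 hc) ha, negL hS hc ha, ← skew hS hc ha]

theorem S_mul {g h N M : ℤ} (H : ¬ (g = 0 ∧ h = 0)) (hN : N ≠ 0) (hM : M ≠ 0) :
    S g h (N * M) = S g h N + S g h M := by
  unfold S
  rw [show ((N * M : ℤ) : Eis) = (N : Eis) * (M : Eis) by push_cast; rfl]
  exact mulR hS (E_ne H) (eisInt_ne hN) (eisInt_ne hM)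

theorem S_neg {g h N : ℤ} (H : ¬ (g = 0 ∧ h = 0)) (hN : N ≠ 0) : S g h (-N) = S g h N := by
  unfold S
  rw [show ((-N : ℤ) : Eis) = -(N : Eis) by push_cast; rfl]
  exact negR hS (E_ne H) (eisInt_ne hN)

theorem S_27 {g h N : ℤ} (H : ¬ (g = 0 ∧ h = 0)) (hN : N ≠ 0) :
    S g h (27 * N) = S g h N := by
  have h1 : S g h (3 * (3 * (3 * N))) = S g h 3 + (S g h 3 + (S g h 3 + S g h N)) := by
    rw [S_mul hS H (by norm_num) (by positivity), S_mul hS H (by norm_num) (by positivity),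
      S_mul hS H (by norm_num) hN]
  rw [show 27 * N = 3 * (3 * (3 * N)) by ring, h1]
  have h3 : (3 : ZMod 3) = 0 := rfl
  linear_combination (S g h 3) * h3

end basic

section more

variable (hS : SSL) (hC : SCJ)
include hS hC

omit hS in
theorem int_int {m n : ℤ} (hm : m ≠ 0) (hn : n ≠ 0) : sl (m : Eis) (n : Eis) = 0 :=
  hC.2.2.1 m n hm hn

theorem S_three {g h N : ℤ} (H : ¬ (g = 0 ∧ h = 0)) (hN : N ≠ 0) :
    S (3 * g) (3 * h) N = S g h N := by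
  unfold S
  have h1 : E (3 * g) (3 * h) = ((3 : ℤ) : Eis) * E g h := by
    unfold E; push_cast; ring
  rw [h1, mulL hS (eisInt_ne (by norm_num)) (E_ne H) (eisInt_ne hN),
    int_int hC (by norm_num) hN, zero_add]

end more

section sle

variable (hS : SSL) (hC : SCJ) (hL : SLE)
include hL

theorem S1 {g h N : ℤ} (hg : ¬ (3 : ℤ) ∣ g) (hh : (3 : ℤ) ∣ h) (hN : ¬ (3 : ℤ) ∣ N) :
    S g h N = 0 := by
  have := (hL g h N 0 hN).1 hg hh
  simpa [S, E] using this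

theorem S1' {g h N : ℤ} (hg : ¬ (3 : ℤ) ∣ g) (hh : (3 : ℤ) ∣ h) (hN : ¬ (3 : ℤ) ∣ N) :
    S g h (3 * N) = ((g * (h / 3) : ℤ) : ZMod 3) := by
  have := (hL g h N 1 hN).1 hg hh
  simpa [S, E] using this

theorem S2 {g h N : ℤ} (hg : (3 : ℤ) ∣ g) (hh : ¬ (3 : ℤ) ∣ h) (hN : ¬ (3 : ℤ) ∣ N) :
    S g h N = - wt (N ^ 2) := by
  have := (hL g h N 0 hN).2.1 hg hh
  simpa [S, E] using this

theorem S2' {g h N : ℤ} (hg : (3 : ℤ) ∣ g) (hh : ¬ (3 : ℤ) ∣ h) (hN : ¬ (3 : ℤ) ∣ N) :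
    S g h (3 * N) = - wt (N ^ 2) - ((h * (g / 3) : ℤ) : ZMod 3) := by
  have := (hL g h N 1 hN).2.1 hg hh
  simpa [S, E] using this

theorem S3 {g h N : ℤ} (hh : ¬ (3 : ℤ) ∣ h) (hg : (3 : ℤ) ∣ g - h) (hN : ¬ (3 : ℤ) ∣ N) :
    S g h N = wt (N ^ 2) := by
  have := (hL g h N 0 hN).2.2 hh hg
  simpa [S, E] using this

theorem S3' {g h N : ℤ} (hh : ¬ (3 : ℤ) ∣ h) (hg : (3 : ℤ) ∣ g - h) (hN : ¬ (3 : ℤ) ∣ N) :
    S g h (3 * N) = wt (N ^ 2) - ((h * ((g - h) / 3) : ℤ) : ZMod 3) := by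
  have := (hL g h N 1 hN).2.2 hh hg
  simpa [S, E] using this

end sle

/-! ### arithmetic modulo 9 -/

theorem cast_mul3 (a : ℤ) : (3 : ℤ) ∣ a ↔ 3 * (a : ZMod 9) = 0 := by
  constructor
  · rintro ⟨k, rfl⟩
    push_cast
    rw [← mul_assoc, show (3 * 3 : ZMod 9) = 0 from rfl, zero_mul]
  · intro h
    have h1 : ((3 * a : ℤ) : ZMod 9) = 0 := by push_cast; exact h
    rw [ZMod.intCast_zmod_eq_zero_iff_dvd] at h1
    obtain ⟨k, hk⟩ := h1
    exact ⟨k, by push_cast at hk; omega⟩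

theorem wt_congr {a b : ℤ} (h : (a : ZMod 9) = b) : wt a = wt b := by
  rw [ZMod.intCast_eq_intCast_iff_dvd_sub] at h
  obtain ⟨k, hk⟩ := h
  have h1 : (b - 1) / 3 = (a - 1) / 3 + 3 * k := by push_cast at hk; omega
  unfold wt
  rw [h1]
  push_cast
  have h3 : (3 : ZMod 3) = 0 := rfl
  rw [h3]; ring

theorem wt_sq_congr {a b : ℤ} (h : (a : ZMod 9) = b ∨ (a : ZMod 9) = -b) :
    wt (a ^ 2) = wt (b ^ 2) := by
  apply wt_congr
  push_cast
  rcases h with h | h <;> rw [h] <;> ring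

theorem wt_one_of {N : ℤ} (h : (N : ZMod 9) = 1 ∨ (N : ZMod 9) = -1) : wt (N ^ 2) = 0 := by
  have h1 : wt (N ^ 2) = wt ((1 : ℤ) ^ 2) := wt_sq_congr (by simpa using h)
  rw [h1]
  simp [wt]

theorem ndvd_of_unit {N : ℤ} (h : (N : ZMod 9) = 1 ∨ (N : ZMod 9) = -1) : ¬ (3 : ℤ) ∣ N := by
  rw [cast_mul3]
  rcases h with h | h <;> rw [h] <;> decide

section zero

variable (hS : SSL) (hC : SCJ) (hL : SLE)
include hS hC hL

theorem lam_zero {N : ℤ} (h : (N : ZMod 9) = 1 ∨ (N : ZMod 9) = -1) : sl lam (N : Eis) = 0 := by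
  have hN3 := ndvd_of_unit h
  have hN : N ≠ 0 := fun h0 => hN3 (h0 ▸ dvd_zero _)
  have hNE := eisInt_ne hN
  have hw : w ≠ 0 := fun h0 => by
    have := congrArg Eis.im h0
    simp at this
  have hl : lam ≠ 0 := fun h0 => by
    have := congrArg Eis.re h0
    simp at this
  have h1 : sl w (N : Eis) = 0 := by
    have h2 := S2 hL (g := 0) (h := 1) (N := N) (dvd_zero _) (by decide) hN3
    rw [wt_one_of h] at h2
    simpa [S, E] using h2
  have h3 : sl ((3 : ℤ) : Eis) (N : Eis) = 0 := int_int hC (by norm_num) hN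
  have h4 : ((3 : ℤ) : Eis) = (-1) * (w * (w * (lam * lam))) := rfl
  rw [h4, mulL hS (neg_ne_zero.2 one_ne_zero)
    (mul_ne_zero hw (mul_ne_zero hw (mul_ne_zero hl hl))) hNE,
    mulL hS hw (mul_ne_zero hw (mul_ne_zero hl hl)) hNE,
    mulL hS hw (mul_ne_zero hl hl) hNE, mulL hS hl hl hNE, negOneL hS hNE, h1] at h3
  exact three0 _ (by linear_combination h3)

theorem S_zero_aux {N : ℤ} (hN9 : (N : ZMod 9) = 1 ∨ (N : ZMod 9) = -1) :
    ∀ (n : ℕ) (g h : ℤ), ¬ (g = 0 ∧ h = 0) → g ^ 2 - g * h + h ^ 2 < n → S g h N = 0 := by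
  have hN3 := ndvd_of_unit hN9
  have hN : N ≠ 0 := fun h0 => hN3 (h0 ▸ dvd_zero _)
  have hNE := eisInt_ne hN
  intro n
  induction n with
  | zero =>
    intro g h _ hlt
    exfalso
    push_cast at hlt
    nlinarith [sq_nonneg (g - h), sq_nonneg g, sq_nonneg h]
  | succ n ih =>
    intro g h H hlt
    have hpos : 0 < g ^ 2 - g * h + h ^ 2 := by
      by_cases hg : g = 0
      · have hh : h ≠ 0 := fun hh => H ⟨hg, hh⟩
        subst hg
        have : 0 < h ^ 2 := by positivity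
        linarith
      · have : 0 < g ^ 2 := by positivity
        nlinarith [sq_nonneg (g - 2 * h)]
    push_cast at hlt
    by_cases hg : (3 : ℤ) ∣ g
    · by_cases hh : (3 : ℤ) ∣ h
      · obtain ⟨g', rfl⟩ := hg
        obtain ⟨h', rfl⟩ := hh
        have H' : ¬ (g' = 0 ∧ h' = 0) := by
          rintro ⟨rfl, rfl⟩
          exact H ⟨by ring, by ring⟩
        rw [S_three hS hC H' hN]
        refine ih g' h' H' ?_
        nlinarith
      · rw [S2 hL hg hh hN3, wt_one_of hN9, neg_zero]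
    · by_cases hh : (3 : ℤ) ∣ h
      · exact S1 hL hg hh hN3
      · by_cases hgh : (3 : ℤ) ∣ g - h
        · rw [S3 hL hh hgh hN3, wt_one_of hN9]
        · have hs : (3 : ℤ) ∣ g + h := by
            rcases (by omega : g % 3 = 1 ∨ g % 3 = 2) with h1 | h1 <;>
              rcases (by omega : h % 3 = 1 ∨ h % 3 = 2) with h2 | h2 <;> omega
          obtain ⟨b, hb⟩ := hs
          obtain ⟨a, ha⟩ : ∃ a, g = a + b := ⟨g - b, by ring⟩
          have hh' : h = 2 * b - a := by omega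
          subst ha hh'
          have H' : ¬ (a = 0 ∧ b = 0) := by
            rintro ⟨rfl, rfl⟩
            exact H ⟨by ring, by ring⟩
          have h1 : E (a + b) (2 * b - a) = lam * E a b := by
            ext
            · rw [E_re, mul_re, E_re, E_im, lam_re, lam_im]; ring
            · rw [E_im, mul_im, E_re, E_im, lam_re, lam_im]; ring
          have hl : lam ≠ 0 := fun h0 => by
            have := congrArg Eis.re h0
            simp at this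
          have h2 : S (a + b) (2 * b - a) N = sl lam (N : Eis) + S a b N := by
            unfold S
            rw [h1]
            exact mulL hS hl (E_ne H') hNE
          rw [h2, lam_zero hS hC hL hN9, zero_add]
          refine ih a b H' ?_
          nlinarith

theorem S_zero {g h N : ℤ} (H : ¬ (g = 0 ∧ h = 0))
    (hN9 : (N : ZMod 9) = 1 ∨ (N : ZMod 9) = -1) : S g h N = 0 :=
  S_zero_aux hS hC hL hN9 ((g ^ 2 - g * h + h ^ 2).toNat + 1) g h H (by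
    push_cast
    have := Int.self_le_toNat (g ^ 2 - g * h + h ^ 2)
    linarith)

theorem S_congr {g h N M : ℤ} (H : ¬ (g = 0 ∧ h = 0)) (hM : ¬ (3 : ℤ) ∣ M)
    (hNM : (N : ZMod 9) = M ∨ (N : ZMod 9) = -M) : S g h N = S g h M := by
  have hM0 : M ≠ 0 := fun h0 => hM (h0 ▸ dvd_zero _)
  have hM9 : 3 * (M : ZMod 9) ≠ 0 := fun h0 => hM ((cast_mul3 M).2 h0)
  have hN3 : ¬ (3 : ℤ) ∣ N := by
    intro h0
    rw [cast_mul3] at h0
    rcases hNM with h1 | h1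
    · rw [h1] at h0; exact hM9 h0
    · rw [h1] at h0; apply hM9; linear_combination -h0
  have hN0 : N ≠ 0 := fun h0 => hN3 (h0 ▸ dvd_zero _)
  have hcube : ∀ m : ZMod 9, 3 * m ≠ 0 → m * m ^ 2 = 1 ∨ m * m ^ 2 = -1 := by decide
  have h1 : S g h (N * (M * M)) = 0 := by
    apply S_zero hS hC hL H
    push_cast
    rcases hcube _ hM9 with h2 | h2 <;> rcases hNM with h3 | h3 <;> rw [h3]
    · left; linear_combination h2
    · right; linear_combination -h2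
    · right; linear_combination h2
    · left; linear_combination -h2
  rw [S_mul hS H hN0 (mul_ne_zero hM0 hM0), S_mul hS H hM0 hM0] at h1
  have h3 : (3 : ZMod 3) = 0 := rfl
  linear_combination h1 - (S g h M) * h3

end zero

/-! ### the primitive case -/

theorem dvd_cast {a : ℤ} : (3 : ℤ) ∣ a ↔ (a : ZMod 3) = 0 := by
  rw [ZMod.intCast_zmod_eq_zero_iff_dvd]; norm_num

/-- the constants of a point -/
structure Cst (x X Y : ℤ) (δ c0 c1 : ZMod 3) : Prop where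
  k0 : ∀ u v N : ℤ, ¬ ((3 : ℤ) ∣ u ∧ (3 : ℤ) ∣ v) → v ^ 3 - x * u ^ 3 = N → ¬ (3 : ℤ) ∣ N →
    S (X * u) (v * Y) N - S (X * u) (v * Y) (X ^ 3 + x * Y ^ 3) = δ * wt (N ^ 2) + c0
  k1 : ∀ u v N : ℤ, ¬ ((3 : ℤ) ∣ u ∧ (3 : ℤ) ∣ v) → v ^ 3 - x * u ^ 3 = 3 * N → ¬ (3 : ℤ) ∣ N →
    S (X * u) (v * Y) (3 * N) - S (X * u) (v * Y) (X ^ 3 + x * Y ^ 3) = δ * wt (N ^ 2) + c1

theorem hne {X Y u v : ℤ} (hX : X ≠ 0) (hY : Y ≠ 0) (huv : ¬ ((3 : ℤ) ∣ u ∧ (3 : ℤ) ∣ v)) :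
    ¬ (X * u = 0 ∧ v * Y = 0) := by
  rintro ⟨h1, h2⟩
  have hu : u = 0 := (mul_eq_zero.1 h1).resolve_left hX
  have hv : v = 0 := (mul_eq_zero.1 h2).resolve_right hY
  exact huv ⟨hu ▸ dvd_zero _, hv ▸ dvd_zero _⟩

theorem nd9 {a : ℤ} (h : ¬ (3 : ℤ) ∣ a) : 3 * (a : ZMod 9) ≠ 0 := fun h0 => h ((cast_mul3 a).2 h0)

theorem nd3 {a : ℤ} (h : ¬ (3 : ℤ) ∣ a) : (a : ZMod 3) ≠ 0 := fun h0 => h (dvd_cast.2 h0)

theorem ndmul {a b : ℤ} (ha : ¬ (3 : ℤ) ∣ a) (hb : ¬ (3 : ℤ) ∣ b) : ¬ (3 : ℤ) ∣ a * b :=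
  fun h => (Int.prime_three.dvd_or_dvd h).elim ha hb

/-- in the case `k = 1` both `u` and `v` are units and `v = x u` modulo `3` -/
theorem k1_units {x u v N : ℤ} (hx : ¬ (3 : ℤ) ∣ x) (huv : ¬ ((3 : ℤ) ∣ u ∧ (3 : ℤ) ∣ v))
    (hN : v ^ 3 - x * u ^ 3 = 3 * N) :
    ¬ (3 : ℤ) ∣ u ∧ ¬ (3 : ℤ) ∣ v ∧ (v : ZMod 3) = x * u := by
  have h1 : (v : ZMod 3) ^ 3 - x * (u : ZMod 3) ^ 3 = 0 := by
    have := congrArg (fun n : ℤ => (n : ZMod 3)) hN
    push_cast at this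
    rw [this, show (3 : ZMod 3) = 0 from rfl, zero_mul]
  rw [dvd_cast, dvd_cast] at huv
  rw [dvd_cast, dvd_cast]
  rw [dvd_cast] at hx
  generalize (v : ZMod 3) = a at *
  generalize (x : ZMod 3) = b at *
  generalize (u : ZMod 3) = c at *
  revert a b c
  decide

theorem sq_one {a : ZMod 3} (h : a ≠ 0) : a ^ 2 = 1 := by revert a; decide

section prim

variable (hS : SSL) (hC : SCJ) (hL : SLE)
include hS hC hL

theorem cstA {x X Y1 : ℤ} (hx : ¬ (3 : ℤ) ∣ x) (hX3 : ¬ (3 : ℤ) ∣ X) (hY : Y1 ≠ 0) :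
    Cst x X (3 * Y1) 0 0 ((X * x * Y1 : ℤ) : ZMod 3) := by
  have hX : X ≠ 0 := fun h => hX3 (h ▸ dvd_zero _)
  have hY' : 3 * Y1 ≠ 0 := by positivity
  have c1 : ∀ a : ZMod 9, 3 * a ≠ 0 → a ^ 3 = 1 ∨ a ^ 3 = -1 := by decide
  have hn0 : (((X ^ 3 + x * (3 * Y1) ^ 3 : ℤ)) : ZMod 9) = 1 ∨
      (((X ^ 3 + x * (3 * Y1) ^ 3 : ℤ)) : ZMod 9) = -1 := by
    have h1 : (((X ^ 3 + x * (3 * Y1) ^ 3 : ℤ)) : ZMod 9) = (X : ZMod 9) ^ 3 := by
      push_cast
      have h9 : (9 : ZMod 9) = 0 := rfl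
      linear_combination (3 * (x : ZMod 9) * (Y1 : ZMod 9) ^ 3) * h9
    rw [h1]
    exact c1 _ (nd9 hX3)
  refine ⟨fun u v N huv hN hN3 => ?_, fun u v N huv hN hN3 => ?_⟩
  · have H := hne hX hY' huv
    rw [S_zero hS hC hL H hn0]
    have h0 : S (X * u) (v * (3 * Y1)) N = 0 := by
      by_cases hu : (3 : ℤ) ∣ u
      · apply S_zero hS hC hL H
        have hv : ¬ (3 : ℤ) ∣ v := fun h => huv ⟨hu, h⟩
        obtain ⟨u1, rfl⟩ := hu
        have h1 : (N : ZMod 9) = (v : ZMod 9) ^ 3 := by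
          rw [← hN]
          push_cast
          have h9 : (9 : ZMod 9) = 0 := rfl
          linear_combination (-3 * (x : ZMod 9) * (u1 : ZMod 9) ^ 3) * h9
        rw [h1]
        exact c1 _ (nd9 hv)
      · exact S1 hL (ndmul hX3 hu) ⟨v * Y1, by ring⟩ hN3
    rw [h0]; ring
  · have H := hne hX hY' huv
    obtain ⟨hu, hv, hvx⟩ := k1_units hx huv hN
    rw [S_zero hS hC hL H hn0, S1' hL (ndmul hX3 hu) ⟨v * Y1, by ring⟩ hN3,
      show v * (3 * Y1) = 3 * (v * Y1) by ring, Int.mul_ediv_cancel_left _ (by norm_num)]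
    push_cast
    rw [hvx]
    have hu2 := sq_one (nd3 hu)
    linear_combination ((X : ZMod 3) * x * Y1) * hu2

theorem cstA' {x X1 Y : ℤ} (hx : ¬ (3 : ℤ) ∣ x) (hX : X1 ≠ 0) (hY3 : ¬ (3 : ℤ) ∣ Y) :
    Cst x (3 * X1) Y (-1) (wt (x ^ 2)) (wt (x ^ 2) - ((x * Y * X1 : ℤ) : ZMod 3)) := by
  have hY : Y ≠ 0 := fun h => hY3 (h ▸ dvd_zero _)
  have hX' : 3 * X1 ≠ 0 := by positivity
  have c1 : ∀ a : ZMod 9, 3 * a ≠ 0 → a ^ 3 = 1 ∨ a ^ 3 = -1 := by decide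
  have hn0 : ((((3 * X1) ^ 3 + x * Y ^ 3 : ℤ)) : ZMod 9) = x ∨
      ((((3 * X1) ^ 3 + x * Y ^ 3 : ℤ)) : ZMod 9) = -x := by
    have h1 : ((((3 * X1) ^ 3 + x * Y ^ 3 : ℤ)) : ZMod 9) = x * (Y : ZMod 9) ^ 3 := by
      push_cast
      have h9 : (9 : ZMod 9) = 0 := rfl
      linear_combination (3 * (X1 : ZMod 9) ^ 3) * h9
    rw [h1]
    rcases c1 _ (nd9 hY3) with h | h <;> rw [h] <;> simp
  have hn3 : ¬ (3 : ℤ) ∣ (3 * X1) ^ 3 + x * Y ^ 3 := by
    intro h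
    rw [cast_mul3] at h
    have := nd9 hx
    rcases hn0 with h1 | h1 <;> rw [h1] at h
    · exact this h
    · exact this (by linear_combination -h)
  refine ⟨fun u v N huv hN hN3 => ?_, fun u v N huv hN hN3 => ?_⟩
  · have H := hne hX' hY huv
    by_cases hv : (3 : ℤ) ∣ v
    · have hu : ¬ (3 : ℤ) ∣ u := fun h => huv ⟨h, hv⟩
      have hNx : (N : ZMod 9) = x ∨ (N : ZMod 9) = -x := by
        obtain ⟨v1, rfl⟩ := hv
        have h1 : (N : ZMod 9) = -(x * (u : ZMod 9) ^ 3) := by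
          rw [← hN]
          push_cast
          have h9 : (9 : ZMod 9) = 0 := rfl
          linear_combination (3 * (v1 : ZMod 9) ^ 3) * h9
        rw [h1]
        rcases c1 _ (nd9 hu) with h | h <;> rw [h] <;> simp
      rw [S_congr hS hC hL H hx hNx, S_congr hS hC hL H hx hn0, wt_sq_congr hNx]
      ring
    · have hg : (3 : ℤ) ∣ 3 * X1 * u := ⟨X1 * u, by ring⟩
      rw [S2 hL hg (ndmul hv hY3) hN3, S2 hL hg (ndmul hv hY3) hn3, wt_sq_congr hn0]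
      ring
  · obtain ⟨hu, hv, hvx⟩ := k1_units hx huv hN
    have hg : (3 : ℤ) ∣ 3 * X1 * u := ⟨X1 * u, by ring⟩
    rw [S2' hL hg (ndmul hv hY3) hN3, S2 hL hg (ndmul hv hY3) hn3, wt_sq_congr hn0,
      show 3 * X1 * u = 3 * (X1 * u) by ring, Int.mul_ediv_cancel_left _ (by norm_num)]
    push_cast
    rw [hvx]
    have hu2 := sq_one (nd3 hu)
    linear_combination (-(X1 : ZMod 3) * x * Y) * hu2

omit hS hC in
/-- the value in the case `k = 1`, `X = x Y` modulo `3` -/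
theorem valB {x X Y s y Z u v N : ℤ} (hx : ¬ (3 : ℤ) ∣ x) (hY3 : ¬ (3 : ℤ) ∣ Y)
    (hXs : X = x * Y + 3 * s) (hy : x ^ 2 = 1 + 3 * y) (hZ : (x * y) ^ 2 = 1 + 3 * Z)
    (huv : ¬ ((3 : ℤ) ∣ u ∧ (3 : ℤ) ∣ v)) (hN : v ^ 3 - x * u ^ 3 = 3 * N)
    (hN3 : ¬ (3 : ℤ) ∣ N) : ∃ t : ZMod 3,
    S (X * u) (v * Y) (3 * N) = wt (N ^ 2) - x * Y * s + x * u * t ∧
    wt (N ^ 2) = Z + 2 * x * y * u * t ∧
    (∀ M : ℤ, ¬ (3 : ℤ) ∣ M → S (X * u) (v * Y) M = wt (M ^ 2)) := by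
  obtain ⟨hu, hv, hvx⟩ := k1_units hx huv hN
  obtain ⟨t, ht⟩ : ∃ t, v = x * u + 3 * t := by
    have h1 : (3 : ℤ) ∣ v - x * u := by
      rw [dvd_cast]; push_cast; rw [hvx]; ring
    obtain ⟨t, ht⟩ := h1
    exact ⟨t, by linarith⟩
  obtain ⟨r, hr⟩ : ∃ r, u ^ 2 = 1 + 3 * r := by
    have h1 : (3 : ℤ) ∣ u ^ 2 - 1 := by
      rw [dvd_cast]; push_cast; rw [sq_one (nd3 hu)]; ring
    obtain ⟨r, hr⟩ := h1
    exact ⟨r, by linarith⟩
  have hh3 : ¬ (3 : ℤ) ∣ v * Y := ndmul hv hY3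
  have hgh : (3 : ℤ) ∣ X * u - v * Y := ⟨s * u - t * Y, by rw [hXs, ht]; ring⟩
  have hNval : N = x * y * u ^ 3 + 3 * x ^ 2 * u ^ 2 * t + 9 * (x * u * t ^ 2 + t ^ 3) := by
    have h1 : 3 * N = 3 * (x * y * u ^ 3 + 3 * x ^ 2 * u ^ 2 * t + 9 * (x * u * t ^ 2 + t ^ 3)) := by
      rw [← hN, ht]
      linear_combination (x * u ^ 3) * hy
    linarith
  have hW : N ^ 2 = 1 + 3 * (Z + 3 * ((1 + 3 * Z) * (r + 3 * r ^ 2 + 3 * r ^ 3))
      + 2 * x ^ 3 * y * u ^ 5 * t + 3 * (x ^ 4 * u ^ 4 * t ^ 2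
      + 2 * (x * y * u ^ 3) * (x * u * t ^ 2 + t ^ 3)
      + 6 * (x ^ 2 * u ^ 2 * t) * (x * u * t ^ 2 + t ^ 3)
      + 9 * (x * u * t ^ 2 + t ^ 3) ^ 2)) := by
    have h6 : u ^ 6 = 1 + 9 * (r + 3 * r ^ 2 + 3 * r ^ 3) := by
      have : u ^ 6 = (u ^ 2) ^ 3 := by ring
      rw [this, hr]; ring
    rw [hNval]
    linear_combination (u ^ 6) * hZ + (1 + 3 * Z) * h6
  refine ⟨(t : ZMod 3), ?_, ?_, fun M hM => S3 hL hh3 hgh hM⟩
  · rw [S3' hL hh3 hgh hN3]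
    have h1 : (X * u - v * Y) / 3 = s * u - t * Y := by
      rw [show X * u - v * Y = 3 * (s * u - t * Y) by rw [hXs, ht]; ring,
        Int.mul_ediv_cancel_left _ (by norm_num)]
    rw [h1]
    push_cast
    rw [hvx]
    have hu2 := sq_one (nd3 hu)
    have hY2 := sq_one (nd3 hY3)
    linear_combination (-(x : ZMod 3) * Y * s) * hu2 + ((x : ZMod 3) * u * t) * hY2
  · rw [wt_eq hW]
    push_cast
    have h3 : (3 : ZMod 3) = 0 := rfl
    have hx3 : (x : ZMod 3) ^ 3 = x := by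
      generalize (x : ZMod 3) = a; revert a; decide
    have hu5 : (u : ZMod 3) ^ 5 = u := by
      generalize (u : ZMod 3) = a; revert a; decide
    rw [h3, hx3, hu5]
    ring

theorem cstB {x X Y s y Z : ℤ} (hx : ¬ (3 : ℤ) ∣ x) (hY3 : ¬ (3 : ℤ) ∣ Y) (hX3 : ¬ (3 : ℤ) ∣ X)
    (hXs : X = x * Y + 3 * s) (hy : x ^ 2 = 1 + 3 * y) (hZ : (x * y) ^ 2 = 1 + 3 * Z)
    (hx9 : (x : ZMod 9) = 2 ∨ (x : ZMod 9) = 7) :
    Cst x X Y 0 0 ((Z - x * Y * s : ℤ) : ZMod 3) := by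
  have hX : X ≠ 0 := fun h => hX3 (h ▸ dvd_zero _)
  have hY : Y ≠ 0 := fun h => hY3 (h ▸ dvd_zero _)
  have hn0 : (((X ^ 3 + x * Y ^ 3 : ℤ)) : ZMod 9) = 1 ∨
      (((X ^ 3 + x * Y ^ 3 : ℤ)) : ZMod 9) = -1 := by
    rw [hXs]
    push_cast
    have c1 : ∀ a b c : ZMod 9, (a = 2 ∨ a = 7) → 3 * b ≠ 0 →
        (a * b + 3 * c) ^ 3 + a * b ^ 3 = 1 ∨ (a * b + 3 * c) ^ 3 + a * b ^ 3 = -1 := by decide
    exact c1 _ _ _ hx9 (nd9 hY3)
  have hy1 : (y : ZMod 3) = 1 := by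
    have h1 : (3 : ℤ) ∣ y - 1 := by
      rw [cast_mul3]
      have h2 := congrArg (fun n : ℤ => (n : ZMod 9)) hy
      push_cast at h2 ⊢
      have h3 : (x : ZMod 9) ^ 2 = 4 := by rcases hx9 with h | h <;> rw [h] <;> rfl
      linear_combination -h2 + h3
    rw [dvd_cast] at h1
    push_cast at h1
    linear_combination h1
  refine ⟨fun u v N huv hN hN3 => ?_, fun u v N huv hN hN3 => ?_⟩
  · have H := hne hX hY huv
    rw [S_zero hS hC hL H hn0]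
    have h0 : S (X * u) (v * Y) N = 0 := by
      by_cases hv : (3 : ℤ) ∣ v
      · have hu : ¬ (3 : ℤ) ∣ u := fun h => huv ⟨h, hv⟩
        exact S1 hL (ndmul hX3 hu) (Dvd.dvd.mul_right hv _) hN3
      · apply S_zero hS hC hL H
        have c1 : ∀ a b c : ZMod 9, (a = 2 ∨ a = 7) → 3 * c ≠ 0 → 3 * (c ^ 3 - a * b ^ 3) ≠ 0 →
          c ^ 3 - a * b ^ 3 = 1 ∨ c ^ 3 - a * b ^ 3 = -1 := by decide
        have h1 := nd9 hN3
        rw [← hN] at h1 ⊢
        push_cast at h1 ⊢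
        exact c1 _ _ _ hx9 (nd9 hv) h1
    rw [h0]; ring
  · have H := hne hX hY huv
    obtain ⟨t, h1, h2, -⟩ := valB hL hx hY3 hXs hy hZ huv hN hN3
    rw [S_zero hS hC hL H hn0, h1, h2, hy1]
    push_cast
    have h3 : (3 : ZMod 3) = 0 := rfl
    linear_combination ((x : ZMod 3) * u * t) * h3

theorem cstB' {x X Y s y Z : ℤ} (hx : ¬ (3 : ℤ) ∣ x) (hY3 : ¬ (3 : ℤ) ∣ Y) (hX3 : ¬ (3 : ℤ) ∣ X)
    (hXs : X = x * Y + 3 * s) (hy : x ^ 2 = 1 + 3 * y) (hZ : (x * y) ^ 2 = 1 + 3 * Z)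
    (hx9 : (x : ZMod 9) = 4 ∨ (x : ZMod 9) = 5) :
    Cst x X Y (-1) (wt (x ^ 2)) ((2 * Z - x * Y * s : ℤ) - wt (x ^ 2)) := by
  have hX : X ≠ 0 := fun h => hX3 (h ▸ dvd_zero _)
  have hY : Y ≠ 0 := fun h => hY3 (h ▸ dvd_zero _)
  have hn0 : (((X ^ 3 + x * Y ^ 3 : ℤ)) : ZMod 9) = x ∨
      (((X ^ 3 + x * Y ^ 3 : ℤ)) : ZMod 9) = -x := by
    rw [hXs]
    push_cast
    have c1 : ∀ a b c : ZMod 9, (a = 4 ∨ a = 5) → 3 * b ≠ 0 →
        (a * b + 3 * c) ^ 3 + a * b ^ 3 = a ∨ (a * b + 3 * c) ^ 3 + a * b ^ 3 = -a := by decide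
    exact c1 _ _ _ hx9 (nd9 hY3)
  have hn3 : ¬ (3 : ℤ) ∣ X ^ 3 + x * Y ^ 3 := by
    intro h
    rw [cast_mul3] at h
    have := nd9 hx
    rcases hn0 with h1 | h1 <;> rw [h1] at h
    · exact this h
    · exact this (by linear_combination -h)
  have hy1 : (y : ZMod 3) = 2 := by
    have h1 : (3 : ℤ) ∣ y - 2 := by
      rw [cast_mul3]
      have h2 := congrArg (fun n : ℤ => (n : ZMod 9)) hy
      push_cast at h2 ⊢
      have h3 : (x : ZMod 9) ^ 2 = 7 := by rcases hx9 with h | h <;> rw [h] <;> rfl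
      linear_combination -h2 + h3
    rw [dvd_cast] at h1
    push_cast at h1
    linear_combination h1
  refine ⟨fun u v N huv hN hN3 => ?_, fun u v N huv hN hN3 => ?_⟩
  · have H := hne hX hY huv
    by_cases hu : (3 : ℤ) ∣ u
    · have hv : ¬ (3 : ℤ) ∣ v := fun h => huv ⟨hu, h⟩
      have hg : (3 : ℤ) ∣ X * u := Dvd.dvd.mul_left hu _
      rw [S2 hL hg (ndmul hv hY3) hN3, S2 hL hg (ndmul hv hY3) hn3, wt_sq_congr hn0]
      ring
    · have hNx : (N : ZMod 9) = x ∨ (N : ZMod 9) = -x := by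
        have c1 : ∀ a b c : ZMod 9, (a = 4 ∨ a = 5) → 3 * b ≠ 0 → 3 * (c ^ 3 - a * b ^ 3) ≠ 0 →
          c ^ 3 - a * b ^ 3 = a ∨ c ^ 3 - a * b ^ 3 = -a := by decide
        have h1 := nd9 hN3
        rw [← hN] at h1 ⊢
        push_cast at h1 ⊢
        exact c1 _ _ _ hx9 (nd9 hu) h1
      rw [S_congr hS hC hL H hx hNx, S_congr hS hC hL H hx hn0, wt_sq_congr hNx]
      ring
  · obtain ⟨t, h1, h2, h4⟩ := valB hL hx hY3 hXs hy hZ huv hN hN3
    rw [h4 _ hn3, wt_sq_congr hn0, h1, h2, hy1]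
    push_cast
    have h3 : (3 : ZMod 3) = 0 := rfl
    linear_combination (3 * (x : ZMod 3) * u * t) * h3

theorem exists_cst {x X Y : ℤ} (hx : ¬ (3 : ℤ) ∣ x) (hx9 : ¬ C9 x) (hX : X ≠ 0) (hY : Y ≠ 0)
    (hXY : ¬ ((3 : ℤ) ∣ X ∧ (3 : ℤ) ∣ Y)) (hn : ¬ (3 : ℤ) ∣ X ^ 3 + x * Y ^ 3) :
    ∃ δ c0 c1, Cst x X Y δ c0 c1 := by
  by_cases hY3 : (3 : ℤ) ∣ Y
  · obtain ⟨Y1, rfl⟩ := hY3
    have hX3 : ¬ (3 : ℤ) ∣ X := fun h => hXY ⟨h, Dvd.intro _ rfl⟩
    exact ⟨_, _, _, cstA hS hC hL hx hX3 (by rintro rfl; exact hY (by ring))⟩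
  · by_cases hX3 : (3 : ℤ) ∣ X
    · obtain ⟨X1, rfl⟩ := hX3
      exact ⟨_, _, _, cstA' hS hC hL hx (by rintro rfl; exact hX (by ring)) hY3⟩
    · have h1 : (3 : ℤ) ∣ X - x * Y := by
        rw [dvd_cast] at hn hx hX3 hY3 ⊢
        push_cast at hn ⊢
        generalize (X : ZMod 3) = a at *
        generalize (x : ZMod 3) = b at *
        generalize (Y : ZMod 3) = c at *
        revert a b c
        decide
      obtain ⟨s, hs⟩ := h1
      have hXs : X = x * Y + 3 * s := by linarith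
      obtain ⟨y, hy⟩ : ∃ y, x ^ 2 = 1 + 3 * y := by
        have h1 : (3 : ℤ) ∣ x ^ 2 - 1 := by
          rw [dvd_cast]; push_cast; rw [sq_one (nd3 hx)]; ring
        obtain ⟨r, hr⟩ := h1
        exact ⟨r, by linarith⟩
      have hx9' : (x : ZMod 9) ≠ 1 ∧ (x : ZMod 9) ≠ 8 := by
        unfold C9 at hx9
        push Not at hx9
        constructor
        · intro h
          have h2 : ((x - 1 : ℤ) : ZMod 9) = 0 := by push_cast; rw [h]; ring
          rw [ZMod.intCast_zmod_eq_zero_iff_dvd] at h2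
          apply hx9.1
          push_cast at h2
          omega
        · intro h
          have h2 : ((x - 8 : ℤ) : ZMod 9) = 0 := by push_cast; rw [h]; ring
          rw [ZMod.intCast_zmod_eq_zero_iff_dvd] at h2
          apply hx9.2
          push_cast at h2
          omega
      have hxc : ((x : ZMod 9) = 2 ∨ (x : ZMod 9) = 7) ∨ ((x : ZMod 9) = 4 ∨ (x : ZMod 9) = 5) := by
        have h3 := nd9 hx
        generalize (x : ZMod 9) = a at *
        revert a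
        decide
      have hy3 : ¬ (3 : ℤ) ∣ y := by
        intro h
        rw [cast_mul3] at h
        have h2 := congrArg (fun n : ℤ => (n : ZMod 9)) hy
        push_cast at h2
        rw [h, add_zero] at h2
        have h3 := nd9 hx
        rcases hxc with (h4 | h4) | (h4 | h4) <;> rw [h4] at h2 <;> revert h2 <;> decide
      obtain ⟨Z, hZ⟩ : ∃ Z, (x * y) ^ 2 = 1 + 3 * Z := by
        have h1 : (3 : ℤ) ∣ (x * y) ^ 2 - 1 := by
          rw [dvd_cast]; push_cast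
          have := sq_one (nd3 (ndmul hx hy3))
          push_cast at this
          rw [this]; ring
        obtain ⟨r, hr⟩ := h1
        exact ⟨r, by linarith⟩
      rcases hxc with h4 | h4
      · exact ⟨_, _, _, cstB hS hC hL hx hY3 hX3 hXs hy hZ h4⟩
      · exact ⟨_, _, _, cstB' hS hC hL hx hY3 hX3 hXs hy hZ h4⟩

omit hL in
theorem claim {x X Y : ℤ} {δ c0 c1 : ZMod 3} (hx : ¬ (3 : ℤ) ∣ x) (hx9 : ¬ C9 x) (hX : X ≠ 0)
    (hY : Y ≠ 0) (hn : ¬ (3 : ℤ) ∣ X ^ 3 + x * Y ^ 3) (hc : Cst x X Y δ c0 c1) :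
    ∀ (k : ℕ) (u v N : ℤ), ¬ (3 : ℤ) ∣ N → v ^ 3 - x * u ^ 3 = 3 ^ k * N →
      S (X * u) (v * Y) (3 ^ k * N) - S (X * u) (v * Y) (X ^ 3 + x * Y ^ 3) =
        δ * wt (N ^ 2) + if k % 3 = 0 then c0 else c1 := by
  have hn0 : X ^ 3 + x * Y ^ 3 ≠ 0 := fun h => hn (h ▸ dvd_zero _)
  intro k
  induction k using Nat.strong_induction_on with
  | _ k ih =>
    intro u v N hN3 hN
    have hN0 : N ≠ 0 := fun h => hN3 (h ▸ dvd_zero _)
    by_cases huv : (3 : ℤ) ∣ u ∧ (3 : ℤ) ∣ v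
    · obtain ⟨⟨u1, rfl⟩, v1, rfl⟩ := huv
      have hk : 3 ≤ k := by
        by_contra hk
        push Not at hk
        have h1 : (3 ^ k * 3 ^ (3 - k) : ℤ) = 27 := by
          rw [← pow_add, show k + (3 - k) = 3 by omega]; norm_num
        have h2 : 3 ^ k * N = 3 ^ k * (3 ^ (3 - k) * (v1 ^ 3 - x * u1 ^ 3)) := by
          rw [← hN, ← mul_assoc, h1]; ring
        have h3 : N = 3 ^ (3 - k) * (v1 ^ 3 - x * u1 ^ 3) :=
          mul_left_cancel₀ (pow_ne_zero k (by norm_num)) h2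
        apply hN3
        rw [h3]
        exact Dvd.dvd.mul_right (dvd_pow_self 3 (by omega)) _
      obtain ⟨m, rfl⟩ : ∃ m, k = m + 3 := ⟨k - 3, by omega⟩
      have h1 : v1 ^ 3 - x * u1 ^ 3 = 3 ^ m * N := by
        have : 27 * (v1 ^ 3 - x * u1 ^ 3) = 27 * (3 ^ m * N) := by
          have h2 : (3 * v1) ^ 3 - x * (3 * u1) ^ 3 = 27 * (v1 ^ 3 - x * u1 ^ 3) := by ring
          rw [← h2, hN]; ring
        linarith
      have h2 := ih m (by omega) u1 v1 N hN3 h1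
      have hpos : (3 : ℤ) ^ m * N ≠ 0 := mul_ne_zero (pow_ne_zero m (by norm_num)) hN0
      have H : ¬ (X * u1 = 0 ∧ v1 * Y = 0) := by
        rintro ⟨h3, h4⟩
        have hu : u1 = 0 := (mul_eq_zero.1 h3).resolve_left hX
        have hv : v1 = 0 := (mul_eq_zero.1 h4).resolve_right hY
        rw [hu, hv] at h1
        exact hpos (by rw [← h1]; ring)
      have h5 : (3 : ℤ) ^ (m + 3) * N = 27 * (3 ^ m * N) := by ring
      rw [h5, show X * (3 * u1) = 3 * (X * u1) by ring, show 3 * v1 * Y = 3 * (v1 * Y) by ring,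
        S_three hS hC H (mul_ne_zero (by norm_num) hpos), S_three hS hC H hn0,
        S_27 hS H hpos, h2, show (m + 3) % 3 = m % 3 by omega]
    · rcases Nat.eq_zero_or_pos k with hk | hk
      · subst hk
        have h1 := hc.k0 u v N huv (by simpa using hN) hN3
        simpa using h1
      · have hk1 : k = 1 := by
          by_contra hk1
          obtain ⟨m, rfl⟩ : ∃ m, k = m + 2 := ⟨k - 2, by omega⟩
          have h1 : ((v : ZMod 9) ^ 3 - x * (u : ZMod 9) ^ 3) = 0 := by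
            have h2 := congrArg (fun n : ℤ => (n : ZMod 9)) hN
            push_cast at h2
            rw [h2, pow_add]
            have h9 : (3 : ZMod 9) ^ 2 = 0 := rfl
            rw [h9]; ring
          rw [cast_mul3, cast_mul3] at huv
          have h3 := nd9 hx
          have hx1 : (x : ZMod 9) = 1 ∨ (x : ZMod 9) = 8 := by
            have c1 : ∀ a b c : ZMod 9, 3 * a ≠ 0 → ¬ (3 * b = 0 ∧ 3 * c = 0) →
              c ^ 3 - a * b ^ 3 = 0 → a = 1 ∨ a = 8 := by decide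
            exact c1 _ _ _ h3 huv h1
          apply hx9
          unfold C9
          rcases hx1 with h | h
          · left
            have h2 : ((x - 1 : ℤ) : ZMod 9) = 0 := by push_cast; rw [h]; ring
            rw [ZMod.intCast_zmod_eq_zero_iff_dvd] at h2
            push_cast at h2
            omega
          · right
            have h2 : ((x - 8 : ℤ) : ZMod 9) = 0 := by push_cast; rw [h]; ring
            rw [ZMod.intCast_zmod_eq_zero_iff_dvd] at h2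
            push_cast at h2
            omega
        subst hk1
        have h1 := hc.k1 u v N huv (by simpa using hN) hN3
        simpa using h1

omit hL in
theorem df_eq {X Y u v N : ℤ} (H : ¬ (X * u = 0 ∧ v * Y = 0)) (hN : N ≠ 0) :
    sl (Df X Y u v 1) (N : Eis) = S (X * u) (v * Y) N ∧
    sl (Df X Y u v 2) (N : Eis) = - S (X * u) (v * Y) N := by
  have h1 : Df X Y u v 1 = E (X * u) (v * Y) := by
    unfold Df E; push_cast; ring
  have h2 : Df X Y u v 2 = conj (E (X * u) (v * Y)) := by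
    unfold Df E
    rw [map_add, map_mul, conj_w, conj_intCast, conj_intCast]
    push_cast; ring
  constructor
  · rw [h1]; rfl
  · rw [h2]
    have h3 := hC.2.1 (E (X * u) (v * Y)) (N : Eis) (E_ne H) (eisInt_ne hN)
    rw [conj_intCast] at h3
    exact h3

omit hL in
theorem SV_eq {x p q p' q' X Y : ℤ} (H : ¬ (X * p' = 0 ∧ p * Y = 0))
    (H' : ¬ (X * q' = 0 ∧ q * Y = 0)) (hN : p ^ 3 - x * p' ^ 3 ≠ 0)
    (hN' : x * q' ^ 3 - q ^ 3 ≠ 0) (hn : X ^ 3 + x * Y ^ 3 ≠ 0) :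
    SV sl x p q p' q' X Y =
      2 * (S (X * p') (p * Y) (p ^ 3 - x * p' ^ 3) - S (X * p') (p * Y) (X ^ 3 + x * Y ^ 3)) -
      2 * (S (X * q') (q * Y) (x * q' ^ 3 - q ^ 3) - S (X * q') (q * Y) (X ^ 3 + x * Y ^ 3)) := by
  unfold SV
  rw [(df_eq hS hC H hN).1, (df_eq hS hC H hN).2, (df_eq hS hC H hn).1, (df_eq hS hC H hn).2,
    (df_eq hS hC H' hN').1, (df_eq hS hC H' hN').2, (df_eq hS hC H' hn).1,
    (df_eq hS hC H' hn).2]
  ring

theorem prim_case {b x p q p' q' X Y : ℤ} (hx : ¬ (3 : ℤ) ∣ x) (hb : ¬ (3 : ℤ) ∣ b)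
    (hb9 : (b : ZMod 9) = 1 ∨ (b : ZMod 9) = -1) (hx9 : ¬ C9 x) (hX : X ≠ 0) (hY : Y ≠ 0)
    (hXY : ¬ ((3 : ℤ) ∣ X ∧ (3 : ℤ) ∣ Y)) (hn : ¬ (3 : ℤ) ∣ X ^ 3 + x * Y ^ 3)
    (hN : p ^ 3 - x * p' ^ 3 ≠ 0) (hNN : p ^ 3 - x * p' ^ 3 = b * (x * q' ^ 3 - q ^ 3)) :
    S (X * p') (p * Y) (p ^ 3 - x * p' ^ 3) - S (X * p') (p * Y) (X ^ 3 + x * Y ^ 3) =
    S (X * q') (q * Y) (x * q' ^ 3 - q ^ 3) - S (X * q') (q * Y) (X ^ 3 + x * Y ^ 3) := by
  obtain ⟨δ, c0, c1, hc⟩ := exists_cst hS hC hL hx hx9 hX hY hXY hn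
  obtain ⟨k, N1, hN1, h3N1⟩ : ∃ (k : ℕ) (N1 : ℤ), p ^ 3 - x * p' ^ 3 = 3 ^ k * N1 ∧
      ¬ (3 : ℤ) ∣ N1 := by
    have hf : FiniteMultiplicity (3 : ℤ) (p ^ 3 - x * p' ^ 3) :=
      Int.finiteMultiplicity_iff.2 ⟨by norm_num, hN⟩
    obtain ⟨c, h1, h2⟩ := hf.exists_eq_pow_mul_and_not_dvd
    exact ⟨_, c, h1, h2⟩
  have hdv : (3 : ℤ) ^ k ∣ x * q' ^ 3 - q ^ 3 := by
    have h1 : (3 : ℤ) ^ k ∣ b * (x * q' ^ 3 - q ^ 3) := by
      rw [← hNN, hN1]; exact Dvd.intro _ rfl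
    have hco : IsCoprime ((3 : ℤ) ^ k) b :=
      ((Int.prime_three.coprime_iff_not_dvd).2 hb).pow_left
    exact hco.dvd_of_dvd_mul_left h1
  obtain ⟨M1, hM1⟩ := hdv
  have hbM : N1 = b * M1 := by
    have h1 : (3 : ℤ) ^ k * N1 = 3 ^ k * (b * M1) := by
      rw [← hN1, hNN, hM1]; ring
    exact mul_left_cancel₀ (pow_ne_zero k (by norm_num)) h1
  have hM3 : ¬ (3 : ℤ) ∣ -M1 := by
    intro h
    apply h3N1
    rw [hbM]
    exact Dvd.dvd.mul_left (by simpa using h) _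
  have h1 := claim hS hC hx hx9 hX hY hn hc k p' p N1 h3N1 hN1
  have h2 := claim hS hC hx hx9 hX hY hn hc k q' q (-M1) hM3 (by
    linear_combination -hM1)
  have hMne : x * q' ^ 3 - q ^ 3 ≠ 0 := by
    intro h
    rw [h, mul_zero] at hNN
    exact hN hNN
  have H' : ¬ (X * q' = 0 ∧ q * Y = 0) := by
    rintro ⟨h3, h4⟩
    have hu : q' = 0 := (mul_eq_zero.1 h3).resolve_left hX
    have hv : q = 0 := (mul_eq_zero.1 h4).resolve_right hY
    apply hMne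
    rw [hu, hv]; ring
  have h3 : (3 : ℤ) ^ k * -M1 = -(x * q' ^ 3 - q ^ 3) := by rw [hM1]; ring
  rw [h3, S_neg hS H' hMne] at h2
  rw [← hN1] at h1
  have h4 : wt (N1 ^ 2) = wt ((-M1) ^ 2) := by
    have h5 : (-M1) ^ 2 = M1 ^ 2 := by ring
    rw [h5]
    apply wt_sq_congr
    rw [hbM]
    push_cast
    rcases hb9 with h | h <;> rw [h]
    · left; ring
    · right; ring
  rw [h1, h2, h4]

theorem main_aux {B b x p q p' q' : ℤ} (hB : ¬ (3 : ℤ) ∣ B) (hB0 : B ≠ 0)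
    (hx : ¬ (3 : ℤ) ∣ x) (hb : ¬ (3 : ℤ) ∣ b)
    (hb9 : (b : ZMod 9) = 1 ∨ (b : ZMod 9) = -1) (hx9 : ¬ C9 x)
    (hN : p ^ 3 - x * p' ^ 3 ≠ 0) (hNN : p ^ 3 - x * p' ^ 3 = b * (x * q' ^ 3 - q ^ 3)) :
    ∀ (n : ℕ) (X Y : ℤ), X.natAbs < n → Pt B x X Y →
    S (X * p') (p * Y) (p ^ 3 - x * p' ^ 3) - S (X * p') (p * Y) (X ^ 3 + x * Y ^ 3) =
    S (X * q') (q * Y) (x * q' ^ 3 - q ^ 3) - S (X * q') (q * Y) (X ^ 3 + x * Y ^ 3) := by
  intro n
  induction n with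
  | zero => intro X Y h; omega
  | succ n ih =>
    intro X Y hXn hPt
    obtain ⟨hX, hY, c, hc0, hc⟩ := hPt
    by_cases hXY : (3 : ℤ) ∣ X ∧ (3 : ℤ) ∣ Y
    · obtain ⟨⟨X1, rfl⟩, Y1, rfl⟩ := hXY
      have hX1 : X1 ≠ 0 := by rintro rfl; exact hX (by ring)
      have hY1 : Y1 ≠ 0 := by rintro rfl; exact hY (by ring)
      have h3c : (3 : ℤ) ∣ c := by
        have h1 : (3 : ℤ) ∣ B * c ^ 3 := by
          rw [← hc]
          exact ⟨x * (9 * (X1 ^ 3 + x * Y1 ^ 3)), by ring⟩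
        exact Int.prime_three.dvd_of_dvd_pow ((Int.prime_three.dvd_or_dvd h1).resolve_left hB)
      obtain ⟨c1, rfl⟩ := h3c
      have hc1 : c1 ≠ 0 := by rintro rfl; exact hc0 (by ring)
      have hPt1 : Pt B x X1 Y1 := by
        refine ⟨hX1, hY1, c1, hc1, ?_⟩
        have : 27 * (x * (X1 ^ 3 + x * Y1 ^ 3)) = 27 * (B * c1 ^ 3) := by
          linear_combination hc
        linarith
      have hn1 : X1 ^ 3 + x * Y1 ^ 3 ≠ 0 := by
        obtain ⟨-, -, c2, hc2, hc3⟩ := hPt1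
        intro h0
        rw [h0, mul_zero] at hc3
        exact (mul_ne_zero hB0 (pow_ne_zero 3 hc2)) hc3.symm
      have h1 := ih X1 Y1 (by
        have : (3 * X1).natAbs = 3 * X1.natAbs := by rw [Int.natAbs_mul]; rfl
        have h2 : 0 < X1.natAbs := Int.natAbs_pos.2 hX1
        omega) hPt1
      have hMne : x * q' ^ 3 - q ^ 3 ≠ 0 := by
        intro h
        rw [h, mul_zero] at hNN
        exact hN hNN
      have H : ¬ (X1 * p' = 0 ∧ p * Y1 = 0) := by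
        rintro ⟨h3, h4⟩
        have hu : p' = 0 := (mul_eq_zero.1 h3).resolve_left hX1
        have hv : p = 0 := (mul_eq_zero.1 h4).resolve_right hY1
        apply hN
        rw [hu, hv]; ring
      have H' : ¬ (X1 * q' = 0 ∧ q * Y1 = 0) := by
        rintro ⟨h3, h4⟩
        have hu : q' = 0 := (mul_eq_zero.1 h3).resolve_left hX1
        have hv : q = 0 := (mul_eq_zero.1 h4).resolve_right hY1
        apply hMne
        rw [hu, hv]; ring
      have e1 : (3 * X1) ^ 3 + x * (3 * Y1) ^ 3 = 27 * (X1 ^ 3 + x * Y1 ^ 3) := by ring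
      have hn27 : 27 * (X1 ^ 3 + x * Y1 ^ 3) ≠ 0 := mul_ne_zero (by norm_num) hn1
      rw [e1, show 3 * X1 * p' = 3 * (X1 * p') by ring, show p * (3 * Y1) = 3 * (p * Y1) by ring,
        show 3 * X1 * q' = 3 * (X1 * q') by ring, show q * (3 * Y1) = 3 * (q * Y1) by ring,
        S_three hS hC H hN, S_three hS hC H' hMne, S_three hS hC H hn27,
        S_three hS hC H' hn27, S_27 hS H hn1, S_27 hS H' hn1]
      exact h1
    · refine prim_case hS hC hL hx hb hb9 hx9 hX hY hXY ?_ hN hNN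
      intro h3
      -- then `27` divides `n0`
      have h3c : (3 : ℤ) ∣ c := by
        have h1 : (3 : ℤ) ∣ B * c ^ 3 := by
          rw [← hc]
          exact Dvd.dvd.mul_left h3 _
        exact Int.prime_three.dvd_of_dvd_pow ((Int.prime_three.dvd_or_dvd h1).resolve_left hB)
      obtain ⟨c1, rfl⟩ := h3c
      have h9 : (9 : ℤ) ∣ X ^ 3 + x * Y ^ 3 := by
        have h1 : (9 : ℤ) ∣ x * (X ^ 3 + x * Y ^ 3) := by
          rw [hc]
          exact ⟨B * (3 * c1 ^ 3), by ring⟩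
        have hco : IsCoprime (9 : ℤ) x := by
          have := ((Int.prime_three.coprime_iff_not_dvd).2 hx).pow_left (m := 2)
          simpa using this
        exact hco.dvd_of_dvd_mul_left h1
      have h1 : ((X : ZMod 9) ^ 3 + x * (Y : ZMod 9) ^ 3) = 0 := by
        have h2 : ((X ^ 3 + x * Y ^ 3 : ℤ) : ZMod 9) = 0 :=
          (ZMod.intCast_zmod_eq_zero_iff_dvd _ 9).2 (by exact_mod_cast h9)
        push_cast at h2
        exact h2
      rw [cast_mul3, cast_mul3] at hXY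
      have c1 : ∀ a b c : ZMod 9, 3 * a ≠ 0 → ¬ (3 * b = 0 ∧ 3 * c = 0) →
        b ^ 3 + a * c ^ 3 = 0 → a = 1 ∨ a = 8 := by decide
      apply hx9
      unfold C9
      rcases c1 _ _ _ (nd9 hx) hXY h1 with h | h
      · left
        have h2 : ((x - 1 : ℤ) : ZMod 9) = 0 := by push_cast; rw [h]; ring
        rw [ZMod.intCast_zmod_eq_zero_iff_dvd] at h2
        push_cast at h2
        omega
      · right
        have h2 : ((x - 8 : ℤ) : ZMod 9) = 0 := by push_cast; rw [h]; ring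
        rw [ZMod.intCast_zmod_eq_zero_iff_dvd] at h2
        push_cast at h2
        omega

end prim

end F5L

open F5L in
theorem F5L_thm (hSLE : SLE) (hSCJ : SCJ) (hSSL : SSL) : F5L := by
  intro B b x p q p' q' X Y hB hb hx hsol hPt hb9 hx9
  have hN : p ^ 3 - x * p' ^ 3 ≠ 0 := hsol.n2
  have hNN : p ^ 3 - x * p' ^ 3 = b * (x * q' ^ 3 - q ^ 3) := by
    linear_combination hsol.eq
  have hMne : x * q' ^ 3 - q ^ 3 ≠ 0 := by
    intro h
    rw [h, mul_zero] at hNN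
    exact hN hNN
  obtain ⟨hX, hY, c, hc0, hc⟩ := hPt
  have hn : X ^ 3 + x * Y ^ 3 ≠ 0 := by
    intro h0
    rw [h0, mul_zero] at hc
    exact (mul_ne_zero hB.ne (pow_ne_zero 3 hc0)) hc.symm
  have H : ¬ (X * p' = 0 ∧ p * Y = 0) := by
    rintro ⟨h3, h4⟩
    have hu : p' = 0 := (mul_eq_zero.1 h3).resolve_left hX
    have hv : p = 0 := (mul_eq_zero.1 h4).resolve_right hY
    apply hN
    rw [hu, hv]; ring
  have H' : ¬ (X * q' = 0 ∧ q * Y = 0) := by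
    rintro ⟨h3, h4⟩
    have hu : q' = 0 := (mul_eq_zero.1 h3).resolve_left hX
    have hv : q = 0 := (mul_eq_zero.1 h4).resolve_right hY
    apply hMne
    rw [hu, hv]; ring
  have hb9' : (b : ZMod 9) = 1 ∨ (b : ZMod 9) = -1 := by
    rcases hb9 with h | h
    · left
      have h1 : ((b - 1 : ℤ) : ZMod 9) = 0 :=
        (ZMod.intCast_zmod_eq_zero_iff_dvd _ 9).2 (by push_cast; omega)
      push_cast at h1
      linear_combination h1
    · right
      have h1 : ((b + 1 : ℤ) : ZMod 9) = 0 :=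
        (ZMod.intCast_zmod_eq_zero_iff_dvd _ 9).2 (by push_cast; omega)
      push_cast at h1
      linear_combination h1
  rw [SV_eq hSSL hSCJ H H' hN hMne hn,
    main_aux hSSL hSCJ hSLE hB.three hB.ne hx.three hb.three hb9' hx9 hN hNN
      (X.natAbs + 1) X Y (by omega) ⟨hX, hY, c, hc0, hc⟩]
  ring

end Pool.Agent.PT
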