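import Pool.Agent.PT.Stmts1

/-!
# Module F6R: the local term of a point at a tame place where `x` has valuation prime to `3`
-/

namespace Pool.Agent.PT

open Pool.Agent.Lib_helper18 Pool.Agent.Lib_helper18.Eis Pool.Agent.Lib_helper84.Cub

namespace F6R

variable {π : Eis} {s : Eis → Eis → ZMod 3}

theorem three_smul_zmod (a : ZMod 3) : a + a + a = 0 := by
  revert a; decide

/-- The dominating term determines the symbol. -/
theorem dom (L : LSym π s 1) {a d c : Eis} (ha : a ≠ 0) (hc : c ≠ 0)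
    (hd : d = 0 ∨ V π a < V π d) : s (a + d) c = s a c := by
  apply L.cont a (a + d) c ha hc
  have h1 : a + d - a = d := by ring
  rw [h1]
  rcases hd with rfl | hd
  · exact dvd_zero _
  · exact (pow_dvd_pow π hd).trans (pow_multiplicity_dvd π d)

/-- The dominating term determines the valuation. -/
theorem V_dom (L : LSym π s 1) {a d : Eis} (ha : a ≠ 0) (hd : d = 0 ∨ V π a < V π d) :
    V π (a + d) = V π a := by
  rcases hd with rfl | hd
  · rw [add_zero]
  · rw [add_comm]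
    exact (fin L.prime ha).multiplicity_add_of_gt hd

theorem cube_left (L : LSym π s 1) {a c : Eis} (ha : a ≠ 0) (hc : c ≠ 0) : s (a ^ 3) c = 0 := by
  have h1 : a ^ 3 = a * a * a := by ring
  rw [h1, L.mul _ _ _ (mul_ne_zero ha ha) ha hc, L.mul _ _ _ ha ha hc]
  exact three_smul_zmod _

theorem neg_left (L : LSym π s 1) {a c : Eis} (ha : a ≠ 0) (hc : c ≠ 0) : s (-a) c = s a c := by
  have h1 : -a = (-1) ^ 3 * a := by ring
  have h2 : ((-1 : Eis)) ≠ 0 := neg_ne_zero.mpr one_ne_zero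
  rw [h1, L.mul _ _ _ (pow_ne_zero _ h2) ha hc, cube_left L h2 hc, zero_add]

theorem neg_right (L : LSym π s 1) {a c : Eis} (ha : a ≠ 0) (hc : c ≠ 0) : s c (-a) = s c a := by
  rw [L.skew _ _ (neg_ne_zero.mpr ha) hc, neg_left L ha hc, ← L.skew _ _ ha hc]

theorem V_w (hπ : Prime π) (i : ℕ) {y : Eis} (hy : y ≠ 0) : V π (w ^ i * y) = V π y := by
  apply V_mul_not_dvd hπ _ hy
  intro h
  exact not_dvd_w hπ (hπ.dvd_of_dvd_pow h)

theorem w_ne : (w : Eis) ≠ 0 := by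
  intro h
  have := congrArg Eis.im h
  simp at this

theorem cast_ne {n : ℤ} (h : n ≠ 0) : (n : Eis) ≠ 0 := by
  intro h'
  apply h
  have := congrArg Eis.re h'
  simpa using this

theorem not_dvd_three (π : PP) : ¬ π.1 ∣ 3 := by
  rintro ⟨c, hc⟩
  obtain ⟨h1, h2, h3⟩ := π.2
  have h4 : (9 : ℤ) = π.1.norm * c.norm := by
    rw [← norm_mul, ← hc]
    decide
  have h5 : π.1.norm % 3 = 1 := by
    obtain ⟨k, hk⟩ := h3
    rw [norm_def, hk]
    have h6 : π.1.re ^ 2 - π.1.re * (3 * k) + (3 * k) ^ 2 =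
        π.1.re * π.1.re + 3 * (3 * k ^ 2 - π.1.re * k) := by ring
    rw [h6, Int.add_mul_emod_self_left, Int.mul_emod, h2]
    norm_num
  have h6 : 0 < π.1.norm := norm_pos h1.ne_zero
  have h7 : π.1.norm ∣ 9 := ⟨_, h4⟩
  have h8 : π.1.norm ≤ 9 := Int.le_of_dvd (by norm_num) h7
  apply h1.not_isUnit
  rw [isUnit_iff_norm]
  generalize π.1.norm = t at *
  interval_cases t <;> omega

/-- `v ^ 3` dominates in `v ^ 3 - x u ^ 3`. -/
def DA (π : Eis) (x u v : ℤ) : Prop :=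
  v ≠ 0 ∧ (u = 0 ∨ 3 * V π (v : Eis) < V π (x : Eis) + 3 * V π (u : Eis))

/-- `x u ^ 3` dominates in `v ^ 3 - x u ^ 3`. -/
def DB (π : Eis) (x u v : ℤ) : Prop :=
  u ≠ 0 ∧ (v = 0 ∨ V π (x : Eis) + 3 * V π (u : Eis) < 3 * V π (v : Eis))

theorem cases_uv {x u v : ℤ} (h3 : ¬ 3 ∣ V π (x : Eis)) (huv : ¬ (u = 0 ∧ v = 0)) :
    DA π x u v ∨ DB π x u v := by
  by_cases hu : u = 0
  · left
    exact ⟨fun hv => huv ⟨hu, hv⟩, Or.inl hu⟩
  · by_cases hv : v = 0
    · right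
      exact ⟨hu, Or.inl hv⟩
    · rcases lt_trichotomy (3 * V π (v : Eis)) (V π (x : Eis) + 3 * V π (u : Eis)) with h | h | h
      · left
        exact ⟨hv, Or.inr h⟩
      · exfalso
        apply h3
        omega
      · right
        exact ⟨hu, Or.inr h⟩

theorem V_xu (hπ : Prime π) {x u : ℤ} (hx : x ≠ 0) (hu : u ≠ 0) :
    V π ((x : Eis) * (u : Eis) ^ 3) = V π (x : Eis) + 3 * V π (u : Eis) := by
  rw [V_mul hπ (cast_ne hx) (pow_ne_zero _ (cast_ne hu)), V_pow hπ (cast_ne hu)]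

/-- the symbol when `v ^ 3` dominates -/
theorem sym_DA (L : LSym π s 1) {x u v : ℤ} (hx : x ≠ 0) (h : DA π x u v) {D : Eis}
    (hD : D ≠ 0) (hM : v ^ 3 - x * u ^ 3 ≠ 0) : s D ((v ^ 3 - x * u ^ 3 : ℤ) : Eis) = 0 := by
  have h1 : ((v ^ 3 - x * u ^ 3 : ℤ) : Eis) = (v : Eis) ^ 3 + -((x : Eis) * (u : Eis) ^ 3) := by
    push_cast
    ring
  have hv := cast_ne h.1
  rw [L.skew _ _ (cast_ne hM) hD, h1, dom L (pow_ne_zero _ hv) hD, cube_left L hv hD, neg_zero]
  rcases h.2 with rfl | h2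
  · left
    push_cast
    ring
  · by_cases hu : u = 0
    · left
      rw [hu]
      push_cast
      ring
    · right
      rw [V_neg, V_xu L.prime hx hu, V_pow L.prime hv]
      exact h2

/-- the symbol when `x u ^ 3` dominates -/
theorem sym_DB (L : LSym π s 1) {x u v : ℤ} (hx : x ≠ 0) (h : DB π x u v) {D : Eis}
    (hD : D ≠ 0) (hM : v ^ 3 - x * u ^ 3 ≠ 0) :
    s D ((v ^ 3 - x * u ^ 3 : ℤ) : Eis) = s D (x : Eis) := by
  have h1 : ((v ^ 3 - x * u ^ 3 : ℤ) : Eis) = -((x : Eis) * (u : Eis) ^ 3) + (v : Eis) ^ 3 := by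
    push_cast
    ring
  have hu := cast_ne h.1
  have hx' := cast_ne hx
  have hxu : (x : Eis) * (u : Eis) ^ 3 ≠ 0 := mul_ne_zero hx' (pow_ne_zero _ hu)
  rw [L.skew _ _ (cast_ne hM) hD, h1, dom L (neg_ne_zero.mpr hxu) hD, neg_left L hxu hD,
    L.mul _ _ _ hx' (pow_ne_zero _ hu) hD, cube_left L hu hD, add_zero, ← L.skew _ _ hx' hD]
  rcases h.2 with hv | h2
  · left
    rw [hv]
    push_cast
    ring
  · by_cases hv : v = 0
    · left
      rw [hv]
      push_cast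
      ring
    · right
      rw [V_neg, V_xu L.prime hx h.1, V_pow L.prime (cast_ne hv)]
      exact h2

theorem Df_ne {X Y u v : ℤ} (hX : X ≠ 0) (hY : Y ≠ 0) (huv : ¬ (u = 0 ∧ v = 0)) :
    Df X Y u v 1 ≠ 0 ∧ Df X Y u v 2 ≠ 0 := by
  constructor
  · intro h
    have h1 := congrArg Eis.re h
    have h2 := congrArg Eis.im h
    simp [Df] at h1 h2
    apply huv
    constructor
    · rcases h1 with h1 | h1
      · exact absurd h1 hX
      · exact h1
    · rcases h2 with h2 | h2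
      · exact h2
      · exact absurd h2 hY
  · intro h
    have h1 := congrArg Eis.re h
    have h2 := congrArg Eis.im h
    simp [Df, w_sq] at h1 h2
    apply huv
    have hv : v = 0 := by
      rcases h2 with h2 | h2
      · exact h2
      · exact absurd h2 hY
    rw [hv] at h1
    simp at h1
    refine ⟨?_, hv⟩
    rcases h1 with h1 | h1
    · exact absurd h1 hX
    · exact h1

/-- one half of `SV` -/
def half (s : Eis → Eis → ZMod 3) (X Y u v M n : ℤ) : ZMod 3 :=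
  s (Df X Y u v 1) (M : Eis) - s (Df X Y u v 2) (M : Eis) - s (Df X Y u v 1) (n : Eis) +
    s (Df X Y u v 2) (n : Eis)

theorem V_mul' (hπ : Prime π) {u v : ℤ} (hu : u ≠ 0) (hv : v ≠ 0) :
    V π ((u : Eis) * (v : Eis)) = V π (u : Eis) + V π (v : Eis) :=
  V_mul hπ (cast_ne hu) (cast_ne hv)

theorem n_eq (x X Y : ℤ) : ((X ^ 3 + x * Y ^ 3 : ℤ) : Eis) =
    (X : Eis) ^ 3 + (x : Eis) * (Y : Eis) ^ 3 := by
  push_cast
  ring

theorem n_eq' (x X Y : ℤ) : ((X ^ 3 + x * Y ^ 3 : ℤ) : Eis) =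
    (x : Eis) * (Y : Eis) ^ 3 + (X : Eis) ^ 3 := by
  push_cast
  ring

/-- Case A: `X ^ 3` dominates in `n₀`. -/
theorem half_caseA (L : LSym π s 1) {x X Y u v M : ℤ} (hx : x ≠ 0) (hX : X ≠ 0) (hY : Y ≠ 0)
    (h3 : ¬ 3 ∣ V π (x : Eis)) (hM : v ^ 3 - x * u ^ 3 ≠ 0)
    (hMs : M = v ^ 3 - x * u ^ 3 ∨ M = -(v ^ 3 - x * u ^ 3))
    (hA : 3 * V π (X : Eis) < V π (x : Eis) + 3 * V π (Y : Eis))
    (hn : X ^ 3 + x * Y ^ 3 ≠ 0) : half s X Y u v M (X ^ 3 + x * Y ^ 3) = 0 := by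
  have huv : ¬ (u = 0 ∧ v = 0) := by
    rintro ⟨rfl, rfl⟩
    apply hM
    ring
  obtain ⟨hD1, hD2⟩ := Df_ne hX hY huv
  have hMM : ∀ D : Eis, D ≠ 0 → s D (M : Eis) = s D ((v ^ 3 - x * u ^ 3 : ℤ) : Eis) := by
    intro D hD
    rcases hMs with rfl | rfl
    · rfl
    · rw [Int.cast_neg]
      exact neg_right L (cast_ne hM) hD
  have hn0 : ∀ D : Eis, D ≠ 0 → s D ((X ^ 3 + x * Y ^ 3 : ℤ) : Eis) = 0 := by
    intro D hD
    have hX' := cast_ne hX
    rw [L.skew _ _ (cast_ne hn) hD, n_eq, dom L (pow_ne_zero _ hX') hD, cube_left L hX' hD,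
      neg_zero]
    right
    rw [V_pow L.prime hX', V_xu L.prime hx hY]
    exact hA
  unfold half
  rw [hn0 _ hD1, hn0 _ hD2, hMM _ hD1, hMM _ hD2]
  rcases cases_uv h3 huv with h | h
  · rw [sym_DA L hx h hD1 hM, sym_DA L hx h hD2 hM]
    ring
  · rw [sym_DB L hx h hD1 hM, sym_DB L hx h hD2 hM]
    have hu := h.1
    have hXu : (X : Eis) * (u : Eis) ≠ 0 := mul_ne_zero (cast_ne hX) (cast_ne hu)
    have hs : ∀ i : ℕ, s (Df X Y u v i) (x : Eis) = s ((X : Eis) * (u : Eis)) (x : Eis) := by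
      intro i
      unfold Df
      apply dom L hXu (cast_ne hx)
      rcases h.2 with hv | h2
      · left
        rw [hv]
        push_cast
        ring
      · by_cases hv : v = 0
        · left
          rw [hv]
          push_cast
          ring
        · right
          rw [mul_assoc, V_w L.prime i (mul_ne_zero (cast_ne hv) (cast_ne hY)),
            V_mul' L.prime hX hu, V_mul' L.prime hv hY]
          omega
    rw [hs 1, hs 2]
    ring

/-- Case B: `x Y ^ 3` dominates in `n₀`. -/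
theorem half_caseB (L : LSym π s 1) {x X Y u v M : ℤ} (hx : x ≠ 0) (hX : X ≠ 0) (hY : Y ≠ 0)
    (hM : v ^ 3 - x * u ^ 3 ≠ 0)
    (hMs : M = v ^ 3 - x * u ^ 3 ∨ M = -(v ^ 3 - x * u ^ 3))
    (hB : V π (x : Eis) + 3 * V π (Y : Eis) < 3 * V π (X : Eis))
    (hn : X ^ 3 + x * Y ^ 3 ≠ 0) :
    (DA π x u v → half s X Y u v M (X ^ 3 + x * Y ^ 3) = s w (x : Eis)) ∧
    (DB π x u v → half s X Y u v M (X ^ 3 + x * Y ^ 3) = 0) := by
  have huv : ¬ (u = 0 ∧ v = 0) := by
    rintro ⟨rfl, rfl⟩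
    apply hM
    ring
  obtain ⟨hD1, hD2⟩ := Df_ne hX hY huv
  have hx' := cast_ne hx
  have hY' := cast_ne hY
  have hMM : ∀ D : Eis, D ≠ 0 → s D (M : Eis) = s D ((v ^ 3 - x * u ^ 3 : ℤ) : Eis) := by
    intro D hD
    rcases hMs with rfl | rfl
    · rfl
    · rw [Int.cast_neg]
      exact neg_right L (cast_ne hM) hD
  have hn0 : ∀ D : Eis, D ≠ 0 → s D ((X ^ 3 + x * Y ^ 3 : ℤ) : Eis) = s D (x : Eis) := by
    intro D hD
    have hxY : (x : Eis) * (Y : Eis) ^ 3 ≠ 0 := mul_ne_zero hx' (pow_ne_zero _ hY')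
    rw [L.skew _ _ (cast_ne hn) hD, n_eq', dom L hxY hD, L.mul _ _ _ hx' (pow_ne_zero _ hY') hD,
      cube_left L hY' hD, add_zero, ← L.skew _ _ hx' hD]
    right
    rw [V_pow L.prime (cast_ne hX), V_xu L.prime hx hY]
    exact hB
  unfold half
  rw [hn0 _ hD1, hn0 _ hD2, hMM _ hD1, hMM _ hD2]
  constructor
  · intro h
    rw [sym_DA L hx h hD1 hM, sym_DA L hx h hD2 hM]
    have hv := h.1
    have hv' := cast_ne hv
    have hw : ∀ i : ℕ, (w : Eis) ^ i ≠ 0 := fun i => pow_ne_zero _ w_ne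
    have hs : ∀ i : ℕ, s (Df X Y u v i) (x : Eis) =
        s (w ^ i) (x : Eis) + s (v : Eis) (x : Eis) + s (Y : Eis) (x : Eis) := by
      intro i
      have h1 : Df X Y u v i = w ^ i * (v : Eis) * (Y : Eis) + (X : Eis) * (u : Eis) := by
        unfold Df
        ring
      rw [h1, dom L (mul_ne_zero (mul_ne_zero (hw i) hv') hY') hx',
        L.mul _ _ _ (mul_ne_zero (hw i) hv') hY' hx', L.mul _ _ _ (hw i) hv' hx']
      rcases h.2 with hu | h2
      · left
        rw [hu]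
        push_cast
        ring
      · by_cases hu : u = 0
        · left
          rw [hu]
          push_cast
          ring
        · right
          rw [mul_assoc, V_w L.prime i (mul_ne_zero hv' hY'),
            V_mul' L.prime hX hu, V_mul' L.prime hv hY]
          omega
    have hw1 : s ((w : Eis) ^ 1) (x : Eis) = s w (x : Eis) := by rw [pow_one]
    have hw2 : s ((w : Eis) ^ 2) (x : Eis) = s w (x : Eis) + s w (x : Eis) := by
      rw [pow_two, L.mul _ _ _ w_ne w_ne hx']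
    rw [hs 1, hs 2, hw1, hw2]
    ring
  · intro h
    rw [sym_DB L hx h hD1 hM, sym_DB L hx h hD2 hM]
    ring

end F6R

theorem F6R_thm (hSTM : STM) : F6R := by
  intro π b x p q p' q' X Y hb hx hSol hX hY h3
  have hSPPp : Prime π.1 := π.2.1
  have hπ3 : ¬ π.1 ∣ 3 := F6R.not_dvd_three π
  have L : LSym π.1 (tm π.1) 1 := hSTM π.1 hSPPp hπ3
  set s := tm π.1 with hs
  have hN1 := hSol.n2
  have hbN : b * (x * q' ^ 3 - q ^ 3) = p ^ 3 - x * p' ^ 3 := by
    have h1 := hSol.eq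
    linear_combination -h1
  have hN2 : x * q' ^ 3 - q ^ 3 ≠ 0 := by
    intro h
    apply hN1
    rw [← hbN, h, mul_zero]
  have hN2' : q ^ 3 - x * q' ^ 3 ≠ 0 := by
    intro h
    apply hN2
    linear_combination -h
  have hn : X ^ 3 + x * Y ^ 3 ≠ 0 := by
    intro h
    apply h3
    have h1 : (X : Eis) ^ 3 = -((x : Eis) * (Y : Eis) ^ 3) := by
      have h2 : ((X ^ 3 + x * Y ^ 3 : ℤ) : Eis) = ((0 : ℤ) : Eis) := by rw [h]
      push_cast at h2
      linear_combination h2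
    have h2 := congrArg (V π.1) h1
    rw [V_neg, V_pow L.prime (F6R.cast_ne hX), F6R.V_xu L.prime hx hY] at h2
    omega
  have hSV : SV s x p q p' q' X Y =
      F6R.half s X Y p' p (p ^ 3 - x * p' ^ 3) (X ^ 3 + x * Y ^ 3) -
        F6R.half s X Y q' q (x * q' ^ 3 - q ^ 3) (X ^ 3 + x * Y ^ 3) := rfl
  have hX' := F6R.cast_ne hX
  have hY' := F6R.cast_ne hY
  have hx' := F6R.cast_ne hx
  have hb' := F6R.cast_ne hb
  have hxY : (x : Eis) * (Y : Eis) ^ 3 ≠ 0 := mul_ne_zero hx' (pow_ne_zero _ hY')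
  rcases lt_trichotomy (3 * V π.1 (X : Eis)) (V π.1 (x : Eis) + 3 * V π.1 (Y : Eis)) with
    hA | hE | hB
  · -- case A
    have hV : V π.1 ((X ^ 3 + x * Y ^ 3 : ℤ) : Eis) = 3 * V π.1 (X : Eis) := by
      rw [F6R.n_eq, F6R.V_dom L (pow_ne_zero _ hX'), V_pow L.prime hX']
      right
      rw [V_pow L.prime hX', F6R.V_xu L.prime hx hY]
      exact hA
    refine ⟨fun _ => ?_, fun h => absurd (by rw [hV]; exact dvd_mul_right 3 _) h⟩
    rw [hSV, F6R.half_caseA L hx hX hY h3 hN1 (Or.inl rfl) hA hn,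
      F6R.half_caseA L hx hX hY h3 hN2' (Or.inr (by ring)) hA hn, sub_zero]
  · exfalso
    apply h3
    omega
  · -- case B
    have hV : V π.1 ((X ^ 3 + x * Y ^ 3 : ℤ) : Eis) =
        V π.1 (x : Eis) + 3 * V π.1 (Y : Eis) := by
      rw [F6R.n_eq', F6R.V_dom L hxY, F6R.V_xu L.prime hx hY]
      right
      rw [V_pow L.prime hX', F6R.V_xu L.prime hx hY]
      exact hB
    refine ⟨fun h => absurd ?_ h3, fun _ => ?_⟩
    · rw [hV] at h
      exact (Nat.dvd_add_left (dvd_mul_right 3 _)).mp h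
    · have huv1 : ¬ (p' = 0 ∧ p = 0) := by
        rintro ⟨rfl, rfl⟩
        apply hN1
        ring
      have huv2 : ¬ (q' = 0 ∧ q = 0) := by
        rintro ⟨rfl, rfl⟩
        apply hN2
        ring
      obtain ⟨a1, a2⟩ := F6R.half_caseB L hx hX hY hN1 (Or.inl rfl) hB hn
      obtain ⟨b1, b2⟩ := F6R.half_caseB L hx hX hY hN2'
        (M := x * q' ^ 3 - q ^ 3) (Or.inr (by ring)) hB hn
      have hwb : s w (b : Eis) = s w ((p ^ 3 - x * p' ^ 3 : ℤ) : Eis) -
          s w ((q ^ 3 - x * q' ^ 3 : ℤ) : Eis) := by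
        have h1 : ((p ^ 3 - x * p' ^ 3 : ℤ) : Eis) =
            -((b : Eis) * ((q ^ 3 - x * q' ^ 3 : ℤ) : Eis)) := by
          rw [← hbN]
          push_cast
          ring
        have hN' := F6R.cast_ne hN2'
        rw [h1, F6R.neg_right L (mul_ne_zero hb' hN') F6R.w_ne,
          L.skew _ _ (mul_ne_zero hb' hN') F6R.w_ne, L.mul _ _ _ hb' hN' F6R.w_ne,
          L.skew w _ F6R.w_ne hb', L.skew w _ F6R.w_ne hN']
        ring
      rw [hSV, hwb]
      rcases F6R.cases_uv h3 huv1 with h | h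
      · rcases F6R.cases_uv h3 huv2 with h' | h'
        · rw [a1 h, b1 h', F6R.sym_DA L hx h F6R.w_ne hN1, F6R.sym_DA L hx h' F6R.w_ne hN2']
          ring
        · rw [a1 h, b2 h', F6R.sym_DA L hx h F6R.w_ne hN1, F6R.sym_DB L hx h' F6R.w_ne hN2']
          ring
      · rcases F6R.cases_uv h3 huv2 with h' | h'
        · rw [a2 h, b1 h', F6R.sym_DB L hx h F6R.w_ne hN1, F6R.sym_DA L hx h' F6R.w_ne hN2']
          ring
        · rw [a2 h, b2 h', F6R.sym_DB L hx h F6R.w_ne hN1, F6R.sym_DB L hx h' F6R.w_ne hN2']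
          ring

end Pool.Agent.PT
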