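import Pool.Agent.PT.Stmts1

/-!
# PT_F7U: the local term of a point at a tame place where `x` has valuation divisible by `3` and is
not a cube.
-/

namespace Pool.Agent.PT

open Pool.Agent.Lib_helper18 Pool.Agent.Lib_helper18.Eis Pool.Agent.Lib_helper84.Cub

namespace F7U

theorem cast_ne {n : ℤ} (h : n ≠ 0) : (n : Eis) ≠ 0 := by
  intro h0
  apply h
  simpa using congrArg Eis.re h0

theorem pp_not_dvd_three (π : PP) : ¬ π.1 ∣ 3 := by
  intro h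
  have h1 := (dvd_three_iff π.2.1).1 h
  have h2 : lam ∣ π.1 := h1.symm.dvd
  rw [lam_dvd_iff] at h2
  have h3 := π.2.2.1
  have h4 := π.2.2.2
  omega

theorem ch_self {π : Eis} (hπ : Prime π) (h3 : ¬ π ∣ 3) : ch π π = 0 := by
  unfold ch up
  rw [V_self, pow_one, EuclideanDomain.div_self hπ.ne_zero, sym_one hπ h3]

theorem tm_self {π a : Eis} (hπ : Prime π) (h3 : ¬ π ∣ 3) : tm π a π = ch π a := by
  unfold tm
  rw [ch_self hπ h3, V_self]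
  simp

theorem ch_mul {π a b : Eis} (hπ : Prime π) (h3 : ¬ π ∣ 3) (S : LSym π (tm π) 1) (ha : a ≠ 0)
    (hb : b ≠ 0) : ch π (a * b) = ch π a + ch π b := by
  rw [← tm_self hπ h3, ← tm_self hπ h3, ← tm_self hπ h3]
  exact S.mul a b π ha hb hπ.ne_zero

theorem three0 : (3 : ZMod 3) = 0 := rfl

theorem ch_cube {π a : Eis} (hπ : Prime π) (h3 : ¬ π ∣ 3) (S : LSym π (tm π) 1) (ha : a ≠ 0) :
    ch π (a ^ 3) = 0 := by
  have e : a ^ 3 = a * a * a := by ring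
  rw [e, ch_mul hπ h3 S (mul_ne_zero ha ha) ha, ch_mul hπ h3 S ha ha]
  linear_combination (ch π a) * three0

theorem ch_neg {π a : Eis} (hπ : Prime π) (h3 : ¬ π ∣ 3) (S : LSym π (tm π) 1) (ha : a ≠ 0) :
    ch π (-a) = ch π a := by
  have e : -a = (-1) ^ 3 * a := by ring
  rw [e, ch_mul hπ h3 S (pow_ne_zero _ (by simp)) ha, ch_cube hπ h3 S (by simp), zero_add]

theorem ch_congr {π a a' : Eis} (hπ : Prime π) (h3 : ¬ π ∣ 3) (S : LSym π (tm π) 1) (ha : a ≠ 0)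
    (h : π ^ (V π a + 1) ∣ a' - a) : ch π a' = ch π a := by
  rw [← tm_self hπ h3, ← tm_self hπ h3]
  exact S.cont a a' π ha hπ.ne_zero h

theorem dvd_iff_le {π a : Eis} (hπ : Prime π) (ha : a ≠ 0) (n : ℕ) : π ^ n ∣ a ↔ n ≤ V π a :=
  (fin hπ ha).pow_dvd_iff_le_multiplicity

theorem ch_unit {π a : Eis} (h : ¬ π ∣ a) : ch π a = sym π a := by
  unfold ch up
  rw [V_eq_zero h, pow_zero, EuclideanDomain.div_one]

/-- `x0` not a cube mod `π` -/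
theorem noncube {π x0 : Eis} (hπ : Prime π) (h3 : ¬ π ∣ 3) (hx : ¬ π ∣ x0) (hs : sym π x0 ≠ 0)
    (u v : Eis) (h : π ∣ u ^ 3 + x0 * v ^ 3) : π ∣ u ∧ π ∣ v := by
  by_cases hv : π ∣ v
  · refine ⟨?_, hv⟩
    have h1 : π ∣ x0 * v ^ 3 := dvd_mul_of_dvd_right (dvd_pow hv (by norm_num)) _
    exact hπ.dvd_of_dvd_pow ((dvd_add_left h1).1 h)
  · exfalso
    have hv3 : ¬ π ∣ v ^ 3 := fun h => hv (hπ.dvd_of_dvd_pow h)
    have hxv : ¬ π ∣ x0 * v ^ 3 := fun h => (hπ.dvd_or_dvd h).elim hx hv3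
    have hu : ¬ π ∣ u := by
      intro hu
      have h1 : π ∣ u ^ 3 := dvd_pow hu (by norm_num)
      exact hxv ((dvd_add_right h1).1 h)
    have e : π ∣ (-u) ^ 3 - x0 * v ^ 3 := by
      have : (-u) ^ 3 - x0 * v ^ 3 = -(u ^ 3 + x0 * v ^ 3) := by ring
      rw [this]; exact (dvd_neg).2 h
    have h1 := sym_congr e
    rw [sym_cube hπ h3 (fun h => hu ((dvd_neg).1 h)), sym_mul hπ h3 hx hv3, sym_cube hπ h3 hv,
      add_zero] at h1
    exact hs h1.symm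

theorem descent {π x0 : Eis} (hπ : Prime π)
    (hB : ∀ u v : Eis, π ∣ u ^ 3 + x0 * v ^ 3 → π ∣ u ∧ π ∣ v) :
    ∀ (j : ℕ) (A B : Eis), π ^ (3 * j + 1) ∣ A ^ 3 + x0 * B ^ 3 → π ^ (j + 1) ∣ A ∧ π ^ (j + 1) ∣ B := by
  intro j
  induction j with
  | zero => intro A B h; simpa using hB A B (by simpa using h)
  | succ j ih =>
    intro A B h
    obtain ⟨⟨a, rfl⟩, ⟨b, rfl⟩⟩ := hB A B (dvd_trans (dvd_pow_self _ (by omega)) h)
    have e : (π * a) ^ 3 + x0 * (π * b) ^ 3 = π ^ 3 * (a ^ 3 + x0 * b ^ 3) := by ring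
    have e2 : π ^ (3 * (j + 1) + 1) = π ^ 3 * π ^ (3 * j + 1) := by rw [← pow_add]; congr 1; ring
    rw [e, e2] at h
    obtain ⟨h1, h2⟩ := ih a b ((mul_dvd_mul_iff_left (pow_ne_zero _ hπ.ne_zero)).1 h)
    rw [pow_succ' π (j + 1)]
    exact ⟨mul_dvd_mul_left _ h1, mul_dvd_mul_left _ h2⟩

/-- the structure of `x` -/
theorem split_x {π x : Eis} (hπ : Prime π) (h3 : ¬ π ∣ 3) (S : LSym π (tm π) 1) (hx : x ≠ 0)
    (hV : 3 ∣ V π x) (hc : ch π x ≠ 0) : ∃ (k : ℕ) (x0 : Eis), x = (π ^ k) ^ 3 * x0 ∧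
      ∀ u v : Eis, π ∣ u ^ 3 + x0 * v ^ 3 → π ∣ u ∧ π ∣ v := by
  obtain ⟨c, hc1, hc2⟩ := V_split hπ hx
  obtain ⟨k, hk⟩ := hV
  refine ⟨k, c, ?_, ?_⟩
  · rw [← pow_mul, mul_comm k 3, ← hk]; exact hc1
  · apply noncube hπ h3 hc2
    intro hs
    apply hc
    have hc0 : c ≠ 0 := by rintro rfl; exact hc2 (dvd_zero _)
    have hx' : x = (π ^ k) ^ 3 * c := by rw [← pow_mul, mul_comm k 3, ← hk]; exact hc1
    rw [hx', ch_mul hπ h3 S (pow_ne_zero _ (pow_ne_zero _ hπ.ne_zero)) hc0,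
      ch_cube hπ h3 S (pow_ne_zero _ hπ.ne_zero), zero_add, ch_unit hc2, hs]

theorem V_form {π x : Eis} (hπ : Prime π) (h3 : ¬ π ∣ 3) (S : LSym π (tm π) 1) (hx : x ≠ 0)
    (hV : 3 ∣ V π x) (hc : ch π x ≠ 0) (A B : Eis) (hAB : ¬ (A = 0 ∧ B = 0)) :
    A ^ 3 + x * B ^ 3 ≠ 0 ∧ 3 ∣ V π (A ^ 3 + x * B ^ 3) := by
  obtain ⟨k, x0, rfl, hB⟩ := split_x hπ h3 S hx hV hc
  have e : A ^ 3 + (π ^ k) ^ 3 * x0 * B ^ 3 = A ^ 3 + x0 * (π ^ k * B) ^ 3 := by ring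
  rw [e]
  apply three_dvd_V hπ hB _ _ _ rfl
  rintro ⟨h1, h2⟩
  exact hAB ⟨h1, (mul_eq_zero.1 h2).resolve_left (pow_ne_zero _ hπ.ne_zero)⟩

theorem half {π : Eis} (hπ : Prime π) (h3 : ¬ π ∣ 3) (S : LSym π (tm π) 1) (x X Y P P' : Eis)
    (hx : x ≠ 0) (hV : 3 ∣ V π x) (hc : ch π x ≠ 0) (hX : X ≠ 0) (hY : Y ≠ 0)
    (hN : P ^ 3 - x * P' ^ 3 ≠ 0) (hD1 : X * P' + w ^ 1 * P * Y ≠ 0)
    (hD2 : X * P' + w ^ 2 * P * Y ≠ 0) :
    tm π (X * P' + w ^ 1 * P * Y) (P ^ 3 - x * P' ^ 3) -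
      tm π (X * P' + w ^ 2 * P * Y) (P ^ 3 - x * P' ^ 3) -
      tm π (X * P' + w ^ 1 * P * Y) (X ^ 3 + x * Y ^ 3) +
      tm π (X * P' + w ^ 2 * P * Y) (X ^ 3 + x * Y ^ 3) = 0 := by
  have hn := V_form hπ h3 S hx hV hc X Y (fun h => hX h.1)
  have hPP : ¬ (P = 0 ∧ -P' = 0) := by
    rintro ⟨rfl, h⟩
    rw [neg_eq_zero] at h
    apply hN
    rw [h]; ring
  have hN1 := V_form hπ h3 S hx hV hc P (-P') hPP
  have eN : P ^ 3 + x * (-P') ^ 3 = P ^ 3 - x * P' ^ 3 := by ring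
  rw [eN] at hN1
  have hz1 : (V π (P ^ 3 - x * P' ^ 3) : ZMod 3) = 0 := by
    rw [ZMod.natCast_eq_zero_iff]; exact hN1.2
  have hz2 : (V π (X ^ 3 + x * Y ^ 3) : ZMod 3) = 0 := by
    rw [ZMod.natCast_eq_zero_iff]; exact hn.2
  have key : V π (X * P' + w ^ 1 * P * Y) = V π (X * P' + w ^ 2 * P * Y) ∨
      ch π (P ^ 3 - x * P' ^ 3) = ch π (X ^ 3 + x * Y ^ 3) := by
    by_contra hcon
    push Not at hcon
    obtain ⟨hne, hch⟩ := hcon
    -- the differences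
    have hw1 : ¬ π ∣ w - w ^ 2 := fun h => h3 (h.trans ⟨w ^ 2 * (1 - w ^ 2), by decide⟩)
    have hw2 : ¬ π ∣ w - 1 := fun h => h3 (h.trans ⟨w ^ 2 - 1, by decide⟩)
    have hcop : ∀ (c z : Eis) (n : ℕ), ¬ π ∣ c → π ^ n ∣ c * z → π ^ n ∣ z := by
      intro c z n hc h
      exact (hπ.pow_dvd_of_dvd_mul_left n hc h)
    have both : ∀ n : ℕ, π ^ n ∣ X * P' + w ^ 1 * P * Y → π ^ n ∣ X * P' + w ^ 2 * P * Y →
        π ^ n ∣ P * Y ∧ π ^ n ∣ X * P' := by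
      intro n h1 h2
      constructor
      · apply hcop _ _ _ hw1
        have := dvd_sub h1 h2
        have e : X * P' + w ^ 1 * P * Y - (X * P' + w ^ 2 * P * Y) = (w - w ^ 2) * (P * Y) := by ring
        rwa [e] at this
      · apply hcop _ _ _ hw2
        have := dvd_sub (dvd_mul_of_dvd_right h1 w) h2
        have e : w * (X * P' + w ^ 1 * P * Y) - (X * P' + w ^ 2 * P * Y) = (w - 1) * (X * P') := by
          ring
        rwa [e] at this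
    obtain ⟨k, x0, hxe, hB⟩ := split_x hπ h3 S hx hV hc
    -- main claim
    have main : ∀ (c : Eis) (m : ℕ), c ^ 3 = 1 → π ^ m ∣ P * Y → π ^ m ∣ X * P' →
        ¬ (π ^ (m + 1) ∣ P * Y ∧ π ^ (m + 1) ∣ X * P') → π ^ (m + 1) ∣ X * P' + c * (P * Y) →
        False := by
      intro c m hc3 h1 h2 h4 h5
      have h6 : π ^ (3 * m + 1) ∣ (X * P') ^ 3 + (c * (P * Y)) ^ 3 := by
        obtain ⟨u, hu⟩ := h1
        obtain ⟨v, hv⟩ := h2
        rw [hu, hv] at h5 ⊢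
        obtain ⟨t, ht⟩ := h5
        refine ⟨t * (v ^ 2 - v * (c * u) + (c * u) ^ 2), ?_⟩
        have e : (π ^ m * v) ^ 3 + (c * (π ^ m * u)) ^ 3 =
          (π ^ m * v + c * (π ^ m * u)) * (π ^ m * π ^ m * (v ^ 2 - v * (c * u) + (c * u) ^ 2)) := by
          ring
        rw [e, ht]
        ring
      have h7 : π ^ (3 * m + 1) ∣ (-((X ^ 3 + x * Y ^ 3) * P' ^ 3)) - Y ^ 3 * (P ^ 3 - x * P' ^ 3) := by
        have e : (-((X ^ 3 + x * Y ^ 3) * P' ^ 3)) - Y ^ 3 * (P ^ 3 - x * P' ^ 3) =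
          -((X * P') ^ 3 + (c * (P * Y)) ^ 3) := by
          linear_combination (P ^ 3 * Y ^ 3) * hc3
        rw [e]; exact (dvd_neg).2 h6
      have h8 : ¬ π ^ (3 * m + 1) ∣ Y ^ 3 * (P ^ 3 - x * P' ^ 3) := by
        intro h8
        have e : Y ^ 3 * (P ^ 3 - x * P' ^ 3) = (P * Y) ^ 3 + x0 * (-(π ^ k * P' * Y)) ^ 3 := by
          rw [hxe]; ring
        rw [e] at h8
        obtain ⟨h9, -⟩ := descent hπ hB m _ _ h8
        apply h4
        refine ⟨h9, ?_⟩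
        exact (dvd_add_left (dvd_mul_of_dvd_right h9 c)).1 h5
      have hYN : Y ^ 3 * (P ^ 3 - x * P' ^ 3) ≠ 0 := mul_ne_zero (pow_ne_zero _ hY) hN
      have h9 : V π (Y ^ 3 * (P ^ 3 - x * P' ^ 3)) + 1 ≤ 3 * m + 1 := by
        by_contra hcon
        exact h8 ((dvd_iff_le hπ hYN _).2 (by omega))
      have h10 := ch_congr hπ h3 S hYN ((pow_dvd_pow _ h9).trans h7)
      have hP' : P' ≠ 0 := by
        rintro rfl
        apply h8
        have := (dvd_neg).2 h7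
        have e : -(-((X ^ 3 + x * Y ^ 3) * 0 ^ 3) - Y ^ 3 * (P ^ 3 - x * 0 ^ 3)) =
          Y ^ 3 * (P ^ 3 - x * 0 ^ 3) := by ring
        rwa [e] at this
      rw [ch_neg hπ h3 S (mul_ne_zero hn.1 (pow_ne_zero _ hP')),
        ch_mul hπ h3 S hn.1 (pow_ne_zero _ hP'), ch_cube hπ h3 S hP',
        ch_mul hπ h3 S (pow_ne_zero _ hY) hN, ch_cube hπ h3 S hY, add_zero, zero_add] at h10
      exact hch h10.symm
    rcases lt_or_gt_of_ne hne with h | h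
    · obtain ⟨a1, a2⟩ := both (V π (X * P' + w ^ 1 * P * Y)) ((dvd_iff_le hπ hD1 _).2 le_rfl)
        ((dvd_iff_le hπ hD2 _).2 h.le)
      refine main (w ^ 2) _ (by decide) a1 a2 ?_ ?_
      · rintro ⟨b1, b2⟩
        have := (dvd_add b2 (dvd_mul_of_dvd_right b1 (w ^ 1)))
        rw [← mul_assoc, dvd_iff_le hπ hD1] at this
        omega
      · rw [← mul_assoc, dvd_iff_le hπ hD2]
        omega
    · obtain ⟨a1, a2⟩ := both (V π (X * P' + w ^ 2 * P * Y)) ((dvd_iff_le hπ hD1 _).2 h.le)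
        ((dvd_iff_le hπ hD2 _).2 le_rfl)
      refine main (w ^ 1) _ (by decide) a1 a2 ?_ ?_
      · rintro ⟨b1, b2⟩
        have := (dvd_add b2 (dvd_mul_of_dvd_right b1 (w ^ 2)))
        rw [← mul_assoc, dvd_iff_le hπ hD2] at this
        omega
      · rw [← mul_assoc, dvd_iff_le hπ hD1]
        omega
  unfold tm
  rw [hz1, hz2]
  rcases key with h | h
  · rw [h]; ring
  · rw [h]; ring

/-- nonvanishing of the linear forms with integer coefficients -/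
theorem lin_ne {X Y p p' : ℤ} (hX : X ≠ 0) (hY : Y ≠ 0) (h : ¬ (p = 0 ∧ p' = 0)) (i : ℕ)
    (hi : i = 1 ∨ i = 2) : (X : Eis) * p' + w ^ i * p * Y ≠ 0 := by
  intro h0
  apply h
  have hre := congrArg Eis.re h0
  have him := congrArg Eis.im h0
  rcases hi with rfl | rfl
  · simp at hre him
    exact ⟨by tauto, by tauto⟩
  · simp [pow_two] at hre him
    rcases him with h1 | h1
    · subst h1
      simp at hre
      exact ⟨rfl, by tauto⟩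
    · exact absurd h1 hY

end F7U

theorem F7U_thm (hSTM : STM) : F7U := by
  intro π b x p q p' q' X Y hb hx hs hX hY hV hc
  have h3 := F7U.pp_not_dvd_three π
  have hπ := π.2.1
  have S := hSTM π.1 hπ h3
  have hxE : (x : Eis) ≠ 0 := F7U.cast_ne hx
  have hXE : (X : Eis) ≠ 0 := F7U.cast_ne hX
  have hYE : (Y : Eis) ≠ 0 := F7U.cast_ne hY
  have hN2 : x * q' ^ 3 - q ^ 3 ≠ 0 := by
    intro h
    apply hs.n2
    have e : p ^ 3 - x * p' ^ 3 = b * (x * q' ^ 3 - q ^ 3) := by linear_combination hs.eq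
    rw [e, h, mul_zero]
  have hp : ¬ (p = 0 ∧ p' = 0) := by
    rintro ⟨rfl, rfl⟩; apply hs.n2; ring
  have hq : ¬ (q = 0 ∧ q' = 0) := by
    rintro ⟨rfl, rfl⟩; apply hN2; ring
  have h1 := F7U.half hπ h3 S x X Y p p' hxE hV hc hXE hYE (by
    have := F7U.cast_ne hs.n2
    push_cast at this
    exact this) (F7U.lin_ne hX hY hp 1 (Or.inl rfl)) (F7U.lin_ne hX hY hp 2 (Or.inr rfl))
  have hqE : (q : Eis) ^ 3 - x * (q' : Eis) ^ 3 ≠ 0 := by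
    intro h
    have h' := F7U.cast_ne hN2
    apply h'
    push_cast; linear_combination -h
  have h2 := F7U.half hπ h3 S x X Y q q' hxE hV hc hXE hYE hqE
    (F7U.lin_ne hX hY hq 1 (Or.inl rfl)) (F7U.lin_ne hX hY hq 2 (Or.inr rfl))
  have hneg : ∀ D : Eis, tm π.1 D ((x * q' ^ 3 - q ^ 3 : ℤ) : Eis) =
      tm π.1 D ((q : Eis) ^ 3 - x * (q' : Eis) ^ 3) := by
    intro D
    have e : ((x * q' ^ 3 - q ^ 3 : ℤ) : Eis) = -((q : Eis) ^ 3 - x * (q' : Eis) ^ 3) := by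
      push_cast; ring
    rw [e]
    unfold tm
    rw [V_neg, F7U.ch_neg hπ h3 S hqE]
  unfold SV Df
  rw [hneg, hneg]
  push_cast
  rw [h1, h2, sub_zero]

end Pool.Agent.PT
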