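import Pool.Agent.PT.Stmts4
import Pool.Agent.Lib_helper84.Cub.CaseOne

/-!
# FD1: the first descent
-/

set_option autoImplicit false

namespace Pool.Agent.PT

open Pool.Agent.Lib_helper18 Pool.Agent.Lib_helper18.Eis Pool.Agent.Lib_helper84.Cub

namespace FD1

/-- A cube of a prime does not divide `B`. -/
theorem cube_free {B : ℤ} (hB : BOk B) {l : ℕ} (hl : l.Prime) : ¬ (l : ℤ) ^ 3 ∣ B := by
  intro h
  by_cases h3 : l = 3
  · apply hB.three
    rw [h3] at h
    exact (Dvd.intro_left ((3 : ℤ) ^ 2) (by norm_num)).trans h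
  have hlE : (l : Eis) ≠ 0 := by
    intro h4
    have h5 := congrArg Eis.re h4
    simp only [natCast_re, zero_re] at h5
    exact hl.ne_zero (by exact_mod_cast h5)
  have hnu : ¬ IsUnit (l : Eis) := by
    rw [isUnit_iff_norm, norm_natCast]
    intro h4
    have h5 : (l : ℤ) = 1 ∨ (l : ℤ) = -1 := sq_eq_one_iff_of_side h4
    rcases h5 with h5 | h5
    · exact hl.one_lt.ne' (by exact_mod_cast h5)
    · omega
  obtain ⟨q, hq, hql⟩ := WfDvdMonoid.exists_irreducible_factor hnu hlE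
  have hqp : Prime q := hq.prime
  have hlam : ¬ lam ∣ q := by
    intro h4
    have h5 : lam ∣ (l : Eis) := h4.trans hql
    obtain ⟨t, ht⟩ := h5
    have h6 := congrArg Eis.norm ht
    rw [Eis.norm_mul, norm_natCast, norm_lam] at h6
    have h7 : (3 : ℤ) ∣ (l : ℤ) ^ 2 := ⟨_, h6⟩
    have h8 : (3 : ℤ) ∣ (l : ℤ) := Int.prime_three.dvd_of_dvd_pow h7
    have h9 : 3 ∣ l := by exact_mod_cast h8
    exact h3 ((Nat.prime_dvd_prime_iff_eq Nat.prime_three hl).1 h9).symm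
  obtain ⟨i, hi⟩ := exists_prim hlam
  have hwu : IsUnit (w ^ i) := by
    have h4 : IsUnit w := IsUnit.of_mul_eq_one (w ^ 2) (by rw [← pow_succ']; exact w_cube)
    exact h4.pow i
  have key : ∃ π : PP, Associated q π.1 := by
    have h4 : (q * w ^ i).re % 3 = 1 ∨ (q * w ^ i).re % 3 = 2 := by
      have := hi.2
      omega
    have h5 : Associated q (q * w ^ i) := associated_mul_unit_right q (w ^ i) hwu
    rcases h4 with h4 | h4
    · refine ⟨⟨-(q * w ^ i), ?_, ?_, ?_⟩, ?_⟩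
      · exact (h5.prime hqp).neg
      · rw [neg_re]
        omega
      · rw [neg_im]
        exact (dvd_neg).2 hi.1
      · exact h5.neg_right
    · exact ⟨⟨q * w ^ i, h5.prime hqp, h4, hi.1⟩, h5⟩
  obtain ⟨π, hπ⟩ := key
  have h4 : π.1 ^ 3 ∣ (B : Eis) := by
    have h5 : π.1 ∣ (l : Eis) := hπ.symm.dvd.trans hql
    refine (pow_dvd_pow_of_dvd h5 3).trans ?_
    obtain ⟨t, ht⟩ := h
    rw [ht]
    refine ⟨(t : Eis), ?_⟩
    ext <;> simp
  have hBE : (B : Eis) ≠ 0 := by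
    intro h5
    have h6 := congrArg Eis.re h5
    simp only [intCast_re, zero_re] at h6
    exact hB.ne h6
  have h5 : 3 ≤ V π.1 (B : Eis) := by
    rw [V, ← (fin π.2.1 hBE).pow_dvd_iff_le_multiplicity]
    exact h4
  have := hB.cf π
  omega

/-- A solution with two units gives a smaller solution. -/
theorem small {B z m ai aj ak xi xj xk : ℤ} (hB : B ≠ 0) (hprod : ai * aj * ak = B)
    (hA : (ai * xi ^ 3) * (aj * xj ^ 3) * (ak * xk ^ 3) = B * m ^ 3)
    (hsum : ai * xi ^ 3 + aj * xj ^ 3 + ak * xk ^ 3 = 0) (hcop : IsCoprime xi xj)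
    (hxi : xi ≠ 0) (hxj : xj ≠ 0) (hxk : xk ≠ 0) (hai : IsUnit ai) (haj : IsUnit aj)
    (hmz : |m| < |z|) :
    ∃ x' y' z' : ℤ, z' ≠ 0 ∧ x' ^ 3 + y' ^ 3 = B * z' ^ 3 ∧ |z'| < |z| := by
  have h1 : ai ^ 2 = 1 := by
    rcases Int.isUnit_iff.1 hai with h | h <;> rw [h] <;> norm_num
  have h2 : aj ^ 2 = 1 := by
    rcases Int.isUnit_iff.1 haj with h | h <;> rw [h] <;> norm_num
  have h3 : ak = ai * aj * B := by
    rw [← hprod]
    linear_combination (-(ak * aj ^ 2)) * h1 - ak * h2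
  have h4 : (xi * xj * xk) ^ 3 = m ^ 3 := by
    have h5 : B * (xi * xj * xk) ^ 3 = B * m ^ 3 := by
      rw [← hA, ← hprod]
      ring
    exact mul_left_cancel₀ hB h5
  have h5 : xi * xj * xk = m := by
    have hodd : Odd 3 := by decide
    exact hodd.pow_injective h4
  refine ⟨ai * xi, aj * xj, -(ai * aj) * xk, ?_, ?_, ?_⟩
  · have h6 : ai ≠ 0 := by
      rintro rfl
      norm_num at h1
    have h7 : aj ≠ 0 := by
      rintro rfl
      norm_num at h2
    exact mul_ne_zero (neg_ne_zero.2 (mul_ne_zero h6 h7)) hxk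
  · have h6 : ak * xk ^ 3 = -(ai * xi ^ 3 + aj * xj ^ 3) := by linarith
    have h7 : (ai * xi) ^ 3 = ai * xi ^ 3 := by
      linear_combination (ai * xi ^ 3) * h1
    have h8 : (aj * xj) ^ 3 = aj * xj ^ 3 := by
      linear_combination (aj * xj ^ 3) * h2
    have h9 : B * (-(ai * aj) * xk) ^ 3 = -(ak * xk ^ 3) := by
      rw [h3]
      linear_combination (-(B * ai * aj * xk ^ 3 * aj ^ 2)) * h1 - (B * ai * aj * xk ^ 3) * h2
    rw [h7, h8, h9, h6]
    ring
  · have h6 : |(-(ai * aj) * xk)| = |xk| := by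
      rw [abs_mul, abs_neg, abs_mul]
      rcases Int.isUnit_iff.1 hai with h | h <;> rcases Int.isUnit_iff.1 haj with h' | h' <;>
        rw [h, h'] <;> simp
    rw [h6]
    refine lt_of_le_of_lt ?_ hmz
    rw [← h5, abs_mul]
    have h7 : 1 ≤ |xi * xj| := Int.one_le_abs (mul_ne_zero hxi hxj)
    have h8 : 0 ≤ |xk| := abs_nonneg _
    nlinarith

end FD1

open FD1 in
theorem FD1_thm (hFDK : FDK) (hFDA : FDA) (hFDC : FDC) : FD1 := by
  classical
  intro B hB hB3 hH hex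
  -- the minimal solution
  obtain ⟨X, Y, hXY⟩ := hex
  have hsol : ∃ n : ℕ, ∃ x y z : ℤ, z ≠ 0 ∧ x ^ 3 + y ^ 3 = B * z ^ 3 ∧ z.natAbs = n := by
    refine ⟨_, X.num * Y.den, Y.num * X.den, X.den * Y.den, ?_, ?_, rfl⟩
    · have h1 : (X.den : ℤ) ≠ 0 := by exact_mod_cast X.den_nz
      have h2 : (Y.den : ℤ) ≠ 0 := by exact_mod_cast Y.den_nz
      exact mul_ne_zero h1 h2
    · have h1 : (X.den : ℚ) ≠ 0 := by exact_mod_cast X.den_nz
      have h2 : (Y.den : ℚ) ≠ 0 := by exact_mod_cast Y.den_nz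
      have h3 : (X.num : ℚ) = X * X.den := by
        rw [Rat.mul_den_eq_num]
      have h4 : (Y.num : ℚ) = Y * Y.den := by
        rw [Rat.mul_den_eq_num]
      have h5 : (((X.num * Y.den) ^ 3 + (Y.num * X.den) ^ 3 : ℤ) : ℚ) =
          ((B * (X.den * Y.den) ^ 3 : ℤ) : ℚ) := by
        push_cast
        rw [h3, h4, ← hXY]
        ring
      exact_mod_cast h5
  obtain ⟨x, y, z, hz, heq, hzn⟩ := Nat.find_spec hsol
  have hmin : ∀ x' y' z' : ℤ, z' ≠ 0 → x' ^ 3 + y' ^ 3 = B * z' ^ 3 → ¬ |z'| < |z| := by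
    intro x' y' z' hz' h' hlt
    have h1 := Nat.find_min' hsol ⟨x', y', z', hz', h', rfl⟩
    rw [← hzn] at h1
    rw [Int.abs_eq_natAbs, Int.abs_eq_natAbs] at hlt
    omega
  have hcop : IsCoprime x y := by
    rw [Int.isCoprime_iff_gcd_eq_one]
    by_contra hg
    obtain ⟨l, hl, hlg⟩ := Nat.exists_prime_and_dvd hg
    have hlx : (l : ℤ) ∣ x := (Int.natCast_dvd_natCast.2 hlg).trans (Int.gcd_dvd_left _ _)
    have hly : (l : ℤ) ∣ y := (Int.natCast_dvd_natCast.2 hlg).trans (Int.gcd_dvd_right _ _)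
    have hlp : Prime (l : ℤ) := Nat.prime_iff_prime_int.1 hl
    obtain ⟨x', rfl⟩ := hlx
    obtain ⟨y', rfl⟩ := hly
    by_cases hlz : (l : ℤ) ∣ z
    · obtain ⟨z', rfl⟩ := hlz
      have hl0 : (l : ℤ) ≠ 0 := hlp.ne_zero
      have hz' : z' ≠ 0 := right_ne_zero_of_mul hz
      refine hmin x' y' z' hz' ?_ ?_
      · have h1 : (l : ℤ) ^ 3 * (x' ^ 3 + y' ^ 3) = (l : ℤ) ^ 3 * (B * z' ^ 3) := by
          linear_combination heq
        exact mul_left_cancel₀ (pow_ne_zero 3 hl0) h1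
      · rw [abs_mul]
        have h1 : 0 < |z'| := abs_pos.2 hz'
        have h2 : (2 : ℤ) ≤ |(l : ℤ)| := by
          rw [Nat.abs_cast]
          exact_mod_cast hl.two_le
        nlinarith
    · apply cube_free hB hl
      have h1 : (l : ℤ) ^ 3 ∣ B * z ^ 3 := ⟨x' ^ 3 + y' ^ 3, by rw [← heq]; ring⟩
      have h3 : Nat.Coprime l z.natAbs := (Nat.Prime.coprime_iff_not_dvd hl).2
        fun h3 => hlz (Int.natCast_dvd.2 h3)
      have h4 : IsCoprime (l : ℤ) z := by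
        rw [Int.isCoprime_iff_gcd_eq_one]
        exact h3
      have h2 : IsCoprime ((l : ℤ) ^ 3) (z ^ 3) := h4.pow
      exact h2.dvd_of_dvd_mul_right h1
  obtain ⟨δ, c, d, hc, hd, hδ, hcd⟩ := hFDK B x y z hB hH hcop hz heq
  obtain ⟨A, m, hA0, hAs, hAp, hAc, hmz⟩ := hFDA B x y z c d δ hB hB3 hcop hz heq hc hd hδ hcd
  obtain ⟨a, u, hau, hap, hac, huc, hnine⟩ := hFDC B m A hB hA0 hAs hAp hAc
  have hu0 : ∀ k, u k ≠ 0 := by
    intro k hk
    apply hA0 k
    rw [hau k, hk]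
    ring
  have hprod : a 0 * a 1 * a 2 = B := by
    rw [← hap, Fin.prod_univ_three]
  rw [hau 0, hau 1, hau 2] at hAs hAp
  refine ⟨a, u, hu0, by rw [Fin.sum_univ_three]; exact hAs, hap, hac, ?_, hnine⟩
  intro k
  by_contra hno
  push Not at hno
  fin_cases k
  · obtain ⟨x', y', z', h1, h2, h3⟩ := small (B := B) (z := z) (m := m) hB.ne
      (ai := a 1) (aj := a 2) (ak := a 0) (xi := u 1) (xj := u 2) (xk := u 0)
      (by rw [← hprod]; ring) (by rw [← hAp]; ring) (by rw [← hAs]; ring) (huc 1 2 (by decide))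
      (hu0 1) (hu0 2) (hu0 0) (hno 1 (by decide)) (hno 2 (by decide)) hmz
    exact hmin x' y' z' h1 h2 h3
  · obtain ⟨x', y', z', h1, h2, h3⟩ := small (B := B) (z := z) (m := m) hB.ne
      (ai := a 0) (aj := a 2) (ak := a 1) (xi := u 0) (xj := u 2) (xk := u 1)
      (by rw [← hprod]; ring) (by rw [← hAp]; ring) (by rw [← hAs]; ring) (huc 0 2 (by decide))
      (hu0 0) (hu0 2) (hu0 1) (hno 0 (by decide)) (hno 2 (by decide)) hmz
    exact hmin x' y' z' h1 h2 h3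
  · obtain ⟨x', y', z', h1, h2, h3⟩ := small (B := B) (z := z) (m := m) hB.ne
      (ai := a 0) (aj := a 1) (ak := a 2) (xi := u 0) (xj := u 1) (xk := u 2)
      hprod hAp hAs (huc 0 1 (by decide))
      (hu0 0) (hu0 1) (hu0 2) (hno 0 (by decide)) (hno 1 (by decide)) hmz
    exact hmin x' y' z' h1 h2 h3

end Pool.Agent.PT
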