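import Pool.Agent.PT.Stmts2

/-!
# FD2: the class of a point
-/

namespace Pool.Agent.PT

open Pool.Agent.Lib_helper18 Pool.Agent.Lib_helper18.Eis Pool.Agent.Lib_helper84.Cub

namespace FD2

theorem cast_ne {m : ℤ} (h : m ≠ 0) : (m : Eis) ≠ 0 := fun h' => h (by
  have := congrArg Eis.re h'
  simpa using this)

/-- A cube-free number is not divisible by the cube of a prime. -/
theorem no_cube (hSPP : SPP) {B : ℤ} (hB : BOk B) {l : ℕ} (hl : l.Prime)
    (h : (l : ℤ) ^ 3 ∣ B) : False := by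
  obtain ⟨h1, -⟩ := hSPP
  have hl3 : ¬ (3 : ℤ) ∣ l := by
    intro h3
    exact hB.three (h3.trans ((dvd_pow_self _ (by norm_num)).trans h))
  have hlu : ¬ IsUnit (l : Eis) := by
    rw [isUnit_iff_norm, norm_natCast]
    intro h3
    have h4 : l ^ 2 = 1 := by exact_mod_cast h3
    have h5 := hl.two_le
    nlinarith
  have hl0 : (l : Eis) ≠ 0 := by
    have := cast_ne (m := (l : ℤ)) (by exact_mod_cast hl.ne_zero)
    simpa using this
  obtain ⟨ρ, hρ, hρl⟩ := WfDvdMonoid.exists_irreducible_factor hlu hl0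
  have hρ' : Prime ρ := hρ.prime
  have hρ3 : ¬ ρ ∣ 3 := by
    intro h3
    have h4 : IsCoprime (3 : ℤ) l := by
      rw [Int.isCoprime_iff_gcd_eq_one]
      have h5 : Nat.Coprime 3 l := (Nat.Prime.coprime_iff_not_dvd Nat.prime_three).2
        (fun h6 => hl3 (by exact_mod_cast h6))
      exact_mod_cast h5
    obtain ⟨u, v, huv⟩ := h4
    have h5 : (u : Eis) * 3 + v * l = 1 := by
      have := congrArg (fun m : ℤ => (m : Eis)) huv
      push_cast at this
      exact this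
    exact hρ'.not_isUnit (isUnit_of_dvd_one (h5 ▸ dvd_add (h3.mul_left _) (hρl.mul_left _)))
  obtain ⟨π, hπ⟩ := h1 ρ hρ' hρ3
  have h2 : π.1 ^ 3 ∣ (B : Eis) := by
    have h3 : π.1 ∣ (l : Eis) := hπ.symm.dvd.trans hρl
    refine (pow_dvd_pow_of_dvd h3 3).trans ?_
    obtain ⟨c, hc⟩ := h
    refine ⟨c, ?_⟩
    rw [hc]
    push_cast
    rfl
  have h3 := (fin π.2.1 (cast_ne hB.ne)).pow_dvd_iff_le_multiplicity.1 h2
  have h4 := hB.cf π
  exact absurd h3 (by unfold V at h4; omega)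

section Sym

variable {π : Eis} {s : Eis → Eis → ZMod 3}

theorem three_mul (c : ZMod 3) : c + c + c = 0 := by
  revert c
  decide

theorem two_mul_eq {c : ZMod 3} (h : c = -c) : c = 0 := by
  revert c
  decide

theorem s_cube (hs : LSym π s 1) {a b : Eis} (ha : a ≠ 0) (hb : b ≠ 0) : s (a ^ 3) b = 0 := by
  have h1 : a ^ 3 = a * a * a := by ring
  rw [h1, hs.mul _ _ _ (mul_ne_zero ha ha) ha hb, hs.mul _ _ _ ha ha hb]
  exact three_mul _

theorem s_cube' (hs : LSym π s 1) {a b : Eis} (ha : a ≠ 0) (hb : b ≠ 0) : s a (b ^ 3) = 0 := by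
  rw [hs.skew _ _ (pow_ne_zero 3 hb) ha, s_cube hs hb ha, neg_zero]

theorem s_self (hs : LSym π s 1) {a : Eis} (ha : a ≠ 0) : s a a = 0 :=
  two_mul_eq (hs.skew a a ha ha)

theorem mul_right (hs : LSym π s 1) {a b c : Eis} (ha : a ≠ 0) (hb : b ≠ 0) (hc : c ≠ 0) :
    s a (b * c) = s a b + s a c := by
  rw [hs.skew _ _ (mul_ne_zero hb hc) ha, hs.mul _ _ _ hb hc ha, hs.skew _ _ ha hb,
    hs.skew _ _ ha hc, neg_add, neg_neg, neg_neg]

theorem s_neg (hs : LSym π s 1) {a b : Eis} (ha : a ≠ 0) (hb : b ≠ 0) : s a (-b) = s a b := by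
  have h1 : -b = (-1) ^ 3 * b := by ring
  rw [h1, mul_right hs ha (by simp) hb, s_cube' hs ha (by simp), zero_add]

end Sym

theorem main (hSTM : STM) (hSPP : SPP) {n q : ℕ} (hq : q.Prime) (hB : BOk ((n : ℤ) * q))
    {a0 a1 a2 x0 x1 x2 : ℤ} (hx0 : x0 ≠ 0) (hx1 : x1 ≠ 0) (hx2 : x2 ≠ 0)
    (hs : a0 * x0 ^ 3 + a1 * x1 ^ 3 + a2 * x2 ^ 3 = 0) (hp : a0 * a1 * a2 = (n : ℤ) * q)
    (hc : IsCoprime a0 a1) (h2 : ¬ IsUnit a0 ∨ ¬ IsUnit a1)
    (h9 : C9 ((n : ℤ) * q) → wt (a0 ^ 2) = wt (a1 ^ 2)) (hq0 : ¬ (q : ℤ) ∣ a0)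
    (hq1 : ¬ (q : ℤ) ∣ a1) :
    ∃ z X Y : ℤ, Pt ((n : ℤ) * q) z X Y ∧ Adm ((n : ℤ) * q) z ∧
      (∀ l : ℕ, l.Prime → (l : ℤ) ∣ z → l ∣ n) ∧ ¬ ∃ t : ℤ, t ^ 3 = z := by
  set B : ℤ := (n : ℤ) * q with hBd
  have ha0 : a0 ≠ 0 := by
    rintro rfl
    exact hB.ne (by rw [← hp]; ring)
  have ha1 : a1 ≠ 0 := by
    rintro rfl
    exact hB.ne (by rw [← hp]; ring)
  have ha2 : a2 ≠ 0 := by
    rintro rfl
    exact hB.ne (by rw [← hp]; ring)
  have h30 : ¬ (3 : ℤ) ∣ a0 := fun h => hB.three (by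
    rw [← hp]
    exact (h.mul_right _).mul_right _)
  have h31 : ¬ (3 : ℤ) ∣ a1 := fun h => hB.three (by
    rw [← hp]
    exact (h.mul_left _).mul_right _)
  have hz0 : a0 ^ 2 * a1 ≠ 0 := mul_ne_zero (pow_ne_zero 2 ha0) ha1
  have heq : a0 ^ 2 * a1 * ((a0 * x0) ^ 3 + a0 ^ 2 * a1 * x1 ^ 3) = B * (-a0 * x2) ^ 3 := by
    rw [← hp]
    linear_combination a0 ^ 4 * a1 * hs
  have hc0 : -a0 * x2 ≠ 0 := mul_ne_zero (neg_ne_zero.2 ha0) hx2
  refine ⟨a0 ^ 2 * a1, a0 * x0, x1, ⟨mul_ne_zero ha0 hx0, hx1, -a0 * x2, hc0, heq⟩, ?_, ?_, ?_⟩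
  · refine ⟨hz0, ?_, ?_, ?_, ?_⟩
    · intro h
      rcases Int.prime_three.dvd_or_dvd h with h | h
      · exact h30 (Int.prime_three.dvd_of_dvd_pow h)
      · exact h31 h
    · intro π
      have hs := hSTM π.1 π.2.1 (hSPP.2.2.2.1 π).1
      set z : Eis := ((a0 ^ 2 * a1 : ℤ) : Eis) with hz
      set n0 : ℤ := (a0 * x0) ^ 3 + a0 ^ 2 * a1 * x1 ^ 3 with hn0
      have hn0' : n0 ≠ 0 := by
        intro h
        rw [h, mul_zero] at heq
        exact mul_ne_zero hB.ne (pow_ne_zero 3 hc0) heq.symm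
      have hzne : z ≠ 0 := cast_ne hz0
      have hBne : (B : Eis) ≠ 0 := cast_ne hB.ne
      have hcne : ((-a0 * x2 : ℤ) : Eis) ≠ 0 := cast_ne hc0
      have hnne : (n0 : Eis) ≠ 0 := cast_ne hn0'
      have hXne : ((a0 * x0 : ℤ) : Eis) ≠ 0 := cast_ne (mul_ne_zero ha0 hx0)
      have hYne : (x1 : Eis) ≠ 0 := cast_ne hx1
      have e1 : z * (n0 : Eis) = (B : Eis) * ((-a0 * x2 : ℤ) : Eis) ^ 3 := by
        have := congrArg (fun m : ℤ => (m : Eis)) heq
        push_cast at this ⊢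
        rw [hz]
        push_cast
        exact this
      have e2 : tm π.1 z (B : Eis) = tm π.1 z (z * (n0 : Eis)) := by
        rw [e1, mul_right hs hzne hBne (pow_ne_zero 3 hcne), s_cube' hs hzne hcne, add_zero]
      rw [e2, mul_right hs hzne hzne hnne, s_self hs hzne, zero_add]
      have e3 : ((a0 * x0 : ℤ) : Eis) ^ 3 + z * (x1 : Eis) ^ 3 + -(n0 : Eis) = 0 := by
        rw [hz, hn0]
        push_cast
        ring
      have e4 := hs.stein _ _ _ (pow_ne_zero 3 hXne) (mul_ne_zero hzne (pow_ne_zero 3 hYne))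
        (neg_ne_zero.2 hnne) e3
      rw [s_cube hs hXne (mul_ne_zero hzne (pow_ne_zero 3 hYne)),
        s_cube' hs (neg_ne_zero.2 hnne) hXne, zero_add, add_zero,
        s_neg hs (mul_ne_zero hzne (pow_ne_zero 3 hYne)) hnne,
        hs.mul _ _ _ hzne (pow_ne_zero 3 hYne) hnne, s_cube hs hYne hnne, add_zero] at e4
      exact e4
    · intro π hπ h
      apply hπ
      have e1 : (B : Eis) = (a0 : Eis) * a1 * a2 := by
        rw [← hp]
        push_cast
        ring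
      have e2 : ((a0 ^ 2 * a1 : ℤ) : Eis) = (a0 : Eis) ^ 2 * a1 := by
        push_cast
        ring
      rw [e2] at h
      rw [e1]
      rcases π.2.1.dvd_or_dvd h with h | h
      · exact ((π.2.1.dvd_of_dvd_pow h).mul_right _).mul_right _
      · exact (h.mul_left _).mul_right _
    · intro h
      have h1 := h9 h
      have e0 : a0 ^ 2 % 3 = 1 := by
        have h3 : a0 % 3 = 1 ∨ a0 % 3 = 2 := by omega
        rcases h3 with h3 | h3 <;> simp [pow_two, Int.mul_emod, h3]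
      have e1 : a1 ^ 2 % 3 = 1 := by
        have h3 : a1 % 3 = 1 ∨ a1 % 3 = 2 := by omega
        rcases h3 with h3 | h3 <;> simp [pow_two, Int.mul_emod, h3]
      unfold wt at h1
      rw [ZMod.intCast_eq_intCast_iff_dvd_sub] at h1
      set A0 : ℤ := a0 ^ 2 with hA0
      set A1 : ℤ := a1 ^ 2 with hA1
      have h3 : (9 : ℤ) ∣ A1 - A0 := by
        push_cast at h1
        omega
      have h4 : (a0 ^ 2 * a1) ^ 2 % 9 = 1 := by
        have h5 : (a0 ^ 2 * a1) ^ 2 = A0 ^ 3 + 9 * ((A1 - A0) / 9 * A0 ^ 2) := by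
          have h6 : A1 - A0 = 9 * ((A1 - A0) / 9) := by omega
          have h7 : (a0 ^ 2 * a1) ^ 2 = A0 ^ 2 * A1 := by rw [hA0, hA1]; ring
          rw [h7]
          linear_combination A0 ^ 2 * h6
        have h8 : A0 ^ 3 % 9 = 1 := by
          obtain ⟨k, hk⟩ : ∃ k, A0 = 1 + 3 * k := ⟨A0 / 3, by omega⟩
          have h9 : A0 ^ 3 = 1 + 9 * (k + 3 * k ^ 2 + 3 * k ^ 3) := by rw [hk]; ring
          omega
        omega
      unfold C9
      set z : ℤ := a0 ^ 2 * a1 with hz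
      have h5 : z % 9 = 0 ∨ z % 9 = 1 ∨ z % 9 = 2 ∨ z % 9 = 3 ∨ z % 9 = 4 ∨ z % 9 = 5 ∨
        z % 9 = 6 ∨ z % 9 = 7 ∨ z % 9 = 8 := by omega
      rcases h5 with h5 | h5 | h5 | h5 | h5 | h5 | h5 | h5 | h5 <;>
        simp [pow_two, Int.mul_emod, h5] at h4 ⊢
  · intro l hl h
    have hl' : Prime (l : ℤ) := Nat.prime_iff_prime_int.1 hl
    have h1 : (l : ℤ) ∣ a0 ∨ (l : ℤ) ∣ a1 := by
      rcases hl'.dvd_or_dvd h with h | h
      · exact Or.inl (hl'.dvd_of_dvd_pow h)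
      · exact Or.inr h
    have h3 : (l : ℤ) ∣ B := by
      rw [← hp]
      rcases h1 with h1 | h1
      · exact (h1.mul_right _).mul_right _
      · exact (h1.mul_left _).mul_right _
    rcases hl'.dvd_or_dvd h3 with h4 | h4
    · exact_mod_cast h4
    · exfalso
      have h5 : l ∣ q := by exact_mod_cast h4
      have h6 : l = q := (Nat.prime_dvd_prime_iff_eq hl hq).1 h5
      rw [h6] at h1
      exact h1.elim hq0 hq1
  · rintro ⟨t, ht⟩
    have hc' : IsCoprime (a0 ^ 2) a1 := hc.pow_left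
    obtain ⟨e, he⟩ := Int.eq_pow_of_mul_eq_pow_odd_left hc' (by decide : Odd 3) ht.symm
    obtain ⟨f, hf⟩ := Int.eq_pow_of_mul_eq_pow_odd_right hc' (by decide : Odd 3) ht.symm
    rcases h2 with h2 | h2
    · -- `a0` is a cube
      have h3 : e ∣ a0 := by
        rw [← Int.pow_dvd_pow_iff (n := 3) (by norm_num)]
        exact ⟨a0, by rw [← he]; ring⟩
      obtain ⟨g, hg⟩ := h3
      have he0 : e ≠ 0 := by
        rintro rfl
        exact ha0 (by rw [hg, zero_mul])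
      have h4 : g ^ 2 = e := by
        have h5 : e ^ 2 * g ^ 2 = e ^ 2 * e := by
          rw [← mul_pow, ← hg, he]
          ring
        exact mul_left_cancel₀ (pow_ne_zero 2 he0) h5
      have h5 : a0 = g ^ 3 := by rw [hg, ← h4]; ring
      have h6 : ¬ IsUnit g := fun h => h2 (by rw [h5]; exact h.pow 3)
      have h7 : g.natAbs ≠ 1 := fun h => h6 (Int.isUnit_iff_natAbs_eq.2 h)
      obtain ⟨l, hl, hlg⟩ := Nat.exists_prime_and_dvd h7
      refine no_cube hSPP hB hl ?_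
      have h8 : (l : ℤ) ∣ g := Int.natCast_dvd.2 hlg
      refine (pow_dvd_pow_of_dvd h8 3).trans ?_
      rw [← h5, ← hp]
      exact ⟨a1 * a2, by ring⟩
    · have h6 : ¬ IsUnit f := fun h => h2 (by rw [hf]; exact h.pow 3)
      have h7 : f.natAbs ≠ 1 := fun h => h6 (Int.isUnit_iff_natAbs_eq.2 h)
      obtain ⟨l, hl, hlg⟩ := Nat.exists_prime_and_dvd h7
      refine no_cube hSPP hB hl ?_
      have h8 : (l : ℤ) ∣ f := Int.natCast_dvd.2 hlg
      refine (pow_dvd_pow_of_dvd h8 3).trans ?_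
      rw [← hf, ← hp]
      exact ⟨a0 * a2, by ring⟩

end FD2

open FD2 in
theorem FD2_thm (hSTM : STM) (hSPP : SPP) : FD2 := by
  intro n q a x hq _ _ _ hB hcell
  obtain ⟨hne, hsum, hprod, hcop, htwo, hnine⟩ := hcell
  rw [Fin.sum_univ_three] at hsum
  rw [Fin.prod_univ_three] at hprod
  have hq' : Prime (q : ℤ) := Nat.prime_iff_prime_int.1 hq
  have hqd : (q : ℤ) ∣ a 0 * a 1 * a 2 := by
    rw [hprod]
    exact dvd_mul_left _ _
  have hnot : ∀ i j, i ≠ j → (q : ℤ) ∣ a i → ¬ (q : ℤ) ∣ a j := fun i j hij h1 h2 =>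
    hq'.not_isUnit ((hcop i j hij).isUnit_of_dvd' h1 h2)
  have hk : (q : ℤ) ∣ a 0 ∨ (q : ℤ) ∣ a 1 ∨ (q : ℤ) ∣ a 2 := by
    rcases hq'.dvd_or_dvd hqd with h | h
    · rcases hq'.dvd_or_dvd h with h | h
      · exact Or.inl h
      · exact Or.inr (Or.inl h)
    · exact Or.inr (Or.inr h)
  rcases hk with h | h | h
  · refine main hSTM hSPP (a0 := a 1) (a1 := a 2) (a2 := a 0) hq hB (hne 1) (hne 2) (hne 0) (by linear_combination hsum)
      (by linear_combination hprod) (hcop 1 2 (by decide)) ?_ (fun h9 => hnine h9 1 2)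
      (hnot 0 1 (by decide) h) (hnot 0 2 (by decide) h)
    obtain ⟨j, hj, hu⟩ := htwo 0
    fin_cases j
    · exact absurd rfl hj
    · exact Or.inl hu
    · exact Or.inr hu
  · refine main hSTM hSPP (a0 := a 0) (a1 := a 2) (a2 := a 1) hq hB (hne 0) (hne 2) (hne 1) (by linear_combination hsum)
      (by linear_combination hprod) (hcop 0 2 (by decide)) ?_ (fun h9 => hnine h9 0 2)
      (hnot 1 0 (by decide) h) (hnot 1 2 (by decide) h)
    obtain ⟨j, hj, hu⟩ := htwo 1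
    fin_cases j
    · exact Or.inl hu
    · exact absurd rfl hj
    · exact Or.inr hu
  · refine main hSTM hSPP (a0 := a 0) (a1 := a 1) (a2 := a 2) hq hB (hne 0) (hne 1) (hne 2) (by linear_combination hsum)
      (by linear_combination hprod) (hcop 0 1 (by decide)) ?_ (fun h9 => hnine h9 0 1)
      (hnot 2 0 (by decide) h) (hnot 2 1 (by decide) h)
    obtain ⟨j, hj, hu⟩ := htwo 2
    fin_cases j
    · exact Or.inl hu
    · exact Or.inr hu
    · exact absurd rfl hj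

end Pool.Agent.PT
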