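import Pool.Agent.PT.Stmts4

/-!
# Splitting into cells
-/

namespace Pool.Agent.PT

open Pool.Agent.Lib_helper18 Pool.Agent.Lib_helper18.Eis Pool.Agent.Lib_helper84.Cub

namespace FDC

/-- cube-free integers -/
def CF (a : ℤ) : Prop := ∀ p : ℤ, Prime p → ¬ p ^ 3 ∣ a

theorem exists_cf (n : ℤ) (hn : n ≠ 0) : ∃ a x : ℤ, n = a * x ^ 3 ∧ CF a := by
  suffices h : ∀ N : ℕ, ∀ n : ℤ, n.natAbs = N → n ≠ 0 → ∃ a x : ℤ, n = a * x ^ 3 ∧ CF a from
    h _ n rfl hn
  intro N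
  induction N using Nat.strong_induction_on with
  | _ N ih =>
    intro n hN hn
    by_cases h : CF n
    · exact ⟨n, 1, by ring, h⟩
    · unfold CF at h
      push Not at h
      obtain ⟨p, hp, c, hc⟩ := h
      have hc0 : c ≠ 0 := by
        rintro rfl
        rw [mul_zero] at hc
        exact hn hc
      have hp2 : 2 ≤ p.natAbs := (Int.prime_iff_natAbs_prime.mp hp).two_le
      have hlt : c.natAbs < N := by
        rw [← hN, hc, Int.natAbs_mul, Int.natAbs_pow]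
        have h1 : 0 < c.natAbs := Int.natAbs_pos.mpr hc0
        have h2 : 1 < p.natAbs ^ 3 := Nat.one_lt_pow (by norm_num) (by omega)
        nlinarith
      obtain ⟨a, x, hax, ha⟩ := ih _ hlt c rfl hc0
      exact ⟨a, p * x, by rw [hc, hax]; ring, ha⟩

theorem CF.mul {a b : ℤ} (ha : CF a) (hb : CF b) (hab : IsCoprime a b) : CF (a * b) := by
  intro p hp h
  by_cases hpa : p ∣ a
  · have h1 : IsCoprime p b := hab.of_isCoprime_of_dvd_left hpa
    exact ha p hp ((h1.pow_left (m := 3)).dvd_of_dvd_mul_right h)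
  · have h1 : IsCoprime p a := (hp.coprime_iff_not_dvd).mpr hpa
    exact hb p hp ((h1.pow_left (m := 3)).dvd_of_dvd_mul_left h)

theorem CF.unit {a d : ℤ} (ha : CF a) (hd : d ^ 3 ∣ a) (hd0 : d ≠ 0) : IsUnit d := by
  by_contra h
  obtain ⟨p, hp, hpd⟩ := WfDvdMonoid.exists_irreducible_factor h hd0
  exact ha p hp.prime ((pow_dvd_pow_of_dvd hpd 3).trans hd)

/-- uniqueness of the cube-free part -/
theorem cf_unique {a b m x : ℤ} (ha : CF a) (hb : CF b) (hm : m ≠ 0) (hx : x ≠ 0)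
    (h : a * m ^ 3 = b * x ^ 3) : b = a ∨ b = -a := by
  obtain ⟨g, m', x', hg, hcop, rfl, rfl⟩ : ∃ g m' x' : ℤ, g ≠ 0 ∧ IsCoprime m' x' ∧
      m = g * m' ∧ x = g * x' := by
    have hg0 : (Int.gcd m x : ℤ) ≠ 0 := by
      have := Int.gcd_pos_of_ne_zero_left x hm
      omega
    obtain ⟨m', hm'⟩ := Int.gcd_dvd_left m x
    obtain ⟨x', hx'⟩ := Int.gcd_dvd_right m x
    refine ⟨Int.gcd m x, m', x', hg0, ?_, hm', hx'⟩
    have h1 := Int.gcd_eq_gcd_ab m x
    refine ⟨Int.gcdA m x, Int.gcdB m x, ?_⟩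
    apply mul_left_cancel₀ hg0
    linear_combination (-1 : ℤ) * h1 - Int.gcdA m x * hm' - Int.gcdB m x * hx'
  have h2 : a * m' ^ 3 = b * x' ^ 3 := by
    apply mul_left_cancel₀ (pow_ne_zero 3 hg)
    linear_combination h
  have hm0 : m' ≠ 0 := by rintro rfl; exact hm (by ring)
  have hx0 : x' ≠ 0 := by rintro rfl; exact hx (by ring)
  have hc3 : IsCoprime (m' ^ 3) (x' ^ 3) := hcop.pow
  have u1 : IsUnit m' := hb.unit (hc3.dvd_of_dvd_mul_right ⟨a, by rw [← h2]; ring⟩) hm0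
  have u2 : IsUnit x' := ha.unit (hc3.symm.dvd_of_dvd_mul_right ⟨b, by rw [h2]; ring⟩) hx0
  rcases Int.isUnit_iff.mp u1 with rfl | rfl <;> rcases Int.isUnit_iff.mp u2 with rfl | rfl
  · left; linarith
  · right; linarith
  · right; linarith
  · left; linarith

/-- the condition on `B` means that `B` is cube-free -/
theorem cf_of_BOk {B : ℤ} (hB : BOk B) : CF B := by
  intro p hp h
  have hp0 : p ≠ 0 := hp.ne_zero
  have hnu : ¬ IsUnit ((p : ℤ) : Eis) := by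
    rw [isUnit_iff_norm]
    intro h1
    have h2 : ((p : ℤ) : Eis).norm = p ^ 2 := by
      rw [Eis.norm]; simp
    rw [h2] at h1
    have : p = 1 ∨ p = -1 := by
      have h3 : (p - 1) * (p + 1) = 0 := by linear_combination h1
      rcases mul_eq_zero.mp h3 with h | h
      · left; linarith
      · right; linarith
    exact hp.not_unit (Int.isUnit_iff.mpr this)
  have hpe : ((p : ℤ) : Eis) ≠ 0 := by
    intro h1
    have := congrArg Eis.re h1
    simp at this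
    exact hp0 this
  obtain ⟨l, hlirr, hlt⟩ := WfDvdMonoid.exists_irreducible_factor hnu hpe
  have hl : Prime l := hlirr.prime
  have hpB : p ∣ B := (dvd_pow_self p (by norm_num)).trans h
  have hl3 : ¬ l ∣ 3 := by
    intro h1
    have h2 : lam ∣ ((B : ℤ) : Eis) := by
      have h3 : ((p : ℤ) : Eis) ∣ ((B : ℤ) : Eis) := by
        obtain ⟨c, rfl⟩ := hpB
        exact ⟨c, by push_cast; ring⟩
      exact (((dvd_three_iff hl).mp h1).symm.dvd.trans hlt).trans h3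
    rw [lam_dvd_iff] at h2
    simp at h2
    exact hB.three h2
  obtain ⟨i, hi⟩ := exists_prim (not_lam_dvd_of_prime hl hl3)
  have hass : Associated (l * w ^ i) l := ⟨(isUnit_w.pow i).unit⁻¹, by
    rw [mul_assoc]; simp⟩
  have hBe : ((B : ℤ) : Eis) ≠ 0 := by
    intro h1
    have := congrArg Eis.re h1
    simp at this
    exact hB.ne this
  have key : ∀ π : Eis, Associated π l → π.re % 3 = 2 → (3 : ℤ) ∣ π.im → False := by
    intro π hπ h1 h2
    have hπp : Prime π := hπ.symm.prime hl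
    have h3 := hB.cf ⟨π, hπp, h1, h2⟩
    simp only at h3
    have h4 : π ^ 3 ∣ ((B : ℤ) : Eis) := by
      have h5 : π ∣ ((p : ℤ) : Eis) := hπ.dvd.trans hlt
      refine (pow_dvd_pow_of_dvd h5 3).trans ?_
      obtain ⟨c, rfl⟩ := h
      exact ⟨c, by push_cast; ring⟩
    have h6 : 3 ≤ V π ((B : ℤ) : Eis) := (fin hπp hBe).le_multiplicity_of_pow_dvd h4
    omega
  obtain ⟨hi1, hi2⟩ := hi
  have h5 : (l * w ^ i).re % 3 = 1 ∨ (l * w ^ i).re % 3 = 2 := by omega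
  rcases h5 with h5 | h5
  · refine key (-(l * w ^ i)) (hass.neg_left) ?_ ?_
    · rw [neg_re]; omega
    · rw [neg_im]; omega
  · exact key _ hass h5 hi1

theorem wt_congr {m n : ℤ} (h : m % 9 = n % 9) : wt m = wt n := by
  obtain ⟨t, ht⟩ : ∃ t, m = n + 9 * t := ⟨(m - n) / 9, by omega⟩
  have h1 : (m - 1) / 3 = (n - 1) / 3 + 3 * t := by omega
  rw [wt, wt, h1]
  push_cast
  have h3 : (3 : ZMod 3) = 0 := by decide
  rw [h3]; ring

/-- three squares modulo `9` with product `1`, two of them equal -/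
theorem sq_aux {a b c : ℤ} (ha : ¬ (3 : ℤ) ∣ a) (hc : ¬ (3 : ℤ) ∣ c)
    (h : a ^ 2 % 9 = b ^ 2 % 9) (h1 : (a * b * c) ^ 2 % 9 = 1) : a ^ 2 % 9 = c ^ 2 % 9 := by
  have e1 : (a ^ 2 * b ^ 2 * c ^ 2) % 9 = 1 := by rw [← h1]; congr 1; ring
  have ra : a ^ 2 % 9 = 1 ∨ a ^ 2 % 9 = 4 ∨ a ^ 2 % 9 = 7 := by
    have : a % 9 = 1 ∨ a % 9 = 2 ∨ a % 9 = 4 ∨ a % 9 = 5 ∨ a % 9 = 7 ∨ a % 9 = 8 := by omega
    rcases this with h | h | h | h | h | h <;> simp [pow_two, Int.mul_emod, h]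
  have rc : c ^ 2 % 9 = 1 ∨ c ^ 2 % 9 = 4 ∨ c ^ 2 % 9 = 7 := by
    have : c % 9 = 1 ∨ c % 9 = 2 ∨ c % 9 = 4 ∨ c % 9 = 5 ∨ c % 9 = 7 ∨ c % 9 = 8 := by omega
    rcases this with h | h | h | h | h | h <;> simp [pow_two, Int.mul_emod, h]
  rw [Int.mul_emod, Int.mul_emod (a ^ 2)] at e1
  rw [← h] at e1
  rcases ra with h2 | h2 | h2 <;> rcases rc with h3 | h3 | h3 <;> rw [h2, h3] at e1 ⊢ <;>
    norm_num at e1

/-- a cube prime to `3` is `± 1` modulo `9` -/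
theorem cube_mod {x : ℤ} (hx : ¬ (3 : ℤ) ∣ x) : x ^ 3 % 9 = 1 ∨ x ^ 3 % 9 = 8 := by
  have : x % 9 = 1 ∨ x % 9 = 2 ∨ x % 9 = 4 ∨ x % 9 = 5 ∨ x % 9 = 7 ∨ x % 9 = 8 := by omega
  rcases this with h | h | h | h | h | h <;> simp [pow_succ, Int.mul_emod, h]

/-- the squares of `a` and `a x^3` modulo `9` -/
theorem sq_cube_mod {a x : ℤ} (hx : ¬ (3 : ℤ) ∣ x) : (a * x ^ 3) ^ 2 % 9 = a ^ 2 % 9 := by
  have h := cube_mod hx
  have e : (a * x ^ 3) ^ 2 = a ^ 2 * (x ^ 3 * x ^ 3) := by ring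
  have h1 : (x ^ 3 * x ^ 3) % 9 = 1 := by
    rcases h with h | h <;> simp [Int.mul_emod, h]
  rw [e, Int.mul_emod, h1, mul_one, Int.emod_emod_of_dvd _ (dvd_refl _)]

/-- if `3` divides one of the three terms, all the squares agree modulo `9` -/
theorem core {a b c x y z : ℤ} (ha : ¬ (3 : ℤ) ∣ a) (hc : ¬ (3 : ℤ) ∣ c)
    (hx : ¬ (3 : ℤ) ∣ x) (hy : ¬ (3 : ℤ) ∣ y) (hz : (3 : ℤ) ∣ z)
    (hs : a * x ^ 3 + b * y ^ 3 + c * z ^ 3 = 0) (h9 : (a * b * c) ^ 2 % 9 = 1) :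
    a ^ 2 % 9 = b ^ 2 % 9 ∧ a ^ 2 % 9 = c ^ 2 % 9 := by
  have h1 : a ^ 2 % 9 = b ^ 2 % 9 := by
    rw [← sq_cube_mod (a := a) hx, ← sq_cube_mod (a := b) hy]
    obtain ⟨z', rfl⟩ := hz
    have : a * x ^ 3 = -(b * y ^ 3) - 27 * (c * z' ^ 3) := by linear_combination hs
    rw [this]
    exact Int.modEq_iff_dvd.mpr ⟨-3 * (c * z' ^ 3) * (2 * (b * y ^ 3) + 27 * (c * z' ^ 3)), by ring⟩
  exact ⟨h1, sq_aux ha hc h1 h9⟩

/-- `3` divides `m` -/
theorem three_dvd {B m a b c : ℤ} (hB : C9 B) (hs : a + b + c = 0) (hp : a * b * c = B * m ^ 3) :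
    (3 : ℤ) ∣ m := by
  by_contra hm
  have h1 := cube_mod hm
  have h2 : (B * m ^ 3) % 9 = 1 ∨ (B * m ^ 3) % 9 = 8 := by
    rcases hB with h | h <;> rcases h1 with h1 | h1 <;> simp [Int.mul_emod, h, h1]
  rw [← hp] at h2
  obtain rfl : c = -(a + b) := by linarith
  have ra : a % 9 = 0 ∨ a % 9 = 1 ∨ a % 9 = 2 ∨ a % 9 = 3 ∨ a % 9 = 4 ∨ a % 9 = 5 ∨ a % 9 = 6 ∨
    a % 9 = 7 ∨ a % 9 = 8 := by omega
  have rb : b % 9 = 0 ∨ b % 9 = 1 ∨ b % 9 = 2 ∨ b % 9 = 3 ∨ b % 9 = 4 ∨ b % 9 = 5 ∨ b % 9 = 6 ∨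
    b % 9 = 7 ∨ b % 9 = 8 := by omega
  obtain ⟨a', ha'⟩ : ∃ a', a = a % 9 + 9 * a' := ⟨a / 9, by omega⟩
  obtain ⟨b', hb'⟩ : ∃ b', b = b % 9 + 9 * b' := ⟨b / 9, by omega⟩
  generalize a % 9 = r at *
  generalize b % 9 = s at *
  have e : (a * b * -(a + b)) % 9 = (r * s * -(r + s)) % 9 := by
    have e1 : a ≡ r [ZMOD 9] := Int.modEq_iff_dvd.mpr ⟨-a', by rw [ha']; ring⟩
    have e2 : b ≡ s [ZMOD 9] := Int.modEq_iff_dvd.mpr ⟨-b', by rw [hb']; ring⟩
    exact (e1.mul e2).mul (e1.add e2).neg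
  rw [e] at h2
  rcases ra with rfl | rfl | rfl | rfl | rfl | rfl | rfl | rfl | rfl <;>
    rcases rb with rfl | rfl | rfl | rfl | rfl | rfl | rfl | rfl | rfl <;> revert h2 <;> decide

theorem not_both {x y : ℤ} (h : IsCoprime x y) (hy : (3 : ℤ) ∣ y) : ¬ (3 : ℤ) ∣ x := by
  intro hx
  obtain ⟨u, v, huv⟩ := h
  have : (3 : ℤ) ∣ 1 := by
    rw [← huv]
    exact dvd_add (Dvd.dvd.mul_left hx _) (Dvd.dvd.mul_left hy _)
  omega

theorem last {B m : ℤ} {A a x : Fin 3 → ℤ} (hB : BOk B) (hs : A 0 + A 1 + A 2 = 0)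
    (hp : A 0 * A 1 * A 2 = B * m ^ 3) (hA : ∀ k, A k = a k * x k ^ 3)
    (ha : ∏ k, a k = B) (hx : ∀ i j, i ≠ j → IsCoprime (x i) (x j)) (h9 : C9 B) :
    ∀ k k', wt (a k ^ 2) = wt (a k' ^ 2) := by
  have hm := three_dvd h9 hs hp
  rw [Fin.prod_univ_three] at ha
  have ha' : ∀ k, ¬ (3 : ℤ) ∣ a k := by
    intro k hk
    apply hB.three
    rw [← ha]
    fin_cases k
    · exact Dvd.dvd.mul_right (Dvd.dvd.mul_right hk _) _
    · exact Dvd.dvd.mul_right (Dvd.dvd.mul_left hk _) _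
    · exact Dvd.dvd.mul_left hk _
  have hB9 : B ^ 2 % 9 = 1 := by
    rcases h9 with h | h <;> simp [pow_two, Int.mul_emod, h]
  have p3 : Prime (3 : ℤ) := Int.prime_three
  have hd : ∀ k, (3 : ℤ) ∣ A k → (3 : ℤ) ∣ x k := by
    intro k hk
    rw [hA k] at hk
    rcases p3.dvd_or_dvd hk with h | h
    · exact absurd h (ha' k)
    · exact p3.dvd_of_dvd_pow h
  have h3 : (3 : ℤ) ∣ A 0 * A 1 * A 2 := by
    rw [hp]
    exact Dvd.dvd.mul_left (Dvd.dvd.pow hm (by norm_num)) _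
  have hs' : a 0 * x 0 ^ 3 + a 1 * x 1 ^ 3 + a 2 * x 2 ^ 3 = 0 := by
    rw [← hA, ← hA, ← hA]; exact hs
  have key : a 0 ^ 2 % 9 = a 1 ^ 2 % 9 ∧ a 0 ^ 2 % 9 = a 2 ^ 2 % 9 := by
    rcases p3.dvd_or_dvd h3 with h | h
    · rcases p3.dvd_or_dvd h with h | h
      · have hz := hd 0 h
        have h1 := not_both (hx 1 0 (by decide)) hz
        have h2 := not_both (hx 2 0 (by decide)) hz
        obtain ⟨r1, r2⟩ := core (a := a 1) (b := a 2) (c := a 0) (ha' 1) (ha' 0) h1 h2 hz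
          (by linear_combination hs') (by
            rw [← hB9, ← ha]; congr 1; ring)
        exact ⟨r2.symm, r2.symm.trans r1⟩
      · have hz := hd 1 h
        have h1 := not_both (hx 0 1 (by decide)) hz
        have h2 := not_both (hx 2 1 (by decide)) hz
        obtain ⟨r1, r2⟩ := core (a := a 0) (b := a 2) (c := a 1) (ha' 0) (ha' 1) h1 h2 hz
          (by linear_combination hs') (by
            rw [← hB9, ← ha]; congr 1; ring)
        exact ⟨r2, r1⟩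
    · have hz := hd 2 h
      have h1 := not_both (hx 0 2 (by decide)) hz
      have h2 := not_both (hx 1 2 (by decide)) hz
      obtain ⟨r1, r2⟩ := core (a := a 0) (b := a 1) (c := a 2) (ha' 0) (ha' 2) h1 h2 hz
        (by linear_combination hs') (by
          rw [← hB9, ← ha])
      exact ⟨r1, r2⟩
  have hall : ∀ k, a k ^ 2 % 9 = a 0 ^ 2 % 9 := by
    intro k
    fin_cases k
    · rfl
    · exact key.1.symm
    · exact key.2.symm
  intro k k'
  exact wt_congr ((hall k).trans (hall k').symm)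

end FDC

open FDC in
theorem FDC_thm : FDC := by
  intro B m A hB hA hsum hprod hcop
  choose a x hax hcf using fun k => exists_cf (A k) (hA k)
  have ha0 : ∀ k, a k ≠ 0 := by
    intro k h
    apply hA k
    rw [hax k, h, zero_mul]
  have hx0 : ∀ k, x k ≠ 0 := by
    intro k h
    apply hA k
    rw [hax k, h]; ring
  have hm0 : m ≠ 0 := by
    rintro rfl
    have : A 0 * A 1 * A 2 = 0 := by rw [hprod]; ring
    exact mul_ne_zero (mul_ne_zero (hA 0) (hA 1)) (hA 2) this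
  have hca : ∀ i j, i ≠ j → IsCoprime (a i) (a j) := by
    intro i j hij
    have h := hcop i j hij
    rw [hax i, hax j] at h
    exact h.of_mul_left_left.of_mul_right_left
  have hcx : ∀ i j, i ≠ j → IsCoprime (x i) (x j) := by
    intro i j hij
    have h := hcop i j hij
    rw [hax i, hax j] at h
    exact (h.of_mul_left_right.of_mul_right_right.of_isCoprime_of_dvd_left
      (dvd_pow_self _ (by norm_num))).of_isCoprime_of_dvd_right (dvd_pow_self _ (by norm_num))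
  have hP : CF (a 0 * a 1 * a 2) := CF.mul (CF.mul (hcf 0) (hcf 1) (hca 0 1 (by decide))) (hcf 2)
    (IsCoprime.mul_left (hca 0 2 (by decide)) (hca 1 2 (by decide)))
  have hu := cf_unique (cf_of_BOk hB) hP hm0
    (mul_ne_zero (mul_ne_zero (hx0 0) (hx0 1)) (hx0 2)) (by
      rw [← hprod, hax 0, hax 1, hax 2]; ring)
  rcases hu with hu | hu
  · have hprod' : ∏ k, a k = B := by rw [Fin.prod_univ_three, hu]
    exact ⟨a, x, hax, hprod', hca, hcx, last hB hsum hprod hax hprod' hcx⟩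
  · have hprod' : ∏ k, (-a k) = B := by rw [Fin.prod_univ_three]; linear_combination -hu
    have hax' : ∀ k, A k = (-a k) * (-x k) ^ 3 := by intro k; rw [hax k]; ring
    have hcx' : ∀ i j, i ≠ j → IsCoprime (-x i) (-x j) := fun i j h =>
      (hcx i j h).neg_left.neg_right
    exact ⟨fun k => -a k, fun k => -x k, hax', hprod',
      fun i j h => (hca i j h).neg_left.neg_right, hcx',
      last hB hsum hprod hax' hprod' hcx'⟩

end Pool.Agent.PT
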