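import Pool.Agent.PT.Stmts2

/-!
# First descent: a primitive solution of `x^3 + y^3 = B z^3`
-/

namespace Pool.Agent.PT

open Pool.Agent.Lib_helper18 Pool.Agent.Lib_helper18.Eis Pool.Agent.Lib_helper84.Cub

namespace FDK

theorem cast_ne {n : ℤ} (h : n ≠ 0) : (n : Eis) ≠ 0 := by
  intro h0
  apply h
  have := congrArg Eis.re h0
  simpa using this

/-- integers dividing an element divide both coordinates -/
theorem int_dvd {m : ℤ} {δ : Eis} (h : (m : Eis) ∣ δ) : m ∣ δ.re ∧ m ∣ δ.im := by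
  obtain ⟨c, rfl⟩ := h
  constructor
  · exact ⟨c.re, by simp⟩
  · exact ⟨c.im, by simp⟩

/-- splitting off the integral content -/
theorem content {a : Eis} (ha : a ≠ 0) : ∃ (g : ℤ) (δ : Eis), g ≠ 0 ∧ a = g * δ ∧
    ∀ m : ℤ, (m : Eis) ∣ δ → IsUnit m := by
  have hpos : 0 < Int.gcd a.re a.im := by
    rw [Int.gcd_pos_iff]
    by_contra hcon
    push Not at hcon
    exact ha (Eis.ext hcon.1 hcon.2)
  obtain ⟨m', n', h1, h2, h3⟩ := Int.exists_gcd_one hpos
  refine ⟨Int.gcd a.re a.im, ⟨m', n'⟩, by exact_mod_cast hpos.ne', ?_, ?_⟩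
  · apply Eis.ext
    · simp only [mul_re, intCast_re, intCast_im, zero_mul, sub_zero]
      linarith
    · simp only [mul_im, intCast_re, intCast_im, zero_mul]
      linarith
  · intro m hm
    obtain ⟨h4, h5⟩ := int_dvd hm
    have h6 : m ∣ (Int.gcd m' n' : ℤ) := Int.dvd_coe_gcd h4 h5
    rw [h1] at h6
    exact isUnit_of_dvd_one (by exact_mod_cast h6)

theorem three_fac : (3 : Eis) = (1 - w) * (1 - w ^ 2) := by
  linear_combination w_rel - w_cube

section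

variable {π : Eis}

theorem right_mul {s : Eis → Eis → ZMod 3} {e : ℕ} (h : LSym π s e) {a b c : Eis} (ha : a ≠ 0)
    (hb : b ≠ 0) (hc : c ≠ 0) : s a (b * c) = s a b + s a c := by
  have h1 := h.skew (b * c) a (mul_ne_zero hb hc) ha
  rw [h1, h.mul b c a hb hc ha, h.skew a b ha hb, h.skew a c ha hc]
  ring

theorem not_dvd_of {x y : ℤ} (hπ : Prime π) (h3 : ¬ π ∣ 3) (hxy : IsCoprime x y) {c : Eis}
    (hc : c ∣ 3) (h1 : π ∣ c * x) (h2 : π ∣ c * y) : False := by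
  have hcπ : ¬ π ∣ c := fun h => h3 (h.trans hc)
  have hx : π ∣ (x : Eis) := (hπ.dvd_or_dvd h1).resolve_left hcπ
  have hy : π ∣ (y : Eis) := (hπ.dvd_or_dvd h2).resolve_left hcπ
  obtain ⟨a, b, hab⟩ := hxy
  apply hπ.not_isUnit
  apply isUnit_of_dvd_one
  have h : (1 : Eis) = (a : Eis) * x + b * y := by
    have := congrArg (fun t : ℤ => (t : Eis)) hab.symm
    push_cast at this
    exact this
  rw [h]
  exact dvd_add (Dvd.dvd.mul_left hx _) (Dvd.dvd.mul_left hy _)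

end

end FDK

open FDK in
theorem FDK_thm (hSTM : STM) (hSPP : SPP) (hSTAR : STAR) : FDK := by
  intro B x y z hB hM hxy hz hxyz
  have hB0 : (B : Eis) ≠ 0 := cast_ne hB.ne
  have hz0 : (z : Eis) ≠ 0 := cast_ne hz
  obtain ⟨F, hF⟩ : ∃ F : ℕ → Eis, F = fun i => (x : Eis) + w ^ i * 1 * y := ⟨_, rfl⟩
  have hF0 : F 0 = (x : Eis) + y := by rw [hF]; ring
  have hF1 : F 1 = (x : Eis) + w * y := by rw [hF]; ring
  have hF2 : F 2 = (x : Eis) + w ^ 2 * y := by rw [hF]; ring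
  have hcast : (x : Eis) ^ 3 + (y : Eis) ^ 3 = B * (z : Eis) ^ 3 := by
    have := congrArg (fun t : ℤ => (t : Eis)) hxyz
    push_cast at this
    exact this
  have hprod : F 0 * F 1 * F 2 = (B : Eis) * (z : Eis) ^ 3 := by
    rw [← hcast, hF0, hF1, hF2]
    linear_combination ((x : Eis) ^ 2 * y + x * y ^ 2) * w_rel + ((x : Eis) * y ^ 2 + y ^ 3) * w_cube
  have hne : F 0 * F 1 * F 2 ≠ 0 := by
    rw [hprod]
    exact mul_ne_zero hB0 (pow_ne_zero _ hz0)
  have h0 : F 0 ≠ 0 := left_ne_zero_of_mul (left_ne_zero_of_mul hne)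
  have h1 : F 1 ≠ 0 := right_ne_zero_of_mul (left_ne_zero_of_mul hne)
  have h2 : F 2 ≠ 0 := right_ne_zero_of_mul hne
  have hc1 : conj (F 1) = F 2 := by
    rw [hF1, hF2, map_add, map_mul, conj_intCast, conj_intCast, conj_w]
  have hc2 : conj (F 2) = F 1 := by rw [← hc1, conj_conj]
  have hw0 : w ≠ 0 := fun h => by
    have := w_cube
    rw [h] at this
    norm_num at this
  have hFall : ∀ i, F i ≠ 0 := by
    intro i
    have hi : F i = F (i % 3) := by
      have : w ^ i = w ^ (i % 3) := by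
        conv_lhs => rw [← Nat.div_add_mod i 3, pow_add, pow_mul, w_cube, one_pow, one_mul]
      rw [hF]
      simp only [this]
    rw [hi]
    have h3 : i % 3 < 3 := Nat.mod_lt _ (by norm_num)
    interval_cases (i % 3)
    · exact h0
    · exact h1
    · exact h2
  -- the element
  obtain ⟨ζ, hζ⟩ : ∃ ζ : Eis, ζ = w ^ 2 * (F 1 * F 2 ^ 2) := ⟨_, rfl⟩
  have hζ0 : ζ ≠ 0 := by
    rw [hζ]
    exact mul_ne_zero (pow_ne_zero _ hw0) (mul_ne_zero h1 (pow_ne_zero _ h2))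
  have hζn : ζ * conj ζ = (F 1 * F 2) ^ 3 := by
    rw [hζ, map_mul, map_mul, map_pow, map_pow, hc1, hc2, conj_w]
    linear_combination ((F 1 * F 2) ^ 3 * (w ^ 3 + 1)) * w_cube
  have htm : ∀ π : PP, tm π.1 ζ (B : Eis) = 0 := by
    intro π
    have hs := hSTM π.1 π.2.1 (hSPP.2.2.2.1 π).1
    obtain ⟨hst, -⟩ := hSTAR π.1 (tm π.1) 1 hs x y 0 0 1 F (fun _ => 0 + w ^ 0 * 1 * 0)
      (fun i => (x : Eis) * 0 - w ^ i * 0 * y) (fun i => by rw [hF]) (fun i => by ring)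
      (fun i => by ring) one_ne_zero hFall
    have hz3 : (z : Eis) ^ 3 ≠ 0 := pow_ne_zero _ hz0
    have hr : ∀ a : Eis, a ≠ 0 → tm π.1 a (F 0 * F 1 * F 2) = tm π.1 a (B : Eis) := by
      intro a ha
      rw [hprod, right_mul hs ha hB0 hz3, pow_succ, right_mul hs ha (pow_ne_zero _ hz0) hz0,
        pow_two, right_mul hs ha hz0 hz0]
      have h3 : (3 : ZMod 3) = 0 := rfl
      linear_combination (tm π.1 a z) * h3
    rw [hr _ h1, hr _ h2, hr _ hw0] at hst
    rw [hζ, hs.mul _ _ _ (pow_ne_zero _ hw0) (mul_ne_zero h1 (pow_ne_zero _ h2)) hB0,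
      hs.mul _ _ _ h1 (pow_ne_zero _ h2) hB0, pow_two, pow_two, hs.mul _ _ _ hw0 hw0 hB0,
      hs.mul _ _ _ h2 h2 hB0]
    have h3 : (3 : ZMod 3) = 0 := rfl
    linear_combination hst + (tm π.1 w B + tm π.1 (F 2) B) * h3
  have hV : ∀ π : PP, ¬ π.1 ∣ (B : Eis) → 3 ∣ V π.1 ζ := by
    intro π hπB
    have hπ := π.2.1
    have h3 : ¬ π.1 ∣ 3 := (hSPP.2.2.2.1 π).1
    have hsum : V π.1 (F 0) + V π.1 (F 1) + V π.1 (F 2) = 3 * V π.1 (z : Eis) := by
      rw [← V_mul hπ h0 h1, ← V_mul hπ (mul_ne_zero h0 h1) h2, hprod,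
        V_mul_not_dvd hπ hπB (pow_ne_zero _ hz0), V_pow hπ hz0]
    have hd1 : (1 - w) ∣ (3 : Eis) := ⟨_, three_fac⟩
    have h01 : ¬ (π.1 ∣ F 0 ∧ π.1 ∣ F 1) := by
      rintro ⟨ha, hb⟩
      refine not_dvd_of hπ h3 hxy hd1 ?_ ?_
      · have : (1 - w) * (x : Eis) = F 1 - w * F 0 := by rw [hF0, hF1]; ring
        rw [this]
        exact dvd_sub hb (Dvd.dvd.mul_left ha _)
      · have : (1 - w) * (y : Eis) = F 0 - F 1 := by rw [hF0, hF1]; ring
        rw [this]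
        exact dvd_sub ha hb
    have h12 : ¬ (π.1 ∣ F 1 ∧ π.1 ∣ F 2) := by
      rintro ⟨ha, hb⟩
      refine not_dvd_of hπ h3 hxy hd1 ?_ ?_
      · have : (1 - w) * (x : Eis) = F 2 - w * F 1 := by rw [hF1, hF2]; ring
        rw [this]
        exact dvd_sub hb (Dvd.dvd.mul_left ha _)
      · have : (1 - w) * (y : Eis) = w ^ 2 * (F 1 - F 2) := by
          rw [hF1, hF2]
          linear_combination (-(1 - w) * (y : Eis)) * w_cube
        rw [this]
        exact Dvd.dvd.mul_left (dvd_sub ha hb) _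
    have hd2 : (1 - w ^ 2) ∣ (3 : Eis) := ⟨1 - w, by rw [three_fac]; ring⟩
    have h02 : ¬ (π.1 ∣ F 0 ∧ π.1 ∣ F 2) := by
      rintro ⟨ha, hb⟩
      refine not_dvd_of hπ h3 hxy hd2 ?_ ?_
      · have : (1 - w ^ 2) * (x : Eis) = F 2 - w ^ 2 * F 0 := by rw [hF0, hF2]; ring
        rw [this]
        exact dvd_sub hb (Dvd.dvd.mul_left ha _)
      · have : (1 - w ^ 2) * (y : Eis) = F 0 - F 2 := by rw [hF0, hF2]; ring
        rw [this]
        exact dvd_sub ha hb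
    have hz0' : V π.1 (F 0) = 0 ∨ V π.1 (F 1) = 0 := by
      by_contra hcon
      push Not at hcon
      apply h01
      constructor
      · by_contra h
        exact hcon.1 (V_eq_zero h)
      · by_contra h
        exact hcon.2 (V_eq_zero h)
    have hz1' : V π.1 (F 1) = 0 ∨ V π.1 (F 2) = 0 := by
      by_contra hcon
      push Not at hcon
      apply h12
      constructor
      · by_contra h
        exact hcon.1 (V_eq_zero h)
      · by_contra h
        exact hcon.2 (V_eq_zero h)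
    have hz2' : V π.1 (F 0) = 0 ∨ V π.1 (F 2) = 0 := by
      by_contra hcon
      push Not at hcon
      apply h02
      constructor
      · by_contra h
        exact hcon.1 (V_eq_zero h)
      · by_contra h
        exact hcon.2 (V_eq_zero h)
    have hw : ¬ π.1 ∣ w ^ 2 := by
      intro h
      apply hπ.not_isUnit
      apply isUnit_of_dvd_unit h
      exact (IsUnit.of_mul_eq_one (w ^ 2) (by rw [← pow_succ', w_cube])).pow 2
    rw [hζ, V_mul_not_dvd hπ hw (mul_ne_zero h1 (pow_ne_zero _ h2)), V_mul hπ h1 (pow_ne_zero _ h2),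
      V_pow hπ h2]
    omega
  obtain ⟨γ, hγ⟩ := hM ζ (F 1 * F 2) hζ0 hζn htm hV
  have hγ0 : γ ≠ 0 := by
    rintro rfl
    rw [hγ] at hζ0
    exact hζ0 (by norm_num)
  have hcγ0 : conj γ ≠ 0 := by
    intro h
    apply hγ0
    rw [← conj_conj γ, h, map_zero]
  obtain ⟨g, δ, hg, hgδ, hδ⟩ := content hcγ0
  have hm : F 1 * F 2 = ((F 1).norm : Eis) := by rw [← hc1, mul_conj]
  have hn1 : (F 1).norm ≠ 0 := (norm_pos h1).ne'
  refine ⟨δ, (F 1).norm ^ 2 * g ^ 3, γ.norm ^ 3, mul_ne_zero (pow_ne_zero _ hn1)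
    (pow_ne_zero _ hg), pow_ne_zero _ (norm_pos hγ0).ne', hδ, ?_⟩
  have e1 : γ ^ 3 * F 1 = w ^ 2 * (F 1 * F 2) ^ 2 := by
    rw [← hγ, hζ]
    ring
  have e2 : (γ.norm : Eis) = γ * conj γ := (mul_conj γ).symm
  push_cast
  rw [← hF1, e2, ← hm]
  calc (γ * conj γ) ^ 3 * F 1 = (conj γ) ^ 3 * (γ ^ 3 * F 1) := by ring
    _ = (g * δ) ^ 3 * (w ^ 2 * (F 1 * F 2) ^ 2) := by rw [e1, ← hgδ]
    _ = _ := by ring

end Pool.Agent.PT
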