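import Pool.Agent.PT.Stmts5

/-!
# FDX: the class of a point given by a cell decomposition
-/

namespace Pool.Agent.PT

open Pool.Agent.Lib_helper18 Pool.Agent.Lib_helper18.Eis Pool.Agent.Lib_helper84.Cub

namespace FDX

theorem castne {n : ℤ} (h : n ≠ 0) : (n : Eis) ≠ 0 := by
  intro h1
  apply h
  have := congrArg Eis.re h1
  simpa using this

theorem C9_iff (m : ℤ) : C9 m ↔ (m : ZMod 9) = 1 ∨ (m : ZMod 9) = -1 := by
  have h1 : (m : ZMod 9) = 1 ↔ ((9 : ℕ) : ℤ) ∣ 1 - m := by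
    rw [← ZMod.intCast_eq_intCast_iff_dvd_sub]
    simp
  have h2 : (m : ZMod 9) = -1 ↔ ((9 : ℕ) : ℤ) ∣ -1 - m := by
    rw [← ZMod.intCast_eq_intCast_iff_dvd_sub]
    simp
  rw [h1, h2, C9]
  omega

theorem cube9 : ∀ y : ZMod 9, y ^ 3 = 0 ∨ y ^ 3 = 1 ∨ y ^ 3 = -1 := by decide

theorem three_dvd {x : ℤ} (h : (x : ZMod 9) ^ 3 = 0) : (3 : ℤ) ∣ x := by
  have h1 : ((x ^ 3 : ℤ) : ZMod 9) = 0 := by
    push_cast
    exact h
  rw [ZMod.intCast_zmod_eq_zero_iff_dvd] at h1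
  have h2 : (3 : ℤ) ∣ x ^ 3 := (Dvd.intro 3 (by norm_num)).trans h1
  exact Int.prime_three.dvd_of_dvd_pow h2

theorem L0 : ∀ a b c : ZMod 9, a + b + c = 0 → ¬ (a * b * c = 1 ∨ a * b * c = -1) := by
  intro a b c h
  have hc : c = -a - b := by linear_combination h
  subst hc
  clear h
  revert a b
  decide

theorem L1 : ∀ a b c : ZMod 9, b + c = 0 → (a * b * c = 1 ∨ a * b * c = -1) →
    (a ^ 2 * b = 1 ∨ a ^ 2 * b = -1) := by
  intro a b c h
  have hc : c = -b := by linear_combination h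
  subst hc
  clear h
  revert a b
  decide

theorem L2 : ∀ a b c : ZMod 9, a + c = 0 → (a * b * c = 1 ∨ a * b * c = -1) →
    (a ^ 2 * b = 1 ∨ a ^ 2 * b = -1) := by
  intro a b c h
  have hc : c = -a := by linear_combination h
  subst hc
  clear h
  revert a b
  decide

theorem L3 : ∀ a b c : ZMod 9, a + b = 0 → (a * b * c = 1 ∨ a * b * c = -1) →
    (a ^ 2 * b = 1 ∨ a ^ 2 * b = -1) := by
  intro a b c h
  have hc : b = -a := by linear_combination h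
  subst hc
  clear h
  revert a c
  decide

theorem pm_iff {u v : ZMod 9} (h : u = v ∨ u = -v) : (u = 1 ∨ u = -1) ↔ (v = 1 ∨ v = -1) := by
  rcases h with rfl | rfl
  · rfl
  · revert v
    decide

/-- the computation modulo `9` -/
theorem mod9 (a b c y1 y2 y3 : ZMod 9) (hs : a * y1 ^ 3 + b * y2 ^ 3 + c * y3 ^ 3 = 0)
    (hp : a * b * c = 1 ∨ a * b * c = -1) (h12 : ¬ (y1 ^ 3 = 0 ∧ y2 ^ 3 = 0))
    (h13 : ¬ (y1 ^ 3 = 0 ∧ y3 ^ 3 = 0)) (h23 : ¬ (y2 ^ 3 = 0 ∧ y3 ^ 3 = 0)) :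
    a ^ 2 * b = 1 ∨ a ^ 2 * b = -1 := by
  have key : ∀ e1 e2 e3 : ZMod 9, (e1 = 1 ∨ e1 = -1) → (e2 = 1 ∨ e2 = -1) →
      (e3 = 1 ∨ e3 = -1) → (((a * e1) * (b * e2) * (c * e3) = 1 ∨
        (a * e1) * (b * e2) * (c * e3) = -1)) ∧
      (((a * e1) ^ 2 * (b * e2) = 1 ∨ (a * e1) ^ 2 * (b * e2) = -1) →
        (a ^ 2 * b = 1 ∨ a ^ 2 * b = -1)) := by
    intro e1 e2 e3 h1 h2 h3
    constructor
    · refine (pm_iff ?_).2 hp
      rcases h1 with rfl | rfl <;> rcases h2 with rfl | rfl <;> rcases h3 with rfl | rfl <;>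
        ring_nf <;> simp
    · refine (pm_iff ?_).1
      rcases h1 with rfl | rfl <;> rcases h2 with rfl | rfl <;>
        ring_nf <;> simp
  rcases cube9 y1 with h1 | h1
  · rcases cube9 y2 with h2 | h2
    · exact absurd ⟨h1, h2⟩ h12
    · rcases cube9 y3 with h3 | h3
      · exact absurd ⟨h1, h3⟩ h13
      · obtain ⟨k1, k2⟩ := key 1 (y2 ^ 3) (y3 ^ 3) (Or.inl rfl) h2 h3
        apply k2
        exact L1 _ _ _ (by linear_combination hs - a * h1) k1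
  · rcases cube9 y2 with h2 | h2
    · rcases cube9 y3 with h3 | h3
      · exact absurd ⟨h2, h3⟩ h23
      · obtain ⟨k1, k2⟩ := key (y1 ^ 3) 1 (y3 ^ 3) h1 (Or.inl rfl) h3
        apply k2
        exact L2 _ _ _ (by linear_combination hs - b * h2) k1
    · rcases cube9 y3 with h3 | h3
      · obtain ⟨k1, k2⟩ := key (y1 ^ 3) (y2 ^ 3) 1 h1 h2 (Or.inl rfl)
        apply k2
        exact L3 _ _ _ (by linear_combination hs - c * h3) k1
      · obtain ⟨k1, k2⟩ := key (y1 ^ 3) (y2 ^ 3) (y3 ^ 3) h1 h2 h3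
        exact absurd k1 (L0 _ _ _ hs)

variable {π : Eis} {s : Eis → Eis → ZMod 3} {e : ℕ}

theorem s_one (h : LSym π s e) {c : Eis} (hc : c ≠ 0) : s 1 c = 0 := by
  have := h.mul 1 1 c one_ne_zero one_ne_zero hc
  rw [mul_one] at this
  simpa using this

theorem s_neg (h : LSym π s e) {a c : Eis} (ha : a ≠ 0) (hc : c ≠ 0) : s (-a) c = s a c := by
  have hm : (-1 : Eis) ≠ 0 := neg_ne_zero.2 one_ne_zero
  have h1 := h.mul (-1) (-1) c hm hm hc
  rw [neg_mul_neg, one_mul, s_one h hc] at h1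
  have h2 : s (-1) c = 0 := by
    generalize s (-1) c = z at h1
    revert z
    decide
  have h3 := h.mul (-1) a c hm ha hc
  rwa [neg_one_mul, h2, zero_add] at h3

theorem s_neg' (h : LSym π s e) {a c : Eis} (ha : a ≠ 0) (hc : c ≠ 0) : s a (-c) = s a c := by
  rw [h.skew (-c) a (neg_ne_zero.2 hc) ha, s_neg h hc ha, ← h.skew c a hc ha]

theorem mul_right (h : LSym π s e) {a b c : Eis} (ha : a ≠ 0) (hb : b ≠ 0) (hc : c ≠ 0) :
    s a (b * c) = s a b + s a c := by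
  rw [h.skew (b * c) a (mul_ne_zero hb hc) ha, h.mul b c a hb hc ha, h.skew b a hb ha,
    h.skew c a hc ha]
  ring

theorem s_cube (h : LSym π s e) {a c : Eis} (ha : a ≠ 0) (hc : c ≠ 0) : s (a ^ 3) c = 0 := by
  have h1 : a ^ 3 = a * (a * a) := by ring
  rw [h1, h.mul a (a * a) c ha (mul_ne_zero ha ha) hc, h.mul a a c ha ha hc]
  generalize s a c = z
  revert z
  decide

theorem s_cube' (h : LSym π s e) {a c : Eis} (ha : a ≠ 0) (hc : c ≠ 0) : s c (a ^ 3) = 0 := by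
  rw [h.skew (a ^ 3) c (pow_ne_zero _ ha) hc, s_cube h ha hc, neg_zero]

theorem s_self (h : LSym π s e) {a : Eis} (ha : a ≠ 0) : s a a = 0 := by
  have h1 := h.skew a a ha ha
  generalize s a a = z at h1
  revert z
  decide

end FDX

open FDX in
theorem FDX_thm (hSTM : STM) (hSPP : SPP) : FDX := by
  intro B a x hB hx hsum hprod hcop
  rw [Fin.sum_univ_three] at hsum
  rw [Fin.prod_univ_three] at hprod
  have hB0 := hB.ne
  have ha0 : a 0 ≠ 0 := by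
    intro h
    rw [h, zero_mul, zero_mul] at hprod
    exact hB0 hprod.symm
  have ha1 : a 1 ≠ 0 := by
    intro h
    rw [h, mul_zero, zero_mul] at hprod
    exact hB0 hprod.symm
  have ha2 : a 2 ≠ 0 := by
    intro h
    rw [h, mul_zero] at hprod
    exact hB0 hprod.symm
  have heq : a 0 ^ 2 * a 1 * ((a 0 * x 0) ^ 3 + a 0 ^ 2 * a 1 * (x 1) ^ 3)
      = B * (- a 0 * x 2) ^ 3 := by
    rw [← hprod]
    linear_combination (a 0 ^ 4 * a 1) * hsum
  have hc0 : - a 0 * x 2 ≠ 0 := mul_ne_zero (neg_ne_zero.2 ha0) (hx 2)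
  have hz0 : a 0 ^ 2 * a 1 ≠ 0 := mul_ne_zero (pow_ne_zero _ ha0) ha1
  have hX0 : a 0 * x 0 ≠ 0 := mul_ne_zero ha0 (hx 0)
  have hn0 : (a 0 * x 0) ^ 3 + a 0 ^ 2 * a 1 * (x 1) ^ 3 ≠ 0 := by
    intro h
    rw [h, mul_zero] at heq
    exact (mul_ne_zero hB0 (pow_ne_zero _ hc0)) heq.symm
  refine ⟨⟨hX0, hx 1, _, hc0, heq⟩, ⟨hz0, ?_, ?_, ?_, ?_⟩⟩
  · intro h3
    apply hB.three
    rw [← hprod]
    rcases Int.prime_three.dvd_or_dvd h3 with h | h
    · exact ((Int.prime_three.dvd_of_dvd_pow h).mul_right _).mul_right _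
    · exact (h.mul_left _).mul_right _
  · intro ρ
    have hs : LSym ρ.1 (tm ρ.1) 1 := hSTM ρ.1 ρ.2.1 (hSPP.2.2.2.1 ρ).1
    set z : Eis := ((a 0 ^ 2 * a 1 : ℤ) : Eis) with hz
    set n0 : Eis := (((a 0 * x 0) ^ 3 + a 0 ^ 2 * a 1 * (x 1) ^ 3 : ℤ) : Eis) with hn
    have z0 : z ≠ 0 := castne hz0
    have n00 : n0 ≠ 0 := castne hn0
    have cX : ((a 0 * x 0 : ℤ) : Eis) ≠ 0 := castne hX0
    have cY : ((x 1 : ℤ) : Eis) ≠ 0 := castne (hx 1)
    have cC : ((- a 0 * x 2 : ℤ) : Eis) ≠ 0 := castne hc0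
    have cB : (B : Eis) ≠ 0 := castne hB0
    have e1 : ((a 0 * x 0 : ℤ) : Eis) ^ 3 + z * (x 1 : Eis) ^ 3 + (-n0) = 0 := by
      rw [hz, hn]
      push_cast
      ring
    have h1 := hs.stein _ _ _ (pow_ne_zero 3 cX) (mul_ne_zero z0 (pow_ne_zero 3 cY))
      (neg_ne_zero.2 n00) e1
    rw [s_cube hs cX (mul_ne_zero z0 (pow_ne_zero 3 cY)), s_neg' hs
      (mul_ne_zero z0 (pow_ne_zero 3 cY)) n00, hs.mul _ _ _ z0 (pow_ne_zero 3 cY) n00,
      s_cube hs cY n00, s_cube' hs cX (neg_ne_zero.2 n00)] at h1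
    have e2 : z * n0 = (B : Eis) * ((- a 0 * x 2 : ℤ) : Eis) ^ 3 := by
      rw [hz, hn, ← Int.cast_mul, heq]
      push_cast
      ring
    have h2 : tm ρ.1 z (z * n0) = tm ρ.1 z ((B : Eis) * ((- a 0 * x 2 : ℤ) : Eis) ^ 3) := by
      rw [e2]
    rw [mul_right hs z0 z0 n00, s_self hs z0, mul_right hs z0 cB (pow_ne_zero 3 cC),
      s_cube' hs cC z0] at h2
    linear_combination h1 - h2
  · intro ρ hρ hd
    apply hρ
    rw [← hprod]
    push_cast at hd ⊢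
    rcases ρ.2.1.dvd_or_dvd hd with h | h
    · exact ((ρ.2.1.dvd_of_dvd_pow h).mul_right _).mul_right _
    · exact (h.mul_left _).mul_right _
  · intro h9
    have hnd : ∀ i j : Fin 3, i ≠ j → ¬ ((x i : ZMod 9) ^ 3 = 0 ∧ (x j : ZMod 9) ^ 3 = 0) := by
      rintro i j hij ⟨h1, h2⟩
      have h3 := (three_dvd h1).mul_left (a i)
      have h4 := (three_dvd h2).mul_left (a j)
      have h5 := (hcop i j hij).isUnit_of_dvd' h3 h4
      exact Int.prime_three.not_isUnit h5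
    rw [C9_iff] at h9 ⊢
    rw [← hprod] at h9
    push_cast at h9 ⊢
    refine mod9 (a 0) (a 1) (a 2) (x 0) (x 1) (x 2) ?_ h9 (hnd 0 1 (by decide))
      (hnd 0 2 (by decide)) (hnd 1 2 (by decide))
    have := congrArg (Int.cast : ℤ → ZMod 9) hsum
    push_cast at this
    exact this

end Pool.Agent.PT
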