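import Pool.Agent.PT.Stmts4

/-!
# Prime twists of rank zero: the commutators in the governing field
-/

open NumberField IsDedekindDomain Finset
open scoped nonZeroDivisors Pointwise

namespace Pool.Agent.PT

open Pool.Agent.Lib_helper18 Pool.Agent.Lib_helper18.Eis Pool.Agent.Lib_helper84.Cub

namespace GC

section alg

variable {L : Type} [Field L]

theorem cube_eq {ω : L} (h : ω ^ 2 + ω + 1 = 0) {x y : L} (hxy : x ^ 3 = y ^ 3) :
    ∃ k : ℕ, x = ω ^ k * y := by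
  have h1 : (x - y) * ((x - ω * y) * (x - ω ^ 2 * y)) = 0 := by
    linear_combination hxy + (-x ^ 2 * y + ω * x * y ^ 2 - (ω - 1) * y ^ 3) * h
  rcases mul_eq_zero.1 h1 with h2 | h2
  · exact ⟨0, by rw [pow_zero, one_mul]; exact sub_eq_zero.1 h2⟩
  · rcases mul_eq_zero.1 h2 with h3 | h3
    · exact ⟨1, by rw [pow_one]; exact sub_eq_zero.1 h3⟩
    · exact ⟨2, sub_eq_zero.1 h3⟩

theorem om3 {ω : L} (h : ω ^ 2 + ω + 1 = 0) : ω ^ 3 = 1 := by
  linear_combination (ω - 1) * h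

theorem om0 {ω : L} (h : ω ^ 2 + ω + 1 = 0) : ω ≠ 0 := by
  rintro rfl
  norm_num at h

/-- the norm form -/
theorem nrm {ω ρ : L} (h : ω ^ 2 + ω + 1 = 0) {b p q : ℤ} (hρ : ρ ^ 3 = (b : L)) :
    ((p : L) + q * ρ) * ((p + q * ω * ρ) * (p + q * ω ^ 2 * ρ)) = ((p ^ 3 + b * q ^ 3 : ℤ) : L) := by
  push_cast
  rw [← hρ]
  linear_combination ((p : L) ^ 2 * q * ρ + p * q ^ 2 * ρ ^ 2 * ω + q ^ 3 * ρ ^ 3 * (ω - 1)) * h

end alg

section aut

variable {L : Type} [Field L] [NumberField L]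

theorem ne3 {ω ρ : L} (h : ω ^ 2 + ω + 1 = 0) {b p q : ℤ} (hρ : ρ ^ 3 = (b : L))
    (hn : p ^ 3 + b * q ^ 3 ≠ 0) :
    ((p : L) + q * ρ) ≠ 0 ∧ ((p : L) + q * ω * ρ) ≠ 0 ∧ ((p : L) + q * ω ^ 2 * ρ) ≠ 0 := by
  have h1 : ((p : L) + q * ρ) * ((p + q * ω * ρ) * (p + q * ω ^ 2 * ρ)) ≠ 0 := by
    rw [nrm h hρ]
    exact_mod_cast hn
  exact ⟨left_ne_zero_of_mul h1, left_ne_zero_of_mul (right_ne_zero_of_mul h1),
    right_ne_zero_of_mul (right_ne_zero_of_mul h1)⟩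

theorem n1' {b x p q p' q' : ℤ} (hs : SolW b x p q p' q') : p' ^ 3 + b * q' ^ 3 ≠ 0 := by
  intro h
  have := hs.eq
  rw [h, mul_zero] at this
  exact hs.n1 this

/-- an automorphism fixing `ω` and `ρ` acts by a root of unity on `A` -/
theorem fixA {ω ρ A : L} {p q p' q' b x : ℤ} (h : L ≃ₐ[ℚ] L)
    (hω : ω ^ 2 + ω + 1 = 0) (hρ : ρ ^ 3 = (b : L)) (hs : SolW b x p q p' q')
    (hhω : h ω = ω) (hhρ : h ρ = ρ)
    (hA : A ^ 3 * aD ω p q p' q' ρ = aN ω p q p' q' ρ) : ∃ e : ℕ, h A = ω ^ e * A := by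
  have hD : aD ω p q p' q' ρ ≠ 0 := by
    unfold aD
    exact mul_ne_zero (ne3 hω hρ hs.n1).2.1 (ne3 hω hρ (n1' hs)).2.2
  have h1 : h (aD ω p q p' q' ρ) = aD ω p q p' q' ρ := by
    unfold aD
    simp [hhω, hhρ]
  have h2 : h (aN ω p q p' q' ρ) = aN ω p q p' q' ρ := by
    unfold aN
    simp [hhω, hhρ]
  have h3 := congrArg h hA
  rw [map_mul, map_pow, h1, h2, ← hA] at h3
  exact cube_eq hω (mul_right_cancel₀ hD h3)

/-- an automorphism fixing `ω` and mapping `ρ` to `ωρ` -/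
theorem movA {ω ρ t A : L} {p q p' q' b x : ℤ} (g : L ≃ₐ[ℚ] L)
    (hω : ω ^ 2 + ω + 1 = 0) (hρ : ρ ^ 3 = (b : L)) (ht : t ^ 3 = (x : L))
    (hs : SolW b x p q p' q') (hgω : g ω = ω) (hgρ : g ρ = ω * ρ)
    (hA : A ^ 3 * aD ω p q p' q' ρ = aN ω p q p' q' ρ) :
    ∃ e : ℕ, g A * (p + q * ω ^ 2 * ρ) = ω ^ e * (A * t * (p' + q' * ω ^ 2 * ρ)) := by
  have h3 := congrArg g hA
  have hN := nrm hω hρ (p := p) (q := q)
  have hN' := nrm hω hρ (p := p') (q := q')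
  have hnz := mul_ne_zero (ne3 hω hρ (n1' hs)).1 (ne3 hω hρ hs.n1).2.1
  unfold aD aN at h3 hA
  simp only [map_mul, map_pow, map_add, map_intCast, hgω, hgρ] at h3
  have hc := om3 hω
  have h4 : g A ^ 3 * ((p + q * ω ^ 2 * ρ) * (p' + q' * ρ)) =
      (p + q * ρ) * (p' + q' * ω ^ 2 * ρ) := by
    have e1 : (p : L) + q * ω * (ω * ρ) = p + q * ω ^ 2 * ρ := by ring
    have e2 : (p' : L) + q' * ω ^ 2 * (ω * ρ) = p' + q' * ρ := by
      linear_combination ((q' : L) * ρ) * hc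
    have e3 : (p : L) + q * ω ^ 2 * (ω * ρ) = p + q * ρ := by
      linear_combination ((q : L) * ρ) * hc
    have e4 : (p' : L) + q' * ω * (ω * ρ) = p' + q' * ω ^ 2 * ρ := by ring
    rw [e1, e2, e3, e4] at h3
    exact h3
  have heq : ((p ^ 3 + b * q ^ 3 : ℤ) : L) = (x : L) * ((p' ^ 3 + b * q' ^ 3 : ℤ) : L) := by
    rw [hs.eq]
    push_cast
    ring
  rw [← hN, ← hN'] at heq
  apply cube_eq hω
  apply mul_right_cancel₀ hnz
  rw [mul_pow, mul_pow, mul_pow, ht]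
  calc g A ^ 3 * ((p : L) + q * ω ^ 2 * ρ) ^ 3 * ((p' + q' * ρ) * (p + q * ω * ρ))
      = (g A ^ 3 * ((p + q * ω ^ 2 * ρ) * (p' + q' * ρ))) *
          ((p + q * ω ^ 2 * ρ) ^ 2 * (p + q * ω * ρ)) := by ring
    _ = ((p : L) + q * ρ) * ((p + q * ω * ρ) * (p + q * ω ^ 2 * ρ)) *
          ((p' + q' * ω ^ 2 * ρ) * (p + q * ω ^ 2 * ρ)) := by rw [h4]; ring
    _ = (A ^ 3 * ((p + q * ω * ρ) * (p' + q' * ω ^ 2 * ρ))) *
          (x * ((p' + q' * ω ^ 2 * ρ) ^ 2 * (p' + q' * ρ))) := by rw [heq, hA]; ring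
    _ = A ^ 3 * (x : L) * ((p' : L) + q' * ω ^ 2 * ρ) ^ 3 * ((p' + q' * ρ) * (p + q * ω * ρ)) := by
        ring

theorem mv {ω ρ t A : L} {p q p' q' b x : ℤ} (g h : L ≃ₐ[ℚ] L) (c : ℕ)
    (hω : ω ^ 2 + ω + 1 = 0) (hρ : ρ ^ 3 = (b : L)) (ht : t ^ 3 = (x : L))
    (hs : SolW b x p q p' q') (hgω : g ω = ω) (hhω : h ω = ω) (hgρ : g ρ = ω * ρ)
    (hhρ : h ρ = ρ) (hht : h t = ω ^ c * t)
    (hA : A ^ 3 * aD ω p q p' q' ρ = aN ω p q p' q' ρ) : h (g A) = ω ^ c * g (h A) := by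
  obtain ⟨e, he⟩ := movA g hω hρ ht hs hgω hgρ hA
  obtain ⟨e', he'⟩ := fixA h hω hρ hs hhω hhρ hA
  have hnz := (ne3 hω hρ hs.n1).2.2
  apply mul_right_cancel₀ hnz
  have h1 := congrArg h he
  simp only [map_mul, map_pow, map_add, map_intCast, hhω, hhρ, hht, he'] at h1
  rw [h1, he']
  simp only [map_mul, map_pow, hgω]
  linear_combination (- ω ^ c * ω ^ e') * he

theorem fx {ω ρ A : L} {p q p' q' b x : ℤ} (g h : L ≃ₐ[ℚ] L)
    (hω : ω ^ 2 + ω + 1 = 0) (hρ : ρ ^ 3 = (b : L))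
    (hs : SolW b x p q p' q') (hgω : g ω = ω) (hhω : h ω = ω) (hgρ : g ρ = ρ)
    (hhρ : h ρ = ρ)
    (hA : A ^ 3 * aD ω p q p' q' ρ = aN ω p q p' q' ρ) : h (g A) = g (h A) := by
  obtain ⟨e, he⟩ := fixA g hω hρ hs hgω hgρ hA
  obtain ⟨e', he'⟩ := fixA h hω hρ hs hhω hhρ hA
  rw [he, he']
  simp only [map_mul, map_pow, hgω, hhω, he, he']
  ring

end aut

/-- the relation between the automorphism and the vector -/
def R {s : ℕ} (b : Fin s → ℤ) (p q p' q' : Fin s → Fin s → ℤ) {L : Type} [Field L]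
    [NumberField L] (ζ ω : L) (v : Fin s → Fin s → ZMod 3) (z : L ≃ₐ[ℚ] L) : Prop :=
  z ζ = ζ ∧
    (∀ (j : Fin s) (ρ : L), ρ ^ 3 = (b j : L) → z ρ = ρ) ∧
    ∀ j i, j < i → ∀ ρ A : L, ρ ^ 3 = (b j : L) →
      A ^ 3 * aD ω (p j i) (q j i) (p' j i) (q' j i) ρ =
        aN ω (p j i) (q j i) (p' j i) (q' j i) ρ →
      z A = ω ^ (v j i).val * A

section rel

variable {s : ℕ} {b : Fin s → ℤ} {p q p' q' : Fin s → Fin s → ℤ} {L : Type} [Field L]
    [NumberField L] {ζ ω : L}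

theorem pow_val_add {ω : L} (h : ω ^ 3 = 1) (a c : ZMod 3) :
    ω ^ (a + c).val = ω ^ a.val * ω ^ c.val := by
  rw [← pow_add, ZMod.val_add, ← pow_eq_pow_mod _ h]

theorem R_zero {v : Fin s → Fin s → ZMod 3} (hv : ∀ j i, j < i → v j i = 0) :
    R b p q p' q' ζ ω v (1 : L ≃ₐ[ℚ] L) := by
  refine ⟨rfl, fun _ _ _ => rfl, fun j i hji ρ A _ _ => ?_⟩
  rw [hv j i hji, ZMod.val_zero, pow_zero, one_mul]
  rfl

theorem R_add (hω : ω ^ 2 + ω + 1 = 0) (hζ : ∀ z : L ≃ₐ[ℚ] L, z ζ = ζ → z ω = ω)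
    {v v' : Fin s → Fin s → ZMod 3} {z z' : L ≃ₐ[ℚ] L}
    (h : R b p q p' q' ζ ω v z) (h' : R b p q p' q' ζ ω v' z') :
    R b p q p' q' ζ ω (v + v') (z * z') := by
  refine ⟨?_, fun j ρ hρ => ?_, fun j i hji ρ A hρ hA => ?_⟩
  · rw [AlgEquiv.mul_apply, h'.1, h.1]
  · rw [AlgEquiv.mul_apply, h'.2.1 j ρ hρ, h.2.1 j ρ hρ]
  · rw [AlgEquiv.mul_apply, h'.2.2 j i hji ρ A hρ hA, map_mul, map_pow, hζ z h.1,
      h.2.2 j i hji ρ A hρ hA, Pi.add_apply, Pi.add_apply, pow_val_add (om3 hω)]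
    ring

/-- the existence for elementary vectors gives the existence for all vectors -/
theorem all (hω : ω ^ 2 + ω + 1 = 0) (hζ : ∀ z : L ≃ₐ[ℚ] L, z ζ = ζ → z ω = ω)
    (hel : ∀ j₀ i₀ : Fin s, j₀ < i₀ → ∃ z : L ≃ₐ[ℚ] L,
      R b p q p' q' ζ ω (fun j i => if (j, i) = (j₀, i₀) then 1 else 0) z)
    (v : Fin s → Fin s → ZMod 3) : ∃ z : L ≃ₐ[ℚ] L, R b p q p' q' ζ ω v z := by
  let S : AddSubmonoid (Fin s → Fin s → ZMod 3) :=
    { carrier := {v | ∃ z : L ≃ₐ[ℚ] L, R b p q p' q' ζ ω v z}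
      zero_mem' := ⟨1, R_zero (fun _ _ _ => rfl)⟩
      add_mem' := by
        rintro v v' ⟨z, hz⟩ ⟨z', hz'⟩
        exact ⟨z * z', R_add hω hζ hz hz'⟩ }
  have h1 : ∀ x : Fin s × Fin s,
      (fun j i => if (j, i) = x then v x.1 x.2 else 0 : Fin s → Fin s → ZMod 3) ∈ S := by
    rintro ⟨j₀, i₀⟩
    by_cases hji : j₀ < i₀
    · have h2 : (fun j i => if (j, i) = (j₀, i₀) then v j₀ i₀ else 0 : Fin s → Fin s → ZMod 3) =
          (v j₀ i₀).val • (fun j i => if (j, i) = (j₀, i₀) then 1 else 0 :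
            Fin s → Fin s → ZMod 3) := by
        funext j i
        rw [Pi.smul_apply, Pi.smul_apply]
        split_ifs with h
        · rw [nsmul_one, ZMod.natCast_val, ZMod.cast_id', id]
        · rw [smul_zero]
      change (fun j i => if (j, i) = (j₀, i₀) then v j₀ i₀ else 0 : Fin s → Fin s → ZMod 3) ∈ S
      rw [h2]
      exact S.nsmul_mem (hel j₀ i₀ hji) _
    · refine ⟨1, R_zero (fun j i hji' => ?_)⟩
      rw [if_neg]
      intro h
      rw [Prod.mk.injEq] at h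
      rw [h.1, h.2] at hji'
      exact hji hji'
  have h3 : v = ∑ x : Fin s × Fin s,
      (fun j i => if (j, i) = x then v x.1 x.2 else 0 : Fin s → Fin s → ZMod 3) := by
    funext j i
    rw [Finset.sum_apply, Finset.sum_apply, Finset.sum_ite_eq, if_pos (Finset.mem_univ _)]
  have h4 : v ∈ S := by
    rw [h3]
    exact S.sum_mem (fun x _ => h1 x)
  exact h4

/-- from `h g A = ω^c g h A` to the commutator -/
theorem comm_apply (g h : L ≃ₐ[ℚ] L) (c : ℕ) (hgω : g ω = ω) (hhω : h ω = ω) (A : L)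
    (hA : h (g A) = ω ^ c * g (h A)) : ((g * h)⁻¹ * (h * g)) A = ω ^ c * A := by
  rw [AlgEquiv.mul_apply, AlgEquiv.mul_apply, hA]
  have h1 : ω ^ c * g (h A) = (g * h) (ω ^ c * A) := by
    rw [AlgEquiv.mul_apply, map_mul, map_mul, map_pow, map_pow, hhω, hgω]
  rw [h1, ← AlgEquiv.mul_apply, inv_mul_cancel]
  rfl

end rel

end GC

theorem GC_thm (hKUM : KUM) (hGKI : GKI) : GC := by
  intro s b p q p' q' f L _ _ ζ ω hS hG
  have hω := hG.rel
  haveI := hG.gal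
  have hf : 0 < f := by
    rcases Nat.eq_zero_or_pos f with h | h
    · exfalso
      have h1 := hG.hω
      rw [h, Nat.zero_div, pow_zero] at h1
      rw [h1] at hω
      norm_num at hω
    · exact h
  have hζf : ζ ^ f = 1 := hG.prim.pow_eq_one
  have hζ : ∀ z : L ≃ₐ[ℚ] L, z ζ = ζ → z ω = ω := by
    intro z hz
    rw [hG.hω, map_pow, hz]
  have hb : ∀ i, b i ≠ 0 := by
    intro i hi
    refine hS.ind (fun l => if l = i then 1 else 0) ⟨i, by simp⟩ ⟨0, ?_⟩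
    symm
    rw [zero_pow (by norm_num)]
    exact Finset.prod_eq_zero (Finset.mem_univ i) (by simp [hi])
  choose θ hθ using hG.root
  -- Kummer theory
  have hgi : ∀ v : Fin s → ZMod 3, ∃ g : L ≃ₐ[ℚ] L, g ζ = ζ ∧
      ∀ l, g (θ l) = ω ^ (v l).val * θ l := by
    intro v
    let F := IntermediateField.adjoin ℚ {ζ}
    have hζF : ζ ∈ F := IntermediateField.mem_adjoin_simple_self ℚ ζ
    let ζF : F := ⟨ζ, hζF⟩
    obtain ⟨g, hg⟩ := hKUM F L (ζF ^ (f / 3)) (Fin s) (fun i => ((b i : ℤ) : F)) θ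
      (by
        apply Subtype.ext
        push_cast
        rw [← hG.hω]
        exact hω)
      (fun i => by exact_mod_cast hb i)
      (fun i => by rw [hθ i, map_intCast])
      (by
        rintro n ⟨β, hβ⟩
        by_contra hcon
        push Not at hcon
        have h1 : ((β : L)) ^ 3 = ((∏ i, b i ^ n i : ℤ) : L) := by
          have h2 := congrArg (algebraMap F L) hβ
          rw [map_pow, map_prod] at h2
          push_cast
          rw [show ((β : L)) ^ 3 = (algebraMap F L β) ^ 3 from rfl, ← h2]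
          refine Finset.prod_congr rfl (fun i _ => ?_)
          rw [map_pow, map_intCast]
        obtain ⟨t, ht⟩ := hGKI L f ζ (β : L) (∏ i, b i ^ n i) hf hζf β.2 h1
        exact hS.ind n hcon ⟨t, ht⟩)
      v
    refine ⟨g.restrictScalars ℚ, ?_, fun l => ?_⟩
    · exact g.commutes ζF
    · have h3 := hg l
      rw [AlgEquiv.restrictScalars_apply, h3, map_pow]
      rw [show algebraMap F L ζF = ζ from rfl, ← hG.hω]
  have hg1 : ∀ i, ∃ g : L ≃ₐ[ℚ] L, g ζ = ζ ∧ g (θ i) = ω * θ i ∧ ∀ l, l ≠ i → g (θ l) = θ l := by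
    intro i
    obtain ⟨g, hg, hg'⟩ := hgi (fun l => if l = i then 1 else 0)
    refine ⟨g, hg, ?_, fun l hl => ?_⟩
    · rw [hg' i, if_pos rfl]
      rw [show (1 : ZMod 3).val = 1 from rfl, pow_one]
    · rw [hg' l, if_neg hl, ZMod.val_zero, pow_zero, one_mul]
  choose g hgζ hgθ hgθ' using hg1
  have hgω : ∀ i, g i ω = ω := fun i => hζ _ (hgζ i)
  have hroot : ∀ (j : Fin s) (ρ : L), ρ ^ 3 = (b j : L) → ∃ k : ℕ, ρ = ω ^ k * θ j := by
    intro j ρ hρ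
    exact GC.cube_eq hω (by rw [hρ, hθ j])
  have hgρ : ∀ (j : Fin s) (ρ : L), ρ ^ 3 = (b j : L) → g j ρ = ω * ρ := by
    intro j ρ hρ
    obtain ⟨k, hk⟩ := hroot j ρ hρ
    rw [hk, map_mul, map_pow, hgω, hgθ]
    ring
  have hgρ' : ∀ (i j : Fin s) (ρ : L), ρ ^ 3 = (b j : L) → j ≠ i → g i ρ = ρ := by
    intro i j ρ hρ hji
    obtain ⟨k, hk⟩ := hroot j ρ hρ
    rw [hk, map_mul, map_pow, hgω, hgθ' i j hji]
  apply GC.all hω hζ
  intro j i hji
  refine ⟨(g j * g i)⁻¹ * (g i * g j), ?_, fun l ρ hρ => ?_, fun l k hlk ρ A hρ hA => ?_⟩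
  · have h1 : g i (g j ζ) = ω ^ 0 * g j (g i ζ) := by
      rw [hgζ j, hgζ i, hgζ j, pow_zero, one_mul]
    rw [GC.comm_apply (g j) (g i) 0 (hgω j) (hgω i) ζ h1, pow_zero, one_mul]
  · have h1 : g i (g j ρ) = ω ^ 0 * g j (g i ρ) := by
      rw [pow_zero, one_mul]
      by_cases h2 : l = i
      · subst h2
        rw [hgρ l ρ hρ, hgρ' j l ρ hρ (ne_of_gt hji), hgρ l ρ hρ, map_mul, hgω j,
          hgρ' j l ρ hρ (ne_of_gt hji)]
      · by_cases h3 : l = j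
        · subst h3
          rw [hgρ l ρ hρ, hgρ' i l ρ hρ h2, hgρ l ρ hρ, map_mul, hgω i, hgρ' i l ρ hρ h2]
        · rw [hgρ' i l ρ hρ h2, hgρ' j l ρ hρ h3, hgρ' i l ρ hρ h2]
    rw [GC.comm_apply (g j) (g i) 0 (hgω j) (hgω i) ρ h1, pow_zero, one_mul]
  · have hsol := (hS.sol l k hlk.ne).toSolW
    by_cases h2 : (l, k) = (j, i)
    · rw [Prod.mk.injEq] at h2
      obtain ⟨rfl, rfl⟩ := h2
      simp only [if_true]
      have h1 : g k (g l A) = ω ^ 1 * g l (g k A) :=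
        GC.mv (g l) (g k) 1 hω hρ (hθ k) hsol (hgω l) (hgω k) (hgρ l ρ hρ)
          (hgρ' k l ρ hρ hlk.ne) (by rw [pow_one]; exact hgθ k) hA
      exact GC.comm_apply (g l) (g k) 1 (hgω l) (hgω k) A h1
    · simp only [if_neg h2]
      have h1 : g i (g j A) = ω ^ 0 * g j (g i A) := by
        by_cases h3 : l = j
        · subst h3
          have h4 : k ≠ i := fun h => h2 (by rw [h])
          exact GC.mv (g l) (g i) 0 hω hρ (hθ k) hsol (hgω l) (hgω i) (hgρ l ρ hρ)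
            (hgρ' i l ρ hρ hji.ne) (by rw [pow_zero, one_mul]; exact hgθ' i k h4) hA
        · by_cases h4 : l = i
          · subst h4
            have h5 : k ≠ j := (hji.trans hlk).ne'
            have h6 := GC.mv (g l) (g j) 0 hω hρ (hθ k) hsol (hgω l) (hgω j) (hgρ l ρ hρ)
              (hgρ' j l ρ hρ hji.ne') (by rw [pow_zero, one_mul]; exact hgθ' j k h5) hA
            rw [pow_zero, one_mul] at h6 ⊢
            exact h6.symm
          · rw [pow_zero, one_mul]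
            exact GC.fx (g j) (g i) hω hρ hsol (hgω j) (hgω i) (hgρ' j l ρ hρ h3)
              (hgρ' i l ρ hρ h4) hA
      have h5 := GC.comm_apply (g j) (g i) 0 (hgω j) (hgω i) A h1
      rw [ZMod.val_zero]
      exact h5

end Pool.Agent.PT
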