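import Pool.Agent.PT.Stmts4

/-!
# GCHI: the cyclotomic character
-/

open NumberField
open scoped nonZeroDivisors Pointwise

namespace Pool.Agent.PT

open Pool.Agent.Lib_helper18 Pool.Agent.Lib_helper18.Eis Pool.Agent.Lib_helper84.Cub

namespace GCHI

theorem under_eq {L : Type} [Field L] [NumberField L] {q : ℕ} (hq : q.Prime) {Q : Ideal (𝓞 L)}
    (hQ : Q.IsPrime) (h : (q : 𝓞 L) ∈ Q) : Q.under ℤ = Ideal.span {(q : ℤ)} := by
  have hmax : (Ideal.span {(q : ℤ)}).IsMaximal :=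
    (Ideal.span_singleton_prime (by exact_mod_cast hq.ne_zero)).mpr
      (Nat.prime_iff_prime_int.mp hq) |>.isMaximal (by
        rw [Ne, Ideal.span_singleton_eq_bot]
        exact_mod_cast hq.ne_zero)
  refine (hmax.eq_of_le (Ideal.IsPrime.under ℤ Q).ne_top ?_).symm
  rw [Ideal.span_singleton_le_iff_mem, Ideal.mem_comap]
  simpa using h

theorem card_eq {L : Type} [Field L] [NumberField L] {q : ℕ} (hq : q.Prime) {Q : Ideal (𝓞 L)}
    (hQ : Q.IsPrime) (h : (q : 𝓞 L) ∈ Q) : Nat.card (ℤ ⧸ Q.under ℤ) = q := by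
  rw [under_eq hq hQ h, Nat.card_congr (Int.quotientSpanNatEquivZMod q).toEquiv, Nat.card_zmod]

end GCHI

open GCHI in
theorem GCHI_thm : GCHI := by
  intro L _ _ _ f ζ hf hζ
  have hf0 : NeZero f := ⟨hf.ne'⟩
  have key : ∀ (g : L ≃ₐ[ℚ] L) (u : (ZMod f)ˣ) (k : ℕ), g ζ = ζ ^ k →
      (k : ZMod f) = (u : ZMod f) → hζ.autToPow ℚ g = u := by
    intro g u k hg hk
    apply Units.ext
    have h2 := hζ.autToPow_spec ℚ g
    have h4 : ζ ^ k = ζ ^ (k % f) := by
      conv_lhs => rw [← Nat.mod_add_div k f, pow_add, pow_mul, hζ.pow_eq_one, one_pow, mul_one]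
    rw [hg, h4] at h2
    have h3 := hζ.pow_inj (ZMod.val_lt _) (Nat.mod_lt _ hf) h2
    rw [← hk]
    apply ZMod.val_injective f
    rw [ZMod.val_natCast]
    exact h3
  refine ⟨hζ.autToPow ℚ, ?_, fun g => (hζ.autToPow_spec ℚ g).symm, ?_⟩
  · intro u
    have hcop : ((u : ZMod f).val).Coprime f := ZMod.val_coe_unit_coprime u
    have hprim : IsPrimitiveRoot (ζ ^ (u : ZMod f).val) f := hζ.pow_of_coprime _ hcop
    have h1 : Polynomial.aeval (ζ ^ (u : ZMod f).val) (minpoly ℚ ζ) = 0 := by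
      rw [← Polynomial.cyclotomic_eq_minpoly_rat hζ hf,
        Polynomial.cyclotomic_eq_minpoly_rat hprim hf]
      exact minpoly.aeval _ _
    obtain ⟨σ, hσ⟩ := minpoly.exists_algEquiv_of_root' (Algebra.IsAlgebraic.isAlgebraic ζ) h1
    exact ⟨σ, key σ u _ hσ (ZMod.natCast_zmod_val _)⟩
  · intro Q hQ hQp P φ hP hQP hF
    let ζ' : 𝓞 L := ⟨ζ, hζ.isIntegral hf⟩
    have hζ' : ζ' ^ f = 1 := by
      apply RingOfIntegers.ext
      show ζ ^ f = 1
      exact hζ.pow_eq_one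
    have hfP : ((f : ℕ) : 𝓞 L) ∉ P := by
      intro hfP
      apply hP.ne_top
      rw [Ideal.eq_top_iff_one]
      have h1 : (1 : 𝓞 L) = (Q : 𝓞 L) * (Nat.gcdA Q f : ℤ) + (f : 𝓞 L) * (Nat.gcdB Q f : ℤ) := by
        have h2 := Nat.gcd_eq_gcd_ab Q f
        rw [hQ] at h2
        have h3 := congrArg (Int.cast : ℤ → 𝓞 L) h2
        push_cast at h3
        exact h3
      rw [h1]
      exact P.add_mem (P.mul_mem_right _ hQP) (P.mul_mem_right _ hfP)
    have h := AlgHom.IsArithFrobAt.apply_of_pow_eq_one hF hζ' hfP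
    rw [card_eq hQp hP hQP] at h
    have h2 : φ ζ = ζ ^ Q := by
      have h3 := congrArg (fun z : 𝓞 L => (z : L)) h
      exact h3
    exact key φ _ Q h2 (by simp)

end Pool.Agent.PT
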