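import Pool.Agent.PT.Stmts4

/-!
# Frobenius elements and the classes `t`
-/

open NumberField IsDedekindDomain Finset
open scoped nonZeroDivisors Pointwise

namespace Pool.Agent.PT

open Pool.Agent.Lib_helper18 Pool.Agent.Lib_helper18.Eis Pool.Agent.Lib_helper84.Cub

namespace GFR

/-- If the decomposition group is cyclic, every Frobenius coset contains a generator. -/
theorem exists_frob_gen {R S G : Type*} [CommRing R] [CommRing S] [Algebra R S] [Group G]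
    [Finite G] [MulSemiringAction G S] [SMulCommClass G R S] [Algebra.IsInvariant R S G]
    (P : Ideal S) [P.IsPrime] [Finite (S ⧸ P)] (g : G)
    (hg : MulAction.stabilizer G P = Subgroup.zpowers g) :
    ∃ k : ℕ, k.Coprime (orderOf g) ∧ IsArithFrobAt R (g ^ k) P := by
  classical
  have hint := Algebra.IsInvariant.isIntegral R S G
  have hmax : P.IsMaximal := Ideal.Quotient.maximal_of_isField _ (Finite.isField_of_domain (S ⧸ P))
  have hpmax : (P.under R).IsMaximal := inferInstance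
  let _ : Field (S ⧸ P) := Ideal.Quotient.field P
  let _ : Field (R ⧸ P.under R) := Ideal.Quotient.field (P.under R)
  have hfin : Finite (R ⧸ P.under R) := .of_injective _ Ideal.algebraMap_quotient_injective
  cases nonempty_fintype (R ⧸ P.under R)
  let F : (S ⧸ P) ≃ₐ[R ⧸ P.under R] (S ⧸ P) :=
    FiniteField.frobeniusAlgEquivOfAlgebraic (R ⧸ P.under R) (S ⧸ P)
  let h := Ideal.Quotient.stabilizerHom P (P.under R) G
  let g' : MulAction.stabilizer G P := ⟨g, hg ▸ Subgroup.mem_zpowers g⟩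
  have hgen : ∀ y : MulAction.stabilizer G P, ∃ i : ℕ, g' ^ i = y := by
    intro y
    have h1 : (y : G) ∈ Subgroup.zpowers g := hg ▸ y.2
    obtain ⟨i, hi⟩ := mem_powers_iff_mem_zpowers.2 h1
    exact ⟨i, Subtype.ext hi⟩
  obtain ⟨y, hy⟩ := Ideal.Quotient.stabilizerHom_surjective G (P.under R) P F
  obtain ⟨j, rfl⟩ := hgen y
  obtain ⟨⟨i, hi⟩, hF⟩ :=
    (FiniteField.bijective_frobeniusAlgEquivOfAlgebraic_pow (R ⧸ P.under R) (S ⧸ P)).2 (h g')
  have hF' : F ^ i = h g' := hF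
  have hy' : h g' ^ j = F := by
    rw [← map_pow]
    exact hy
  have h1 : h g' ^ (j * i) = h g' ^ 1 := by
    rw [pow_mul, hy', hF', pow_one]
  rw [pow_eq_pow_iff_modEq] at h1
  -- the order of the image of `g`
  have hpos : 0 < orderOf g := orderOf_pos g
  have hdvd : orderOf (h g') ∣ orderOf g := by
    have h2 : orderOf g = orderOf g' := (Subgroup.orderOf_coe g').symm ▸ rfl
    rw [h2]
    exact orderOf_map_dvd h g'
  have hcop : j.Coprime (orderOf (h g')) := by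
    have h2 : (j * i).Coprime (orderOf (h g')) := by
      rw [Nat.Coprime, h1.gcd_eq]
      exact Nat.gcd_one_left _
    exact Nat.Coprime.coprime_mul_right h2
  have hne : NeZero (orderOf g) := ⟨hpos.ne'⟩
  have hne' : NeZero (orderOf (h g')) := ⟨(Nat.pos_of_dvd_of_pos hdvd hpos).ne'⟩
  obtain ⟨v, hv⟩ := ZMod.unitsMap_surjective hdvd (ZMod.unitOfCoprime j hcop)
  refine ⟨(v : ZMod (orderOf g)).val, ZMod.val_coe_unit_coprime v, ?_⟩
  have h3 : (v : ZMod (orderOf g)).val ≡ j [MOD orderOf (h g')] := by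
    rw [← ZMod.natCast_eq_natCast_iff]
    have h4 := congrArg (Units.val) hv
    rw [ZMod.unitsMap_val, ZMod.coe_unitOfCoprime] at h4
    rw [← h4, ZMod.natCast_val]
  have h5 : h (g' ^ (v : ZMod (orderOf g)).val) = F := by
    rw [map_pow, ← hy', pow_eq_pow_iff_modEq]
    exact h3
  intro x
  rw [← Ideal.Quotient.eq]
  have h6 := DFunLike.congr_fun h5 (Ideal.Quotient.mk P x)
  have h7 : F (Ideal.Quotient.mk P x) = Ideal.Quotient.mk P x ^ Fintype.card (R ⧸ P.under R) := rfl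
  rw [h7, ← map_pow, ← Nat.card_eq_fintype_card] at h6
  exact h6

/-- The homomorphism from the Eisenstein integers which maps `w` to `z`. -/
def lift {S : Type*} [CommRing S] (z : S) (hz : z ^ 2 + z + 1 = 0) : Eis →+* S where
  toFun x := (x.re : S) + (x.im : S) * z
  map_one' := by simp
  map_mul' x y := by
    simp only [mul_re, mul_im]
    push_cast
    linear_combination (-(x.im : S) * (y.im : S)) * hz
  map_zero' := by simp
  map_add' x y := by
    simp only [add_re, add_im]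
    push_cast
    ring

theorem lift_w {S : Type*} [CommRing S] (z : S) (hz : z ^ 2 + z + 1 = 0) : lift z hz w = z := by
  change ((w.re : ℤ) : S) + ((w.im : ℤ) : S) * z = z
  simp

theorem lift_int {S : Type*} [CommRing S] (z : S) (hz : z ^ 2 + z + 1 = 0) (n : ℤ) :
    lift z hz (n : Eis) = n := map_intCast _ n

theorem lf_prod (p q r : ℤ) : Lf p q 0 r * Lf p q 1 r * Lf p q 2 r =
    ((p ^ 3 + q ^ 3 * r ^ 3 : ℤ) : Eis) := by
  have h1 := w_rel
  have h2 := w_cube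
  simp only [Lf]
  push_cast
  linear_combination ((p : Eis) ^ 2 * q * r + (p : Eis) * q ^ 2 * r ^ 2) * h1 +
    ((p : Eis) * q ^ 2 * r ^ 2 + (q : Eis) ^ 3 * r ^ 3) * h2

/-- the linear forms are prime to `Q` -/
theorem lf_not_dvd {Q : ℕ} {b p q r : ℤ} (hb : ¬ (Q : ℤ) ∣ p ^ 3 + b * q ^ 3)
    (hr : (Q : ℤ) ∣ r ^ 3 - b) : ¬ (Q : Eis) ∣ Lf p q 1 r ∧ ¬ (Q : Eis) ∣ Lf p q 2 r := by
  have key : ¬ (Q : Eis) ∣ Lf p q 0 r * Lf p q 1 r * Lf p q 2 r := by
    rw [lf_prod]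
    intro h
    have h1 : ((Q : ℤ) : Eis) ∣ ((p ^ 3 + q ^ 3 * r ^ 3 : ℤ) : Eis) := by
      rw [Int.cast_natCast]
      exact h
    rw [intCast_dvd_intCast] at h1
    refine hb ?_
    have h2 : p ^ 3 + b * q ^ 3 = p ^ 3 + q ^ 3 * r ^ 3 - (r ^ 3 - b) * q ^ 3 := by ring
    rw [h2]
    exact dvd_sub h1 (Dvd.dvd.mul_right hr _)
  exact ⟨fun h => key (Dvd.dvd.mul_right (Dvd.dvd.mul_left h _) _), fun h => key (Dvd.dvd.mul_left h _)⟩

section Local

variable {L : Type} [Field L] [NumberField L] {Q : ℕ} (hQ : Q.Prime) {P : Ideal (𝓞 L)}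
  (hP : P.IsPrime) (hQP : (Q : 𝓞 L) ∈ P)

include hQ hP hQP

omit [NumberField L] in
theorem under_eq : P.under ℤ = Ideal.span {(Q : ℤ)} := by
  symm
  have hmax : (Ideal.span {(Q : ℤ)}).IsMaximal :=
    PrincipalIdealRing.isMaximal_of_irreducible ((Nat.prime_iff_prime_int.mp hQ).irreducible)
  apply hmax.eq_of_le
  · exact (Ideal.IsPrime.under ℤ P).ne_top
  · rw [Ideal.span_singleton_le_iff_mem]
    change algebraMap ℤ (𝓞 L) (Q : ℤ) ∈ P
    simpa using hQP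

omit [NumberField L] in
theorem card_under : Nat.card (ℤ ⧸ P.under ℤ) = Q := by
  rw [under_eq hQ hP hQP, Nat.card_congr (Int.quotientSpanNatEquivZMod Q).toEquiv, Nat.card_zmod]

omit [NumberField L] in
theorem int_mem (n : ℤ) : (n : 𝓞 L) ∈ P ↔ (Q : ℤ) ∣ n := by
  have h1 := under_eq hQ hP hQP
  have h2 : (n : 𝓞 L) ∈ P ↔ n ∈ P.under ℤ := by
    change _ ↔ algebraMap ℤ (𝓞 L) n ∈ P
    simp
  rw [h2, h1, Ideal.mem_span_singleton]

omit [NumberField L] in
theorem int_mk (n : ℤ) : ((n : ℤ) : 𝓞 L ⧸ P) = 0 ↔ (Q : ℤ) ∣ n := by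
  rw [← int_mem hQ hP hQP, ← Ideal.Quotient.eq_zero_iff_mem, map_intCast]

theorem frob_mk {φ : L ≃ₐ[ℚ] L} (hφ : IsArithFrobAt ℤ φ P) (x : 𝓞 L) :
    Ideal.Quotient.mk P (φ • x) = Ideal.Quotient.mk P x ^ Q := by
  rw [← map_pow, Ideal.Quotient.eq]
  have h1 := hφ x
  rw [card_under hQ hP hQP] at h1
  exact h1

theorem quo_finite : Finite (𝓞 L ⧸ P) := by
  refine Ideal.finiteQuotientOfFreeOfNeBot P ?_
  rintro rfl
  rw [Ideal.mem_bot] at hQP
  exact hQ.ne_zero (by exact_mod_cast hQP)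

end Local

theorem isIntegral_root {L : Type} [Field L] {ρ : L} {b : ℤ} (h : ρ ^ 3 = (b : L)) :
    IsIntegral ℤ ρ := by
  refine IsIntegral.of_pow (n := 3) (by norm_num) ?_
  rw [h]
  exact isIntegral_algebraMap (R := ℤ) (A := L) (x := b)

theorem omega_cube {S : Type*} [CommRing S] {ω : S} (h : ω ^ 2 + ω + 1 = 0) : ω ^ 3 = 1 := by
  linear_combination (ω - 1) * h

theorem isIntegral_omega {L : Type} [Field L] {ω : L} (h : ω ^ 2 + ω + 1 = 0) :
    IsIntegral ℤ ω := by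
  refine IsIntegral.of_pow (n := 3) (by norm_num) ?_
  rw [omega_cube h]
  exact isIntegral_one

theorem pow_mod3 {S : Type*} [CommRing S] {y : S} (h : y ^ 3 = 1) (k : ℕ) : y ^ k = y ^ (k % 3) :=
  pow_eq_pow_mod k h

/-- The value at `ω` of the Frobenius element. -/
theorem frob_omega {L : Type} [Field L] [NumberField L] {Q : ℕ} (hQ : Q.Prime)
    {P : Ideal (𝓞 L)} (hP : P.IsPrime) (hQP : (Q : 𝓞 L) ∈ P) (hQ3 : Q % 3 = 2)
    {φ : L ≃ₐ[ℚ] L} (hφ : IsArithFrobAt ℤ φ P) {ω : L} (hω : ω ^ 2 + ω + 1 = 0) :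
    φ ω = ω ^ 2 := by
  let z : 𝓞 L := ⟨ω, isIntegral_omega hω⟩
  have hz : z ^ 3 = 1 := by
    apply RingOfIntegers.coe_injective
    change ω ^ 3 = 1
    exact omega_cube hω
  have h3 : ((3 : ℕ) : 𝓞 L) ∉ P := by
    have h4 := int_mem hQ hP hQP 3
    intro h5
    have h6 : ((3 : ℤ) : 𝓞 L) ∈ P := by simpa using h5
    rw [h4] at h6
    have h7 : Q ∣ 3 := by exact_mod_cast h6
    have h8 := (Nat.prime_dvd_prime_iff_eq hQ Nat.prime_three).1 h7
    omega
  have h1 := hφ.apply_of_pow_eq_one hz h3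
  rw [card_under hQ hP hQP, pow_mod3 hz Q, hQ3] at h1
  have h2 := congrArg (fun x : 𝓞 L => (x : L)) h1
  exact h2

theorem core {L : Type} [Field L] [NumberField L] {Q : ℕ} (hQ : Q.Prime)
    {P : Ideal (𝓞 L)} (hP : P.IsPrime) (hQP : (Q : 𝓞 L) ∈ P) (hQ3 : Q % 3 = 2)
    {φ : L ≃ₐ[ℚ] L} (hφ : IsArithFrobAt ℤ φ P) {ω : L} (hω : ω ^ 2 + ω + 1 = 0)
    {b p q p' q' r : ℤ} (hb : ¬ (Q : ℤ) ∣ b) (h1 : ¬ (Q : ℤ) ∣ p ^ 3 + b * q ^ 3)
    (h2 : ¬ (Q : ℤ) ∣ p' ^ 3 + b * q' ^ 3) (hr : (Q : ℤ) ∣ r ^ 3 - b) {ρ A : L}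
    (hρ : ρ ^ 3 = (b : L)) (hφρ : φ ρ = ρ) (hA : A ^ 3 * aD ω p q p' q' ρ = aN ω p q p' q' ρ)
    {t : ZMod 3} (ht : φ A * A = ω ^ t.val) : t = TAUV Q p q p' q' r := by
  have hfin := quo_finite hQ hP hQP
  have hmax : P.IsMaximal :=
    Ideal.Quotient.maximal_of_isField _ (Finite.isField_of_domain (𝓞 L ⧸ P))
  let _ : Field (𝓞 L ⧸ P) := Ideal.Quotient.field P
  have hφω := frob_omega hQ hP hQP hQ3 hφ hω
  have hω3 := omega_cube hω
  have hω0 : ω ≠ 0 := by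
    rintro rfl
    norm_num at hω3
  -- the elements of the ring of integers
  let ωB : 𝓞 L := ⟨ω, isIntegral_omega hω⟩
  let ρB : 𝓞 L := ⟨ρ, isIntegral_root hρ⟩
  let dD : 𝓞 L := (p + q * ωB * ρB) * (p' + q' * ωB ^ 2 * ρB)
  let dN : 𝓞 L := (p + q * ωB ^ 2 * ρB) * (p' + q' * ωB * ρB)
  have hdD : algebraMap (𝓞 L) L dD = aD ω p q p' q' ρ := by
    simp only [dD, aD, map_mul, map_add, map_pow, map_intCast]
    rfl
  have hdN : algebraMap (𝓞 L) L dN = aN ω p q p' q' ρ := by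
    simp only [dN, aN, map_mul, map_add, map_pow, map_intCast]
    rfl
  have hA' : (A * aD ω p q p' q' ρ) ^ 3 = algebraMap (𝓞 L) L (dN * dD ^ 2) := by
    rw [map_mul, map_pow, hdD, hdN, ← hA]
    ring
  have hAint : IsIntegral ℤ (A * aD ω p q p' q' ρ) := by
    refine IsIntegral.of_pow (n := 3) (by norm_num) ?_
    rw [hA']
    exact RingOfIntegers.isIntegral_coe _
  let AB : 𝓞 L := ⟨A * aD ω p q p' q' ρ, hAint⟩
  have hAB : AB ^ 3 = dN * dD ^ 2 := by
    apply RingOfIntegers.coe_injective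
    rw [← hA']
    rfl
  -- the action of the square of the Frobenius
  have hφD : φ (aD ω p q p' q' ρ) = aN ω p q p' q' ρ := by
    simp only [aD, aN, map_mul, map_add, map_pow, map_intCast, hφω, hφρ]
    have h3 : (ω ^ 2) ^ 2 = ω := by linear_combination ω * hω3
    rw [h3]
  have hφN : φ (aN ω p q p' q' ρ) = aD ω p q p' q' ρ := by
    simp only [aD, aN, map_mul, map_add, map_pow, map_intCast, hφω, hφρ]
    have h3 : (ω ^ 2) ^ 2 = ω := by linear_combination ω * hω3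
    rw [h3]
  have hφφA : φ (φ A) = ω ^ t.val * A := by
    have h3 : φ (φ A) * φ A = (ω ^ 2) ^ t.val := by
      rw [← map_mul, ht, map_pow, hφω]
    have h4 : φ (φ A) * ω ^ t.val = (ω ^ 2) ^ t.val * A := by
      rw [← h3, ← ht]
      ring
    have h5 : (ω ^ 2) ^ t.val = ω ^ t.val * ω ^ t.val := by
      rw [← pow_mul, ← pow_add]
      congr 1
      ring
    rw [h5] at h4
    refine mul_right_cancel₀ (pow_ne_zero t.val hω0) ?_
    rw [h4]
    ring
  have hφφ : φ • (φ • AB) = ωB ^ t.val * AB := by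
    apply RingOfIntegers.coe_injective
    change φ (φ (A * aD ω p q p' q' ρ)) = ω ^ t.val * (A * aD ω p q p' q' ρ)
    rw [map_mul, map_mul, hφD, hφN, hφφA]
    ring
  -- reduction modulo `P`
  set z : 𝓞 L ⧸ P := Ideal.Quotient.mk P ωB with hz
  have hzrel : z ^ 2 + z + 1 = 0 := by
    have h3 : ωB ^ 2 + ωB + 1 = 0 := by
      apply RingOfIntegers.coe_injective
      change ω ^ 2 + ω + 1 = 0
      exact hω
    rw [hz, ← map_pow, ← map_add, ← map_one (Ideal.Quotient.mk P), ← map_add, h3, map_zero]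
  have hz3 := omega_cube hzrel
  have h3Q : ¬ (Q : ℤ) ∣ 3 := by
    intro h3
    have h4 : Q ∣ 3 := by exact_mod_cast h3
    have h5 := (Nat.prime_dvd_prime_iff_eq hQ Nat.prime_three).1 h4
    omega
  have hz1 : z ≠ 1 := by
    intro h3
    rw [h3] at hzrel
    refine h3Q ((int_mk hQ hP hQP 3).1 ?_)
    push_cast
    linear_combination hzrel
  have hrQ : ((r : ℤ) : 𝓞 L ⧸ P) ≠ 0 := by
    rw [Ne, int_mk hQ hP hQP]
    intro h3
    refine hb ?_
    have h4 : b = r * r ^ 2 - (r ^ 3 - b) := by ring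
    rw [h4]
    exact dvd_sub (Dvd.dvd.mul_right h3 _) hr
  have hrρ : Ideal.Quotient.mk P ρB = ((r : ℤ) : 𝓞 L ⧸ P) := by
    set c := Ideal.Quotient.mk P ρB with hc
    have hc3 : c ^ 3 = ((r : ℤ) : 𝓞 L ⧸ P) ^ 3 := by
      have h3 : ρB ^ 3 = ((b : ℤ) : 𝓞 L) := by
        apply RingOfIntegers.coe_injective
        rw [map_intCast]
        exact hρ
      have h4 := (int_mk hQ hP hQP (r ^ 3 - b)).2 hr
      push_cast at h4
      rw [hc, ← map_pow, h3, map_intCast]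
      linear_combination -h4
    have hcQ : c ^ Q = c := by
      rw [hc, ← frob_mk hQ hP hQP hφ]
      congr 1
      apply RingOfIntegers.coe_injective
      exact hφρ
    have hsQ : ((r : ℤ) : 𝓞 L ⧸ P) ^ Q = ((r : ℤ) : 𝓞 L ⧸ P) := by
      have h3 : (Q : ℤ) ∣ r ^ Q - r := by
        have := Fact.mk hQ
        rw [← ZMod.intCast_zmod_eq_zero_iff_dvd]
        push_cast
        rw [ZMod.pow_card, sub_self]
      have h4 := (int_mk hQ hP hQP _).2 h3
      push_cast at h4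
      exact sub_eq_zero.1 h4
    have hy3 : (c / ((r : ℤ) : 𝓞 L ⧸ P)) ^ 3 = 1 := by
      rw [div_pow, hc3, div_self (pow_ne_zero _ hrQ)]
    have hyQ : (c / ((r : ℤ) : 𝓞 L ⧸ P)) ^ Q = c / ((r : ℤ) : 𝓞 L ⧸ P) := by
      rw [div_pow, hcQ, hsQ]
    rw [pow_mod3 hy3 Q, hQ3] at hyQ
    have hy0 : c / ((r : ℤ) : 𝓞 L ⧸ P) ≠ 0 := by
      intro h3
      rw [h3] at hy3
      norm_num at hy3
    have hy1 : c / ((r : ℤ) : 𝓞 L ⧸ P) = 1 := by
      refine mul_left_cancel₀ hy0 ?_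
      rw [mul_one, ← pow_two]
      exact hyQ
    exact (div_eq_one_iff_eq hrQ).1 hy1
  -- the residue symbol
  have hq := prime_inert hQ hQ3
  have hq3 := n3 hQ hQ3
  obtain ⟨e1, e2⟩ := lf_not_dvd h1 hr
  obtain ⟨e1', e2'⟩ := lf_not_dvd h2 hr
  let ψ : Eis →+* 𝓞 L ⧸ P := lift z hzrel
  have hψQ : ψ (Q : Eis) = 0 := by
    rw [map_natCast, ← map_natCast (Ideal.Quotient.mk P)]
    exact Ideal.Quotient.eq_zero_iff_mem.2 hQP
  have hψw : ψ w = z := lift_w z hzrel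
  have hψi : ∀ n : ℤ, ψ (n : Eis) = n := lift_int z hzrel
  have hψL : ∀ (p q : ℤ) (i : ℕ), ψ (Lf p q i r) = p + q * z ^ i * r := by
    intro p q i
    simp only [Lf, map_add, map_mul, map_pow, hψi, hψw]
  set E : Eis := Lf p q 2 r * Lf p' q' 1 r * (Lf p q 1 r * Lf p' q' 2 r) ^ 2 with hE
  have hEd : ¬ (Q : Eis) ∣ E := by
    intro h3
    rcases hq.dvd_or_dvd h3 with h4 | h4
    · rcases hq.dvd_or_dvd h4 with h5 | h5
      · exact e2 h5
      · exact e1' h5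
    · rcases hq.dvd_or_dvd (hq.dvd_of_dvd_pow h4) with h5 | h5
      · exact e1 h5
      · exact e2' h5
  have hmkA : Ideal.Quotient.mk P AB ^ 3 = ψ E := by
    rw [← map_pow, hAB, hE]
    simp only [dD, dN, map_mul, map_add, map_pow, map_intCast, hrρ, ← hz, pow_one, hψL]
  have hsym := map_pow_eq hq hq3 hEd ψ hψQ
  rw [← hmkA, hψw] at hsym
  set a := Ideal.Quotient.mk P AB with ha
  have hN : N (Q : Eis) = Q * Q := by
    have h3 := N_cast (Q : Eis)
    rw [Eis.norm_natCast] at h3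
    have h4 : ((N (Q : Eis) : ℕ) : ℤ) = ((Q * Q : ℕ) : ℤ) := by
      rw [h3]
      push_cast
      ring
    exact_mod_cast h4
  have hM : 3 * ((N (Q : Eis) - 1) / 3) + 1 = Q * Q := by
    rw [three_mul_div hq hq3, hN]
  have ha0 : a ≠ 0 := by
    intro h3
    rw [h3] at hmkA
    rw [h3] at hsym
    have h5 : 0 < (N (Q : Eis) - 1) / 3 := by
      have h6 := hQ.two_le
      by_contra h7
      have h8 : (N (Q : Eis) - 1) / 3 = 0 := by omega
      rw [h8] at hM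
      nlinarith
    have h6 : z ≠ 0 := by
      intro h7
      rw [h7] at hz3
      norm_num at hz3
    rw [zero_pow (by norm_num), zero_pow h5.ne'] at hsym
    exact pow_ne_zero _ h6 hsym.symm
  have hfinal : z ^ t.val = z ^ (sym (Q : Eis) E).val := by
    have h3 := congrArg (Ideal.Quotient.mk P) hφφ
    rw [frob_mk hQ hP hQP hφ, frob_mk hQ hP hQP hφ, map_mul, map_pow, ← hz, ← ha, ← pow_mul,
      ← hM, pow_succ, pow_mul, hsym] at h3
    exact (mul_right_cancel₀ ha0 h3).symm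
  have horder : orderOf z = 3 := by
    have := Fact.mk Nat.prime_three
    exact orderOf_eq_prime hz3 hz1
  have ht' : t = sym (Q : Eis) E := by
    have h3 := IsPrimitiveRoot.orderOf z
    rw [horder] at h3
    exact ZMod.val_injective 3 (h3.pow_inj (ZMod.val_lt t) (ZMod.val_lt _) hfinal)
  rw [ht', hE]
  have g1 : ¬ (Q : Eis) ∣ Lf p q 2 r * Lf p' q' 1 r := fun h3 =>
    (hq.dvd_or_dvd h3).elim e2 e1'
  have g2 : ¬ (Q : Eis) ∣ Lf p q 1 r * Lf p' q' 2 r := fun h3 =>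
    (hq.dvd_or_dvd h3).elim e1 e2'
  have g3 : ¬ (Q : Eis) ∣ (Lf p q 1 r * Lf p' q' 2 r) ^ 2 := fun h3 => g2 (hq.dvd_of_dvd_pow h3)
  rw [sym_mul hq hq3 g1 g3, sym_mul hq hq3 e2 e1', sym_pow hq hq3 g2, sym_mul hq hq3 e1 e2']
  unfold TAUV
  have h2z : ((2 : ℕ) : ZMod 3) = -1 := by decide
  rw [h2z]
  ring

/-- a fixed cube root -/
theorem exists_fixed {L : Type} [Field L] [NumberField L] {φ : L ≃ₐ[ℚ] L} {ω θ : L} {b : ℤ}
    (hω : ω ^ 2 + ω + 1 = 0) (hφω : φ ω = ω ^ 2) (hθ : θ ^ 3 = (b : L)) :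
    ∃ ρ : L, ρ ^ 3 = (b : L) ∧ φ ρ = ρ := by
  have hω3 := omega_cube hω
  have h1 : (φ θ) ^ 3 = θ ^ 3 := by
    rw [← map_pow, hθ, map_intCast]
  have h2 : (φ θ - θ) * ((φ θ - ω * θ) * (φ θ - ω ^ 2 * θ)) = 0 := by
    linear_combination h1 + (-(φ θ) ^ 2 * θ + φ θ * θ ^ 2) * hω + (φ θ * θ ^ 2 - θ ^ 3) * hω3
  rcases mul_eq_zero.1 h2 with h3 | h3
  · exact ⟨θ, hθ, sub_eq_zero.1 h3⟩
  rcases mul_eq_zero.1 h3 with h4 | h4
  · refine ⟨ω ^ 2 * θ, ?_, ?_⟩
    · rw [mul_pow, ← pow_mul, mul_comm 2 3, pow_mul, hω3, one_pow, one_mul, hθ]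
    · rw [map_mul, map_pow, hφω, sub_eq_zero.1 h4]
      linear_combination ω ^ 2 * θ * hω3
  · refine ⟨ω * θ, ?_, ?_⟩
    · rw [mul_pow, hω3, one_mul, hθ]
    · rw [map_mul, hφω, sub_eq_zero.1 h4]
      linear_combination ω * θ * hω3

theorem not_dvd_of_lt {Q : ℕ} {n : ℤ} (hn : n ≠ 0) (h : n.natAbs < Q) : ¬ (Q : ℤ) ∣ n := by
  intro h1
  have h2 := Int.natAbs_dvd_natAbs.2 h1
  rw [Int.natAbs_natCast] at h2
  exact absurd (Nat.le_of_dvd (Int.natAbs_pos.2 hn) h2) (by omega)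

end GFR

open GFR

theorem GFR_thm : GFR := by
  classical
  intro s b p q p' q' f L _ _ ζ ω hS hG
  have hgal := hG.gal
  let B : Fin s → Fin s → ℕ := fun j i => (b j).natAbs + (p j i ^ 3 + b j * q j i ^ 3).natAbs +
    (p' j i ^ 3 + b j * q' j i ^ 3).natAbs
  refine ⟨∑ j, ∑ i, B j i, fun Q hQ hQN P hP hQP => ⟨fun g hg => ?_, fun φ hφ hQ3 => ?_⟩⟩
  · have hfin := quo_finite hQ hP hQP
    exact exists_frob_gen (R := ℤ) P g hg
  · have hφω := frob_omega hQ hP hQP hQ3 hφ hG.rel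
    refine ⟨hφω, fun j i hji r t hr ht => ?_⟩
    have hB : B j i < Q := by
      refine lt_of_le_of_lt ?_ hQN
      have h1 : B j i ≤ ∑ i, B j i :=
        Finset.single_le_sum (f := fun i => B j i) (fun _ _ => Nat.zero_le _) (Finset.mem_univ i)
      refine h1.trans ?_
      exact Finset.single_le_sum (f := fun j => ∑ i, B j i) (fun _ _ => Nat.zero_le _)
        (Finset.mem_univ j)
    have hsol := hS.sol j i hji
    have hbj : b j ≠ 0 := by
      intro h0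
      refine hS.ind (Pi.single j 1) ⟨j, by simp⟩ ⟨0, ?_⟩
      have h1 : ∏ i, b i ^ (Pi.single j 1 : Fin s → ℕ) i = 0 := by
        refine Finset.prod_eq_zero (Finset.mem_univ j) ?_
        rw [Pi.single_eq_same, pow_one, h0]
      rw [h1]
      norm_num
    have h2 : p' j i ^ 3 + b j * q' j i ^ 3 ≠ 0 := by
      intro h0
      refine hsol.n1 ?_
      rw [hsol.eq, h0, mul_zero]
    simp only [B] at hB
    obtain ⟨θ, hθ⟩ := hG.root j
    obtain ⟨ρ, hρ, hφρ⟩ := exists_fixed hG.rel hφω hθ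
    obtain ⟨A, hA⟩ := hG.A j i hji ρ hρ
    exact core hQ hP hQP hQ3 hφ hG.rel (not_dvd_of_lt hbj (by omega))
      (not_dvd_of_lt hsol.n1 (by omega)) (not_dvd_of_lt h2 (by omega)) hr hρ hφρ hA
      (ht ρ A hρ hφρ hA)

end Pool.Agent.PT
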