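import Pool.Agent.PT.Stmts4

/-!
# GKI: an integer which is a cube in a cyclotomic field is a cube
-/

namespace Pool.Agent.PT

open Polynomial

theorem GKI_thm : GKI := by
  intro L _ _ f ζ β d hf hζ hβ hd
  by_contra hcon
  push Not at hcon
  -- `d` is not a cube in `ℚ`
  have hQ : ∀ b : ℚ, b ^ 3 ≠ (d : ℚ) := by
    intro b hb
    have h1 : IsIntegral ℤ b := by
      refine IsIntegral.of_pow (n := 3) (by norm_num) ?_
      rw [hb]
      exact isIntegral_algebraMap (R := ℤ) (A := ℚ) (x := d)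
    obtain ⟨t, rfl⟩ := IsIntegrallyClosed.isIntegral_iff.1 h1
    refine hcon t ?_
    have h2 : ((t ^ 3 : ℤ) : ℚ) = (d : ℚ) := by
      push_cast
      exact hb
    exact_mod_cast h2
  have hirr : Irreducible (X ^ 3 - C (d : ℚ)) := X_pow_sub_C_irreducible_of_prime Nat.prime_three hQ
  -- the cyclotomic field
  have hfo : IsOfFinOrder ζ := isOfFinOrder_iff_pow_eq_one.2 ⟨f, hf, hζ⟩
  have hpr : IsPrimitiveRoot ζ (orderOf ζ) := IsPrimitiveRoot.orderOf ζ
  have : NeZero (orderOf ζ) := ⟨(orderOf_pos_iff.2 hfo).ne'⟩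
  have hcyc : IsCyclotomicExtension {orderOf ζ} ℚ (IntermediateField.adjoin ℚ {ζ}) :=
    hpr.intermediateField_adjoin_isCyclotomicExtension ℚ
  have hab : IsAbelianGalois ℚ (IntermediateField.adjoin ℚ {ζ}) :=
    IsCyclotomicExtension.isAbelianGalois {orderOf ζ} ℚ _
  obtain ⟨γ, hγ⟩ : ∃ γ : IntermediateField.adjoin ℚ {ζ}, (γ : L) = β := ⟨⟨β, hβ⟩, rfl⟩
  have hγ3 : γ ^ 3 = (d : IntermediateField.adjoin ℚ {ζ}) := by
    apply Subtype.ext
    push_cast
    rw [hγ, hd]
  have hroot : aeval γ (X ^ 3 - C (d : ℚ)) = 0 := by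
    simp [hγ3]
  have hmonic : (X ^ 3 - C (d : ℚ)).Monic := monic_X_pow_sub_C _ (by norm_num)
  have hmin : X ^ 3 - C (d : ℚ) = minpoly ℚ γ :=
    minpoly.eq_of_irreducible_of_monic hirr hroot hmonic
  have hdeg : (X ^ 3 - C (d : ℚ)).natDegree = 3 := natDegree_X_pow_sub_C
  have hint : IsIntegral ℚ γ := ⟨_, hmonic, hroot⟩
  -- the field of `γ` is a Galois extension
  let E := IntermediateField.adjoin ℚ {γ}
  have hE : IsAbelianGalois ℚ E := IsAbelianGalois.of_algHom E.val
  have hfin : Module.finrank ℚ E = 3 := by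
    rw [IntermediateField.adjoin.finrank hint, ← hmin, hdeg]
  let δ : E := IntermediateField.AdjoinSimple.gen ℚ γ
  have hδ : (δ : IntermediateField.adjoin ℚ {ζ}) = γ := rfl
  have hδ3 : δ ^ 3 = (d : E) := by
    apply Subtype.ext
    push_cast
    exact hγ3
  have hδmin : minpoly ℚ δ = X ^ 3 - C (d : ℚ) := by
    rw [hmin]
    exact (minpoly.algebraMap_eq (algebraMap E (IntermediateField.adjoin ℚ {ζ})).injective δ).symm
  have hδ0 : δ ≠ 0 := by
    intro h
    rw [h, zero_pow (by norm_num)] at hδ3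
    have h2 : (d : ℚ) = 0 := by
      have : (d : E) = ((d : ℚ) : E) := by push_cast; rfl
      rw [this] at hδ3
      have h4 : ((0 : ℚ) : E) = ((d : ℚ) : E) := by rw [← hδ3]; simp
      exact (Rat.cast_injective h4).symm
    exact hQ 0 (by rw [h2]; norm_num)
  have hcard : Nat.card (E ≃ₐ[ℚ] E) = 3 := by
    rw [IsGalois.card_aut_eq_finrank, hfin]
  -- an automorphism
  have : Nontrivial (E ≃ₐ[ℚ] E) := by
    apply Finite.one_lt_card_iff_nontrivial.1
    rw [hcard]
    norm_num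
  obtain ⟨σ, hσ⟩ := exists_ne (1 : E ≃ₐ[ℚ] E)
  have hσδ : σ δ ≠ δ := by
    intro h
    apply hσ
    have h5 : (σ : E →ₐ[ℚ] E) = AlgHom.id ℚ E := by
      apply IntermediateField.algHom_ext_of_eq_adjoin ℚ (rfl : E = IntermediateField.adjoin ℚ {γ})
      intro x hx
      rw [Set.mem_singleton_iff] at hx
      subst hx
      exact h
    apply AlgEquiv.ext
    intro x
    exact DFunLike.congr_fun h5 x
  -- the primitive cube root of unity
  obtain ⟨ω, hω⟩ : ∃ ω : E, ω = σ δ / δ := ⟨_, rfl⟩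
  have hω1 : ω ≠ 1 := by
    rw [hω]
    intro h
    exact hσδ ((div_eq_one_iff_eq hδ0).1 h)
  have hω3 : ω ^ 3 = 1 := by
    rw [hω, div_pow, ← map_pow, hδ3, map_intCast]
    have : (d : E) ≠ 0 := by
      rw [← hδ3]
      exact pow_ne_zero 3 hδ0
    exact div_self this
  have hωr : aeval ω (X ^ 2 + X + 1 : ℚ[X]) = 0 := by
    have h6 : (ω - 1) * (ω ^ 2 + ω + 1) = 0 := by
      linear_combination hω3
    rcases mul_eq_zero.1 h6 with h7 | h7
    · exact absurd (sub_eq_zero.1 h7) hω1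
    · simpa using h7
  -- `[ℚ(ω) : ℚ]` is at most `2` and divides `3`
  have hq0 : (X ^ 2 + X + 1 : ℚ[X]) ≠ 0 := by
    intro h
    have h8 := congrArg (fun p : ℚ[X] => p.eval 0) h
    simp at h8
  have hωint : IsIntegral ℚ ω := Algebra.IsIntegral.isIntegral ω
  have hle : (minpoly ℚ ω).natDegree ≤ 2 := by
    have h9 := natDegree_le_of_dvd (minpoly.dvd ℚ ω hωr) hq0
    refine h9.trans ?_
    compute_degree
  have hdvd : (minpoly ℚ ω).natDegree ∣ 3 := by
    rw [← hfin]
    exact minpoly.degree_dvd hωint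
  have hone : (minpoly ℚ ω).natDegree = 1 := by
    rcases (Nat.dvd_prime Nat.prime_three).1 hdvd with h | h
    · exact h
    · omega
  obtain ⟨r, hr⟩ := (minpoly.natDegree_eq_one_iff).1 hone
  rw [← hr] at hωr
  have h10 : r ^ 2 + r + 1 = 0 := by
    have h11 : algebraMap ℚ E (r ^ 2 + r + 1) = 0 := by
      simpa using hωr
    exact (map_eq_zero _).1 h11
  nlinarith [sq_nonneg (r + 1 / 2)]

end Pool.Agent.PT
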