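import Pool.Agent.PT.Stmts4

/-!
# GT: existence, uniqueness and properties of `t`
-/

set_option autoImplicit false
set_option linter.unusedSectionVars false

namespace Pool.Agent.PT

open Pool.Agent.Lib_helper18 Pool.Agent.Lib_helper18.Eis Pool.Agent.Lib_helper84.Cub

namespace GT

variable {L : Type} [Field L] [NumberField L] {ω : L}

/-- the powers of `ω` -/
def E (ω : L) (t : ZMod 3) : L := ω ^ t.val

theorem cube_one (rel : ω ^ 2 + ω + 1 = 0) : ω ^ 3 = 1 := by
  linear_combination (ω - 1) * rel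

theorem E_pow (rel : ω ^ 2 + ω + 1 = 0) (n : ℕ) : ω ^ n = E ω (n : ZMod 3) := by
  rw [E, ZMod.val_natCast]
  conv_lhs => rw [← Nat.div_add_mod n 3, pow_add, pow_mul, cube_one rel, one_pow, one_mul]

theorem E_add (rel : ω ^ 2 + ω + 1 = 0) (s t : ZMod 3) : E ω (s + t) = E ω s * E ω t := by
  have h : E ω s * E ω t = ω ^ (s.val + t.val) := by rw [E, E, pow_add]
  rw [h, E_pow rel]
  rw [Nat.cast_add, ZMod.natCast_zmod_val, ZMod.natCast_zmod_val]

theorem E_zero : E ω 0 = 1 := by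
  rw [E, ZMod.val_zero, pow_zero]

theorem ω_ne_zero (rel : ω ^ 2 + ω + 1 = 0) : ω ≠ 0 := by
  rintro rfl
  simp at rel

theorem E_ne_zero (rel : ω ^ 2 + ω + 1 = 0) (t : ZMod 3) : E ω t ≠ 0 :=
  pow_ne_zero _ (ω_ne_zero rel)

theorem E_neg (rel : ω ^ 2 + ω + 1 = 0) (t : ZMod 3) : E ω (-t) = (E ω t)⁻¹ := by
  refine eq_inv_of_mul_eq_one_left ?_
  rw [← E_add rel, neg_add_cancel, E_zero]

theorem ω_ne_one (rel : ω ^ 2 + ω + 1 = 0) : ω ≠ 1 := by
  intro h
  rw [h] at rel
  have h3 : (3 : L) = 0 := by linear_combination rel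
  exact three_ne_zero h3

theorem E_inj (rel : ω ^ 2 + ω + 1 = 0) {s t : ZMod 3} (h : E ω s = E ω t) : s = t := by
  have h1 : E ω (s - t) = 1 := by
    rw [sub_eq_add_neg, E_add rel, E_neg rel, h, mul_inv_cancel₀ (E_ne_zero rel t)]
  have h2 : ∀ u : ZMod 3, E ω u = 1 → u = 0 := by
    intro u hu
    have hne := ω_ne_one rel
    have hu' : u = 0 ∨ u = 1 ∨ u = 2 := by
      revert u
      intro u _
      fin_cases u
      · exact Or.inl rfl
      · exact Or.inr (Or.inl rfl)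
      · exact Or.inr (Or.inr rfl)
    rcases hu' with rfl | rfl | rfl
    · rfl
    · exfalso
      apply hne
      have : (1 : ZMod 3).val = 1 := rfl
      rw [E, this, pow_one] at hu
      exact hu
    · exfalso
      have : (2 : ZMod 3).val = 2 := rfl
      rw [E, this] at hu
      apply hne
      have h3 := cube_one rel
      calc ω = ω ^ 2 * ω := by rw [hu, one_mul]
        _ = ω ^ 3 := by ring
        _ = 1 := h3
  exact sub_eq_zero.mp (h2 _ h1)

/-- Two elements with the same cube. -/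
theorem of_cube (rel : ω ^ 2 + ω + 1 = 0) {x y : L} (h : x ^ 3 = y ^ 3) :
    ∃ k : ZMod 3, x = E ω k * y := by
  have h1 : (x - y) * ((x - ω * y) * (x - ω ^ 2 * y)) = 0 := by
    have h3 := cube_one rel
    have : (x - y) * ((x - ω * y) * (x - ω ^ 2 * y)) =
        x ^ 3 - y ^ 3 - (ω ^ 2 + ω + 1) * (x ^ 2 * y - x * y ^ 2) +
          (ω ^ 3 - 1) * (x * y ^ 2 - y ^ 3) := by
      ring
    rw [this, h, rel, h3]
    ring
  rcases mul_eq_zero.mp h1 with h2 | h2
  · exact ⟨0, by rw [E_zero, one_mul]; exact sub_eq_zero.mp h2⟩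
  rcases mul_eq_zero.mp h2 with h2 | h2
  · refine ⟨1, ?_⟩
    have : (1 : ZMod 3).val = 1 := rfl
    rw [E, this, pow_one]
    exact sub_eq_zero.mp h2
  · refine ⟨2, ?_⟩
    have : (2 : ZMod 3).val = 2 := rfl
    rw [E, this]
    exact sub_eq_zero.mp h2

/-- An automorphism which inverts `ω`. -/
theorem map_E (rel : ω ^ 2 + ω + 1 = 0) {g : L ≃ₐ[ℚ] L} (hg : g ω = ω ^ 2) (t : ZMod 3) :
    g (E ω t) = E ω (-t) := by
  rw [E_neg rel]
  refine eq_inv_of_mul_eq_one_left ?_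
  rw [E, map_pow, hg, ← pow_mul, ← pow_add]
  have : 2 * t.val + t.val = 3 * t.val := by ring
  rw [this, pow_mul, cube_one rel, one_pow]

/-- An automorphism which fixes `ω`. -/
theorem map_E' {g : L ≃ₐ[ℚ] L} (hg : g ω = ω) (t : ZMod 3) : g (E ω t) = E ω t := by
  rw [E, map_pow, hg]

/-- An automorphism sends `ω` to `ω` or to `ω ^ 2`. -/
theorem map_ω (rel : ω ^ 2 + ω + 1 = 0) (g : L ≃ₐ[ℚ] L) : g ω = ω ∨ g ω = ω ^ 2 := by
  have h1 : (g ω) ^ 2 + g ω + 1 = 0 := by
    have := congrArg g rel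
    rwa [map_add, map_add, map_pow, map_one, map_zero] at this
  have h2 : (g ω - ω) * (g ω - ω ^ 2) = 0 := by
    have h3 := cube_one rel
    linear_combination h1 - (g ω) * rel + h3
  rcases mul_eq_zero.mp h2 with h | h
  · exact Or.inl (sub_eq_zero.mp h)
  · exact Or.inr (sub_eq_zero.mp h)

/-- A cube root fixed by `g`. -/
theorem exists_fixed (rel : ω ^ 2 + ω + 1 = 0) {g : L ≃ₐ[ℚ] L} (hg : g ω = ω ^ 2) {b : ℤ} {θ : L}
    (hθ : θ ^ 3 = (b : L)) : ∃ ρ : L, ρ ^ 3 = (b : L) ∧ g ρ = ρ := by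
  have h1 : (g θ) ^ 3 = θ ^ 3 := by
    rw [← map_pow, hθ, map_intCast]
  obtain ⟨a, ha⟩ := of_cube rel h1
  refine ⟨E ω (2 * a) * θ, ?_, ?_⟩
  · rw [mul_pow, hθ, E, ← pow_mul, mul_comm _ 3, pow_mul, cube_one rel, one_pow, one_mul]
  · rw [map_mul, map_E rel hg, ha, ← mul_assoc, ← E_add rel]
    congr 2
    have h3 : (3 : ZMod 3) = 0 := rfl
    linear_combination (-a) * h3

/-- The fixed cube root is unique. -/
theorem fixed_unique (rel : ω ^ 2 + ω + 1 = 0) {g : L ≃ₐ[ℚ] L} (hg : g ω = ω ^ 2) {b : ℤ}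
    {ρ ρ' : L} (h : ρ ^ 3 = (b : L)) (h' : ρ' ^ 3 = (b : L)) (hf : g ρ = ρ) (hf' : g ρ' = ρ') :
    ρ' = ρ := by
  obtain ⟨k, hk⟩ := of_cube rel (h'.trans h.symm)
  by_cases h0 : ρ = 0
  · rw [hk, h0, mul_zero]
  · rw [hk, map_mul, map_E rel hg, hf] at hf'
    have h1 := mul_right_cancel₀ h0 hf'
    have h2 := E_inj rel h1
    have h3 : (3 : ZMod 3) = 0 := rfl
    have h4 : k = 0 := by linear_combination k * h3 + h2
    rw [hk, h4, E_zero, one_mul]

theorem map_aN (rel : ω ^ 2 + ω + 1 = 0) {g : L ≃ₐ[ℚ] L} (hg : g ω = ω ^ 2) (p q p' q' : ℤ)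
    (ρ : L) : g (aN ω p q p' q' ρ) = aD ω p q p' q' (g ρ) := by
  have h3 := cube_one rel
  rw [aN, aD]
  simp only [map_mul, map_add, map_pow, map_intCast, hg]
  have h4 : (ω ^ 2) ^ 2 = ω := by linear_combination ω * h3
  rw [h4]

theorem map_aD (rel : ω ^ 2 + ω + 1 = 0) {g : L ≃ₐ[ℚ] L} (hg : g ω = ω ^ 2) (p q p' q' : ℤ)
    (ρ : L) : g (aD ω p q p' q' ρ) = aN ω p q p' q' (g ρ) := by
  have h3 := cube_one rel
  rw [aN, aD]
  simp only [map_mul, map_add, map_pow, map_intCast, hg]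
  have h4 : (ω ^ 2) ^ 2 = ω := by linear_combination ω * h3
  rw [h4]

theorem map_aN' {g : L ≃ₐ[ℚ] L} (hg : g ω = ω) (p q p' q' : ℤ)
    (ρ : L) : g (aN ω p q p' q' ρ) = aN ω p q p' q' (g ρ) := by
  rw [aN, aN]
  simp only [map_mul, map_add, map_pow, map_intCast, hg]

theorem map_aD' {g : L ≃ₐ[ℚ] L} (hg : g ω = ω) (p q p' q' : ℤ)
    (ρ : L) : g (aD ω p q p' q' ρ) = aD ω p q p' q' (g ρ) := by
  rw [aD, aD]
  simp only [map_mul, map_add, map_pow, map_intCast, hg]

end GT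

open Pool.Agent.PT.GT in
/-- GT: existence, uniqueness and properties of `t`. -/
theorem GT_thm : GT := by
  intro s b p q p' q' f L _ _ ζ ω hS hG j i hji
  have rel := hG.rel
  have h3 := cube_one rel
  -- one witness is enough
  have isT_of : ∀ (g : L ≃ₐ[ℚ] L) (t : ZMod 3) (ρ A : L), g ω = ω ^ 2 → ρ ^ 3 = (b j : L) →
      g ρ = ρ → A ^ 3 * aD ω (p j i) (q j i) (p' j i) (q' j i) ρ =
        aN ω (p j i) (q j i) (p' j i) (q' j i) ρ → g A * A = E ω t →
      IsT b p q p' q' ω g j i t := by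
    intro g t ρ A hg hρ hf hA ht ρ' A' hρ' hf' hA'
    have e1 := fixed_unique rel hg hρ hρ' hf hf'
    subst e1
    have hD := (hG.D j i hji ρ' hρ').1
    have e2 : A' ^ 3 = A ^ 3 := mul_right_cancel₀ hD (hA'.trans hA.symm)
    obtain ⟨k, hk⟩ := of_cube rel e2
    change g A' * A' = E ω t
    rw [hk, map_mul, map_E rel hg, E_neg rel, ← ht]
    have hk0 := E_ne_zero rel k
    field_simp
  -- witnesses exist
  have exW : ∀ g : L ≃ₐ[ℚ] L, g ω = ω ^ 2 → ∃ ρ A : L, ρ ^ 3 = (b j : L) ∧ g ρ = ρ ∧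
      A ^ 3 * aD ω (p j i) (q j i) (p' j i) (q' j i) ρ =
        aN ω (p j i) (q j i) (p' j i) (q' j i) ρ ∧ A ≠ 0 := by
    intro g hg
    obtain ⟨θ, hθ⟩ := hG.root j
    obtain ⟨ρ, hρ, hf⟩ := exists_fixed rel hg hθ
    obtain ⟨A, hA⟩ := hG.A j i hji ρ hρ
    refine ⟨ρ, A, hρ, hf, hA, ?_⟩
    rintro rfl
    apply (hG.D j i hji ρ hρ).2
    rw [← hA]
    ring
  refine ⟨?_, ?_, ?_⟩
  · intro g hg
    obtain ⟨ρ, A, hρ, hf, hA, hA0⟩ := exW g hg
    obtain ⟨hD, hN⟩ := hG.D j i hji ρ hρ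
    have e1 : (g A) ^ 3 * aN ω (p j i) (q j i) (p' j i) (q' j i) ρ =
        aD ω (p j i) (q j i) (p' j i) (q' j i) ρ := by
      have := congrArg g hA
      rwa [map_mul, map_pow, map_aD rel hg, map_aN rel hg, hf] at this
    have e2 : (g A * A) ^ 3 = (1 : L) ^ 3 := by
      have h5 : (g A * A) ^ 3 * (aN ω (p j i) (q j i) (p' j i) (q' j i) ρ *
          aD ω (p j i) (q j i) (p' j i) (q' j i) ρ) =
          1 * (aN ω (p j i) (q j i) (p' j i) (q' j i) ρ *
          aD ω (p j i) (q j i) (p' j i) (q' j i) ρ) := by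
        calc (g A * A) ^ 3 * (aN ω (p j i) (q j i) (p' j i) (q' j i) ρ *
              aD ω (p j i) (q j i) (p' j i) (q' j i) ρ)
            = ((g A) ^ 3 * aN ω (p j i) (q j i) (p' j i) (q' j i) ρ) *
              (A ^ 3 * aD ω (p j i) (q j i) (p' j i) (q' j i) ρ) := by ring
          _ = _ := by rw [e1, hA]; ring
      rw [one_pow]
      exact mul_right_cancel₀ (mul_ne_zero hN hD) h5
    obtain ⟨t, ht⟩ := of_cube rel e2
    rw [mul_one] at ht
    refine ⟨t, isT_of g t ρ A hg hρ hf hA ht, ?_⟩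
    intro t' ht'
    have h5 : g A * A = E ω t' := ht' ρ A hρ hf hA
    exact E_inj rel (h5.symm.trans ht)
  · intro g τ t hg ht
    obtain ⟨ρ, A, hρ, hf, hA, hA0⟩ := exW g hg
    have hw : g A * A = E ω t := ht ρ A hρ hf hA
    have c1 : ∀ x : L, (τ * g * τ⁻¹) (τ x) = τ (g x) := by
      intro x
      change τ (g (τ⁻¹ (τ x))) = τ (g x)
      have : τ⁻¹ (τ x) = x := τ.symm_apply_apply x
      rw [this]
    have hρ' : (τ ρ) ^ 3 = (b j : L) := by
      rw [← map_pow, hρ, map_intCast]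
    have hf' : (τ * g * τ⁻¹) (τ ρ) = τ ρ := by rw [c1, hf]
    have e1 := congrArg τ hA
    rw [map_mul, map_pow] at e1
    rcases map_ω rel τ with hτ | hτ
    · have hg' : (τ * g * τ⁻¹) ω = ω ^ 2 := by
        have := c1 ω
        rwa [hτ, hg, map_pow, hτ] at this
      rw [map_aD' hτ, map_aN' hτ] at e1
      refine isT_of _ t (τ ρ) (τ A) hg' hρ' hf' e1 ?_
      rw [c1, ← map_mul, hw, map_E' hτ]
    · have hg' : (τ * g * τ⁻¹) ω = ω ^ 2 := by
        have h5 := c1 (ω ^ 2)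
        have h6 : τ (ω ^ 2) = ω := by
          rw [map_pow, hτ]
          linear_combination ω * h3
        rw [h6] at h5
        rw [h5, map_pow, hg]
        have h7 : (ω ^ 2) ^ 2 = ω := by linear_combination ω * h3
        rw [h7, hτ]
      rw [map_aD rel hτ, map_aN rel hτ] at e1
      have hτA : τ A ≠ 0 := by
        rw [Ne, EmbeddingLike.map_eq_zero_iff]
        exact hA0
      refine isT_of _ t (τ ρ) (τ A)⁻¹ hg' hρ' hf' ?_ ?_
      · rw [inv_pow, ← e1]
        field_simp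
      · rw [map_inv₀, c1, ← mul_inv, ← map_mul, hw, map_E rel hτ, E_neg rel, inv_inv]
  · intro g t k hg hk ht
    obtain ⟨ρ, A, hρ, hf, hA, hA0⟩ := exW g hg
    have hw : g A * A = E ω t := ht ρ A hρ hf hA
    have e1 : g A = E ω t * A⁻¹ := by
      rw [← hw]
      field_simp
    have h30 : (3 : ZMod 3) = 0 := rfl
    have e2 : ∀ l : ℕ, (g ^ (2 * l)) A = E ω (l * t) * A := by
      intro l
      induction l with
      | zero => simp [E_zero]
      | succ l ih =>
        have h5 : (g ^ (2 * (l + 1))) A = g (g ((g ^ (2 * l)) A)) := by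
          have : g ^ (2 * (l + 1)) = g * (g * g ^ (2 * l)) := by
            rw [← mul_assoc, ← pow_two, ← pow_add]
            congr 1
            ring
          rw [this]
          rfl
        rw [h5, ih, map_mul, map_E rel hg, e1, map_mul, map_mul, map_E rel hg, map_E rel hg,
          map_inv₀, e1, mul_inv, inv_inv, ← E_neg rel, neg_neg, ← mul_assoc, ← mul_assoc,
          ← E_add rel, ← E_add rel]
        congr 2
        push_cast
        linear_combination (-t) * h30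
    have f1 : ∀ m : ℕ, (g ^ m) ρ = ρ := by
      intro m
      induction m with
      | zero => rfl
      | succ m ih =>
        rw [pow_succ']
        change g ((g ^ m) ρ) = ρ
        rw [ih, hf]
    have f2 : ∀ l : ℕ, (g ^ (2 * l)) ω = ω := by
      intro l
      induction l with
      | zero => rfl
      | succ l ih =>
        have h5 : (g ^ (2 * (l + 1))) ω = g (g ((g ^ (2 * l)) ω)) := by
          have : g ^ (2 * (l + 1)) = g * (g * g ^ (2 * l)) := by
            rw [← mul_assoc, ← pow_two, ← pow_add]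
            congr 1
            ring
          rw [this]
          rfl
        rw [h5, ih, hg, map_pow, hg]
        linear_combination ω * h3
    obtain ⟨l, rfl⟩ := hk
    have h6 : ∀ x : L, (g ^ (2 * l + 1)) x = g ((g ^ (2 * l)) x) := by
      intro x
      rw [pow_succ']
      rfl
    refine isT_of _ _ ρ A ?_ hρ (f1 _) hA ?_
    · rw [h6, f2, hg]
    · rw [h6, e2, map_mul, map_E rel hg, mul_assoc, hw, ← E_add rel]
      congr 1
      push_cast
      linear_combination (-(l : ZMod 3) * t) * h30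

end Pool.Agent.PT
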