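import Pool.Agent.PT.Stmts4

/-!
# Prime twists of rank zero: existence of the governing field
-/

set_option autoImplicit false

open NumberField IsDedekindDomain Finset
open scoped nonZeroDivisors Pointwise

namespace Pool.Agent.PT

open Pool.Agent.Lib_helper18 Pool.Agent.Lib_helper18.Eis Pool.Agent.Lib_helper84.Cub

namespace GZERO

lemma gal_transfer {L : Type} [Field L] [CharZero L] (a : Algebra ℚ L)
    (h : @IsGalois ℚ _ L _ a) : IsGalois ℚ L := by
  have e : a = DivisionRing.toRatAlgebra := Subsingleton.elim _ _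
  subst e
  exact h

lemma fin_transfer {L : Type} [Field L] [CharZero L] (a : Algebra ℚ L)
    (h : @Module.Finite ℚ L _ _ a.toModule) : FiniteDimensional ℚ L := by
  have e : a = DivisionRing.toRatAlgebra := Subsingleton.elim _ _
  subst e
  exact h

lemma alg_transfer {L : Type} [Field L] [CharZero L] (a : Algebra ℚ L)
    (h : @Algebra.IsAlgebraic ℚ L _ _ a) : Algebra.IsAlgebraic ℚ L := by
  have e : a = DivisionRing.toRatAlgebra := Subsingleton.elim _ _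
  subst e
  exact h

/-- A finite set of algebraic numbers is contained in a Galois number field. -/
lemma exists_field (S : Set (AlgebraicClosure ℚ)) (hS : S.Finite) :
    ∃ (L : Type) (_ : Field L) (_ : NumberField L) (_ : IsGalois ℚ L)
      (ι : L →+* AlgebraicClosure ℚ), ∀ x ∈ S, ∃ y : L, ι y = x := by
  have : Finite S := hS
  have ha : Algebra.IsAlgebraic ℚ (AlgebraicClosure ℚ) :=
    alg_transfer _ (AlgebraicClosure.isAlgebraic ℚ)
  have hc : IsAlgClosure ℚ (AlgebraicClosure ℚ) := ⟨inferInstance, inferInstance⟩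
  have h0 : FiniteDimensional ℚ (IntermediateField.adjoin ℚ S) :=
    IntermediateField.finiteDimensional_adjoin fun x _ =>
      (Algebra.IsAlgebraic.isAlgebraic x).isIntegral
  have hn : Normal ℚ (AlgebraicClosure ℚ) := IsAlgClosure.normal ℚ _
  have h1 : FiniteDimensional ℚ (IntermediateField.normalClosure ℚ
      (IntermediateField.adjoin ℚ S) (AlgebraicClosure ℚ)) := inferInstance
  have h4 := @normalClosure.normal ℚ (IntermediateField.adjoin ℚ S) (AlgebraicClosure ℚ)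
    _ _ _ _ _ hn
  refine ⟨IntermediateField.normalClosure ℚ (IntermediateField.adjoin ℚ S)
    (AlgebraicClosure ℚ), inferInstance, @NumberField.mk _ _ inferInstance (fin_transfer _ h1),
    gal_transfer (IntermediateField.algebra' _)
      (@IsGalois.mk ℚ _ _ _ (IntermediateField.algebra' _) inferInstance h4),
    algebraMap (IntermediateField.normalClosure ℚ
      (IntermediateField.adjoin ℚ S) (AlgebraicClosure ℚ)) (AlgebraicClosure ℚ), ?_⟩
  intro x hx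
  have h3 : x ∈ IntermediateField.adjoin ℚ S := IntermediateField.subset_adjoin ℚ S hx
  exact ⟨⟨x, IntermediateField.le_normalClosure _ h3⟩, rfl⟩

lemma ne_of_prod {L : Type} [Field L] {ω : L} (hω : ω ^ 2 + ω + 1 = 0) {p q p' q' b : ℤ} {ρ : L}
    [CharZero L] (h1 : p ^ 3 + b * q ^ 3 ≠ 0) (h2 : p' ^ 3 + b * q' ^ 3 ≠ 0)
    (hρ : ρ ^ 3 = (b : L)) : aD ω p q p' q' ρ ≠ 0 ∧ aN ω p q p' q' ρ ≠ 0 := by
  have h3 : ω ^ 3 = 1 := by linear_combination (ω - 1) * hω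
  have key : aD ω p q p' q' ρ * aN ω p q p' q' ρ * ((p + q * ρ) * (p' + q' * ρ)) =
      ((p ^ 3 + b * q ^ 3 : ℤ) : L) * ((p' ^ 3 + b * q' ^ 3 : ℤ) : L) := by
    have e1 : ∀ u v : L, (u + v * ω ^ 2 * ρ) * (u + v * ω * ρ) * (u + v * ρ) =
        u ^ 3 + v ^ 3 * ρ ^ 3 := by
      intro u v
      linear_combination (u ^ 2 * v * ρ + u * v ^ 2 * ρ ^ 2 * ω) * hω + v ^ 3 * ρ ^ 3 * h3
    have e2 := e1 p q
    have e3 := e1 p' q'
    rw [hρ] at e2 e3
    unfold aD aN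
    push_cast
    linear_combination ((p' + q' * ω ^ 2 * ρ) * (p' + q' * ω * ρ) * (p' + q' * ρ)) * e2 +
      ((p : L) ^ 3 + q ^ 3 * b) * e3
  have hne : ((p ^ 3 + b * q ^ 3 : ℤ) : L) * ((p' ^ 3 + b * q' ^ 3 : ℤ) : L) ≠ 0 :=
    mul_ne_zero (Int.cast_ne_zero.2 h1) (Int.cast_ne_zero.2 h2)
  rw [← key] at hne
  exact ⟨left_ne_zero_of_mul (left_ne_zero_of_mul hne),
    right_ne_zero_of_mul (left_ne_zero_of_mul hne)⟩

lemma rel_of_prim {L : Type} [Field L] {ω : L} (h : IsPrimitiveRoot ω 3) :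
    ω ^ 2 + ω + 1 = 0 := by
  have h1 : ω ^ 3 = 1 := h.pow_eq_one
  have h2 : ω ≠ 1 := h.ne_one (by norm_num)
  have h3 : (ω - 1) * (ω ^ 2 + ω + 1) = 0 := by linear_combination h1
  exact (mul_eq_zero.1 h3).resolve_left (sub_ne_zero.2 h2)

lemma prim_pow {L : Type} [Field L] {ζ : L} {f : ℕ} (hf : 0 < f) (h9 : 9 ∣ f)
    (h : IsPrimitiveRoot ζ f) : IsPrimitiveRoot (ζ ^ (f / 3)) 3 :=
  h.pow hf (by omega)

end GZERO

open GZERO in
/-- GZERO: existence of the governing field. -/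
theorem GZERO_thm : GZERO := by
  intro s b p q p' q' f hSys hf h9
  have : NeZero (f : AlgebraicClosure ℚ) := ⟨Nat.cast_ne_zero.2 hf.ne'⟩
  have : NeZero f := ⟨hf.ne'⟩
  obtain ⟨ζ, hζ⟩ := HasEnoughRootsOfUnity.exists_primitiveRoot (AlgebraicClosure ℚ) f
  have hω := rel_of_prim (prim_pow hf h9 hζ)
  have hN : ∀ j i, j ≠ i → p j i ^ 3 + b j * q j i ^ 3 ≠ 0 ∧
      p' j i ^ 3 + b j * q' j i ^ 3 ≠ 0 := by
    intro j i hji
    have h1 := hSys.sol j i hji
    refine ⟨h1.n1, fun h2 => h1.n1 ?_⟩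
    rw [h1.eq, h2, mul_zero]
  have hA : ∀ (j i : Fin s) (ρ : AlgebraicClosure ℚ), ∃ A : AlgebraicClosure ℚ, j ≠ i →
      ρ ^ 3 = (b j : AlgebraicClosure ℚ) →
      A ^ 3 * aD (ζ ^ (f / 3)) (p j i) (q j i) (p' j i) (q' j i) ρ =
        aN (ζ ^ (f / 3)) (p j i) (q j i) (p' j i) (q' j i) ρ := by
    intro j i ρ
    obtain ⟨A, hA⟩ := IsAlgClosed.exists_pow_nat_eq
      (aN (ζ ^ (f / 3)) (p j i) (q j i) (p' j i) (q' j i) ρ /
        aD (ζ ^ (f / 3)) (p j i) (q j i) (p' j i) (q' j i) ρ) (n := 3) (by norm_num)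
    refine ⟨A, fun hji hρ => ?_⟩
    rw [hA, div_mul_cancel₀]
    exact (ne_of_prod hω (hN j i hji).1 (hN j i hji).2 hρ).1
  choose A hA using hA
  have hθ : ∀ j : Fin s, ∃ θ : AlgebraicClosure ℚ, θ ^ 3 = (b j : AlgebraicClosure ℚ) :=
    fun j => IsAlgClosed.exists_pow_nat_eq _ (by norm_num)
  have hR : ∀ j : Fin s, {ρ : AlgebraicClosure ℚ | ρ ^ 3 = (b j : AlgebraicClosure ℚ)}.Finite := by
    intro j
    classical
    refine (Polynomial.nthRoots 3 (b j : AlgebraicClosure ℚ)).toFinset.finite_toSet.subset ?_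
    intro ρ hρ
    simp only [Finset.mem_coe, Multiset.mem_toFinset]
    exact (Polynomial.mem_nthRoots (by norm_num)).2 hρ
  obtain ⟨L, iF, iN, iG, ι, hι⟩ := exists_field
    (({ζ} ∪ ⋃ j : Fin s, {ρ | ρ ^ 3 = (b j : AlgebraicClosure ℚ)}) ∪
      ⋃ j : Fin s, ⋃ i : Fin s, A j i '' {ρ | ρ ^ 3 = (b j : AlgebraicClosure ℚ)})
    (((Set.finite_singleton ζ).union (Set.finite_iUnion hR)).union
      (Set.finite_iUnion fun j => Set.finite_iUnion fun i => (hR j).image _))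
  have hinj : Function.Injective ι := ι.injective
  obtain ⟨z, hz⟩ := hι ζ (Or.inl (Or.inl rfl))
  have hzp : IsPrimitiveRoot z f := by
    refine IsPrimitiveRoot.of_map_of_injective (f := ι) ?_ hinj
    rw [hz]
    exact hζ
  have hzω : ι (z ^ (f / 3)) = ζ ^ (f / 3) := by rw [map_pow, hz]
  have hrel := rel_of_prim (prim_pow hf h9 hzp)
  have hNmap : ∀ (u v u' v' : ℤ) (ρ : L), ι (aN (z ^ (f / 3)) u v u' v' ρ) =
      aN (ζ ^ (f / 3)) u v u' v' (ι ρ) := by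
    intro u v u' v' ρ
    unfold aN
    simp only [map_mul, map_add, map_pow, map_intCast, hz]
  have hDmap : ∀ (u v u' v' : ℤ) (ρ : L), ι (aD (z ^ (f / 3)) u v u' v' ρ) =
      aD (ζ ^ (f / 3)) u v u' v' (ι ρ) := by
    intro u v u' v' ρ
    unfold aD
    simp only [map_mul, map_add, map_pow, map_intCast, hz]
  refine ⟨L, iF, iN, z, z ^ (f / 3), iG, hzp, h9, rfl, hrel, ?_, ?_, ?_⟩
  · intro j
    obtain ⟨θ, hθ⟩ := hθ j
    obtain ⟨y, hy⟩ := hι θ (Or.inl (Or.inr (Set.mem_iUnion.2 ⟨j, hθ⟩)))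
    refine ⟨y, hinj ?_⟩
    rw [map_pow, hy, hθ, map_intCast]
  · intro j i hji ρ hρ
    have hρ' : (ι ρ) ^ 3 = (b j : AlgebraicClosure ℚ) := by rw [← map_pow, hρ, map_intCast]
    obtain ⟨y, hy⟩ := hι (A j i (ι ρ)) (Or.inr (Set.mem_iUnion.2 ⟨j, Set.mem_iUnion.2
      ⟨i, ⟨ι ρ, hρ', rfl⟩⟩⟩))
    refine ⟨y, hinj ?_⟩
    rw [map_mul, map_pow, hy, hDmap, hNmap]
    exact hA j i (ι ρ) hji hρ'
  · intro j i hji ρ hρ
    exact ne_of_prod hrel (hN j i hji).1 (hN j i hji).2 hρ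

end Pool.Agent.PT
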