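import Pool.Agent.PT.Stmts3
import Pool.Agent.RI.HERB

/-!
# Module HERBQ: the Herbrand quotient argument relative to a free subgroup of invariants
-/

namespace Pool.Agent.PT

open Finset

namespace HERBQ

section group

variable {A G : Type} [CommGroup A] [Group G] [MulDistribMulAction G A]

/-- the subgroup generated by the `d i` -/
def Dg {e : ℕ} (d : Fin e → A) : Subgroup A where
  carrier := {x | ∃ n : Fin e → ℤ, x = ∏ i, d i ^ n i}
  one_mem' := ⟨0, by simp⟩
  mul_mem' := by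
    rintro _ _ ⟨n, rfl⟩ ⟨m, rfl⟩
    exact ⟨n + m, by simp [zpow_add, Finset.prod_mul_distrib]⟩
  inv_mem' := by
    rintro _ ⟨n, rfl⟩
    exact ⟨-n, by simp⟩

/-- the norm -/
def Nm (g : G) (p : ℕ) : A →* A where
  toFun x := ∏ i ∈ range p, g ^ i • x
  map_one' := by simp
  map_mul' x y := by simp [smul_mul', Finset.prod_mul_distrib]

theorem Nm_apply (g : G) (p : ℕ) (x : A) : Nm g p x = ∏ i ∈ range p, g ^ i • x := rfl

theorem pow_smul_fixed {g : G} {x : A} (h : g • x = x) (i : ℕ) : g ^ i • x = x := by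
  induction i with
  | zero => simp
  | succ i ih => rw [pow_succ, mul_smul, h, ih]

theorem Nm_fixed {g : G} {x : A} (p : ℕ) (h : g • x = x) : Nm g p x = x ^ p := by
  rw [Nm_apply, Finset.prod_congr rfl (fun i _ => pow_smul_fixed h i)]
  simp

theorem smul_Nm (g : G) (p : ℕ) (x : A) : g • Nm g p x = Nm g p (g • x) := by
  rw [Nm_apply, Nm_apply, Finset.smul_prod']
  refine Finset.prod_congr rfl fun i _ => ?_
  rw [← mul_smul, ← mul_smul, ← pow_succ, ← pow_succ']

theorem Nm_smul {g : G} {p : ℕ} (hg : g ^ p = 1) (x : A) : Nm g p (g • x) = Nm g p x := by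
  have h1 := Finset.prod_range_succ (fun i => g ^ i • x) p
  have h2 := Finset.prod_range_succ' (fun i => g ^ i • x) p
  rw [h1, hg, pow_zero, one_smul] at h2
  have h3 := mul_right_cancel h2
  rw [Nm_apply, Nm_apply, h3]
  refine Finset.prod_congr rfl fun i _ => ?_
  rw [← mul_smul, ← pow_succ]

theorem pow_smul_mem {g : G} {E : Subgroup A} (hE : ∀ u ∈ E, g • u ∈ E) {x : A} (hx : x ∈ E)
    (i : ℕ) : g ^ i • x ∈ E := by
  induction i with
  | zero => simpa using hx
  | succ i ih => rw [pow_succ', mul_smul]; exact hE _ ih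

theorem Nm_mem {g : G} {E : Subgroup A} (hE : ∀ u ∈ E, g • u ∈ E) {x : A} (hx : x ∈ E)
    (p : ℕ) : Nm g p x ∈ E := by
  rw [Nm_apply]
  exact Subgroup.prod_mem _ fun i _ => pow_smul_mem hE hx i

theorem Dg_fixed {g : G} {e : ℕ} {d : Fin e → A} (hd : ∀ i, g • d i = d i) {x : A}
    (hx : x ∈ Dg d) : g • x = x := by
  obtain ⟨n, rfl⟩ := hx
  rw [Finset.smul_prod']
  refine Finset.prod_congr rfl fun i _ => ?_
  rw [smul_zpow', hd i]

theorem Dg_torsion {e : ℕ} {d : Fin e → A}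
    (hi : ∀ n : Fin e → ℤ, ∏ i, d i ^ n i = 1 → n = 0) {x : A} (hx : x ∈ Dg d) {p : ℕ}
    (hp : p ≠ 0) (h : x ^ p = 1) : x = 1 := by
  obtain ⟨n, rfl⟩ := hx
  have h1 : ∏ i, d i ^ ((p : ℤ) * n i) = 1 := by
    rw [← h, ← Finset.prod_pow]
    refine Finset.prod_congr rfl fun i _ => ?_
    rw [mul_comm, zpow_mul, zpow_natCast]
  have h2 := hi _ h1
  refine Finset.prod_eq_one fun i _ => ?_
  have h3 := congrFun h2 i
  simp only [Pi.zero_apply, mul_eq_zero, Nat.cast_eq_zero, hp, false_or] at h3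
  rw [h3, zpow_zero]

/-- ranks -/
theorem rank_eq {e : ℕ} {d : Fin e → A}
    (hi : ∀ n : Fin e → ℤ, ∏ i, d i ^ n i = 1 → n = 0) {E : Subgroup A}
    (hfin : Module.Finite ℤ (Additive E)) (hd : ∀ i, d i ∈ E) :
    Module.finrank ℤ (Additive E) =
      Module.finrank ℤ (Additive (E.map (QuotientGroup.mk' (Dg d)))) + e := by
  let f : Additive E →ₗ[ℤ] Additive (E.map (QuotientGroup.mk' (Dg d))) :=
    (MonoidHom.toAdditive ((QuotientGroup.mk' (Dg d)).subgroupMap E)).toIntLinearMap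
  have hf : Function.Surjective f := by
    intro y
    obtain ⟨x, hx⟩ := (QuotientGroup.mk' (Dg d)).subgroupMap_surjective E (Additive.toMul y)
    exact ⟨Additive.ofMul x, hx⟩
  let φ : (Fin e → ℤ) →ₗ[ℤ] Additive E :=
    Fintype.linearCombination ℤ (fun i => Additive.ofMul (⟨d i, hd i⟩ : E))
  have hφ : ∀ n : Fin e → ℤ, ((Additive.toMul (φ n) : E) : A) = ∏ i, d i ^ n i := by
    intro n
    simp only [φ, Fintype.linearCombination_apply, toMul_sum, toMul_zsmul, toMul_ofMul]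
    rw [Subgroup.val_finsetProd]
    simp
  have hinj : Function.Injective φ := by
    rw [injective_iff_map_eq_zero]
    intro n hn
    apply hi
    rw [← hφ n, hn]
    rfl
  have hker : LinearMap.ker f = LinearMap.range φ := by
    ext x
    rw [LinearMap.mem_ker, LinearMap.mem_range]
    have h1 : f x = 0 ↔ ((Additive.toMul x : E) : A) ∈ Dg d := by
      rw [← QuotientGroup.eq_one_iff]
      constructor
      · intro h
        have := congrArg (fun z => ((Additive.toMul z : E.map (QuotientGroup.mk' (Dg d))) : A ⧸ Dg d)) h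
        exact this
      · intro h
        apply Additive.toMul.injective
        exact Subtype.ext h
    rw [h1]
    constructor
    · rintro ⟨n, hn⟩
      refine ⟨n, ?_⟩
      apply Additive.toMul.injective
      apply Subtype.ext
      rw [hφ, hn]
    · rintro ⟨n, rfl⟩
      exact ⟨n, hφ n⟩
  have h1 := Submodule.finrank_quotient_add_finrank (LinearMap.ker f)
  rw [(LinearMap.quotKerEquivOfSurjective f hf).finrank_eq, hker,
    LinearMap.finrank_range_of_inj hinj, Module.finrank_fin_fun] at h1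
  exact h1.symm

/-- the values of `ψ` on the subgroup generated by the `d i` -/
theorem psi_prod {κ : Type} {p : ℕ} {ψ : A → κ → ZMod p} {E' : Subgroup A}
    (hψ : ∀ u ∈ E', ∀ v ∈ E', ψ (u * v) = ψ u + ψ v) {e : ℕ} {d : Fin e → A}
    (hd : ∀ i, d i ∈ E') (n : Fin e → ℤ) :
    ψ (∏ i, d i ^ n i) = ∑ i, (n i : ZMod p) • ψ (d i) := by
  let Ψ : E' →* Multiplicative (κ → ZMod p) :=
    MonoidHom.mk' (fun u => Multiplicative.ofAdd (ψ (u : A))) (fun u v => by
      rw [← ofAdd_add, ← hψ u u.2 v v.2]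
      rfl)
  have h1 : Ψ (∏ i, (⟨d i, hd i⟩ : E') ^ n i) = ∏ i, Ψ ⟨d i, hd i⟩ ^ n i := by
    rw [map_prod]
    exact Finset.prod_congr rfl fun i _ => map_zpow Ψ _ _
  have h2 : ((∏ i, (⟨d i, hd i⟩ : E') ^ n i : E') : A) = ∏ i, d i ^ n i := by
    rw [Subgroup.val_finsetProd]
    rfl
  have h3 : ψ (∏ i, d i ^ n i) = Multiplicative.toAdd (Ψ (∏ i, (⟨d i, hd i⟩ : E') ^ n i)) := by
    rw [← h2]
    rfl
  rw [h3, h1, toAdd_prod]
  refine Finset.sum_congr rfl fun i _ => ?_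
  rw [toAdd_zpow]
  funext k
  simp [Ψ]

/-- elements with trivial symbols are norms -/
theorem exists_norm {κ : Type} {p : ℕ} [NeZero p] {ψ : A → κ → ZMod p} {E' : Subgroup A}
    (hψ : ∀ u ∈ E', ∀ v ∈ E', ψ (u * v) = ψ u + ψ v) {e : ℕ} {d : Fin e → A}
    (hd : ∀ i, d i ∈ E') {g : G} (hdg : ∀ i, g • d i = d i)
    (hind : ∀ n : Fin e → ZMod p, ∑ i, n i • ψ (d i) = 0 → n = 0) {x : A} (hx : x ∈ Dg d)
    (h0 : ψ x = 0) : ∃ x' ∈ Dg d, x = Nm g p x' := by
  obtain ⟨n, rfl⟩ := hx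
  rw [psi_prod hψ hd] at h0
  have h1 := hind _ h0
  have h2 : ∀ i, ∃ m : ℤ, n i = p * m := by
    intro i
    exact (ZMod.intCast_zmod_eq_zero_iff_dvd _ p).1 (congrFun h1 i)
  choose m hm using h2
  refine ⟨∏ i, d i ^ m i, ⟨m, rfl⟩, ?_⟩
  rw [Nm_fixed p (Dg_fixed hdg ⟨m, rfl⟩), ← Finset.prod_pow]
  refine Finset.prod_congr rfl fun i _ => ?_
  rw [hm i, mul_comm, zpow_mul, zpow_natCast]

end group

end HERBQ

open HERBQ in
theorem HERBQ_thm : HERBQ := by
  intro p hp A G _ _ _ g E E' κ ψ e d hgp hfg hE hE' hH1 hψ hψN hd hi hindep hrk y hy hψy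
  have hpp : p.Prime := hp.out
  have : NeZero p := ⟨hpp.ne_zero⟩
  have hdE : ∀ i, d i ∈ E := fun i => ((hE' _).1 (hd i)).1
  have hdg : ∀ i, g • d i = d i := fun i => ((hE' _).1 (hd i)).2
  have hDE : Dg d ≤ E := by
    rintro _ ⟨n, rfl⟩
    exact Subgroup.prod_mem _ fun i _ => Subgroup.zpow_mem _ (hdE i) _
  have hDE' : Dg d ≤ E' := by
    rintro _ ⟨n, rfl⟩
    exact Subgroup.prod_mem _ fun i _ => Subgroup.zpow_mem _ (hd i) _
  have hτ : (Dg d).map (MulDistribMulAction.toMulEquiv A g).toMonoidHom = Dg d := by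
    ext x
    constructor
    · rintro ⟨z, hz, rfl⟩
      change g • z ∈ Dg d
      rw [Dg_fixed hdg hz]
      exact hz
    · intro hx
      exact ⟨x, hx, Dg_fixed hdg hx⟩
  obtain ⟨g', hg'⟩ : ∃ g' : MulAut (A ⧸ Dg d),
      ∀ x : A, g' • (x : A ⧸ Dg d) = ((g • x : A) : A ⧸ Dg d) :=
    ⟨QuotientGroup.congr (Dg d) (Dg d) (MulDistribMulAction.toMulEquiv A g) hτ, fun x => rfl⟩
  have hgi : ∀ (i : ℕ) (x : A), g' ^ i • (x : A ⧸ Dg d) = ((g ^ i • x : A) : A ⧸ Dg d) := by
    intro i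
    induction i with
    | zero => intro x; simp
    | succ i ih => intro x; rw [pow_succ, mul_smul, hg', ih, pow_succ, mul_smul]
  have hN : ∀ x : A, ∏ i ∈ range p, g' ^ i • (x : A ⧸ Dg d) = ((Nm g p x : A) : A ⧸ Dg d) := by
    intro x
    rw [Nm_apply, Finset.prod_congr rfl (fun i _ => hgi i x)]
    exact (map_prod (QuotientGroup.mk' (Dg d)) (fun i => g ^ i • x) (range p)).symm
  have hNE : ∀ x ∈ E, Nm g p x ∈ E' := by
    intro x hx
    rw [hE', smul_Nm, Nm_smul hgp]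
    exact ⟨Nm_mem hE hx p, rfl⟩
  have hfgE : Group.FG E := (Group.fg_iff_subgroup_fg E).2 hfg
  have hfinE : Module.Finite ℤ (Additive E) := Module.Finite.iff_addGroup_fg.mpr inferInstance
  have hfgm : (E.map (QuotientGroup.mk' (Dg d))).FG := by
    rw [← Group.fg_iff_subgroup_fg]
    exact Group.fg_of_surjective ((QuotientGroup.mk' (Dg d)).subgroupMap_surjective E)
  have key := RI.HERB_thm p (A ⧸ Dg d) (MulAut (A ⧸ Dg d)) g' (E.map (QuotientGroup.mk' (Dg d)))
    (E'.map (QuotientGroup.mk' (Dg d))) ?_ hfgm ?_ ?_ ?_ ?_ (y : A ⧸ Dg d) ⟨y, hy, rfl⟩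
  · obtain ⟨_, ⟨η, hη, rfl⟩, h1⟩ := key
    rw [QuotientGroup.mk'_apply, hN η, QuotientGroup.eq] at h1
    have h2 : (Nm g p η)⁻¹ * y ∈ Dg d := by
      have := inv_mem h1
      rwa [mul_inv_rev, inv_inv] at this
    have h3 : y = Nm g p η * ((Nm g p η)⁻¹ * y) := by rw [mul_inv_cancel_left]
    have h4 := hψ _ (hNE η hη) _ (hDE' h2)
    rw [← h3, hψy, Nm_apply g p η, hψN η hη, zero_add] at h4
    obtain ⟨z, hz, h5⟩ := exists_norm hψ hd hdg hindep h2 h4.symm
    refine ⟨η * z, mul_mem hη (hDE hz), ?_⟩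
    rw [← Nm_apply g p, map_mul, ← h5]
    exact h3
  · refine MulEquiv.ext fun x => ?_
    induction x using QuotientGroup.induction_on with
    | H x =>
      have h1 := hgi p x
      rw [hgp, one_smul] at h1
      exact h1
  · rintro _ ⟨u, hu, rfl⟩
    exact ⟨g • u, hE u hu, (hg' u).symm⟩
  · intro u
    constructor
    · rintro ⟨u, hu, rfl⟩
      have h1 := (hE' u).1 hu
      refine ⟨⟨u, h1.1, rfl⟩, ?_⟩
      rw [QuotientGroup.mk'_apply, hg', h1.2]
    · rintro ⟨⟨u, hu, rfl⟩, h1⟩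
      rw [QuotientGroup.mk'_apply, hg', QuotientGroup.eq] at h1
      have h2 : Nm g p ((g • u)⁻¹ * u) = 1 := by
        rw [map_mul, map_inv, Nm_smul hgp, inv_mul_cancel]
      rw [Nm_fixed p (Dg_fixed hdg h1)] at h2
      have h3 := Dg_torsion hi h1 hpp.ne_zero h2
      exact ⟨u, (hE' u).2 ⟨hu, inv_mul_eq_one.1 h3⟩, rfl⟩
  · rintro _ ⟨u, hu, rfl⟩ h1
    rw [QuotientGroup.mk'_apply, hN u] at h1
    have h2 : Nm g p u ∈ Dg d := (QuotientGroup.eq_one_iff _).1 h1
    obtain ⟨z, hz, h3⟩ := exists_norm hψ hd hdg hindep h2 (hψN u hu)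
    have h4 : Nm g p (u / z) = 1 := by rw [map_div, h3, div_self']
    obtain ⟨v, hv, h5⟩ := hH1 (u / z) (div_mem hu (hDE hz)) h4
    refine ⟨v, ⟨v, hv, rfl⟩, ?_⟩
    have h6 : ((u : A) : A ⧸ Dg d) = ((u / z : A) : A ⧸ Dg d) := by
      rw [QuotientGroup.eq, mul_div_assoc', inv_mul_cancel, one_div]
      exact inv_mem hz
    rw [QuotientGroup.mk'_apply, h6, h5, hg']
    rfl
  · have hfinE' : Module.Finite ℤ (Additive E') := by
      have hE'E : E' ≤ E := fun x hx => ((hE' x).1 hx).1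
      exact Module.Finite.of_injective
        (MonoidHom.toAdditive (Subgroup.inclusion hE'E)).toIntLinearMap
        (Subgroup.inclusion_injective hE'E)
    have h1 := rank_eq hi hfinE hdE
    have h2 := rank_eq hi hfinE' hd
    rw [h1, h2] at hrk
    have h3 : Module.finrank ℤ (Additive (E.map (QuotientGroup.mk' (Dg d)))) + (e + p * e) =
        p * Module.finrank ℤ (Additive (E'.map (QuotientGroup.mk' (Dg d)))) + (e + p * e) := by
      linarith
    exact Nat.add_right_cancel h3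

end Pool.Agent.PT
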