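import Pool.Agent.PT.Stmts4

/-!
# HN: the Hasse norm theorem for pure cubic fields, rational version
-/

namespace Pool.Agent.PT

open Pool.Agent.Lib_helper18 Pool.Agent.Lib_helper18.Eis Pool.Agent.Lib_helper84.Cub

namespace HN

theorem cast_ne {a : ℤ} (ha : a ≠ 0) : (a : Eis) ≠ 0 := by
  intro h
  have h1 := congrArg Eis.re h
  rw [intCast_re, zero_re] at h1
  exact ha h1

/-- If `π` lies over `p` and divides the rational integer `a` then `p` divides `a`. -/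
theorem dvd_int {π : PP} {p : ℕ} (hp : p.Prime)
    (h : (p % 3 = 2 ∧ π.1 = (p : Eis)) ∨
      (p % 3 = 1 ∧ π.1.norm = p ∧ (p : Eis) = π.1 * conj π.1 ∧ ¬ Associated π.1 (conj π.1)))
    {a : ℤ} (ha : π.1 ∣ (a : Eis)) : (p : ℤ) ∣ a := by
  have hpz : Prime (p : ℤ) := Nat.prime_iff_prime_int.1 hp
  have h1 : (p : ℤ) ∣ π.1.norm := by
    rcases h with ⟨_, h⟩ | ⟨_, h, _⟩
    · rw [h, norm_natCast, sq]
      exact dvd_mul_right _ _
    · rw [h]
  obtain ⟨c, hc⟩ := ha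
  have h2 : π.1.norm ∣ a ^ 2 := by
    rw [← norm_intCast, hc, norm_mul]
    exact dvd_mul_right _ _
  exact hpz.dvd_of_dvd_pow (h1.trans h2)

theorem dvd_nat {π : PP} {p : ℕ}
    (h : (p % 3 = 2 ∧ π.1 = (p : Eis)) ∨
      (p % 3 = 1 ∧ π.1.norm = p ∧ (p : Eis) = π.1 * conj π.1 ∧ ¬ Associated π.1 (conj π.1))) :
    π.1 ∣ (p : Eis) := by
  rcases h with ⟨_, h⟩ | ⟨_, _, h, _⟩
  · rw [h]
  · rw [h]
    exact dvd_mul_right _ _

/-- The multiplicity of `π` in `p ^ k t`. -/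
theorem V_eq {π : PP} {p : ℕ} (hp : p.Prime)
    (h : (p % 3 = 2 ∧ π.1 = (p : Eis)) ∨
      (p % 3 = 1 ∧ π.1.norm = p ∧ (p : Eis) = π.1 * conj π.1 ∧ ¬ Associated π.1 (conj π.1)))
    (k : ℕ) {t : ℤ} (ht : ¬ (p : ℤ) ∣ t) : V π.1 (((p : ℤ) ^ k * t : ℤ) : Eis) = k := by
  have h1 : ¬ π.1 ∣ (t : Eis) := fun h2 => ht (dvd_int hp h h2)
  have hc : (((p : ℤ) ^ k * t : ℤ) : Eis) = (p : Eis) ^ k * (t : Eis) := by
    push_cast
    rfl
  rw [hc]
  have h' := h
  rcases h' with ⟨_, h2⟩ | ⟨_, _, h2, h3⟩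
  · rw [← h2]
    exact V_pow_mul π.2.1 k h1
  · rw [h2, mul_pow, mul_assoc]
    refine V_pow_mul π.2.1 k fun h4 => ?_
    rcases π.2.1.dvd_or_dvd h4 with h5 | h5
    · have h6 := π.2.1.dvd_of_dvd_pow h5
      exact h3 (π.2.1.associated_of_dvd (prime_conj π.2.1) h6)
    · exact h1 h5

/-- Splitting off the cube of the part of `y` prime to `x` with all exponents divisible by `3`. -/
theorem split (x y : ℤ) (hy : y ≠ 0) : ∃ (y1 : ℤ) (m : ℕ), m ≠ 0 ∧ y1 ≠ 0 ∧ y = y1 * (m : ℤ) ^ 3 ∧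
    ∀ p : ℕ, p.Prime → (p : ℤ) ∣ y1 → ¬ (p : ℤ) ∣ x →
      ∃ (k : ℕ) (t : ℤ), ¬ 3 ∣ k ∧ ¬ (p : ℤ) ∣ t ∧ y1 = (p : ℤ) ^ k * t := by
  classical
  set N := y.natAbs with hN
  have hN0 : N ≠ 0 := Int.natAbs_ne_zero.2 hy
  set Q : ℕ → Prop := fun l => (l : ℤ) ∣ x ∨ ¬ 3 ∣ N.factorization l with hQ
  set a : ℕ := ∏ l ∈ N.primeFactors.filter Q, l ^ N.factorization l with ha
  set m : ℕ := ∏ l ∈ N.primeFactors.filter (fun l => ¬ Q l), l ^ (N.factorization l / 3) with hm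
  have hprod : N = a * m ^ 3 := by
    have h1 : N = ∏ l ∈ N.primeFactors, l ^ N.factorization l := by
      conv_lhs => rw [← Nat.prod_factorization_pow_eq_self hN0]
      rfl
    have h2 : m ^ 3 = ∏ l ∈ N.primeFactors.filter (fun l => ¬ Q l), l ^ N.factorization l := by
      rw [hm, ← Finset.prod_pow]
      refine Finset.prod_congr rfl fun l hl => ?_
      have h3 := (Finset.mem_filter.1 hl).2
      simp only [hQ, not_or, not_not] at h3
      rw [← pow_mul, Nat.div_mul_cancel h3.2]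
    rw [h2, ha, Finset.prod_filter_mul_prod_filter_not]
    exact h1
  have hm0 : m ≠ 0 := by
    intro h
    rw [h] at hprod
    exact hN0 (by rw [hprod]; ring)
  have ha0 : a ≠ 0 := by
    intro h
    rw [h] at hprod
    exact hN0 (by rw [hprod]; ring)
  have hs : y.sign ≠ 0 := by rwa [ne_eq, Int.sign_eq_zero_iff_zero]
  refine ⟨y.sign * a, m, hm0, mul_ne_zero hs (by exact_mod_cast ha0), ?_, ?_⟩
  · have h1 : y = y.sign * (N : ℤ) := by rw [hN, Int.natCast_natAbs, Int.sign_mul_abs]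
    conv_lhs => rw [h1, hprod]
    push_cast
    ring
  · intro p hp hpy hpx
    have hpz : Prime (p : ℤ) := Nat.prime_iff_prime_int.1 hp
    have hns : ¬ (p : ℤ) ∣ y.sign := by
      intro h
      have h1 : y.sign = 1 ∨ y.sign = -1 := by
        rcases lt_or_gt_of_ne hy with h2 | h2
        · right
          exact Int.sign_eq_neg_one_of_neg h2
        · left
          exact Int.sign_eq_one_of_pos h2
      rcases h1 with h1 | h1 <;> rw [h1] at h
      · exact hpz.not_dvd_one h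
      · exact hpz.not_dvd_one ((dvd_neg).1 h)
    have hpa : p ∣ a := by
      rcases hpz.dvd_or_dvd hpy with h | h
      · exact absurd h hns
      · exact_mod_cast h
    have hmem : p ∈ N.primeFactors.filter Q := by
      rw [ha] at hpa
      obtain ⟨l, hl, hpl⟩ := (Prime.dvd_finset_prod_iff hp.prime _).1 hpa
      have hl' := Nat.prime_of_mem_primeFactors (Finset.mem_filter.1 hl).1
      have h1 := hp.dvd_of_dvd_pow hpl
      rw [(Nat.prime_dvd_prime_iff_eq hp hl').1 h1]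
      exact hl
    obtain ⟨hpN, hpQ⟩ := Finset.mem_filter.1 hmem
    have hk : ¬ 3 ∣ N.factorization p := hpQ.resolve_left hpx
    refine ⟨N.factorization p,
      y.sign * ((∏ l ∈ (N.primeFactors.filter Q).erase p, l ^ N.factorization l : ℕ) : ℤ),
      hk, ?_, ?_⟩
    · intro h
      rcases hpz.dvd_or_dvd h with h | h
      · exact hns h
      · have h1 : p ∣ ∏ l ∈ (N.primeFactors.filter Q).erase p, l ^ N.factorization l := by
          exact_mod_cast h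
        obtain ⟨l, hl, hpl⟩ := (Prime.dvd_finset_prod_iff hp.prime _).1 h1
        obtain ⟨hne, hl2⟩ := Finset.mem_erase.1 hl
        have hl' := Nat.prime_of_mem_primeFactors (Finset.mem_filter.1 hl2).1
        have h1 := hp.dvd_of_dvd_pow hpl
        exact hne ((Nat.prime_dvd_prime_iff_eq hp hl').1 h1).symm
    · have h1 : a = p ^ N.factorization p *
          ∏ l ∈ (N.primeFactors.filter Q).erase p, l ^ N.factorization l := by
        rw [ha]
        exact (Finset.mul_prod_erase _ _ hmem).symm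
      rw [h1]
      push_cast
      ring

end HN

theorem HN_thm (hNFLD : NFLD) (hNMAIN : NMAIN) (hNDESC : NDESC) (hSTM : STM) (hSPP : SPP)
    (hLCI : LCI) : HN := by
  intro x y hx h3x hcube hV hy h3y htm
  obtain ⟨-, -, -, hSPP4, -, hSPP6⟩ := hSPP
  obtain ⟨y1, m, hm, hy1, hyy, hprop⟩ := HN.split x y hy
  obtain ⟨L, iF, iN, ι, θ, σ, c, hC⟩ := hNFLD x hx hcube
  have hxE : (x : Eis) ≠ 0 := HN.cast_ne hx
  have hyE : (y : Eis) ≠ 0 := HN.cast_ne hy
  have hy1E : (y1 : Eis) ≠ 0 := HN.cast_ne hy1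
  have hmE : ((m : ℤ) : Eis) ≠ 0 := HN.cast_ne (by exact_mod_cast hm)
  have h3y1 : ¬ (3 : ℤ) ∣ y1 := fun h => h3y (by rw [hyy]; exact h.mul_right _)
  have htm1 : ∀ π : PP, tm π.1 (x : Eis) (y1 : Eis) = 0 := by
    intro π
    have hS := hSTM π.1 π.2.1 (hSPP4 π).1
    have h1 := htm π
    have h2 : (y : Eis) = (y1 : Eis) * ((m : ℤ) : Eis) * ((m : ℤ) : Eis) * ((m : ℤ) : Eis) := by
      rw [hyy]
      push_cast
      ring
    have h3 : tm π.1 (y : Eis) (x : Eis) = tm π.1 (y1 : Eis) (x : Eis) +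
        3 * tm π.1 ((m : ℤ) : Eis) (x : Eis) := by
      rw [h2, hS.mul _ _ _ (mul_ne_zero (mul_ne_zero hy1E hmE) hmE) hmE hxE,
        hS.mul _ _ _ (mul_ne_zero hy1E hmE) hmE hxE, hS.mul _ _ _ hy1E hmE hxE]
      ring
    have h4 : (3 : ZMod 3) = 0 := rfl
    rw [h4, zero_mul, add_zero, hS.skew _ _ hxE hyE, h1, hS.skew _ _ hxE hy1E] at h3
    rw [neg_zero] at h3
    exact neg_eq_zero.1 h3.symm
  have hLC : ∀ π : PP, π.1 ∣ (y1 : Eis) → ¬ LC π.1 x → π.1 ∣ (x : Eis) := by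
    intro π hπ hnot
    by_contra hπx
    obtain ⟨p, hp, hcl⟩ := hSPP6 π
    have h1 := HN.dvd_int hp hcl hπ
    have h2 : ¬ (p : ℤ) ∣ x := by
      intro h
      obtain ⟨d, hd⟩ := h
      apply hπx
      rw [hd, Int.cast_mul, Int.cast_natCast]
      exact (HN.dvd_nat hcl).mul_right _
    obtain ⟨k, t, hk, ht, hyt⟩ := hprop p hp h1 h2
    have h3 : V π.1 (y1 : Eis) = k := by
      rw [hyt]
      exact HN.V_eq hp hcl k ht
    have h4 : V π.1 (x : Eis) = 0 := V_eq_zero hπx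
    have h5 := htm1 π
    rw [tm, h3, h4, Nat.cast_zero, zero_mul, sub_zero] at h5
    have h6 : (k : ZMod 3) ≠ 0 := by
      rw [ne_eq, ZMod.natCast_eq_zero_iff]
      exact hk
    have h7 : ch π.1 (x : Eis) = 0 := by
      have : Fact (Nat.Prime 3) := ⟨Nat.prime_three⟩
      exact (mul_eq_zero.1 h5).resolve_left h6
    exact hnot ((hLCI.1 π x hx).2 ⟨by rw [h4]; exact dvd_zero _, h7⟩)
  obtain ⟨z, hz, hzN⟩ := hNMAIN x L ι θ σ c hx h3x hV hcube hC y1 hy1 h3y1 htm1 hLC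
  obtain ⟨p, q, p', q', hsol⟩ := hNDESC x L ι θ σ c hx hC y1 z hy1 hz hzN
  have hmz : (m : ℤ) ≠ 0 := by exact_mod_cast hm
  refine ⟨m * p, m * q, p', q', ⟨?_, ?_⟩⟩
  · have h1 := hsol.eq
    rw [hyy]
    linear_combination (m : ℤ) ^ 3 * h1
  · have h1 := hsol.n1
    have h2 : ((m : ℤ) * p) ^ 3 + x * ((m : ℤ) * q) ^ 3 = (m : ℤ) ^ 3 * (p ^ 3 + x * q ^ 3) := by
      ring
    rw [h2]
    exact mul_ne_zero (pow_ne_zero 3 hmz) h1

end Pool.Agent.PT
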