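import Pool.Agent.PT.Stmts1

/-!
# IF4: the local term of a point when `x` is a local cube
-/

namespace Pool.Agent.PT

open Pool.Agent.Lib_helper18 Pool.Agent.Lib_helper18.Eis Pool.Agent.Lib_helper84.Cub

namespace IF4

theorem cast_ne {n : ℤ} (h : n ≠ 0) : (n : Eis) ≠ 0 := by
  intro h1
  apply h
  have := congrArg Eis.re h1
  simpa using this

theorem prod3 (a t : Eis) : (a + t) * (a + w * t) * (a + w ^ 2 * t) = a ^ 3 + t ^ 3 := by
  have h1 := w_rel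
  have h2 := w_cube
  linear_combination (a + t) * a * t * h1 + (a + t) * t ^ 2 * h2

theorem lin_ne (a t : Eis) (h : a ^ 3 + t ^ 3 ≠ 0) (i : ℕ) : a + w ^ i * t ≠ 0 := by
  intro h0
  apply h
  have h1 : a = -(w ^ i * t) := by linear_combination h0
  have h2 : (w ^ i) ^ 3 = 1 := by
    rw [← pow_mul, mul_comm, pow_mul, w_cube, one_pow]
  rw [h1]
  linear_combination (-t ^ 3) * h2

theorem D_ne {X Y u v : ℤ} (hX : X ≠ 0) (hY : Y ≠ 0) (huv : ¬ (u = 0 ∧ v = 0)) :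
    Df X Y u v 1 ≠ 0 ∧ Df X Y u v 2 ≠ 0 := by
  constructor
  · intro h
    have h1 := congrArg Eis.re h
    have h2 := congrArg Eis.im h
    simp [Df] at h1 h2
    apply huv
    refine ⟨h1.resolve_left hX, h2.resolve_right hY⟩
  · intro h
    have h1 := congrArg Eis.re h
    have h2 := congrArg Eis.im h
    rw [Df, w_sq] at h1 h2
    simp at h1 h2
    have h3 : v = 0 := h2.resolve_right hY
    rw [h3] at h1
    simp at h1
    exact huv ⟨h1.resolve_left hX, h3⟩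

variable {π : Eis} {s : Eis → Eis → ZMod 3} {e : ℕ}

theorem s_one (h : LSym π s e) {c : Eis} (hc : c ≠ 0) : s 1 c = 0 := by
  have := h.mul 1 1 c one_ne_zero one_ne_zero hc
  rw [mul_one] at this
  simpa using this

theorem s_neg (h : LSym π s e) {a c : Eis} (ha : a ≠ 0) (hc : c ≠ 0) : s (-a) c = s a c := by
  have hm : (-1 : Eis) ≠ 0 := neg_ne_zero.2 one_ne_zero
  have h1 := h.mul (-1) (-1) c hm hm hc
  rw [neg_mul_neg, one_mul, s_one h hc] at h1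
  have h2 : s (-1) c = 0 := by
    generalize s (-1) c = z at h1
    revert z
    decide
  have h3 := h.mul (-1) a c hm ha hc
  rwa [neg_one_mul, h2, zero_add] at h3

theorem mul_right (h : LSym π s e) {a b c : Eis} (ha : a ≠ 0) (hb : b ≠ 0) (hc : c ≠ 0) :
    s a (b * c) = s a b + s a c := by
  rw [h.skew (b * c) a (mul_ne_zero hb hc) ha, h.mul b c a hb hc ha, h.skew b a hb ha,
    h.skew c a hc ha]
  ring

theorem approx (h : LSym π s e) {a a' : Eis} (ha : a ≠ 0) {N : ℕ} (hN : V π a + e + 1 ≤ N)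
    (hd : π ^ N ∣ a' - a) : a' ≠ 0 ∧ ∀ c, c ≠ 0 → s a' c = s a c ∧ s c a' = s c a := by
  have h0 : a' ≠ 0 := by
    rintro rfl
    rw [zero_sub, dvd_neg] at hd
    have h1 : N ≤ V π a := (fin h.prime ha).le_multiplicity_of_pow_dvd hd
    omega
  refine ⟨h0, fun c hc => ?_⟩
  have h1 : s a' c = s a c := h.cont a a' c ha hc ((pow_dvd_pow π (by omega)).trans hd)
  refine ⟨h1, ?_⟩
  rw [h.skew a' c h0 hc, h1, h.skew a c ha hc]

end IF4

open IF4 in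
theorem IF4_thm (hSTAR : STAR) : IF4 := by
  intro π s e hs b x p q p' q' X Y hb hx hsol hX hY hn0
  have hN12 : p ^ 3 - x * p' ^ 3 = b * (x * q' ^ 3 - q ^ 3) := by linear_combination hsol.eq
  have hN1 : p ^ 3 - x * p' ^ 3 ≠ 0 := hsol.n2
  have hN2 : x * q' ^ 3 - q ^ 3 ≠ 0 := by
    intro h
    rw [h, mul_zero] at hN12
    exact hN1 hN12
  have hp : ¬ (p' = 0 ∧ p = 0) := by
    rintro ⟨rfl, rfl⟩
    exact hN1 (by ring)
  have hq : ¬ (q' = 0 ∧ q = 0) := by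
    rintro ⟨rfl, rfl⟩
    exact hN2 (by ring)
  have cn0 := cast_ne hn0
  have cN1 := cast_ne hN1
  have cN2 := cast_ne hN2
  have cx := cast_ne hx
  have cb := cast_ne hb
  refine ⟨V π ((X ^ 3 + x * Y ^ 3 : ℤ) : Eis) + V π ((p ^ 3 - x * p' ^ 3 : ℤ) : Eis) +
    V π ((x * q' ^ 3 - q ^ 3 : ℤ) : Eis) + V π (x : Eis) + e + 1, ?_⟩
  intro ξ hξ
  set N : ℕ := V π ((X ^ 3 + x * Y ^ 3 : ℤ) : Eis) + V π ((p ^ 3 - x * p' ^ 3 : ℤ) : Eis) +
    V π ((x * q' ^ 3 - q ^ 3 : ℤ) : Eis) + V π (x : Eis) + e + 1 with hN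
  have hξ0 : (ξ : Eis) ≠ 0 := by
    intro h
    have := (approx hs cx (N := N) (by omega) hξ).1
    apply this
    rw [h]
    ring
  -- the products
  have eF : Lf X Y 0 ξ * Lf X Y 1 ξ * Lf X Y 2 ξ = (X : Eis) ^ 3 + ((ξ : Eis) * Y) ^ 3 := by
    rw [← prod3]
    simp only [Lf]
    ring
  have eG : Lf p (-p') 0 ξ * Lf p (-p') 1 ξ * Lf p (-p') 2 ξ
      = (p : Eis) ^ 3 + ((ξ : Eis) * (-p' : ℤ)) ^ 3 := by
    rw [← prod3]
    simp only [Lf]
    ring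
  have eG' : Lf (-q) q' 0 ξ * Lf (-q) q' 1 ξ * Lf (-q) q' 2 ξ
      = ((-q : ℤ) : Eis) ^ 3 + ((ξ : Eis) * q') ^ 3 := by
    rw [← prod3]
    simp only [Lf]
    ring
  obtain ⟨hF0, hF⟩ := approx hs cn0 (a' := (X : Eis) ^ 3 + ((ξ : Eis) * Y) ^ 3) (N := N)
    (by omega) (by
      have e1 : (X : Eis) ^ 3 + ((ξ : Eis) * Y) ^ 3 - ((X ^ 3 + x * Y ^ 3 : ℤ) : Eis)
          = ((ξ : Eis) ^ 3 - x) * Y ^ 3 := by push_cast; ring
      rw [e1]
      exact Dvd.dvd.mul_right hξ _)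
  obtain ⟨hG0, hG⟩ := approx hs cN1 (a' := (p : Eis) ^ 3 + ((ξ : Eis) * (-p' : ℤ)) ^ 3) (N := N)
    (by omega) (by
      have e1 : (p : Eis) ^ 3 + ((ξ : Eis) * (-p' : ℤ)) ^ 3 - ((p ^ 3 - x * p' ^ 3 : ℤ) : Eis)
          = ((ξ : Eis) ^ 3 - x) * (-(p' : Eis) ^ 3) := by push_cast; ring
      rw [e1]
      exact Dvd.dvd.mul_right hξ _)
  obtain ⟨hG0', hG'⟩ := approx hs cN2 (a' := ((-q : ℤ) : Eis) ^ 3 + ((ξ : Eis) * q') ^ 3) (N := N)
    (by omega) (by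
      have e1 : ((-q : ℤ) : Eis) ^ 3 + ((ξ : Eis) * q') ^ 3 - ((x * q' ^ 3 - q ^ 3 : ℤ) : Eis)
          = ((ξ : Eis) ^ 3 - x) * ((q' : Eis) ^ 3) := by push_cast; ring
      rw [e1]
      exact Dvd.dvd.mul_right hξ _)
  have nF : ∀ i, Lf X Y i ξ ≠ 0 := by
    intro i
    have := lin_ne _ _ hF0 i
    intro h
    apply this
    rw [← h]
    simp only [Lf]
    ring
  have nG : ∀ i, Lf p (-p') i ξ ≠ 0 := by
    intro i
    have := lin_ne _ _ hG0 i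
    intro h
    apply this
    rw [← h]
    simp only [Lf]
    ring
  have nG' : ∀ i, Lf (-q) q' i ξ ≠ 0 := by
    intro i
    have := lin_ne _ _ hG0' i
    intro h
    apply this
    rw [← h]
    simp only [Lf]
    ring
  obtain ⟨nD1, nD2⟩ := D_ne hX hY hp
  obtain ⟨nD1', nD2'⟩ := D_ne hX hY hq
  have S1 := (hSTAR π s e hs X Y p (-p' : ℤ) ξ (fun i => Lf X Y i ξ) (fun i => Lf p (-p') i ξ)
    (fun i => -Df X Y p' p i) (fun i => by simp only [Lf]; ring) (fun i => by simp only [Lf]; ring)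
    (fun i => by simp only [Df]; push_cast; ring) hξ0 nF).2 nG (neg_ne_zero.2 nD1)
    (neg_ne_zero.2 nD2)
  have S2 := (hSTAR π s e hs X Y (-q : ℤ) q' ξ (fun i => Lf X Y i ξ) (fun i => Lf (-q) q' i ξ)
    (fun i => Df X Y q' q i) (fun i => by simp only [Lf]; ring) (fun i => by simp only [Lf]; ring)
    (fun i => by simp only [Df]; push_cast; ring) hξ0 nF).2 nG' nD1' nD2'
  simp only [eF, eG, eG'] at S1 S2
  have hw : w ≠ 0 := by
    intro h
    have := congrArg Eis.im h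
    simp at this
  rw [s_neg hs nD1 hG0, s_neg hs nD2 hG0, s_neg hs nD1 hF0, s_neg hs nD2 hF0,
    (hG _ nD1).2, (hG _ nD2).2, (hF _ nD1).2, (hF _ nD2).2, (hF _ hw).2, (hF _ (nG 2)).1,
    (hF _ (nG 1)).1, (hG _ (nF 1)).2, (hG _ (nF 2)).2] at S1
  rw [(hG' _ nD1').2, (hG' _ nD2').2, (hF _ nD1').2, (hF _ nD2').2, (hF _ hw).2,
    (hF _ (nG' 2)).1, (hF _ (nG' 1)).1, (hG' _ (nF 1)).2, (hG' _ (nF 2)).2] at S2
  have hb1 : ∀ i, s (Lf X Y i ξ) ((p ^ 3 - x * p' ^ 3 : ℤ) : Eis)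
      = s (Lf X Y i ξ) (b : Eis) + s (Lf X Y i ξ) ((x * q' ^ 3 - q ^ 3 : ℤ) : Eis) := by
    intro i
    rw [← mul_right hs (nF i) cb cN2, hN12]
    congr 1
    push_cast
    rfl
  rw [hb1 1, hb1 2] at S1
  unfold SV AS
  linear_combination S1 - S2

end Pool.Agent.PT
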