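import Pool.Agent.PT.Stmts4

/-!
# The symbol of `F_1 / F_2` and `n_0`
-/

namespace Pool.Agent.PT

open Pool.Agent.Lib_helper18 Pool.Agent.Lib_helper18.Eis Pool.Agent.Lib_helper84.Cub

namespace IF4B

theorem not_dvd {π a : Eis} (hπ : Prime π) (ha : a ≠ 0) {N : ℕ} (hN : V π a < N) :
    ¬ π ^ N ∣ a := by
  intro h
  have h1 := (fin hπ ha).le_multiplicity_of_pow_dvd h
  exact absurd h1 (by
    change ¬ N ≤ V π a
    omega)

theorem w_pow (i : ℕ) : w ^ i = w ^ (i % 3) := by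
  conv_lhs => rw [← Nat.div_add_mod i 3, pow_add, pow_mul, w_cube, one_pow, one_mul]

theorem prod_eq (X ξ Y : Eis) : (X + w ^ 0 * ξ * Y) * (X + w ^ 1 * ξ * Y) * (X + w ^ 2 * ξ * Y) =
    X ^ 3 + ξ ^ 3 * Y ^ 3 := by
  have h1 := w_rel
  have h2 := w_cube
  linear_combination (X ^ 2 * ξ * Y + X * ξ ^ 2 * Y ^ 2) * h1 +
    (X * ξ ^ 2 * Y ^ 2 + ξ ^ 3 * Y ^ 3) * h2

end IF4B

open IF4B

theorem IF4B_thm (hSTAR : STAR) : IF4B := by
  intro π s e hs x X Y hx _ _ hn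
  have hn' : ((X ^ 3 + x * Y ^ 3 : ℤ) : Eis) ≠ 0 := by
    intro h
    have h1 := congrArg Eis.re h
    rw [intCast_re] at h1
    exact hn h1
  have hx' : (x : Eis) ≠ 0 := by
    intro h
    have h1 := congrArg Eis.re h
    rw [intCast_re] at h1
    exact hx h1
  have hw : w ≠ 0 := by
    intro h
    have h1 := congrArg Eis.im h
    simp at h1
  set n0 : Eis := ((X ^ 3 + x * Y ^ 3 : ℤ) : Eis) with hn0
  refine ⟨V π n0 + V π (x : Eis) + e + 1, fun ξ hξ => ?_⟩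
  have hξ0 : (ξ : Eis) ≠ 0 := by
    intro h
    rw [h] at hξ
    refine not_dvd hs.prime hx' (N := V π n0 + V π (x : Eis) + e + 1) (by omega) ?_
    have h1 : (0 : Eis) ^ 3 - (x : Eis) = -(x : Eis) := by ring
    rw [h1, dvd_neg] at hξ
    exact hξ
  have hprod := prod_eq (X : Eis) (ξ : Eis) (Y : Eis)
  have hdvd : π ^ (V π n0 + V π (x : Eis) + e + 1) ∣
      (X : Eis) ^ 3 + (ξ : Eis) ^ 3 * (Y : Eis) ^ 3 - n0 := by
    have h1 : (X : Eis) ^ 3 + (ξ : Eis) ^ 3 * (Y : Eis) ^ 3 - n0 =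
        ((ξ : Eis) ^ 3 - (x : Eis)) * (Y : Eis) ^ 3 := by
      rw [hn0]
      push_cast
      ring
    rw [h1]
    exact Dvd.dvd.mul_right hξ _
  have hne : (X : Eis) ^ 3 + (ξ : Eis) ^ 3 * (Y : Eis) ^ 3 ≠ 0 := by
    intro h
    rw [h, zero_sub, dvd_neg] at hdvd
    exact not_dvd hs.prime hn' (by omega) hdvd
  set F : ℕ → Eis := fun i => (X : Eis) + w ^ i * (ξ : Eis) * (Y : Eis) with hF
  have hF3 : F 0 * F 1 * F 2 = (X : Eis) ^ 3 + (ξ : Eis) ^ 3 * (Y : Eis) ^ 3 := hprod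
  have hF0 : F 0 ≠ 0 := by
    intro h
    rw [h, zero_mul, zero_mul] at hF3
    exact hne hF3.symm
  have hF1 : F 1 ≠ 0 := by
    intro h
    rw [h, mul_zero, zero_mul] at hF3
    exact hne hF3.symm
  have hF2 : F 2 ≠ 0 := by
    intro h
    rw [h, mul_zero] at hF3
    exact hne hF3.symm
  have hFi : ∀ i, F i ≠ 0 := by
    intro i
    have h1 : F i = F (i % 3) := by
      simp only [hF]
      rw [w_pow i]
    rw [h1]
    have h2 : i % 3 < 3 := Nat.mod_lt _ (by norm_num)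
    interval_cases i % 3
    · exact hF0
    · exact hF1
    · exact hF2
  have h1 := (hSTAR π s e hs (X : Eis) (Y : Eis) 0 0 (ξ : Eis) F (fun _ => 0) (fun _ => 0)
    (fun _ => rfl) (fun i => by simp) (fun i => by simp) hξ0 hFi).1
  have hcont : ∀ b : Eis, b ≠ 0 → s b (F 0 * F 1 * F 2) = s b n0 := by
    intro b hb
    rw [hs.skew _ b (hF3 ▸ hne) hb, hs.skew n0 b hn' hb, hF3]
    congr 1
    refine hs.cont n0 _ b hn' hb ((pow_dvd_pow π ?_).trans hdvd)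
    omega
  rw [hcont _ hF1, hcont _ hF2, hcont _ hw] at h1
  have h2 : ∀ i, Lf X Y i ξ = F i := by
    intro i
    simp only [Lf, hF]
    ring
  rw [h2, h2]
  exact h1

end Pool.Agent.PT
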