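import Pool.Agent.PT.Stmts3

/-!
# KUM: Kummer theory
-/

namespace Pool.Agent.PT

open Pool.Agent.Lib_helper18 Pool.Agent.Lib_helper18.Eis Pool.Agent.Lib_helper84.Cub

namespace KUM

variable {F L : Type} [Field F] [Field L] [Algebra F L]

lemma pow_mod {ω : F} (hω : ω ^ 2 + ω + 1 = 0) (n : ℕ) :
    (algebraMap F L ω) ^ (n % 3) = (algebraMap F L ω) ^ n := by
  have h3 : ω ^ 3 = 1 := by linear_combination (ω - 1) * hω
  conv_rhs => rw [← Nat.div_add_mod n 3]
  rw [pow_add, pow_mul, ← map_pow _ ω 3, h3, map_one, one_pow, one_mul]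

lemma cube_root {ω : F} (hω : ω ^ 2 + ω + 1 = 0) {x y : L} (h : x ^ 3 = y ^ 3) :
    ∃ v : ZMod 3, x = (algebraMap F L ω) ^ v.val * y := by
  have hω' : (algebraMap F L ω) ^ 2 + algebraMap F L ω + 1 = 0 := by
    rw [← map_pow, ← map_add, ← map_one (algebraMap F L), ← map_add, hω, map_zero]
  set z := algebraMap F L ω
  have e : (x - y) * ((x - z * y) * (x - z ^ 2 * y)) = 0 := by
    linear_combination h + (-y * x ^ 2 + y ^ 2 * z * x - z * y ^ 3 + y ^ 3) * hω'
  rcases mul_eq_zero.1 e with h1 | h1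
  · exact ⟨0, by rw [ZMod.val_zero, pow_zero, one_mul]; exact sub_eq_zero.1 h1⟩
  · rcases mul_eq_zero.1 h1 with h2 | h2
    · exact ⟨1, by rw [show (1 : ZMod 3).val = 1 from rfl, pow_one]; exact sub_eq_zero.1 h2⟩
    · exact ⟨2, by rw [show (2 : ZMod 3).val = 2 from rfl]; exact sub_eq_zero.1 h2⟩

/-- the realised vectors -/
def W (ω : F) (hω : ω ^ 2 + ω + 1 = 0) {κ : Type} (A : κ → L) :
    Submodule (ZMod 3) (κ → ZMod 3) where
  carrier := {v | ∃ g : L ≃ₐ[F] L, ∀ i, g (A i) = algebraMap F L ω ^ (v i).val * A i}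
  zero_mem' := ⟨AlgEquiv.refl, fun i => by
    rw [Pi.zero_apply, ZMod.val_zero, pow_zero, one_mul]; rfl⟩
  add_mem' := by
    rintro v v' ⟨g, hg⟩ ⟨g', hg'⟩
    refine ⟨g'.trans g, fun i => ?_⟩
    rw [AlgEquiv.trans_apply, hg', map_mul, map_pow, AlgEquiv.commutes, hg, Pi.add_apply,
      ZMod.val_add, pow_mod hω, pow_add]
    ring
  smul_mem' := by
    rintro c v ⟨g, hg⟩
    have key : ∀ n : ℕ, ∀ i, (g ^ n) (A i) = algebraMap F L ω ^ (n * (v i).val) * A i := by
      intro n
      induction n with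
      | zero => intro i; simp
      | succ n ih =>
        intro i
        rw [pow_succ', AlgEquiv.mul_apply, ih i, map_mul, map_pow, AlgEquiv.commutes, hg]
        ring
    refine ⟨g ^ c.val, fun i => ?_⟩
    rw [key, Pi.smul_apply, smul_eq_mul, ZMod.val_mul, pow_mod hω]

end KUM

open KUM in
theorem KUM_thm : KUM := by
  intro F L _ _ _ _ _ _ ω κ _ a A hω ha hA hind v
  classical
  have hA0 : ∀ i, A i ≠ 0 := by
    intro i h0
    have h1 := hA i
    rw [h0, zero_pow (by norm_num)] at h1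
    exact ha i ((map_eq_zero (algebraMap F L)).1 h1.symm)
  by_contra hv
  have hlt : W ω hω A < ⊤ := by
    rw [lt_top_iff_ne_top]
    intro htop
    apply hv
    have : v ∈ W ω hω A := by rw [htop]; exact Submodule.mem_top
    exact this
  obtain ⟨f, hf0, hf⟩ := Submodule.exists_le_ker_of_lt_top _ hlt
  let n : κ → ℕ := fun i => (f (Pi.single i 1)).val
  have hfix : ∀ g : L ≃ₐ[F] L, g (∏ i, A i ^ n i) = ∏ i, A i ^ n i := by
    intro g
    have h1 : ∀ i, ∃ u : ZMod 3, g (A i) = algebraMap F L ω ^ u.val * A i := by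
      intro i
      apply cube_root hω
      rw [← map_pow, hA, AlgEquiv.commutes]
    choose u hu using h1
    have hmem : u ∈ W ω hω A := ⟨g, hu⟩
    have h2 : f u = 0 := hf hmem
    rw [LinearMap.pi_apply_eq_sum_univ f u] at h2
    have h3 : 3 ∣ ∑ i, (u i).val * n i := by
      rw [← ZMod.natCast_eq_zero_iff]
      push_cast
      rw [← h2]
      apply Finset.sum_congr rfl
      intro i _
      rw [ZMod.natCast_zmod_val, smul_eq_mul]
      congr 1
      show (((f (Pi.single i 1)).val : ℕ) : ZMod 3) = _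
      rw [ZMod.natCast_zmod_val]
      congr 1
      funext j
      rw [Pi.single_apply]
      simp only [eq_comm]
    rw [map_prod]
    have h4 : ∀ i ∈ Finset.univ, g (A i ^ n i)
        = algebraMap F L ω ^ ((u i).val * n i) * A i ^ n i := by
      intro i _
      rw [map_pow, hu, mul_pow, ← pow_mul]
    rw [Finset.prod_congr rfl h4, Finset.prod_mul_distrib, Finset.prod_pow_eq_pow_sum]
    rw [← pow_mod hω, Nat.mod_eq_zero_of_dvd h3, pow_zero, one_mul]
  obtain ⟨b, hb⟩ := (IsGalois.mem_range_algebraMap_iff_fixed (F := F) (∏ i, A i ^ n i)).2 hfix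
  have hdvd := hind n ⟨b, by
    apply (algebraMap F L).injective
    rw [map_pow, hb, map_prod, ← Finset.prod_pow]
    apply Finset.prod_congr rfl
    intro i _
    rw [map_pow, ← hA, ← pow_mul, ← pow_mul, mul_comm]⟩
  apply hf0
  have hz : ∀ i, f (Pi.single i 1) = 0 := by
    intro i
    have h1 : (f (Pi.single i 1)).val < 3 := ZMod.val_lt _
    have h2 : 3 ∣ (f (Pi.single i 1)).val := hdvd i
    have h3 : (f (Pi.single i 1)).val = 0 := by omega
    exact (ZMod.val_eq_zero _).1 h3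
  ext i
  simp [hz i]

end Pool.Agent.PT
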