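import Pool.Agent.PT.Stmts4

/-!
# PT_LAM: the local form of the antisymmetry
-/

namespace Pool.Agent.PT

open Pool.Agent.Lib_helper18 Pool.Agent.Lib_helper18.Eis Pool.Agent.Lib_helper84.Cub

namespace LAM

theorem icast_ne {n : ℤ} (h : n ≠ 0) : (n : Eis) ≠ 0 := by
  intro h0
  apply h
  have := congrArg Eis.re h0
  simpa using this

theorem w_ne : (w : Eis) ≠ 0 := by
  intro h0
  have := congrArg Eis.im h0
  simp at this

/-- the swapped solution -/
theorem sol_swap {b x p q p' q' : ℤ} (h : Sol b x p q p' q') : Sol x b p (-p') (-q) q' := by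
  refine ⟨⟨?_, ?_⟩, ?_⟩
  · have := h.eq
    linear_combination this
  · have := h.n2
    intro h0
    apply this
    linear_combination h0
  · have := h.n1
    intro h0
    apply this
    linear_combination h0

theorem Gf_swap (p q p' q' : ℤ) (i : ℕ) : Gf p (-p') (-q) q' i = Gf p q p' q' i := by
  unfold Gf
  push_cast
  ring

/-- every `sy v` is a symbol -/
theorem lsym (hSTM : STM) (hSPP : SPP) (hSLC : SLC) (v : Pl) : ∃ e, LSym (uni v) (sy v) e := by
  rcases v with _ | π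
  · exact ⟨4, hSLC⟩
  · exact ⟨1, hSTM π.1 π.2.1 (hSPP.2.2.2.1 π).1⟩

theorem tm_swap (π a b : Eis) : tm π b a = - tm π a b := by
  unfold tm
  ring

/-- `(B, b) = 0` at all places -/
theorem sy_zero {B b : ℤ} (h : Adm B b) (v : Pl) : sy v (B : Eis) (b : Eis) = 0 := by
  have h1 : ∀ π : PP, tm π.1 (B : Eis) (b : Eis) = 0 := by
    intro π
    rw [tm_swap π.1 (b : Eis) (B : Eis), h.sym π, neg_zero]
  rcases v with _ | π
  · show sl (B : Eis) (b : Eis) = 0
    unfold sl
    rw [finsum_congr h1, finsum_zero, neg_zero]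
  · exact h1 π

/-- `(w, x) = 0` if `x` is a local cube -/
theorem w_lc (hLCI : LCI) {v : Pl} {e : ℕ} (hs : LSym (uni v) (sy v) e) {x : ℤ} (hx : x ≠ 0)
    (h : LC (uni v) x) : sy v w (x : Eis) = 0 := by
  have h1 : sy v (x : Eis) w = 0 := hLCI.2.2 (uni v) (sy v) e x w hs h hx w_ne
  rw [hs.skew (x : Eis) w (icast_ne hx) w_ne, h1, neg_zero]

/-- expansion of `(w, B x b)` -/
theorem w_mul {v : Pl} {e : ℕ} (hs : LSym (uni v) (sy v) e) {B x b : ℤ} (hB : B ≠ 0)
    (hx : x ≠ 0) (hb : b ≠ 0) : sy v w ((B * x * b : ℤ) : Eis) =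
      sy v w (B : Eis) + sy v w (x : Eis) + sy v w (b : Eis) := by
  have hB' := icast_ne hB
  have hx' := icast_ne hx
  have hb' := icast_ne hb
  have h1 : ((B * x * b : ℤ) : Eis) = (B : Eis) * (x : Eis) * (b : Eis) := by push_cast; ring
  rw [h1, hs.skew ((B : Eis) * (x : Eis) * (b : Eis)) w (mul_ne_zero (mul_ne_zero hB' hx') hb') w_ne,
    hs.mul _ _ _ (mul_ne_zero hB' hx') hb' w_ne, hs.mul _ _ _ hB' hx' w_ne,
    hs.skew (B : Eis) w hB' w_ne, hs.skew (x : Eis) w hx' w_ne, hs.skew (b : Eis) w hb' w_ne]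
  ring

theorem dvd_weak {π a : Eis} {M N : ℕ} (hMN : M ≤ N) (h : π ^ N ∣ a) : π ^ M ∣ a :=
  (pow_dvd_pow π hMN).trans h

/-- the case that `b` is a local cube and `x` is not -/
theorem half (hSTM : STM) (hSPP : SPP) (hSLC : SLC) (hLCI : LCI) (hAVV : AVV) (hF2B : F2B)
    (v : Pl) (B b x p q p' q' : ℤ) (hB : BOk B) (hb : Adm B b) (hx : Adm B x)
    (hs : Sol b x p q p' q') (h1 : LC (uni v) b) (h2 : ¬ LC (uni v) x) :
    TT v B b x p q p' q' = UV (sy v) B b x p q p' q' ∧
      TT v B x b p (-p') (-q) q' = 0 := by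
  obtain ⟨e, hL⟩ := lsym hSTM hSPP hSLC v
  have hwb : sy v w (b : Eis) = 0 := w_lc hLCI hL hb.ne h1
  obtain ⟨N0, hN⟩ := hF2B v B b x p q p' q' hB hb hx hs h1 h2
  have hA := (hAVV v B b x p q p' q' hB.ne hb.ne hx.ne hs.toSolW (sy_zero hx v) h1).2 _ N0 hN
  constructor
  · unfold TT
    rw [if_pos h1, hA]
    unfold UV
    rw [w_mul hL hB.ne hx.ne hb.ne, hwb]
    ring
  · unfold TT
    rw [if_neg h2]
    rcases v with _ | π
    · rfl
    · show (if 3 ∣ V π.1 (x : Eis) + V π.1 (B : Eis) ∧ ¬ 3 ∣ V π.1 (x : Eis)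
        then - tm π.1 w (b : Eis) else 0) = 0
      have hwb' : tm π.1 w (b : Eis) = 0 := hwb
      rw [hwb', neg_zero, ite_self]

theorem UV_swap {v : Pl} (B b x p q p' q' : ℤ) :
    UV (sy v) B x b p (-p') (-q) q' = UV (sy v) B b x p q p' q' := by
  unfold UV
  rw [Gf_swap, Gf_swap]
  have : B * b * x = B * x * b := by ring
  rw [this]

/-- an admissible noncube at a place dividing `B` has valuation prime to `3` -/
theorem val_nc (hLCI : LCI) {B b : ℤ} (hB : BOk B) (hb : Adm B b) (π : PP)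
    (hd : π.1 ∣ (B : Eis)) (h : ¬ LC π.1 b) : ¬ 3 ∣ V π.1 (b : Eis) := by
  intro h3
  apply h
  rw [hLCI.1 π b hb.ne]
  refine ⟨h3, ?_⟩
  have h1 : tm π.1 (b : Eis) (B : Eis) = 0 := hb.sym π
  have h2 : ((V π.1 (b : Eis) : ℕ) : ZMod 3) = 0 := by
    rw [ZMod.natCast_eq_zero_iff]
    exact h3
  unfold tm at h1
  rw [h2, zero_mul, sub_zero] at h1
  have h4 : V π.1 (B : Eis) ≤ 2 := hB.cf π
  have h5 : V π.1 (B : Eis) ≠ 0 := by
    intro h0
    exact (V_eq_zero_iff.1 h0) hd
  have h6 : ((V π.1 (B : Eis) : ℕ) : ZMod 3) ≠ 0 := by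
    intro h0
    rw [ZMod.natCast_eq_zero_iff] at h0
    omega
  have : Fact (Nat.Prime 3) := ⟨Nat.prime_three⟩
  rcases mul_eq_zero.1 h1 with h7 | h7
  · exact absurd h7 h6
  · exact h7

end LAM

set_option linter.unusedVariables false in
open LAM in
theorem LAM_thm (hSTM : STM) (hSPP : SPP) (hSSL : SSL) (hSLC : SLC) (hSREC : SREC) (hSCJ : SCJ)
    (hLCI : LCI) (hIF1 : IF1) (hAVV : AVV) (hF2B : F2B) (hF3R : F3R) (hF3U : F3U) : LAM := by
  intro v B b x p q p' q' hB hb hx hs h9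
  obtain ⟨e, hL⟩ := lsym hSTM hSPP hSLC v
  have hs' := sol_swap hs
  by_cases h1 : LC (uni v) b
  · by_cases h2 : LC (uni v) x
    · -- both are local cubes
      obtain ⟨N0, hN⟩ := hIF1 (uni v) (sy v) e hL b x p q p' q' hb.ne hx.ne hs
      obtain ⟨N1, hN1⟩ := (hAVV v B b x p q p' q' hB.ne hb.ne hx.ne hs.toSolW
        (sy_zero hx v) h1).1
      obtain ⟨N2, hN2⟩ := (hAVV v B x b p (-p') (-q) q' hB.ne hx.ne hb.ne hs'.toSolW
        (sy_zero hb v) h2).1
      obtain ⟨r, hr⟩ := h1 (max N0 N1)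
      obtain ⟨ξ, hξ⟩ := h2 (max N0 N2)
      have hwb : sy v w (b : Eis) = 0 := w_lc hLCI hL hb.ne h1
      have hwx : sy v w (x : Eis) = 0 := w_lc hLCI hL hx.ne h2
      have e1 := hN r ξ (dvd_weak (le_max_left _ _) hr) (dvd_weak (le_max_left _ _) hξ)
        (B : Eis) (icast_ne hB.ne)
      have e2 := hN1 r (dvd_weak (le_max_right _ _) hr)
      have e3 := hN2 ξ (dvd_weak (le_max_right _ _) hξ)
      unfold TT
      rw [if_pos h1, if_pos h2, hwb, hwx, ← e2, ← e3]
      unfold UV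
      rw [w_mul hL hB.ne hx.ne hb.ne, hwb, hwx]
      linear_combination e1
    · obtain ⟨h3, h4⟩ := half hSTM hSPP hSLC hLCI hAVV hF2B v B b x p q p' q' hB hb hx hs h1 h2
      rw [h3, h4, add_zero]
  · by_cases h2 : LC (uni v) x
    · obtain ⟨h3, h4⟩ := half hSTM hSPP hSLC hLCI hAVV hF2B v B x b p (-p') (-q) q' hB hx hb hs'
        h2 h1
      rw [h3, UV_swap]
      rw [neg_neg, neg_neg] at h4
      rw [h4, zero_add]
    · -- both are not local cubes
      rcases v with _ | π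
      · exfalso
        have hl : ∀ y : ℤ, Adm B y → (LC (uni none) y ↔ C9 y) := fun y hy =>
          hLCI.2.1 y hy.three
        rcases h9 with h9 | h9
        · exact h1 ((hl b hb).2 h9)
        · exact h2 ((hl x hx).2 h9)
      · have hT1 : TT (some π) B b x p q p' q' =
            if 3 ∣ V π.1 (b : Eis) + V π.1 (B : Eis) ∧ ¬ 3 ∣ V π.1 (b : Eis)
              then - tm π.1 w (x : Eis) else 0 := by
          unfold TT
          rw [if_neg h1]
        have hT2 : TT (some π) B x b p (-p') (-q) q' =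
            if 3 ∣ V π.1 (x : Eis) + V π.1 (B : Eis) ∧ ¬ 3 ∣ V π.1 (x : Eis)
              then - tm π.1 w (b : Eis) else 0 := by
          unfold TT
          rw [if_neg h2]
        have h1' : ¬ LC π.1 b := h1
        have h2' : ¬ LC π.1 x := h2
        rw [hT1, hT2]
        show _ = UV (tm π.1) B b x p q p' q'
        by_cases hd : π.1 ∣ (B : Eis)
        · have hvb := val_nc hLCI hB hb π hd h1'
          have hvx := val_nc hLCI hB hx π hd h2'
          rw [hF3R π B b x p q p' q' hB hb hx hs hd hvb hvx]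
          simp only [hvb, hvx, not_false_eq_true, and_true]
        · have hvb : V π.1 (b : Eis) = 0 := V_eq_zero (hb.unr π hd)
          have hvx : V π.1 (x : Eis) = 0 := V_eq_zero (hx.unr π hd)
          have hcb : ch π.1 (b : Eis) ≠ 0 := by
            intro h0
            apply h1'
            rw [hLCI.1 π b hb.ne]
            exact ⟨by rw [hvb]; exact dvd_zero 3, h0⟩
          have hcx : ch π.1 (x : Eis) ≠ 0 := by
            intro h0
            apply h2'
            rw [hLCI.1 π x hx.ne]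
            exact ⟨by rw [hvx]; exact dvd_zero 3, h0⟩
          rw [hF3U π B b x p q p' q' hB hb hx hs hd hcb hcx, hvb, hvx]
          simp

end Pool.Agent.PT
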