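import Pool.Agent.PT.Stmts4

/-!
# LCI: rational local cubes
-/

namespace Pool.Agent.PT

open Pool.Agent.Lib_helper18 Pool.Agent.Lib_helper18.Eis Pool.Agent.Lib_helper84.Cub

namespace LCI

/-! ### The unit part -/

theorem up_eq {π a c : Eis} {k : ℕ} (hπ : Prime π) (hc : ¬ π ∣ c) (ha : a = π ^ k * c) :
    V π a = k ∧ up π a = c := by
  have h1 : V π a = k := by rw [ha]; exact V_pow_mul hπ k hc
  refine ⟨h1, ?_⟩
  unfold up
  rw [h1, ha]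
  exact mul_div_cancel_left₀ c (pow_ne_zero _ hπ.ne_zero)

theorem up_spec {π a : Eis} (hπ : Prime π) (ha : a ≠ 0) :
    a = π ^ V π a * up π a ∧ ¬ π ∣ up π a := by
  obtain ⟨c, hc, hd⟩ := V_split hπ ha
  have h1 := (up_eq hπ hd hc).2
  rw [h1]
  exact ⟨hc, hd⟩

theorem ch_mul {π a b : Eis} (hπ : Prime π) (h3 : ¬ π ∣ 3) (ha : a ≠ 0) (hb : b ≠ 0) :
    ch π (a * b) = ch π a + ch π b := by
  obtain ⟨h1, h2⟩ := up_spec hπ ha
  obtain ⟨h3', h4⟩ := up_spec hπ hb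
  have h5 : a * b = π ^ (V π a + V π b) * (up π a * up π b) := by
    conv_lhs => rw [h1, h3']
    ring
  have h6 : ¬ π ∣ up π a * up π b := fun h => (hπ.dvd_or_dvd h).elim h2 h4
  have h7 := (up_eq hπ h6 h5).2
  unfold ch
  rw [h7, sym_mul hπ h3 h2 h4]

theorem ch_unit {π a : Eis} (hπ : Prime π) (ha : ¬ π ∣ a) : ch π a = sym π a := by
  have h := (up_eq (k := 0) hπ ha (by rw [pow_zero, one_mul] : a = π ^ 0 * a)).2
  unfold ch
  rw [h]

theorem ch_pow {π a : Eis} (hπ : Prime π) (h3 : ¬ π ∣ 3) (ha : a ≠ 0) (n : ℕ) :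
    ch π (a ^ n) = n * ch π a := by
  induction n with
  | zero =>
    rw [pow_zero, ch_unit hπ (fun h => hπ.not_isUnit (isUnit_of_dvd_one h)), sym_one hπ h3]
    simp
  | succ n ih =>
    rw [pow_succ, ch_mul hπ h3 (pow_ne_zero _ ha) ha, ih]
    push_cast
    ring

theorem three_mul_zmod {n : ℕ} (h : 3 ∣ n) : (n : ZMod 3) = 0 :=
  (ZMod.natCast_eq_zero_iff n 3).2 h

theorem cont {π a a' : Eis} (hπ : Prime π) (ha : a ≠ 0) (h : π ^ (V π a + 1) ∣ a' - a) :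
    V π a' = V π a ∧ ch π a' = ch π a := by
  obtain ⟨h1, h2⟩ := up_spec hπ ha
  obtain ⟨d, hd⟩ := h
  have h3 : a' = π ^ V π a * (up π a + π * d) := by
    have : a' = a + π ^ (V π a + 1) * d := by rw [← hd]; ring
    rw [this]
    conv_lhs => rw [h1]
    have h4 : V π (π ^ V π a * up π a) = V π a := by rw [← h1]
    rw [h4]
    ring
  have h4 : ¬ π ∣ up π a + π * d := fun h => h2 ((dvd_add_left (dvd_mul_right π d)).1 h)
  obtain ⟨h5, h6⟩ := up_eq hπ h4 h3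
  refine ⟨h5, ?_⟩
  unfold ch
  rw [h6]
  refine sym_congr ⟨d, ?_⟩
  ring

theorem root_ne_zero {π : Eis} (hπ : Prime π) {b : Eis} (hb : b ≠ 0) {r : Eis} {e : ℕ}
    (he : 1 ≤ e) (h : π ^ (V π b + e) ∣ r ^ 3 - b) : r ≠ 0 := by
  rintro rfl
  obtain ⟨h1, h2⟩ := up_spec hπ hb
  have h3 : π ^ (V π b + e) ∣ b := by
    have h4 : (0 : Eis) ^ 3 - b = -b := by ring
    rw [h4] at h
    exact (dvd_neg).1 h
  have h4 : π ^ (V π b + 1) ∣ b := (pow_dvd_pow π (by omega)).trans h3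
  rw [pow_succ] at h4
  have h5 : π ^ V π b * π ∣ π ^ V π b * up π b := by rw [← h1]; exact h4
  exact h2 ((mul_dvd_mul_iff_left (pow_ne_zero _ hπ.ne_zero)).1 h5)

/-! ### Rational integers -/

theorem hensel {p : ℕ} (hp : p.Prime) (h3 : ¬ (p : ℤ) ∣ 3) {b r0 : ℤ} (hb : ¬ (p : ℤ) ∣ b)
    (h : (p : ℤ) ∣ r0 ^ 3 - b) : ∀ N : ℕ, ∃ r : ℤ, (p : ℤ) ^ (N + 1) ∣ r ^ 3 - b := by
  intro N
  induction N with
  | zero => exact ⟨r0, by rw [zero_add, pow_one]; exact h⟩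
  | succ N ih =>
    obtain ⟨r, c, hc⟩ := ih
    have hpi : Prime (p : ℤ) := Nat.prime_iff_prime_int.1 hp
    have hr : ¬ (p : ℤ) ∣ r := by
      intro hr
      apply hb
      have h1 : (p : ℤ) ∣ r ^ 3 - b := (dvd_pow_self _ (Nat.succ_ne_zero N)).trans ⟨c, hc⟩
      have h2 : (p : ℤ) ∣ r ^ 3 := dvd_pow hr (by norm_num)
      have h4 := dvd_sub h2 h1
      have h5 : r ^ 3 - (r ^ 3 - b) = b := by ring
      rwa [h5] at h4
    have hcop : IsCoprime (p : ℤ) (3 * r ^ 2) := by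
      refine (Irreducible.coprime_iff_not_dvd hpi.irreducible).2 ?_
      intro h4
      rcases hpi.dvd_or_dvd h4 with h5 | h5
      · exact h3 h5
      · exact hr (hpi.dvd_of_dvd_pow h5)
    obtain ⟨u, v, huv⟩ := hcop
    refine ⟨r + (p : ℤ) ^ (N + 1) * (-c * v),
      c * u + 3 * r * (p : ℤ) ^ N * (-c * v) ^ 2 + ((p : ℤ) ^ N) ^ 2 * p * (-c * v) ^ 3, ?_⟩
    rw [pow_succ (p : ℤ) N] at hc
    rw [pow_succ (p : ℤ) (N + 1), pow_succ (p : ℤ) N]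
    generalize (p : ℤ) ^ N = P at *
    linear_combination hc + (-(P * p * c)) * huv

theorem hensel3 {b : ℤ} (h : C9 b) : ∀ N : ℕ, ∃ r : ℤ, (3 : ℤ) ^ (N + 2) ∣ r ^ 3 - b := by
  intro N
  have hb : b % 9 = 1 ∨ b % 9 = 8 := h
  induction N with
  | zero =>
    have e : (3 : ℤ) ^ (0 + 2) = 9 := by norm_num
    rw [e]
    rcases hb with h1 | h1
    · exact ⟨1, by omega⟩
    · exact ⟨-1, by
        have e2 : (-1 : ℤ) ^ 3 = -1 := by norm_num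
        rw [e2]
        omega⟩
  | succ N ih =>
    obtain ⟨r, c, hc⟩ := ih
    have hr : ¬ (3 : ℤ) ∣ r := by
      intro hr
      have h1 : (3 : ℤ) ∣ r ^ 3 - b := (dvd_pow_self _ (by omega)).trans ⟨c, hc⟩
      have h2 : (3 : ℤ) ∣ r ^ 3 := dvd_pow hr (by norm_num)
      have h4 := dvd_sub h2 h1
      have h5 : r ^ 3 - (r ^ 3 - b) = b := by ring
      rw [h5] at h4
      omega
    obtain ⟨k, hk⟩ : ∃ k : ℤ, r ^ 2 = 1 + 3 * k := by
      have h1 : r % 3 = 1 ∨ r % 3 = 2 := by omega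
      rcases h1 with h1 | h1
      · obtain ⟨t, ht⟩ : ∃ t, r = 3 * t + 1 := ⟨r / 3, by omega⟩
        exact ⟨3 * t ^ 2 + 2 * t, by rw [ht]; ring⟩
      · obtain ⟨t, ht⟩ : ∃ t, r = 3 * t + 2 := ⟨r / 3, by omega⟩
        exact ⟨3 * t ^ 2 + 4 * t + 1, by rw [ht]; ring⟩
    refine ⟨r - (3 : ℤ) ^ (N + 1) * c,
      -c * k + (3 : ℤ) ^ N * r * c ^ 2 - ((3 : ℤ) ^ N) ^ 2 * c ^ 3, ?_⟩
    have e1 : (3 : ℤ) ^ (N + 2) = (3 : ℤ) ^ N * 9 := by rw [pow_add]; norm_num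
    have e2 : (3 : ℤ) ^ (N + 1 + 2) = (3 : ℤ) ^ N * 27 := by rw [pow_add, pow_succ]; ring
    rw [e1] at hc
    rw [e2, pow_succ (3 : ℤ) N]
    generalize (3 : ℤ) ^ N = P at *
    linear_combination hc + (-(9 * P * c)) * hk

theorem cube_of_pow {p : ℕ} (hp : p.Prime) (h1 : p % 3 = 1) {m : ℤ} (hm : ¬ (p : ℤ) ∣ m)
    (h : (p : ℤ) ∣ m ^ ((p - 1) / 3) - 1) : ∃ r : ℤ, (p : ℤ) ∣ r ^ 3 - m := by
  have : Fact p.Prime := ⟨hp⟩
  have hm0 : (m : ZMod p) ≠ 0 := by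
    intro h
    exact hm ((ZMod.intCast_zmod_eq_zero_iff_dvd m p).1 h)
  have h2 : (m : ZMod p) ^ ((p - 1) / 3) = 1 := by
    have h3 := (ZMod.intCast_zmod_eq_zero_iff_dvd _ p).2 h
    push_cast at h3
    exact sub_eq_zero.1 h3
  obtain ⟨g, hg⟩ := IsCyclic.exists_generator (α := (ZMod p)ˣ)
  obtain ⟨u, hu⟩ : ∃ u : (ZMod p)ˣ, (u : ZMod p) = m := ⟨Units.mk0 _ hm0, rfl⟩
  obtain ⟨k, hk⟩ := (Subgroup.mem_zpowers_iff).1 (hg u)
  have hu1 : u ^ ((p - 1) / 3) = 1 := by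
    apply Units.ext
    rw [Units.val_pow_eq_pow_val, hu, h2, Units.val_one]
  have ho : orderOf g = p - 1 := by
    rw [orderOf_eq_card_of_forall_mem_zpowers hg, Nat.card_eq_fintype_card,
      ZMod.card_units_eq_totient, Nat.totient_prime hp]
  have hd : ((p - 1 : ℕ) : ℤ) ∣ k * (((p - 1) / 3 : ℕ) : ℤ) := by
    rw [← ho]
    apply orderOf_dvd_iff_zpow_eq_one.2
    rw [zpow_mul, hk, zpow_natCast, ho]
    exact hu1
  have h3 : p - 1 = 3 * ((p - 1) / 3) := by omega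
  have hp1 : 1 < p := hp.one_lt
  have h3k : (3 : ℤ) ∣ k := by
    obtain ⟨c, hc⟩ := hd
    have h4 : ((p - 1 : ℕ) : ℤ) = 3 * (((p - 1) / 3 : ℕ) : ℤ) := by
      conv_lhs => rw [h3]
      push_cast
      ring
    rw [h4] at hc
    have h5 : (((p - 1) / 3 : ℕ) : ℤ) ≠ 0 := by omega
    refine ⟨c, ?_⟩
    apply mul_right_cancel₀ h5
    linear_combination hc
  obtain ⟨j, hj⟩ := h3k
  have h6 : ((g ^ j : (ZMod p)ˣ) : ZMod p) ^ 3 = m := by
    rw [← hu, ← hk, hj, ← Units.val_pow_eq_pow_val]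
    congr 1
    rw [← zpow_natCast, ← zpow_mul]
    congr 1
    push_cast
    ring
  obtain ⟨r, hr⟩ := ZMod.intCast_surjective ((g ^ j : (ZMod p)ˣ) : ZMod p)
  refine ⟨r, (ZMod.intCast_zmod_eq_zero_iff_dvd _ p).1 ?_⟩
  push_cast
  rw [hr, h6, sub_self]

theorem cube_inert {p : ℕ} (hp : p.Prime) (h2 : p % 3 = 2) {m : ℤ} (hm : ¬ (p : ℤ) ∣ m) :
    ∃ r : ℤ, (p : ℤ) ∣ r ^ 3 - m := by
  have : Fact p.Prime := ⟨hp⟩
  have hm0 : (m : ZMod p) ≠ 0 := by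
    intro h
    exact hm ((ZMod.intCast_zmod_eq_zero_iff_dvd m p).1 h)
  have h3 := ZMod.pow_card_sub_one_eq_one hm0
  refine ⟨m ^ ((2 * (p - 1) + 1) / 3), (ZMod.intCast_zmod_eq_zero_iff_dvd _ p).1 ?_⟩
  push_cast
  have hp1 : 1 < p := hp.one_lt
  have h4 : (2 * (p - 1) + 1) / 3 * 3 = 2 * (p - 1) + 1 := by omega
  rw [← pow_mul, h4, pow_succ, mul_comm 2, pow_mul, h3, one_pow, one_mul, sub_self]

/-! ### The primes of `PP` -/

theorem norm_int (m : ℤ) : ((m : ℤ) : Eis).norm = m ^ 2 := by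
  rw [norm_def, intCast_re, intCast_im]
  ring

theorem above (hSPP : SPP) (π : PP) : ∃ p : ℕ, p.Prime ∧ ¬ (p : ℤ) ∣ 3 ∧
    (∀ m : ℤ, π.1 ∣ (m : Eis) ↔ (p : ℤ) ∣ m) ∧ V π.1 ((p : ℤ) : Eis) = 1 ∧
    (∀ m : ℤ, ¬ (p : ℤ) ∣ m → sym π.1 (m : Eis) = 0 → ∃ r : ℤ, (p : ℤ) ∣ r ^ 3 - m) := by
  have hπ := π.2.1
  have h3 := (hSPP.2.2.2.1 π).1
  obtain ⟨p, hp, hc⟩ := hSPP.2.2.2.2.2 π
  have hpi : Prime (p : ℤ) := Nat.prime_iff_prime_int.1 hp
  refine ⟨p, hp, ?_, ?_⟩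
  · intro h
    have h1 : p ∣ 3 := by exact_mod_cast h
    have h2 := (Nat.prime_dvd_prime_iff_eq hp Nat.prime_three).1 h1
    omega
  rcases hc with ⟨h1, h2⟩ | ⟨h1, h2, h4, h5⟩
  · have h2' : π.1 = ((p : ℤ) : Eis) := by rw [h2, Int.cast_natCast]
    refine ⟨?_, ?_, ?_⟩
    · intro m
      rw [h2', intCast_dvd_intCast]
    · rw [← h2']
      exact V_self
    · intro m hm _
      exact cube_inert hp h1 hm
  · have h4' : ((p : ℤ) : Eis) = π.1 * conj π.1 := by rw [Int.cast_natCast, h4]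
    have hdvd : ∀ m : ℤ, π.1 ∣ (m : Eis) ↔ (p : ℤ) ∣ m := by
      intro m
      constructor
      · rintro ⟨y, hy⟩
        have h6 := congrArg Eis.norm hy
        rw [norm_mul, norm_int, h2] at h6
        exact hpi.dvd_of_dvd_pow ⟨_, h6⟩
      · intro h
        refine dvd_trans ?_ (intCast_dvd_intCast.2 h)
        rw [h4']
        exact dvd_mul_right _ _
    refine ⟨hdvd, ?_, ?_⟩
    · have h6 : ¬ π.1 ∣ conj π.1 := fun h => h5 (hπ.associated_of_dvd (prime_conj hπ) h)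
      rw [h4', V_mul hπ hπ.ne_zero (prime_conj hπ).ne_zero, V_self, V_eq_zero h6]
    · intro m hm hs
      have h6 : ¬ π.1 ∣ (m : Eis) := fun h => hm ((hdvd m).1 h)
      have h7 := sym_spec hπ h3 h6
      have hN : N π.1 = p := by
        have h8 := N_cast π.1
        rw [h2] at h8
        exact_mod_cast h8
      rw [hs, ZMod.val_zero, pow_zero, hN] at h7
      have h8 : (m : Eis) ^ ((p - 1) / 3) - 1 = ((m ^ ((p - 1) / 3) - 1 : ℤ) : Eis) := by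
        push_cast
        ring
      rw [h8, hdvd] at h7
      exact cube_of_pow hp h1 hm h7

theorem cast_ne_zero {b : ℤ} (hb : b ≠ 0) : (b : Eis) ≠ 0 := by
  intro h
  have h1 := congrArg Eis.re h
  rw [intCast_re] at h1
  exact hb h1

theorem first (hSPP : SPP) (π : PP) (b : ℤ) (hb : b ≠ 0) :
    LC π.1 b ↔ 3 ∣ V π.1 (b : Eis) ∧ ch π.1 (b : Eis) = 0 := by
  have hπ := π.2.1
  have h3 := (hSPP.2.2.2.1 π).1
  have hb0 := cast_ne_zero hb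
  constructor
  · intro h
    obtain ⟨r, hr⟩ := h (V π.1 (b : Eis) + 1)
    have hr0 := root_ne_zero hπ hb0 le_rfl hr
    obtain ⟨h1, h2⟩ := cont hπ hb0 hr
    rw [V_pow hπ hr0] at h1
    rw [ch_pow hπ h3 hr0, three_mul_zmod (dvd_refl 3), zero_mul] at h2
    exact ⟨⟨_, h1.symm⟩, h2.symm⟩
  · rintro ⟨h1, h2⟩
    obtain ⟨p, hp, hp3, hd, hV, hs⟩ := above hSPP π
    have hpi : Prime (p : ℤ) := Nat.prime_iff_prime_int.1 hp
    obtain ⟨c, hc, hpc⟩ :=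
      (FiniteMultiplicity.of_prime_left hpi hb).exists_eq_pow_mul_and_not_dvd
    generalize multiplicity (p : ℤ) b = k at hc
    have hp0 : ((p : ℤ) : Eis) ≠ 0 := cast_ne_zero hpi.ne_zero
    have hπc : ¬ π.1 ∣ (c : Eis) := fun h => hpc ((hd c).1 h)
    have hc0 : (c : Eis) ≠ 0 := by
      intro h
      rw [h] at hπc
      exact hπc (dvd_zero _)
    have hbE : (b : Eis) = ((p : ℤ) : Eis) ^ k * (c : Eis) := by
      rw [hc]
      push_cast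
      ring
    have hVb : V π.1 (b : Eis) = k := by
      rw [hbE, V_mul hπ (pow_ne_zero _ hp0) hc0, V_pow hπ hp0, hV, V_eq_zero hπc]
      ring
    rw [hVb] at h1
    rw [hbE, ch_mul hπ h3 (pow_ne_zero _ hp0) hc0, ch_pow hπ h3 hp0, three_mul_zmod h1, zero_mul,
      zero_add, ch_unit hπ hπc] at h2
    obtain ⟨r0, hr0⟩ := hs c hpc h2
    obtain ⟨j, hj⟩ := h1
    intro N
    obtain ⟨r, hr⟩ := hensel hp hp3 hpc hr0 N
    refine ⟨(p : ℤ) ^ j * r, ?_⟩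
    have h4 : (p : ℤ) ^ (N + 1) ∣ ((p : ℤ) ^ j * r) ^ 3 - b := by
      have e : ((p : ℤ) ^ j * r) ^ 3 - b = (p : ℤ) ^ k * (r ^ 3 - c) := by
        rw [hc, hj, mul_comm 3 j, pow_mul]
        ring
      rw [e]
      exact hr.mul_left _
    have h5 : π.1 ^ N ∣ ((p : ℤ) : Eis) ^ (N + 1) := by
      refine (pow_dvd_pow π.1 (Nat.le_succ N)).trans (pow_dvd_pow_of_dvd ?_ _)
      exact (hd (p : ℤ)).2 (dvd_refl _)
    have h6 : (((p : ℤ) ^ (N + 1) : ℤ) : Eis) ∣ ((((p : ℤ) ^ j * r) ^ 3 - b : ℤ) : Eis) :=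
      intCast_dvd_intCast.2 h4
    rw [Int.cast_pow] at h6
    refine (h5.trans h6).trans (dvd_of_eq ?_)
    push_cast
    ring

theorem lam_four : lam ^ 4 = 9 * w ^ 2 := by decide

theorem second (b : ℤ) (hb : ¬ (3 : ℤ) ∣ b) : LC lam b ↔ C9 b := by
  constructor
  · intro h
    obtain ⟨r, hr⟩ := h 4
    have h1 : ((9 : ℤ) : Eis) ∣ ((r ^ 3 - b : ℤ) : Eis) := by
      rw [lam_four] at hr
      have e : ((9 : ℤ) : Eis) = 9 := by push_cast; rfl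
      rw [e]
      refine (dvd_mul_right 9 (w ^ 2)).trans (hr.trans (dvd_of_eq ?_))
      push_cast
      ring
    have h2 : (9 : ℤ) ∣ r ^ 3 - b := intCast_dvd_intCast.1 h1
    show b % 9 = 1 ∨ b % 9 = 8
    obtain ⟨t, ht⟩ : ∃ t, r = 3 * t + r % 3 := ⟨r / 3, by omega⟩
    have h3 : r % 3 = 0 ∨ r % 3 = 1 ∨ r % 3 = 2 := by omega
    rcases h3 with h3 | h3 | h3
    · rw [h3] at ht
      have e : r ^ 3 = 9 * (3 * t ^ 3) := by rw [ht]; ring
      rw [e] at h2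
      generalize 3 * t ^ 3 = T at h2
      omega
    · rw [h3] at ht
      have e : r ^ 3 = 9 * (3 * t ^ 3 + 3 * t ^ 2 + t) + 1 := by rw [ht]; ring
      rw [e] at h2
      generalize 3 * t ^ 3 + 3 * t ^ 2 + t = T at h2
      omega
    · rw [h3] at ht
      have e : r ^ 3 = 9 * (3 * t ^ 3 + 6 * t ^ 2 + 4 * t) + 8 := by rw [ht]; ring
      rw [e] at h2
      generalize 3 * t ^ 3 + 6 * t ^ 2 + 4 * t = T at h2
      omega
  · intro h N
    obtain ⟨r, hr⟩ := hensel3 h N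
    refine ⟨r, ?_⟩
    have h1 : lam ^ N ∣ (3 : Eis) ^ (N + 2) :=
      (pow_dvd_pow lam (by omega)).trans (pow_dvd_pow_of_dvd lam_dvd_three _)
    have h2 : (((3 : ℤ) ^ (N + 2) : ℤ) : Eis) ∣ ((r ^ 3 - b : ℤ) : Eis) :=
      intCast_dvd_intCast.2 hr
    rw [Int.cast_pow, ← three_eq_cast] at h2
    refine (h1.trans h2).trans (dvd_of_eq ?_)
    push_cast
    ring

theorem third (π : Eis) (s : Eis → Eis → ZMod 3) (e : ℕ) (b : ℤ) (a : Eis) (hs : LSym π s e)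
    (h : LC π b) (hb : b ≠ 0) (ha : a ≠ 0) : s (b : Eis) a = 0 := by
  have hb0 := cast_ne_zero hb
  obtain ⟨r, hr⟩ := h (V π (b : Eis) + e)
  have hr0 := root_ne_zero hs.prime hb0 hs.pos hr
  have h1 := hs.cont (b : Eis) ((r : Eis) ^ 3) a hb0 ha hr
  rw [← h1]
  have h2 := hs.mul (r : Eis) (r : Eis) a hr0 hr0 ha
  have h3 := hs.mul ((r : Eis) * (r : Eis)) (r : Eis) a (mul_ne_zero hr0 hr0) hr0 ha
  have e3 : (r : Eis) ^ 3 = (r : Eis) * (r : Eis) * (r : Eis) := by ring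
  rw [e3, h3, h2]
  have h4 : ∀ x : ZMod 3, x + x + x = 0 := by decide
  exact h4 _

end LCI

theorem LCI_thm (_hSTM : STM) (hSPP : SPP) (_hSLC : SLC) : LCI :=
  ⟨LCI.first hSPP, LCI.second, fun π s e b a hs h hb ha => LCI.third π s e b a hs h hb ha⟩

end Pool.Agent.PT
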