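import Pool.Agent.PT.Stmts1

/-!
# Prime twists of rank zero: the local evaluation (module LEV)
-/

namespace Pool.Agent.PT

open Pool.Agent.Lib_helper18 Pool.Agent.Lib_helper18.Eis Pool.Agent.Lib_helper84.Cub

namespace LEV

theorem three0 : (3 : ZMod 3) = 0 := rfl

theorem cast_ne {m : ℤ} (h : m ≠ 0) : (m : Eis) ≠ 0 := by
  intro h'
  apply h
  simpa using congrArg Eis.re h'

theorem w_ne : w ≠ 0 := by
  intro h
  have := congrArg Eis.im h
  simp at this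

section Sym

variable {π : Eis} {s : Eis → Eis → ZMod 3} {e : ℕ}

theorem mul_right (h : LSym π s e) {a b c : Eis} (ha : a ≠ 0) (hb : b ≠ 0) (hc : c ≠ 0) :
    s c (a * b) = s c a + s c b := by
  rw [h.skew (a * b) c (mul_ne_zero ha hb) hc, h.mul a b c ha hb hc, h.skew c a hc ha,
    h.skew c b hc hb]
  ring

theorem cube_left (h : LSym π s e) {c y : Eis} (hc : c ≠ 0) (hy : y ≠ 0) : s (c ^ 3) y = 0 := by
  have e1 : c ^ 3 = c * c * c := by ring
  rw [e1, h.mul _ _ _ (mul_ne_zero hc hc) hc hy, h.mul _ _ _ hc hc hy]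
  linear_combination (s c y) * three0

theorem neg_left (h : LSym π s e) {a y : Eis} (ha : a ≠ 0) (hy : y ≠ 0) :
    s (-a) y = s a y := by
  have h1 : (-1 : Eis) ≠ 0 := neg_ne_zero.2 one_ne_zero
  have e1 : -a = (-1) ^ 3 * a := by ring
  rw [e1, h.mul _ _ _ (pow_ne_zero 3 h1) ha hy, cube_left h h1 hy, zero_add]

end Sym

/-- The relation between `B`, `x` and `n_0`. -/
theorem rel {B x X Y : ℤ} (hB : B ≠ 0) (hP : Pt B x X Y) :
    X ^ 3 + x * Y ^ 3 ≠ 0 ∧ ∃ c : Eis, c ≠ 0 ∧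
      (x : Eis) * ((X ^ 3 + x * Y ^ 3 : ℤ) : Eis) = (B : Eis) * c ^ 3 := by
  obtain ⟨c, hc, heq⟩ := hP.eq
  refine ⟨?_, (c : Eis), cast_ne hc, ?_⟩
  · intro h0
    rw [h0, mul_zero] at heq
    exact (mul_ne_zero hB (pow_ne_zero 3 hc)) heq.symm
  · exact_mod_cast congrArg (Int.cast : ℤ → Eis) heq

/-- The relation of symbols. -/
def Rel (s : Eis → Eis → ZMod 3) (B x n : Eis) : Prop := ∀ y : Eis, y ≠ 0 → s B y = s x y + s n y

theorem rel_sym {π : Eis} {s : Eis → Eis → ZMod 3} {e : ℕ} (h : LSym π s e) {B x n c : Eis}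
    (hB : B ≠ 0) (hx : x ≠ 0) (hn : n ≠ 0) (hc : c ≠ 0) (heq : x * n = B * c ^ 3) :
    Rel s B x n := by
  intro y hy
  have h1 := h.mul x n y hx hn hy
  rw [heq, h.mul B _ y hB (pow_ne_zero 3 hc) hy, cube_left h hc hy, add_zero] at h1
  exact h1

/-- Linear forms at good approximations of a cube root do not vanish. -/
theorem lf_ne {π : Eis} (hπ : Prime π) {p q r b : ℤ} {N : ℕ} (hn : p ^ 3 + b * q ^ 3 ≠ 0)
    (hN : V π ((p ^ 3 + b * q ^ 3 : ℤ) : Eis) < N) (hr : π ^ N ∣ (r : Eis) ^ 3 - (b : Eis))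
    (i : ℕ) : Lf p q i r ≠ 0 := by
  intro h0
  unfold Lf at h0
  have h1 : (q : Eis) * w ^ i * (r : Eis) = -(p : Eis) := by linear_combination h0
  have h2 : ((q : Eis) * w ^ i * (r : Eis)) ^ 3 = (-(p : Eis)) ^ 3 := by rw [h1]
  have h3 : (w ^ i) ^ 3 = 1 := by rw [← pow_mul, mul_comm, pow_mul, w_cube, one_pow]
  have h4 : ((p ^ 3 + b * q ^ 3 : ℤ) : Eis) = (-(q : Eis) ^ 3) * ((r : Eis) ^ 3 - (b : Eis)) := by
    push_cast
    linear_combination h2 - (q : Eis) ^ 3 * (r : Eis) ^ 3 * h3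
  have h5 : π ^ N ∣ ((p ^ 3 + b * q ^ 3 : ℤ) : Eis) := by
    rw [h4]
    exact Dvd.dvd.mul_left hr _
  have h6 := (fin hπ (cast_ne hn)).le_multiplicity_of_pow_dvd h5
  exact absurd h6 (not_le.2 hN)

/-- A symbol of a rational local cube. -/
theorem lc_right {π : Eis} {s : Eis → Eis → ZMod 3} {e : ℕ} (h : LSym π s e) (hLCI : LCI)
    {b : ℤ} (hb : b ≠ 0) (hL : LC π b) {y : Eis} (hy : y ≠ 0) : s y (b : Eis) = 0 := by
  rw [h.skew (b : Eis) y (cast_ne hb) hy, hLCI.2.2 π s e b y h hL hb hy, neg_zero]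

/-- The swapped solution. -/
theorem swap {b x p q p' q' : ℤ} (h : Sol b x p q p' q') :
    Sol x b p (-p') (-q) q' where
  eq := by linear_combination h.eq
  n1 := by
    intro h0
    apply h.n2
    linear_combination h0
  n2 := by
    intro h0
    apply h.n1
    linear_combination h0

theorem nn {b x p q p' q' : ℤ} (h : Sol b x p q p' q') :
    (-q) ^ 3 + x * q' ^ 3 ≠ 0 := by
  intro h0
  apply h.n2
  linear_combination h.eq + b * h0

theorem gf_swap (p q p' q' : ℤ) (i : ℕ) : Gf p (-p') (-q) q' i = Gf p q p' q' i := by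
  unfold Gf
  push_cast
  ring

/-- The local term of a point when `x` is a local cube. -/
theorem SV_LC {π : Eis} {s : Eis → Eis → ZMod 3} {e : ℕ} (h : LSym π s e) (hLCI : LCI)
    (hIF4 : IF4) {B b x p q p' q' X Y : ℤ} (hb : b ≠ 0) (hx : x ≠ 0)
    (hS : Sol b x p q p' q') (hX : X ≠ 0) (hY : Y ≠ 0) (hn : X ^ 3 + x * Y ^ 3 ≠ 0)
    (hL : LC π x) (hrel : Rel s (B : Eis) (x : Eis) ((X ^ 3 + x * Y ^ 3 : ℤ) : Eis)) :
    ∃ N0 : ℕ, V π ((X ^ 3 + x * Y ^ 3 : ℤ) : Eis) < N0 ∧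
      ∀ ξ : ℤ, π ^ N0 ∣ (ξ : Eis) ^ 3 - (x : Eis) → (∀ i, Lf X Y i ξ ≠ 0) ∧
        SV s x p q p' q' X Y = AS s (B : Eis) p (-p') (-q) q' ξ +
          s (Lf X Y 1 ξ) (b : Eis) - s (Lf X Y 2 ξ) (b : Eis) := by
  obtain ⟨N1, h1⟩ := hIF4 π s e h b x p q p' q' X Y hb hx hS hX hY hn
  have hn' : p ^ 3 + x * (-p') ^ 3 ≠ 0 := (swap hS).n1
  have hn'' := nn hS
  set N0 := N1 + V π ((X ^ 3 + x * Y ^ 3 : ℤ) : Eis) + V π ((p ^ 3 + x * (-p') ^ 3 : ℤ) : Eis) +
    V π (((-q) ^ 3 + x * q' ^ 3 : ℤ) : Eis) + 1 with hN0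
  refine ⟨N0, by omega, fun ξ hξ => ?_⟩
  have hF := lf_ne h.prime hn (N := N0) (by omega) hξ
  have hG := lf_ne h.prime hn' (N := N0) (by omega) hξ
  have hG' := lf_ne h.prime hn'' (N := N0) (by omega) hξ
  refine ⟨hF, ?_⟩
  rw [h1 ξ ((pow_dvd_pow π (by omega)).trans hξ)]
  have key : ∀ y : Eis, y ≠ 0 →
      s (B : Eis) y = s ((X ^ 3 + x * Y ^ 3 : ℤ) : Eis) y := by
    intro y hy
    rw [hrel y hy, hLCI.2.2 π s e x y h hL hx hy, zero_add]
  unfold AS
  rw [key _ (hG 2), key _ (hG' 1), key _ (hG 1), key _ (hG' 2)]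

/-- The case of a functional proportional to the one of `B`. -/
theorem prop_case {π : Eis} {s : Eis → Eis → ZMod 3} {e : ℕ} (h : LSym π s e) (hLCI : LCI)
    (hIF4B : IF4B) {B b x X Y : ℤ} (hb : b ≠ 0) (hx : x ≠ 0)
    (hX : X ≠ 0) (hY : Y ≠ 0) (hn : X ^ 3 + x * Y ^ 3 ≠ 0) (hL : LC π x)
    (hrel : Rel s (B : Eis) (x : Eis) ((X ^ 3 + x * Y ^ 3 : ℤ) : Eis)) (j : ZMod 3)
    (hj : ∀ y : Eis, y ≠ 0 → s (b : Eis) y = j * s (B : Eis) y) :
    ∃ N0 : ℕ, ∀ ξ : ℤ, π ^ N0 ∣ (ξ : Eis) ^ 3 - (x : Eis) → (∀ i, Lf X Y i ξ ≠ 0) →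
      s (Lf X Y 1 ξ) (b : Eis) - s (Lf X Y 2 ξ) (b : Eis) = s w (b : Eis) := by
  obtain ⟨N1, h1⟩ := hIF4B π s e h x X Y hx hX hY hn
  refine ⟨N1, fun ξ hξ hF => ?_⟩
  have h2 := h1 ξ hξ
  have key : ∀ y : Eis, y ≠ 0 → s y (b : Eis) = j * s y ((X ^ 3 + x * Y ^ 3 : ℤ) : Eis) := by
    intro y hy
    rw [h.skew (b : Eis) y (cast_ne hb) hy, hj y hy, hrel y hy,
      hLCI.2.2 π s e x y h hL hx hy, h.skew y _ hy (cast_ne hn)]
    ring
  rw [key _ (hF 1), key _ (hF 2), key _ w_ne]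
  linear_combination j * h2

theorem lam4 : lam ^ 4 ∣ (9 : Eis) := ⟨w, by decide⟩

theorem not_lam {m : ℤ} (h : ¬ (3 : ℤ) ∣ m) : ¬ lam ∣ (m : Eis) := by
  rw [lam_dvd_iff]
  simpa using h

theorem res {m : ℤ} (h3 : ¬ (3 : ℤ) ∣ m) (h9 : ¬ C9 m) :
    m % 9 = 2 ∨ m % 9 = 4 ∨ m % 9 = 5 ∨ m % 9 = 7 := by
  unfold C9 at h9
  omega

/-- Units modulo `9`. -/
theorem units9 {b B : ℤ} (hb3 : ¬ (3 : ℤ) ∣ b) (hB3 : ¬ (3 : ℤ) ∣ B) (hb : ¬ C9 b)
    (hB : ¬ C9 B) : 9 ∣ b - B ∨ 9 ∣ b + B ∨ 9 ∣ b - B * B ∨ 9 ∣ b + B * B := by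
  have h1 := res hb3 hb
  have h2 : (B % 9 = 2 ∨ B % 9 = 4 ∨ B % 9 = 5 ∨ B % 9 = 7) := res hB3 hB
  have h3 : (B * B) % 9 = ((B % 9) * (B % 9)) % 9 := Int.mul_emod B B 9
  rcases h2 with h | h | h | h <;> rw [h] at h3 <;> norm_num at h3 <;> omega

theorem none_prop (hL : LSym lam sl 4) {b B : ℤ} (hB0 : B ≠ 0)
    (hb3 : ¬ (3 : ℤ) ∣ b) (hB3 : ¬ (3 : ℤ) ∣ B)
    (hb : ¬ C9 b) (hB : ¬ C9 B) :
    ∃ j : ZMod 3, ∀ y : Eis, y ≠ 0 → sl (b : Eis) y = j * sl (B : Eis) y := by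
  have hBe : (B : Eis) ≠ 0 := cast_ne hB0
  have hV : ∀ a : Eis, a ≠ 0 → ¬ lam ∣ a → (9 : Eis) ∣ (b : Eis) - a → ∀ y : Eis, y ≠ 0 →
      sl (b : Eis) y = sl a y := by
    intro a ha hla h9 y hy
    refine hL.cont a b y ha hy ?_
    rw [V_eq_zero hla, zero_add]
    exact lam4.trans h9
  have hl := not_lam hB3
  have hll : ¬ lam ∣ (B : Eis) * B := fun h => (prime_lam.dvd_or_dvd h).elim hl hl
  have cst : ∀ m : ℤ, (9 : ℤ) ∣ m → (9 : Eis) ∣ (m : Eis) := by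
    rintro m ⟨k, rfl⟩
    exact ⟨k, by push_cast; ring⟩
  rcases units9 hb3 hB3 hb hB with h | h | h | h
  · refine ⟨1, fun y hy => ?_⟩
    rw [hV B hBe hl (by simpa using cst _ h) y hy, one_mul]
  · refine ⟨1, fun y hy => ?_⟩
    rw [hV (-B) (neg_ne_zero.2 hBe) (by rwa [dvd_neg]) (by simpa using cst _ h) y hy,
      neg_left hL hBe hy, one_mul]
  · refine ⟨2, fun y hy => ?_⟩
    rw [hV (B * B) (mul_ne_zero hBe hBe) hll (by simpa using cst _ h) y hy,
      hL.mul _ _ _ hBe hBe hy]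
    ring
  · refine ⟨2, fun y hy => ?_⟩
    rw [hV (-(B * B)) (neg_ne_zero.2 (mul_ne_zero hBe hBe)) (by rwa [dvd_neg])
      (by simpa using cst _ h) y hy, neg_left hL (mul_ne_zero hBe hBe) hy,
      hL.mul _ _ _ hBe hBe hy]
    ring

theorem alg3 : ∀ vB cB vb cb : ZMod 3, ¬ (vB = 0 ∧ cB = 0) → vB * cb - vb * cB = 0 →
    ∃ j : ZMod 3, vb = j * vB ∧ cb = j * cB := by decide

theorem cast3 {n : ℕ} : ((n : ℕ) : ZMod 3) = 0 ↔ 3 ∣ n := ZMod.natCast_eq_zero_iff n 3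

theorem tame_prop {π : Eis} {b B : ℤ}
    (hB : ¬ (3 ∣ V π (B : Eis) ∧ ch π (B : Eis) = 0)) (h0 : tm π (b : Eis) (B : Eis) = 0) :
    ∃ j : ZMod 3, ∀ y : Eis, y ≠ 0 → tm π (b : Eis) y = j * tm π (B : Eis) y := by
  unfold tm at h0
  obtain ⟨j, h1, h2⟩ := alg3 (V π (B : Eis) : ZMod 3) (ch π (B : Eis)) (V π (b : Eis) : ZMod 3)
    (ch π (b : Eis)) (by rwa [cast3]) h0
  refine ⟨j, fun y _ => ?_⟩
  unfold tm
  rw [h1, h2]
  ring

/-- Valuations of the three linear forms. -/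
theorem val_case {π : Eis} (hπ : Prime π) (h3 : ¬ π ∣ 3) {x X Y ξ : ℤ} {N : ℕ}
    (hX : X ≠ 0) (hY : Y ≠ 0) (hn : X ^ 3 + x * Y ^ 3 ≠ 0) (hxu : ¬ π ∣ (x : Eis))
    (hN : V π ((X ^ 3 + x * Y ^ 3 : ℤ) : Eis) < N)
    (hξ : π ^ N ∣ (ξ : Eis) ^ 3 - (x : Eis)) (hF : ∀ i, Lf X Y i ξ ≠ 0)
    (hV : 3 ∣ V π ((X ^ 3 + x * Y ^ 3 : ℤ) : Eis)) :
    ((V π (Lf X Y 1 ξ) : ℕ) : ZMod 3) = ((V π (Lf X Y 2 ξ) : ℕ) : ZMod 3) := by
  have hξu : ¬ π ∣ (ξ : Eis) := by
    intro h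
    apply hxu
    have h1 : π ∣ (ξ : Eis) ^ 3 - (x : Eis) := (dvd_pow_self π (by omega)).trans hξ
    have h2 : π ∣ (ξ : Eis) ^ 3 := h.trans (dvd_pow_self _ (by norm_num))
    have h3 := dvd_sub h2 h1
    simpa using h3
  set m := min (V π (X : Eis)) (V π (Y : Eis)) with hm
  have hmX : π ^ m ∣ (X : Eis) := (pow_dvd_pow π (min_le_left _ _)).trans (pow_multiplicity_dvd _ _)
  have hmY : π ^ m ∣ (Y : Eis) := (pow_dvd_pow π (min_le_right _ _)).trans (pow_multiplicity_dvd _ _)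
  have hge : ∀ i, m ≤ V π (Lf X Y i ξ) := by
    intro i
    apply (fin hπ (hF i)).le_multiplicity_of_pow_dvd
    unfold Lf
    exact dvd_add hmX (Dvd.dvd.mul_right (Dvd.dvd.mul_right hmY _) _)
  have hw1 : ¬ π ∣ 1 - w := fun h => not_dvd_lam h3 (by rw [lam_eq]; exact h)
  have hw2 : ¬ π ∣ 1 - w ^ 2 := fun h => h3 (h.trans ⟨1 - w, by decide⟩)
  have hw0 : ¬ π ∣ w := not_dvd_w hπ
  have pair : ∀ i k : ℕ, ¬ π ∣ w ^ i - w ^ k → m < V π (Lf X Y i ξ) →
      m < V π (Lf X Y k ξ) → False := by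
    intro i k hik h1 h2
    have d1 : π ^ (m + 1) ∣ Lf X Y i ξ :=
      (pow_dvd_pow π h1).trans (pow_multiplicity_dvd _ _)
    have d2 : π ^ (m + 1) ∣ Lf X Y k ξ :=
      (pow_dvd_pow π h2).trans (pow_multiplicity_dvd _ _)
    have d3 : π ^ (m + 1) ∣ (w ^ i - w ^ k) * (ξ : Eis) * (Y : Eis) := by
      have := dvd_sub d1 d2
      unfold Lf at this
      have e1 : (X : Eis) + (Y : Eis) * w ^ i * (ξ : Eis) - ((X : Eis) + (Y : Eis) * w ^ k * (ξ : Eis))
        = (w ^ i - w ^ k) * (ξ : Eis) * (Y : Eis) := by ring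
      rwa [e1] at this
    have hu : ¬ π ∣ (w ^ i - w ^ k) * (ξ : Eis) := fun h => (hπ.dvd_or_dvd h).elim hik hξu
    have d4 : π ^ (m + 1) ∣ (Y : Eis) := hπ.pow_dvd_of_dvd_mul_left _ hu d3
    have d5 : π ^ (m + 1) ∣ (X : Eis) := by
      have h5 : π ^ (m + 1) ∣ (Y : Eis) * w ^ i * (ξ : Eis) :=
        Dvd.dvd.mul_right (Dvd.dvd.mul_right d4 _) _
      have := dvd_sub d1 h5
      unfold Lf at this
      simpa using this
    have h6 : m + 1 ≤ V π (X : Eis) := (fin hπ (cast_ne hX)).le_multiplicity_of_pow_dvd d5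
    have h7 : m + 1 ≤ V π (Y : Eis) := (fin hπ (cast_ne hY)).le_multiplicity_of_pow_dvd d4
    omega
  have hsum : V π (Lf X Y 0 ξ) + V π (Lf X Y 1 ξ) + V π (Lf X Y 2 ξ) =
      V π ((X ^ 3 + x * Y ^ 3 : ℤ) : Eis) := by
    rw [← V_mul hπ (hF 0) (hF 1), ← V_mul hπ (mul_ne_zero (hF 0) (hF 1)) (hF 2)]
    have e1 : Lf X Y 0 ξ * Lf X Y 1 ξ * Lf X Y 2 ξ =
        ((X ^ 3 + x * Y ^ 3 : ℤ) : Eis) + (Y : Eis) ^ 3 * ((ξ : Eis) ^ 3 - (x : Eis)) := by
      unfold Lf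
      push_cast
      linear_combination ((X : Eis) ^ 2 * (Y : Eis) * ξ + (X : Eis) * (Y : Eis) ^ 2 * ξ ^ 2 * w) *
        w_rel + (Y : Eis) ^ 3 * (ξ : Eis) ^ 3 * w_cube
    rw [e1]
    have hne : (Y : Eis) ^ 3 * ((ξ : Eis) ^ 3 - (x : Eis)) = 0 ∨
        V π ((X ^ 3 + x * Y ^ 3 : ℤ) : Eis) < V π ((Y : Eis) ^ 3 * ((ξ : Eis) ^ 3 - (x : Eis))) := by
      by_cases hz : (Y : Eis) ^ 3 * ((ξ : Eis) ^ 3 - (x : Eis)) = 0
      · exact Or.inl hz
      · right
        have := (fin hπ hz).le_multiplicity_of_pow_dvd (Dvd.dvd.mul_left hξ _)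
        exact hN.trans_le this
    rcases hne with hz | hlt
    · rw [hz, add_zero]
    · rw [add_comm]
      exact (fin hπ (cast_ne hn)).multiplicity_add_of_gt hlt
  have p01 := pair 0 1 (by simpa using hw1)
  have p02 := pair 0 2 (by simpa using hw2)
  have p12 := pair 1 2 (by
    intro h
    have e1 : w ^ 1 - w ^ 2 = w * (1 - w) := by ring
    rw [e1] at h
    exact (hπ.dvd_or_dvd h).elim hw0 hw1)
  have g0 := hge 0
  have g1 := hge 1
  have g2 := hge 2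
  rw [ZMod.natCast_eq_natCast_iff]
  unfold Nat.ModEq
  rw [← hsum] at hV
  by_cases c1 : m < V π (Lf X Y 1 ξ)
  · have c2 : ¬ m < V π (Lf X Y 2 ξ) := fun h => p12 c1 h
    have c0 : ¬ m < V π (Lf X Y 0 ξ) := fun h => p01 h c1
    omega
  · by_cases c2 : m < V π (Lf X Y 2 ξ)
    · have c0 : ¬ m < V π (Lf X Y 0 ξ) := fun h => p02 h c2
      omega
    · omega

end LEV

open LEV in
/-- LEV: the local evaluation. -/
theorem LEV_thm (hSTM : STM) (hSPP : SPP) (hSSL : SSL) (hSLC : SLC) (hSREC : SREC) (hSCJ : SCJ)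
    (hLCI : LCI) (hIF1 : IF1) (hIF2 : IF2) (hIF4 : IF4) (hIF4B : IF4B) (hAVV : AVV)
    (hF2B : F2B) (hF6R : F6R) (hF7U : F7U) (hF5L : F5L) (hF3R : F3R) (hF3U : F3U) : LEV := by
  intro v B b x p q p' q' X Y hB hb hx hS hP hC
  obtain ⟨e, hs⟩ : ∃ e, LSym (uni v) (sy v) e := by
    cases v with
    | none => exact ⟨4, hSLC⟩
    | some π => exact ⟨1, hSTM π.1 π.2.1 (hSPP.2.2.2.1 π).1⟩
  have hB0 := hB.ne
  have hb0 := hb.ne
  have hx0 := hx.ne
  have hBe := cast_ne hB0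
  have hbe := cast_ne hb0
  have hxe := cast_ne hx0
  obtain ⟨hn, c, hc, heq⟩ := rel hB0 hP
  have hrel := rel_sym hs hBe hxe (cast_ne hn) hc heq
  have hsBx : sy v (B : Eis) (x : Eis) = 0 := by
    cases v with
    | none => exact hSCJ.2.2.1 B x hB0 hx0
    | some π =>
      have h1 := hx.sym π
      have h2 := hs.skew (x : Eis) (B : Eis) hxe hBe
      rw [h2]
      change - tm π.1 (x : Eis) (B : Eis) = 0
      rw [h1, neg_zero]
  have hwprod : sy v w ((B * x * b : ℤ) : Eis) =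
      sy v w (B : Eis) + sy v w (x : Eis) + sy v w (b : Eis) := by
    push_cast
    rw [mul_right hs (mul_ne_zero hBe hxe) hbe w_ne, mul_right hs hBe hxe w_ne]
  by_cases hLb : LC (uni v) b
  · by_cases hLx : LC (uni v) x
    · -- both cubes
      obtain ⟨N1, h1⟩ := (hAVV v B b x p q p' q' hB0 hb0 hx0 hS.toSolW hsBx hLb).1
      obtain ⟨N2, h2⟩ := hIF1 (uni v) (sy v) e hs b x p q p' q' hb0 hx0 hS
      obtain ⟨N3, _, h3⟩ := SV_LC hs hLCI hIF4 hb0 hx0 hS hP.hX hP.hY hn hLx hrel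
      obtain ⟨r, hr⟩ := hLb (N1 + N2)
      obtain ⟨ξ, hξ⟩ := hLx (N2 + N3)
      have a1 := h1 r ((pow_dvd_pow _ (by omega)).trans hr)
      have a2 := h2 r ξ ((pow_dvd_pow _ (by omega)).trans hr)
        ((pow_dvd_pow _ (by omega)).trans hξ) (B : Eis) hBe
      obtain ⟨hF, a3⟩ := h3 ξ ((pow_dvd_pow _ (by omega)).trans hξ)
      rw [lc_right hs hLCI hb0 hLb (hF 1), lc_right hs hLCI hb0 hLb (hF 2)] at a3
      have a4 := lc_right hs hLCI hb0 hLb w_ne
      have a5 := lc_right hs hLCI hx0 hLx w_ne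
      unfold TT
      rw [if_pos hLb]
      unfold UV
      rw [hwprod, a3, a4, a5, ← a1]
      linear_combination a2
    · -- `b` is a cube, `x` is not
      obtain ⟨N1, h1⟩ := hF2B v B b x p q p' q' hB hb hx hS hLb hLx
      have a1 := (hAVV v B b x p q p' q' hB0 hb0 hx0 hS.toSolW hsBx hLb).2 _ N1 h1
      have a4 := lc_right hs hLCI hb0 hLb w_ne
      have a2 : SV (sy v) x p q p' q' X Y = 0 := by
        cases v with
        | none =>
          exact hF5L B b x p q p' q' X Y hB hb hx hS hP ((hLCI.2.1 b hb.three).1 hLb)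
            fun h => hLx ((hLCI.2.1 x hx.three).2 h)
        | some π =>
          change SV (tm π.1) x p q p' q' X Y = 0
          by_cases hVx : 3 ∣ V π.1 (x : Eis)
          · refine hF7U π b x p q p' q' X Y hb0 hx0 hS hP.hX hP.hY hVx fun h => hLx ?_
            exact (hLCI.1 π x hx0).2 ⟨hVx, h⟩
          · have h6 := hF6R π b x p q p' q' X Y hb0 hx0 hS hP.hX hP.hY hVx
            by_cases hVn : 3 ∣ V π.1 ((X ^ 3 + x * Y ^ 3 : ℤ) : Eis)
            · exact h6.1 hVn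
            · rw [h6.2 hVn]
              change - sy (some π) w (b : Eis) = 0
              rw [a4, neg_zero]
      unfold TT
      rw [if_pos hLb, a1, a2]
      unfold UV
      rw [hwprod, a4]
      ring
  · by_cases hLx : LC (uni v) x
    · -- `x` is a cube, `b` is not
      have a5 := lc_right hs hLCI hx0 hLx w_ne
      have hTT : TT v B b x p q p' q' = 0 := by
        unfold TT
        rw [if_neg hLb]
        cases v with
        | none => rfl
        | some π =>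
          dsimp only
          split_ifs with hcond
          · change - sy (some π) w (x : Eis) = 0
            rw [a5, neg_zero]
          · rfl
      obtain ⟨N1, h1⟩ := hF2B v B x b p (-p') (-q) q' hB hx hb (swap hS) hLx hLb
      obtain ⟨N3, hN3, h3⟩ := SV_LC hs hLCI hIF4 hb0 hx0 hS hP.hX hP.hY hn hLx hrel
      have hmain : ∃ N4 : ℕ, ∀ ξ : ℤ, uni v ^ N4 ∣ (ξ : Eis) ^ 3 - (x : Eis) →
          (∀ i, Lf X Y i ξ ≠ 0) →
          sy v (Lf X Y 1 ξ) (b : Eis) - sy v (Lf X Y 2 ξ) (b : Eis) = sy v w (b : Eis) := by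
        cases v with
        | none =>
          have hb9 : ¬ C9 b := fun h => hLb ((hLCI.2.1 b hb.three).2 h)
          obtain ⟨j, hj⟩ := none_prop hSLC hB0 hb.three hB.three hb9 fun h => hb9 (hb.nine h)
          exact prop_case hs hLCI hIF4B hb0 hx0 hP.hX hP.hY hn hLx hrel j hj
        | some π =>
          by_cases hLB : LC π.1 B
          · have hB' := (hLCI.1 π B hB0).1 hLB
            have hVB : V π.1 (B : Eis) = 0 := by
              have := hB.cf π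
              omega
            have hπB : ¬ π.1 ∣ (B : Eis) := V_eq_zero_iff.1 hVB
            have hπb := hb.unr π hπB
            have hπx := hx.unr π hπB
            have hVb : V π.1 (b : Eis) = 0 := V_eq_zero hπb
            have hVw : V π.1 w = 0 := V_eq_zero (not_dvd_w π.2.1)
            have hVn : 3 ∣ V π.1 ((X ^ 3 + x * Y ^ 3 : ℤ) : Eis) := by
              have h7 := congrArg (V π.1) heq
              rw [V_mul π.2.1 hxe (cast_ne hn), V_mul π.2.1 hBe (pow_ne_zero 3 hc),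
                V_pow π.2.1 hc, hVB, V_eq_zero hπx] at h7
              omega
            refine ⟨N3, fun ξ hξ hF => ?_⟩
            have h8 := val_case π.2.1 (hSPP.2.2.2.1 π).1 hP.hX hP.hY hn hπx hN3 hξ hF hVn
            change tm π.1 (Lf X Y 1 ξ) (b : Eis) - tm π.1 (Lf X Y 2 ξ) (b : Eis) =
              tm π.1 w (b : Eis)
            unfold tm
            rw [hVb, hVw, h8]
            push_cast
            ring
          · obtain ⟨j, hj⟩ := tame_prop (π := π.1) (b := b) (B := B)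
              (fun h => hLB ((hLCI.1 π B hB0).2 h)) (hb.sym π)
            exact prop_case hs hLCI hIF4B hb0 hx0 hP.hX hP.hY hn hLx hrel j hj
      obtain ⟨N4, h4⟩ := hmain
      obtain ⟨ξ, hξ⟩ := hLx (N1 + N3 + N4)
      obtain ⟨hF, a3⟩ := h3 ξ ((pow_dvd_pow _ (by omega)).trans hξ)
      have a1 := h1 ξ ((pow_dvd_pow _ (by omega)).trans hξ)
      have a6 := h4 ξ ((pow_dvd_pow _ (by omega)).trans hξ) hF
      rw [gf_swap, gf_swap] at a1
      rw [hTT, a3]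
      unfold UV
      rw [hwprod, a5]
      linear_combination a1 + a6
    · -- no cubes
      cases v with
      | none =>
        exfalso
        rcases hC with h | h
        · exact hLb ((hLCI.2.1 b hb.three).2 h)
        · exact hLx ((hLCI.2.1 x hx.three).2 h)
      | some π =>
        have hLb' : ¬ (3 ∣ V π.1 (b : Eis) ∧ ch π.1 (b : Eis) = 0) :=
          fun h => hLb ((hLCI.1 π b hb0).2 h)
        have hLx' : ¬ (3 ∣ V π.1 (x : Eis) ∧ ch π.1 (x : Eis) = 0) :=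
          fun h => hLx ((hLCI.1 π x hx0).2 h)
        unfold TT
        rw [if_neg hLb]
        dsimp only
        change _ = UV (tm π.1) B b x p q p' q' - SV (tm π.1) x p q p' q' X Y
        by_cases hπB : π.1 ∣ (B : Eis)
        · have hVB1 : V π.1 (B : Eis) ≠ 0 := fun h => (V_eq_zero_iff.1 h) hπB
          have hVB2 := hB.cf π
          have nd : ∀ t : ℤ, tm π.1 (t : Eis) (B : Eis) = 0 →
              ¬ (3 ∣ V π.1 (t : Eis) ∧ ch π.1 (t : Eis) = 0) → ¬ 3 ∣ V π.1 (t : Eis) := by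
            intro t ht hLt h3
            apply hLt
            refine ⟨h3, ?_⟩
            unfold tm at ht
            rw [cast3.2 h3, zero_mul, sub_zero] at ht
            have h9 : (V π.1 (B : Eis) : ZMod 3) ≠ 0 := by
              rw [Ne, cast3]
              omega
            have : ∀ u y : ZMod 3, u ≠ 0 → u * y = 0 → y = 0 := by decide
            exact this _ _ h9 ht
          have hVb := nd b (hb.sym π) hLb'
          have hVx := nd x (hx.sym π) hLx'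
          rw [hF3R π B b x p q p' q' hB hb hx hS hπB hVb hVx]
          have h6 := hF6R π b x p q p' q' X Y hb0 hx0 hS hP.hX hP.hY hVx
          have h7 := congrArg (V π.1) heq
          rw [V_mul π.2.1 hxe (cast_ne hn), V_mul π.2.1 hBe (pow_ne_zero 3 hc),
            V_pow π.2.1 hc] at h7
          have hSV : SV (tm π.1) x p q p' q' X Y =
              if 3 ∣ V π.1 (x : Eis) + V π.1 (B : Eis) then - tm π.1 w (b : Eis) else 0 := by
            split_ifs with hcond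
            · exact h6.2 (by omega)
            · refine h6.1 ?_
              have c1 : V π.1 (x : Eis) % 3 = 1 ∨ V π.1 (x : Eis) % 3 = 2 := by omega
              have c2 : V π.1 (B : Eis) = 1 ∨ V π.1 (B : Eis) = 2 := by omega
              rcases c1 with c1 | c1 <;> rcases c2 with c2 | c2 <;> omega
          rw [hSV]
          by_cases hcond : 3 ∣ V π.1 (b : Eis) + V π.1 (B : Eis)
          · rw [if_pos ⟨hcond, hVb⟩, if_pos hcond]
            ring
          · rw [if_neg (fun h => hcond h.1), if_neg hcond]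
            ring
        · have hπb := hb.unr π hπB
          have hπx := hx.unr π hπB
          have hVb : V π.1 (b : Eis) = 0 := V_eq_zero hπb
          have hVx : V π.1 (x : Eis) = 0 := V_eq_zero hπx
          have hcb : ch π.1 (b : Eis) ≠ 0 := fun h => hLb' ⟨by rw [hVb]; exact dvd_zero _, h⟩
          have hcx : ch π.1 (x : Eis) ≠ 0 := fun h => hLx' ⟨by rw [hVx]; exact dvd_zero _, h⟩
          rw [hF3U π B b x p q p' q' hB hb hx hS hπB hcb hcx,
            hF7U π b x p q p' q' X Y hb0 hx0 hS hP.hX hP.hY (by rw [hVx]; exact dvd_zero _) hcx,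
            if_neg (fun h => h.2 (by rw [hVb]; exact dvd_zero _))]
          ring

end Pool.Agent.PT
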