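import Pool.Agent.PT.Stmts1

/-!
# Prime twists of rank zero: finiteness of the supports
-/

set_option autoImplicit false

namespace Pool.Agent.PT

open Pool.Agent.Lib_helper18 Pool.Agent.Lib_helper18.Eis Pool.Agent.Lib_helper84.Cub

namespace LFIN

/-- Finite support and sum zero. -/
def FZ (f : Pl → ZMod 3) : Prop := (Function.support f).Finite ∧ ∑ᶠ v : Pl, f v = 0

lemma FZ.add {f g : Pl → ZMod 3} (hf : FZ f) (hg : FZ g) : FZ (fun v => f v + g v) := by
  refine ⟨(hf.1.union hg.1).subset (Function.support_add f g), ?_⟩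
  rw [finsum_add_distrib hf.1 hg.1, hf.2, hg.2, add_zero]

lemma FZ.sub {f g : Pl → ZMod 3} (hf : FZ f) (hg : FZ g) : FZ (fun v => f v - g v) := by
  refine ⟨(hf.1.union hg.1).subset (Function.support_sub f g), ?_⟩
  rw [finsum_sub_distrib hf.1 hg.1, hf.2, hg.2, sub_zero]

lemma cast_ne {n : ℤ} (h : n ≠ 0) : ((n : ℤ) : Eis) ≠ 0 := by
  intro h1
  apply h
  have h2 := congrArg Eis.re h1
  simpa using h2

lemma w_ne : w ≠ 0 := by
  intro h
  have h2 := congrArg Eis.im h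
  simp at h2

lemma w_unit : IsUnit w := by
  refine IsUnit.of_mul_eq_one (w ^ 2) ?_
  rw [← w_cube]
  ring

/-- `g + w^i h ≠ 0` -/
lemma lin_ne {g h : ℤ} (hne : g ≠ 0 ∨ h ≠ 0) (i : ℕ) (hi : i = 1 ∨ i = 2) :
    (g : Eis) + w ^ i * (h : Eis) ≠ 0 := by
  intro h0
  have h1 := congrArg Eis.re h0
  have h2 := congrArg Eis.im h0
  rcases hi with rfl | rfl
  · rw [pow_one] at h1 h2
    simp at h1 h2
    rcases hne with h3 | h3
    · exact h3 h1
    · exact h3 h2
  · rw [w_sq] at h1 h2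
    simp at h1 h2
    rcases hne with h3 | h3
    · apply h3
      rw [h2] at h1
      simpa using h1
    · exact h3 h2

lemma Gf_ne {b x p q p' q' : ℤ} (h : Sol b x p q p' q') (i : ℕ) (hi : i = 1 ∨ i = 2) :
    Gf p q p' q' i ≠ 0 := by
  have e : Gf p q p' q' i = ((q * p' : ℤ) : Eis) + w ^ i * ((-(p * q') : ℤ) : Eis) := by
    unfold Gf
    push_cast
    ring
  rw [e]
  apply lin_ne _ i hi
  by_contra hcon
  push Not at hcon
  obtain ⟨h1, h2⟩ := hcon
  have h2' : p * q' = 0 := by linarith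
  rcases mul_eq_zero.1 h1 with h3 | h3
  · rcases mul_eq_zero.1 h2' with h4 | h4
    · apply h.n1
      rw [h3, h4]
      ring
    · apply h.n2
      have h5 := h.eq
      rw [h3, h4] at h5
      linarith
  · rcases mul_eq_zero.1 h2' with h4 | h4
    · apply h.n2
      rw [h3, h4]
      ring
    · apply h.n1
      rw [h.eq, h3, h4]
      ring

lemma N''_ne {b x p q p' q' : ℤ} (h : Sol b x p q p' q') : x * q' ^ 3 - q ^ 3 ≠ 0 := by
  intro h1
  apply h.n2
  have h2 := h.eq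
  have h3 : p ^ 3 - x * p' ^ 3 = b * (x * q' ^ 3 - q ^ 3) := by linarith
  rw [h3, h1, mul_zero]

lemma Df_ne {X Y u v : ℤ} (hX : X ≠ 0) (hY : Y ≠ 0) (h : u ≠ 0 ∨ v ≠ 0) (i : ℕ)
    (hi : i = 1 ∨ i = 2) : Df X Y u v i ≠ 0 := by
  have e : Df X Y u v i = ((X * u : ℤ) : Eis) + w ^ i * ((v * Y : ℤ) : Eis) := by
    unfold Df
    push_cast
    ring
  rw [e]
  apply lin_ne _ i hi
  rcases h with h | h
  · exact Or.inl (mul_ne_zero hX h)
  · exact Or.inr (mul_ne_zero h hY)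

/-- The linear forms at good approximations are prime to `π`. -/
lemma Lf_not_dvd {π : Eis} {b p q r : ℤ} (hr : π ∣ (r : Eis) ^ 3 - (b : Eis))
    (h : ¬ π ∣ ((p ^ 3 + b * q ^ 3 : ℤ) : Eis)) (i : ℕ) : ¬ π ∣ Lf p q i r := by
  intro hd
  apply h
  have h1 : ((p ^ 3 + b * q ^ 3 : ℤ) : Eis) =
      Lf p q i r * ((p : Eis) ^ 2 - p * (q * w ^ i * r) + (q * w ^ i * r) ^ 2) -
        (q : Eis) ^ 3 * ((r : Eis) ^ 3 - (b : Eis)) := by
    have h2 : (w ^ i) ^ 3 = 1 := by rw [← pow_mul, mul_comm, pow_mul, w_cube, one_pow]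
    unfold Lf
    push_cast
    linear_combination (-((q : Eis) ^ 3 * (r : Eis) ^ 3)) * h2
  rw [h1]
  exact dvd_sub (dvd_mul_of_dvd_left hd _) (dvd_mul_of_dvd_right hr _)

lemma tm_zero {π a b : Eis} (ha : ¬ π ∣ a) (hb : ¬ π ∣ b) : tm π a b = 0 := by
  unfold tm
  rw [V_eq_zero ha, V_eq_zero hb]
  simp

end LFIN

open LFIN in
/-- LFIN: finiteness of the supports. -/
theorem LFIN_thm (hSTM : STM) (hSPP : SPP) (hSSL : SSL) (_hSLC : SLC) (_hLCI : LCI)
    (hAVV : AVV) : LFIN := by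
  have key : ∀ a b : Eis, a ≠ 0 → b ≠ 0 → FZ (fun v : Pl => sy v a b) :=
    fun a b ha hb => hSSL.2.2.2 a b ha hb
  refine ⟨?_, ?_, ?_⟩
  · intro B b x p q p' q' hB hb hx hs
    have hn2 : p' ^ 3 + b * q' ^ 3 ≠ 0 := by
      intro h
      apply hs.n1
      rw [hs.eq, h, mul_zero]
    set M : ℤ := B * b * x * (p ^ 3 + b * q ^ 3) * (p' ^ 3 + b * q' ^ 3) with hMdef
    have hM : M ≠ 0 := mul_ne_zero (mul_ne_zero (mul_ne_zero (mul_ne_zero hB.ne hb.ne) hx.ne)
      hs.n1) hn2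
    have hfin := hSPP.2.2.1 (M : Eis) (cast_ne hM)
    refine ((hfin.image some).union (Set.finite_singleton none)).subset ?_
    intro v hv
    rcases v with _ | π
    · right
      rfl
    · left
      refine ⟨π, ?_, rfl⟩
      by_contra hnd
      apply hv
      have hd : ∀ n : ℤ, n ∣ M → ¬ π.1 ∣ ((n : ℤ) : Eis) := by
        intro n hn h1
        apply hnd
        obtain ⟨c, hc⟩ := hn
        show π.1 ∣ (M : Eis)
        rw [hc]
        push_cast
        exact dvd_mul_of_dvd_left h1 _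
      have hnB := hd B ⟨b * x * (p ^ 3 + b * q ^ 3) * (p' ^ 3 + b * q' ^ 3), by rw [hMdef]; ring⟩
      have hnb := hd b ⟨B * x * (p ^ 3 + b * q ^ 3) * (p' ^ 3 + b * q' ^ 3), by rw [hMdef]; ring⟩
      have hnx := hd x ⟨B * b * (p ^ 3 + b * q ^ 3) * (p' ^ 3 + b * q' ^ 3), by rw [hMdef]; ring⟩
      have hn1 := hd (p ^ 3 + b * q ^ 3) ⟨B * b * x * (p' ^ 3 + b * q' ^ 3), by rw [hMdef]; ring⟩
      have hn2 := hd (p' ^ 3 + b * q' ^ 3) ⟨B * b * x * (p ^ 3 + b * q ^ 3), by rw [hMdef]; ring⟩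
      have hnw : ¬ π.1 ∣ w := fun h1 => π.2.1.not_isUnit (isUnit_of_dvd_unit h1 w_unit)
      show TT (some π) B b x p q p' q' = 0
      by_cases hLC : LC (uni (some π)) b
      · have hTT : TT (some π) B b x p q p' q' =
            AV (some π) B b p q p' q' + sy (some π) w (x : Eis) := by
          unfold TT
          rw [if_pos hLC]
        rw [hTT]
        have hw : sy (some π) w (x : Eis) = 0 := tm_zero hnw hnx
        have hsym : sy (some π) (B : Eis) (x : Eis) = 0 := by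
          have h1 := (hSTM π.1 π.2.1 (hSPP.2.2.2.1 π).1).skew (x : Eis) (B : Eis)
            (cast_ne hx.ne) (cast_ne hB.ne)
          show tm π.1 (B : Eis) (x : Eis) = 0
          rw [h1, hx.sym π, neg_zero]
        obtain ⟨N0, hN0⟩ := (hAVV (some π) B b x p q p' q' hB.ne hb.ne hx.ne hs hsym hLC).1
        obtain ⟨r, hr⟩ := hLC (max N0 1)
        have hr0 : uni (some π) ^ N0 ∣ (r : Eis) ^ 3 - (b : Eis) :=
          (pow_dvd_pow _ (le_max_left _ _)).trans hr
        have hr1 : π.1 ∣ (r : Eis) ^ 3 - (b : Eis) := by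
          have h1 : π.1 ^ 1 ∣ (r : Eis) ^ 3 - (b : Eis) :=
            (pow_dvd_pow π.1 (le_max_right N0 1)).trans hr
          rwa [pow_one] at h1
        rw [hw, ← hN0 r hr0]
        show tm π.1 (B : Eis) (Lf p q 2 r) + tm π.1 (B : Eis) (Lf p' q' 1 r) -
          tm π.1 (B : Eis) (Lf p q 1 r) - tm π.1 (B : Eis) (Lf p' q' 2 r) + 0 = 0
        rw [tm_zero hnB (Lf_not_dvd hr1 hn1 2), tm_zero hnB (Lf_not_dvd hr1 hn2 1),
          tm_zero hnB (Lf_not_dvd hr1 hn1 1), tm_zero hnB (Lf_not_dvd hr1 hn2 2)]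
        simp
      · unfold TT
        rw [if_neg hLC]
        show (if 3 ∣ V π.1 (b : Eis) + V π.1 (B : Eis) ∧ ¬ 3 ∣ V π.1 (b : Eis)
          then - tm π.1 w (x : Eis) else 0) = 0
        rw [if_neg]
        rintro ⟨-, h1⟩
        apply h1
        rw [V_eq_zero hnb]
        exact dvd_zero 3
  · intro B b x p q p' q' hB hb hx hs
    have hBbx : B * x * b ≠ 0 := mul_ne_zero (mul_ne_zero hB hx) hb
    exact ((key _ _ (cast_ne hB) (Gf_ne hs 1 (Or.inl rfl))).sub
      (key _ _ (cast_ne hB) (Gf_ne hs 2 (Or.inr rfl)))).add (key _ _ w_ne (cast_ne hBbx))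
  · intro b x p q p' q' X Y hb hx hs hX hY hn
    have hpp : p' ≠ 0 ∨ p ≠ 0 := by
      by_contra hcon
      push Not at hcon
      apply hs.n2
      rw [hcon.1, hcon.2]
      ring
    have hqq : q' ≠ 0 ∨ q ≠ 0 := by
      by_contra hcon
      push Not at hcon
      apply N''_ne hs
      rw [hcon.1, hcon.2]
      ring
    have hN1 := cast_ne hs.n2
    have hN2 := cast_ne (N''_ne hs)
    have hN0 := cast_ne hn
    have d1 := Df_ne hX hY hpp 1 (Or.inl rfl)
    have d2 := Df_ne hX hY hpp 2 (Or.inr rfl)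
    have e1 := Df_ne hX hY hqq 1 (Or.inl rfl)
    have e2 := Df_ne hX hY hqq 2 (Or.inr rfl)
    exact ((((key _ _ d1 hN1).sub (key _ _ d2 hN1)).sub (key _ _ d1 hN0)).add
      (key _ _ d2 hN0)).sub ((((key _ _ e1 hN2).sub (key _ _ e2 hN2)).sub
      (key _ _ e1 hN0)).add (key _ _ e2 hN0))

end Pool.Agent.PT
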