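import Pool.Agent.PT.Stmts4

/-!
# PT, module MAINT
-/

set_option autoImplicit false

namespace Pool.Agent.PT

open Pool.Agent.Lib_helper18 Pool.Agent.Lib_helper18.Eis Pool.Agent.Lib_helper84.Cub

namespace MAINT

/-- multiplying by the cube of a nonzero integer does not change being a sum of two cubes -/
theorem sum_cubes_iff {n t : ℕ} (ht : 0 < t) (q : ℕ) :
    (∃ X Y : ℚ, X ^ 3 + Y ^ 3 = (n : ℚ) * q) ↔
      ∃ X Y : ℚ, X ^ 3 + Y ^ 3 = ((n * t ^ 3 : ℕ) : ℚ) * q := by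
  have ht' : (t : ℚ) ≠ 0 := by exact_mod_cast ht.ne'
  constructor
  · rintro ⟨X, Y, h⟩
    refine ⟨X * t, Y * t, ?_⟩
    push_cast
    linear_combination (t : ℚ) ^ 3 * h
  · rintro ⟨X, Y, h⟩
    refine ⟨X / t, Y / t, ?_⟩
    push_cast at h
    field_simp
    linear_combination h

end MAINT

/-- The theorem: from the normal form to all `n`. -/
theorem MAINT_thm (hENF : ENF) (hFINA : FINA) : MAINT := by
  intro N hN h3 hyp
  obtain ⟨n, t, π, p, e, r, f, hn, ht, hNn, hNF, hl⟩ := hENF N hN h3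
  have hyp' : Even (Nat.card {p : ℕ // p.Prime ∧ p % 3 = 2 ∧ ¬ 3 ∣ N.factorization p}) ∨
      ∃ j, r j % 9 = 2 ∨ r j % 9 = 5 := by
    rcases hyp with h | ⟨l, hlp, hl9, hl3⟩
    · exact Or.inl h
    · obtain ⟨j, hj⟩ := hl l hlp hl3 (by omega)
      exact Or.inr ⟨j, by rw [hj]; exact hl9⟩
  obtain ⟨C, hC⟩ := hFINA n _ _ π p e r f hNF hyp'
  refine ⟨C, fun s hs1 hs2 => ?_⟩
  have hset : {q : ℕ | ¬ ∃ X Y : ℚ, X ^ 3 + Y ^ 3 = (n : ℚ) * q} =
      {q : ℕ | ¬ ∃ X Y : ℚ, X ^ 3 + Y ^ 3 = (N : ℚ) * q} := by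
    ext q
    simp only [Set.mem_setOf_eq]
    rw [hNn, MAINT.sum_cubes_iff ht q]
  have := hC s hs1 hs2
  rw [hset] at this
  exact this

end Pool.Agent.PT
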