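import Pool.Agent.PT.Stmts3
import Pool.Agent.RI.FROBD
import Pool.Agent.RI.PDGE
import Pool.Agent.Lib_helper18.GaussG

/-!
# Primes with prescribed cubic residue symbols up to a common factor
-/

open NumberField
open scoped Pointwise

namespace Pool.Agent.PT

open Pool.Agent.Lib_helper18 Pool.Agent.Lib_helper18.Eis Pool.Agent.Lib_helper84.Cub

namespace NAUX

/-! ### A set of primes of positive density is infinite -/

theorem exists_large {S : Set ℕ} {δ : ℝ} (hδ : 0 < δ) (h : RI.DensityGE S δ) (M : ℕ) :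
    ∃ q : ℕ, q.Prime ∧ q ∈ S ∧ M < q := by
  by_contra hcon
  push Not at hcon
  have h1 : RI.DensityGE ∅ δ := by
    refine RI.PDGE_thm S ∅ (Finset.range (M + 1)) δ h ?_
    intro q hq hp hA
    exact absurd (Finset.mem_range.2 (Nat.lt_succ_of_le (hcon q hp hq))) hA
  obtain ⟨C, hC⟩ := h1
  have hx : 0 ≤ (|C| + 1) / δ := by positivity
  have he : Real.exp (-((|C| + 1) / δ)) ≤ 1 := Real.exp_le_one_iff.2 (by linarith)
  have h2 := hC (1 + Real.exp (-((|C| + 1) / δ))) (by linarith [Real.exp_pos (-((|C| + 1) / δ))])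
    (by linarith)
  have h3 : Real.log (1 / (1 + Real.exp (-((|C| + 1) / δ)) - 1)) = (|C| + 1) / δ := by
    rw [add_sub_cancel_left, one_div, ← Real.exp_neg, neg_neg, Real.log_exp]
  have h4 : IsEmpty {q : ℕ // q.Prime ∧ q ∈ (∅ : Set ℕ)} := ⟨fun q => q.2.2⟩
  rw [h3, tsum_empty, mul_div_cancel₀ _ hδ.ne'] at h2
  linarith [le_abs_self C]

/-! ### The field -/

theorem hom_injective {R : Type*} [Field R] [CharZero R] (φ : Eis →+* R) :
    Function.Injective φ := by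
  rw [injective_iff_map_eq_zero]
  intro x hx
  have h1 : φ (x * conj x) = 0 := by rw [map_mul, hx, zero_mul]
  rw [mul_conj, map_intCast] at h1
  exact norm_eq_zero.1 (by exact_mod_cast h1)

/-- an algebraic closure of `ℚ` -/
abbrev Ω : Type := AlgebraicClosure ℚ

theorem isAlgebraic_Ω : Algebra.IsAlgebraic ℚ Ω := by
  have e : (AlgebraicClosure.instAlgebra ℚ : Algebra ℚ Ω) = DivisionRing.toRatAlgebra :=
    Subsingleton.elim _ _
  exact e ▸ (AlgebraicClosure.isAlgebraic ℚ)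

theorem exists_field (t : ℕ) (a : Fin t → Eis) :
    ∃ (L : Type) (_ : Field L) (_ : NumberField L) (_ : IsGalois ℚ L) (ι : Eis →+* L)
      (A : Fin t → L), ∀ i, A i ^ 3 = ι (a i) := by
  classical
  have hint := isAlgebraic_Ω
  have hcl : IsAlgClosure ℚ Ω := ⟨inferInstance, inferInstance⟩
  have hnorm : Normal ℚ Ω := IsAlgClosure.normal ℚ Ω
  obtain ⟨ω, hω⟩ : ∃ ω : Ω, ω ^ 2 + ω + 1 = 0 := by
    have hd : (Polynomial.X ^ 2 + Polynomial.X + 1 : Polynomial Ω).degree ≠ 0 := by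
      have : (Polynomial.X ^ 2 + Polynomial.X + 1 : Polynomial Ω).degree = 2 := by
        compute_degree!
      rw [this]
      norm_num
    obtain ⟨ω, hω⟩ := IsAlgClosed.exists_root _ hd
    exact ⟨ω, by simpa [Polynomial.IsRoot] using hω⟩
  obtain ⟨ι₀, hι₀⟩ : ∃ ι₀ : Eis →+* Ω, ι₀ = lift ω hω := ⟨_, rfl⟩
  have hA : ∀ i, ∃ x : Ω, x ^ 3 = ι₀ (a i) := fun i =>
    IsAlgClosed.exists_pow_nat_eq _ (by norm_num)
  choose A₀ hA₀ using hA
  let K : IntermediateField ℚ Ω := IntermediateField.adjoin ℚ (insert ω (Set.range A₀))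
  have hK : FiniteDimensional ℚ K :=
    IntermediateField.finiteDimensional_adjoin fun x _ => Algebra.IsIntegral.isIntegral x
  let L : IntermediateField ℚ Ω := IntermediateField.normalClosure ℚ K Ω
  have hKL : K ≤ L := IntermediateField.le_normalClosure K
  have hfin : FiniteDimensional ℚ L := inferInstance
  have hnf : NumberField L := ⟨⟩
  have hnL : Normal ℚ L := normalClosure.normal ℚ K Ω
  have hgal : IsGalois ℚ L := ⟨⟩
  have hωL : ω ∈ L := hKL (IntermediateField.subset_adjoin _ _ (Set.mem_insert _ _))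
  have hAL : ∀ i, A₀ i ∈ L := fun i =>
    hKL (IntermediateField.subset_adjoin _ _ (Set.mem_insert_of_mem _ ⟨i, rfl⟩))
  refine ⟨L, inferInstance, hnf, hgal, lift (⟨ω, hωL⟩ : L) (Subtype.ext (by
    push_cast
    exact hω)), fun i => ⟨A₀ i, hAL i⟩, ?_⟩
  intro i
  apply Subtype.ext
  have h1 := hA₀ i
  rw [hι₀, lift_apply] at h1
  rw [lift_apply]
  push_cast
  exact h1

/-! ### The automorphism -/

theorem exists_aut (hSPP : SPP) (hKUM : KUM) {t : ℕ} (π : Fin t → PP)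
    (hπ : Function.Injective π) (L : Type) [Field L] [NumberField L] [IsGalois ℚ L]
    (ι : Eis →+* L) (A : Fin t → L) (hA : ∀ i, A i ^ 3 = ι (π i).1) (r : Fin t → ZMod 3) :
    ∃ g : L ≃ₐ[ℚ] L, g (ι w) = ι w ∧ ∀ i, g (A i) = ι w ^ (r i).val * A i := by
  have hinj := hom_injective ι
  have hcz : CharZero Eis := ⟨fun m n h => by
    have := congrArg Eis.re h
    simpa using this⟩
  let F := FractionRing Eis
  have hczF : CharZero F := charZero_of_injective_algebraMap (IsFractionRing.injective Eis F)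
  letI : Algebra F L := (IsFractionRing.lift hinj : F →+* L).toAlgebra
  have halg : ∀ x : Eis, algebraMap F L (algebraMap Eis F x) = ι x := fun x =>
    IsFractionRing.lift_algebraMap hinj x
  have htow : IsScalarTower ℚ F L := IsScalarTower.of_algebraMap_eq' (RingHom.ext_rat _ _)
  have hfin : FiniteDimensional F L := Module.Finite.of_restrictScalars_finite ℚ F L
  have hgal : IsGalois F L := IsGalois.tower_top_of_isGalois ℚ F L
  have hnd : ∀ i j, i ≠ j → ¬ (π j).1 ∣ (π i).1 := by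
    intro i j hij h
    apply hij
    apply hπ
    exact (hSPP.2.1 (π j) (π i) ((π j).2.1.associated_of_dvd (π i).2.1 h)).symm
  obtain ⟨g, hg⟩ := hKUM F L (algebraMap Eis F w) (Fin t) (fun i => algebraMap Eis F (π i).1) A
    (by rw [← map_pow, ← map_add, ← map_one (algebraMap Eis F), ← map_add, w_rel, map_zero])
    (fun i h => (π i).2.1.ne_zero ((IsFractionRing.injective Eis F) (by rw [h, map_zero])))
    (fun i => by rw [halg, hA]) (by
      rintro n ⟨b, hb⟩ j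
      obtain ⟨u, v, hv, rfl⟩ := IsFractionRing.div_surjective (A := Eis) b
      have hv0 : v ≠ 0 := nonZeroDivisors.ne_zero hv
      have hvF : algebraMap Eis F v ≠ 0 := fun h => hv0
        ((IsFractionRing.injective Eis F) (by rw [h, map_zero]))
      have h1 : (∏ i, (π i).1 ^ n i) * v ^ 3 = u ^ 3 := by
        apply IsFractionRing.injective Eis F
        rw [map_mul, map_prod, map_pow, map_pow]
        simp only [map_pow]
        rw [hb, div_pow, div_mul_cancel₀ _ (pow_ne_zero _ hvF)]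
      have hj := (π j).2.1
      have hrest : ¬ (π j).1 ∣ ∏ i ∈ Finset.univ.erase j, (π i).1 ^ n i := by
        intro h
        obtain ⟨i, hi, h2⟩ := hj.exists_mem_finset_dvd h
        exact hnd i j (Finset.ne_of_mem_erase hi) (hj.dvd_of_dvd_pow h2)
      have hrest0 : ∏ i ∈ Finset.univ.erase j, (π i).1 ^ n i ≠ 0 := fun h => hrest (h ▸ dvd_zero _)
      have hprod : ∏ i, (π i).1 ^ n i = (π j).1 ^ n j * ∏ i ∈ Finset.univ.erase j, (π i).1 ^ n i :=
        (Finset.mul_prod_erase _ _ (Finset.mem_univ j)).symm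
      have hu0 : u ≠ 0 := by
        rintro rfl
        rw [zero_pow (by norm_num), hprod] at h1
        exact mul_ne_zero (mul_ne_zero (pow_ne_zero _ hj.ne_zero) hrest0) (pow_ne_zero _ hv0) h1
      have h2 := congrArg (V (π j).1) h1
      rw [V_mul hj (by rw [hprod]; exact mul_ne_zero (pow_ne_zero _ hj.ne_zero) hrest0)
        (pow_ne_zero _ hv0), V_pow hj hv0, V_pow hj hu0, hprod,
        V_mul hj (pow_ne_zero _ hj.ne_zero) hrest0, V_pow hj hj.ne_zero, V_self,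
        V_eq_zero hrest] at h2
      omega) r
  refine ⟨g.restrictScalars ℚ, ?_, ?_⟩
  · show g (ι w) = ι w
    rw [← halg, AlgEquiv.commutes]
  · intro i
    show g (A i) = _
    rw [hg, halg]

/-! ### The residue field -/

section Local

variable {L : Type} [Field L] [NumberField L]

theorem ne_bot {q : ℕ} (hq : q.Prime) (P : Ideal (𝓞 L)) (hqP : (q : 𝓞 L) ∈ P) : P ≠ ⊥ := by
  rintro rfl
  rw [Ideal.mem_bot] at hqP
  exact hq.ne_zero (by exact_mod_cast hqP)

theorem finite_quot {q : ℕ} (hq : q.Prime) (P : Ideal (𝓞 L)) (hqP : (q : 𝓞 L) ∈ P) :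
    Finite (𝓞 L ⧸ P) := Ideal.finiteQuotientOfFreeOfNeBot P (ne_bot hq P hqP)

theorem card_quot {q : ℕ} (hq : q.Prime) (P : Ideal (𝓞 L)) [P.IsPrime] (hqP : (q : 𝓞 L) ∈ P) :
    Nat.card (ℤ ⧸ P.under ℤ) = q := by
  have h1 : P.under ℤ = Ideal.span {(q : ℤ)} := by
    symm
    have hmax : (Ideal.span {(q : ℤ)}).IsMaximal :=
      PrincipalIdealRing.isMaximal_of_irreducible (Nat.prime_iff_prime_int.1 hq).irreducible
    refine hmax.eq_of_le (Ideal.IsPrime.ne_top inferInstance) ?_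
    rw [Ideal.span_singleton_le_iff_mem, Ideal.mem_comap]
    simpa using hqP
  rw [h1, Nat.card_congr (Int.quotientSpanNatEquivZMod q).toEquiv, Nat.card_zmod]

theorem exists_frob [IsGalois ℚ L] {q : ℕ} (hq : q.Prime) (P : Ideal (𝓞 L)) [P.IsPrime]
    (hqP : (q : 𝓞 L) ∈ P) (g : L ≃ₐ[ℚ] L)
    (hst : MulAction.stabilizer (L ≃ₐ[ℚ] L) P = Subgroup.zpowers g) :
    ∃ k : ℕ, ∀ x : 𝓞 L, (g ^ k) • x - x ^ q ∈ P := by
  have := finite_quot hq P hqP
  obtain ⟨σ, hσ⟩ := IsArithFrobAt.exists_of_isInvariant ℤ (L ≃ₐ[ℚ] L) P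
  have hσs := hσ.mem_stabilizer
  rw [hst, ← mem_powers_iff_mem_zpowers] at hσs
  obtain ⟨k, rfl⟩ := hσs
  refine ⟨k, fun x => ?_⟩
  have h := hσ x
  rw [card_quot hq P hqP] at h
  exact h

theorem frob_pow_apply (K M : Type) [Field K] [Fintype K] [Field M] [Finite M] [Algebra K M]
    (n : ℕ) (y : M) : (FiniteField.frobeniusAlgEquivOfAlgebraic K M ^ n) y =
      y ^ (Fintype.card K ^ n) := by
  induction n generalizing y with
  | zero => simp
  | succ n ih =>
    rw [pow_succ, AlgEquiv.mul_apply, ih, FiniteField.coe_frobeniusAlgEquivOfAlgebraic]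
    show (y ^ Fintype.card K) ^ (Fintype.card K ^ n) = _
    rw [← pow_mul, pow_succ']

theorem exists_pow [IsGalois ℚ L] {q : ℕ} (hq : q.Prime) (P : Ideal (𝓞 L)) [hP : P.IsPrime]
    (hqP : (q : 𝓞 L) ∈ P) (g : L ≃ₐ[ℚ] L) (hg : g ∈ MulAction.stabilizer (L ≃ₐ[ℚ] L) P) :
    ∃ j : ℕ, ∀ x : 𝓞 L, g • x - x ^ (q ^ j) ∈ P := by
  have hfin := finite_quot hq P hqP
  have hmax : P.IsMaximal := hP.isMaximal (ne_bot hq P hqP)
  letI : Field (𝓞 L ⧸ P) := Ideal.Quotient.field P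
  have hfact := Fact.mk hq
  have hchar : CharP (𝓞 L ⧸ P) q := by
    refine (CharP.charP_iff_prime_eq_zero hq).2 ?_
    have : (Ideal.Quotient.mk P) (q : 𝓞 L) = 0 := Ideal.Quotient.eq_zero_iff_mem.2 hqP
    simpa using this
  letI : Algebra (ZMod q) (𝓞 L ⧸ P) := ZMod.algebra _ q
  let e : (𝓞 L ⧸ P) ≃+* (𝓞 L ⧸ P) := Ideal.quotientEquiv P P
    (MulSemiringAction.toRingEquiv (L ≃ₐ[ℚ] L) (𝓞 L) g) (by
      rw [MulAction.mem_stabilizer_iff] at hg
      conv_lhs => rw [← hg]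
      rfl)
  let e' : (𝓞 L ⧸ P) ≃ₐ[ZMod q] (𝓞 L ⧸ P) := AlgEquiv.ofRingEquiv (f := e) (fun r =>
    RingHom.congr_fun (Subsingleton.elim ((e : (𝓞 L ⧸ P) →+* (𝓞 L ⧸ P)).comp
      (algebraMap (ZMod q) (𝓞 L ⧸ P))) (algebraMap (ZMod q) (𝓞 L ⧸ P))) r)
  obtain ⟨n, hn⟩ := (FiniteField.bijective_frobeniusAlgEquivOfAlgebraic_pow (ZMod q)
    (𝓞 L ⧸ P)).2 e'
  refine ⟨n, fun x => ?_⟩
  have h1 := DFunLike.congr_fun hn (Ideal.Quotient.mk P x)
  simp only at h1
  rw [frob_pow_apply, ZMod.card] at h1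
  rw [← Ideal.Quotient.eq, map_pow, h1]
  rfl

theorem pow_apply (g : L ≃ₐ[ℚ] L) {ω a : L} {m : ℕ} (hω : g ω = ω) (ha : g a = ω ^ m * a)
    (k : ℕ) : (g ^ k) a = ω ^ (m * k) * a := by
  induction k with
  | zero => simp
  | succ k ih =>
    rw [pow_succ', AlgEquiv.mul_apply, ih, map_mul, map_pow, hω, ha]
    ring

theorem coe_smul (g : L ≃ₐ[ℚ] L) (x : 𝓞 L) :
    algebraMap (𝓞 L) L (g • x) = g (algebraMap (𝓞 L) L x) := rfl

theorem inj_O {x y : 𝓞 L} (h : algebraMap (𝓞 L) L x = algebraMap (𝓞 L) L y) : x = y :=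
  FaithfulSMul.algebraMap_injective (𝓞 L) L h

theorem local_main [IsGalois ℚ L] (hSPP : SPP) {t : ℕ} (π : Fin t → PP) (ι : Eis →+* L)
    (A : Fin t → L) (hA : ∀ i, A i ^ 3 = ι (π i).1) (r : Fin t → ZMod 3) (g : L ≃ₐ[ℚ] L)
    (hgw : g (ι w) = ι w) (hgA : ∀ i, g (A i) = ι w ^ (r i).val * A i) {q : ℕ} (hq : q.Prime)
    (hq3 : 3 < q) (hbig : ∀ i, N (π i).1 < q) (P : Ideal (𝓞 L)) (hP : P.IsPrime)
    (hqP : (q : 𝓞 L) ∈ P)
    (hst : MulAction.stabilizer (L ≃ₐ[ℚ] L) P = Subgroup.zpowers g) :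
    ∃ ρ : PP, N ρ.1 = q ∧ ∃ k c : ZMod 3, ∀ i,
      sym ρ.1 (π i).1 = k * r i ∧ r i = c * sym ρ.1 (π i).1 := by
  have hmax : P.IsMaximal := hP.isMaximal (ne_bot hq P hqP)
  letI : Field (𝓞 L ⧸ P) := Ideal.Quotient.field P
  obtain ⟨k, hk⟩ := exists_frob hq P hqP g hst
  obtain ⟨j, hj⟩ := exists_pow hq P hqP g (by rw [hst]; exact Subgroup.mem_zpowers g)
  -- integral versions
  have hwint : IsIntegral ℤ (ι w) := by
    refine IsIntegral.of_pow (n := 3) (by norm_num) ?_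
    rw [← map_pow, w_cube, map_one]
    exact isIntegral_one
  obtain ⟨W, hW⟩ : ∃ W : 𝓞 L, algebraMap (𝓞 L) L W = ι w := ⟨⟨ι w, hwint⟩, rfl⟩
  have hWrel : W ^ 2 + W + 1 = 0 := by
    apply inj_O
    rw [map_add, map_add, map_pow, map_one, map_zero, hW]
    exact hom_w ι
  obtain ⟨ιO, hιO⟩ : ∃ ιO : Eis →+* 𝓞 L, ιO = lift W hWrel := ⟨_, rfl⟩
  have hιOw : ιO w = W := by
    rw [hιO, lift_apply]
    simp
  have hιc : ∀ x : Eis, algebraMap (𝓞 L) L (ιO x) = ι x := by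
    intro x
    rw [hιO, lift_apply, hom_apply ι x, map_add, map_mul, map_intCast, map_intCast, hW]
  have hint : ∀ x : Eis, IsIntegral ℤ (ι x) := fun x => by
    rw [← hιc x]
    exact RingOfIntegers.isIntegral_coe (ιO x)
  have hAint : ∀ i, IsIntegral ℤ (A i) := fun i =>
    IsIntegral.of_pow (n := 3) (by norm_num) (by rw [hA]; exact hint _)
  obtain ⟨B, hB⟩ : ∃ B : Fin t → 𝓞 L, ∀ i, algebraMap (𝓞 L) L (B i) = A i :=
    ⟨fun i => ⟨A i, hAint i⟩, fun i => rfl⟩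
  have hB3 : ∀ i, B i ^ 3 = ιO (π i).1 := by
    intro i
    apply inj_O
    rw [hιc, map_pow, hB, hA]
  -- the residue map
  obtain ⟨θ, hθ⟩ : ∃ θ : Eis →+* (𝓞 L ⧸ P), θ = (Ideal.Quotient.mk P).comp ιO := ⟨_, rfl⟩
  have hθa : ∀ x, θ x = Ideal.Quotient.mk P (ιO x) := fun x => by rw [hθ]; rfl
  have hθq : θ (q : Eis) = 0 := by
    rw [hθa, map_natCast]
    exact Ideal.Quotient.eq_zero_iff_mem.2 hqP
  have hkerp : (RingHom.ker θ).IsPrime := RingHom.ker_isPrime θ
  have hkne : RingHom.ker θ ≠ ⊥ := by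
    intro h
    have h1 : (q : Eis) ∈ RingHom.ker θ := hθq
    rw [h, Ideal.mem_bot] at h1
    have := congrArg Eis.re h1
    simp at this
    exact hq.ne_zero this
  obtain ⟨l, hl, hlθ⟩ : ∃ l : Eis, Prime l ∧ ∀ x, θ x = 0 ↔ l ∣ x := by
    refine ⟨Submodule.IsPrincipal.generator (RingHom.ker θ),
      Submodule.IsPrincipal.prime_generator_of_isPrime _ hkne, fun x => ?_⟩
    rw [← Submodule.IsPrincipal.mem_iff_generator_dvd]
    exact (RingHom.mem_ker).symm
  have hl3 : ¬ l ∣ 3 := by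
    intro h
    have h1 := (hlθ 3).2 h
    rw [hom_three] at h1
    have h2 : (q : 𝓞 L ⧸ P) = 0 := by rw [← map_natCast θ]; exact hθq
    have hcop : Nat.Coprime 3 q := by
      rw [Nat.coprime_primes Nat.prime_three hq]
      omega
    have h3 : IsCoprime ((3 : ℕ) : ℤ) (q : ℤ) := Nat.isCoprime_iff_coprime.2 hcop
    obtain ⟨a, b, hab⟩ := h3
    have h4 := congrArg (fun z : ℤ => (z : 𝓞 L ⧸ P)) hab
    push_cast at h4
    rw [h1, h2, mul_zero, mul_zero, add_zero] at h4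
    exact zero_ne_one h4
  obtain ⟨ρ, hρ⟩ := hSPP.1 l hl hl3
  have hρθ : ∀ x, θ x = 0 ↔ ρ.1 ∣ x := fun x => (hlθ x).trans hρ.dvd_iff_dvd_left
  have hρp := ρ.2.1
  have hρ3 : ¬ ρ.1 ∣ 3 := (hSPP.2.2.2.1 ρ).1
  have hcmp : ∀ a b : ℕ, (θ w) ^ a = (θ w) ^ b → (a : ZMod 3) = b := by
    intro a b h
    apply w_pow_sub_dvd hρ3
    rw [← hρθ, map_sub, map_pow, map_pow, h, sub_self]
  have hθw0 : θ w ≠ 0 := by
    intro h
    have h1 := (hρθ w).1 h
    exact not_dvd_of_isUnit hρp isUnit_w h1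
  have hθw : θ w = Ideal.Quotient.mk P W := by rw [hθa, hιOw]
  -- `q = 1 (mod 3)`
  have hgk : (g ^ k) (ι w) = ι w := by
    have := pow_apply g (ω := ι w) (a := ι w) (m := 0) hgw (by rw [hgw]; simp) k
    simpa using this
  have hq1 : (1 : ZMod 3) = q := by
    have h1 := hk W
    rw [← Ideal.Quotient.eq, map_pow] at h1
    have h2 : (g ^ k) • W = W := by
      apply inj_O
      rw [coe_smul, hW, hgk]
    rw [h2, ← hθw] at h1
    have h3 := hcmp 1 q (by rw [pow_one]; exact h1)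
    simpa using h3
  have hq1' : q % 3 = 1 := by
    have h1 : ((1 : ℕ) : ZMod 3) = (q : ℕ) := by simpa using hq1
    rw [ZMod.natCast_eq_natCast_iff'] at h1
    omega
  -- the norm
  have hN : N ρ.1 = q := by
    have hdq : ρ.1 ∣ (q : Eis) := (hρθ _).1 hθq
    obtain ⟨p, hp, h | h⟩ := hSPP.2.2.2.2.2 ρ
    · exfalso
      rw [h.2] at hdq
      have h1 := (natCast_dvd_iff (n := p) (x := (q : Eis))).1 hdq
      have h2 : p ∣ q := by
        have := h1.1
        simp only [natCast_re] at this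
        exact_mod_cast this
      rw [Nat.prime_dvd_prime_iff_eq hp hq] at h2
      omega
    · obtain ⟨c, hc⟩ := hdq
      have h1 : (q : ℤ) ^ 2 = p * c.norm := by
        rw [← h.2.1, ← Eis.norm_mul, ← hc, norm_natCast]
      have h2 : (p : ℤ) ∣ (q : ℤ) ^ 2 := ⟨_, h1⟩
      have h3 : p ∣ q ^ 2 := by exact_mod_cast h2
      have h4 : p ∣ q := hp.dvd_of_dvd_pow h3
      rw [Nat.prime_dvd_prime_iff_eq hp hq] at h4
      have h5 := N_cast ρ.1
      rw [h.2.1, h4] at h5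
      exact_mod_cast h5
  refine ⟨ρ, hN, k, ((q ^ j - 1) / (q - 1) : ℕ), ?_⟩
  intro i
  have hnd : ¬ ρ.1 ∣ (π i).1 := by
    intro h
    have h1 := hSPP.2.1 ρ (π i) (hρp.associated_of_dvd (π i).2.1 h)
    have h2 := hbig i
    rw [← h1, hN] at h2
    exact lt_irrefl _ h2
  have hs := map_pow_eq hρp hρ3 hnd θ ((hρθ _).2 dvd_rfl)
  rw [hN] at hs
  -- the element `B i` in the residue field
  have hb0 : Ideal.Quotient.mk P (B i) ≠ 0 := by
    intro h
    apply hnd
    rw [← hρθ, hθa, ← hB3, map_pow, h]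
    norm_num
  have hb3 : (Ideal.Quotient.mk P (B i)) ^ 3 = θ (π i).1 := by
    rw [← map_pow, hB3, hθa]
  have hdiv : 3 * ((q - 1) / 3) = q - 1 := by omega
  have hb1 : (Ideal.Quotient.mk P (B i)) ^ (q - 1) = (θ w) ^ (sym ρ.1 (π i).1).val := by
    rw [← hs, ← hb3, ← pow_mul, hdiv]
  constructor
  · have h1 := hk (B i)
    rw [← Ideal.Quotient.eq, map_pow] at h1
    have h2 : (g ^ k) • B i = W ^ ((r i).val * k) * B i := by
      apply inj_O
      rw [coe_smul, hB, pow_apply g hgw (hgA i) k, map_mul, map_pow, hW, hB]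
    rw [h2, map_mul, map_pow, ← hθw] at h1
    have h3 : (Ideal.Quotient.mk P (B i)) ^ q =
        (Ideal.Quotient.mk P (B i)) ^ (q - 1) * Ideal.Quotient.mk P (B i) := by
      rw [← pow_succ, Nat.sub_add_cancel hq.one_le]
    rw [h3, hb1] at h1
    have h4 := mul_right_cancel₀ hb0 h1
    have h5 := hcmp _ _ h4
    push_cast at h5
    simp only [ZMod.natCast_val, ZMod.cast_id', id] at h5
    rw [← h5]
    ring
  · have h1 := hj (B i)
    rw [← Ideal.Quotient.eq, map_pow] at h1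
    have h2 : g • B i = W ^ (r i).val * B i := by
      apply inj_O
      rw [coe_smul, hB, hgA i, map_mul, map_pow, hW, hB]
    rw [h2, map_mul, map_pow, ← hθw] at h1
    have hqj : 1 ≤ q ^ j := Nat.one_le_pow _ _ hq.pos
    have hc : (q - 1) * ((q ^ j - 1) / (q - 1)) = q ^ j - 1 := by
      apply Nat.mul_div_cancel'
      have := Nat.sub_dvd_pow_sub_pow q 1 j
      rwa [one_pow] at this
    have h3 : (Ideal.Quotient.mk P (B i)) ^ (q ^ j) =
        (Ideal.Quotient.mk P (B i)) ^ (q ^ j - 1) * Ideal.Quotient.mk P (B i) := by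
      rw [← pow_succ, Nat.sub_add_cancel hqj]
    rw [h3, ← hc, pow_mul, hb1, ← pow_mul] at h1
    have h4 := mul_right_cancel₀ hb0 h1
    have h5 := hcmp _ _ h4
    push_cast at h5
    simp only [ZMod.natCast_val, ZMod.cast_id', id] at h5
    rw [h5]
    ring

end Local

end NAUX

open NAUX in
theorem NAUX_thm (hSPP : SPP) (hKUM : KUM) : NAUX := by
  intro t π r A hπ
  obtain ⟨L, _, _, _, ι, B, hB⟩ := exists_field t (fun i => (π i).1)
  obtain ⟨g, hgw, hgA⟩ := exists_aut hSPP hKUM π hπ L ι B hB r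
  have hdens := RI.FROBD.main L {g}
  have hδ : (0 : ℝ) < (Nat.card ({g} : Set (L ≃ₐ[ℚ] L)) : ℝ) / Nat.card (L ≃ₐ[ℚ] L) := by
    have h1 : 0 < Nat.card (L ≃ₐ[ℚ] L) := Nat.card_pos
    have h2 : 0 < Nat.card ({g} : Set (L ≃ₐ[ℚ] L)) := by
      rw [Nat.card_unique]
      norm_num
    positivity
  obtain ⟨q, hq, ⟨g', hg', P, hP, hqP, hst⟩, hlarge⟩ := exists_large hδ hdens
    (∑ a ∈ A, N a.1 + ∑ i, N (π i).1 + 3)
  rw [Set.mem_singleton_iff] at hg'
  subst hg'
  have hbig : ∀ i, N (π i).1 < q := by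
    intro i
    have h1 : N (π i).1 ≤ ∑ i, N (π i).1 :=
      Finset.single_le_sum (f := fun i => N (π i).1) (fun _ _ => Nat.zero_le _) (Finset.mem_univ i)
    omega
  have hbigA : ∀ a ∈ A, N a.1 < q := by
    intro a ha
    have h1 : N a.1 ≤ ∑ a ∈ A, N a.1 :=
      Finset.single_le_sum (f := fun a : PP => N a.1) (fun _ _ => Nat.zero_le _) ha
    omega
  obtain ⟨ρ, hN, k, c, hkc⟩ := local_main hSPP π ι B hB r g' hgw hgA hq (by omega) hbig P hP hqP hst
  refine ⟨ρ, fun h => ?_, ?_⟩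
  · have := hbigA ρ h
    omega
  · by_cases hr : ∀ i, r i = 0
    · refine ⟨1, by decide, fun i => ?_⟩
      rw [(hkc i).1, hr i]
      ring
    · push Not at hr
      obtain ⟨i₀, hi₀⟩ := hr
      refine ⟨k, ?_, fun i => (hkc i).1⟩
      rintro rfl
      apply hi₀
      rw [(hkc i₀).2, (hkc i₀).1]
      ring

end Pool.Agent.PT
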