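import Pool.Agent.PT.Stmts4

/-!
# NCNT: the number of primes above a place
-/

open NumberField IsDedekindDomain Finset
open scoped nonZeroDivisors Pointwise

namespace Pool.Agent.PT

open Pool.Agent.Lib_helper18 Pool.Agent.Lib_helper18.Eis Pool.Agent.Lib_helper84.Cub

namespace NCNT

/-! ### Arithmetic of `Z[w]` -/

theorem pow_dvd_iff {l a : Eis} (hl : Prime l) (ha : a ≠ 0) (k : ℕ) : l ^ k ∣ a ↔ k ≤ V l a :=
  (fin hl ha).pow_dvd_iff_le_multiplicity

theorem intCast_ne {z : ℤ} (hz : z ≠ 0) : (z : Eis) ≠ 0 := fun h =>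
  hz (by simpa using congrArg Eis.re h)

/-- Division by the exact power. -/
theorem reduce {u x a b : Eis} (hu : Prime u) (hx : x ≠ 0) (hb : b ≠ 0)
    (h : u ^ (3 * V u b + V u x + 4) ∣ x * b ^ 3 - a ^ 3) :
    ∃ x1 a1 b1 : Eis, x = u ^ V u x * x1 ∧ 3 ∣ V u x ∧ ¬ u ∣ x1 ∧ ¬ u ∣ a1 ∧ ¬ u ∣ b1 ∧
      u ^ 4 ∣ x1 * b1 ^ 3 - a1 ^ 3 := by
  obtain ⟨b1, hb1, hub⟩ := V_split hu hb
  obtain ⟨x1, hx1, hux⟩ := V_split hu hx
  have hu0 := hu.ne_zero
  have hxb : x * b ^ 3 ≠ 0 := mul_ne_zero hx (pow_ne_zero _ hb)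
  have hVxb : V u (x * b ^ 3) = V u x + 3 * V u b := by
    rw [V_mul hu hx (pow_ne_zero _ hb), V_pow hu hb]
  have ha : a ≠ 0 := by
    rintro rfl
    have h1 : u ^ (3 * V u b + V u x + 4) ∣ x * b ^ 3 := by simpa using h
    rw [pow_dvd_iff hu hxb, hVxb] at h1
    omega
  have ha3 : a ^ 3 ≠ 0 := pow_ne_zero _ ha
  have hVa : 3 * V u a = V u x + 3 * V u b := by
    rw [← V_pow hu ha, ← hVxb]
    apply le_antisymm
    · rw [← pow_dvd_iff hu hxb]
      by_contra hcon
      have h2 : V u (a ^ 3) ≤ 3 * V u b + V u x + 4 := by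
        by_contra h3
        push Not at h3
        have h4 : u ^ (3 * V u b + V u x + 4) ∣ a ^ 3 := (pow_dvd_iff hu ha3 _).mpr h3.le
        have h5 : u ^ (3 * V u b + V u x + 4) ∣ x * b ^ 3 := by
          have h6 := dvd_add h h4
          rwa [sub_add_cancel] at h6
        rw [pow_dvd_iff hu hxb, hVxb] at h5
        omega
      have h3 : u ^ V u (a ^ 3) ∣ x * b ^ 3 - a ^ 3 := (pow_dvd_pow u h2).trans h
      have h4 : u ^ V u (a ^ 3) ∣ a ^ 3 := (pow_dvd_iff hu ha3 _).mpr le_rfl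
      have h5 := dvd_add h3 h4
      rw [sub_add_cancel] at h5
      exact hcon h5
    · rw [← pow_dvd_iff hu ha3]
      have h3 : u ^ V u (x * b ^ 3) ∣ x * b ^ 3 - a ^ 3 :=
        (pow_dvd_pow u (by rw [hVxb]; omega)).trans h
      have h4 : u ^ V u (x * b ^ 3) ∣ x * b ^ 3 := (pow_dvd_iff hu hxb _).mpr le_rfl
      have h5 := dvd_sub h4 h3
      rwa [sub_sub_cancel] at h5
  obtain ⟨a1, ha1, hua⟩ := V_split hu ha
  refine ⟨x1, a1, b1, hx1, by omega, hux, hua, hub, ?_⟩
  have e : x * b ^ 3 - a ^ 3 = u ^ (3 * V u b + V u x) * (x1 * b1 ^ 3 - a1 ^ 3) := by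
    have e1 : x * b ^ 3 = u ^ (3 * V u b + V u x) * (x1 * b1 ^ 3) := by
      conv_lhs => rw [hx1, hb1]
      rw [mul_pow, ← pow_mul, pow_add, mul_comm (V u b) 3]
      ring
    have e2 : a ^ 3 = u ^ (3 * V u b + V u x) * a1 ^ 3 := by
      conv_lhs => rw [ha1]
      rw [mul_pow, ← pow_mul, mul_comm (V u a) 3, hVa, add_comm (V u x)]
    rw [e1, e2]
    ring
  rw [e, pow_add] at h
  exact (mul_dvd_mul_iff_left (pow_ne_zero _ hu0)).mp h

/-- Cubes modulo 9. -/
theorem cube_mod_nine {z : Eis} (hz : ¬ lam ∣ z) :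
    ∃ ε : ℤ, (ε = 1 ∨ ε = -1) ∧ (9 : ℤ) ∣ (z ^ 3).re - ε ∧ (9 : ℤ) ∣ (z ^ 3).im := by
  rw [lam_dvd_iff] at hz
  have hre : (z ^ 3).re = z.re ^ 3 + z.im ^ 3 - 3 * z.re * z.im ^ 2 := by
    simp only [pow_succ, pow_zero, one_mul, mul_re, mul_im]
    ring
  have him : (z ^ 3).im = 3 * z.re * z.im * (z.re - z.im) := by
    simp only [pow_succ, pow_zero, one_mul, mul_re, mul_im]
    ring
  rw [hre, him]
  generalize z.re = a at *
  generalize z.im = b at *
  have key : ∀ α β : ZMod 9, (α + β = 0 ∨ α + β = 3 ∨ α + β = 6) ∨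
      ((α ^ 3 + β ^ 3 - 3 * α * β ^ 2 = 1 ∨ α ^ 3 + β ^ 3 - 3 * α * β ^ 2 = -1) ∧
        3 * α * β * (α - β) = 0) := by decide
  have hcast : ∀ n : ℤ, ((n : ZMod 9) = 0 ↔ (9 : ℤ) ∣ n) := fun n => by
    have := ZMod.intCast_zmod_eq_zero_iff_dvd n 9
    simpa using this
  rcases key (a : ZMod 9) (b : ZMod 9) with h | ⟨h1, h2⟩
  · exfalso
    apply hz
    rcases h with h | h | h
    · have h3 := (hcast (a + b)).mp (by push_cast; exact h)
      omega
    · have h3 := (hcast (a + b - 3)).mp (by push_cast; rw [h]; ring)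
      omega
    · have h3 := (hcast (a + b - 6)).mp (by push_cast; rw [h]; ring)
      omega
  · have h3 : (9 : ℤ) ∣ 3 * a * b * (a - b) := (hcast _).mp (by push_cast; exact h2)
    rcases h1 with h1 | h1
    · exact ⟨1, Or.inl rfl, (hcast _).mp (by push_cast; rw [h1]; ring), h3⟩
    · exact ⟨-1, Or.inr rfl, (hcast _).mp (by push_cast; rw [h1]; ring), h3⟩

theorem lam_four : lam ^ 4 = w ^ 2 * 9 := by decide

theorem nine_dvd {z : Eis} (h : lam ^ 4 ∣ z) : (9 : ℤ) ∣ z.re ∧ (9 : ℤ) ∣ z.im := by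
  have h1 : ((9 : ℤ) : Eis) ∣ z := by
    refine Dvd.dvd.trans ?_ h
    rw [lam_four]
    exact ⟨w ^ 2, by push_cast; ring⟩
  exact intCast_dvd_iff.mp h1

/-- The end of the argument. -/
theorem local_cube (hLCI : LCI) {x : ℤ} (hx : x ≠ 0) (h3 : ¬ (3 : ℤ) ∣ x) (v : Pl) {a b : Eis}
    (hu : Prime (uni v)) (hb : b ≠ 0)
    (h : uni v ^ (3 * V (uni v) b + V (uni v) (x : Eis) + 4) ∣ (x : Eis) * b ^ 3 - a ^ 3) :
    LC (uni v) x := by
  have hxE := intCast_ne hx
  obtain ⟨x1, a1, b1, hx1, hV, hux, hua, hub, hd⟩ := reduce hu hxE hb h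
  cases v with
  | some π =>
    have hπ3 : ¬ π.1 ∣ 3 := by
      intro h
      have h2 := (dvd_three_iff π.2.1).mp h
      have h4 : lam ∣ π.1 := h2.symm.dvd
      rw [lam_dvd_iff] at h4
      obtain ⟨-, h5, h6⟩ := π.2
      omega
    change LC π.1 x
    change Prime π.1 at hu
    rw [hLCI.1 π x hx]
    refine ⟨hV, ?_⟩
    have hup : up π.1 (x : Eis) = x1 := by
      unfold up
      conv_lhs => rw [hx1]
      have hne : π.1 ^ V π.1 (x : Eis) ≠ 0 := pow_ne_zero _ hu.ne_zero
      change (π.1 ^ V π.1 (x : Eis) * x1) / π.1 ^ V π.1 (π.1 ^ V π.1 (x : Eis) * x1) = x1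
      have hVV : V π.1 (π.1 ^ V π.1 (x : Eis) * x1) = V π.1 (x : Eis) := by
        conv_rhs => rw [show (x : Eis) = π.1 ^ V π.1 (x : Eis) * x1 from hx1]
      rw [hVV]
      exact mul_div_cancel_left₀ x1 hne
    unfold ch
    rw [hup]
    have hd1 : π.1 ∣ x1 * b1 ^ 3 - a1 ^ 3 :=
      (dvd_pow_self π.1 (by norm_num)).trans hd
    have h1 := sym_congr hd1
    have hb3 : ¬ π.1 ∣ b1 ^ 3 := fun h => hub (hu.dvd_of_dvd_pow h)
    rw [sym_mul hu hπ3 hux hb3, sym_pow hu hπ3 hub, sym_pow hu hπ3 hua] at h1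
    have h30 : (3 : ZMod 3) = 0 := by decide
    push_cast at h1
    rw [h30] at h1
    simpa using h1
  | none =>
    change LC lam x
    change Prime lam at hu
    rw [hLCI.2.1 x h3]
    have hlx : ¬ lam ∣ (x : Eis) := by
      rw [lam_dvd_iff]
      simpa using h3
    have hV0 : V lam (x : Eis) = 0 := V_eq_zero hlx
    have hx1' : (x : Eis) = x1 := by
      have h1 : (x : Eis) = lam ^ V lam (x : Eis) * x1 := hx1
      rw [hV0, pow_zero, one_mul] at h1
      exact h1
    obtain ⟨ε, hε, hr, hi⟩ := cube_mod_nine (z := a1) hua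
    obtain ⟨δ, hδ, hr', hi'⟩ := cube_mod_nine (z := b1) hub
    have h9 := (nine_dvd hd).1
    rw [← hx1'] at h9
    have e1 : ((x : Eis) * b1 ^ 3 - a1 ^ 3).re = x * (b1 ^ 3).re - (a1 ^ 3).re := by
      rw [sub_re, mul_re]
      simp
    rw [e1] at h9
    have h10 : (9 : ℤ) ∣ x * δ - ε := by
      obtain ⟨s, hs⟩ := h9
      obtain ⟨t, ht⟩ := hr
      obtain ⟨t', ht'⟩ := hr'
      exact ⟨s - x * t' + t, by linear_combination hs - x * ht' + ht⟩
    unfold C9
    rcases hε with rfl | rfl <;> rcases hδ with rfl | rfl <;> omega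

/-! ### Valuations of `L` -/

variable {L : Type} [Field L] [NumberField L]

theorem ext_val {P P' : HeightOneSpectrum (𝓞 L)}
    (h : ∀ z : L, P.valuation L z = P'.valuation L z) : P = P' := by
  apply HeightOneSpectrum.ext
  ext z
  rw [← P.valuation_lt_one_iff_mem (K := L), ← P'.valuation_lt_one_iff_mem (K := L), h]

theorem exists_exp_le {γ : WithZero (Multiplicative ℤ)} (h : γ ≠ 0) :
    ∃ N : ℕ, WithZero.exp (-(N : ℤ)) ≤ γ := by
  refine ⟨(-(WithZero.log γ)).toNat, ?_⟩
  rw [← WithZero.exp_log h, WithZero.exp_le_exp, WithZero.log_exp]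
  omega

theorem pow_le_exp {ρ : WithZero (Multiplicative ℤ)} (h : ρ < 1) (N : ℕ) :
    ρ ^ N ≤ WithZero.exp (-(N : ℤ)) := by
  by_cases h0 : ρ = 0
  · rcases N with _ | N
    · simp
    · rw [h0, zero_pow (Nat.succ_ne_zero N)]
      exact zero_le
  · have h1 : WithZero.log ρ < 0 := by
      rw [← WithZero.exp_log h0, ← WithZero.exp_zero, WithZero.exp_lt_exp] at h
      exact h
    rw [← WithZero.exp_log h0, ← WithZero.exp_nsmul, WithZero.exp_le_exp]
    simp only [nsmul_eq_mul]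
    nlinarith [Int.natCast_nonneg N]

theorem exists_pow_lt {ρ γ : WithZero (Multiplicative ℤ)} (h : ρ < 1) (hγ : γ ≠ 0) :
    ∃ N : ℕ, ρ ^ N < γ := by
  obtain ⟨N, hN⟩ := exists_exp_le hγ
  refine ⟨N + 1, (pow_le_exp h (N + 1)).trans_lt (lt_of_lt_of_le ?_ hN)⟩
  rw [WithZero.exp_lt_exp]
  push_cast
  omega

variable {x : ℤ} {ι : Eis →+* L} {θ : L} {σ c : L ≃ₐ[ℚ] L}

/-- The valuation of an element of `Z[w]`. -/
theorem val_eq {v : Pl} {P : HeightOneSpectrum (𝓞 L)} (hu : Prime (uni v))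
    (hle : ∀ a : Eis, P.valuation L (ι a) ≤ 1)
    (hlt : ∀ a : Eis, P.valuation L (ι a) < 1 → uni v ∣ a) {y : Eis} (hy : y ≠ 0) :
    P.valuation L (ι y) = P.valuation L (ι (uni v)) ^ V (uni v) y := by
  obtain ⟨c, hc, huc⟩ := V_split hu hy
  have h1 : P.valuation L (ι c) = 1 := by
    rcases (hle c).lt_or_eq with h | h
    · exact absurd (hlt c h) huc
    · exact h
  conv_lhs => rw [hc]
  rw [map_mul, map_pow, map_mul, map_pow, h1, mul_one]

theorem val_w {P : HeightOneSpectrum (𝓞 L)} : P.valuation L (ι w) = 1 := by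
  have h1 : P.valuation L (ι w) ^ 3 = 1 := by
    rw [← map_pow, ← map_pow, w_cube, map_one, map_one]
  rcases lt_trichotomy (P.valuation L (ι w)) 1 with h | h | h
  · exact absurd h1 (pow_lt_one₀ zero_le h (by norm_num)).ne
  · exact h
  · exact absurd h1 (one_lt_pow₀ h (by norm_num)).ne'

/-- If `x` is a local cube, `σ` does not fix a prime above `v`. -/
theorem no_fix (h : CubF x L ι θ σ c) (hx : x ≠ 0) {v : Pl} {P : HeightOneSpectrum (𝓞 L)}
    (hle : ∀ a : Eis, P.valuation L (ι a) ≤ 1) (hP : P.valuation L (ι (uni v)) < 1)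
    (hfix : ∀ z : L, P.valuation L (σ z) = P.valuation L z) (hLC : LC (uni v) x) : False := by
  have hc0 : (w - 1) ^ 3 * (x : Eis) ≠ 0 :=
    mul_ne_zero (pow_ne_zero _ (by decide)) (intCast_ne hx)
  have hγ : P.valuation L (ι ((w - 1) ^ 3 * (x : Eis))) ≠ 0 := by
    rw [Valuation.ne_zero_iff]
    exact (map_ne_zero_iff ι h.inj).mpr hc0
  obtain ⟨N, hN⟩ := exists_pow_lt hP hγ
  obtain ⟨r, t, ht⟩ := hLC N
  have hsmall : P.valuation L (ι ((r : Eis) ^ 3 - (x : Eis))) ≤
      P.valuation L (ι (uni v)) ^ N := by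
    rw [ht, map_mul, map_mul, map_pow, map_pow]
    exact mul_le_of_le_one_right' (hle t)
  have s0 : σ (θ - ι r) = ι w * (θ - ι (w ^ 2 * r)) := by
    rw [map_sub, h.sθ, h.sι, mul_sub, ← map_mul, ← mul_assoc, ← pow_succ', w_cube, one_mul]
  have s1 : σ (θ - ι (w * r)) = ι w * (θ - ι r) := by
    rw [map_sub, h.sθ, h.sι, mul_sub, ← map_mul]
  have v0 : P.valuation L (θ - ι (w ^ 2 * r)) = P.valuation L (θ - ι r) := by
    rw [← hfix (θ - ι r), s0, Valuation.map_mul, val_w, one_mul]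
  have v1 : P.valuation L (θ - ι (w * r)) = P.valuation L (θ - ι r) := by
    rw [← hfix (θ - ι (w * r)), s1, Valuation.map_mul, val_w, one_mul]
  have hprod : (θ - ι r) * (θ - ι (w * r)) * (θ - ι (w ^ 2 * r)) =
      - ι ((r : Eis) ^ 3 - (x : Eis)) := by
    have h1 : (ι w) ^ 2 + ι w + 1 = 0 := by
      have := congrArg ι w_rel
      simpa using this
    have h2 : (ι w) ^ 3 = 1 := by
      have := congrArg ι w_cube
      simpa using this
    have h3 := h.cube
    have h4 : ι (x : Eis) = (x : L) := map_intCast ι x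
    have h5 : ι (r : Eis) = (r : L) := map_intCast ι r
    simp only [map_sub, map_mul, map_pow, h4, h5]
    linear_combination (-(θ ^ 2 * (r : L)) + θ * (r : L) ^ 2 * ι w) * h1 -
      ((r : L) ^ 3) * h2 + h3
  have hα : P.valuation L (θ - ι r) ^ 3 ≤ P.valuation L (ι (uni v)) ^ N := by
    have h1 := congrArg (P.valuation L) hprod
    rw [map_mul, map_mul, v0, v1, Valuation.map_neg] at h1
    calc P.valuation L (θ - ι r) ^ 3 = P.valuation L (θ - ι r) * P.valuation L (θ - ι r) *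
        P.valuation L (θ - ι r) := by rw [pow_succ, pow_two]
      _ ≤ _ := by rw [h1]; exact hsmall
  have hdiff : P.valuation L (ι ((w - 1) * r)) ≤ P.valuation L (θ - ι r) := by
    have e1 : ι ((w - 1) * r) = (θ - ι r) - (θ - ι (w * r)) := by
      rw [sub_mul, one_mul, map_sub]
      ring
    rw [e1]
    refine (Valuation.map_sub _ _ _).trans ?_
    rw [v1, max_self]
  have hcube : P.valuation L (ι (((w - 1) * r) ^ 3)) ≤ P.valuation L (ι (uni v)) ^ N := by
    rw [map_pow, map_pow]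
    exact (pow_le_pow_left' hdiff 3).trans hα
  have hfin : P.valuation L (ι ((w - 1) ^ 3 * (x : Eis))) ≤ P.valuation L (ι (uni v)) ^ N := by
    have e1 : ι ((w - 1) ^ 3 * (x : Eis)) = ι (((w - 1) * r) ^ 3) -
        ι ((w - 1) ^ 3) * ι ((r : Eis) ^ 3 - (x : Eis)) := by
      rw [← map_mul, ← map_sub]
      congr 1
      ring
    rw [e1]
    refine (Valuation.map_sub _ _ _).trans (max_le hcube ?_)
    rw [map_mul]
    exact (mul_le_of_le_one_left' (hle _)).trans hsmall
  exact absurd hN (not_lt.mpr hfin)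

/-- If `σ` does not fix the prime `P`, then `θ` is approximated at `P` by invariant elements. -/
theorem approx (h : CubF x L ι θ σ c) (h3 : ∀ z : L, σ (σ (σ z)) = z)
    {P P1 P2 : HeightOneSpectrum (𝓞 L)} (h01 : P ≠ P1) (h02 : P ≠ P2) (h12 : P1 ≠ P2)
    (e1 : ∀ z, P1.valuation L (σ z) = P.valuation L z)
    (e2 : ∀ z, P2.valuation L (σ z) = P1.valuation L z) (N : ℕ) :
    ∃ T : L, σ T = T ∧ P.valuation L (θ - T) ≤ WithZero.exp (-(N : ℤ)) := by
  have hθ : IsIntegral ℤ θ := by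
    refine IsIntegral.of_pow (n := 3) (by norm_num) ?_
    rw [h.cube]
    exact isIntegral_algebraMap (R := ℤ) (x := x)
  let θ' : 𝓞 L := ⟨θ, hθ⟩
  obtain ⟨z, hz⟩ := IsDedekindDomain.exists_forall_sub_mem_ideal (R := 𝓞 L)
    (s := (univ : Finset (Fin 3))) (![P.asIdeal, P1.asIdeal, P2.asIdeal]) (fun _ => N)
    (by
      intro i _
      fin_cases i
      · exact P.prime
      · exact P1.prime
      · exact P2.prime)
    (by
      have k01 : P.asIdeal ≠ P1.asIdeal := fun h => h01 (HeightOneSpectrum.ext h)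
      have k02 : P.asIdeal ≠ P2.asIdeal := fun h => h02 (HeightOneSpectrum.ext h)
      have k12 : P1.asIdeal ≠ P2.asIdeal := fun h => h12 (HeightOneSpectrum.ext h)
      intro i _ j _ hij
      fin_cases i <;> fin_cases j
      · exact absurd rfl hij
      · exact k01
      · exact k02
      · exact k01.symm
      · exact absurd rfl hij
      · exact k12
      · exact k02.symm
      · exact k12.symm
      · exact absurd rfl hij)
    (fun i => (![θ', 0, 0] : Fin 3 → 𝓞 L) i.1)
  have z0 : z - θ' ∈ P.asIdeal ^ N := hz 0 (mem_univ _)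
  have z1 : z ∈ P1.asIdeal ^ N := by
    have h1 : z - 0 ∈ P1.asIdeal ^ N := hz 1 (mem_univ _)
    rwa [sub_zero] at h1
  have z2 : z ∈ P2.asIdeal ^ N := by
    have h1 : z - 0 ∈ P2.asIdeal ^ N := hz 2 (mem_univ _)
    rwa [sub_zero] at h1
  have cv : ∀ (Q : HeightOneSpectrum (𝓞 L)) (y : 𝓞 L), y ∈ Q.asIdeal ^ N →
      Q.valuation L (algebraMap (𝓞 L) L y) ≤ WithZero.exp (-(N : ℤ)) := by
    intro Q y hy
    rw [Q.valuation_of_algebraMap, Q.intValuation_le_pow_iff_mem]
    exact hy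
  have w0 := cv P _ z0
  have w1 := cv P1 _ z1
  have w2 := cv P2 _ z2
  rw [map_sub] at w0
  have hθ' : algebraMap (𝓞 L) L θ' = θ := rfl
  rw [hθ'] at w0
  set y : L := algebraMap (𝓞 L) L z with hy
  have f1 : ∀ t, P.valuation L (σ t) = P2.valuation L t := by
    intro t
    rw [← e1 (σ t), ← e2 (σ (σ t)), h3]
  refine ⟨y + σ y + σ (σ y), ?_, ?_⟩
  · rw [map_add, map_add, h3]
    ring
  · have e3 : θ - (y + σ y + σ (σ y)) = -((y - θ) + (σ y + σ (σ y))) := by ring
    rw [e3, Valuation.map_neg]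
    refine (Valuation.map_add _ _ _).trans (max_le w0 ?_)
    refine (Valuation.map_add _ _ _).trans (max_le ?_ ?_)
    · rw [f1]
      exact w2
    · rw [f1, e2]
      exact w1

/-- If `σ` does not fix `P`, then `x` is a local cube. -/
theorem lc_of (hLCI : LCI) (h : CubF x L ι θ σ c) (hx : x ≠ 0) (hx3 : ¬ (3 : ℤ) ∣ x)
    (h3 : ∀ z : L, σ (σ (σ z)) = z)
    (hfixed : ∀ z : L, σ z = z → ∃ a b : Eis, b ≠ 0 ∧ z * ι b = ι a) {v : Pl}
    {P P1 P2 : HeightOneSpectrum (𝓞 L)} (hu : Prime (uni v))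
    (hle : ∀ a : Eis, P.valuation L (ι a) ≤ 1) (hP : P.valuation L (ι (uni v)) < 1)
    (hlt : ∀ a : Eis, P.valuation L (ι a) < 1 → uni v ∣ a)
    (h01 : P ≠ P1) (h02 : P ≠ P2) (h12 : P1 ≠ P2)
    (e1 : ∀ z, P1.valuation L (σ z) = P.valuation L z)
    (e2 : ∀ z, P2.valuation L (σ z) = P1.valuation L z) : LC (uni v) x := by
  have hρ : P.valuation L (ι (uni v)) ≠ 0 := by
    rw [Valuation.ne_zero_iff]
    exact (map_ne_zero_iff ι h.inj).mpr hu.ne_zero
  set ρ := P.valuation L (ι (uni v)) with hρd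
  set M := V (uni v) (x : Eis) + 4 with hM
  obtain ⟨N, hN⟩ := exists_exp_le (pow_ne_zero M hρ)
  obtain ⟨T, hT, hTP⟩ := approx h h3 h01 h02 h12 e1 e2 N
  obtain ⟨a, b, hb, hab⟩ := hfixed T hT
  apply local_cube hLCI hx hx3 v hu hb (a := a)
  set y := (x : Eis) * b ^ 3 - a ^ 3 with hyd
  by_cases hy0 : y = 0
  · rw [hy0]
    exact dvd_zero _
  rw [pow_dvd_iff hu hy0, add_assoc, ← hM]
  by_contra hcon
  push Not at hcon
  have hθ1 : P.valuation L θ ≤ 1 := by
    have hθ : IsIntegral ℤ θ := by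
      refine IsIntegral.of_pow (n := 3) (by norm_num) ?_
      rw [h.cube]
      exact isIntegral_algebraMap (R := ℤ) (x := x)
    exact P.valuation_le_one (K := L) (⟨θ, hθ⟩ : 𝓞 L)
  have hexp : WithZero.exp (-(N : ℤ)) ≤ (1 : WithZero (Multiplicative ℤ)) := by
    rw [← WithZero.exp_zero, WithZero.exp_le_exp]
    omega
  have hT1 : P.valuation L T ≤ 1 := by
    have e3 : T = θ - (θ - T) := by ring
    rw [e3]
    exact (Valuation.map_sub _ _ _).trans (max_le hθ1 (hTP.trans hexp))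
  have hfac : ι y = (θ - T) * ((ι b) ^ 3 * (θ ^ 2 + θ * T + T ^ 2)) := by
    have h4 : ι (x : Eis) = (x : L) := map_intCast ι x
    have h5 := h.cube
    rw [hyd]
    simp only [map_sub, map_mul, map_pow, h4]
    rw [← hab, ← h5]
    ring
  have hquad : P.valuation L (θ ^ 2 + θ * T + T ^ 2) ≤ 1 := by
    refine (Valuation.map_add _ _ _).trans (max_le ((Valuation.map_add _ _ _).trans
      (max_le ?_ ?_)) ?_)
    · rw [map_pow]
      exact pow_le_one' hθ1 2
    · rw [map_mul]
      exact mul_le_one' hθ1 hT1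
    · rw [map_pow]
      exact pow_le_one' hT1 2
  have hval : P.valuation L (ι y) ≤ ρ ^ M * (P.valuation L (ι b)) ^ 3 := by
    rw [hfac, map_mul, map_mul, map_pow]
    refine mul_le_mul' (hTP.trans hN) ?_
    exact mul_le_of_le_one_right' hquad
  rw [val_eq hu hle hlt hy0, val_eq hu hle hlt hb, ← hρd, ← pow_mul, ← pow_add] at hval
  have h6 : M + V (uni v) b * 3 > V (uni v) y := by omega
  have h7 := pow_lt_pow_right_of_lt_one₀ (zero_lt_iff.mpr hρ) hP h6
  exact absurd hval (not_le.mpr h7)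

theorem prime_uni (v : Pl) : Prime (uni v) := by
  cases v with
  | none => exact prime_lam
  | some π => exact π.2.1

end NCNT

open NCNT in
theorem NCNT_thm (_hSPP : SPP) (hLCI : LCI) (hNHN : NHN) (hNTR : NTR) : NCNT := by
  classical
  intro x L _ _ ι θ σ c hx hx3 _ h v
  obtain ⟨h3, hfixed, -⟩ := hNHN x L ι θ σ c hx h
  obtain ⟨t1, t2, t3, t4, t5, -⟩ := hNTR x L ι θ σ c hx hx3 h
  have hu := prime_uni v
  obtain ⟨P, hP⟩ := (t4 v).2
  obtain ⟨P1, e1⟩ := t3 P
  obtain ⟨P2, e2⟩ := t3 P1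
  have hP' : P.valuation L (ι (uni v)) < 1 := hP
  have hP1 : P1 ∈ Abv ι v := by
    change P1.valuation L (ι (uni v)) < 1
    rw [← h.sι, e1]
    exact hP'
  have hP2 : P2 ∈ Abv ι v := by
    change P2.valuation L (ι (uni v)) < 1
    rw [← h.sι, e2]
    exact hP1
  have e0 : ∀ z, P.valuation L (σ z) = P2.valuation L z := by
    intro z
    rw [← e1 (σ z), ← e2 (σ (σ z)), h3]
  have hall : ∀ Q ∈ Abv ι v, Q = P ∨ Q = P1 ∨ Q = P2 := by
    intro Q hQ
    obtain ⟨i, hi⟩ := t5 v P Q hP hQ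
    have key : ∀ i : ℕ, ∀ Q : HeightOneSpectrum (𝓞 L),
        (∀ z : L, Q.valuation L ((σ ^ i) z) = P.valuation L z) → Q = P ∨ Q = P1 ∨ Q = P2 := by
      intro i
      induction i using Nat.strong_induction_on with
      | _ i ih =>
        intro Q hi
        rcases i with _ | _ | _ | i
        · left
          apply ext_val
          intro z
          simpa using hi z
        · right; left
          apply ext_val
          intro z
          obtain ⟨y, rfl⟩ := σ.surjective z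
          rw [e1]
          simpa using hi y
        · right; right
          apply ext_val
          intro z
          obtain ⟨y, rfl⟩ := σ.surjective z
          obtain ⟨y, rfl⟩ := σ.surjective y
          rw [e2, e1]
          have h4 := hi y
          rw [pow_succ, pow_one] at h4
          exact h4
        · refine ih i (by omega) Q fun z => ?_
          have h4 := hi z
          have h5 : (σ ^ (i + 3)) z = (σ ^ i) z := by
            rw [pow_add]
            change (σ ^ i) ((σ ^ 3) z) = _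
            congr 1
            exact h3 z
          rw [← h5]
          exact h4
    exact key i Q hi
  have hlt : ∀ a : Eis, P.valuation L (ι a) < 1 → uni v ∣ a := by
    obtain ⟨v', -, hv'⟩ := t2 P
    intro a ha
    have h4 : uni v' ∣ uni v := hv' _ hP'
    have h5 : Associated (uni v') (uni v) := (prime_uni v').associated_of_dvd hu h4
    exact h5.symm.dvd.trans (hv' a ha)
  by_cases hfix : P = P1
  · have hfix' : ∀ z : L, P.valuation L (σ z) = P.valuation L z := by
      intro z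
      conv_lhs => rw [hfix]
      exact e1 z
    have hnot : ¬ LC (uni v) x := fun hLC => no_fix h hx (t1 P) hP' hfix' hLC
    rw [if_neg hnot]
    have hP2' : P2 = P := by
      apply ext_val
      intro z
      rw [← e0, hfix']
    have hset : Abv ι v = {P} := by
      ext Q
      rw [Set.mem_singleton_iff]
      constructor
      · intro hQ
        rcases hall Q hQ with h4 | h4 | h4
        · exact h4
        · exact h4.trans hfix.symm
        · exact h4.trans hP2'
      · rintro rfl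
        exact hP
    rw [hset]
    simp
  · have h02 : P ≠ P2 := by
      intro h4
      apply hfix
      apply ext_val
      intro z
      obtain ⟨y, rfl⟩ := σ.surjective z
      rw [e1, e0, ← h4]
    have h12 : P1 ≠ P2 := by
      intro h4
      apply hfix
      apply ext_val
      intro z
      calc P.valuation L z = P1.valuation L (σ z) := (e1 z).symm
        _ = P2.valuation L (σ z) := by rw [h4]
        _ = P1.valuation L z := e2 z
    have hLC : LC (uni v) x :=
      lc_of hLCI h hx hx3 h3 hfixed hu (t1 P) hP' hlt hfix h02 h12 e1 e2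
    rw [if_pos hLC]
    have hset : Abv ι v = {P, P1, P2} := by
      ext Q
      simp only [Set.mem_insert_iff, Set.mem_singleton_iff]
      constructor
      · exact hall Q
      · rintro (rfl | rfl | rfl)
        · exact hP
        · exact hP1
        · exact hP2
    rw [Nat.card_coe_set_eq, hset, Set.ncard_eq_three]
    exact ⟨P, P1, P2, hfix, h02, h12, rfl⟩

end Pool.Agent.PT
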