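import Pool.Agent.PT.Stmts3

/-!
# NDESC: descent to the real cubic field
-/

set_option linter.unusedSectionVars false

open NumberField IsDedekindDomain Finset
open scoped nonZeroDivisors Pointwise

namespace Pool.Agent.PT.NDESC

open Pool.Agent.Lib_helper18 Pool.Agent.Lib_helper18.Eis Pool.Agent.Lib_helper84.Cub

variable {x : ℤ} {L : Type} [Field L] [NumberField L] {ι : Eis →+* L} {θ : L}
  {σ c : L ≃ₐ[ℚ] L}

theorem ww (ι : Eis →+* L) : ι w * ι w * ι w = 1 := by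
  have h : w * w * w = 1 := by
    have h1 := w_cube
    rw [← h1]
    ring
  rw [← map_mul, ← map_mul, h, map_one]

theorem wrel (ι : Eis →+* L) : ι w * ι w + ι w + 1 = 0 := by
  have h := congrArg ι w_rel
  rw [map_add, map_add, map_pow, map_one, map_zero, pow_two] at h
  exact h

theorem cw (h : CubF x L ι θ σ c) : c (ι w) = ι w * ι w := by
  rw [h.cι, conj_w, pow_two, map_mul]

theorem cc (h : CubF x L ι θ σ c) (z : L) : c (c z) = z := by
  obtain ⟨m, a, b, d, hm, e⟩ := h.rep z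
  have hm0 : (m : L) ≠ 0 := by exact_mod_cast hm
  have h1 : c (c ((m : L) * z)) = (m : L) * z := by
    rw [e]
    simp only [map_add, map_mul, map_pow, h.cι, h.cθ, conj_conj]
  rw [map_mul, map_mul, map_intCast, map_intCast] at h1
  exact mul_left_cancel₀ hm0 h1

theorem sc (h : CubF x L ι θ σ c) (z : L) : σ (c z) = c (σ (σ z)) := by
  obtain ⟨m, a, b, d, hm, e⟩ := h.rep z
  have hm0 : (m : L) ≠ 0 := by exact_mod_cast hm
  have h1 : σ (c ((m : L) * z)) = c (σ (σ ((m : L) * z))) := by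
    rw [e]
    simp only [map_add, map_mul, map_pow, h.cι, h.cθ, h.sι, h.sθ, conj_w]
    have h2 := ww ι
    have h3 : ι w ^ 2 * (ι w ^ 2 * θ) = ι w * θ := by
      linear_combination (ι w * θ) * h2
    rw [h3]
  simp only [map_mul, map_intCast] at h1
  exact mul_left_cancel₀ hm0 h1

theorem sss (h : CubF x L ι θ σ c) (z : L) : σ (σ (σ z)) = z := by
  obtain ⟨m, a, b, d, hm, e⟩ := h.rep z
  have hm0 : (m : L) ≠ 0 := by exact_mod_cast hm
  have h1 : σ (σ (σ ((m : L) * z))) = (m : L) * z := by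
    rw [e]
    simp only [map_add, map_mul, map_pow, h.sι, h.sθ]
    have h2 := ww ι
    have h3 : ι w * (ι w * (ι w * θ)) = θ := by
      linear_combination θ * h2
    rw [h3]
  simp only [map_mul, map_intCast] at h1
  exact mul_left_cancel₀ hm0 h1

theorem real_of_conj {a : Eis} (h : conj a = a) : a = ((a.re : ℤ) : Eis) := by
  have h1 := congrArg Eis.im h
  rw [conj_im] at h1
  ext
  · rw [intCast_re]
  · rw [intCast_im]
    omega

theorem ι_int (ι : Eis →+* L) (n : ℤ) : ι (n : Eis) = (n : L) := map_intCast ι n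

/-- the norm of `γ + δ θ` -/
theorem norm_lin (h : CubF x L ι θ σ c) (γ δ : ℤ) :
    ((γ : L) + δ * θ) * σ ((γ : L) + δ * θ) * σ (σ ((γ : L) + δ * θ)) =
      ((γ ^ 3 + x * δ ^ 3 : ℤ) : L) := by
  simp only [map_add, map_mul, map_intCast, h.sθ, h.sι]
  have h1 := ww ι
  have h2 := wrel ι
  have h3 := h.cube
  push_cast
  rw [← h3]
  linear_combination ((γ : L) ^ 2 * δ * θ + γ * δ ^ 2 * θ ^ 2 * ι w) * h2 +
    (δ : L) ^ 3 * θ ^ 3 * h1

end Pool.Agent.PT.NDESC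

namespace Pool.Agent.PT

open Pool.Agent.Lib_helper18 Pool.Agent.Lib_helper18.Eis Pool.Agent.Lib_helper84.Cub

theorem NDESC_thm : NDESC := by
  intro x L _ _ ι θ σ c _ h y z hy hz hN
  have hy0 : (y : L) ≠ 0 := by exact_mod_cast hy
  -- the element fixed by `c`
  obtain ⟨u, hu⟩ : ∃ u : L, u = z * c z := ⟨_, rfl⟩
  have hcu : c u = u := by
    rw [hu, map_mul, NDESC.cc h, mul_comm]
  have hNu : u * σ u * σ (σ u) = (y : L) ^ 2 := by
    have h1 : c (z * σ z * σ (σ z)) = (y : L) := by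
      rw [hN, map_intCast]
    rw [map_mul, map_mul] at h1
    have h2 : σ (σ (c z)) = c (σ z) := by
      rw [NDESC.sc h z, NDESC.sc h (σ (σ z)), NDESC.sss h]
    rw [hu, map_mul, map_mul, h2, NDESC.sc h z, pow_two]
    calc z * c z * (σ z * c (σ (σ z))) * (σ (σ z) * c (σ z))
        = (z * σ z * σ (σ z)) * (c z * c (σ z) * c (σ (σ z))) := by ring
      _ = (y : L) * y := by rw [hN, h1]
  -- its coordinates
  obtain ⟨m, a, b, d, hm, e⟩ := h.rep u
  have hm0 : (m : L) ≠ 0 := by exact_mod_cast hm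
  have h1 : ι (conj a - a) + ι (conj b - b) * θ + ι (conj d - d) * θ ^ 2 = 0 := by
    have h2 : c ((m : L) * u) = (m : L) * u := by
      rw [map_mul, map_intCast, hcu]
    rw [e] at h2
    simp only [map_add, map_mul, map_pow, h.cι, h.cθ] at h2
    simp only [map_sub]
    linear_combination h2
  obtain ⟨ha, hb, hd⟩ := h.lin _ _ _ h1
  have ha' := NDESC.real_of_conj (sub_eq_zero.1 ha)
  have hb' := NDESC.real_of_conj (sub_eq_zero.1 hb)
  have hd' := NDESC.real_of_conj (sub_eq_zero.1 hd)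
  obtain ⟨a0, ha0⟩ : ∃ n : ℤ, a = (n : Eis) := ⟨_, ha'⟩
  obtain ⟨b0, hb0⟩ : ∃ n : ℤ, b = (n : Eis) := ⟨_, hb'⟩
  obtain ⟨d0, hd0⟩ : ∃ n : ℤ, d = (n : Eis) := ⟨_, hd'⟩
  rw [ha0, hb0, hd0, NDESC.ι_int, NDESC.ι_int, NDESC.ι_int] at e
  -- killing the coefficient of `θ ^ 2`
  obtain ⟨γ, δ, hγδ, h2⟩ : ∃ γ δ : ℤ, ¬ (γ = 0 ∧ δ = 0) ∧ b0 * δ + d0 * γ = 0 := by
    by_cases h3 : b0 = 0 ∧ d0 = 0
    · refine ⟨1, 0, by simp, ?_⟩
      rw [h3.1, h3.2]
      ring
    · refine ⟨b0, -d0, ?_, by ring⟩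
      rintro ⟨h4, h5⟩
      exact h3 ⟨h4, by omega⟩
  have h3 : ((m : L) * u) * ((γ : L) + δ * θ) =
      ((a0 * γ + d0 * δ * x : ℤ) : L) + ((a0 * δ + b0 * γ : ℤ) : L) * θ := by
    rw [e]
    have h4 : (b0 : L) * δ + d0 * γ = 0 := by exact_mod_cast congrArg (Int.cast (R := L)) h2
    have h5 := h.cube
    push_cast
    linear_combination θ ^ 2 * h4 + (d0 : L) * δ * h5
  have h4 : (m : L) ^ 3 * (y : L) ^ 2 * ((γ ^ 3 + x * δ ^ 3 : ℤ) : L) =
      (((a0 * γ + d0 * δ * x) ^ 3 + x * (a0 * δ + b0 * γ) ^ 3 : ℤ) : L) := by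
    rw [← NDESC.norm_lin h, ← NDESC.norm_lin h, ← h3]
    simp only [map_mul, map_intCast]
    linear_combination (-(m : L) ^ 3 * (((γ : L) + δ * θ) * σ ((γ : L) + δ * θ) *
      σ (σ ((γ : L) + δ * θ)))) * hNu
  have h5 : γ ^ 3 + x * δ ^ 3 ≠ 0 := by
    intro h0
    have h6 := NDESC.norm_lin h γ δ
    rw [h0, Int.cast_zero] at h6
    have h7 : (γ : L) + δ * θ = 0 := by
      rcases mul_eq_zero.1 h6 with h8 | h8
      · rcases mul_eq_zero.1 h8 with h9 | h9
        · exact h9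
        · exact (map_eq_zero σ).1 h9
      · exact (map_eq_zero σ).1 ((map_eq_zero σ).1 h8)
    have h8 := h.lin (γ : Eis) (δ : Eis) 0 (by
      rw [NDESC.ι_int, NDESC.ι_int, map_zero, zero_mul, add_zero]
      exact h7)
    refine hγδ ⟨?_, ?_⟩
    · have h9 := congrArg Eis.re h8.1
      rwa [intCast_re, zero_re] at h9
    · have h9 := congrArg Eis.re h8.2.1
      rwa [intCast_re, zero_re] at h9
  have h6 : m ^ 3 * y ^ 2 * (γ ^ 3 + x * δ ^ 3) =
      (a0 * γ + d0 * δ * x) ^ 3 + x * (a0 * δ + b0 * γ) ^ 3 := by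
    exact_mod_cast h4
  refine ⟨y * m * γ, y * m * δ, a0 * γ + d0 * δ * x, a0 * δ + b0 * γ, ?_, ?_⟩
  · rw [← h6]
    ring
  · have h7 : (y * m * γ) ^ 3 + x * (y * m * δ) ^ 3 = y ^ 3 * m ^ 3 * (γ ^ 3 + x * δ ^ 3) := by
      ring
    rw [h7]
    exact mul_ne_zero (mul_ne_zero (pow_ne_zero 3 hy) (pow_ne_zero 3 hm)) h5

end Pool.Agent.PT
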