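import Pool.Agent.PT.Stmts4

/-!
# NFIX: the fixed `S`-units
-/

set_option autoImplicit false

namespace Pool.Agent.PT

open Pool.Agent.Lib_helper18 Pool.Agent.Lib_helper18.Eis Pool.Agent.Lib_helper84.Cub
open IsDedekindDomain NumberField

namespace NFIX

theorem uni_prime : ∀ v : Pl, Prime (uni v)
  | none => prime_lam
  | some π => π.2.1

theorem lam_dvd_three : lam ∣ (3 : Eis) :=
  ⟨conj lam, by
    rw [mul_conj, norm_lam]
    rfl⟩

theorem uni_assoc (hSPP : SPP) {v v' : Pl} (h : Associated (uni v) (uni v')) : v = v' := by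
  obtain ⟨-, h2, -, h4, -, -⟩ := hSPP
  rcases v with _ | π <;> rcases v' with _ | π'
  · rfl
  · exact absurd (h.symm.dvd.trans lam_dvd_three) (h4 π').1
  · exact absurd (h.dvd.trans lam_dvd_three) (h4 π).1
  · rw [h2 π π' h]

theorem dvd_lam_of_dvd_three {l : Eis} (hl : Prime l) (h : l ∣ 3) : l ∣ lam := by
  have h1 : lam * conj lam = 3 := by
    rw [mul_conj, norm_lam]
    rfl
  have h2 : conj lam = -w ^ 2 * lam := by decide
  rw [← h1, h2] at h
  have h3 : lam * (-w ^ 2 * lam) = -w ^ 2 * lam ^ 2 := by ring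
  rw [h3] at h
  have hu : IsUnit (-w ^ 2) := by
    rw [isUnit_iff_norm]
    decide
  exact hl.dvd_of_dvd_pow ((hu.dvd_mul_left).1 h)

theorem exists_place (hSPP : SPP) (l : Eis) (hl : Prime l) : ∃ v : Pl, Associated l (uni v) := by
  by_cases h : l ∣ 3
  · exact ⟨none, hl.associated_of_dvd prime_lam (dvd_lam_of_dvd_three hl h)⟩
  · obtain ⟨π, hπ⟩ := hSPP.1 l hl h
    exact ⟨some π, hπ⟩

/-- elements with the same valuations -/
theorem dvd_of_V (hSPP : SPP) {a b : Eis} (ha : a ≠ 0) (hb : b ≠ 0)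
    (h : ∀ v : Pl, V (uni v) a = V (uni v) b) : a ∣ b := by
  rw [UniqueFactorizationMonoid.dvd_iff_emultiplicity_le ha]
  intro p hp
  obtain ⟨v, hv⟩ := exists_place hSPP p hp
  rw [← emultiplicity_eq_of_associated_left hv, ← emultiplicity_eq_of_associated_left hv,
    (fin (uni_prime v) ha).emultiplicity_eq_multiplicity,
    (fin (uni_prime v) hb).emultiplicity_eq_multiplicity]
  exact le_of_eq (congrArg _ (h v))

theorem unit_pow_six {x : Eis} (hx : IsUnit x) : x ^ 6 = 1 := by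
  obtain ⟨i, -, h⟩ := unit_cases hx
  have h1 : (w ^ i) ^ 6 = 1 := by
    rw [← pow_mul, mul_comm, show 6 * i = 3 * (2 * i) by ring, pow_mul, w_cube, one_pow]
  rcases h with rfl | rfl
  · exact h1
  · rw [Even.neg_pow (by decide), h1]

section

variable {x : ℤ} {L : Type} [Field L] [NumberField L] {ι : Eis →+* L} {θ : L}
  {σ c : L ≃ₐ[ℚ] L}

/-- the valuations at the primes above a place -/
theorem val_lt_iff (hSPP : SPP) (hNTR : NTR) (hx0 : x ≠ 0) (hx3 : ¬ (3 : ℤ) ∣ x)
    (hC : CubF x L ι θ σ c) {v : Pl} {P : HeightOneSpectrum (𝓞 L)} (hP : P ∈ Abv ι v) (a : Eis) :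
    P.valuation L (ι a) < 1 ↔ uni v ∣ a := by
  have hN := hNTR x L ι θ σ c hx0 hx3 hC
  obtain ⟨v', hP', h'⟩ := hN.2.1 P
  have hv : v' = v := uni_assoc hSPP
    ((uni_prime v').associated_of_dvd (uni_prime v) (h' _ hP))
  subst hv
  refine ⟨h' a, ?_⟩
  rintro ⟨d, rfl⟩
  rw [map_mul, map_mul]
  exact lt_of_le_of_lt (mul_le_of_le_one_right' (hN.1 P d)) hP

theorem abv_unique (hSPP : SPP) (hNTR : NTR) (hx0 : x ≠ 0) (hx3 : ¬ (3 : ℤ) ∣ x)
    (hC : CubF x L ι θ σ c) {v v' : Pl} {P : HeightOneSpectrum (𝓞 L)} (hP : P ∈ Abv ι v)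
    (hP' : P ∈ Abv ι v') : v = v' :=
  uni_assoc hSPP ((uni_prime v).associated_of_dvd (uni_prime v')
    ((val_lt_iff hSPP hNTR hx0 hx3 hC hP _).1 hP'))

theorem val_eq (hSPP : SPP) (hNTR : NTR) (hx0 : x ≠ 0) (hx3 : ¬ (3 : ℤ) ∣ x)
    (hC : CubF x L ι θ σ c) {v : Pl} {P : HeightOneSpectrum (𝓞 L)} (hP : P ∈ Abv ι v) {a : Eis}
    (ha : a ≠ 0) : P.valuation L (ι a) = P.valuation L (ι (uni v)) ^ V (uni v) a := by
  have hN := hNTR x L ι θ σ c hx0 hx3 hC
  obtain ⟨d, hd, hnd⟩ := V_split (uni_prime v) ha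
  have h1 : P.valuation L (ι d) = 1 := by
    refine le_antisymm (hN.1 P d) (not_lt.1 fun h => hnd ?_)
    exact (val_lt_iff hSPP hNTR hx0 hx3 hC hP d).1 h
  conv_lhs => rw [hd]
  rw [map_mul, map_pow, map_mul, map_pow, h1, mul_one]

/-- the valuations of an `S`-unit outside of `S` -/
theorem V_eq_of_unit (hSPP : SPP) (hNTR : NTR) (hx0 : x ≠ 0) (hx3 : ¬ (3 : ℤ) ∣ x)
    (hC : CubF x L ι θ σ c) {S : Finset Pl} {u : Lˣ} (hu : u ∈ SU ι S) {a b : Eis} (ha : a ≠ 0)
    (hb : b ≠ 0) (h : (u : L) * ι b = ι a) {v : Pl} (hv : v ∉ S) :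
    V (uni v) a = V (uni v) b := by
  have hN := hNTR x L ι θ σ c hx0 hx3 hC
  obtain ⟨P, hP⟩ := (hN.2.2.2.1 v).2
  have hPS : P ∉ ⋃ v ∈ S, Abv ι v := by
    simp only [Set.mem_iUnion, not_exists]
    intro v' hv' hP'
    have := abv_unique hSPP hNTR hx0 hx3 hC hP hP'
    subst this
    exact hv hv'
  have h1 : P.valuation L (u : L) = 1 := hu P hPS
  have h2 := congrArg (P.valuation L) h
  rw [map_mul, h1, one_mul, val_eq hSPP hNTR hx0 hx3 hC hP ha,
    val_eq hSPP hNTR hx0 hx3 hC hP hb] at h2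
  have h0 : P.valuation L (ι (uni v)) ≠ 0 := by
    rw [Valuation.ne_zero_iff]
    intro h3
    exact (uni_prime v).ne_zero (hC.inj (h3.trans (map_zero ι).symm))
  have h3 : P.valuation L (ι (uni v)) < 1 := hP
  exact (pow_right_injective₀ (zero_lt_iff.2 h0) h3.ne h2).symm

end

/-- independence of the representation -/
theorem V_sub {L : Type} [Field L] {ι : Eis →+* L} (hι : Function.Injective ι) {u : L}
    {a b a' b' : Eis} (ha : a ≠ 0) (hb : b ≠ 0) (ha' : a' ≠ 0) (hb' : b' ≠ 0)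
    (h : u * ι b = ι a) (h' : u * ι b' = ι a') {l : Eis} (hl : Prime l) :
    (V l a : ℤ) - V l b = (V l a' : ℤ) - V l b' := by
  have h1 : a * b' = a' * b := by
    apply hι
    rw [map_mul, map_mul, ← h, ← h']
    ring
  have h2 := congrArg (V l) h1
  rw [V_mul hl ha hb', V_mul hl ha' hb] at h2
  omega

end NFIX

open NFIX in
/-- NFIX: the fixed `S`-units. -/
theorem NFIX_thm (hSPP : SPP) (hNHN : NHN) (hNTR : NTR) : NFIX := by
  classical
  intro x L _ _ ι θ σ c hx0 hx3 hC S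
  have hN := hNTR x L ι θ σ c hx0 hx3 hC
  have hinj := hC.inj
  -- elements of `Z[w]`
  have h1 : ∀ (u : Lˣ) (a : Eis), (u : L) = ι a → (∀ v : Pl, uni v ∣ a → v ∈ S) →
      u ∈ SF ι σ S := by
    intro u a hu ha
    refine ⟨?_, ?_⟩
    · intro P hP
      change P.valuation L (u : L) = 1
      rw [hu]
      refine le_antisymm (hN.1 P a) (not_lt.1 fun hlt => hP ?_)
      obtain ⟨v, hPv, hv⟩ := hN.2.1 P
      exact Set.mem_iUnion₂.2 ⟨v, ha v (hv a hlt), hPv⟩
    · apply Units.ext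
      change σ (u : L) = u
      rw [hu, hC.sι]
  have h2 : ∀ u ∈ SF ι σ S, ∃ a b : Eis, a ≠ 0 ∧ b ≠ 0 ∧ (u : L) * ι b = ι a := by
    rintro u ⟨-, hu⟩
    have hσ : σ (u : L) = u := congrArg Units.val hu
    obtain ⟨a, b, hb, hab⟩ := (hNHN x L ι θ σ c hx0 hC).2.1 u hσ
    refine ⟨a, b, ?_, hb, hab⟩
    rintro rfl
    rw [map_zero] at hab
    rcases mul_eq_zero.1 hab with h | h
    · exact u.ne_zero h
    · exact hb (hinj (h.trans (map_zero ι).symm))
  refine ⟨h1, h2, ?_⟩
  -- the valuation map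
  choose! A B hA hB hAB using h2
  let F : Additive (SF ι σ S) →+ (S → ℤ) :=
    { toFun := fun u v => (V (uni v) (A u.toMul) : ℤ) - V (uni v) (B u.toMul)
      map_zero' := by
        funext v
        have h3 : ((1 : SF ι σ S) : Lˣ) ∈ SF ι σ S := (1 : SF ι σ S).2
        have h4 : (((1 : SF ι σ S) : Lˣ) : L) * ι 1 = ι 1 := by
          rw [map_one, mul_one]
          rfl
        have := V_sub hinj (hA _ h3) (hB _ h3) one_ne_zero one_ne_zero (hAB _ h3) h4
          (uni_prime v)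
        change (V (uni v) (A ((1 : SF ι σ S) : Lˣ)) : ℤ) - V (uni v) (B ((1 : SF ι σ S) : Lˣ)) = 0
        rw [this, sub_self]
      map_add' := by
        intro u u'
        funext v
        have hu := u.toMul.2
        have hu' := u'.toMul.2
        have huu := (u.toMul * u'.toMul).2
        have h4 : (((u.toMul * u'.toMul : SF ι σ S) : Lˣ) : L) *
            ι (B u.toMul * B u'.toMul) = ι (A u.toMul * A u'.toMul) := by
          rw [map_mul, map_mul, ← hAB _ hu, ← hAB _ hu']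
          change ((u.toMul : Lˣ) : L) * ((u'.toMul : Lˣ) : L) * _ = _
          ring
        have h5 := V_sub hinj (hA _ huu) (hB _ huu) (mul_ne_zero (hA _ hu) (hA _ hu'))
          (mul_ne_zero (hB _ hu) (hB _ hu')) (hAB _ huu) h4 (uni_prime v)
        rw [V_mul (uni_prime v) (hA _ hu) (hA _ hu'), V_mul (uni_prime v) (hB _ hu) (hB _ hu')]
          at h5
        change (V (uni v) (A ((u.toMul * u'.toMul : SF ι σ S) : Lˣ)) : ℤ) -
          V (uni v) (B ((u.toMul * u'.toMul : SF ι σ S) : Lˣ)) =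
          ((V (uni v) (A u.toMul) : ℤ) - V (uni v) (B u.toMul)) +
          ((V (uni v) (A u'.toMul) : ℤ) - V (uni v) (B u'.toMul))
        rw [h5]
        push_cast
        ring }
  have hF : ∀ (u : SF ι σ S) (v : S), F (Additive.ofMul u) v =
      (V (uni v) (A (u : Lˣ)) : ℤ) - V (uni v) (B (u : Lˣ)) := fun _ _ => rfl
  let G : Additive (SF ι σ S) →ₗ[ℤ] (S → ℤ) := F.toIntLinearMap
  have hG : ∀ u, G u = F u := fun _ => rfl
  -- surjectivity
  have hsurj : Function.Surjective G := by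
    rw [← LinearMap.range_eq_top, ← top_le_iff, ← (Pi.basisFun ℤ S).span_eq, Submodule.span_le]
    rintro _ ⟨v, rfl⟩
    rw [Pi.basisFun_apply]
    have hne : ι (uni v) ≠ 0 := fun h => (uni_prime v).ne_zero (hinj (h.trans (map_zero ι).symm))
    have hmem : Units.mk0 (ι (uni v)) hne ∈ SF ι σ S := by
      refine h1 _ (uni v) rfl fun v' hv' => ?_
      have := uni_assoc hSPP ((uni_prime v').associated_of_dvd (uni_prime v) hv')
      rw [this]
      exact v.2
    refine ⟨Additive.ofMul ⟨_, hmem⟩, ?_⟩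
    funext v'
    rw [hG, hF]
    have h3 : ((Units.mk0 (ι (uni v)) hne : Lˣ) : L) * ι 1 = ι (uni v) := by
      rw [map_one, mul_one]
      rfl
    rw [V_sub hinj (hA _ hmem) (hB _ hmem) (uni_prime v).ne_zero one_ne_zero (hAB _ hmem) h3
      (uni_prime v'), V_eq_zero (fun h => (uni_prime v').not_isUnit (isUnit_of_dvd_one h))]
    by_cases hvv : v' = v
    · subst hvv
      rw [V_self, Pi.single_eq_same]
      norm_num
    · rw [Pi.single_eq_of_ne hvv, V_eq_zero]
      · norm_num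
      · intro h
        exact hvv (Subtype.ext (uni_assoc hSPP
          ((uni_prime v').associated_of_dvd (uni_prime v) h)))
  -- the kernel
  have hker : Module.rank ℤ (LinearMap.ker G) = 0 := by
    rw [rank_eq_zero_iff]
    rintro ⟨u, hu⟩
    refine ⟨6, by norm_num, ?_⟩
    apply Subtype.ext
    have hu0 : G u = 0 := hu
    have hmem := u.toMul.2
    have hVS : ∀ v : Pl, V (uni v) (A u.toMul) = V (uni v) (B u.toMul) := by
      intro v
      by_cases hv : v ∈ S
      · have h3 := congrFun hu0 ⟨v, hv⟩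
        have h4 : (V (uni v) (A u.toMul) : ℤ) - V (uni v) (B u.toMul) = 0 := h3
        omega
      · exact V_eq_of_unit hSPP hNTR hx0 hx3 hC hmem.1 (hA _ hmem) (hB _ hmem) (hAB _ hmem) hv
    obtain ⟨d, hd⟩ := dvd_of_V hSPP (hB _ hmem) (hA _ hmem) fun v => (hVS v).symm
    obtain ⟨d', hd'⟩ := dvd_of_V hSPP (hA _ hmem) (hB _ hmem) hVS
    have hdd : d * d' = 1 := by
      have h3 : B u.toMul * (d * d') = B u.toMul * 1 := by
        rw [← mul_assoc, ← hd, ← hd', mul_one]
      exact mul_left_cancel₀ (hB _ hmem) h3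
    have hud : ((u.toMul : Lˣ) : L) = ι d := by
      have h3 := hAB _ hmem
      have h4 : ι (B u.toMul) ≠ 0 := fun h => hB _ hmem (hinj (h.trans (map_zero ι).symm))
      rw [hd, map_mul, mul_comm (ι _)] at h3
      exact mul_right_cancel₀ h4 h3
    have h6 : u.toMul ^ 6 = 1 := by
      apply Subtype.ext
      apply Units.ext
      change ((u.toMul : Lˣ) : L) ^ 6 = 1
      rw [hud, ← map_pow, unit_pow_six (IsUnit.of_mul_eq_one _ hdd), map_one]
    change (6 : ℤ) • u = 0
    exact_mod_cast congrArg Additive.ofMul h6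
  have hrank : Module.rank ℤ (Additive (SF ι σ S)) = S.card := by
    rw [LinearMap.rank_eq_of_surjective hsurj, hker, add_zero, rank_fun']
    simp
  rw [Module.finrank, hrank]
  exact Cardinal.toNat_natCast _

end Pool.Agent.PT
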