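import Pool.Agent.PT.Stmts4

/-!
# A set of places and sufficiently many units with independent symbols
-/

set_option autoImplicit false

open NumberField IsDedekindDomain Finset
open scoped nonZeroDivisors Pointwise

namespace Pool.Agent.PT

open Pool.Agent.Lib_helper18 Pool.Agent.Lib_helper18.Eis Pool.Agent.Lib_helper84.Cub

namespace NGEN

theorem cast_ne {n : ℤ} (h : n ≠ 0) : (n : Eis) ≠ 0 := by
  intro h0
  apply h
  have := congrArg Eis.re h0
  simpa using this

theorem ppPrim (π : PP) : Prim π.1 := ⟨π.2.2.2, by have := π.2.2.1; omega⟩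

theorem intPrim {x : ℤ} (h : ¬ (3 : ℤ) ∣ x) : Prim (x : Eis) := ⟨by simp, by simpa using h⟩

theorem tm_of_not_dvd {π a b : Eis} (ha : ¬ π ∣ a) (hb : ¬ π ∣ b) : tm π a b = 0 := by
  unfold tm
  rw [V_eq_zero ha, V_eq_zero hb]
  simp

theorem ch_of_not_dvd {π a : Eis} (ha : ¬ π ∣ a) : ch π a = sym π a := by
  unfold ch up
  rw [V_eq_zero ha, pow_zero, EuclideanDomain.div_one]

theorem eq_of_dvd (hSPP : SPP) {π ρ : PP} (h : π.1 ∣ ρ.1) : π = ρ :=
  hSPP.2.1 π ρ ((Prime.dvd_prime_iff_associated π.2.1 ρ.2.1).1 h)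

theorem not_three (hSPP : SPP) (π : PP) : ¬ π.1 ∣ 3 := (hSPP.2.2.2.1 π).1

theorem sl_eq {a b : Eis} (F : Finset PP) (hF : ∀ π : PP, π.1 ∣ a ∨ π.1 ∣ b → π ∈ F) :
    sl a b = - ∑ π ∈ F, tm π.1 a b := by
  unfold sl
  congr 1
  apply finsum_eq_sum_of_support_subset
  intro π hπ
  rw [Finset.mem_coe]
  apply hF
  by_contra h
  rw [not_or] at h
  exact hπ (tm_of_not_dvd h.1 h.2)

theorem recPP (hSPP : SPP) (hSREC : SREC) {π ρ : PP} (h : π ≠ ρ) : sym ρ.1 π.1 = sym π.1 ρ.1 := by
  classical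
  have h1 := hSREC.1 π.1 ρ.1 (ppPrim π) (ppPrim ρ)
  have hd1 : ¬ π.1 ∣ ρ.1 := fun hd => h (eq_of_dvd hSPP hd)
  have hd2 : ¬ ρ.1 ∣ π.1 := fun hd => h (eq_of_dvd hSPP hd).symm
  rw [sl_eq {π, ρ} (fun v hv => by
    rcases hv with hv | hv
    · rw [eq_of_dvd hSPP hv]
      simp
    · rw [eq_of_dvd hSPP hv]
      simp), Finset.sum_pair h, neg_eq_zero] at h1
  unfold tm at h1
  rw [V_eq_zero hd1, V_eq_zero hd2, V_self, V_self, ch_of_not_dvd hd1, ch_of_not_dvd hd2] at h1
  push_cast at h1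
  rw [zero_mul, one_mul, one_mul, zero_mul, zero_sub, sub_zero] at h1
  have h2 := eq_neg_of_add_eq_zero_right h1
  rw [neg_neg] at h2
  exact h2

/-- the symbol of `x` at a prime not dividing it -/
theorem ch_eq (hSPP : SPP) (hSREC : SREC) {x : ℤ} (h3 : ¬ (3 : ℤ) ∣ x) (D : Finset PP)
    (hD : ∀ π : PP, π ∈ D ↔ π.1 ∣ (x : Eis)) (ρ : PP) (hρ : ρ ∉ D) :
    ch ρ.1 (x : Eis) = ∑ π ∈ D, (V π.1 (x : Eis) : ZMod 3) * sym π.1 ρ.1 := by
  classical
  have h1 := hSREC.1 ρ.1 (x : Eis) (ppPrim ρ) (intPrim h3)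
  have hρx : ¬ ρ.1 ∣ (x : Eis) := fun h => hρ ((hD ρ).2 h)
  rw [sl_eq (insert ρ D) (fun v hv => by
    rcases hv with hv | hv
    · rw [eq_of_dvd hSPP hv]
      exact Finset.mem_insert_self _ _
    · exact Finset.mem_insert_of_mem ((hD v).2 hv)), Finset.sum_insert hρ, neg_eq_zero] at h1
  have h2 : tm ρ.1 ρ.1 (x : Eis) = - ch ρ.1 (x : Eis) := by
    unfold tm
    rw [V_eq_zero hρx, V_self]
    push_cast
    ring
  have h3' : ∑ π ∈ D, tm π.1 ρ.1 (x : Eis) = ∑ π ∈ D, (V π.1 (x : Eis) : ZMod 3) * sym π.1 ρ.1 := by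
    apply Finset.sum_congr rfl
    intro π hπ
    have hne : π ≠ ρ := fun h => hρ (h ▸ hπ)
    have hd1 : ¬ π.1 ∣ ρ.1 := fun hd => hne (eq_of_dvd hSPP hd)
    unfold tm
    rw [V_eq_zero hd1, ch_of_not_dvd hd1]
    push_cast
    ring
  rw [h2, h3'] at h1
  rw [← add_right_inj (-ch ρ.1 (x : Eis)), h1]
  ring

theorem tm_eq (hSPP : SPP) {x : ℤ} {π ρ : PP} (hne : π ≠ ρ) :
    tm π.1 ρ.1 (x : Eis) = (V π.1 (x : Eis) : ZMod 3) * sym π.1 ρ.1 := by
  have hd1 : ¬ π.1 ∣ ρ.1 := fun hd => hne (eq_of_dvd hSPP hd)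
  unfold tm
  rw [V_eq_zero hd1, ch_of_not_dvd hd1]
  push_cast
  ring

theorem V_prod {κ : Type} [Fintype κ] {l : Eis} (hl : Prime l) (d : κ → Eis) (hd : ∀ i, d i ≠ 0)
    (n : κ → ℕ) : V l (∏ i, d i ^ n i) = ∑ i, n i * V l (d i) := by
  classical
  have : ∀ t : Finset κ, V l (∏ i ∈ t, d i ^ n i) = ∑ i ∈ t, n i * V l (d i) := by
    intro t
    induction t using Finset.induction_on with
    | empty =>
      rw [Finset.prod_empty, Finset.sum_empty]
      exact V_eq_zero (fun h => hl.not_unit (isUnit_of_dvd_one h))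
    | insert i t hi ih =>
      rw [Finset.prod_insert hi, Finset.sum_insert hi,
        V_mul hl (pow_ne_zero _ (hd i)) (Finset.prod_ne_zero_iff.2 (fun j _ => pow_ne_zero _ (hd j))),
        V_pow hl (hd i), ih]
  exact this Finset.univ

theorem mul_indep {κ : Type} [Fintype κ] (d : κ → Eis) (hd : ∀ i, d i ≠ 0)
    (h : ∀ i, ∃ l : Eis, Prime l ∧ V l (d i) ≠ 0 ∧ ∀ j, j ≠ i → V l (d j) = 0) (n m : κ → ℕ)
    (he : ∏ i, d i ^ n i = ∏ i, d i ^ m i) : n = m := by
  classical
  funext i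
  obtain ⟨l, hl, h1, h2⟩ := h i
  have h3 : ∀ n : κ → ℕ, ∑ j, n j * V l (d j) = n i * V l (d i) := by
    intro n
    apply Finset.sum_eq_single i
    · intro j _ hj
      rw [h2 j hj, mul_zero]
    · intro h
      exact absurd (Finset.mem_univ _) h
  have h4 := congrArg (V l) he
  rw [V_prod hl d hd, V_prod hl d hd, h3, h3] at h4
  exact Nat.eq_of_mul_eq_mul_right (Nat.pos_of_ne_zero h1) h4

/-- choice of distinct objects with given properties -/
theorem choose_distinct {κ α : Type} [DecidableEq α] (P : κ → α → Prop) (A : Finset α)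
    (h : ∀ (k : κ) (B : Finset α), ∃ a, a ∉ B ∧ P k a) (T : Finset κ) :
    ∃ f : κ → α, (∀ k ∈ T, P k (f k) ∧ f k ∉ A) ∧ ∀ k ∈ T, ∀ l ∈ T, f k = f l → k = l := by
  classical
  induction T using Finset.induction_on with
  | empty =>
    refine ⟨fun k => (h k ∅).choose, ?_, ?_⟩
    · intro k hk
      simp at hk
    · intro k hk
      simp at hk
  | insert k T hk ih =>
    obtain ⟨f, hf1, hf2⟩ := ih
    obtain ⟨a, ha1, ha2⟩ := h k (A ∪ T.image f)
    rw [Finset.mem_union, not_or] at ha1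
    have hne : ∀ l ∈ T, a ≠ f l := fun l hl he => ha1.2 (he ▸ Finset.mem_image_of_mem f hl)
    refine ⟨Function.update f k a, ?_, ?_⟩
    · intro l hl
      rcases Finset.mem_insert.1 hl with rfl | hl
      · rw [Function.update_self]
        exact ⟨ha2, ha1.1⟩
      · have hlk : l ≠ k := fun he => hk (he ▸ hl)
        rw [Function.update_of_ne hlk]
        exact hf1 l hl
    · intro l hl m hm he
      by_cases hlk : l = k
      · by_cases hmk : m = k
        · rw [hlk, hmk]
        · have hmT : m ∈ T := Finset.mem_of_mem_insert_of_ne hm hmk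
          rw [hlk, Function.update_self, Function.update_of_ne hmk] at he
          exact absurd he (hne m hmT)
      · have hlT : l ∈ T := Finset.mem_of_mem_insert_of_ne hl hlk
        by_cases hmk : m = k
        · rw [hmk, Function.update_self, Function.update_of_ne hlk] at he
          exact absurd he.symm (hne l hlT)
        · have hmT : m ∈ T := Finset.mem_of_mem_insert_of_ne hm hmk
          rw [Function.update_of_ne hlk, Function.update_of_ne hmk] at he
          exact hf2 l hlT m hmT he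

theorem wt_ne {x : ℤ} (h3 : ¬ (3 : ℤ) ∣ x) (h : ¬ C9 x) : wt ((x : Eis).norm) ≠ 0 := by
  rw [norm_intCast]
  unfold wt
  intro h0
  rw [ZMod.intCast_zmod_eq_zero_iff_dvd] at h0
  apply h
  unfold C9
  have hx : x % 9 = 0 ∨ x % 9 = 1 ∨ x % 9 = 2 ∨ x % 9 = 3 ∨ x % 9 = 4 ∨ x % 9 = 5 ∨ x % 9 = 6 ∨
      x % 9 = 7 ∨ x % 9 = 8 := by omega
  have h2 : x ^ 2 % 9 = ((x % 9) * (x % 9)) % 9 := by
    rw [pow_two]
    simp [Int.mul_emod]
  rcases hx with h | h | h | h | h | h | h | h | h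
  · exact absurd (by omega) h3
  · exact Or.inl h
  · rw [h] at h2
    push_cast at h0
    omega
  · exact absurd (by omega) h3
  · rw [h] at h2
    push_cast at h0
    omega
  · rw [h] at h2
    push_cast at h0
    omega
  · exact absurd (by omega) h3
  · rw [h] at h2
    push_cast at h0
    omega
  · exact Or.inr h

/-- `x` is divisible by an element of `PP` -/
theorem exists_dvd (hSPP : SPP) {x : ℤ} (h0 : x ≠ 0) (h3 : ¬ (3 : ℤ) ∣ x)
    (hc : ¬ ∃ c : ℤ, c ^ 3 = x) : ∃ π : PP, π.1 ∣ (x : Eis) := by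
  have h1 : x.natAbs ≠ 1 := by
    intro h
    rcases Int.natAbs_eq x with h' | h'
    · exact hc ⟨1, by rw [h', h]; rfl⟩
    · exact hc ⟨-1, by rw [h', h]; rfl⟩
  obtain ⟨p, hp, hpx⟩ := Nat.exists_prime_and_dvd h1
  have hpx' : (p : ℤ) ∣ x := Int.natCast_dvd.2 hpx
  have hp3 : ¬ (3 : ℤ) ∣ (p : ℤ) := fun h => h3 (h.trans hpx')
  have hpu : ¬ IsUnit ((p : ℤ) : Eis) := by
    rw [Eis.isUnit_iff_norm, norm_intCast]
    have := hp.two_le
    intro h
    have h2 : (2 : ℤ) ≤ (p : ℤ) := by exact_mod_cast this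
    nlinarith
  have hp0 : ((p : ℤ) : Eis) ≠ 0 := cast_ne (by exact_mod_cast hp.ne_zero)
  obtain ⟨l, hl, hlp⟩ := WfDvdMonoid.exists_irreducible_factor hpu hp0
  have hlP : Prime l := hl.prime
  have hl3 : ¬ l ∣ 3 := by
    intro h
    rw [dvd_three_iff hlP] at h
    have h4 : lam ∣ ((p : ℤ) : Eis) := h.symm.dvd.trans hlp
    rw [lam_dvd_iff] at h4
    apply hp3
    simpa using h4
  obtain ⟨π, hπ⟩ := hSPP.1 l hlP hl3
  refine ⟨π, hπ.symm.dvd.trans (hlp.trans ?_)⟩
  obtain ⟨k, hk⟩ := hpx'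
  exact ⟨(k : Eis), by rw [hk]; push_cast; rfl⟩

open Classical in
/-- from a finite type to `Fin e` -/
theorem transfer {κ : Type} [Fintype κ] (x : ℤ) (S₀ S : Finset Pl) (d : κ → Eis) (hS : S₀ ⊆ S)
    (hLC : ∀ v ∈ S, v ∉ S₀ → LC (uni v) x)
    (hcard : (S.filter fun v => ¬ LC (uni v) x).card = Fintype.card κ + 1)
    (hd0 : ∀ i, d i ≠ 0) (hdS : ∀ i (v : Pl), uni v ∣ d i → v ∈ S)
    (hmul : ∀ n m : κ → ℕ, ∏ i, d i ^ n i = ∏ i, d i ^ m i → n = m)
    (hind : ∀ n : κ → ZMod 3, (∀ v : Pl, ∑ i, n i * sy v (d i) (x : Eis) = 0) → n = 0) :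
    ∃ (S : Finset Pl) (e : ℕ) (d : Fin e → Eis), S₀ ⊆ S ∧ (∀ v ∈ S, v ∉ S₀ → LC (uni v) x) ∧
    (S.filter fun v => ¬ LC (uni v) x).card = e + 1 ∧
    (∀ i, d i ≠ 0) ∧ (∀ i (v : Pl), uni v ∣ d i → v ∈ S) ∧
    (∀ n m : Fin e → ℕ, ∏ i, d i ^ n i = ∏ i, d i ^ m i → n = m) ∧
    (∀ n : Fin e → ZMod 3, (∀ v : Pl, ∑ i, n i * sy v (d i) (x : Eis) = 0) → n = 0) := by
  let E : Fin (Fintype.card κ) ≃ κ := (Fintype.equivFin κ).symm
  refine ⟨S, Fintype.card κ, fun i => d (E i), hS, hLC, hcard, fun i => hd0 _,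
    fun i v h => hdS _ v h, ?_, ?_⟩
  · intro n m h
    have h1 : ∀ n : Fin (Fintype.card κ) → ℕ,
        ∏ i, d (E i) ^ n i = ∏ k, d k ^ n (E.symm k) := by
      intro n
      rw [← E.prod_comp]
      simp
    rw [h1, h1] at h
    have h2 := hmul _ _ h
    funext i
    have := congrFun h2 (E i)
    simpa using this
  · intro n h
    have h1 := hind (fun k => n (E.symm k)) (fun v => by
      rw [← h v, ← E.sum_comp]
      simp)
    funext i
    have := congrFun h1 (E i)
    simpa using this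

theorem V_cast {x : ℤ} (π : PP) (h : π.1 ∣ (x : Eis)) (h0 : x ≠ 0) (h2 : V π.1 (x : Eis) ≤ 2) :
    (V π.1 (x : Eis) : ZMod 3) * (V π.1 (x : Eis) : ZMod 3) = 1 ∧ ¬ 3 ∣ V π.1 (x : Eis) := by
  have h1 : V π.1 (x : Eis) ≠ 0 := fun h' => (V_eq_zero_iff.1 h') h
  have h3 : V π.1 (x : Eis) = 1 ∨ V π.1 (x : Eis) = 2 := by omega
  rcases h3 with h3 | h3
  · rw [h3]
    exact ⟨by decide, by decide⟩
  · rw [h3]
    exact ⟨by decide, by decide⟩

end NGEN

open NGEN in
open Classical in
/-- a set of places and sufficiently many units with independent symbols -/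
theorem NGEN_thm (hSTM : STM) (hSPP : SPP) (hSSL : SSL) (hSREC : SREC) (hLCI : LCI)
    (hNAUX : NAUX) : NGEN := by
  intro x S₀ hx0 hx3 hV hcube hnone hS0 hS0'
  obtain ⟨D, hD⟩ : ∃ D : Finset PP, ∀ π : PP, π ∈ D ↔ π.1 ∣ (x : Eis) := by
    refine ⟨(hSPP.2.2.1 (x : Eis) (cast_ne hx0)).toFinset, fun π => ?_⟩
    rw [Set.Finite.mem_toFinset]
    rfl
  obtain ⟨π₀, hπ₀⟩ := exists_dvd hSPP hx0 hx3 hcube
  have hπ₀D : π₀ ∈ D := (hD π₀).2 hπ₀
  have hVD : ∀ π ∈ D, (V π.1 (x : Eis) : ZMod 3) * (V π.1 (x : Eis) : ZMod 3) = 1 ∧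
      ¬ 3 ∣ V π.1 (x : Eis) := fun π hπ => V_cast π ((hD π).1 hπ) hx0 (hV π)
  let κ : Type := {k // k ∈ D.erase π₀}
  -- the vectors
  let r : κ → PP → ZMod 3 := fun k π => if π = k.1 then 1 else
    if π = π₀ then - (V k.1.1 (x : Eis) : ZMod 3) * (V π₀.1 (x : Eis) : ZMod 3) else 0
  have hkD : ∀ k : κ, k.1 ∈ D ∧ k.1 ≠ π₀ := fun k =>
    ⟨Finset.mem_of_mem_erase k.2, Finset.ne_of_mem_erase k.2⟩
  have hr0 : ∀ k : κ, ∑ π ∈ D, (V π.1 (x : Eis) : ZMod 3) * r k π = 0 := by
    intro k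
    obtain ⟨hk1, hk2⟩ := hkD k
    have h1 : ∑ π ∈ D, (V π.1 (x : Eis) : ZMod 3) * r k π =
        ∑ π ∈ ({k.1, π₀} : Finset PP), (V π.1 (x : Eis) : ZMod 3) * r k π := by
      symm
      apply Finset.sum_subset
      · intro π hπ
        rcases Finset.mem_insert.1 hπ with rfl | hπ
        · exact hk1
        · rw [Finset.mem_singleton.1 hπ]
          exact hπ₀D
      · intro π _ hπ
        rw [Finset.mem_insert, Finset.mem_singleton, not_or] at hπ
        simp only [r]
        rw [if_neg hπ.1, if_neg hπ.2, mul_zero]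
    have hr1 : r k k.1 = 1 := if_pos rfl
    have hr2 : r k π₀ = - (V k.1.1 (x : Eis) : ZMod 3) * (V π₀.1 (x : Eis) : ZMod 3) := by
      change (if π₀ = k.1 then (1 : ZMod 3) else
        if π₀ = π₀ then - (V k.1.1 (x : Eis) : ZMod 3) * (V π₀.1 (x : Eis) : ZMod 3) else 0) = _
      rw [if_neg hk2.symm, if_pos rfl]
    rw [h1, Finset.sum_pair hk2, hr1, hr2]
    have h2 := (hVD π₀ hπ₀D).1
    calc (V k.1.1 (x : Eis) : ZMod 3) * 1 + (V π₀.1 (x : Eis) : ZMod 3) *
          (- (V k.1.1 (x : Eis) : ZMod 3) * (V π₀.1 (x : Eis) : ZMod 3))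
        = (V k.1.1 (x : Eis) : ZMod 3) * (1 - (V π₀.1 (x : Eis) : ZMod 3) *
          (V π₀.1 (x : Eis) : ZMod 3)) := by ring
      _ = 0 := by rw [h2, sub_self, mul_zero]
  have hrk : ∀ k l : κ, r k l.1 = if l = k then 1 else 0 := by
    intro k l
    simp only [r]
    by_cases h : l = k
    · rw [h, if_pos rfl, if_pos rfl]
    · rw [if_neg (fun h' => h (Subtype.ext h')), if_neg (hkD l).2, if_neg h]
  -- the auxiliary primes
  have hex : ∀ (k : κ) (A : Finset PP), ∃ ρ : PP, ρ ∉ A ∧ ∃ ε : ZMod 3, ε ≠ 0 ∧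
      ∀ π ∈ D, sym ρ.1 π.1 = ε * r k π := by
    intro k A
    obtain ⟨ρ, hρ, ε, hε, h⟩ := hNAUX D.card (fun i => (D.equivFin.symm i).1)
      (fun i => r k (D.equivFin.symm i).1) A (fun i j h => by
        exact D.equivFin.symm.injective (Subtype.ext h))
    refine ⟨ρ, hρ, ε, hε, fun π hπ => ?_⟩
    have := h (D.equivFin ⟨π, hπ⟩)
    simpa using this
  let A₀ : Finset PP := (S₀.biUnion fun v => match v with
    | none => ∅
    | some π => {π})
  have hA₀ : ∀ π : PP, π ∈ A₀ ↔ some π ∈ S₀ := by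
    intro π
    simp only [A₀, Finset.mem_biUnion]
    constructor
    · rintro ⟨v, hv, hπ⟩
      cases v with
      | none => simp at hπ
      | some π' =>
        have : π = π' := by simpa using hπ
        rw [this]
        exact hv
    · intro h
      exact ⟨some π, h, by simp⟩
  obtain ⟨ρ, hρ1, hρ2⟩ := choose_distinct (κ := κ) (α := PP)
    (fun k ρ => ∃ ε : ZMod 3, ε ≠ 0 ∧ ∀ π ∈ D, sym ρ.1 π.1 = ε * r k π) A₀ hex Finset.univ
  have hρS : ∀ k, some (ρ k) ∉ S₀ := fun k h => (hρ1 k (Finset.mem_univ _)).2 ((hA₀ _).2 h)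
  have hρD : ∀ k, ρ k ∉ D := fun k h => hρS k (hS0 _ ((hD _).1 h))
  have hρinj : ∀ k l, ρ k = ρ l → k = l := fun k l h =>
    hρ2 k (Finset.mem_univ _) l (Finset.mem_univ _) h
  choose ε hε hsym using fun k => (hρ1 k (Finset.mem_univ _)).1
  have hsym' : ∀ k, ∀ π ∈ D, sym π.1 (ρ k).1 = ε k * r k π := by
    intro k π hπ
    have hne : π ≠ ρ k := fun h => hρD k (h ▸ hπ)
    rw [← recPP hSPP hSREC hne]
    exact hsym k π hπ
  have htm : ∀ k, ∀ π ∈ D, tm π.1 (ρ k).1 (x : Eis) =
      (V π.1 (x : Eis) : ZMod 3) * (ε k * r k π) := by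
    intro k π hπ
    have hne : π ≠ ρ k := fun h => hρD k (h ▸ hπ)
    rw [tm_eq hSPP hne, hsym' k π hπ]
  have htm0 : ∀ k, ∑ π ∈ D, tm π.1 (ρ k).1 (x : Eis) = 0 := by
    intro k
    rw [Finset.sum_congr rfl (htm k)]
    have h1 : ∀ π ∈ D, (V π.1 (x : Eis) : ZMod 3) * (ε k * r k π) =
        ε k * ((V π.1 (x : Eis) : ZMod 3) * r k π) := fun π _ => by ring
    rw [Finset.sum_congr rfl h1, ← Finset.mul_sum, hr0 k, mul_zero]
  have hLCρ : ∀ k, LC (ρ k).1 x := by
    intro k
    rw [hLCI.1 (ρ k) x hx0]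
    have hnd : ¬ (ρ k).1 ∣ (x : Eis) := fun h => hρD k ((hD _).2 h)
    refine ⟨by rw [V_eq_zero hnd]; exact dvd_zero _, ?_⟩
    rw [ch_eq hSPP hSREC hx3 D hD (ρ k) (hρD k)]
    have h1 : ∀ π ∈ D, (V π.1 (x : Eis) : ZMod 3) * sym π.1 (ρ k).1 =
        ε k * ((V π.1 (x : Eis) : ZMod 3) * r k π) := fun π hπ => by
      rw [hsym' k π hπ]
      ring
    rw [Finset.sum_congr rfl h1, ← Finset.mul_sum, hr0 k, mul_zero]
  have hLCD : ∀ π ∈ D, ¬ LC π.1 x := by
    intro π hπ h
    exact (hVD π hπ).2 ((hLCI.1 π x hx0).1 h).1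
  -- the set of places
  let S : Finset Pl := S₀ ∪ Finset.univ.image (fun k : κ => some (ρ k))
  have hmemS : ∀ v, v ∈ S ↔ v ∈ S₀ ∨ ∃ k, some (ρ k) = v := by
    intro v
    simp [S]
  have hLCS : ∀ v ∈ S, v ∉ S₀ → LC (uni v) x := by
    intro v hv hv0
    rcases (hmemS v).1 hv with h | ⟨k, rfl⟩
    · exact absurd h hv0
    · exact hLCρ k
  have hSsub : S₀ ⊆ S := fun v hv => (hmemS v).2 (Or.inl hv)
  have hcκ : Fintype.card κ + 1 = D.card := by
    have h1 : Fintype.card κ = (D.erase π₀).card := Fintype.card_coe _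
    rw [h1, Finset.card_erase_of_mem hπ₀D]
    have : 0 < D.card := Finset.card_pos.2 ⟨π₀, hπ₀D⟩
    omega
  have hfilter : ∀ v, v ∈ S.filter (fun v => ¬ LC (uni v) x) ↔
      v ∈ D.image some ∨ (v = none ∧ ¬ C9 x) := by
    intro v
    rw [Finset.mem_filter, hmemS]
    cases v with
    | none =>
      have h1 : ¬ LC (uni none) x ↔ ¬ C9 x := not_congr (hLCI.2.1 x hx3)
      rw [h1]
      constructor
      · rintro ⟨_, h⟩
        exact Or.inr ⟨rfl, h⟩
      · rintro (h | ⟨_, h⟩)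
        · simp at h
        · exact ⟨Or.inl hnone, h⟩
    | some π =>
      constructor
      · rintro ⟨h1, h2⟩
        left
        rw [Finset.mem_image]
        rcases h1 with h1 | ⟨k, hk⟩
        · exact ⟨π, (hD π).2 (hS0' π h1 h2), rfl⟩
        · exfalso
          have : ρ k = π := by simpa using hk
          exact h2 (this ▸ hLCρ k)
      · rintro (h | ⟨h, _⟩)
        · rw [Finset.mem_image] at h
          obtain ⟨π', hπ', he⟩ := h
          have : π' = π := by simpa using he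
          subst this
          exact ⟨Or.inl (hS0 _ ((hD _).1 hπ')), hLCD _ hπ'⟩
        · simp at h
  have hVρ : ∀ k l, V (ρ k).1 (ρ l).1 = if l = k then 1 else 0 := by
    intro k l
    by_cases h : l = k
    · rw [h, if_pos rfl]
      exact V_self
    · rw [if_neg h]
      apply V_eq_zero
      intro hd
      exact h (hρinj _ _ (eq_of_dvd hSPP hd)).symm
  have hρdS : ∀ (k : κ) (v : Pl), uni v ∣ (ρ k).1 → v ∈ S := by
    intro k v hv
    cases v with
    | none => exact hSsub hnone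
    | some π =>
      have : π = ρ k := eq_of_dvd hSPP hv
      rw [this]
      exact (hmemS _).2 (Or.inr ⟨k, rfl⟩)
  -- independence, first part
  have hsum : ∀ (n : κ → ZMod 3) (l : κ), ∑ k, n k * tm l.1.1 (ρ k).1 (x : Eis) =
      (V l.1.1 (x : Eis) : ZMod 3) * (ε l * n l) := by
    intro n l
    rw [Finset.sum_eq_single l]
    · rw [htm l l.1 (hkD l).1, hrk, if_pos rfl]
      ring
    · intro k _ hk
      rw [htm k l.1 (hkD l).1, hrk, if_neg (fun h => hk h.symm)]
      ring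
    · intro h
      exact absurd (Finset.mem_univ _) h
  have hzero : ∀ (l : κ) (a : ZMod 3), (V l.1.1 (x : Eis) : ZMod 3) * (ε l * a) = 0 → a = 0 := by
    intro l a h
    have h1 := (hVD l.1 (hkD l).1).1
    have h2 : (V l.1.1 (x : Eis) : ZMod 3) ≠ 0 := by
      intro h0
      rw [h0, mul_zero] at h1
      exact zero_ne_one h1
    rcases mul_eq_zero.1 h with h | h
    · exact absurd h h2
    · rcases mul_eq_zero.1 h with h | h
      · exact absurd h (hε l)
      · exact h
  by_cases h9 : C9 x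
  · refine transfer (κ := κ) x S₀ S (fun k => (ρ k).1) hSsub hLCS ?_
      (fun k => (ρ k).2.1.ne_zero) hρdS ?_ ?_
    · have h1 : S.filter (fun v => ¬ LC (uni v) x) = D.image some := by
        ext v
        rw [hfilter]
        constructor
        · rintro (h | ⟨_, h⟩)
          · exact h
          · exact absurd h9 h
        · exact fun h => Or.inl h
      rw [h1, Finset.card_image_of_injective _ (Option.some_injective _), hcκ]
    · apply mul_indep
      · exact fun k => (ρ k).2.1.ne_zero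
      · intro k
        refine ⟨(ρ k).1, (ρ k).2.1, ?_, ?_⟩
        · rw [hVρ, if_pos rfl]
          exact one_ne_zero
        · intro l hl
          rw [hVρ, if_neg hl]
    · intro n h
      funext l
      have h1 := h (some l.1)
      change ∑ k, n k * tm l.1.1 (ρ k).1 (x : Eis) = 0 at h1
      rw [hsum] at h1
      exact hzero l _ h1
  · have hnd : ∀ π : PP, ¬ π.1 ∣ w * lam ^ 3 := by
      intro π h
      rcases π.2.1.dvd_or_dvd h with h | h
      · apply π.2.1.not_unit
        apply isUnit_of_dvd_unit h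
        rw [Eis.isUnit_iff_norm]
        decide
      · have h2 := π.2.1.dvd_of_dvd_pow h
        exact not_three hSPP π (h2.trans lam_dvd_three)
    have hw0 : w ≠ 0 := by
      intro h
      have := congrArg Eis.im h
      revert this
      decide
    have hd0 : w * lam ^ 3 ≠ 0 := mul_ne_zero hw0 (pow_ne_zero _ prime_lam.ne_zero)
    let d : Option κ → Eis := fun o => match o with
      | none => w * lam ^ 3
      | some k => (ρ k).1
    have hd : ∀ o, d o ≠ 0 := by
      intro o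
      cases o with
      | none => exact hd0
      | some k => exact (ρ k).2.1.ne_zero
    refine transfer (κ := Option κ) x S₀ S d hSsub hLCS ?_ hd ?_ ?_ ?_
    · have h1 : S.filter (fun v => ¬ LC (uni v) x) = insert none (D.image some) := by
        ext v
        rw [hfilter, Finset.mem_insert]
        constructor
        · rintro (h | ⟨h, _⟩)
          · exact Or.inr h
          · exact Or.inl h
        · rintro (h | h)
          · exact Or.inr ⟨h, h9⟩
          · exact Or.inl h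
      rw [h1, Finset.card_insert_of_notMem (by simp),
        Finset.card_image_of_injective _ (Option.some_injective _), ← hcκ, Fintype.card_option]
    · intro o v hv
      cases o with
      | none =>
        cases v with
        | none => exact hSsub hnone
        | some π => exact absurd hv (hnd π)
      | some k => exact hρdS k v hv
    · apply mul_indep _ hd
      intro o
      cases o with
      | none =>
        refine ⟨lam, prime_lam, ?_, ?_⟩
        · intro h
          rw [V_eq_zero_iff] at h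
          exact h ⟨w * lam ^ 2, by simp only [d]; ring⟩
        · intro o ho
          cases o with
          | none => exact absurd rfl ho
          | some k => exact V_eq_zero (ppPrim (ρ k)).not_lam_dvd
      | some k =>
        refine ⟨(ρ k).1, (ρ k).2.1, ?_, ?_⟩
        · change V (ρ k).1 (ρ k).1 ≠ 0
          rw [V_self]
          exact one_ne_zero
        · intro o ho
          cases o with
          | none => exact V_eq_zero (hnd (ρ k))
          | some l =>
            change V (ρ k).1 (ρ l).1 = 0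
            rw [hVρ, if_neg (fun h => ho (by rw [h]))]
    · intro n h
      have hs : ∀ π : PP, n none * tm π.1 (w * lam ^ 3) (x : Eis) +
          ∑ k : κ, n (some k) * tm π.1 (ρ k).1 (x : Eis) = 0 := by
        intro π
        have h1 := h (some π)
        rw [Fintype.sum_option] at h1
        exact h1
      have hw : ∀ π : PP, tm π.1 (w * lam ^ 3) (x : Eis) = - tm π.1 (x : Eis) w := by
        intro π
        have hL := hSTM π.1 π.2.1 (not_three hSPP π)
        have hl0 : lam ≠ 0 := prime_lam.ne_zero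
        have hx0' := cast_ne hx0
        have e1 : (lam : Eis) ^ 3 = lam * lam * lam := by ring
        rw [hL.mul _ _ _ hw0 (pow_ne_zero _ hl0) hx0', e1,
          hL.mul _ _ _ (mul_ne_zero hl0 hl0) hl0 hx0', hL.mul _ _ _ hl0 hl0 hx0',
          hL.skew _ _ hx0' hw0]
        have e2 : tm π.1 lam (x : Eis) + tm π.1 lam (x : Eis) + tm π.1 lam (x : Eis) =
            3 * tm π.1 lam (x : Eis) := by ring
        have e3 : (3 : ZMod 3) = 0 := rfl
        rw [e2, e3, zero_mul, add_zero]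
      have h1 : ∑ π ∈ D, (n none * tm π.1 (w * lam ^ 3) (x : Eis) +
          ∑ k : κ, n (some k) * tm π.1 (ρ k).1 (x : Eis)) = 0 :=
        Finset.sum_eq_zero (fun π _ => hs π)
      rw [Finset.sum_add_distrib, Finset.sum_comm] at h1
      have h2 : ∑ k : κ, ∑ π ∈ D, n (some k) * tm π.1 (ρ k).1 (x : Eis) = 0 := by
        apply Finset.sum_eq_zero
        intro k _
        rw [← Finset.mul_sum, htm0 k, mul_zero]
      rw [h2, add_zero, ← Finset.mul_sum] at h1
      have h3 : ∑ π ∈ D, tm π.1 (w * lam ^ 3) (x : Eis) = wt ((x : Eis).norm) := by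
        rw [← hSREC.2.1 (x : Eis) (intPrim hx3), sl_eq D (fun π hπ => by
          rcases hπ with hπ | hπ
          · exact (hD π).2 hπ
          · exact absurd (hπ.mul_right _) (hnd π)), ← Finset.sum_neg_distrib]
        exact Finset.sum_congr rfl (fun π _ => hw π)
      rw [h3] at h1
      have hn0 : n none = 0 := by
        rcases mul_eq_zero.1 h1 with h | h
        · exact h
        · exact absurd h (wt_ne hx3 h9)
      funext o
      cases o with
      | none => exact hn0
      | some l =>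
        have h4 := hs l.1
        rw [hn0, zero_mul, zero_add, hsum (fun k => n (some k)) l] at h4
        exact hzero l _ h4

end Pool.Agent.PT
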