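import Pool.Agent.PT.Stmts3

/-!
# Hilbert 90 for the field `Q(w, x^(1/3))` (module NHN)
-/

open NumberField IsDedekindDomain Finset
open scoped nonZeroDivisors Pointwise

namespace Pool.Agent.PT

open Pool.Agent.Lib_helper18 Pool.Agent.Lib_helper18.Eis Pool.Agent.Lib_helper84.Cub

namespace NHN

set_option linter.unusedSectionVars false

variable {x : ℤ} {L : Type} [Field L] [NumberField L] {ι : Eis →+* L} {θ : L}
  {σ c : L ≃ₐ[ℚ] L}

theorem w3 (ι : Eis →+* L) : ι w ^ 3 = 1 := by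
  rw [← map_pow, w_cube, map_one]

theorem wrel (ι : Eis →+* L) : ι w ^ 2 + ι w + 1 = 0 := by
  rw [← map_pow, ← map_add, ← map_one ι, ← map_add, w_rel, map_zero]

theorem s1 (h : CubF x L ι θ σ c) (a b d : Eis) :
    σ (ι a + ι b * θ + ι d * θ ^ 2) = ι a + ι b * (ι w * θ) + ι d * (ι w * θ) ^ 2 := by
  rw [map_add, map_add, map_mul, map_mul, map_pow, h.sι, h.sι, h.sι, h.sθ]

theorem s3θ (h : CubF x L ι θ σ c) : σ (σ (σ θ)) = θ := by
  rw [h.sθ, map_mul, h.sι, h.sθ, map_mul, map_mul, h.sι, h.sθ]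
  linear_combination θ * w3 ι

theorem s3 (h : CubF x L ι θ σ c) (z : L) : σ (σ (σ z)) = z := by
  obtain ⟨m, a, b, d, hm, hz⟩ := h.rep z
  have hm' : (m : L) ≠ 0 := Int.cast_ne_zero.2 hm
  have h1 : σ (σ (σ ((m : L) * z))) = (m : L) * z := by
    rw [hz]
    simp only [map_add, map_mul, map_pow, h.sι, s3θ h]
  rw [map_mul, map_mul, map_mul, map_intCast, map_intCast, map_intCast] at h1
  exact mul_left_cancel₀ hm' h1

theorem fixed (h : CubF x L ι θ σ c) {z : L} (hz : σ z = z) :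
    ∃ a b : Eis, b ≠ 0 ∧ z * ι b = ι a := by
  obtain ⟨m, a, b, d, hm, hmz⟩ := h.rep z
  have h1 : σ ((m : L) * z) = (m : L) * z := by rw [map_mul, map_intCast, hz]
  rw [hmz, s1 h] at h1
  have h2 : ι 0 + ι (b * (w - 1)) * θ + ι (d * (w ^ 2 - 1)) * θ ^ 2 = 0 := by
    rw [map_zero, map_mul, map_mul, map_sub, map_sub, map_pow, map_one]
    linear_combination h1
  obtain ⟨-, h3, h4⟩ := h.lin _ _ _ h2
  have hw1 : (w - 1 : Eis) ≠ 0 := by
    intro hc
    have := congrArg Eis.im hc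
    simp at this
  have hw2 : (w ^ 2 - 1 : Eis) ≠ 0 := by
    rw [w_sq]
    intro hc
    have := congrArg Eis.im hc
    simp at this
  have hb : b = 0 := (mul_eq_zero.1 h3).resolve_right hw1
  have hd : d = 0 := (mul_eq_zero.1 h4).resolve_right hw2
  have hm' : (m : Eis) ≠ 0 := by
    intro hc
    have h5 := congrArg Eis.re hc
    rw [intCast_re, zero_re] at h5
    exact hm h5
  refine ⟨a, (m : Eis), hm', ?_⟩
  rw [hb, hd] at hmz
  rw [map_intCast, mul_comm, hmz, map_zero]
  ring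

end NHN

theorem NHN_thm : NHN := by
  intro x L _ _ ι θ σ c hx h
  refine ⟨NHN.s3 h, fun z hz => NHN.fixed h hz, fun u hu => ?_⟩
  have hu' : (u : L) * σ u * σ (σ u) = 1 := by
    have h1 := congrArg (Units.val) hu
    simp only [Finset.prod_range_succ, Finset.prod_range_zero, one_mul, pow_zero, pow_one,
      one_smul, pow_two, mul_smul] at h1
    simpa using h1
  have hθ : θ ≠ 0 := by
    rintro rfl
    have h1 := h.cube
    rw [zero_pow (by norm_num)] at h1
    exact hx (Int.cast_eq_zero.1 h1.symm)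
  -- the sum
  have key : ∀ e : L, (u : L) * σ (e + u * σ e + u * σ u * σ (σ e)) =
      e + u * σ e + u * σ u * σ (σ e) := by
    intro e
    rw [map_add, map_add, map_mul, map_mul, map_mul, NHN.s3 h]
    linear_combination e * hu'
  have main : ∃ e : L, e + u * σ e + u * σ u * σ (σ e) ≠ 0 := by
    by_contra hc
    push Not at hc
    have h1 := hc 1
    have h2 := hc θ
    have h3 := hc (θ ^ 2)
    have e1 : σ (σ θ) = ι w ^ 2 * θ := by
      rw [h.sθ, map_mul, h.sι, h.sθ]
      ring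
    have e2 : σ (σ (θ ^ 2)) = (ι w ^ 2 * θ) ^ 2 := by rw [map_pow, map_pow, e1]
    have e3 : σ (θ ^ 2) = (ι w * θ) ^ 2 := by rw [map_pow, h.sθ]
    rw [map_one, map_one, mul_one, mul_one] at h1
    rw [e1, h.sθ] at h2
    rw [e2, e3] at h3
    have h2' : 1 + u * ι w + u * σ u * ι w ^ 2 = 0 := by
      have : θ * (1 + u * ι w + u * σ u * ι w ^ 2) = 0 := by linear_combination h2
      exact (mul_eq_zero.1 this).resolve_left hθ
    have h3' : 1 + u * ι w ^ 2 + u * σ u * ι w ^ 4 = 0 := by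
      have : θ ^ 2 * (1 + u * ι w ^ 2 + u * σ u * ι w ^ 4) = 0 := by linear_combination h3
      exact (mul_eq_zero.1 this).resolve_left (pow_ne_zero _ hθ)
    have h4 : (3 : L) = 0 := by
      linear_combination h1 + h2' + h3' - (u : L) * NHN.wrel ι -
        (u : L) * σ u * (NHN.wrel ι + ι w * NHN.w3 ι)
    exact three_ne_zero h4
  obtain ⟨e, he⟩ := main
  refine ⟨Units.mk0 _ he, ?_⟩
  rw [eq_div_iff_mul_eq']
  ext
  rw [Units.val_mul, AlgEquiv.smul_units_def]
  simp only [Units.coe_map, Units.val_mk0]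
  have := key e
  simpa [mul_comm] using this

end Pool.Agent.PT
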