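import Pool.Agent.PT.Stmts3

/-!
# NHO: the first cohomology of the `S`-units
-/

open NumberField IsDedekindDomain Finset
open scoped nonZeroDivisors Pointwise

namespace Pool.Agent.PT

open Pool.Agent.Lib_helper18 Pool.Agent.Lib_helper18.Eis Pool.Agent.Lib_helper84.Cub

namespace NHO

variable {L : Type} [Field L] [NumberField L]

lemma mem_SU (ι : Eis →+* L) (S : Finset Pl) (u : Lˣ) :
    u ∈ SU ι S ↔ ∀ P : HeightOneSpectrum (𝓞 L), (∀ v ∈ S, P ∉ Abv ι v) →
      P.valuation L (u : L) = 1 := by
  constructor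
  · intro h P hP
    exact h P (by
      intro hmem
      simp only [Set.mem_iUnion] at hmem
      obtain ⟨v, hv, hPv⟩ := hmem
      exact hP v hv hPv)
  · intro h P hP
    refine h P ?_
    intro v hv hPv
    apply hP
    simp only [Set.mem_iUnion]
    exact ⟨v, hv, hPv⟩

lemma supp_fin (y : L) (hy : y ≠ 0) :
    {P : HeightOneSpectrum (𝓞 L) | P.valuation L y ≠ 1}.Finite := by
  have h1 := HeightOneSpectrum.Support.finite (𝓞 L) y
  have h2 := HeightOneSpectrum.Support.finite (𝓞 L) y⁻¹
  refine (h1.union h2).subset ?_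
  intro P hP
  have hP' : P.valuation L y ≠ 1 := hP
  rcases lt_or_gt_of_ne hP' with h | h
  · right
    change 1 < P.valuation L y⁻¹
    rw [map_inv₀]
    have hne : P.valuation L y ≠ 0 := (Valuation.ne_zero_iff _).2 hy
    exact (one_lt_inv₀ (zero_lt_iff.2 hne)).2 h
  · left
    exact h

end NHO

open NHO in
theorem NHO_thm (hSPP : SPP) (hNHN : NHN) (hNTR : NTR) : NHO := by
  intro x L _ _ ι θ σ c hx h3x hC S hnone hS
  obtain ⟨hN1, hN2, hN3⟩ := hNHN x L ι θ σ c hx hC
  obtain ⟨hT1, hT2, hT3, hT4, hT5, hT6⟩ := hNTR x L ι θ σ c hx h3x hC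
  obtain ⟨-, hP2, -, hP4, -, -⟩ := hSPP
  -- the prime `P2` with `P2 z = P (σ z)`
  have hpull : ∀ P : HeightOneSpectrum (𝓞 L), ∃ P₂ : HeightOneSpectrum (𝓞 L),
      ∀ z : L, P₂.valuation L z = P.valuation L (σ z) := by
    intro P
    obtain ⟨P₁, h₁⟩ := hT3 P
    obtain ⟨P₂, h₂⟩ := hT3 P₁
    refine ⟨P₂, fun z => ?_⟩
    rw [← h₁ (σ z), ← h₂ (σ (σ z)), hN1]
  have hAbv : ∀ (P P₂ : HeightOneSpectrum (𝓞 L)),
      (∀ z : L, P₂.valuation L z = P.valuation L (σ z)) → ∀ v, P₂ ∈ Abv ι v ↔ P ∈ Abv ι v := by
    intro P P₂ h v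
    change P₂.valuation L (ι (uni v)) < 1 ↔ P.valuation L (ι (uni v)) < 1
    rw [h, hC.sι]
  have hsm : ∀ u : Lˣ, ((σ • u : Lˣ) : L) = σ (u : L) := fun u => rfl
  constructor
  · intro u hu
    rw [mem_SU] at hu ⊢
    intro P hP
    obtain ⟨P₂, h₂⟩ := hpull P
    rw [hsm, ← h₂]
    refine hu P₂ ?_
    intro v hv hmem
    exact hP v hv ((hAbv P P₂ h₂ v).1 hmem)
  · intro u hu hprod
    rw [mem_SU] at hu
    obtain ⟨y, hy⟩ := hN3 u hprod
    -- uniqueness of the place below
    have hlam : ∀ π : PP, ¬ π.1 ∣ lam := by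
      intro π h
      exact (hP4 π).1 (h.trans lam_dvd_three)
    have huniq : ∀ (π : PP) (v : Pl) (P : HeightOneSpectrum (𝓞 L)), P ∈ Abv ι (some π) →
        P ∈ Abv ι v → v = some π := by
      intro π v P hP hPv
      obtain ⟨v₀, -, hv₀⟩ := hT2 P
      have h1 := hv₀ _ hP
      have h2 := hv₀ _ hPv
      have key : ∀ w' : Pl, uni v₀ ∣ uni w' → w' = v₀ := by
        intro w' hd
        cases v₀ with
        | none =>
          cases w' with
          | none => rfl
          | some π' =>
            exfalso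
            have : Associated lam π'.1 := prime_lam.associated_of_dvd π'.2.1 hd
            exact hlam π' this.symm.dvd
        | some π₀ =>
          cases w' with
          | none => exact absurd hd (hlam π₀)
          | some π' =>
            have : Associated π₀.1 π'.1 := π₀.2.1.associated_of_dvd π'.2.1 hd
            rw [hP2 _ _ this]
      exact (key v h2).trans (key (some π) h1).symm
    -- valuations of `y` at the primes above a place outside `S`
    have hval : ∀ P : HeightOneSpectrum (𝓞 L), (∀ v ∈ S, P ∉ Abv ι v) →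
        P.valuation L (σ (y : L)) = P.valuation L (y : L) := by
      intro P hP
      have h1 := hu P hP
      rw [hy, Units.val_div_eq_div_val, map_div₀, hsm] at h1
      have hne : P.valuation L (σ (y : L)) ≠ 0 :=
        (Valuation.ne_zero_iff _).2 (by simp)
      exact ((div_eq_one_iff_eq hne).1 h1).symm
    have hout : ∀ (π : PP), some π ∉ S → ∀ P ∈ Abv ι (some π), ∀ v ∈ S, P ∉ Abv ι v := by
      intro π hπ P hP v hv hPv
      exact hπ (huniq π v P hP hPv ▸ hv)
    have hconst : ∀ (π : PP), some π ∉ S → ∀ i : ℕ, ∀ P ∈ Abv ι (some π),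
        P.valuation L ((σ ^ i) (y : L)) = P.valuation L (y : L) := by
      intro π hπ i
      induction i with
      | zero => intro P _; simp
      | succ i ih =>
        intro P hP
        obtain ⟨P₂, h₂⟩ := hpull P
        have hP₂ : P₂ ∈ Abv ι (some π) := (hAbv P P₂ h₂ _).2 hP
        have e : (σ ^ (i + 1)) (y : L) = σ ((σ ^ i) (y : L)) := by
          rw [pow_succ']; rfl
        rw [e, ← h₂, ih P₂ hP₂, h₂, hval P (hout π hπ P hP)]
    have hsame : ∀ (π : PP), some π ∉ S → ∀ P ∈ Abv ι (some π), ∀ P' ∈ Abv ι (some π),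
        P'.valuation L (y : L) = P.valuation L (y : L) := by
      intro π hπ P hP P' hP'
      obtain ⟨i, hi⟩ := hT5 (some π) P P' hP hP'
      rw [← hi, hconst π hπ i P' hP']
    -- the finite set of places
    have hfin : {π : PP | ∃ P ∈ Abv ι (some π), P.valuation L (y : L) ≠ 1}.Finite := by
      have h1 := supp_fin (y : L) (by simp)
      have h2 : (⋃ P ∈ {P : HeightOneSpectrum (𝓞 L) | P.valuation L (y : L) ≠ 1},
          {π : PP | P ∈ Abv ι (some π)}).Finite := by
        refine h1.biUnion fun P _ => ?_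
        refine Set.Subsingleton.finite ?_
        intro π hπ π' hπ'
        have := huniq π (some π') P hπ hπ'
        exact (Option.some_injective _ this).symm
      refine h2.subset ?_
      rintro π ⟨P, hP, hne⟩
      simp only [Set.mem_iUnion]
      exact ⟨P, hne, hP⟩
    -- the exponents
    have hexp : ∀ π : PP, ∃ n : ℤ, some π ∉ S → ∀ P ∈ Abv ι (some π),
        P.valuation L (y : L) = WithZero.exp n := by
      intro π
      by_cases hπ : some π ∈ S
      · exact ⟨0, fun h => absurd hπ h⟩
      · obtain ⟨P, hP⟩ := (hT4 (some π)).2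
        have hne : P.valuation L (y : L) ≠ 0 := (Valuation.ne_zero_iff _).2 (by simp)
        refine ⟨WithZero.log (P.valuation L (y : L)), fun _ P' hP' => ?_⟩
        rw [hsame π hπ P hP P' hP', WithZero.exp_log hne]
    choose n hn using hexp
    have hι : ∀ π : PP, ι π.1 ≠ 0 := by
      intro π h
      exact π.2.1.ne_zero (hC.inj (h.trans (map_zero ι).symm))
    set T : Finset PP := hfin.toFinset with hT
    set g : Lˣ := ∏ π ∈ T, (Units.mk0 (ι π.1) (hι π)) ^ n π with hg
    have hσg : σ • g = g := by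
      rw [hg, Finset.smul_prod']
      refine Finset.prod_congr rfl fun π _ => ?_
      rw [smul_zpow']
      congr 1
      ext
      rw [hsm]
      exact hC.sι _
    have hvg : ∀ P : HeightOneSpectrum (𝓞 L), P.valuation L (g : L) =
        ∏ π ∈ T, (P.valuation L (ι π.1)) ^ n π := by
      intro P
      rw [hg, Units.coe_prod, map_prod]
      refine Finset.prod_congr rfl fun π _ => ?_
      rw [Units.val_zpow_eq_zpow_val, map_zpow₀]
      rfl
    refine ⟨y * g, ?_, ?_⟩
    · rw [mem_SU]
      intro P hP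
      obtain ⟨v₀, hv₀, -⟩ := hT2 P
      have hv₀S : v₀ ∉ S := fun h => hP v₀ h hv₀
      cases v₀ with
      | none => exact absurd hnone hv₀S
      | some π₀ =>
        have hother : ∀ π : PP, π ≠ π₀ → P.valuation L (ι π.1) = 1 := by
          intro π hπ
          refine le_antisymm (hT1 P π.1) ?_
          by_contra hlt
          have : P ∈ Abv ι (some π) := not_le.1 hlt
          exact hπ (Option.some_injective _ (huniq π₀ (some π) P hv₀ this))
        have hself : P.valuation L (ι π₀.1) = WithZero.exp (-1 : ℤ) := by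
          refine hT6 π₀ P ?_ hv₀
          intro hd
          exact hv₀S (hS π₀ hd)
        rw [Units.val_mul, map_mul, hvg, hn π₀ hv₀S P hv₀]
        by_cases hmem : π₀ ∈ T
        · rw [Finset.prod_eq_single π₀ (fun π _ hπ => by rw [hother π hπ, one_zpow])
            (fun h => absurd hmem h), hself, ← WithZero.exp_zsmul, ← WithZero.exp_add]
          simp
        · rw [Finset.prod_eq_one (fun π hπ => by
            rw [hother π (fun h => hmem (h ▸ hπ)), one_zpow]), mul_one]
          have h1 : P.valuation L (y : L) = 1 := by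
            by_contra hne
            exact hmem (hfin.mem_toFinset.2 ⟨P, hv₀, hne⟩)
          rw [← hn π₀ hv₀S P hv₀, h1]
    · rw [hy, smul_mul', hσg, mul_div_mul_right_eq_div]

end Pool.Agent.PT
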