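import Pool.Agent.PT.Stmts4

open NumberField IsDedekindDomain Finset
open scoped nonZeroDivisors Pointwise

namespace Pool.Agent.PT

open Pool.Agent.Lib_helper18 Pool.Agent.Lib_helper18.Eis Pool.Agent.Lib_helper84.Cub

namespace NNS

lemma three_z (t : ZMod 3) : t + (t + t) = 0 := by
  revert t; decide

lemma two_z {t : ZMod 3} (h : t = -t) : t = 0 := by
  revert h; revert t; decide

variable {π : Eis} {s : Eis → Eis → ZMod 3} {e : ℕ}

lemma cube_left (hs : LSym π s e) {a c : Eis} (ha : a ≠ 0) (hc : c ≠ 0) : s (a ^ 3) c = 0 := by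
  have h2 : s (a * (a * a)) c = s a c + (s a c + s a c) := by
    rw [hs.mul _ _ _ ha (mul_ne_zero ha ha) hc, hs.mul _ _ _ ha ha hc]
  have e3 : a ^ 3 = a * (a * a) := by ring
  rw [e3, h2]
  exact three_z _

lemma cube_right (hs : LSym π s e) {a c : Eis} (ha : a ≠ 0) (hc : c ≠ 0) : s c (a ^ 3) = 0 := by
  rw [hs.skew _ _ (pow_ne_zero 3 ha) hc, cube_left hs ha hc, neg_zero]

lemma neg_one_left (hs : LSym π s e) {c : Eis} (hc : c ≠ 0) : s (-1) c = 0 := by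
  have h := cube_left hs (a := (-1 : Eis)) (by simp) hc
  have e3 : (-1 : Eis) ^ 3 = -1 := by ring
  rwa [e3] at h

lemma self_zero (hs : LSym π s e) {c : Eis} (hc : c ≠ 0) : s c c = 0 :=
  two_z (hs.skew c c hc hc)

/-- the norm form has trivial symbol -/
lemma norm_symbol (hs : LSym π s e) {x α β : Eis} (hx : x ≠ 0) (hN : α ^ 3 + x * β ^ 3 ≠ 0) :
    s (α ^ 3 + x * β ^ 3) x = 0 := by
  by_cases hα : α = 0
  · subst hα
    have hβ : β ≠ 0 := by
      rintro rfl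
      apply hN
      simp
    have e1 : (0 : Eis) ^ 3 + x * β ^ 3 = x * β ^ 3 := by
      rw [zero_pow (by norm_num), zero_add]
    rw [e1, hs.mul _ _ _ hx (pow_ne_zero 3 hβ) hx, self_zero hs hx, cube_left hs hβ hx, add_zero]
  by_cases hβ : β = 0
  · subst hβ
    have e1 : α ^ 3 + x * (0 : Eis) ^ 3 = α ^ 3 := by
      rw [zero_pow (by norm_num), mul_zero, add_zero]
    rw [e1, cube_left hs hα hx]
  set N := α ^ 3 + x * β ^ 3 with hNdef
  have hα3 : α ^ 3 ≠ 0 := pow_ne_zero 3 hα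
  have hβ3 : β ^ 3 ≠ 0 := pow_ne_zero 3 hβ
  have hxβ : x * β ^ 3 ≠ 0 := mul_ne_zero hx hβ3
  have hN' : -N ≠ 0 := neg_ne_zero.mpr hN
  have h1 := hs.stein (α ^ 3) (x * β ^ 3) (-N) hα3 hxβ hN' (by rw [hNdef]; ring)
  rw [cube_left hs hα hxβ, cube_right hs hα hN', zero_add, add_zero] at h1
  have h2 : s (-N) (x * β ^ 3) = 0 := by
    rw [hs.skew _ _ hxβ hN', h1, neg_zero]
  have e2 : -N = (-1) * N := by ring
  rw [e2, hs.mul _ _ _ (by simp) hN hxβ, neg_one_left hs hxβ, zero_add] at h2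
  rw [hs.skew _ _ hxβ hN, hs.mul _ _ _ hx hβ3 hN, cube_left hs hβ hN, add_zero] at h2
  rw [hs.skew _ _ hx hN, neg_eq_zero] 
  exact neg_eq_zero.mp h2

lemma norm_lin {x : ℤ} {L : Type} [Field L] [NumberField L] {ι : Eis →+* L} {θ : L}
    {σ c : L ≃ₐ[ℚ] L} (h : CubF x L ι θ σ c) (α β : Eis) :
    (ι α + ι β * θ) * σ (ι α + ι β * θ) * σ (σ (ι α + ι β * θ))
      = ι (α ^ 3 + (x : Eis) * β ^ 3) := by
  have hw : ι w ^ 2 + ι w + 1 = 0 := by
    have : w ^ 2 + w + 1 = (0 : Eis) := by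
      decide
    rw [← map_pow, ← map_one ι, ← map_add, ← map_add, this, map_zero]
  have h3 : ι w ^ 3 = 1 := by
    linear_combination (ι w - 1) * hw
  have e1 : σ (ι α + ι β * θ) = ι α + ι β * (ι w * θ) := by
    rw [map_add, map_mul, h.sι, h.sι, h.sθ]
  have e2 : σ (σ (ι α + ι β * θ)) = ι α + ι β * (ι w * (ι w * θ)) := by
    rw [e1, map_add, map_mul, map_mul, h.sι, h.sι, h.sι, h.sθ]
  rw [e2, e1]
  have hx : ι (x : Eis) = (x : L) := map_intCast ι x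
  rw [map_add, map_mul, map_pow, map_pow, hx, ← h.cube]
  linear_combination (ι α ^ 2 * ι β * θ + ι α * ι β ^ 2 * θ ^ 2 * ι w) * hw
    + ι β ^ 3 * θ ^ 3 * h3

lemma norm_ne {x : ℤ} {L : Type} [Field L] [NumberField L] {ι : Eis →+* L} {θ : L}
    {σ c : L ≃ₐ[ℚ] L} (h : CubF x L ι θ σ c) {α β : Eis} (hne : ι α + ι β * θ ≠ 0) :
    α ^ 3 + (x : Eis) * β ^ 3 ≠ 0 := by
  intro h0
  have h1 := norm_lin h α β
  rw [h0, map_zero] at h1
  have hs : ∀ y : L, y ≠ 0 → σ y ≠ 0 := fun y hy => (map_ne_zero σ).mpr hy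
  exact (mul_ne_zero (mul_ne_zero hne (hs _ hne)) (hs _ (hs _ hne))) h1

end NNS

theorem NNS_thm : NNS := by
  intro x L _ _ ι θ σ c hx hF π s e hs z a b hz ha hb hzab
  have hxE : (x : Eis) ≠ 0 := by
    intro h0
    have h1 : ι (x : Eis) = (x : L) := map_intCast ι x
    rw [h0, map_zero] at h1
    exact hx (by exact_mod_cast h1.symm)
  obtain ⟨m, a0, b0, d0, hm, hrep⟩ := hF.rep z
  have hmL : (m : L) ≠ 0 := by exact_mod_cast hm
  have hmE : (m : Eis) ≠ 0 := by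
    intro h0
    have h1 : ι (m : Eis) = (m : L) := map_intCast ι m
    rw [h0, map_zero] at h1
    exact hmL h1.symm
  obtain ⟨γ, δ, α, β, hγδ, hαβ⟩ : ∃ γ δ α β : Eis, ι γ + ι δ * θ ≠ 0 ∧
      z * (ι γ + ι δ * θ) * (m : L) = ι α + ι β * θ := by
    by_cases hbd : b0 = 0 ∧ d0 = 0
    · refine ⟨1, 0, a0, 0, ?_, ?_⟩
      · simp
      · rw [hbd.1, hbd.2] at hrep
        simp only [map_zero, zero_mul, add_zero, map_one, mul_one] at hrep ⊢
        rw [mul_comm]; exact hrep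
    · refine ⟨b0, -d0, a0 * b0 - d0 ^ 2 * (x : Eis), b0 ^ 2 - a0 * d0, ?_, ?_⟩
      · intro h0
        have h1 := hF.lin b0 (-d0) 0 (by rw [map_zero, zero_mul, add_zero]; exact h0)
        exact hbd ⟨h1.1, neg_eq_zero.mp h1.2.1⟩
      · have hx' : ι (x : Eis) = (x : L) := map_intCast ι x
        rw [map_sub, map_sub, map_neg, map_mul, map_mul, map_mul, map_pow, map_pow, hx', ← hF.cube]
        linear_combination (ι b0 - ι d0 * θ) * hrep
  have hαβ0 : ι α + ι β * θ ≠ 0 := by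
    rw [← hαβ]
    exact mul_ne_zero (mul_ne_zero hz hγδ) hmL
  have hN1 := NNS.norm_ne hF hγδ
  have hN2 := NNS.norm_ne hF hαβ0
  have hkey : a * ((m : Eis) ^ 3 * (γ ^ 3 + (x : Eis) * δ ^ 3)) = b * (α ^ 3 + (x : Eis) * β ^ 3) := by
    apply hF.inj
    have hm' : ι (m : Eis) = (m : L) := map_intCast ι m
    have hsm : ∀ k : ℤ, σ (k : L) = (k : L) := fun k => map_intCast σ k
    rw [map_mul, map_mul, map_mul, map_pow, hm', ← NNS.norm_lin hF γ δ, ← NNS.norm_lin hF α β, ← hαβ,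
      ← hzab]
    simp only [map_mul, hsm]
    ring
  have hl : s (a * ((m : Eis) ^ 3 * (γ ^ 3 + (x : Eis) * δ ^ 3))) (x : Eis) = s a (x : Eis) := by
    rw [hs.mul _ _ _ ha (mul_ne_zero (pow_ne_zero 3 hmE) hN1) hxE,
      hs.mul _ _ _ (pow_ne_zero 3 hmE) hN1 hxE, NNS.cube_left hs hmE hxE,
      NNS.norm_symbol hs hxE hN1, add_zero, add_zero]
  have hr : s (b * (α ^ 3 + (x : Eis) * β ^ 3)) (x : Eis) = s b (x : Eis) := by
    rw [hs.mul _ _ _ hb hN2 hxE, NNS.norm_symbol hs hxE hN2, add_zero]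
  rw [← hl, hkey, hr]

end Pool.Agent.PT
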