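import Pool.Agent.PT.Stmts3

/-!
# Prime twists of rank zero: the unit rank of `Q(w, x^(1/3))`
-/

open NumberField IsDedekindDomain Finset
open scoped nonZeroDivisors Pointwise

namespace Pool.Agent.PT

open Pool.Agent.Lib_helper18 Pool.Agent.Lib_helper18.Eis Pool.Agent.Lib_helper84.Cub

namespace NRK

/-- the basis of `L` over `ℚ` -/
def bv {L : Type} [Field L] (ι : Eis →+* L) (θ : L) : Fin 6 → L :=
  ![1, ι w, θ, ι w * θ, θ ^ 2, ι w * θ ^ 2]

theorem iota_eq {L : Type} [Field L] (ι : Eis →+* L) (a : Eis) :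
    ι a = (a.re : L) + (a.im : L) * ι w := by
  conv_lhs => rw [eq_re_add_im a]
  simp

theorem bv_indep {x : ℤ} {L : Type} [Field L] [NumberField L] {ι : Eis →+* L} {θ : L}
    {σ c : L ≃ₐ[ℚ] L} (h : CubF x L ι θ σ c) : LinearIndependent ℚ (bv ι θ) := by
  rw [← LinearIndependent.iff_fractionRing ℤ ℚ, Fintype.linearIndependent_iff]
  intro g hg
  rw [Fin.sum_univ_six] at hg
  simp only [bv, Matrix.cons_val, zsmul_eq_mul] at hg
  obtain ⟨h1, h2, h3⟩ := h.lin ⟨g 0, g 1⟩ ⟨g 2, g 3⟩ ⟨g 4, g 5⟩ (by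
    rw [iota_eq ι ⟨g 0, g 1⟩, iota_eq ι ⟨g 2, g 3⟩, iota_eq ι ⟨g 4, g 5⟩]
    simp only
    rw [← hg]
    ring)
  have e1 := congrArg Eis.re h1
  have e2 := congrArg Eis.im h1
  have e3 := congrArg Eis.re h2
  have e4 := congrArg Eis.im h2
  have e5 := congrArg Eis.re h3
  have e6 := congrArg Eis.im h3
  simp only [zero_re, zero_im] at e1 e2 e3 e4 e5 e6
  intro i
  fin_cases i <;> assumption

theorem bv_span {x : ℤ} {L : Type} [Field L] [NumberField L] {ι : Eis →+* L} {θ : L}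
    {σ c : L ≃ₐ[ℚ] L} (h : CubF x L ι θ σ c) : ⊤ ≤ Submodule.span ℚ (Set.range (bv ι θ)) := by
  intro z _
  obtain ⟨m, a, b, d, hm, hz⟩ := h.rep z
  have hmL : (m : L) ≠ 0 := Int.cast_ne_zero.mpr hm
  have hz' : z = ((m : ℚ)⁻¹) • ((a.re : ℚ) • bv ι θ 0 + (a.im : ℚ) • bv ι θ 1 +
      (b.re : ℚ) • bv ι θ 2 + (b.im : ℚ) • bv ι θ 3 +
      (d.re : ℚ) • bv ι θ 4 + (d.im : ℚ) • bv ι θ 5) := by
    simp only [bv, Matrix.cons_val, Algebra.smul_def, map_inv₀, map_intCast]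
    rw [iota_eq ι a, iota_eq ι b, iota_eq ι d] at hz
    field_simp
    rw [mul_comm z, hz]
    ring
  have hmem : ∀ i, bv ι θ i ∈ Submodule.span ℚ (Set.range (bv ι θ)) := fun i =>
    Submodule.subset_span ⟨i, rfl⟩
  rw [hz']
  refine Submodule.smul_mem _ _ ?_
  refine Submodule.add_mem _ (Submodule.add_mem _ (Submodule.add_mem _ (Submodule.add_mem _
    (Submodule.add_mem _ ?_ ?_) ?_) ?_) ?_) ?_ <;> exact Submodule.smul_mem _ _ (hmem _)

theorem finrank_six {x : ℤ} {L : Type} [Field L] [NumberField L] {ι : Eis →+* L} {θ : L}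
    {σ c : L ≃ₐ[ℚ] L} (h : CubF x L ι θ σ c) : Module.finrank ℚ L = 6 := by
  rw [Module.finrank_eq_card_basis (Module.Basis.mk (bv_indep h) (bv_span h))]
  simp

theorem prim {x : ℤ} {L : Type} [Field L] [NumberField L] {ι : Eis →+* L} {θ : L}
    {σ c : L ≃ₐ[ℚ] L} (h : CubF x L ι θ σ c) : IsPrimitiveRoot (ι w) 3 := by
  have h3 : (ι w) ^ 3 = 1 := by rw [← map_pow, w_cube, map_one]
  have h1 : ι w ≠ 1 := by
    intro he
    rw [← map_one ι] at he
    have := congrArg Eis.im (h.inj he)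
    simp at this
  have := orderOf_eq_prime (p := 3) h3 h1
  rw [← this]
  exact IsPrimitiveRoot.orderOf _

end NRK

/-- NRK: the unit rank. -/
theorem NRK_thm : NRK := by
  intro x L _ _ ι θ σ c h
  have h6 := NRK.finrank_six h
  have hr : NumberField.InfinitePlace.nrRealPlaces L = 0 :=
    NumberField.InfinitePlace.IsPrimitiveRoot.nrRealPlaces_eq_zero_of_two_lt (by norm_num)
      (NRK.prim h)
  have hc := NumberField.InfinitePlace.card_add_two_mul_card_eq_rank L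
  have ht := NumberField.InfinitePlace.card_eq_nrRealPlaces_add_nrComplexPlaces L
  unfold NumberField.Units.rank
  rw [ht]
  omega

end Pool.Agent.PT
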