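import Pool.Agent.PT.Stmts3

/-!
# NTR: the primes of `L = Q(w, x^(1/3))` above the primes of `Z[w]`
-/

open NumberField IsDedekindDomain Finset
open scoped nonZeroDivisors Pointwise

namespace Pool.Agent.PT

open Pool.Agent.Lib_helper18 Pool.Agent.Lib_helper18.Eis Pool.Agent.Lib_helper84.Cub

namespace NTR

variable {L : Type} [Field L] [NumberField L]

theorem uni_prime (v : Pl) : Prime (uni v) := by
  cases v with
  | none => exact prime_lam
  | some π => exact π.2.1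

theorem isIntegral_io (ι : Eis →+* L) (a : Eis) : IsIntegral ℤ (ι a) := by
  have hw : IsIntegral ℤ (ι w) := by
    refine IsIntegral.of_pow (n := 3) (by norm_num) ?_
    rw [← map_pow, w_cube, map_one]; exact isIntegral_one
  have hc : ∀ n : ℤ, IsIntegral ℤ ((n : ℤ) : L) := fun n => by
    have := isIntegral_algebraMap (R := ℤ) (A := L) (x := n)
    simpa using this
  rw [eq_re_add_im a, map_add, map_mul, map_intCast, map_intCast]
  exact (hc _).add ((hc _).mul hw)

/-- the map to the ring of integers -/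
noncomputable def io (ι : Eis →+* L) : Eis →+* 𝓞 L where
  toFun a := ⟨ι a, isIntegral_io ι a⟩
  map_one' := RingOfIntegers.ext (map_one ι)
  map_mul' a b := RingOfIntegers.ext (map_mul ι a b)
  map_zero' := RingOfIntegers.ext (map_zero ι)
  map_add' a b := RingOfIntegers.ext (map_add ι a b)

theorem coe_io (ι : Eis →+* L) (a : Eis) : algebraMap (𝓞 L) L (io ι a) = ι a := rfl

theorem val_le_one (ι : Eis →+* L) (P : HeightOneSpectrum (𝓞 L)) (a : Eis) :
    P.valuation L (ι a) ≤ 1 := P.valuation_le_one (io ι a)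

theorem val_lt_iff (ι : Eis →+* L) (P : HeightOneSpectrum (𝓞 L)) (a : Eis) :
    P.valuation L (ι a) < 1 ↔ io ι a ∈ P.asIdeal := P.valuation_lt_one_iff_mem (io ι a)

theorem exists_place (hSPP : SPP) (ι : Eis →+* L) (P : HeightOneSpectrum (𝓞 L)) :
    ∃ v : Pl, P ∈ Abv ι v ∧ ∀ a : Eis, P.valuation L (ι a) < 1 → uni v ∣ a := by
  set I : Ideal Eis := P.asIdeal.comap (io ι) with hI
  have hIp : I.IsPrime := P.isPrime.comap (io ι)
  have hI0 : I ≠ ⊥ := by
    intro h0
    have h1 : ((Ideal.absNorm P.asIdeal : ℕ) : Eis) ∈ I := by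
      rw [hI, Ideal.mem_comap, map_natCast]
      exact Ideal.absNorm_mem P.asIdeal
    rw [h0, Ideal.mem_bot] at h1
    have h2 : Ideal.absNorm P.asIdeal ≠ 0 := fun h => P.ne_bot (Ideal.absNorm_eq_zero_iff.mp h)
    have h3 := congrArg Eis.re h1
    rw [natCast_re, zero_re] at h3
    exact h2 (by exact_mod_cast h3)
  have hl : Prime (Submodule.IsPrincipal.generator I) :=
    Submodule.IsPrincipal.prime_generator_of_isPrime I hI0
  set l := Submodule.IsPrincipal.generator I with hldef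
  have hmem : ∀ a : Eis, a ∈ I ↔ l ∣ a := fun a => Submodule.IsPrincipal.mem_iff_generator_dvd I
  have hv : ∃ v : Pl, Associated l (uni v) := by
    by_cases h3 : l ∣ 3
    · exact ⟨none, (dvd_three_iff hl).mp h3⟩
    · obtain ⟨π, hπ⟩ := hSPP.1 l hl h3
      exact ⟨some π, hπ⟩
  obtain ⟨v, hv⟩ := hv
  refine ⟨v, ?_, fun a ha => ?_⟩
  · show P.valuation L (ι (uni v)) < 1
    rw [val_lt_iff]
    exact (hmem _).mpr hv.dvd
  · rw [val_lt_iff] at ha
    exact hv.symm.dvd.trans ((hmem a).mp ha)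

theorem lt_iff (hSPP : SPP) {ι : Eis →+* L} {P : HeightOneSpectrum (𝓞 L)} {v : Pl}
    (hP : P ∈ Abv ι v) (a : Eis) : P.valuation L (ι a) < 1 ↔ uni v ∣ a := by
  constructor
  · intro h
    obtain ⟨v', h1, h2⟩ := exists_place hSPP ι P
    have h3 : uni v' ∣ uni v := h2 _ hP
    have h4 : Associated (uni v') (uni v) := (uni_prime v').associated_of_dvd (uni_prime v) h3
    exact h4.symm.dvd.trans (h2 a h)
  · rintro ⟨b, rfl⟩
    rw [map_mul, map_mul]
    exact mul_lt_one_of_lt_of_le hP (val_le_one ι P b)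

theorem eq_one_of (hSPP : SPP) {ι : Eis →+* L} {P : HeightOneSpectrum (𝓞 L)} {v : Pl}
    (hP : P ∈ Abv ι v) {a : Eis} (ha : ¬ uni v ∣ a) : P.valuation L (ι a) = 1 := by
  rcases lt_or_eq_of_le (val_le_one ι P a) with h | h
  · exact absurd ((lt_iff hSPP hP a).mp h) ha
  · exact h

theorem reduce (hSPP : SPP) {ι : Eis →+* L} (hinj : Function.Injective ι)
    {P : HeightOneSpectrum (𝓞 L)} {v : Pl}
    (hP : P ∈ Abv ι v) {T : L} {a b : Eis} (hb : b ≠ 0) (hT : T * ι b = ι a)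
    (hTP : P.valuation L T < 1) :
    ∃ a' b' : Eis, ¬ uni v ∣ b' ∧ T * ι b' = ι (uni v * a') := by
  have hl := uni_prime v
  have hιb : ι b ≠ 0 := fun h => hb (hinj (by rw [h, map_zero]))
  by_cases ha : a = 0
  · refine ⟨0, 1, fun h => hl.not_dvd_one h, ?_⟩
    rw [ha, map_zero] at hT
    rcases mul_eq_zero.mp hT with h | h
    · rw [h]; simp
    · exact absurd h hιb
  obtain ⟨a', ha', hla⟩ := V_split hl ha
  obtain ⟨b', hb', hlb⟩ := V_split hl hb
  set n := V (uni v) a with hn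
  set m := V (uni v) b with hm
  have hιl : ι (uni v) ≠ 0 := fun h => hl.ne_zero (hinj (by rw [h, map_zero]))
  set t := P.valuation L (ι (uni v)) with ht
  have ht1 : t < 1 := hP
  have ht0 : t ≠ 0 := by rw [ht]; exact (Valuation.ne_zero_iff _).mpr hιl
  have hv1 := congrArg (P.valuation L) hT
  rw [ha', hb', map_mul, map_mul ι, map_mul ι, map_mul, map_mul, map_pow, map_pow, map_pow,
    map_pow, eq_one_of hSPP hP hla, eq_one_of hSPP hP hlb, mul_one, mul_one, ← ht] at hv1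
  have hmn : m < n := by
    by_contra hcon
    push Not at hcon
    have h1 : t ^ m ≤ t ^ n := pow_le_pow_right_of_le_one' ht1.le hcon
    rw [← hv1] at h1
    have h2 : P.valuation L T * t ^ m < 1 * t ^ m := by
      exact mul_lt_mul_of_pos_right hTP (zero_lt_iff.mpr (pow_ne_zero _ ht0))
    rw [one_mul] at h2
    exact absurd h1 (not_le.mpr h2)
  obtain ⟨k, hk⟩ : ∃ k, n = m + (k + 1) := ⟨n - m - 1, by omega⟩
  refine ⟨uni v ^ k * a', b', hlb, ?_⟩
  have h3 : ι (uni v) ^ m ≠ 0 := pow_ne_zero _ hιl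
  apply mul_left_cancel₀ h3
  rw [ha', hb', hk] at hT
  simp only [map_mul, map_pow] at hT ⊢
  calc ι (uni v) ^ m * (T * ι b') = T * (ι (uni v) ^ m * ι b') := by ring
    _ = _ := hT
    _ = _ := by ring

theorem exists_map (σ : L ≃ₐ[ℚ] L) (P : HeightOneSpectrum (𝓞 L)) :
    ∃ P' : HeightOneSpectrum (𝓞 L), ∀ z : L, P'.valuation L (σ z) = P.valuation L z := by
  set e : 𝓞 L ≃+* 𝓞 L := RingOfIntegers.mapRingEquiv (σ : L ≃+* L) with he
  have hmem : ∀ (n : ℕ) (r : 𝓞 L), e r ∈ (P.asIdeal.map e) ^ n ↔ r ∈ P.asIdeal ^ n := by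
    intro n r
    rw [← Ideal.map_pow, Ideal.mem_map_of_equiv]
    constructor
    · rintro ⟨x, hx, hxr⟩
      rwa [e.injective hxr] at hx
    · intro h
      exact ⟨r, h, rfl⟩
  let P' : HeightOneSpectrum (𝓞 L) :=
    { asIdeal := P.asIdeal.map e
      isPrime := Ideal.map_isPrime_of_equiv e
      ne_bot := fun h => P.ne_bot ((Ideal.map_eq_bot_iff_of_injective e.injective).mp h) }
  refine ⟨P', ?_⟩
  have hint : ∀ r : 𝓞 L, P'.intValuation (e r) = P.intValuation r := by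
    intro r
    by_cases hr : r = 0
    · rw [hr, map_zero, map_zero, map_zero]
    have her : e r ≠ 0 := fun h => hr (e.injective (by rw [h, map_zero]))
    have hk : ∀ (n : ℕ), P'.intValuation (e r) ≤ WithZero.exp (-(n : ℤ)) ↔
        P.intValuation r ≤ WithZero.exp (-(n : ℤ)) := by
      intro n
      rw [HeightOneSpectrum.intValuation_le_pow_iff_mem,
        HeightOneSpectrum.intValuation_le_pow_iff_mem]
      exact hmem n r
    have h1 := P'.intValuation_eq_exp_neg_multiplicity her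
    have h2 := P.intValuation_eq_exp_neg_multiplicity hr
    refine le_antisymm ?_ ?_
    · rw [h2]
      exact (hk _).mpr h2.le
    · rw [h1]
      exact (hk _).mp h1.le
  have halg : ∀ r : 𝓞 L, σ (algebraMap (𝓞 L) L r) = algebraMap (𝓞 L) L (e r) := fun r => rfl
  intro z
  obtain ⟨x, y, hy, rfl⟩ := IsFractionRing.div_surjective (A := 𝓞 L) z
  rw [map_div₀, map_div₀, map_div₀, halg, halg, HeightOneSpectrum.valuation_of_algebraMap,
    HeightOneSpectrum.valuation_of_algebraMap, HeightOneSpectrum.valuation_of_algebraMap,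
    HeightOneSpectrum.valuation_of_algebraMap, hint, hint]

theorem io_ne_zero {ι : Eis →+* L} (hinj : Function.Injective ι) {a : Eis} (ha : a ≠ 0) :
    io ι a ≠ 0 := by
  intro h
  apply ha
  apply hinj
  rw [map_zero, ← coe_io, h, map_zero]

theorem abv_finite {ι : Eis →+* L} (hinj : Function.Injective ι) (v : Pl) : (Abv ι v).Finite := by
  have h0 := io_ne_zero hinj (uni_prime v).ne_zero
  have h1 : Ideal.span {io ι (uni v)} ≠ 0 := by
    intro h
    exact h0 (Ideal.span_singleton_eq_bot.mp h)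
  refine (Ideal.finite_factors h1).subset ?_
  intro P hP
  exact (P.valuation_lt_one_iff_dvd (K := L) (io ι (uni v))).mp hP

theorem not_isUnit_io {ι : Eis →+* L} (hinj : Function.Injective ι) {c : L ≃ₐ[ℚ] L}
    (hc : ∀ a : Eis, c (ι a) = ι (conj a)) (v : Pl) : ¬ IsUnit (io ι (uni v)) := by
  intro hu
  obtain ⟨z, hz⟩ := hu.exists_right_inv
  have h1 : ι (uni v) * (z : L) = 1 := by
    have := congrArg (algebraMap (𝓞 L) L) hz
    rw [map_mul, map_one] at this
    exact this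
  have h2 : ι (conj (uni v)) * c (z : L) = 1 := by
    rw [← hc, ← map_mul, h1, map_one]
  have hzi : IsIntegral ℤ ((z : L) * c (z : L)) := by
    have hz1 : IsIntegral ℤ (z : L) := z.2
    exact hz1.mul (map_isIntegral_int c hz1)
  set N := (uni v).norm with hN
  have h3 : ((N : ℤ) : L) * ((z : L) * c (z : L)) = 1 := by
    have h4 : ι (uni v) * ι (conj (uni v)) = ((N : ℤ) : L) := by
      rw [← map_mul, mul_conj, map_intCast]
    rw [← h4]
    calc ι (uni v) * ι (conj (uni v)) * ((z : L) * c (z : L))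
        = (ι (uni v) * (z : L)) * (ι (conj (uni v)) * c (z : L)) := by ring
      _ = 1 := by rw [h1, h2, mul_one]
  have hN0 : N ≠ 0 := fun h => (uni_prime v).ne_zero (norm_eq_zero.mp h)
  have hNL : ((N : ℤ) : L) ≠ 0 := by exact_mod_cast hN0
  have h5 : (z : L) * c (z : L) = algebraMap ℚ L ((N : ℚ)⁻¹) := by
    rw [map_inv₀, map_intCast]
    exact (eq_inv_of_mul_eq_one_right h3)
  rw [h5] at hzi
  have h6 : IsIntegral ℤ ((N : ℚ)⁻¹) := (isIntegral_algebraMap_iff (algebraMap ℚ L).injective).mp hzi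
  obtain ⟨k, hk⟩ := IsIntegrallyClosed.isIntegral_iff.mp h6
  have h7 : (k : ℚ) * N = 1 := by
    have hk' : (k : ℚ) = (N : ℚ)⁻¹ := by simpa using hk
    rw [hk']
    exact inv_mul_cancel₀ (by exact_mod_cast hN0)
  have h8 : k * N = 1 := by exact_mod_cast h7
  have h9 : N = 1 := by
    rcases Int.eq_one_or_neg_one_of_mul_eq_one' h8 with h | h
    · exact h.2
    · have := norm_nonneg (uni v)
      omega
  exact (uni_prime v).not_unit (isUnit_iff_norm.mpr h9)

theorem abv_nonempty {ι : Eis →+* L} (hinj : Function.Injective ι) {c : L ≃ₐ[ℚ] L}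
    (hc : ∀ a : Eis, c (ι a) = ι (conj a)) (v : Pl) : (Abv ι v).Nonempty := by
  obtain ⟨M, hM, hmem⟩ := exists_max_ideal_of_mem_nonunits
    (show io ι (uni v) ∈ nonunits (𝓞 L) from not_isUnit_io hinj hc v)
  have h0 : M ≠ ⊥ := by
    intro h
    rw [h, Ideal.mem_bot] at hmem
    exact io_ne_zero hinj (uni_prime v).ne_zero hmem
  refine ⟨⟨M, hM.isPrime, h0⟩, ?_⟩
  show HeightOneSpectrum.valuation L _ (ι (uni v)) < 1
  rw [val_lt_iff]
  exact hmem

theorem transitive (hSPP : SPP) {ι : Eis →+* L} (hinj : Function.Injective ι) {σ : L ≃ₐ[ℚ] L}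
    (hσ3 : ∀ z : L, σ (σ (σ z)) = z)
    (hfix : ∀ z : L, σ z = z → ∃ a b : Eis, b ≠ 0 ∧ z * ι b = ι a)
    (v : Pl) (P P' : HeightOneSpectrum (𝓞 L)) (hP : P ∈ Abv ι v) (hP' : P' ∈ Abv ι v) :
    ∃ i : ℕ, ∀ z : L, P'.valuation L ((σ ^ i) z) = P.valuation L z := by
  obtain ⟨P1, h1⟩ := exists_map σ P
  obtain ⟨P2, h2⟩ := exists_map σ P1
  by_contra hcon
  push Not at hcon
  have hn0 : P' ≠ P := by
    rintro rfl
    obtain ⟨z, hz⟩ := hcon 0
    exact hz (by rw [pow_zero]; rfl)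
  have hn1 : P' ≠ P1 := by
    rintro rfl
    obtain ⟨z, hz⟩ := hcon 1
    exact hz (by rw [pow_one]; exact h1 z)
  have hn2 : P' ≠ P2 := by
    rintro rfl
    obtain ⟨z, hz⟩ := hcon 2
    exact hz (by
      rw [pow_two]
      show P'.valuation L (σ (σ z)) = _
      rw [h2, h1])
  let f : Fin 3 → Ideal (𝓞 L) := ![P.asIdeal, P1.asIdeal, P2.asIdeal]
  have hfp : ∀ i, (f i).IsPrime := by
    intro i
    fin_cases i
    · exact P.isPrime
    · exact P1.isPrime
    · exact P2.isPrime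
  have hne : ∀ Q : HeightOneSpectrum (𝓞 L), P' ≠ Q → ¬ P'.asIdeal ≤ Q.asIdeal := by
    intro Q hQ hle
    have h3 : P'.asIdeal = Q.asIdeal := P'.isMaximal.eq_of_le Q.isPrime.ne_top hle
    exact hQ (HeightOneSpectrum.ext h3)
  have hnot : ¬ ((P'.asIdeal : Set (𝓞 L)) ⊆ ⋃ i ∈ ((Finset.univ : Finset (Fin 3)) : Set (Fin 3)), f i) := by
    intro hsub
    obtain ⟨i, _, hi⟩ := (Ideal.subset_union_prime (0 : Fin 3) 0 (fun i _ _ _ => hfp i)).mp hsub
    fin_cases i
    · exact hne P hn0 hi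
    · exact hne P1 hn1 hi
    · exact hne P2 hn2 hi
  obtain ⟨z, hz, hz2⟩ := Set.not_subset.mp hnot
  have hzi : ∀ i, z ∉ f i := by
    intro i hi
    apply hz2
    simp only [Set.mem_iUnion]
    exact ⟨i, by simp, hi⟩
  set Z : L := algebraMap (𝓞 L) L z with hZ
  have hv0 : P.valuation L Z = 1 := P.valuation_eq_one_iff_notMem.mpr (hzi 0)
  have hv1 : P1.valuation L Z = 1 := P1.valuation_eq_one_iff_notMem.mpr (hzi 1)
  have hv2 : P2.valuation L Z = 1 := P2.valuation_eq_one_iff_notMem.mpr (hzi 2)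
  have hv' : P'.valuation L Z < 1 := (P'.valuation_lt_one_iff_mem z).mpr hz
  have hint : ∀ (Q : HeightOneSpectrum (𝓞 L)) (y : L), IsIntegral ℤ y → Q.valuation L y ≤ 1 :=
    fun Q y hy => Q.valuation_le_one (⟨y, hy⟩ : 𝓞 L)
  have hZi : IsIntegral ℤ Z := z.2
  have hZ1 : IsIntegral ℤ (σ Z) := map_isIntegral_int σ hZi
  have hZ2 : IsIntegral ℤ (σ (σ Z)) := map_isIntegral_int σ hZ1
  set T : L := Z * σ Z * σ (σ Z) with hT
  have hTfix : σ T = T := by
    rw [hT, map_mul, map_mul, hσ3]; ring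
  obtain ⟨a, b, hb, hab⟩ := hfix T hTfix
  have hT' : P'.valuation L T < 1 := by
    rw [hT, mul_assoc, map_mul, map_mul]
    exact mul_lt_one_of_lt_of_le hv' (mul_le_one' (hint P' _ hZ1) (hint P' _ hZ2))
  obtain ⟨a', b', hb', hab'⟩ := reduce hSPP hinj hP' hb hab hT'
  have hTP : P.valuation L T < 1 := by
    have h5 := congrArg (P.valuation L) hab'
    rw [map_mul, eq_one_of hSPP hP hb', mul_one] at h5
    rw [h5]
    exact (lt_iff hSPP hP _).mpr (dvd_mul_right _ _)
  have hTP1 : P.valuation L T = 1 := by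
    rw [hT, map_mul, map_mul, hv0, one_mul]
    have e1 : P.valuation L (σ Z) = 1 := by
      rw [← h1, ← h2, hσ3, hv2]
    have e2 : P.valuation L (σ (σ Z)) = 1 := by
      rw [← h1, hσ3, hv1]
    rw [e1, e2, one_mul]
  rw [hTP1] at hTP
  exact lt_irrefl _ hTP

/-- traces with small valuation are divisible by the uniformizer -/
theorem trace_dvd (hSPP : SPP) {ι : Eis →+* L} (hinj : Function.Injective ι) {σ : L ≃ₐ[ℚ] L}
    (hσ3 : ∀ z : L, σ (σ (σ z)) = z)
    (hfix : ∀ z : L, σ z = z → ∃ a b : Eis, b ≠ 0 ∧ z * ι b = ι a)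
    {v : Pl} {P : HeightOneSpectrum (𝓞 L)} (hP : P ∈ Abv ι v) {s : L} (hs : IsIntegral ℤ s)
    (h0 : P.valuation L s < 1) (h1 : P.valuation L (σ s) < 1)
    (h2 : P.valuation L (σ (σ s)) < 1) :
    ∃ t : L, IsIntegral ℤ t ∧ s + σ s + σ (σ s) = ι (uni v) * t := by
  set T : L := s + σ s + σ (σ s) with hT
  have hTfix : σ T = T := by
    rw [hT, map_add, map_add, hσ3]; ring
  obtain ⟨a, b, hb, hab⟩ := hfix T hTfix
  have hTP : P.valuation L T < 1 := by
    rw [hT]
    exact lt_of_le_of_lt (Valuation.map_add _ _ _)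
      (max_lt (lt_of_le_of_lt (Valuation.map_add _ _ _) (max_lt h0 h1)) h2)
  obtain ⟨a', b', hb', hab'⟩ := reduce hSPP hinj hP hb hab hTP
  have hl := uni_prime v
  obtain ⟨m, n, hmn⟩ := (hl.coprime_iff_not_dvd.mpr hb' : IsCoprime (uni v) b')
  have hTi : IsIntegral ℤ T := by
    have h3 : IsIntegral ℤ (σ s) := map_isIntegral_int σ hs
    have h4 : IsIntegral ℤ (σ (σ s)) := map_isIntegral_int σ h3
    exact (hs.add h3).add h4
  refine ⟨ι m * T + ι n * ι a', ((isIntegral_io ι m).mul hTi).add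
    ((isIntegral_io ι n).mul (isIntegral_io ι a')), ?_⟩
  have h5 : T = T * ι (m * uni v + n * b') := by rw [hmn, map_one, mul_one]
  have h6 : ι (m * uni v + n * b') = ι m * ι (uni v) + ι n * ι b' := by
    simp only [map_add, map_mul]
  rw [h6] at h5
  rw [map_mul] at hab'
  calc T = T * (ι m * ι (uni v) + ι n * ι b') := h5
    _ = T * ι m * ι (uni v) + ι n * (T * ι b') := by ring
    _ = T * ι m * ι (uni v) + ι n * (ι (uni v) * ι a') := by rw [hab']
    _ = _ := by ring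

theorem reduced (hSPP : SPP) {x : ℤ} {ι : Eis →+* L} {θ : L} {σ c : L ≃ₐ[ℚ] L}
    (hF : CubF x L ι θ σ c)
    (hσ3 : ∀ z : L, σ (σ (σ z)) = z)
    (hfix : ∀ z : L, σ z = z → ∃ a b : Eis, b ≠ 0 ∧ z * ι b = ι a)
    {π : PP} {P : HeightOneSpectrum (𝓞 L)} (hx : ¬ π.1 ∣ (x : Eis))
    (hP : P ∈ Abv ι (some π)) {y u : L} (hy : IsIntegral ℤ y) (hu : IsIntegral ℤ u)
    (hyu : y ^ 2 = ι π.1 * u) : ∃ t : L, IsIntegral ℤ t ∧ y = ι π.1 * t := by
  have hinj := hF.inj
  have hθi : IsIntegral ℤ θ := by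
    refine IsIntegral.of_pow (n := 3) (by norm_num) ?_
    rw [hF.cube]
    have := isIntegral_algebraMap (R := ℤ) (A := L) (x := x)
    simpa using this
  have hint : ∀ (Q : HeightOneSpectrum (𝓞 L)) (y : L), IsIntegral ℤ y → Q.valuation L y ≤ 1 :=
    fun Q y hy => Q.valuation_le_one (⟨y, hy⟩ : 𝓞 L)
  have hσi : ∀ z : L, IsIntegral ℤ z → IsIntegral ℤ (σ z) := fun z hz => map_isIntegral_int σ hz
  have hPlt : P.valuation L (ι π.1) < 1 := hP
  -- small valuations of all conjugates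
  have key : ∀ z t : L, IsIntegral ℤ t → z ^ 2 = ι π.1 * t → P.valuation L z < 1 := by
    intro z t ht hzt
    have h1 : P.valuation L z ^ 2 < 1 := by
      rw [← map_pow, hzt, map_mul]
      exact mul_lt_one_of_lt_of_le hPlt (hint P t ht)
    by_contra hcon
    push Not at hcon
    exact absurd (one_le_pow₀ hcon (n := 2)) (not_le.mpr h1)
  have hy1 : σ y ^ 2 = ι π.1 * σ u := by
    rw [← map_pow, hyu, map_mul, hF.sι]
  have hy2 : σ (σ y) ^ 2 = ι π.1 * σ (σ u) := by
    rw [← map_pow, hy1, map_mul, hF.sι]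
  have k0 := key y u hu hyu
  have k1 := key (σ y) (σ u) (hσi _ hu) hy1
  have k2 := key (σ (σ y)) (σ (σ u)) (hσi _ (hσi _ hu)) hy2
  have htr : ∀ t : L, IsIntegral ℤ t → ∃ s : L, IsIntegral ℤ s ∧
      y * t + σ (y * t) + σ (σ (y * t)) = ι π.1 * s := by
    intro t ht
    refine trace_dvd hSPP hinj hσ3 hfix hP (hy.mul ht) ?_ ?_ ?_
    · rw [map_mul]
      exact mul_lt_one_of_lt_of_le k0 (hint P t ht)
    · rw [map_mul, map_mul]
      exact mul_lt_one_of_lt_of_le k1 (hint P _ (hσi _ ht))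
    · rw [map_mul, map_mul, map_mul]
      exact mul_lt_one_of_lt_of_le k2 (hint P _ (hσi _ (hσi _ ht)))
  obtain ⟨s0, hs0, e0⟩ := htr 1 isIntegral_one
  obtain ⟨s1, hs1, e1⟩ := htr θ hθi
  obtain ⟨s2, hs2, e2⟩ := htr (θ ^ 2) (hθi.pow 2)
  have hw : ι w ^ 2 + ι w + 1 = 0 := by
    rw [← map_pow, ← map_one ι, ← map_add, ← map_add, w_rel, map_zero]
  have hw3 : ι w ^ 3 = 1 := by rw [← map_pow, w_cube, map_one]
  have hcube := hF.cube
  have hmain : 3 * (x : L) * y = ι π.1 * ((x : L) * s0 + θ * s2 + θ ^ 2 * s1) := by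
    have h1 : 3 * (x : L) * y = (x : L) * (y * 1 + σ (y * 1) + σ (σ (y * 1))) +
        θ * (y * θ ^ 2 + σ (y * θ ^ 2) + σ (σ (y * θ ^ 2))) +
        θ ^ 2 * (y * θ + σ (y * θ) + σ (σ (y * θ))) := by
      simp only [map_mul, map_pow, hF.sθ, hF.sι, mul_one, map_one]
      rw [← hcube]
      have hw4 : ι w ^ 4 = ι w := by
        calc ι w ^ 4 = ι w ^ 3 * ι w := by ring
          _ = ι w := by rw [hw3, one_mul]
      have e1' : θ ^ 3 * (σ y * (ι w ^ 2 + ι w + 1)) = 0 := by rw [hw]; ring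
      have e2' : θ ^ 3 * (σ (σ y) * (ι w ^ 4 + ι w ^ 2 + 1)) = 0 := by
        rw [hw4]
        have : ι w + ι w ^ 2 + 1 = 0 := by rw [← hw]; ring
        rw [this]; ring
      linear_combination (-1 : L) * e1' - e2'
    rw [h1, e0, e1, e2]
    ring
  have h3 : ¬ π.1 ∣ (3 * x : Eis) := by
    intro h
    rcases π.2.1.dvd_or_dvd h with h | h
    · exact (hSPP.2.2.2.1 π).1 h
    · exact hx h
  obtain ⟨m, n, hmn⟩ := (π.2.1.coprime_iff_not_dvd.mpr h3 : IsCoprime π.1 (3 * x : Eis))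
  have hxi : IsIntegral ℤ (x : L) := by
    have := isIntegral_algebraMap (R := ℤ) (A := L) (x := x)
    simpa using this
  refine ⟨ι m * y + ι n * ((x : L) * s0 + θ * s2 + θ ^ 2 * s1), ?_, ?_⟩
  · exact ((isIntegral_io ι m).mul hy).add ((isIntegral_io ι n).mul
      (((hxi.mul hs0).add (hθi.mul hs2)).add ((hθi.pow 2).mul hs1)))
  · have h5 : y = y * ι (m * π.1 + n * (3 * x : Eis)) := by rw [hmn, map_one, mul_one]
    have h6 : ι (m * π.1 + n * (3 * x : Eis)) = ι m * ι π.1 + ι n * (3 * (x : L)) := by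
      simp only [map_add, map_mul, map_intCast, map_ofNat]
    rw [h6] at h5
    calc y = y * (ι m * ι π.1 + ι n * (3 * (x : L))) := h5
      _ = ι m * ι π.1 * y + ι n * (3 * (x : L) * y) := by ring
      _ = _ := by rw [hmain]; ring

theorem unram (hSPP : SPP) {x : ℤ} {ι : Eis →+* L} {θ : L} {σ c : L ≃ₐ[ℚ] L}
    (hF : CubF x L ι θ σ c)
    (hσ3 : ∀ z : L, σ (σ (σ z)) = z)
    (hfix : ∀ z : L, σ z = z → ∃ a b : Eis, b ≠ 0 ∧ z * ι b = ι a)
    (π : PP) (P : HeightOneSpectrum (𝓞 L)) (hx : ¬ π.1 ∣ (x : Eis))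
    (hP : P ∈ Abv ι (some π)) : P.valuation L (ι π.1) = WithZero.exp (-1 : ℤ) := by
  have hinj := hF.inj
  have hp0 : io ι π.1 ≠ 0 := io_ne_zero hinj π.2.1.ne_zero
  set p := io ι π.1 with hp
  have hnot : p ∉ P.asIdeal ^ 2 := by
    intro hmem
    have hdvd : P.asIdeal ^ 2 ∣ Ideal.span {p} := Ideal.dvd_span_singleton.mpr hmem
    obtain ⟨J', hJ'⟩ := hdvd
    set J : Ideal (𝓞 L) := P.asIdeal * J' with hJ
    have hpJ : Ideal.span {p} = P.asIdeal * J := by rw [hJ', hJ, pow_two, mul_assoc]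
    have hJ2 : J * J ≤ Ideal.span {p} := by
      have h1 : J * J = Ideal.span {p} * J' := by
        rw [hJ', hJ]; ring
      rw [h1]
      exact Ideal.mul_le_left
    have hpne : Ideal.span {p} ≠ (0 : Ideal (𝓞 L)) := fun h => hp0 (Ideal.span_singleton_eq_bot.mp h)
    have hJ0 : J ≠ 0 := by
      intro h
      rw [h, mul_zero] at hpJ
      exact hpne hpJ
    have hnle : ¬ J ≤ Ideal.span {p} := by
      intro hle
      have h1 : J = P.asIdeal * J := le_antisymm (by rw [← hpJ]; exact hle) Ideal.mul_le_right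
      have h2 : (1 : Ideal (𝓞 L)) * J = P.asIdeal * J := by rw [one_mul]; exact h1
      have h3 : (1 : Ideal (𝓞 L)) = P.asIdeal := mul_right_cancel₀ hJ0 h2
      exact P.isPrime.ne_top (by rw [← h3, Ideal.one_eq_top])
    obtain ⟨y, hyJ, hyp⟩ := Set.not_subset.mp hnle
    have hy2 : y * y ∈ Ideal.span {p} := hJ2 (Ideal.mul_mem_mul hyJ hyJ)
    obtain ⟨u, hu⟩ := Ideal.mem_span_singleton.mp hy2
    have hu' : (y : L) ^ 2 = ι π.1 * (u : L) := by
      have := congrArg (algebraMap (𝓞 L) L) hu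
      rw [map_mul, map_mul, ← pow_two] at this
      exact this
    obtain ⟨t, ht, hyt⟩ := reduced hSPP hF hσ3 hfix hx hP y.2 u.2 hu'
    apply hyp
    show y ∈ Ideal.span {p}
    rw [Ideal.mem_span_singleton]
    set t' : 𝓞 L := ⟨t, ht⟩ with ht'
    exact ⟨t', RingOfIntegers.ext (hyt.trans (map_mul (algebraMap (𝓞 L) L) p t').symm)⟩
  have hval : P.valuation L (ι π.1) = P.intValuation p := P.valuation_of_algebraMap p
  rw [hval, P.intValuation_eq_exp_neg_multiplicity hp0]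
  have hlt : P.intValuation p < 1 := by rw [← hval]; exact hP
  set k := multiplicity P.asIdeal (Ideal.span {p}) with hk
  have hk' := P.intValuation_eq_exp_neg_multiplicity hp0
  rw [← hk] at hk'
  have hk1 : 1 ≤ k := by
    by_contra h
    have h0 : k = 0 := by omega
    rw [h0] at hk'
    rw [hk'] at hlt
    simp at hlt
  have hk2 : k < 2 := by
    by_contra h
    push Not at h
    apply hnot
    rw [← P.intValuation_le_pow_iff_mem, hk', WithZero.exp_le_exp]
    push_cast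
    omega
  have hk3 : k = 1 := by omega
  rw [hk3]
  norm_num

end NTR

theorem NTR_thm (hSPP : SPP) (hNHN : NHN) : NTR := by
  intro x L _ _ ι θ σ c hx0 hx3 hF
  obtain ⟨hσ3, hfix, -⟩ := hNHN x L ι θ σ c hx0 hF
  exact ⟨fun P a => NTR.val_le_one ι P a, fun P => NTR.exists_place hSPP ι P,
    fun P => NTR.exists_map σ P,
    fun v => ⟨NTR.abv_finite hF.inj v, NTR.abv_nonempty hF.inj hF.cι v⟩,
    fun v P P' hP hP' => NTR.transitive hSPP hF.inj hσ3 hfix v P P' hP hP',
    fun π P hπ hP => NTR.unram hSPP hF hσ3 hfix π P hπ hP⟩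

end Pool.Agent.PT
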