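import Pool.Agent.PT.Stmts4

/-!
# ROOT: independence of the cube root
-/

namespace Pool.Agent.PT

open Pool.Agent.Lib_helper18 Pool.Agent.Lib_helper18.Eis Pool.Agent.Lib_helper84.Cub

namespace ROOT

theorem pow_dvd_iff {π a : Eis} (hπ : Prime π) (ha : a ≠ 0) (k : ℕ) : π ^ k ∣ a ↔ k ≤ V π a :=
  (fin hπ ha).pow_dvd_iff_le_multiplicity

theorem pig {π a b c : Eis} (hπ : Prime π) {M : ℕ} (h : π ^ (3 * M) ∣ a * b * c) :
    π ^ M ∣ a ∨ π ^ M ∣ b ∨ π ^ M ∣ c := by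
  by_cases ha : a = 0
  · exact Or.inl (ha ▸ dvd_zero _)
  by_cases hb : b = 0
  · exact Or.inr (Or.inl (hb ▸ dvd_zero _))
  by_cases hc : c = 0
  · exact Or.inr (Or.inr (hc ▸ dvd_zero _))
  rw [pow_dvd_iff hπ (mul_ne_zero (mul_ne_zero ha hb) hc), V_mul hπ (mul_ne_zero ha hb) hc,
    V_mul hπ ha hb] at h
  rw [pow_dvd_iff hπ ha, pow_dvd_iff hπ hb, pow_dvd_iff hπ hc]
  omega

theorem close {π P Q : Eis} (hπ : Prime π) {N : ℕ} (h : π ^ N ∣ P - Q) (hQ : Q ≠ 0)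
    (hN : V π Q < N) : P ≠ 0 ∧ V π P ≤ V π Q := by
  have h1 : ¬ π ^ N ∣ P := by
    intro h2
    have h3 : π ^ N ∣ Q := by
      have h4 := dvd_sub h2 h
      rwa [sub_sub_cancel] at h4
    rw [pow_dvd_iff hπ hQ] at h3
    omega
  have hP : P ≠ 0 := by
    rintro rfl
    exact h1 (dvd_zero _)
  refine ⟨hP, ?_⟩
  rw [pow_dvd_iff hπ hP, not_le] at h1
  rw [← pow_dvd_iff hπ hQ]
  have h2 : π ^ V π P ∣ P := (pow_dvd_iff hπ hP _).mpr le_rfl
  have h3 : π ^ V π P ∣ P - Q := (pow_dvd_pow π h1.le).trans h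
  have h4 := dvd_sub h2 h3
  rwa [sub_sub_cancel] at h4

theorem prod_eq (p q r : ℤ) :
    Lf p q 0 r * Lf p q 1 r * Lf p q 2 r = ((p ^ 3 + q ^ 3 * r ^ 3 : ℤ) : Eis) := by
  unfold Lf
  push_cast
  have h1 := w_rel
  have h2 := w_cube
  linear_combination ((p : Eis) ^ 2 * q * r + (p : Eis) * q ^ 2 * r ^ 2 * w) * h1 +
    (((q : Eis) * r) ^ 3) * h2

theorem Lf_add_three (p q r : ℤ) (j : ℕ) : Lf p q (j + 3) r = Lf p q j r := by
  unfold Lf
  rw [pow_add, w_cube, mul_one]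

theorem prod_sub {π : Eis} {b r : ℤ} {N : ℕ} (h : π ^ N ∣ (r : Eis) ^ 3 - (b : Eis)) (p q : ℤ) :
    π ^ N ∣ Lf p q 0 r * Lf p q 1 r * Lf p q 2 r - ((p ^ 3 + b * q ^ 3 : ℤ) : Eis) := by
  rw [prod_eq]
  have e : ((p ^ 3 + q ^ 3 * r ^ 3 : ℤ) : Eis) - ((p ^ 3 + b * q ^ 3 : ℤ) : Eis) =
      ((r : Eis) ^ 3 - (b : Eis)) * (q : Eis) ^ 3 := by
    push_cast
    ring
  rw [e]
  exact Dvd.dvd.mul_right h _

theorem lin {π : Eis} (hπ : Prime π) {b r : ℤ} {N : ℕ} (h : π ^ N ∣ (r : Eis) ^ 3 - (b : Eis))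
    (p q : ℤ) (h0 : ((p ^ 3 + b * q ^ 3 : ℤ) : Eis) ≠ 0)
    (hN : V π ((p ^ 3 + b * q ^ 3 : ℤ) : Eis) < N) :
    ∀ j < 3, Lf p q j r ≠ 0 ∧ V π (Lf p q j r) ≤ V π ((p ^ 3 + b * q ^ 3 : ℤ) : Eis) := by
  obtain ⟨h1, h2⟩ := close hπ (prod_sub h p q) h0 hN
  have h3 := mul_ne_zero_iff.mp h1
  have h4 := mul_ne_zero_iff.mp h3.1
  rw [V_mul hπ h3.1 h3.2, V_mul hπ h4.1 h4.2] at h2
  intro j hj
  interval_cases j
  · exact ⟨h4.1, by omega⟩
  · exact ⟨h4.2, by omega⟩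
  · exact ⟨h3.2, by omega⟩

section

variable {π : Eis} {s : Eis → Eis → ZMod 3} {e : ℕ}

theorem cont' (hs : LSym π s e) {a a' B : Eis} (hB : B ≠ 0) (ha : a ≠ 0) (ha' : a' ≠ 0)
    (h : π ^ (V π a + e) ∣ a' - a) : s B a' = s B a := by
  rw [hs.skew a' B ha' hB, hs.skew a B ha hB, hs.cont a a' B ha hB h]

theorem mul' (hs : LSym π s e) {a c B : Eis} (hB : B ≠ 0) (ha : a ≠ 0) (hc : c ≠ 0) :
    s B (a * c) = s B a + s B c := by
  rw [hs.skew (a * c) B (mul_ne_zero ha hc) hB, hs.skew a B ha hB, hs.skew c B hc hB,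
    hs.mul a c B ha hc hB]
  ring

theorem sum_eq (hs : LSym π s e) {B : Eis} (hB : B ≠ 0) {b r : ℤ} {N : ℕ}
    (h : π ^ N ∣ (r : Eis) ^ 3 - (b : Eis)) (p q : ℤ) (h0 : ((p ^ 3 + b * q ^ 3 : ℤ) : Eis) ≠ 0)
    (hN : V π ((p ^ 3 + b * q ^ 3 : ℤ) : Eis) + e < N) :
    s B (Lf p q 0 r) + s B (Lf p q 1 r) + s B (Lf p q 2 r) =
      s B ((p ^ 3 + b * q ^ 3 : ℤ) : Eis) := by
  have h1 := lin hs.prime h p q h0 (by omega)
  have n0 := (h1 0 (by norm_num)).1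
  have n1 := (h1 1 (by norm_num)).1
  have n2 := (h1 2 (by norm_num)).1
  rw [← mul' hs hB n0 n1, ← mul' hs hB (mul_ne_zero n0 n1) n2]
  exact cont' hs hB h0 (mul_ne_zero (mul_ne_zero n0 n1) n2)
    ((pow_dvd_pow π hN.le).trans (prod_sub h p q))

theorem shift (hs : LSym π s e) {B : Eis} (hB : B ≠ 0) {r r' : ℤ} {M : ℕ} {i j k : ℕ}
    (h : π ^ M ∣ (r' : Eis) - w ^ i * (r : Eis)) (p q : ℤ) (hk : Lf p q (j + i) r = Lf p q k r)
    (hne : Lf p q k r ≠ 0) (hne' : Lf p q j r' ≠ 0) (hM : V π (Lf p q k r) + e ≤ M) :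
    s B (Lf p q j r') = s B (Lf p q k r) := by
  refine cont' hs hB hne hne' ((pow_dvd_pow π hM).trans ?_)
  rw [← hk]
  have e1 : Lf p q j r' - Lf p q (j + i) r = ((r' : Eis) - w ^ i * (r : Eis)) * (q * w ^ j) := by
    unfold Lf
    rw [pow_add]
    ring
  rw [e1]
  exact Dvd.dvd.mul_right h _

end

end ROOT

open ROOT in
theorem ROOT_thm : ROOT := by
  intro π s e hs b x p q p' q' B hb hx hW hB hBx
  have n1Z : p ^ 3 + b * q ^ 3 ≠ 0 := hW.n1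
  have n2Z : p' ^ 3 + b * q' ^ 3 ≠ 0 := by
    intro h
    apply n1Z
    rw [hW.eq, h, mul_zero]
  have cast_ne : ∀ z : ℤ, z ≠ 0 → (z : Eis) ≠ 0 := fun z hz h => hz (by simpa using congrArg Eis.re h)
  have n1 := cast_ne _ n1Z
  have n2 := cast_ne _ n2Z
  set v1 := V π ((p ^ 3 + b * q ^ 3 : ℤ) : Eis) with hv1
  set v2 := V π ((p' ^ 3 + b * q' ^ 3 : ℤ) : Eis) with hv2
  set M := v1 + v2 + e + 1 with hM
  refine ⟨3 * M, fun r r' hr hr' => ?_⟩
  have L := lin hs.prime hr p q n1 (by omega)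
  have L' := lin hs.prime hr p' q' n2 (by omega)
  have K := lin hs.prime hr' p q n1 (by omega)
  have K' := lin hs.prime hr' p' q' n2 (by omega)
  have hS := sum_eq hs hB hr p q n1 (by omega)
  have hS' := sum_eq hs hB hr p' q' n2 (by omega)
  have hprod : s B ((p ^ 3 + b * q ^ 3 : ℤ) : Eis) = s B ((p' ^ 3 + b * q' ^ 3 : ℤ) : Eis) := by
    have h1 : ((p ^ 3 + b * q ^ 3 : ℤ) : Eis) = (x : Eis) * ((p' ^ 3 + b * q' ^ 3 : ℤ) : Eis) := by
      rw [hW.eq]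
      push_cast
      ring
    rw [h1, mul' hs hB (cast_ne x hx) n2, hBx, zero_add]
  rw [hprod, ← hS'] at hS
  have h3 : (3 : ZMod 3) = 0 := by decide
  have hdiv : π ^ (3 * M) ∣ ((r' : Eis) - w ^ 0 * r) * ((r' : Eis) - w ^ 1 * r) *
      ((r' : Eis) - w ^ 2 * r) := by
    have e1 : ((r' : Eis) - w ^ 0 * r) * ((r' : Eis) - w ^ 1 * r) * ((r' : Eis) - w ^ 2 * r) =
        ((r' : Eis) ^ 3 - b) - ((r : Eis) ^ 3 - b) := by
      have h1 := w_rel
      have h2 := w_cube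
      linear_combination (-(r' : Eis) ^ 2 * r + (r' : Eis) * r ^ 2 * w) * h1 -
        ((r : Eis) ^ 3) * h2
    rw [e1]
    exact dvd_sub hr' hr
  have b0 := (L 0 (by norm_num)).2
  have b1 := (L 1 (by norm_num)).2
  have b2 := (L 2 (by norm_num)).2
  have c0 := (L' 0 (by norm_num)).2
  have c1 := (L' 1 (by norm_num)).2
  have c2 := (L' 2 (by norm_num)).2
  rcases pig hs.prime hdiv with h | h | h
  · have e1 := shift hs hB h p q (j := 2) (k := 2) rfl (L 2 (by norm_num)).1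
      (K 2 (by norm_num)).1 (by omega)
    have e2 := shift hs hB h p' q' (j := 1) (k := 1) rfl (L' 1 (by norm_num)).1
      (K' 1 (by norm_num)).1 (by omega)
    have e3 := shift hs hB h p q (j := 1) (k := 1) rfl (L 1 (by norm_num)).1
      (K 1 (by norm_num)).1 (by omega)
    have e4 := shift hs hB h p' q' (j := 2) (k := 2) rfl (L' 2 (by norm_num)).1
      (K' 2 (by norm_num)).1 (by omega)
    unfold AS
    rw [e1, e2, e3, e4]
  · have e1 := shift hs hB h p q (j := 2) (k := 0) (Lf_add_three p q r 0)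
      (L 0 (by norm_num)).1 (K 2 (by norm_num)).1 (by omega)
    have e2 := shift hs hB h p' q' (j := 1) (k := 2) rfl (L' 2 (by norm_num)).1
      (K' 1 (by norm_num)).1 (by omega)
    have e3 := shift hs hB h p q (j := 1) (k := 2) rfl (L 2 (by norm_num)).1
      (K 1 (by norm_num)).1 (by omega)
    have e4 := shift hs hB h p' q' (j := 2) (k := 0) (Lf_add_three p' q' r 0)
      (L' 0 (by norm_num)).1 (K' 2 (by norm_num)).1 (by omega)
    unfold AS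
    rw [e1, e2, e3, e4]
    linear_combination (-1 : ZMod 3) * hS + (s B (Lf p q 2 r) - s B (Lf p' q' 2 r)) * h3
  · have e1 := shift hs hB h p q (j := 2) (k := 1) (Lf_add_three p q r 1)
      (L 1 (by norm_num)).1 (K 2 (by norm_num)).1 (by omega)
    have e2 := shift hs hB h p' q' (j := 1) (k := 0) (Lf_add_three p' q' r 0)
      (L' 0 (by norm_num)).1 (K' 1 (by norm_num)).1 (by omega)
    have e3 := shift hs hB h p q (j := 1) (k := 0) (Lf_add_three p q r 0)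
      (L 0 (by norm_num)).1 (K 1 (by norm_num)).1 (by omega)
    have e4 := shift hs hB h p' q' (j := 2) (k := 1) (Lf_add_three p' q' r 1)
      (L' 1 (by norm_num)).1 (K' 2 (by norm_num)).1 (by omega)
    unfold AS
    rw [e1, e2, e3, e4]
    linear_combination hS + (s B (Lf p' q' 1 r) - s B (Lf p q 1 r)) * h3

end Pool.Agent.PT
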