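import Pool.Agent.PT.Stmts4
import Pool.Agent.Lib_helper18.FD4

/-!
# SCJ: complex conjugation
-/

namespace Pool.Agent.PT

open Pool.Agent.Lib_helper18 Pool.Agent.Lib_helper18.Eis Pool.Agent.Lib_helper84.Cub

namespace SCJ

/-- the unit part -/
theorem up_eq {π a c : Eis} {n : ℕ} (hπ : Prime π) (ha : a = π ^ n * c) (hc : ¬ π ∣ c) :
    V π a = n ∧ up π a = c := by
  have h1 : V π a = n := by rw [ha]; exact V_pow_mul hπ n hc
  refine ⟨h1, ?_⟩
  unfold up
  rw [h1, ha]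
  exact mul_div_cancel_left₀ c (pow_ne_zero n hπ.ne_zero)

theorem conj_ne_zero {a : Eis} (ha : a ≠ 0) : conj a ≠ 0 := by
  intro h
  apply ha
  rw [← conj_conj a, h, map_zero]

theorem V_ch_conj {π a : Eis} (hπ : Prime π) (h3 : ¬ π ∣ 3) (ha : a ≠ 0) :
    V (conj π) (conj a) = V π a ∧ ch (conj π) (conj a) = - ch π a := by
  obtain ⟨c, hc, hpc⟩ := V_split hπ ha
  have h1 : conj a = conj π ^ (V π a) * conj c := by
    conv_lhs => rw [hc]
    rw [map_mul, map_pow]
  have hpc' : ¬ conj π ∣ conj c := fun h => hpc (conj_dvd_iff.mp h)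
  obtain ⟨e1, e2⟩ := up_eq (prime_conj hπ) h1 hpc'
  obtain ⟨-, e3⟩ := up_eq hπ hc hpc
  refine ⟨e1, ?_⟩
  unfold ch
  rw [e2, e3]
  exact sym_conj hπ h3 hpc

theorem tm_conj {π a b : Eis} (hπ : Prime π) (h3 : ¬ π ∣ 3) (ha : a ≠ 0) (hb : b ≠ 0) :
    tm (conj π) (conj a) (conj b) = - tm π a b := by
  unfold tm
  rw [(V_ch_conj hπ h3 ha).1, (V_ch_conj hπ h3 ha).2, (V_ch_conj hπ h3 hb).1,
    (V_ch_conj hπ h3 hb).2]
  ring

theorem intCast_ne {m : ℤ} (hm : m ≠ 0) : (m : Eis) ≠ 0 := by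
  intro h
  apply hm
  have := congrArg Eis.re h
  simpa using this

theorem eq_zero_of_neg {x : ZMod 3} (h : x = - x) : x = 0 := by
  revert h
  revert x
  decide

end SCJ

open SCJ in
set_option linter.unusedVariables false in
theorem SCJ_thm (hSTM : STM) (hSPP : SPP) (hSSL : SSL) : SCJ := by
  have h2 : ∀ a b : Eis, a ≠ 0 → b ≠ 0 → sl (conj a) (conj b) = - sl a b := by
    intro a b ha hb
    choose h3 hc using hSPP.2.2.2.1
    choose σ hσ using hc
    have hinv : Function.Involutive σ := fun π => Subtype.ext (by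
      rw [hσ, hσ, conj_conj])
    have e1 : ∑ᶠ π : PP, tm π.1 (conj a) (conj b) = ∑ᶠ π : PP, tm (σ π).1 (conj a) (conj b) :=
      (finsum_comp_equiv (hinv.toPerm σ) (f := fun π : PP => tm π.1 (conj a) (conj b))).symm
    have e2 : ∑ᶠ π : PP, tm (σ π).1 (conj a) (conj b) = ∑ᶠ π : PP, - tm π.1 a b := by
      refine finsum_congr fun π => ?_
      rw [hσ]
      exact tm_conj π.2.1 (h3 π) ha hb
    unfold sl
    rw [e1, e2, finsum_neg_distrib]
  refine ⟨fun π a b hπ h3 ha hb => tm_conj hπ h3 ha hb, h2, ?_, ?_⟩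
  · intro m n hm hn
    have h := h2 m n (intCast_ne hm) (intCast_ne hn)
    rw [conj_intCast, conj_intCast] at h
    exact eq_zero_of_neg h
  · intro q hq hq3 m n hm hn
    have h := tm_conj (prime_inert hq hq3) (n3 hq hq3) (intCast_ne hm) (intCast_ne hn)
    rw [conj_intCast, conj_intCast, conj_natCast] at h
    exact eq_zero_of_neg h

end Pool.Agent.PT
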