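import Pool.Agent.PT.Stmts4

/-!
# SING: at most `3/8` of the alternating matrices of even size over `F_3` are singular
-/

namespace Pool.Agent.PT

open Pool.Agent.Lib_helper18 Pool.Agent.Lib_helper18.Eis Pool.Agent.Lib_helper84.Cub

namespace SING

variable {s : ℕ}

instance : Fact (Nat.Prime 3) := ⟨Nat.prime_three⟩

theorem alt_apply (v : Fin s → Fin s → ZMod 3) (j i : Fin s) :
    alt v j i = if j < i then v j i else if i < j then - v i j else 0 := rfl

theorem alt_transpose (v : Fin s → Fin s → ZMod 3) : (alt v).transpose = - alt v := by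
  ext j i
  rw [Matrix.transpose_apply, Matrix.neg_apply, alt_apply, alt_apply]
  rcases lt_trichotomy i j with h | h | h
  · simp [h, not_lt_of_gt h]
  · simp [h]
  · simp [h, not_lt_of_gt h]

theorem alt_add (v v' : Fin s → Fin s → ZMod 3) : alt (v + v') = alt v + alt v' := by
  ext j i
  rw [Matrix.add_apply, alt_apply, alt_apply, alt_apply]
  split_ifs <;> simp [add_comm]

/-- an alternating matrix with given image of `x` -/
def sec (x' y : Fin s → ZMod 3) : Fin s → Fin s → ZMod 3 := fun j i => y j * x' i - x' j * y i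

theorem alt_sec (x' y : Fin s → ZMod 3) (j i : Fin s) :
    alt (sec x' y) j i = y j * x' i - x' j * y i := by
  rw [alt_apply]
  unfold sec
  rcases lt_trichotomy i j with h | h | h
  · simp [h, not_lt_of_gt h]; ring
  · simp [h]; ring
  · simp [h]

theorem sec_mulVec (x x' y : Fin s → ZMod 3) (h1 : ∑ i, x' i * x i = 1) (h2 : ∑ i, y i * x i = 0) :
    (alt (sec x' y)).mulVec x = y := by
  ext j
  rw [Matrix.mulVec, dotProduct]
  calc ∑ i, alt (sec x' y) j i * x i = ∑ i, (y j * (x' i * x i) - x' j * (y i * x i)) := by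
        refine Finset.sum_congr rfl fun i _ => ?_
        rw [alt_sec]; ring
    _ = y j := by
        rw [Finset.sum_sub_distrib, ← Finset.mul_sum, ← Finset.mul_sum, h1, h2]; ring

theorem card_ker (x : Fin s → ZMod 3) (hx : x ≠ 0) :
    3 ^ s * Fintype.card {v : Fin s → Fin s → ZMod 3 // (alt v).mulVec x = 0} ≤
      3 * Fintype.card (Fin s → Fin s → ZMod 3) := by
  obtain ⟨k, hk⟩ := Function.ne_iff.1 hx
  simp only [Pi.zero_apply, ne_eq] at hk
  set x' : Fin s → ZMod 3 := Pi.single k (x k)⁻¹ with hx'
  have h1 : ∑ i, x' i * x i = 1 := by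
    rw [Finset.sum_eq_single k]
    · rw [hx', Pi.single_eq_same, inv_mul_cancel₀ hk]
    · intro b _ hb
      rw [hx', Pi.single_eq_of_ne hb, zero_mul]
    · simp
  -- projection
  let pr : (Fin s → ZMod 3) → (Fin s → ZMod 3) := fun z => z - (∑ i, z i * x i) • x'
  have hpr : ∀ z, ∑ i, pr z i * x i = 0 := by
    intro z
    have : ∑ i, pr z i * x i = ∑ i, z i * x i - (∑ i, z i * x i) * ∑ i, x' i * x i := by
      rw [Finset.mul_sum, ← Finset.sum_sub_distrib]
      refine Finset.sum_congr rfl fun i _ => ?_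
      simp only [pr, Pi.sub_apply, Pi.smul_apply, smul_eq_mul]
      ring
    rw [this, h1, mul_one, sub_self]
  have hc : Fintype.card ((Fin s → ZMod 3) × {v : Fin s → Fin s → ZMod 3 // (alt v).mulVec x = 0}) ≤
      Fintype.card (ZMod 3 × (Fin s → Fin s → ZMod 3)) := by
    refine Fintype.card_le_of_injective
      (fun a => (∑ i, a.1 i * x i, a.2.1 + sec x' (pr a.1))) ?_
    rintro ⟨z, v, hv⟩ ⟨z', v', hv'⟩ h
    simp only [Prod.mk.injEq] at h
    obtain ⟨ha, hb⟩ := h
    have hp : pr z = pr z' := by
      have := congrArg (fun u => (alt u).mulVec x) hb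
      simp only [alt_add, Matrix.add_mulVec, hv, hv', zero_add] at this
      rwa [sec_mulVec x x' _ h1 (hpr z), sec_mulVec x x' _ h1 (hpr z')] at this
    have hz : z = z' := by
      have h3 : z = pr z + (∑ i, z i * x i) • x' := by simp [pr]
      rw [h3, hp, ha]
      simp [pr]
    subst hz
    simp only [Prod.mk.injEq, Subtype.mk.injEq, true_and]
    exact add_right_cancel hb
  rw [Fintype.card_prod, Fintype.card_prod] at hc
  simpa [ZMod.card] using hc

theorem odd_det {n : ℕ} (hn : Odd n) (A : Matrix (Fin n) (Fin n) (ZMod 3)) (h : A.transpose = - A) :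
    A.det = 0 := by
  have h1 : A.det = - A.det := by
    conv_lhs => rw [← Matrix.det_transpose, h, Matrix.det_neg]
    simp [hn.neg_one_pow]
  revert h1
  generalize A.det = d
  revert d
  decide

theorem two_ker (hs : Even s) (v : Fin s → Fin s → ZMod 3) (hv : (alt v).det = 0) :
    ∃ x u : Fin s → ZMod 3, ∃ k : Fin s, (alt v).mulVec x = 0 ∧ (alt v).mulVec u = 0 ∧ x k ≠ 0 ∧
      u k = 0 ∧ u ≠ 0 := by
  obtain ⟨x, hx0, hx⟩ := Matrix.exists_mulVec_eq_zero_iff.2 hv
  obtain ⟨k, hk⟩ := Function.ne_iff.1 hx0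
  simp only [Pi.zero_apply, ne_eq] at hk
  obtain ⟨n, rfl⟩ : ∃ n, s = n + 1 := ⟨s - 1, by have := k.2; omega⟩
  have hn : Odd n := by
    rcases Nat.even_or_odd n with h | h
    · exfalso
      rw [Nat.even_add_one] at hs
      exact hs h
    · exact h
  let A' : Matrix (Fin n) (Fin n) (ZMod 3) := (alt v).submatrix k.succAbove k.succAbove
  have hA' : A'.det = 0 := by
    refine odd_det hn A' ?_
    show ((alt v).submatrix _ _).transpose = _
    rw [Matrix.transpose_submatrix, alt_transpose]
    rfl
  obtain ⟨u', hu0, hu'⟩ := Matrix.exists_mulVec_eq_zero_iff.2 hA'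
  let u : Fin (n + 1) → ZMod 3 := k.insertNth 0 u'
  have huk : u k = 0 := Fin.insertNth_apply_same ..
  have hus : ∀ i, u (k.succAbove i) = u' i := fun i => Fin.insertNth_apply_succAbove ..
  have hne : u ≠ 0 := by
    intro h
    apply hu0
    ext i
    rw [← hus i, h]; rfl
  have hrow : ∀ i, (alt v).mulVec u (k.succAbove i) = 0 := by
    intro i
    have := congrFun hu' i
    rw [Matrix.mulVec, dotProduct] at this ⊢
    rw [Fin.sum_univ_succAbove _ k, huk, mul_zero, zero_add]
    simpa [A', hus] using this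
  have hkk : (alt v).mulVec u k = 0 := by
    have h1 : dotProduct x ((alt v).mulVec u) = 0 := by
      rw [Matrix.dotProduct_mulVec, ← Matrix.mulVec_transpose, alt_transpose, Matrix.neg_mulVec, hx]
      simp
    rw [dotProduct, Fin.sum_univ_succAbove _ k] at h1
    simp only [hrow, mul_zero, Finset.sum_const_zero, add_zero] at h1
    exact (mul_eq_zero.1 h1).resolve_left hk
  refine ⟨x, u, k, hx, ?_, hk, huk, hne⟩
  ext i
  rcases Fin.eq_self_or_eq_succAbove k i with h | ⟨j, h⟩
  · rw [h]; exact hkk
  · rw [h]; exact hrow j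

theorem eight_le (hs : Even s) (v : Fin s → Fin s → ZMod 3) (hv : (alt v).det = 0) :
    9 ≤ Fintype.card {x : Fin s → ZMod 3 // (alt v).mulVec x = 0} := by
  obtain ⟨x, u, k, hx, hu, hk, huk, hne⟩ := two_ker hs v hv
  obtain ⟨l, hl⟩ := Function.ne_iff.1 hne
  simp only [Pi.zero_apply, ne_eq] at hl
  have := Fintype.card_le_of_injective
    (fun a : ZMod 3 × ZMod 3 => (⟨a.1 • x + a.2 • u, by
      rw [Matrix.mulVec_add, Matrix.mulVec_smul, Matrix.mulVec_smul, hx, hu]; simp⟩ :
        {x : Fin s → ZMod 3 // (alt v).mulVec x = 0})) (by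
      rintro ⟨a, b⟩ ⟨a', b'⟩ h
      simp only [Subtype.mk.injEq] at h
      have h1 := congrFun h k
      simp only [Pi.add_apply, Pi.smul_apply, smul_eq_mul, huk, mul_zero, add_zero] at h1
      have h2 := mul_right_cancel₀ hk h1
      subst h2
      have h3 := congrFun h l
      simp only [Pi.add_apply, Pi.smul_apply, smul_eq_mul] at h3
      have h4 := mul_right_cancel₀ hl (add_left_cancel h3)
      subst h4
      rfl)
  simpa [Fintype.card_prod, ZMod.card] using this

end SING

theorem SING_thm : SING := by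
  classical
  intro s hs
  rw [Nat.card_eq_fintype_card, Nat.card_eq_fintype_card]
  set N := Fintype.card (Fin s → Fin s → ZMod 3) with hN
  -- double counting
  have key := Finset.sum_card_bipartiteAbove_eq_sum_card_bipartiteBelow
    (s := (Finset.univ : Finset (Fin s → Fin s → ZMod 3)))
    (t := (Finset.univ.erase 0 : Finset (Fin s → ZMod 3)))
    (fun v x => (alt v).mulVec x = 0)
  have h1 : 8 * Fintype.card {v : Fin s → Fin s → ZMod 3 // (alt v).det = 0} ≤
      ∑ v : Fin s → Fin s → ZMod 3, ((Finset.univ.erase 0 : Finset (Fin s → ZMod 3)).bipartiteAbove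
        (fun v x => (alt v).mulVec x = 0) v).card := by
    rw [Fintype.card_subtype, mul_comm, ← smul_eq_mul, ← Finset.sum_const]
    refine le_trans (Finset.sum_le_sum fun v hv => ?_)
      (Finset.sum_le_sum_of_subset (Finset.filter_subset (fun v => (alt v).det = 0) _))
    have hv' := (Finset.mem_filter.1 hv).2
    have h9 := SING.eight_le hs v hv'
    rw [Fintype.card_subtype] at h9
    have : (Finset.univ.erase 0 : Finset (Fin s → ZMod 3)).bipartiteAbove
        (fun v x => (alt v).mulVec x = 0) v =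
        (Finset.univ.filter fun x : Fin s → ZMod 3 => (alt v).mulVec x = 0).erase 0 := by
      ext x
      simp [Finset.bipartiteAbove, and_comm]
    rw [this, Finset.card_erase_of_mem (by simp)]
    omega
  have h2 : ∑ x ∈ (Finset.univ.erase 0 : Finset (Fin s → ZMod 3)),
      3 ^ s * ((Finset.univ : Finset (Fin s → Fin s → ZMod 3)).bipartiteBelow
        (fun v x => (alt v).mulVec x = 0) x).card ≤
      ∑ x ∈ (Finset.univ.erase 0 : Finset (Fin s → ZMod 3)), 3 * N := by
    refine Finset.sum_le_sum fun x hx => ?_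
    have := SING.card_ker x (Finset.ne_of_mem_erase hx)
    rw [Fintype.card_subtype] at this
    exact this
  rw [← Finset.mul_sum, ← key, Finset.sum_const, smul_eq_mul] at h2
  have h3 : (Finset.univ.erase 0 : Finset (Fin s → ZMod 3)).card ≤ 3 ^ s := by
    refine le_trans (Finset.card_le_univ _) ?_
    simp [ZMod.card]
  have h4 := le_trans (Nat.mul_le_mul_left (3 ^ s) h1) (le_trans h2 (Nat.mul_le_mul_right _ h3))
  exact Nat.le_of_mul_le_mul_left h4 (by positivity)

end Pool.Agent.PT
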