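import Pool.Agent.PT.Stmts1

/-!
# Module SLC: the symbol at the prime above `3` is continuous
-/

namespace Pool.Agent.PT

open Pool.Agent.Lib_helper18 Pool.Agent.Lib_helper18.Eis Pool.Agent.Lib_helper84.Cub

namespace SLC

theorem three_z : (3 : ZMod 3) = 0 := by decide

theorem prim_ne_zero {c : Eis} (hc : Prim c) : c ≠ 0 := by
  rintro rfl
  exact hc.2 (by simp)

theorem w_ne_zero : w ≠ 0 := isUnit_w.ne_zero

theorem wt_congr {m n k : ℤ} (h : m = n + 9 * k) : wt m = wt n := by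
  have h1 : (m - 1) / 3 = (n - 1) / 3 + 3 * k := by omega
  rw [wt, wt, h1]
  push_cast
  rw [three_z]
  ring

/-- additivity in the second variable -/
theorem mul_right (hSSL : SSL) {a b c : Eis} (ha : a ≠ 0) (hb : b ≠ 0) (hc : c ≠ 0) :
    sl c (a * b) = sl c a + sl c b := by
  have h1 := hSSL.1 a b c ha hb hc
  have h2 := hSSL.2.1 (a * b) c (mul_ne_zero ha hb) hc
  have h3 := hSSL.2.1 a c ha hc
  have h4 := hSSL.2.1 b c hb hc
  rw [h2, h3, h4, h1]
  ring

theorem one_left (hSSL : SSL) {c : Eis} (hc : c ≠ 0) : sl 1 c = 0 := by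
  have h1 := hSSL.1 1 1 c one_ne_zero one_ne_zero hc
  rw [one_mul] at h1
  linear_combination -h1

theorem pow_left (hSSL : SSL) {a c : Eis} (ha : a ≠ 0) (hc : c ≠ 0) (n : ℕ) :
    sl (a ^ n) c = n * sl a c := by
  induction n with
  | zero => rw [pow_zero, one_left hSSL hc]; simp
  | succ n ih =>
    rw [pow_succ, hSSL.1 _ _ _ (pow_ne_zero _ ha) ha hc, ih]
    push_cast
    ring

theorem pow_right (hSSL : SSL) {a c : Eis} (ha : a ≠ 0) (hc : c ≠ 0) (n : ℕ) :
    sl c (a ^ n) = n * sl c a := by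
  have h2 := hSSL.2.1 (a ^ n) c (pow_ne_zero _ ha) hc
  have h3 := hSSL.2.1 a c ha hc
  rw [h2, h3, pow_left hSSL ha hc]
  ring

theorem lam_four : lam ^ 4 = 9 * w ^ 2 := by decide

theorem nine_re : (9 : Eis).re = 9 := by decide

theorem nine_im : (9 : Eis).im = 0 := by decide

/-- the value on a primary element -/
theorem prim_left (hSSL : SSL) (hSREC : SREC) {b d : Eis} {j l : ℕ} (hb : b ≠ 0) (hd : Prim d)
    (e : b * w ^ l = lam ^ j * d) {c : Eis} (hc : Prim c) :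
    sl c b = j * (2 * wt (c.re ^ 2)) - l * wt c.norm := by
  have hc0 := prim_ne_zero hc
  have hd0 := prim_ne_zero hd
  have hl0 : lam ≠ 0 := prime_lam.ne_zero
  have h1 := mul_right hSSL hb (pow_ne_zero l w_ne_zero) hc0
  have h2 := mul_right hSSL (pow_ne_zero j hl0) hd0 hc0
  rw [e, h2, pow_right hSSL hl0 hc0, pow_right hSSL w_ne_zero hc0, hSREC.1 c d hc hd,
    hSREC.2.1 c hc, hSREC.2.2.1 c hc] at h1
  linear_combination -h1

/-- the value depends only on the residue modulo `9` -/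
theorem prim_congr (hSSL : SSL) (hSREC : SREC) {b c c' t : Eis} (hb : b ≠ 0) (hc : Prim c)
    (e : c' = c + 9 * t) : Prim c' ∧ sl c' b = sl c b := by
  have hre : c'.re = c.re + 9 * t.re := by rw [e, add_re, mul_re, nine_re, nine_im]; ring
  have him : c'.im = c.im + 9 * t.im := by rw [e, add_im, mul_im, nine_re, nine_im]; ring
  have hc' : Prim c' := by
    refine ⟨?_, ?_⟩
    · have := hc.1
      omega
    · have := hc.2
      omega
  refine ⟨hc', ?_⟩
  obtain ⟨b1, hb1, hlb⟩ := V_split prime_lam hb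
  obtain ⟨l, hl⟩ := exists_prim hlb
  have e1 : b * w ^ l = lam ^ (V lam b) * (b1 * w ^ l) := by
    rw [← mul_assoc, ← hb1]
  have h1 : wt (c'.re ^ 2) = wt (c.re ^ 2) :=
    wt_congr (k := 2 * c.re * t.re + 9 * t.re ^ 2) (by rw [hre]; ring)
  have h2 : wt c'.norm = wt c.norm :=
    wt_congr (k := (2 * c.re * t.re + 9 * t.re ^ 2) - (c.re * t.im + t.re * c.im + 9 * t.re * t.im)
      + (2 * c.im * t.im + 9 * t.im ^ 2)) (by rw [norm_def, norm_def, hre, him]; ring)
  rw [prim_left hSSL hSREC hb hl e1 hc', prim_left hSSL hSREC hb hl e1 hc, h1, h2]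

theorem cont (hSSL : SSL) (hSREC : SREC) (a a' b : Eis) (ha : a ≠ 0) (hb : b ≠ 0)
    (h : lam ^ (V lam a + 4) ∣ a' - a) : sl a' b = sl a b := by
  obtain ⟨a1, ha1, hla⟩ := V_split prime_lam ha
  obtain ⟨t, ht⟩ := h
  obtain ⟨i, hi⟩ := exists_prim hla
  have hl0 : lam ≠ 0 := prime_lam.ne_zero
  generalize V lam a = k at ha1 ht
  have e1 : a' = lam ^ k * (a1 + lam ^ 4 * t) := by
    have : a' = a + lam ^ (k + 4) * t := by rw [← ht]; ring
    rw [this, ha1, pow_add]
    ring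
  have e2 : (a1 + lam ^ 4 * t) * w ^ i = a1 * w ^ i + 9 * (w ^ 2 * t * w ^ i) := by
    rw [lam_four]; ring
  obtain ⟨hp', hs⟩ := prim_congr hSSL hSREC hb hi e2
  have ha0' : a' ≠ 0 := by
    rintro rfl
    rcases mul_eq_zero.1 e1.symm with h0 | h0
    · exact pow_ne_zero _ hl0 h0
    · rw [h0, zero_mul] at hp'
      exact prim_ne_zero hp' rfl
  have h1 := hSSL.1 a (w ^ i) b ha (pow_ne_zero _ w_ne_zero) hb
  have h2 := hSSL.1 (lam ^ k) (a1 * w ^ i) b (pow_ne_zero _ hl0) (prim_ne_zero hi) hb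
  have h3 := hSSL.1 a' (w ^ i) b ha0' (pow_ne_zero _ w_ne_zero) hb
  have h4 := hSSL.1 (lam ^ k) ((a1 + lam ^ 4 * t) * w ^ i) b (pow_ne_zero _ hl0)
    (prim_ne_zero hp') hb
  rw [← mul_assoc, ← ha1] at h2
  rw [← mul_assoc, ← e1] at h4
  linear_combination h4 - h3 - h2 + h1 + hs

end SLC

theorem SLC_thm (hSSL : SSL) (hSREC : SREC) : SLC where
  prime := prime_lam
  pos := by norm_num
  mul := hSSL.1
  skew := hSSL.2.1
  stein := hSSL.2.2.1
  cont := SLC.cont hSSL hSREC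

end Pool.Agent.PT
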