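import Pool.Agent.PT.Stmts1

/-!
# Prime twists of rank zero: the symbol at `lam` of `g + h w` and a rational integer
-/

namespace Pool.Agent.PT

open Pool.Agent.Lib_helper18 Pool.Agent.Lib_helper18.Eis Pool.Agent.Lib_helper84.Cub

namespace SLE

theorem self_neg {x : ZMod 3} (h : x = -x) : x = 0 := by
  revert x
  decide

theorem add_self_zero {x : ZMod 3} (h : x + x = 0) : x = 0 := by
  revert x
  decide

theorem self_add {x : ZMod 3} (h : x = x + x) : x = 0 := by
  revert x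
  decide

theorem w_ne : (w : Eis) ≠ 0 := by
  intro h
  have := congrArg Eis.im h
  simp at this

theorem lam_ne : (lam : Eis) ≠ 0 := by
  intro h
  have := congrArg Eis.re h
  simp [lam] at this

theorem three_re : (3 : Eis).re = 3 := rfl

theorem three_im : (3 : Eis).im = 0 := rfl

theorem three_ne : (3 : Eis) ≠ 0 := by
  intro h
  have := congrArg Eis.re h
  rw [three_re] at this
  simp at this

theorem int_ne {n : ℤ} (h : n ≠ 0) : (n : Eis) ≠ 0 := by
  intro h'
  have := congrArg Eis.re h'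
  simp at this
  exact h this

theorem three_eq : (3 : Eis) = -1 * ((w * w) * (lam * lam)) := by
  ext
  · rw [three_re]
    simp [w, lam]
  · rw [three_im]
    simp [w, lam]

section

variable (hS : SSL) (hR : SREC)

include hS

theorem mulL {a b c : Eis} (ha : a ≠ 0) (hb : b ≠ 0) (hc : c ≠ 0) :
    sl (a * b) c = sl a c + sl b c := hS.1 a b c ha hb hc

theorem skew {a b : Eis} (ha : a ≠ 0) (hb : b ≠ 0) : sl b a = -sl a b := hS.2.1 a b ha hb

theorem mulR {a b c : Eis} (ha : a ≠ 0) (hb : b ≠ 0) (hc : c ≠ 0) :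
    sl a (b * c) = sl a b + sl a c := by
  rw [skew hS (mul_ne_zero hb hc) ha, mulL hS hb hc ha, skew hS ha hb, skew hS ha hc]
  ring

theorem self {a : Eis} (ha : a ≠ 0) : sl a a = 0 := self_neg (skew hS ha ha)

theorem oneR {a : Eis} (ha : a ≠ 0) : sl a 1 = 0 := by
  have h := mulR hS ha one_ne_zero one_ne_zero
  rw [one_mul] at h
  exact self_add h

theorem negR {a : Eis} (ha : a ≠ 0) : sl a (-1) = 0 := by
  have h1 : (-1 : Eis) ≠ 0 := neg_ne_zero.mpr one_ne_zero
  have h := mulR hS ha h1 h1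
  rw [neg_one_mul, neg_neg, oneR hS ha] at h
  exact add_self_zero h.symm

theorem powR {a b : Eis} (ha : a ≠ 0) (hb : b ≠ 0) (v : ℕ) : sl a (b ^ v) = v * sl a b := by
  induction v with
  | zero => rw [pow_zero, oneR hS ha, Nat.cast_zero, zero_mul]
  | succ v ih =>
    rw [pow_succ, mulR hS ha (pow_ne_zero _ hb) hb, ih]
    push_cast
    ring

theorem threeR {a : Eis} (ha : a ≠ 0) : sl a 3 = 2 * sl a w + 2 * sl a lam := by
  have h1 : (-1 : Eis) ≠ 0 := neg_ne_zero.mpr one_ne_zero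
  rw [three_eq, mulR hS ha h1 (mul_ne_zero (mul_ne_zero w_ne w_ne) (mul_ne_zero lam_ne lam_ne)),
    negR hS ha, mulR hS ha (mul_ne_zero w_ne w_ne) (mul_ne_zero lam_ne lam_ne),
    mulR hS ha w_ne w_ne, mulR hS ha lam_ne lam_ne]
  ring

theorem splitR {a : Eis} (ha : a ≠ 0) {N : ℤ} (hN : N ≠ 0) (v : ℕ) :
    sl a ((3 ^ v * N : ℤ) : Eis) = v * sl a 3 + sl a (N : Eis) := by
  have h1 : ((3 ^ v * N : ℤ) : Eis) = 3 ^ v * (N : Eis) := by push_cast; ring
  rw [h1, mulR hS ha (pow_ne_zero _ three_ne) (int_ne hN), powR hS ha three_ne]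

include hR

/-- The symbol of a primary element. -/
theorem prim {g h N : ℤ} {v : ℕ} (hN : ¬ (3 : ℤ) ∣ N) (hg : ¬ (3 : ℤ) ∣ g) (hh : (3 : ℤ) ∣ h) :
    sl ((g : Eis) + h * w) ((3 ^ v * N : ℤ) : Eis) = v * ((g * (h / 3) : ℤ) : ZMod 3) := by
  have hN0 : N ≠ 0 := fun h => hN (h ▸ dvd_zero 3)
  have hp : Prim ((g : Eis) + h * w) := by
    refine ⟨?_, ?_⟩
    · simpa using hh
    · simpa using hg
  have hD : (g : Eis) + h * w ≠ 0 := by
    intro h0
    have := congrArg Eis.re h0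
    simp at this
    exact hg (this ▸ dvd_zero 3)
  have hNp : Prim (N : Eis) := ⟨by simp, by simpa using hN⟩
  obtain ⟨k, rfl⟩ := hh
  rw [splitR hS hD hN0, hR.1 _ _ hp hNp, threeR hS hD, hR.2.1 _ hp, hR.2.2.1 _ hp, add_zero]
  have h1 : g ^ 2 % 3 = 1 := sq_mod_three hg
  obtain ⟨j, hj⟩ : ∃ j, g ^ 2 = 1 + 3 * j := ⟨g ^ 2 / 3, by omega⟩
  have h2 : ((g : Eis) + (3 * k : ℤ) * w).norm = 1 + 3 * (j - g * k + 3 * k ^ 2) := by
    rw [norm_def]
    simp only [add_re, mul_re, add_im, mul_im, intCast_re, intCast_im, w_re, w_im]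
    linear_combination hj
  have h3 : ((g : Eis) + (3 * k : ℤ) * w).re ^ 2 = 1 + 3 * j := by
    simp only [add_re, mul_re, intCast_re, intCast_im, w_re, w_im]
    linear_combination hj
  rw [wt_eq h2, h3, wt_eq rfl, Int.mul_ediv_cancel_left k (by norm_num)]
  push_cast
  have h4 : (3 : ZMod 3) = 0 := by decide
  linear_combination ((v : ZMod 3) * (2 * k ^ 2 + 2 * j - g * k)) * h4

/-- The symbol of `w`. -/
theorem symw {N : ℤ} {v : ℕ} (hN : ¬ (3 : ℤ) ∣ N) :
    sl w ((3 ^ v * N : ℤ) : Eis) = -wt (N ^ 2) := by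
  have hN0 : N ≠ 0 := fun h => hN (h ▸ dvd_zero 3)
  have hNp : Prim (N : Eis) := ⟨by simp, by simpa using hN⟩
  rw [splitR hS w_ne hN0, threeR hS w_ne, self hS w_ne, hR.2.2.2, skew hS (int_ne hN0) w_ne,
    hR.2.1 _ hNp, norm_intCast]
  ring

end

end SLE

open SLE in
theorem SLE_thm (hSSL : SSL) (hSREC : SREC) : SLE := by
  intro g h N v hN
  have hN0 : N ≠ 0 := fun h => hN (h ▸ dvd_zero 3)
  have hM : ((3 ^ v * N : ℤ) : Eis) ≠ 0 := int_ne (mul_ne_zero (pow_ne_zero _ (by norm_num)) hN0)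
  have h4 : (3 : ZMod 3) = 0 := by decide
  refine ⟨fun h1 h2 => prim hSSL hSREC hN h1 h2, fun h1 h2 => ?_, fun h1 h2 => ?_⟩
  · have e : (g : Eis) + h * w = w * (((h - g : ℤ) : Eis) + ((-g : ℤ) : Eis) * w) := by
      ext <;> simp
    have hr : ¬ (3 : ℤ) ∣ h - g := by omega
    have hd : ((h - g : ℤ) : Eis) + ((-g : ℤ) : Eis) * w ≠ 0 := by
      intro h0
      have := congrArg Eis.re h0
      simp at this
      omega
    rw [e, mulL hSSL w_ne hd hM, symw hSSL hSREC hN, prim hSSL hSREC hN hr (by omega)]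
    obtain ⟨k, rfl⟩ := h1
    have e1 : -(3 * k) / 3 = -k := by omega
    have e2 : 3 * k / 3 = k := by omega
    rw [e1, e2]
    push_cast
    linear_combination ((v : ZMod 3) * k * k) * h4
  · have e : (g : Eis) + h * w = w * (w * (((-h : ℤ) : Eis) + ((g - h : ℤ) : Eis) * w)) := by
      ext
      · simp
      · simp
        ring
    have hr : ¬ (3 : ℤ) ∣ -h := by omega
    have hd : ((-h : ℤ) : Eis) + ((g - h : ℤ) : Eis) * w ≠ 0 := by
      intro h0
      have := congrArg Eis.re h0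
      simp at this
      omega
    rw [e, mulL hSSL w_ne (mul_ne_zero w_ne hd) hM, mulL hSSL w_ne hd hM, symw hSSL hSREC hN,
      prim hSSL hSREC hN hr h2]
    push_cast
    linear_combination (-wt (N ^ 2)) * h4

end Pool.Agent.PT
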