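import Pool.Agent.PT.Stmts1

/-!
# SPP: the set `PP`
-/

namespace Pool.Agent.PT

open Pool.Agent.Lib_helper18 Pool.Agent.Lib_helper18.Eis Pool.Agent.Lib_helper84.Cub

namespace SPP

theorem prim (π : PP) : Prim π.1 := by
  obtain ⟨_, h1, h2⟩ := π.2
  exact ⟨h2, by omega⟩

theorem exists_assoc {l : Eis} (hl : Prime l) (h3 : ¬ l ∣ 3) : ∃ π : PP, Associated l π.1 := by
  obtain ⟨i, hi⟩ := exists_prim (not_lam_dvd_of_prime hl h3)
  obtain ⟨h1, h2⟩ := hi
  have hu : IsUnit (w ^ i) := (IsUnit.of_mul_eq_one (w ^ 2) (by rw [← pow_succ', w_cube])).pow i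
  obtain ⟨u, hu⟩ := hu
  have ha : Associated l (l * w ^ i) := ⟨u, by rw [hu]⟩
  have h4 : (l * w ^ i).re % 3 = 1 ∨ (l * w ^ i).re % 3 = 2 := by omega
  rcases h4 with h4 | h4
  · have h5 : Associated l (-(l * w ^ i)) := ha.neg_right
    refine ⟨⟨-(l * w ^ i), h5.prime hl, ?_, ?_⟩, h5⟩
    · rw [neg_re]
      omega
    · rw [neg_im]
      exact (dvd_neg).2 h1
  · exact ⟨⟨l * w ^ i, ha.prime hl, h4, h1⟩, ha⟩

theorem unique (π π' : PP) (h : Associated π.1 π'.1) : π = π' := by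
  obtain ⟨u, hu⟩ := h
  have h1 := (prim π).unit u.isUnit (by rw [hu]; exact prim π')
  rcases h1 with h1 | h1
  · apply Subtype.ext
    rw [← hu, h1, mul_one]
  · exfalso
    rw [h1] at hu
    have h2 := congrArg Eis.re hu
    have h3 := π.2.2.1
    have h4 := π'.2.2.1
    rw [mul_neg, mul_one, neg_re] at h2
    omega

theorem finite_norm (M : ℤ) : {x : Eis | x.norm ≤ M}.Finite := by
  have h1 : Set.InjOn (fun x : Eis => (x.re, x.im)) {x : Eis | x.norm ≤ M} := by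
    intro x _ y _ h
    have h2 := Prod.ext_iff.1 h
    exact Eis.ext h2.1 h2.2
  refine Set.Finite.of_finite_image ?_ h1
  refine Set.Finite.subset ((Set.finite_Icc (-(2 * M)) (2 * M)).prod
    (Set.finite_Icc (-(2 * M)) (2 * M))) ?_
  rintro _ ⟨x, hx, rfl⟩
  have hx' : x.re ^ 2 - x.re * x.im + x.im ^ 2 ≤ M := hx
  have h2 : x.im ^ 2 ≤ 2 * M := by nlinarith [sq_nonneg (2 * x.re - x.im), sq_nonneg x.im]
  have h3 : x.re ^ 2 ≤ 2 * M := by nlinarith [sq_nonneg (2 * x.im - x.re), sq_nonneg x.re]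
  have key : ∀ t : ℤ, t ^ 2 ≤ 2 * M → -(2 * M) ≤ t ∧ t ≤ 2 * M := by
    intro t ht
    have h4 : |t| ≤ t ^ 2 := by
      rw [← sq_abs]
      rcases (abs_nonneg t).eq_or_lt with h | h
      · rw [← h]
        norm_num
      · nlinarith
    have h5 := abs_le.1 (h4.trans ht)
    exact h5
  exact ⟨⟨(key _ h3).1, (key _ h3).2⟩, ⟨(key _ h2).1, (key _ h2).2⟩⟩

theorem finite_dvd {a : Eis} (ha : a ≠ 0) : {π : PP | π.1 ∣ a}.Finite := by
  refine Set.Finite.of_finite_image (f := fun π : PP => π.1) ?_ Subtype.val_injective.injOn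
  refine (finite_norm a.norm).subset ?_
  rintro _ ⟨π, hπ, rfl⟩
  obtain ⟨b, hb⟩ := hπ
  have h1 : a.norm = π.1.norm * b.norm := by rw [hb, norm_mul]
  have h2 := norm_pos ha
  have h3 := norm_nonneg π.1
  have h4 := norm_nonneg b
  show π.1.norm ≤ a.norm
  have h5 : 0 < b.norm := by
    rcases h4.eq_or_lt with h | h
    · rw [← h, mul_zero] at h1
      omega
    · exact h
  nlinarith

theorem not_three (π : PP) : ¬ π.1 ∣ 3 := by
  intro h
  have h1 := (dvd_three_iff π.2.1).1 h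
  have h2 := lam_dvd_iff.1 h1.symm.dvd
  have h3 := π.2.2.1
  have h4 := π.2.2.2
  omega

theorem conj_mem (π : PP) : ∃ π' : PP, π'.1 = conj π.1 := by
  have h3 := π.2.2.1
  have h4 := π.2.2.2
  refine ⟨⟨conj π.1, prime_conj π.2.1, ?_, ?_⟩, rfl⟩
  · rw [conj_re]
    omega
  · rw [conj_im]
    exact (dvd_neg).2 h4

theorem inert_mem {q : ℕ} (hq : q.Prime) (h : q % 3 = 2) : ∃ π : PP, π.1 = (q : Eis) := by
  refine ⟨⟨(q : Eis), prime_inert hq h, ?_, ?_⟩, rfl⟩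
  · rw [natCast_re]
    omega
  · rw [natCast_im]
    exact dvd_zero _

theorem classify (π : PP) : ∃ p : ℕ, p.Prime ∧ ((p % 3 = 2 ∧ π.1 = (p : Eis)) ∨
    (p % 3 = 1 ∧ π.1.norm = p ∧ (p : Eis) = π.1 * conj π.1 ∧ ¬ Associated π.1 (conj π.1))) := by
  obtain ⟨q, hq, hlq, _⟩ := exists_rational_prime π.2.1
  refine ⟨q, hq, ?_⟩
  have h0 : q % 3 ≠ 0 := by
    intro h
    have h1 : 3 ∣ q := Nat.dvd_of_mod_eq_zero h
    have h2 : 3 = q := (Nat.prime_dvd_prime_iff_eq Nat.prime_three hq).1 h1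
    apply not_three π
    rw [← h2] at hlq
    exact hlq
  have h1 : q % 3 = 1 ∨ q % 3 = 2 := by omega
  rcases h1 with h1 | h1
  · right
    have : Fact q.Prime := ⟨hq⟩
    obtain ⟨π0, hπ0, _⟩ := exists_pi hq h1
    have h2 := (norm_of_dvd_p hπ0 π.2.1 hlq).1
    exact ⟨h1, h2, (mul_conj_p h2).symm, fun h => not_dvd_conj h1 h2 h.dvd⟩
  · left
    refine ⟨h1, ?_⟩
    obtain ⟨π', hπ'⟩ := inert_mem hq h1
    have h2 : Associated π.1 π'.1 := by
      rw [hπ']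
      exact π.2.1.associated_of_dvd (prime_inert hq h1) hlq
    rw [unique π π' h2, hπ']

end SPP

theorem SPP_thm : SPP :=
  ⟨fun _ hl h3 => SPP.exists_assoc hl h3, SPP.unique, fun _ ha => SPP.finite_dvd ha,
    fun π => ⟨SPP.not_three π, SPP.conj_mem π⟩, fun _ hq h => SPP.inert_mem hq h, SPP.classify⟩

end Pool.Agent.PT
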