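import Pool.Agent.PT.Stmts1

/-!
# SREC: cubic reciprocity for primary elements and the supplementary laws
-/

namespace Pool.Agent.PT

open Pool.Agent.Lib_helper18 Pool.Agent.Lib_helper18.Eis Pool.Agent.Lib_helper84.Cub

namespace SREC

theorem two_mul_eq_zero {x : ZMod 3} (h : 2 * x = 0) : x = 0 := by
  have h4 : ∀ x : ZMod 3, 2 * x = 0 → x = 0 := by decide
  exact h4 _ h

/-! ### induction over primary elements -/

theorem not_lam_dvd {c : Eis} (hc : Prim c) : ¬ lam ∣ c := by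
  rw [lam_dvd_iff]
  obtain ⟨h1, h2⟩ := hc
  omega

theorem prim_ne_zero {c : Eis} (hc : Prim c) : c ≠ 0 := by
  rintro rfl
  exact not_lam_dvd hc (dvd_zero _)

theorem prim_one : Prim 1 := ⟨by simp, by simp⟩

theorem pp_prim (π : PP) : Prim π.1 := ⟨π.2.2.2, by have := π.2.2.1; omega⟩

theorem prim_mul {c d : Eis} (hc : Prim c) (hd : Prim d) : Prim (c * d) := by
  obtain ⟨⟨a, ha⟩, h2⟩ := hc
  obtain ⟨⟨b, hb⟩, h4⟩ := hd
  refine ⟨?_, ?_⟩
  · rw [mul_im, ha, hb]
    exact ⟨c.re * b + a * d.re - 3 * a * b, by ring⟩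
  · rw [mul_re, ha, hb]
    intro h
    have h5 : (3 : ℤ) ∣ c.re * d.re := by
      have h6 : c.re * d.re = (c.re * d.re - 3 * a * (3 * b)) + 3 * (3 * a * b) := by ring
      rw [h6]
      exact dvd_add h ⟨_, rfl⟩
    rcases Int.prime_three.dvd_or_dvd h5 with h7 | h7
    · exact h2 h7
    · exact h4 h7

theorem prim_of_mul {c d : Eis} (hc : Prim c) (h : Prim (c * d)) : Prim d := by
  obtain ⟨⟨a, ha⟩, h2⟩ := hc
  obtain ⟨h3, h4⟩ := h
  rw [mul_im, ha] at h3
  rw [mul_re, ha] at h4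
  have h5 : (3 : ℤ) ∣ c.re * d.im := by
    obtain ⟨k, hk⟩ := h3
    exact ⟨k - a * d.re + a * d.im, by linear_combination hk⟩
  have h6 : (3 : ℤ) ∣ d.im := (Int.prime_three.dvd_or_dvd h5).resolve_left h2
  refine ⟨h6, fun h7 => h4 ?_⟩
  exact dvd_sub (h7.mul_left _) (h6.mul_left _)

theorem prim_ind (hSPP : SPP) {P : Eis → Prop} (h1 : P 1) (h2 : P (-1))
    (h3 : ∀ (π : PP) (c : Eis), Prim c → P c → P (π.1 * c)) :
    ∀ c : Eis, Prim c → P c := by
  have key : ∀ (n : ℕ) (c : Eis), N c = n → Prim c → P c := by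
    intro n
    induction n using Nat.strong_induction_on with
    | _ n ih =>
      intro c hn hc
      by_cases hu : IsUnit c
      · rcases prim_one.unit hu (by rw [one_mul]; exact hc) with h | h
        · rw [h]; exact h1
        · rw [h]; exact h2
      · obtain ⟨l, hlirr, hlc⟩ := WfDvdMonoid.exists_irreducible_factor hu (prim_ne_zero hc)
        have hl : Prime l := hlirr.prime
        have hl3 : ¬ l ∣ 3 := by
          intro h
          exact not_lam_dvd hc (((dvd_three_iff hl).mp h).symm.dvd.trans hlc)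
        obtain ⟨π, hπ⟩ := hSPP.1 l hl hl3
        obtain ⟨c', rfl⟩ := hπ.symm.dvd.trans hlc
        have hc' : Prim c' := prim_of_mul (pp_prim π) hc
        refine h3 π c' hc' (ih (N c') ?_ c' rfl hc')
        rw [← hn, N_mul]
        have h4 := N_prime π.2.1
        have h5 := N_pos (prim_ne_zero hc')
        nlinarith
  exact fun c hc => key _ c rfl hc

/-! ### formal properties of `sl` -/

theorem sl_one (hSSL : SSL) {c : Eis} (hc : c ≠ 0) : sl 1 c = 0 := by
  have h := hSSL.1 1 1 c one_ne_zero one_ne_zero hc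
  rw [mul_one] at h
  linear_combination (-1 : ZMod 3) * h

theorem sl_neg_one (hSSL : SSL) {c : Eis} (hc : c ≠ 0) : sl (-1) c = 0 := by
  have h := hSSL.1 (-1) (-1) c (neg_ne_zero.mpr one_ne_zero) (neg_ne_zero.mpr one_ne_zero) hc
  rw [neg_mul_neg, mul_one, sl_one hSSL hc] at h
  apply two_mul_eq_zero
  linear_combination (-1 : ZMod 3) * h

theorem sl_mul_right (hSSL : SSL) {a b c : Eis} (ha : a ≠ 0) (hb : b ≠ 0) (hc : c ≠ 0) :
    sl c (a * b) = sl c a + sl c b := by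
  have h1 := hSSL.2.1 (a * b) c (mul_ne_zero ha hb) hc
  have h2 := hSSL.2.1 a c ha hc
  have h3 := hSSL.2.1 b c hb hc
  have h4 := hSSL.1 a b c ha hb hc
  rw [h1, h2, h3, h4]
  ring

/-! ### the symbols at `PP` -/

theorem ch_eq {π a : Eis} (h : ¬ π ∣ a) : ch π a = sym π a := by
  unfold ch up
  rw [V_eq_zero h, pow_zero, EuclideanDomain.div_one]

theorem pp_not_dvd (hSPP : SPP) {π π' : PP} (h : π ≠ π') : ¬ π.1 ∣ π'.1 := fun h' =>
  h (hSPP.2.1 π π' (π.2.1.associated_of_dvd π'.2.1 h'))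

theorem tm_zero {π a b : Eis} (ha : ¬ π ∣ a) (hb : ¬ π ∣ b) : tm π a b = 0 := by
  unfold tm
  rw [V_eq_zero ha, V_eq_zero hb]
  simp

theorem tm_left {π b : Eis} (hb : ¬ π ∣ b) : tm π π b = - sym π b := by
  unfold tm
  rw [V_eq_zero hb, V_self, ch_eq hb]
  simp

theorem tm_right {π a : Eis} (ha : ¬ π ∣ a) : tm π a π = sym π a := by
  unfold tm
  rw [V_eq_zero ha, V_self, ch_eq ha]
  simp

/-- the symbol of an element of `PP` and an element prime to all primes -/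
theorem sl_pp (hSPP : SPP) (π : PP) {b : Eis} (hb : ∀ v : PP, ¬ v.1 ∣ b) :
    sl π.1 b = sym π.1 b := by
  unfold sl
  rw [finsum_eq_single _ π]
  · rw [tm_left (hb π), neg_neg]
  · intro v hv
    exact tm_zero (pp_not_dvd hSPP hv) (hb v)

theorem recip_pp (hSPP : SPP) {π π' : PP} (h : π ≠ π') : sym π.1 π'.1 = sym π'.1 π.1 := by
  obtain ⟨p, hp, h1 | h1⟩ := hSPP.2.2.2.2.2 π
  · have h2 := recip_inert hp h1.1 π'.2.1 (hSPP.2.2.2.1 π').1 (pp_prim π')
      (by rw [← h1.2]; exact pp_not_dvd hSPP h)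
    rw [← h1.2] at h2
    exact h2
  · have : Fact p.Prime := ⟨hp⟩
    exact recip h1.1 h1.2.1 π.2.2.2 π'.2.1 (hSPP.2.2.2.1 π').1 (pp_prim π')
      (fun h' => h (hSPP.2.1 π' π h').symm)

theorem sl_pp_pp (hSPP : SPP) (hSSL : SSL) (π π' : PP) : sl π.1 π'.1 = 0 := by
  classical
  by_cases h : π = π'
  · subst h
    have h1 := hSSL.2.1 π.1 π.1 π.2.1.ne_zero π.2.1.ne_zero
    apply two_mul_eq_zero
    linear_combination h1
  · unfold sl
    rw [finsum_eq_sum_of_support_subset (s := {π, π'})]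
    · rw [Finset.sum_pair h, tm_left (pp_not_dvd hSPP h), tm_right (pp_not_dvd hSPP (Ne.symm h)),
        recip_pp hSPP h]
      ring
    · intro v hv
      by_contra hcon
      rw [Finset.coe_insert, Finset.coe_singleton, Set.mem_insert_iff, Set.mem_singleton_iff] at hcon
      push Not at hcon
      exact hv (tm_zero (pp_not_dvd hSPP hcon.1) (pp_not_dvd hSPP hcon.2))

theorem sl_pp_prim (hSPP : SPP) (hSSL : SSL) (π : PP) : ∀ d : Eis, Prim d → sl π.1 d = 0 := by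
  have h0 := π.2.1.ne_zero
  refine prim_ind hSPP ?_ ?_ ?_
  · rw [hSSL.2.1 1 π.1 one_ne_zero h0, sl_one hSSL h0, neg_zero]
  · rw [hSSL.2.1 (-1) π.1 (neg_ne_zero.mpr one_ne_zero) h0, sl_neg_one hSSL h0, neg_zero]
  · intro π' d hd ih
    rw [sl_mul_right hSSL π'.2.1.ne_zero (prim_ne_zero hd) h0, sl_pp_pp hSPP hSSL, ih, add_zero]

theorem wt_congr {m n : ℤ} (h : (9 : ℤ) ∣ m - n) : wt m = wt n := by
  obtain ⟨k, hk⟩ := h
  unfold wt
  have h1 : (m - 1) / 3 = (n - 1) / 3 + 3 * k := by omega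
  rw [h1]
  push_cast
  linear_combination (k : ZMod 3) * three_zmod

theorem pp_norm (π : PP) : π.1.norm % 3 = 1 :=
  norm_emod_three_of_not_lam_dvd (not_lam_dvd (pp_prim π))

theorem sym_lam_pp (hSPP : SPP) (π : PP) : sym π.1 lam = 2 * wt (π.1.re ^ 2) := by
  obtain ⟨p, hp, h1 | h1⟩ := hSPP.2.2.2.2.2 π
  · have h2 := sym_inert_lam hp h1.1
    have h3 := sym_w' π.2.1 (hSPP.2.2.2.1 π).1
    rw [← h1.2] at h2
    rw [h2, h3]
    have h4 : π.1.norm = π.1.re ^ 2 := by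
      rw [h1.2, norm_def]
      simp
    rw [h4]
    linear_combination (-wt (π.1.re ^ 2)) * three_zmod
  · have : Fact p.Prime := ⟨hp⟩
    obtain ⟨M, hM⟩ := π.2.2.2
    exact sym_lam h1.1 h1.2.1 hM

end SREC

open SREC in
theorem SREC_thm (hSTM : STM) (hSPP : SPP) (hSSL : SSL) : SREC := by
  have hw : ∀ v : PP, ¬ v.1 ∣ w := fun v => not_dvd_w v.2.1
  have hlam : ∀ v : PP, ¬ v.1 ∣ lam := fun v => not_dvd_lam (hSPP.2.2.2.1 v).1
  have hw0 : w ≠ 0 := isUnit_w.ne_zero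
  have hlam0 : lam ≠ 0 := prime_lam.ne_zero
  refine ⟨?_, ?_, ?_, ?_⟩
  · intro c d hc hd
    revert c
    have hd0 := prim_ne_zero hd
    refine prim_ind hSPP (sl_one hSSL hd0) (sl_neg_one hSSL hd0) ?_
    intro π c hc ih
    rw [hSSL.1 π.1 c d π.2.1.ne_zero (prim_ne_zero hc) hd0, sl_pp_prim hSPP hSSL π d hd, ih,
      add_zero]
  · refine prim_ind hSPP ?_ ?_ ?_
    · rw [sl_one hSSL hw0, norm_one, wt_one]
    · rw [sl_neg_one hSSL hw0]
      have : (-1 : Eis).norm = 1 := by decide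
      rw [this, wt_one]
    · intro π c hc ih
      rw [hSSL.1 π.1 c w π.2.1.ne_zero (prim_ne_zero hc) hw0, sl_pp hSPP π hw, ih,
        sym_w' π.2.1 (hSPP.2.2.2.1 π).1, norm_mul,
        wt_mul (pp_norm π) (norm_emod_three_of_not_lam_dvd (not_lam_dvd hc))]
  · refine prim_ind hSPP ?_ ?_ ?_
    · rw [sl_one hSSL hlam0, one_re, one_pow, wt_one, mul_zero]
    · rw [sl_neg_one hSSL hlam0]
      have : (-1 : Eis).re ^ 2 = 1 := by decide
      rw [this, wt_one, mul_zero]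
    · intro π c hc ih
      rw [hSSL.1 π.1 c lam π.2.1.ne_zero (prim_ne_zero hc) hlam0, sl_pp hSPP π hlam, ih,
        sym_lam_pp hSPP π]
      have h1 : (π.1.re ^ 2) % 3 = 1 := sq_mod_three (pp_prim π).2
      have h2 : (c.re ^ 2) % 3 = 1 := sq_mod_three hc.2
      have h3 : wt ((π.1 * c).re ^ 2) = wt (π.1.re ^ 2 * c.re ^ 2) := by
        apply wt_congr
        obtain ⟨a, ha⟩ := (pp_prim π).1
        obtain ⟨b, hb⟩ := hc.1
        rw [mul_re, ha, hb]
        exact ⟨-2 * a * b * (π.1.re * c.re) + 9 * a ^ 2 * b ^ 2, by ring⟩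
      rw [h3, wt_mul h1 h2]
      ring
  · unfold sl
    rw [finsum_eq_zero_of_forall_eq_zero fun v => tm_zero (hw v) (hlam v), neg_zero]

end Pool.Agent.PT
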