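import Pool.Agent.PT.Stmts1

/-!
# Module SSL: the symbol `sl` and the product formula
-/

namespace Pool.Agent.PT

open Pool.Agent.Lib_helper18 Pool.Agent.Lib_helper18.Eis Pool.Agent.Lib_helper84.Cub

namespace SSL

/-- the tame symbol of `a, b` vanishes at the primes dividing neither -/
theorem supp_sub (a b : Eis) :
    (Function.support fun π : PP => tm π.1 a b) ⊆ {π : PP | π.1 ∣ a} ∪ {π : PP | π.1 ∣ b} := by
  intro π hπ
  by_contra hcon
  simp only [Set.mem_union, Set.mem_setOf_eq, not_or] at hcon
  apply hπ
  show tm π.1 a b = 0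
  unfold tm
  rw [V_eq_zero hcon.1, V_eq_zero hcon.2]
  simp

theorem supp_fin (h : SPP) {a b : Eis} (ha : a ≠ 0) (hb : b ≠ 0) :
    (Function.support fun π : PP => tm π.1 a b).Finite :=
  ((h.2.2.1 a ha).union (h.2.2.1 b hb)).subset (supp_sub a b)

end SSL

open SSL in
theorem SSL_thm (hSTM : STM) (hSPP : SPP) : SSL := by
  have hL : ∀ π : PP, LSym π.1 (tm π.1) 1 := fun π => hSTM π.1 π.2.1 (hSPP.2.2.2.1 π).1
  refine ⟨?_, ?_, ?_, ?_⟩
  · intro a b c ha hb hc
    have h1 : (fun π : PP => tm π.1 (a * b) c) = fun π : PP => tm π.1 a c + tm π.1 b c := by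
      funext π
      exact (hL π).mul a b c ha hb hc
    unfold sl
    rw [h1, finsum_add_distrib (supp_fin hSPP ha hc) (supp_fin hSPP hb hc), neg_add]
  · intro a b ha hb
    have h1 : (fun π : PP => tm π.1 b a) = fun π : PP => - tm π.1 a b := by
      funext π
      exact (hL π).skew a b ha hb
    unfold sl
    rw [h1, finsum_neg_distrib]
  · intro a b c ha hb hc habc
    have h1 : (fun π : PP => tm π.1 c a) = fun π : PP => -(tm π.1 a b + tm π.1 b c) := by
      funext π
      have := (hL π).stein a b c ha hb hc habc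
      linear_combination this
    unfold sl
    rw [h1, finsum_neg_distrib,
      finsum_add_distrib (supp_fin hSPP ha hb) (supp_fin hSPP hb hc)]
    ring
  · intro a b ha hb
    have hf := supp_fin hSPP ha hb
    refine ⟨?_, ?_⟩
    · refine ((hf.image some).union (Set.finite_singleton none)).subset ?_
      intro v hv
      rcases v with _ | π
      · right
        rfl
      · left
        exact ⟨π, hv, rfl⟩
    · rw [finsum_option (f := fun v : Pl => sy v a b) hf]
      show sl a b + ∑ᶠ π : PP, tm π.1 a b = 0
      unfold sl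
      rw [neg_add_cancel]

end Pool.Agent.PT
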