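import Pool.Agent.PT.Stmts1

/-!
# STAR: the identity of symbols of linear forms
-/

namespace Pool.Agent.PT

open Pool.Agent.Lib_helper18 Pool.Agent.Lib_helper18.Eis Pool.Agent.Lib_helper84.Cub

namespace STAR

theorem w_ne : (w : Eis) ≠ 0 := by
  intro h
  have := congrArg Eis.im h
  simp [w] at this

theorem three0 : (3 : ZMod 3) = 0 := rfl

theorem double {x : ZMod 3} (h : x + x = 0) : x = 0 := by
  revert x; decide

variable {π : Eis} {s : Eis → Eis → ZMod 3} {e : ℕ}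

theorem self (h : LSym π s e) {a : Eis} (ha : a ≠ 0) : s a a = 0 := by
  have := h.skew a a ha ha
  apply double
  linear_combination this

theorem one (h : LSym π s e) {c : Eis} (hc : c ≠ 0) : s 1 c = 0 := by
  have := h.mul 1 1 c one_ne_zero one_ne_zero hc
  rw [mul_one] at this
  linear_combination -this

theorem mulR (h : LSym π s e) {a b c : Eis} (ha : a ≠ 0) (hb : b ≠ 0) (hc : c ≠ 0) :
    s a (b * c) = s a b + s a c := by
  have h1 := h.skew (b * c) a (mul_ne_zero hb hc) ha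
  have h2 := h.mul b c a hb hc ha
  have h3 := h.skew b a hb ha
  have h4 := h.skew c a hc ha
  linear_combination h1 - h2 - h3 - h4

theorem negL (h : LSym π s e) {a b : Eis} (ha : a ≠ 0) (hb : b ≠ 0) : s (-a) b = s a b := by
  have h1 : s (-1) b = 0 := by
    apply double
    have := h.mul (-1) (-1) b (neg_ne_zero.2 one_ne_zero) (neg_ne_zero.2 one_ne_zero) hb
    rw [neg_mul_neg, mul_one, one h hb] at this
    exact this.symm
  have := h.mul (-1) a b (neg_ne_zero.2 one_ne_zero) ha hb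
  rw [neg_one_mul] at this
  rw [this, h1, zero_add]

theorem negR (h : LSym π s e) {a b : Eis} (ha : a ≠ 0) (hb : b ≠ 0) : s a (-b) = s a b := by
  rw [h.skew (-b) a (neg_ne_zero.2 hb) ha, negL h hb ha, ← h.skew b a hb ha]

/-- Steinberg for differences -/
theorem stein' (h : LSym π s e) {a b d : Eis} (ha : a ≠ 0) (hb : b ≠ 0) (hd : d ≠ 0)
    (hd' : a - b = d) : s a b = s d b - s d a := by
  have h1 := h.stein (-a) d b (neg_ne_zero.2 ha) hd hb (by rw [← hd']; ring)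
  rw [negL h ha hd, negR h hb ha, h.skew d a hd ha, h.skew a b ha hb] at h1
  linear_combination -h1

theorem cyc (h : LSym π s e) {a b c : Eis} (ha : a ≠ 0) (hb : b ≠ 0) (hc : c ≠ 0)
    (h0 : a + w * b + w * w * c = 0) :
    s a b + s b c + s c a + s w a + s w b + s w c = 0 := by
  have hw := w_ne
  have h1 := h.stein a (w * b) (w * w * c) ha (mul_ne_zero hw hb)
    (mul_ne_zero (mul_ne_zero hw hw) hc) h0
  have k1 := mulR h ha hw hb
  have k2 := h.mul w b (w * w * c) hw hb (mul_ne_zero (mul_ne_zero hw hw) hc)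
  have k3 := mulR h hw (mul_ne_zero hw hw) hc
  have k4 := mulR h hb (mul_ne_zero hw hw) hc
  have k5 := mulR h hw hw hw
  have k6 := mulR h hb hw hw
  have k7 := h.mul (w * w) c a (mul_ne_zero hw hw) hc ha
  have k8 := h.mul w w a hw hw ha
  have k9 := self h hw
  have k10 := h.skew w a hw ha
  have k11 := h.skew w b hw hb
  have k12 : (3 : ZMod 3) = 0 := rfl
  linear_combination h1 - k1 - k2 - k3 - k4 - k5 - k6 - k7 - k8 - 2 * k9 - k10 - 2 * k11 + s w b * k12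

theorem key (h : LSym π s e) {f0 f1 f2 g0 g1 g2 d1 d2 k : Eis} (hf0 : f0 ≠ 0) (hf1 : f1 ≠ 0)
    (hf2 : f2 ≠ 0) (hg0 : g0 ≠ 0) (hg1 : g1 ≠ 0) (hg2 : g2 ≠ 0) (hd1 : d1 ≠ 0) (hd2 : d2 ≠ 0)
    (hk : k ≠ 0) (e1 : f0 * g0 - f1 * g2 = k * (w * w) * d1) (e2 : f1 * g1 - f2 * g0 = k * d1)
    (e3 : f0 * g2 - f1 * g1 = k * w * d2) (e4 : f1 * g0 - f2 * g2 = k * (w * w) * d2)
    (cf : s f0 f1 + s f1 f2 + s f2 f0 + s w f0 + s w f1 + s w f2 = 0)
    (cg : s g0 g1 + s g1 g2 + s g2 g0 + s w g0 + s w g1 + s w g2 = 0) :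
    s d1 (g0 * g1 * g2) - s d2 (g0 * g1 * g2) - s d1 (f0 * f1 * f2) + s d2 (f0 * f1 * f2) =
      s w (f0 * f1 * f2) + s (f0 * f1 * f2) g2 - s (f0 * f1 * f2) g1 +
        s f1 (g0 * g1 * g2) - s f2 (g0 * g1 * g2) := by
  have hw := w_ne
  have hww : w * w ≠ 0 := mul_ne_zero hw hw
  have E1 := stein' h (mul_ne_zero hf0 hg0) (mul_ne_zero hf1 hg2)
    (mul_ne_zero (mul_ne_zero hk hww) hd1) e1
  have E2 := stein' h (mul_ne_zero hf1 hg1) (mul_ne_zero hf2 hg0) (mul_ne_zero hk hd1) e2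
  have E3 := stein' h (mul_ne_zero hf0 hg2) (mul_ne_zero hf1 hg1)
    (mul_ne_zero (mul_ne_zero hk hw) hd2) e3
  have E4 := stein' h (mul_ne_zero hf1 hg0) (mul_ne_zero hf2 hg2)
    (mul_ne_zero (mul_ne_zero hk hww) hd2) e4
  have L : ∀ a b c : Eis, a ≠ 0 → b ≠ 0 → c ≠ 0 → s (a * b) c = s a c + s b c := h.mul
  have R : ∀ a b c : Eis, a ≠ 0 → b ≠ 0 → c ≠ 0 → s a (b * c) = s a b + s a c :=
    fun a b c ha hb hc => mulR h ha hb hc
  simp only [L, R, ne_eq, mul_eq_zero, hf0, hf1, hf2, hg0, hg1, hg2, hd1, hd2, hk, hw,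
    or_self, not_false_eq_true] at E1 E2 E3 E4 ⊢
  have a1 := h.skew f0 f1 hf0 hf1
  have a2 := h.skew f1 f2 hf1 hf2
  have a3 := h.skew f2 f0 hf2 hf0
  have b1 := h.skew g0 g1 hg0 hg1
  have b2 := h.skew g1 g2 hg1 hg2
  have b3 := h.skew g2 g0 hg2 hg0
  have c00 := h.skew f0 g0 hf0 hg0
  have c01 := h.skew f0 g1 hf0 hg1
  have c02 := h.skew f0 g2 hf0 hg2
  have c10 := h.skew f1 g0 hf1 hg0
  have c11 := h.skew f1 g1 hf1 hg1
  have c12 := h.skew f1 g2 hf1 hg2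
  have c20 := h.skew f2 g0 hf2 hg0
  have c21 := h.skew f2 g1 hf2 hg1
  have c22 := h.skew f2 g2 hf2 hg2
  have s0 := self h hf0
  have s1 := self h hf1
  have s2 := self h hf2
  have t0 := self h hg0
  have t1 := self h hg1
  have t2 := self h hg2
  simp only [s0, s1, s2, t0, t1, t2, c00, c01, c02, c10, c11, c12, c20, c21, c22, a1, a2, a3, b1,
    b2, b3] at E1 E2 E3 E4 cf cg ⊢
  clear a1 a2 a3 b1 b2 b3 c00 c01 c02 c10 c11 c12 c20 c21 c22
  grind

theorem tail (h : LSym π s e) {f0 f1 f2 : Eis} (hf0 : f0 ≠ 0) (hf1 : f1 ≠ 0) (hf2 : f2 ≠ 0)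
    (cf : s f0 f1 + s f1 f2 + s f2 f0 + s w f0 + s w f1 + s w f2 = 0) :
    s f1 (f0 * f1 * f2) - s f2 (f0 * f1 * f2) = s w (f0 * f1 * f2) := by
  have hw := w_ne
  have h01 := mul_ne_zero hf0 hf1
  have k1 := mulR h hf1 h01 hf2
  have k2 := mulR h hf1 hf0 hf1
  have k3 := mulR h hf2 h01 hf2
  have k4 := mulR h hf2 hf0 hf1
  have k5 := mulR h hw h01 hf2
  have k6 := mulR h hw hf0 hf1
  have a1 := h.skew f0 f1 hf0 hf1
  have a2 := h.skew f1 f2 hf1 hf2
  have s1 := self h hf1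
  have s2 := self h hf2
  have h3 : (3 : ZMod 3) = 0 := rfl
  linear_combination k1 + k2 - k3 - k4 - k5 - k6 + a1 - a2 + s1 - s2 - cf + s f1 f2 * h3

end STAR

theorem STAR_thm : STAR := by
  intro π s e h X Y u v ξ F G D hF hG hD hξ hF0
  have hww : (w : Eis) * w = -1 - w := by
    ext <;> simp [w]
  have e0 := hF 0
  have e1 := hF 1
  have e2 := hF 2
  have cf := STAR.cyc h (hF0 0) (hF0 1) (hF0 2) (by rw [e0, e1, e2]; clear * - hww; grind)
  refine ⟨STAR.tail h (hF0 0) (hF0 1) (hF0 2) cf, fun hG0 hD1 hD2 => ?_⟩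
  have cg := STAR.cyc h (hG0 0) (hG0 1) (hG0 2) (by rw [hG 0, hG 1, hG 2]; clear * - hww; grind)
  have hk : ξ * (w - 1) ≠ 0 := by
    refine mul_ne_zero hξ fun h0 => ?_
    have := congrArg Eis.im h0
    simp [w] at this
  refine STAR.key h (hF0 0) (hF0 1) (hF0 2) (hG0 0) (hG0 1) (hG0 2) hD1 hD2 hk ?_ ?_ ?_ ?_ cf cg
  · rw [e0, e1, hG 0, hG 2, hD 1]; clear * - hww; grind
  · rw [e1, e2, hG 0, hG 1, hD 1]; clear * - hww; grind
  · rw [e0, e1, hG 1, hG 2, hD 2]; clear * - hww; grind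
  · rw [e1, e2, hG 0, hG 2, hD 2]; clear * - hww; grind

end Pool.Agent.PT
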