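import Pool.Agent.PT.Stmts4

/-!
# STM: the tame symbols
-/

namespace Pool.Agent.PT

open Pool.Agent.Lib_helper18 Pool.Agent.Lib_helper18.Eis Pool.Agent.Lib_helper84.Cub

namespace STM

theorem up_eq {π a c : Eis} {k : ℕ} (hπ : Prime π) (hc : ¬ π ∣ c) (ha : a = π ^ k * c) :
    V π a = k ∧ up π a = c := by
  have h1 : V π a = k := by rw [ha]; exact V_pow_mul hπ k hc
  refine ⟨h1, ?_⟩
  unfold up
  rw [h1, ha]
  exact mul_div_cancel_left₀ c (pow_ne_zero _ hπ.ne_zero)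

theorem up_spec {π a : Eis} (hπ : Prime π) (ha : a ≠ 0) :
    a = π ^ V π a * up π a ∧ ¬ π ∣ up π a := by
  obtain ⟨c, hc, hd⟩ := V_split hπ ha
  have h1 := (up_eq hπ hd hc).2
  rw [h1]
  exact ⟨hc, hd⟩

theorem ch_mul {π a b : Eis} (hπ : Prime π) (h3 : ¬ π ∣ 3) (ha : a ≠ 0) (hb : b ≠ 0) :
    ch π (a * b) = ch π a + ch π b := by
  obtain ⟨h1, h2⟩ := up_spec hπ ha
  obtain ⟨h3', h4⟩ := up_spec hπ hb
  have h5 : a * b = π ^ (V π a + V π b) * (up π a * up π b) := by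
    conv_lhs => rw [h1, h3']
    ring
  have h6 : ¬ π ∣ up π a * up π b := fun h => (hπ.dvd_or_dvd h).elim h2 h4
  have h7 := (up_eq hπ h6 h5).2
  unfold ch
  rw [h7, sym_mul hπ h3 h2 h4]

theorem cont {π a a' : Eis} (hπ : Prime π) (ha : a ≠ 0) (h : π ^ (V π a + 1) ∣ a' - a) :
    V π a' = V π a ∧ ch π a' = ch π a := by
  obtain ⟨h1, h2⟩ := up_spec hπ ha
  obtain ⟨d, hd⟩ := h
  have h3 : a' = π ^ V π a * (up π a + π * d) := by
    have : a' = a + π ^ (V π a + 1) * d := by rw [← hd]; ring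
    rw [this]
    conv_lhs => rw [h1]
    have h4 : V π (π ^ V π a * up π a) = V π a := by rw [← h1]
    rw [h4]
    ring
  have h4 : ¬ π ∣ up π a + π * d := fun h => h2 ((dvd_add_left (dvd_mul_right π d)).1 h)
  obtain ⟨h5, h6⟩ := up_eq hπ h4 h3
  refine ⟨h5, ?_⟩
  unfold ch
  rw [h6]
  refine sym_congr ⟨d, ?_⟩
  ring

theorem ch_neg {π a : Eis} (hπ : Prime π) (h3 : ¬ π ∣ 3) (ha : a ≠ 0) : ch π (-a) = ch π a := by
  have h1 : ch π (-1 : Eis) = 0 := by
    have h2 : ¬ π ∣ (-1 : Eis) := fun h => hπ.not_isUnit (isUnit_of_dvd_unit h (by simp))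
    have h4 := (up_eq (k := 0) hπ h2 (by simp : (-1 : Eis) = π ^ 0 * (-1))).2
    unfold ch
    rw [h4]
    exact sym_neg_one hπ h3
  have h2 : -a = -1 * a := by ring
  rw [h2, ch_mul hπ h3 (by simp) ha, h1, zero_add]

/-- `a + b + c = 0` and `V b > V a` -/
theorem dom {π a b c : Eis} (hπ : Prime π) (h3 : ¬ π ∣ 3) (ha : a ≠ 0) (hb : b ≠ 0) (hc : c ≠ 0)
    (h : a + b + c = 0) (hv : V π a < V π b) : V π c = V π a ∧ ch π c = ch π a := by
  have h1 : π ^ (V π a + 1) ∣ b := by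
    obtain ⟨h1, -⟩ := up_spec hπ hb
    rw [h1]
    have h2 : V π (π ^ V π b * up π b) = V π b := by rw [← h1]
    exact (pow_dvd_pow π (by omega)).trans (dvd_mul_right _ _)
  have h2 : (-c) - a = b := by linear_combination (-1 : Eis) * h
  obtain ⟨h4, h5⟩ := cont hπ ha (by rw [h2]; exact h1)
  rw [V_neg] at h4
  rw [ch_neg hπ h3 hc] at h5
  exact ⟨h4, h5⟩

theorem stein {π a b c : Eis} (hπ : Prime π) (h3 : ¬ π ∣ 3) (ha : a ≠ 0) (hb : b ≠ 0) (hc : c ≠ 0)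
    (h : a + b + c = 0) : tm π a b + tm π b c + tm π c a = 0 := by
  unfold tm
  rcases lt_trichotomy (V π a) (V π b) with hv | hv | hv
  · obtain ⟨h1, h2⟩ := dom hπ h3 ha hb hc h hv
    rw [h1, h2]
    ring
  · rcases lt_trichotomy (V π a) (V π c) with hw | hw | hw
    · obtain ⟨h1, h2⟩ := dom hπ h3 ha hc hb (by linear_combination h) hw
      rw [h1, h2]
      ring
    · rw [← hv, ← hw]
      ring
    · obtain ⟨h1, h2⟩ := dom hπ h3 hc ha hb (by linear_combination h) hw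
      omega
  · obtain ⟨h1, h2⟩ := dom hπ h3 hb ha hc (by linear_combination h) hv
    rw [h1, h2]
    ring

end STM

theorem STM_thm : STM := by
  intro π hπ h3
  refine ⟨hπ, le_rfl, ?_, ?_, ?_, ?_⟩
  · intro a b c ha hb hc
    unfold tm
    rw [STM.ch_mul hπ h3 ha hb, V_mul hπ ha hb]
    push_cast
    ring
  · intro a b _ _
    unfold tm
    ring
  · intro a b c ha hb hc h
    exact STM.stein hπ h3 ha hb hc h
  · intro a a' b ha _ h
    obtain ⟨h1, h2⟩ := STM.cont hπ ha h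
    unfold tm
    rw [h1, h2]

end Pool.Agent.PT
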