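import Pool.Agent.PT.Stmts3
import Pool.Agent.Lib_helper3.SU.Tensor

/-!
# SUN: the theorem on `S`-units
-/

open NumberField IsDedekindDomain Module
open scoped nonZeroDivisors

namespace Pool.Agent.PT

namespace SUN

variable {K : Type} [Field K] [NumberField K]

/-- the additive forms of the group of `S`-units -/
noncomputable def eqv (S : Finset (HeightOneSpectrum (𝓞 K))) :
    Additive ((S : Set (HeightOneSpectrum (𝓞 K))).unit K) ≃ₗ[ℤ] SUnit.U K S where
  toFun x := ⟨Additive.ofMul (x.toMul : Kˣ), x.toMul.2⟩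
  invFun x := Additive.ofMul ⟨x.1.toMul, x.2⟩
  map_add' x y := rfl
  map_smul' n x := by
    apply Subtype.ext
    rfl
  left_inv x := rfl
  right_inv x := rfl

theorem ker_torsion (S : Finset (HeightOneSpectrum (𝓞 K))) :
    finrank ℤ (LinearMap.ker (SUnit.ell S)) = 0 := by
  rw [Module.finrank_eq_zero_iff]
  intro x
  have h1 : SUnit.ell S x.1 = 0 := x.2
  have h2 : SUnit.plog S x.1.1 = 0 := congrArg Subtype.val h1
  have h3 := SUnit.isOfFinAddOrder_of_plog_eq_zero S x.1.1 x.1.2 h2
  obtain ⟨n, hn, hnx⟩ := isOfFinAddOrder_iff_nsmul_eq_zero.mp h3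
  refine ⟨n, by exact_mod_cast hn.ne', ?_⟩
  apply Subtype.ext
  apply Subtype.ext
  show (n : ℤ) • x.1.1 = 0
  rw [natCast_zsmul]
  exact hnx

theorem finrank_U (S : Finset (HeightOneSpectrum (𝓞 K))) :
    finrank ℤ (SUnit.U K S) = NumberField.Units.rank K + S.card := by
  have h1 := Submodule.finrank_quotient_add_finrank (LinearMap.ker (SUnit.ell S))
  have h2 := (SUnit.ell S).quotKerEquivRange.finrank_eq
  have h3 : finrank ℤ (SUnit.lat S) = finrank ℝ (SUnit.hyper K S) := ZLattice.rank ℝ (SUnit.lat S)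
  have h4 : finrank ℝ (SUnit.hyper K S) + 1 = Fintype.card (SUnit.Pl K S) :=
    SUnit.finrank_hyperk S ℝ
  have h5 := ker_torsion S
  have h6 : Fintype.card (SUnit.Pl K S) = Fintype.card (InfinitePlace K) + S.card := by
    rw [Fintype.card_sum, Fintype.card_coe]
  have h7 : 0 < Fintype.card (InfinitePlace K) := Fintype.card_pos
  have h8 : NumberField.Units.rank K = Fintype.card (InfinitePlace K) - 1 := rfl
  have h9 : finrank ℤ (LinearMap.range (SUnit.ell S)) = finrank ℝ (SUnit.hyper K S) := h3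
  omega

end SUN

theorem SUN_thm : SUN := by
  intro L _ _ A
  have hfin : Module.Finite ℤ (SUnit.U L A) := inferInstance
  constructor
  · rw [Subgroup.fg_iff_add_fg, ← AddGroup.fg_iff_addSubgroup_fg, ← Module.Finite.iff_addGroup_fg]
    exact hfin
  · rw [(SUN.eqv A).finrank_eq]
    exact SUN.finrank_U A

end Pool.Agent.PT
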