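import Pool.Agent.PT.Stmts4

/-!
# TADD: additivity of the pairing in the second variable
-/

namespace Pool.Agent.PT

open Pool.Agent.Lib_helper18 Pool.Agent.Lib_helper18.Eis Pool.Agent.Lib_helper84.Cub

namespace TADD

/-- the norm form of `x + y T + z T^2`, `T^3 = b` -/
def N3 (b x y z : ℤ) : ℤ := x ^ 3 + b * y ^ 3 + b ^ 2 * z ^ 3 - 3 * b * x * y * z

theorem N3_mul (b x y z u v t : ℤ) :
    N3 b (x * u + b * (y * t + z * v)) (x * v + y * u + b * (z * t)) (x * t + y * v + z * u) =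
      N3 b x y z * N3 b u v t := by
  unfold N3
  ring

/-- no zeros of `p^3 + b q^3` when `b` is not a cube -/
theorem ne_of_not_cube {b p q : ℤ} (hb : ¬ ∃ c : ℤ, c ^ 3 = b) (h : ¬ (p = 0 ∧ q = 0)) :
    p ^ 3 + b * q ^ 3 ≠ 0 := by
  intro h0
  by_cases hq : q = 0
  · subst hq
    have h1 : p ^ 3 = 0 := by linear_combination h0
    exact h ⟨pow_eq_zero_iff (three_ne_zero) |>.1 h1, rfl⟩
  · have h1 : q ^ 3 ∣ p ^ 3 := ⟨-b, by linear_combination h0⟩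
    rw [Int.pow_dvd_pow_iff (three_ne_zero)] at h1
    obtain ⟨k, rfl⟩ := h1
    apply hb
    refine ⟨-k, ?_⟩
    have h2 : q ^ 3 * ((-k) ^ 3 - b) = 0 := by linear_combination -h0
    have h3 := (mul_eq_zero.1 h2).resolve_left (pow_ne_zero _ hq)
    linear_combination h3

/-- the algebra: coefficients of the identity -/
theorem exists_prod (b : ℤ) (hb : ¬ ∃ c : ℤ, c ^ 3 = b) (p₁ q₁ p₁' q₁' p₂ q₂ p₂' q₂' : ℤ)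
    (h1 : p₁' ^ 3 + b * q₁' ^ 3 ≠ 0) (h2 : p₂' ^ 3 + b * q₂' ^ 3 ≠ 0) :
    ∃ p q p' q' : ℤ, ¬ (p' = 0 ∧ q' = 0) ∧
      (p₁ * p₂ * p' + b * (q₁ * q₂ * q') = p₁' * p₂' * p + b * (q₁' * q₂' * q)) ∧
      ((p₁ * q₂ + q₁ * p₂) * p' + p₁ * p₂ * q' = (p₁' * q₂' + q₁' * p₂') * p + p₁' * p₂' * q) ∧
      (q₁ * q₂ * p' + (p₁ * q₂ + q₁ * p₂) * q' = q₁' * q₂' * p + (p₁' * q₂' + q₁' * p₂') * q) := by
  obtain ⟨e0, he0⟩ : ∃ e0, e0 = p₁ * p₂ := ⟨_, rfl⟩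
  obtain ⟨e1, he1⟩ : ∃ e1, e1 = p₁ * q₂ + q₁ * p₂ := ⟨_, rfl⟩
  obtain ⟨e2, he2⟩ : ∃ e2, e2 = q₁ * q₂ := ⟨_, rfl⟩
  obtain ⟨f0, hf0⟩ : ∃ e0, e0 = p₁' * p₂' := ⟨_, rfl⟩
  obtain ⟨f1, hf1⟩ : ∃ e1, e1 = p₁' * q₂' + q₁' * p₂' := ⟨_, rfl⟩
  obtain ⟨f2, hf2⟩ : ∃ e2, e2 = q₁' * q₂' := ⟨_, rfl⟩
  have hN : N3 b f0 f1 f2 = (p₁' ^ 3 + b * q₁' ^ 3) * (p₂' ^ 3 + b * q₂' ^ 3) := by
    have := N3_mul b p₁' q₁' 0 p₂' q₂' 0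
    unfold N3 at this ⊢
    subst hf0 hf1 hf2
    linear_combination this
  have hN0 : N3 b f0 f1 f2 ≠ 0 := by rw [hN]; exact mul_ne_zero h1 h2
  rw [← he0, ← he1, ← he2, ← hf0, ← hf1, ← hf2]
  obtain ⟨g0, hg0⟩ : ∃ g, g = e0 * (f0 ^ 2 - b * f1 * f2) + b * (e1 * (f1 ^ 2 - f0 * f2) +
      e2 * (b * f2 ^ 2 - f0 * f1)) := ⟨_, rfl⟩
  obtain ⟨g1, hg1⟩ : ∃ g, g = e0 * (b * f2 ^ 2 - f0 * f1) + e1 * (f0 ^ 2 - b * f1 * f2) +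
      b * (e2 * (f1 ^ 2 - f0 * f2)) := ⟨_, rfl⟩
  obtain ⟨g2, hg2⟩ : ∃ g, g = e0 * (f1 ^ 2 - f0 * f2) + e1 * (b * f2 ^ 2 - f0 * f1) +
      e2 * (f0 ^ 2 - b * f1 * f2) := ⟨_, rfl⟩
  -- g * f = N e
  have k0 : g0 * f0 + b * (g1 * f2 + g2 * f1) = N3 b f0 f1 f2 * e0 := by
    unfold N3; subst hg0 hg1 hg2; ring
  have k1 : g0 * f1 + g1 * f0 + b * (g2 * f2) = N3 b f0 f1 f2 * e1 := by
    unfold N3; subst hg0 hg1 hg2; ring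
  have k2 : g0 * f2 + g1 * f1 + g2 * f0 = N3 b f0 f1 f2 * e2 := by
    unfold N3; subst hg0 hg1 hg2; ring
  by_cases hg : g1 = 0 ∧ g2 = 0
  · obtain ⟨hg1', hg2'⟩ := hg
    refine ⟨g0, 0, N3 b f0 f1 f2, 0, fun h => hN0 h.1, ?_, ?_, ?_⟩
    · rw [hg1', hg2'] at k0; linear_combination -k0
    · rw [hg1', hg2'] at k1; linear_combination -k1
    · rw [hg1', hg2'] at k2; linear_combination -k2
  · refine ⟨g0 * g1 - b * g2 ^ 2, g1 ^ 2 - g0 * g2, N3 b f0 f1 f2 * g1, - (N3 b f0 f1 f2 * g2),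
      fun h => hg ⟨(mul_eq_zero.1 h.1).resolve_left hN0,
        (mul_eq_zero.1 (neg_eq_zero.1 h.2)).resolve_left hN0⟩, ?_, ?_, ?_⟩
    · linear_combination (-g1) * k0 + b * g2 * k2
    · linear_combination (-g1) * k1 + g2 * k0
    · linear_combination (-g1) * k2 + g2 * k1

/-- the three linear forms multiply to the norm -/
theorem Lf_prod (p q r : ℤ) : Lf p q 0 r * Lf p q 1 r * Lf p q 2 r = ((p ^ 3 + q ^ 3 * r ^ 3 : ℤ) : Eis) := by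
  unfold Lf
  have h1 := w_rel
  have h2 := w_cube
  push_cast
  linear_combination ((p : Eis) ^ 2 * q * r + p * q ^ 2 * r ^ 2 * w) * h1 +
    (q : Eis) ^ 3 * r ^ 3 * h2

/-- the linear forms are nonzero with bounded valuation at good approximations -/
theorem Lf_bound {π : Eis} (hπ : Prime π) {b p q r : ℤ} {N : ℕ}
    (hn : ((p ^ 3 + b * q ^ 3 : ℤ) : Eis) ≠ 0) (hr : π ^ N ∣ (r : Eis) ^ 3 - (b : Eis))
    (hN : V π ((p ^ 3 + b * q ^ 3 : ℤ) : Eis) < N) (i : ℕ) (hi : i = 1 ∨ i = 2) :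
    Lf p q i r ≠ 0 ∧ V π (Lf p q i r) ≤ V π ((p ^ 3 + b * q ^ 3 : ℤ) : Eis) := by
  have e : ((p ^ 3 + b * q ^ 3 : ℤ) : Eis) = ((p ^ 3 + q ^ 3 * r ^ 3 : ℤ) : Eis) -
      (q : Eis) ^ 3 * ((r : Eis) ^ 3 - (b : Eis)) := by
    push_cast; ring
  have hnd : ¬ π ^ (V π ((p ^ 3 + b * q ^ 3 : ℤ) : Eis) + 1) ∣
      Lf p q 0 r * Lf p q 1 r * Lf p q 2 r := by
    rw [Lf_prod]
    intro h
    have h1 : π ^ (V π ((p ^ 3 + b * q ^ 3 : ℤ) : Eis) + 1) ∣ ((p ^ 3 + b * q ^ 3 : ℤ) : Eis) := by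
      rw [e]
      rw [← e]
      have h2 : π ^ (V π ((p ^ 3 + b * q ^ 3 : ℤ) : Eis) + 1) ∣ (q : Eis) ^ 3 * ((r : Eis) ^ 3 - (b : Eis)) :=
        Dvd.dvd.mul_left ((pow_dvd_pow π (by omega)).trans hr) _
      have h3 := dvd_sub h h2
      rwa [← e] at h3
    exact (fin hπ hn).not_pow_dvd_of_multiplicity_lt (Nat.lt_succ_self _) h1
  have hdv : Lf p q i r ∣ Lf p q 0 r * Lf p q 1 r * Lf p q 2 r := by
    rcases hi with rfl | rfl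
    · exact ⟨Lf p q 0 r * Lf p q 2 r, by ring⟩
    · exact ⟨Lf p q 0 r * Lf p q 1 r, by ring⟩
  have h0 : Lf p q i r ≠ 0 := by
    intro h
    rw [h] at hdv
    rw [zero_dvd_iff.1 hdv] at hnd
    exact hnd (dvd_zero _)
  refine ⟨h0, ?_⟩
  by_contra hlt
  push Not at hlt
  apply hnd
  exact (pow_dvd_of_le_multiplicity hlt).trans hdv

/-- evaluation of the identity at `w^i r` -/
theorem Lf_ident {b p₁ q₁ p₁' q₁' p₂ q₂ p₂' q₂' p q p' q' : ℤ}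
    (e0 : p₁ * p₂ * p' + b * (q₁ * q₂ * q') = p₁' * p₂' * p + b * (q₁' * q₂' * q))
    (e1 : (p₁ * q₂ + q₁ * p₂) * p' + p₁ * p₂ * q' = (p₁' * q₂' + q₁' * p₂') * p + p₁' * p₂' * q)
    (e2 : q₁ * q₂ * p' + (p₁ * q₂ + q₁ * p₂) * q' = q₁' * q₂' * p + (p₁' * q₂' + q₁' * p₂') * q)
    (i : ℕ) (r : ℤ) :
    Lf p₁ q₁ i r * Lf p₂ q₂ i r * Lf p' q' i r - Lf p₁' q₁' i r * Lf p₂' q₂' i r * Lf p q i r =
      ((r : Eis) ^ 3 - (b : Eis)) * ((q₁ * q₂ * q' - q₁' * q₂' * q : ℤ) : Eis) := by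
  have h3 : (w ^ i) ^ 3 = 1 := by rw [← pow_mul, mul_comm, pow_mul, w_cube, one_pow]
  have e0' : ((p₁ * p₂ * p' + b * (q₁ * q₂ * q') : ℤ) : Eis) = ((p₁' * p₂' * p + b * (q₁' * q₂' * q) : ℤ) : Eis) := by
    rw [e0]
  have e1' : (((p₁ * q₂ + q₁ * p₂) * p' + p₁ * p₂ * q' : ℤ) : Eis) =
    (((p₁' * q₂' + q₁' * p₂') * p + p₁' * p₂' * q : ℤ) : Eis) := by rw [e1]
  have e2' : ((q₁ * q₂ * p' + (p₁ * q₂ + q₁ * p₂) * q' : ℤ) : Eis) =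
    ((q₁' * q₂' * p + (p₁' * q₂' + q₁' * p₂') * q : ℤ) : Eis) := by rw [e2]
  unfold Lf
  push_cast at *
  generalize w ^ i = W at *
  linear_combination e0' + W * (r : Eis) * e1' + W ^ 2 * (r : Eis) ^ 2 * e2' +
    ((q₁ : Eis) * q₂ * q' - q₁' * q₂' * q) * (r : Eis) ^ 3 * h3

theorem LSym.right_mul {π : Eis} {s : Eis → Eis → ZMod 3} {e : ℕ} (hs : LSym π s e) {a b c : Eis}
    (ha : a ≠ 0) (hb : b ≠ 0) (hc : c ≠ 0) : s a (b * c) = s a b + s a c := by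
  rw [hs.skew (b * c) a (mul_ne_zero hb hc) ha, hs.mul b c a hb hc ha, hs.skew b a hb ha,
    hs.skew c a hc ha]
  ring

/-- one index -/
theorem step_i {π : Eis} {s : Eis → Eis → ZMod 3} {e : ℕ} (hs : LSym π s e) {B : Eis}
    (hB : B ≠ 0) {X₁ X₂ X₃ Y₁ Y₂ Y₃ R C : Eis} (hX₁ : X₁ ≠ 0) (hX₂ : X₂ ≠ 0) (hX₃ : X₃ ≠ 0)
    (hY₁ : Y₁ ≠ 0) (hY₂ : Y₂ ≠ 0) (hY₃ : Y₃ ≠ 0) {N : ℕ}
    (hN : V π Y₁ + V π Y₂ + V π Y₃ + e ≤ N) (hR : π ^ N ∣ R)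
    (h : X₁ * X₂ * X₃ - Y₁ * Y₂ * Y₃ = R * C) :
    s B X₁ + s B X₂ + s B X₃ = s B Y₁ + s B Y₂ + s B Y₃ := by
  have hV : V π (Y₁ * Y₂ * Y₃) = V π Y₁ + V π Y₂ + V π Y₃ := by
    rw [V_mul hs.prime (mul_ne_zero hY₁ hY₂) hY₃, V_mul hs.prime hY₁ hY₂]
  have h1 : π ^ (V π (Y₁ * Y₂ * Y₃) + e) ∣ X₁ * X₂ * X₃ - Y₁ * Y₂ * Y₃ := by
    rw [h, hV]
    exact Dvd.dvd.mul_right ((pow_dvd_pow π hN).trans hR) _
  have h2 := hs.cont (Y₁ * Y₂ * Y₃) (X₁ * X₂ * X₃) B (mul_ne_zero (mul_ne_zero hY₁ hY₂) hY₃) hB h1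
  rw [hs.mul _ _ _ (mul_ne_zero hX₁ hX₂) hX₃ hB, hs.mul _ _ _ hX₁ hX₂ hB,
    hs.mul _ _ _ (mul_ne_zero hY₁ hY₂) hY₃ hB, hs.mul _ _ _ hY₁ hY₂ hB] at h2
  rw [hs.skew X₁ B hX₁ hB, hs.skew X₂ B hX₂ hB, hs.skew X₃ B hX₃ hB, hs.skew Y₁ B hY₁ hB,
    hs.skew Y₂ B hY₂ hB, hs.skew Y₃ B hY₃ hB]
  linear_combination -h2

/-- additivity of `AS` at good approximations -/
theorem AS_add {π : Eis} {s : Eis → Eis → ZMod 3} {e : ℕ} (hs : LSym π s e)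
    {B b p₁ q₁ p₁' q₁' p₂ q₂ p₂' q₂' p q p' q' : ℤ} (hB : (B : Eis) ≠ 0)
    (n₁ : ((p₁ ^ 3 + b * q₁ ^ 3 : ℤ) : Eis) ≠ 0) (n₂ : ((p₂ ^ 3 + b * q₂ ^ 3 : ℤ) : Eis) ≠ 0)
    (n₃ : ((p' ^ 3 + b * q' ^ 3 : ℤ) : Eis) ≠ 0) (m₁ : ((p₁' ^ 3 + b * q₁' ^ 3 : ℤ) : Eis) ≠ 0)
    (m₂ : ((p₂' ^ 3 + b * q₂' ^ 3 : ℤ) : Eis) ≠ 0) (m₃ : ((p ^ 3 + b * q ^ 3 : ℤ) : Eis) ≠ 0)
    (e0 : p₁ * p₂ * p' + b * (q₁ * q₂ * q') = p₁' * p₂' * p + b * (q₁' * q₂' * q))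
    (e1 : (p₁ * q₂ + q₁ * p₂) * p' + p₁ * p₂ * q' = (p₁' * q₂' + q₁' * p₂') * p + p₁' * p₂' * q)
    (e2 : q₁ * q₂ * p' + (p₁ * q₂ + q₁ * p₂) * q' = q₁' * q₂' * p + (p₁' * q₂' + q₁' * p₂') * q) :
    ∃ N0 : ℕ, ∀ r : ℤ, π ^ N0 ∣ (r : Eis) ^ 3 - (b : Eis) →
      AS s (B : Eis) p q p' q' r = AS s (B : Eis) p₁ q₁ p₁' q₁' r + AS s (B : Eis) p₂ q₂ p₂' q₂' r := by
  refine ⟨V π ((p₁ ^ 3 + b * q₁ ^ 3 : ℤ) : Eis) + V π ((p₂ ^ 3 + b * q₂ ^ 3 : ℤ) : Eis) +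
    V π ((p' ^ 3 + b * q' ^ 3 : ℤ) : Eis) + V π ((p₁' ^ 3 + b * q₁' ^ 3 : ℤ) : Eis) +
    V π ((p₂' ^ 3 + b * q₂' ^ 3 : ℤ) : Eis) + V π ((p ^ 3 + b * q ^ 3 : ℤ) : Eis) + e + 1,
    fun r hr => ?_⟩
  have key : ∀ i : ℕ, i = 1 ∨ i = 2 →
      s B (Lf p₁ q₁ i r) + s B (Lf p₂ q₂ i r) + s B (Lf p' q' i r) =
        s B (Lf p₁' q₁' i r) + s B (Lf p₂' q₂' i r) + s B (Lf p q i r) := by
    intro i hi
    have a1 := Lf_bound hs.prime n₁ hr (by omega) i hi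
    have a2 := Lf_bound hs.prime n₂ hr (by omega) i hi
    have a3 := Lf_bound hs.prime n₃ hr (by omega) i hi
    have b1 := Lf_bound hs.prime m₁ hr (by omega) i hi
    have b2 := Lf_bound hs.prime m₂ hr (by omega) i hi
    have b3 := Lf_bound hs.prime m₃ hr (by omega) i hi
    refine step_i hs hB a1.1 a2.1 a3.1 b1.1 b2.1 b3.1 ?_ hr (Lf_ident e0 e1 e2 i r)
    have h1 := b1.2
    have h2 := b2.2
    have h3 := b3.2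
    omega
  have k1 := key 1 (Or.inl rfl)
  have k2 := key 2 (Or.inr rfl)
  unfold AS
  linear_combination k1 - k2

theorem cast_ne {n : ℤ} (h : n ≠ 0) : (n : Eis) ≠ 0 := by
  intro h0
  apply h
  have := congrArg Eis.re h0
  simpa using this

end TADD

open TADD in
theorem TADD_thm (hSTM : STM) (hSPP : SPP) (hSSL : SSL) (hSLC : SLC) (hSCJ : SCJ) (hLCI : LCI)
    (hAVV : AVV) (hLFIN : LFIN) : TADD := by
  intro b x₁ x₂ p₁ q₁ p₁' q₁' p₂ q₂ p₂' q₂' hb hb0 hx₁ hx₂ S₁ S₂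
  have d1 : p₁' ^ 3 + b * q₁' ^ 3 ≠ 0 := by
    intro h
    apply S₁.n1
    rw [S₁.eq, h, mul_zero]
  have d2 : p₂' ^ 3 + b * q₂' ^ 3 ≠ 0 := by
    intro h
    apply S₂.n1
    rw [S₂.eq, h, mul_zero]
  obtain ⟨p, q, p', q', hne, e0, e1, e2⟩ := exists_prod b hb p₁ q₁ p₁' q₁' p₂ q₂ p₂' q₂' d1 d2
  have d' : p' ^ 3 + b * q' ^ 3 ≠ 0 := ne_of_not_cube hb hne
  have hnorm : (p₁ ^ 3 + b * q₁ ^ 3) * (p₂ ^ 3 + b * q₂ ^ 3) * (p' ^ 3 + b * q' ^ 3) =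
      (p₁' ^ 3 + b * q₁' ^ 3) * (p₂' ^ 3 + b * q₂' ^ 3) * (p ^ 3 + b * q ^ 3) := by
    have h1 := N3_mul b p₁ q₁ 0 p₂ q₂ 0
    have h2 := N3_mul b p₁' q₁' 0 p₂' q₂' 0
    have h3 := N3_mul b (p₁ * p₂) (p₁ * q₂ + q₁ * p₂) (q₁ * q₂) p' q' 0
    have h4 := N3_mul b (p₁' * p₂') (p₁' * q₂' + q₁' * p₂') (q₁' * q₂') p q 0
    have h5 : N3 b (p₁ * p₂ * p' + b * ((p₁ * q₂ + q₁ * p₂) * 0 + q₁ * q₂ * q'))
        (p₁ * p₂ * q' + (p₁ * q₂ + q₁ * p₂) * p' + b * (q₁ * q₂ * 0))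
        (p₁ * p₂ * 0 + (p₁ * q₂ + q₁ * p₂) * q' + q₁ * q₂ * p') =
      N3 b (p₁' * p₂' * p + b * ((p₁' * q₂' + q₁' * p₂') * 0 + q₁' * q₂' * q))
        (p₁' * p₂' * q + (p₁' * q₂' + q₁' * p₂') * p + b * (q₁' * q₂' * 0))
        (p₁' * p₂' * 0 + (p₁' * q₂' + q₁' * p₂') * q + q₁' * q₂' * p) := by
      congr 1
      · linear_combination e0
      · linear_combination e1
      · linear_combination e2
    rw [h3, h4] at h5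
    have g1 : N3 b (p₁ * p₂) (p₁ * q₂ + q₁ * p₂) (q₁ * q₂) =
        (p₁ ^ 3 + b * q₁ ^ 3) * (p₂ ^ 3 + b * q₂ ^ 3) := by
      unfold N3 at h1 ⊢
      linear_combination h1
    have g2 : N3 b (p₁' * p₂') (p₁' * q₂' + q₁' * p₂') (q₁' * q₂') =
        (p₁' ^ 3 + b * q₁' ^ 3) * (p₂' ^ 3 + b * q₂' ^ 3) := by
      unfold N3 at h2 ⊢
      linear_combination h2
    have g3 : N3 b p' q' 0 = p' ^ 3 + b * q' ^ 3 := by unfold N3; ring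
    have g4 : N3 b p q 0 = p ^ 3 + b * q ^ 3 := by unfold N3; ring
    rw [g1, g2, g3, g4] at h5
    exact h5
  have hS : SolW b (x₁ * x₂) p q p' q' := by
    have heq : p ^ 3 + b * q ^ 3 = x₁ * x₂ * (p' ^ 3 + b * q' ^ 3) := by
      apply mul_left_cancel₀ (mul_ne_zero d1 d2)
      rw [← hnorm, S₁.eq, S₂.eq]
      ring
    refine ⟨heq, ?_⟩
    rw [heq]
    exact mul_ne_zero (mul_ne_zero hx₁ hx₂) d'
  refine ⟨p, q, p', q', hS, ?_⟩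
  intro B hB hAb hA₁ hA₂
  have hB0 : (B : Eis) ≠ 0 := cast_ne hB.ne
  have hx₁' : (x₁ : Eis) ≠ 0 := cast_ne hx₁
  have hx₂' : (x₂ : Eis) ≠ 0 := cast_ne hx₂
  have hw0 : (w : Eis) ≠ 0 := by
    intro h
    have := w_cube
    rw [h] at this
    exact absurd this (by decide)
  -- the symbols at all places
  have hv : ∀ v : Pl, ∃ e, LSym (uni v) (sy v) e := by
    intro v
    rcases v with _ | π
    · exact ⟨4, hSLC⟩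
    · exact ⟨1, hSTM π.1 π.2.1 (hSPP.2.2.2.1 π).1⟩
  have htm : ∀ (x : ℤ), Adm B x → x ≠ 0 → ∀ π : PP, tm π.1 (B : Eis) (x : Eis) = 0 := by
    intro x hx hx0 π
    have h1 := (hSTM π.1 π.2.1 (hSPP.2.2.2.1 π).1).skew (x : Eis) (B : Eis) (cast_ne hx0) hB0
    rw [h1, hx.sym π, neg_zero]
  have hsy : ∀ (x : ℤ), Adm B x → x ≠ 0 → ∀ v : Pl, sy v (B : Eis) (x : Eis) = 0 := by
    intro x hx hx0 v
    rcases v with _ | π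
    · change sl (B : Eis) (x : Eis) = 0
      unfold sl
      rw [finsum_eq_zero_of_forall_eq_zero (htm x hx hx0), neg_zero]
    · exact htm x hx hx0 π
  -- local additivity
  have hloc : ∀ v : Pl, TT v B b (x₁ * x₂) p q p' q' =
      TT v B b x₁ p₁ q₁ p₁' q₁' + TT v B b x₂ p₂ q₂ p₂' q₂' := by
    intro v
    obtain ⟨e, hs⟩ := hv v
    have hcast : (((x₁ * x₂ : ℤ)) : Eis) = (x₁ : Eis) * (x₂ : Eis) := by push_cast; rfl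
    by_cases hLC : LC (uni v) b
    · have h12 : sy v (B : Eis) ((x₁ * x₂ : ℤ) : Eis) = 0 := by
        rw [hcast, LSym.right_mul hs hB0 hx₁' hx₂', hsy x₁ hA₁ hx₁ v, hsy x₂ hA₂ hx₂ v, add_zero]
      obtain ⟨⟨N₁, hN₁⟩, -⟩ := hAVV v B b x₁ p₁ q₁ p₁' q₁' hB.ne hb0 hx₁ S₁ (hsy x₁ hA₁ hx₁ v) hLC
      obtain ⟨⟨N₂, hN₂⟩, -⟩ := hAVV v B b x₂ p₂ q₂ p₂' q₂' hB.ne hb0 hx₂ S₂ (hsy x₂ hA₂ hx₂ v) hLC
      obtain ⟨-, huniq⟩ := hAVV v B b (x₁ * x₂) p q p' q' hB.ne hb0 (mul_ne_zero hx₁ hx₂) hS h12 hLC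
      obtain ⟨N₃, hN₃⟩ := AS_add hs hB0 (cast_ne S₁.n1) (cast_ne S₂.n1) (cast_ne d')
        (cast_ne d1) (cast_ne d2) (cast_ne hS.n1) e0 e1 e2
      have hAV : AV v B b p q p' q' = AV v B b p₁ q₁ p₁' q₁' + AV v B b p₂ q₂ p₂' q₂' := by
        refine huniq _ (max N₁ (max N₂ N₃)) (fun r hr => ?_)
        rw [hN₃ r ((pow_dvd_pow _ (by omega)).trans hr), hN₁ r ((pow_dvd_pow _ (by omega)).trans hr),
          hN₂ r ((pow_dvd_pow _ (by omega)).trans hr)]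
      unfold TT
      rw [if_pos hLC, if_pos hLC, if_pos hLC, hAV, hcast, LSym.right_mul hs hw0 hx₁' hx₂']
      ring
    · unfold TT
      rw [if_neg hLC, if_neg hLC, if_neg hLC]
      rcases v with _ | π
      · simp
      · simp only
        split_ifs with h
        · rw [hcast]
          have := LSym.right_mul hs hw0 hx₁' hx₂'
          change tm π.1 w ((x₁ : Eis) * (x₂ : Eis)) = tm π.1 w (x₁ : Eis) + tm π.1 w (x₂ : Eis) at this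
          rw [this]
          ring
        · simp
  unfold OO
  rw [← finsum_add_distrib (hLFIN.1 B b x₁ p₁ q₁ p₁' q₁' hB hAb hA₁ S₁)
    (hLFIN.1 B b x₂ p₂ q₂ p₂' q₂' hB hAb hA₂ S₂)]
  exact finsum_congr hloc

end Pool.Agent.PT
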