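import Pool.Agent.PT.Stmts4

/-!
# TCA: the pairing vanishes on the class of a point; antisymmetry
-/

namespace Pool.Agent.PT

open Pool.Agent.Lib_helper18 Pool.Agent.Lib_helper18.Eis Pool.Agent.Lib_helper84.Cub

namespace TCA

theorem sol_swap {b x p q p' q' : ℤ} (h : Sol b x p q p' q') : Sol x b p (-p') (-q) q' where
  eq := by linear_combination h.eq
  n1 := by
    intro h0
    apply h.n2
    linear_combination h0
  n2 := by
    intro h0
    apply h.n1
    linear_combination h0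

end TCA

theorem TC_thm (hLEV : LEV) (hLFIN : LFIN) : TC := by
  intro B b x p q p' q' X Y hB hb hx hS hP h9
  obtain ⟨hX, hY, c, hc, e⟩ := hP
  have hn : X ^ 3 + x * Y ^ 3 ≠ 0 := by
    intro h0
    rw [h0, mul_zero] at e
    exact mul_ne_zero hB.ne (pow_ne_zero 3 hc) e.symm
  obtain ⟨f1, e1⟩ := hLFIN.2.1 B b x p q p' q' hB.ne hb.ne hx.ne hS
  obtain ⟨f2, e2⟩ := hLFIN.2.2 b x p q p' q' X Y hb.ne hx.ne hS hX hY hn
  unfold OO
  rw [finsum_congr fun v => hLEV v B b x p q p' q' X Y hB hb hx hS ⟨hX, hY, c, hc, e⟩ h9,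
    finsum_sub_distrib f1 f2, e1, e2, sub_zero]

theorem TA_thm (hLAM : LAM) (hLFIN : LFIN) : TA := by
  intro B b x p q p' q' hB hb hx hS h9
  obtain ⟨-, e1⟩ := hLFIN.2.1 B b x p q p' q' hB.ne hb.ne hx.ne hS
  have f1 := hLFIN.1 B b x p q p' q' hB hb hx hS.toSolW
  have f2 := hLFIN.1 B x b p (-p') (-q) q' hB hx hb (TCA.sol_swap hS).toSolW
  unfold OO
  rw [← finsum_add_distrib f1 f2, finsum_congr fun v => hLAM v B b x p q p' q' hB hb hx hS h9, e1]

end Pool.Agent.PT
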