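import Pool.Agent.PT.Stmts4

/-!
# The matrix of the pairing is alternating and the class of a point is in its kernel
-/

set_option autoImplicit false

open NumberField IsDedekindDomain Finset
open scoped nonZeroDivisors Pointwise

namespace Pool.Agent.PT

open Pool.Agent.Lib_helper18 Pool.Agent.Lib_helper18.Eis Pool.Agent.Lib_helper84.Cub

namespace TEND

theorem cast_ne {n : ℤ} (h : n ≠ 0) : (n : Eis) ≠ 0 := by
  intro h0
  apply h
  have := congrArg Eis.re h0
  simpa using this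

theorem three_zero : (3 : ZMod 3) = 0 := rfl

theorem c9_mul {m n : ℤ} (hm : C9 m) (hn : C9 n) : C9 (m * n) := by
  unfold C9 at *
  rcases hm with h | h <;> rcases hn with h' | h' <;> simp [Int.mul_emod, h, h']

theorem c9_one : C9 1 := by
  unfold C9
  decide

theorem c9_pow {m : ℤ} (hm : C9 m) (n : ℕ) : C9 (m ^ n) := by
  induction n with
  | zero => simpa using c9_one
  | succ n ih =>
    rw [pow_succ]
    exact c9_mul ih hm

theorem c9_cube {m : ℤ} (hm : ¬ (3 : ℤ) ∣ m) : C9 (m ^ 3) := by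
  unfold C9
  have h : m % 9 = 0 ∨ m % 9 = 1 ∨ m % 9 = 2 ∨ m % 9 = 3 ∨ m % 9 = 4 ∨ m % 9 = 5 ∨ m % 9 = 6 ∨
      m % 9 = 7 ∨ m % 9 = 8 := by omega
  have h3 : m ^ 3 % 9 = ((m % 9) * (m % 9) % 9 * (m % 9)) % 9 := by
    rw [pow_succ, pow_two]
    simp [Int.mul_emod]
  rcases h with h | h | h | h | h | h | h | h | h
  · exact absurd (by omega) hm
  · rw [h3, h]
    decide
  · rw [h3, h]
    decide
  · exact absurd (by omega) hm
  · rw [h3, h]
    decide
  · rw [h3, h]
    decide
  · exact absurd (by omega) hm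
  · rw [h3, h]
    decide
  · rw [h3, h]
    decide

theorem three_pow {m : ℤ} (hm : ¬ (3 : ℤ) ∣ m) (n : ℕ) : ¬ (3 : ℤ) ∣ m ^ n := fun h =>
  hm (Int.prime_three.dvd_of_dvd_pow h)

/-- all symbols are local symbols -/
theorem lsym (hSTM : STM) (hSPP : SPP) (hSLC : SLC) (v : Pl) : ∃ e, LSym (uni v) (sy v) e := by
  cases v with
  | none => exact ⟨4, hSLC⟩
  | some π => exact ⟨1, hSTM π.1 π.2.1 (hSPP.2.2.2.1 π).1⟩

section
variable {π : Eis} {s : Eis → Eis → ZMod 3} {e : ℕ}

theorem s_mul_right (h : LSym π s e) {a b c : Eis} (ha : a ≠ 0) (hb : b ≠ 0) (hc : c ≠ 0) :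
    s c (a * b) = s c a + s c b := by
  rw [h.skew (a * b) c (mul_ne_zero ha hb) hc, h.mul a b c ha hb hc, h.skew a c ha hc,
    h.skew b c hb hc]
  ring

theorem s_cube_right (h : LSym π s e) {a c : Eis} (ha : a ≠ 0) (hc : c ≠ 0) : s c (a ^ 3) = 0 := by
  have h1 : a ^ 3 = a * a * a := by ring
  rw [h1, s_mul_right h (mul_ne_zero ha ha) ha hc, s_mul_right h ha ha hc]
  have h2 : s c a + s c a + s c a = 3 * s c a := by ring
  rw [h2, three_zero, zero_mul]

end

theorem w_ne : w ≠ 0 := by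
  intro h
  have := congrArg Eis.im h
  revert this
  decide

/-! ### Admissible classes -/

theorem adm_mul (hSTM : STM) (hSPP : SPP) {B x y : ℤ} (hB : BOk B) (hx : Adm B x)
    (hy : Adm B y) : Adm B (x * y) where
  ne := mul_ne_zero hx.ne hy.ne
  three := fun h => (Int.prime_three.dvd_or_dvd h).elim hx.three hy.three
  sym := fun π => by
    have hs := hSTM π.1 π.2.1 (hSPP.2.2.2.1 π).1
    push_cast
    rw [hs.mul _ _ _ (cast_ne hx.ne) (cast_ne hy.ne) (cast_ne hB.ne), hx.sym π, hy.sym π, add_zero]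
  unr := fun π h1 h2 => by
    push_cast at h2
    rcases π.2.1.dvd_or_dvd h2 with h | h
    · exact hx.unr π h1 h
    · exact hy.unr π h1 h
  nine := fun h => c9_mul (hx.nine h) (hy.nine h)

theorem adm_one (hSTM : STM) (hSPP : SPP) {B : ℤ} (hB : BOk B) : Adm B 1 where
  ne := one_ne_zero
  three := by decide
  sym := fun π => by
    have hs := hSTM π.1 π.2.1 (hSPP.2.2.2.1 π).1
    have h1 : (1 : Eis) ≠ 0 := one_ne_zero
    have h := hs.mul 1 1 _ h1 h1 (cast_ne hB.ne)
    rw [one_mul] at h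
    push_cast
    have h2 : tm π.1 1 (B : Eis) + 0 = tm π.1 1 (B : Eis) + tm π.1 1 (B : Eis) := by
      rw [add_zero]
      exact h
    exact (add_left_cancel h2).symm
  unr := fun π _ h2 => by
    push_cast at h2
    exact π.2.1.not_unit (isUnit_of_dvd_one h2)
  nine := fun _ => c9_one

theorem adm_pow (hSTM : STM) (hSPP : SPP) {B x : ℤ} (hB : BOk B) (hx : Adm B x) (n : ℕ) :
    Adm B (x ^ n) := by
  induction n with
  | zero =>
    rw [pow_zero]
    exact adm_one hSTM hSPP hB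
  | succ n ih =>
    rw [pow_succ]
    exact adm_mul hSTM hSPP hB ih hx

theorem adm_prod (hSTM : STM) (hSPP : SPP) {B : ℤ} (hB : BOk B) {s : ℕ} {b : Fin s → ℤ}
    (hb : ∀ i, Adm B (b i)) (c : Fin s → ℕ) (t : Finset (Fin s)) :
    Adm B (∏ i ∈ t, b i ^ c i) := by
  classical
  induction t using Finset.induction_on with
  | empty =>
    rw [Finset.prod_empty]
    exact adm_one hSTM hSPP hB
  | insert i t hi ih =>
    rw [Finset.prod_insert hi]
    exact adm_mul hSTM hSPP hB (adm_pow hSTM hSPP hB (hb i) _) ih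

/-! ### The trivial solutions -/

theorem AV_const {v : Pl} {B b p q p' q' : ℤ} (hLC : LC (uni v) b) {c : ZMod 3}
    (h : ∀ r : ℤ, AS (sy v) (B : Eis) p q p' q' r = c) : AV v B b p q p' q' = c := by
  have h1 : ∃ c : ZMod 3, ∃ N0 : ℕ, ∀ r : ℤ, uni v ^ N0 ∣ (r : Eis) ^ 3 - (b : Eis) →
      AS (sy v) (B : Eis) p q p' q' r = c := ⟨c, 0, fun r _ => h r⟩
  unfold AV
  rw [dif_pos h1]
  obtain ⟨N0, hN⟩ := h1.choose_spec
  obtain ⟨r, hr⟩ := hLC N0
  rw [← hN r hr]
  exact h r

theorem AS_zero {s : Eis → Eis → ZMod 3} (B : Eis) (u r : ℤ) : AS s B u 0 1 0 r = 0 := by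
  unfold AS Lf
  simp

theorem OO_cube (hSTM : STM) (hSPP : SPP) (hSLC : SLC) (B b u : ℤ) (hu : u ≠ 0) :
    OO B b (u ^ 3) u 0 1 0 = 0 := by
  unfold OO
  apply finsum_eq_zero_of_forall_eq_zero
  intro v
  have hs : sy v w ((u ^ 3 : ℤ) : Eis) = 0 := by
    obtain ⟨e, he⟩ := lsym hSTM hSPP hSLC v
    push_cast
    exact s_cube_right he (cast_ne hu) w_ne
  unfold TT
  split_ifs with h1
  · rw [AV_const h1 (fun r => AS_zero _ u r), hs, add_zero]
  · cases v with
    | none => rfl
    | some π =>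
      simp only
      split_ifs
      · have : tm π.1 w ((u ^ 3 : ℤ) : Eis) = 0 := hs
        rw [this, neg_zero]
      · rfl

theorem solW_cube (b u : ℤ) (hu : u ≠ 0) : SolW b (u ^ 3) u 0 1 0 where
  eq := by ring
  n1 := by
    have := pow_ne_zero 3 hu
    simpa using this

theorem solW_self (b : ℤ) (hb : b ≠ 0) : SolW b b 0 1 1 0 where
  eq := by ring
  n1 := by simpa using hb

/-- powers -/
theorem POW (hTADD : TADD) (hSTM : STM) (hSPP : SPP) (hSLC : SLC) {B b x p q p' q' : ℤ}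
    (hB : BOk B) (hb : Adm B b) (hx : Adm B x) (hc : ¬ ∃ c : ℤ, c ^ 3 = b)
    (hS : SolW b x p q p' q') (n : ℕ) :
    ∃ P Q P' Q' : ℤ, SolW b (x ^ n) P Q P' Q' ∧
      OO B b (x ^ n) P Q P' Q' = n * OO B b x p q p' q' := by
  induction n with
  | zero =>
    refine ⟨1, 0, 1, 0, ?_, ?_⟩
    · have := solW_cube b 1 one_ne_zero
      simpa using this
    · have := OO_cube hSTM hSPP hSLC B b 1 one_ne_zero
      simpa using this
  | succ n ih =>
    obtain ⟨P, Q, P', Q', h1, h2⟩ := ih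
    obtain ⟨P₁, Q₁, P₁', Q₁', h3, h4⟩ := hTADD b (x ^ n) x P Q P' Q' p q p' q' hc hb.ne
      (pow_ne_zero n hx.ne) hx.ne h1 hS
    refine ⟨P₁, Q₁, P₁', Q₁', ?_, ?_⟩
    · rw [pow_succ]
      exact h3
    · rw [pow_succ, h4 B hB hb (adm_pow hSTM hSPP hB hx n) hx, h2]
      push_cast
      ring

/-- an integer that is the cube of a rational number is a cube -/
theorem rcube {x m n : ℤ} (hn : n ≠ 0) (h : m ^ 3 = x * n ^ 3) : ∃ t : ℤ, t ^ 3 = x := by
  have h1 : n ^ 3 ∣ m ^ 3 := ⟨x, by rw [h]; ring⟩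
  obtain ⟨t, rfl⟩ := (Int.pow_dvd_pow_iff (by norm_num)).1 h1
  refine ⟨t, ?_⟩
  have h2 : n ^ 3 * t ^ 3 = n ^ 3 * x := by
    rw [← mul_pow, h]
    ring
  exact mul_left_cancel₀ (pow_ne_zero 3 hn) h2

theorem sol_of {b x p q p' q' : ℤ} (hb : b ≠ 0) (hx : x ≠ 0) (hc : ¬ ∃ c : ℤ, c ^ 3 = x)
    (h : SolW b x p q p' q') : Sol b x p q p' q' := by
  refine { toSolW := h, n2 := fun h2 => ?_ }
  by_cases hp : p' = 0
  · subst hp
    have hp0 : p = 0 := by
      have : p ^ 3 = 0 := by linarith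
      exact pow_eq_zero_iff (by norm_num) |>.1 this
    subst hp0
    have h3 := h.eq
    have h4 := h.n1
    have h5 : b * q ^ 3 = b * (x * q' ^ 3) := by linarith
    have h6 : q ^ 3 = x * q' ^ 3 := mul_left_cancel₀ hb h5
    by_cases hq : q' = 0
    · subst hq
      apply h4
      have : q ^ 3 = 0 := by rw [h6]; ring
      rw [this]
      ring
    · exact hc (rcube hq h6)
  · exact hc (rcube (m := p) hp (by linarith))

end TEND

open TEND in
/-- the matrix is alternating and the class of a point is in its kernel -/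
theorem TEND_thm (hTC : TC) (hTA : TA) (hTADD : TADD) (hTTH : TTH) (hSTM : STM) (hSPP : SPP)
    (hSSL : SSL) (hSLC : SLC) (hLCI : LCI) (hAVV : AVV) (hLFIN : LFIN) : TEND := by
  classical
  intro s b p q p' q' B hSys hB hAdm
  have hanti : ∀ i j, Mat b p q p' q' B i j = - Mat b p q p' q' B j i := by
    intro i j
    by_cases hij : i = j
    · subst hij
      simp [Mat]
    · have hji : j ≠ i := fun h => hij h.symm
      obtain ⟨h1, h2, h3, h4⟩ := hSys.sw j i hji
      have h5 := hTA B (b j) (b i) (p j i) (q j i) (p' j i) (q' j i) hB (hAdm j) (hAdm i)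
        (hSys.sol j i hji) (hSys.c9 j i hji)
      unfold Mat
      rw [if_neg hij, if_neg hji, h1, h2, h3, h4]
      exact eq_neg_of_add_eq_zero_right h5
  refine ⟨hanti, fun c X Y hc hPt => ?_⟩
  have hAx : Adm B (∏ i, b i ^ c i) := adm_prod hSTM hSPP hB hAdm c Finset.univ
  have hxc : ¬ ∃ t : ℤ, t ^ 3 = ∏ i, b i ^ c i := hSys.ind c hc
  have hbc : ∀ j, ¬ ∃ t : ℤ, t ^ 3 = b j := by
    intro j
    have h1 := hSys.ind (fun i => if i = j then 1 else 0) ⟨j, by simp⟩
    have h2 : ∏ i, b i ^ (if i = j then 1 else 0) = b j := by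
      rw [Finset.prod_eq_single j]
      · simp
      · intro i _ hij
        simp [hij]
      · intro h
        exact absurd (Finset.mem_univ _) h
    rw [h2] at h1
    exact h1
  -- the class of the point is a norm, with the expected value of the pairing
  have key : ∀ j, (C9 (b j) ∨ 3 ∣ c j) → ∀ t : Finset (Fin s), ∃ P Q P' Q' : ℤ,
      SolW (b j) (∏ i ∈ t, b i ^ c i) P Q P' Q' ∧
      OO B (b j) (∏ i ∈ t, b i ^ c i) P Q P' Q' =
        ∑ i ∈ t, Mat b p q p' q' B j i * (c i : ZMod 3) := by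
    intro j hj t
    -- one factor
    have one : ∀ i, ∃ P Q P' Q' : ℤ, SolW (b j) (b i ^ c i) P Q P' Q' ∧
        OO B (b j) (b i ^ c i) P Q P' Q' = Mat b p q p' q' B j i * (c i : ZMod 3) := by
      intro i
      by_cases hij : i = j
      · subst hij
        have hM : Mat b p q p' q' B i i = 0 := by simp [Mat]
        rw [hM, zero_mul]
        rcases hj with hj | ⟨k, hk⟩
        · obtain ⟨P, Q, P', Q', h1, h2⟩ := POW hTADD hSTM hSPP hSLC hB (hAdm i) (hAdm i) (hbc i)
            (solW_self (b i) (hAdm i).ne) (c i)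
          refine ⟨P, Q, P', Q', h1, ?_⟩
          rw [h2, hTTH B (b i) hB (hAdm i) hj, mul_zero]
        · have h1 : b i ^ c i = (b i ^ k) ^ 3 := by
            rw [hk, ← pow_mul, mul_comm]
          rw [h1]
          exact ⟨b i ^ k, 0, 1, 0, solW_cube _ _ (pow_ne_zero _ (hAdm i).ne),
            OO_cube hSTM hSPP hSLC _ _ _ (pow_ne_zero _ (hAdm i).ne)⟩
      · have hji : j ≠ i := fun h => hij h.symm
        obtain ⟨P, Q, P', Q', h1, h2⟩ := POW hTADD hSTM hSPP hSLC hB (hAdm j) (hAdm i) (hbc j)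
          (hSys.sol j i hji).toSolW (c i)
        refine ⟨P, Q, P', Q', h1, ?_⟩
        rw [h2]
        unfold Mat
        rw [if_neg hji, mul_comm]
    induction t using Finset.induction_on with
    | empty =>
      refine ⟨1, 0, 1, 0, ?_, ?_⟩
      · have := solW_cube (b j) 1 one_ne_zero
        simpa using this
      · have := OO_cube hSTM hSPP hSLC B (b j) 1 one_ne_zero
        simpa using this
    | insert i t hi ih =>
      obtain ⟨P, Q, P', Q', h1, h2⟩ := ih
      obtain ⟨P₁, Q₁, P₁', Q₁', h3, h4⟩ := one i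
      obtain ⟨P₂, Q₂, P₂', Q₂', h5, h6⟩ := hTADD (b j) (b i ^ c i) (∏ i ∈ t, b i ^ c i)
        P₁ Q₁ P₁' Q₁' P Q P' Q' (hbc j) (hAdm j).ne (pow_ne_zero _ (hAdm i).ne)
        (adm_prod hSTM hSPP hB hAdm c t).ne h3 h1
      rw [Finset.prod_insert hi, Finset.sum_insert hi]
      refine ⟨P₂, Q₂, P₂', Q₂', h5, ?_⟩
      rw [h6 B hB (hAdm j) (adm_pow hSTM hSPP hB (hAdm i) _) (adm_prod hSTM hSPP hB hAdm c t),
        h2, h4]
  -- rows to which `TC` applies
  have good : ∀ j, (C9 (b j) ∨ 3 ∣ c j) → (C9 (b j) ∨ C9 (∏ i, b i ^ c i)) →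
      ∑ i, Mat b p q p' q' B j i * (c i : ZMod 3) = 0 := by
    intro j h1 h2
    obtain ⟨P, Q, P', Q', h3, h4⟩ := key j h1 Finset.univ
    rw [← h4]
    exact hTC B (b j) _ P Q P' Q' X Y hB (hAdm j) hAx (sol_of (hAdm j).ne hAx.ne hxc h3) hPt h2
  intro j
  by_cases hj : C9 (b j)
  · exact good j (Or.inl hj) (Or.inl hj)
  have hoth : ∀ i, i ≠ j → C9 (b i) := fun i hi => (hSys.c9 i j hi).resolve_right hj
  by_cases hcj : 3 ∣ c j
  · refine good j (Or.inr hcj) (Or.inr ?_)
    have : ∀ t : Finset (Fin s), C9 (∏ i ∈ t, b i ^ c i) := by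
      intro t
      induction t using Finset.induction_on with
      | empty => simpa using c9_one
      | insert i t hi ih =>
        rw [Finset.prod_insert hi]
        refine c9_mul ?_ ih
        by_cases hij : i = j
        · subst hij
          obtain ⟨k, hk⟩ := hcj
          rw [hk, mul_comm 3 k, pow_mul]
          exact c9_cube (three_pow (hAdm i).three k)
        · exact c9_pow (hoth i hij) _
    exact this Finset.univ
  · have hrow : ∀ i, i ≠ j → ∑ k, Mat b p q p' q' B i k * (c k : ZMod 3) = 0 := fun i hi =>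
      good i (Or.inl (hoth i hi)) (Or.inl (hoth i hi))
    set M := Mat b p q p' q' B with hM
    have h1 : ∑ i, (c i : ZMod 3) * ∑ k, M i k * (c k : ZMod 3) =
        (c j : ZMod 3) * ∑ k, M j k * (c k : ZMod 3) := by
      rw [Finset.sum_eq_single j]
      · intro i _ hi
        rw [hrow i hi, mul_zero]
      · intro h
        exact absurd (Finset.mem_univ _) h
    have h2 : ∑ i, (c i : ZMod 3) * ∑ k, M i k * (c k : ZMod 3) =
        - ∑ i, (c i : ZMod 3) * ∑ k, M i k * (c k : ZMod 3) := by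
      conv_lhs =>
        simp only [Finset.mul_sum]
        rw [Finset.sum_comm]
      rw [← Finset.sum_neg_distrib]
      apply Finset.sum_congr rfl
      intro i _
      rw [Finset.mul_sum, ← Finset.sum_neg_distrib]
      apply Finset.sum_congr rfl
      intro k _
      rw [hanti k i]
      ring
    have h3 : ∑ i, (c i : ZMod 3) * ∑ k, M i k * (c k : ZMod 3) = 0 := by
      generalize ∑ i, (c i : ZMod 3) * ∑ k, M i k * (c k : ZMod 3) = z at h2
      revert h2
      revert z
      decide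
    rw [h1] at h3
    rcases mul_eq_zero.1 h3 with h | h
    · exact absurd ((ZMod.natCast_eq_zero_iff _ _).1 h) hcj
    · exact h

end Pool.Agent.PT
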