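import Pool.Agent.PT.Stmts1

/-!
# TTH: `O_B(b, b^(1/3)) = 0`
-/

namespace Pool.Agent.PT

open Pool.Agent.Lib_helper18 Pool.Agent.Lib_helper18.Eis Pool.Agent.Lib_helper84.Cub

namespace TTH

theorem cast_ne {n : ℤ} (hn : n ≠ 0) : (n : Eis) ≠ 0 := by
  intro h
  have h1 := congrArg Eis.re h
  rw [intCast_re] at h1
  exact hn h1

theorem w_ne : (w : Eis) ≠ 0 := by
  intro h
  have h1 := w_cube
  rw [h] at h1
  revert h1
  decide

theorem LSym.one_right {π : Eis} {s : Eis → Eis → ZMod 3} {e : ℕ} (hs : LSym π s e) {a : Eis}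
    (ha : a ≠ 0) : s a 1 = 0 := by
  have h1 := hs.mul 1 1 a one_ne_zero one_ne_zero ha
  have h2 := hs.skew 1 a one_ne_zero ha
  rw [one_mul] at h1
  have h3 : s 1 a = 0 := by linear_combination -h1
  rw [h2, h3, neg_zero]

theorem LSym.mul_right {π : Eis} {s : Eis → Eis → ZMod 3} {e : ℕ} (hs : LSym π s e) {a b c : Eis}
    (ha : a ≠ 0) (hb : b ≠ 0) (hc : c ≠ 0) : s a (b * c) = s a b + s a c := by
  have h1 := hs.mul b c a hb hc ha
  have h2 := hs.skew (b * c) a (mul_ne_zero hb hc) ha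
  have h3 := hs.skew b a hb ha
  have h4 := hs.skew c a hc ha
  rw [h2, h1, h3, h4]
  ring

theorem AS_val {π : Eis} {s : Eis → Eis → ZMod 3} {e : ℕ} (hs : LSym π s e) {B : Eis}
    (hB : B ≠ 0) {r : ℤ} (hr : (r : Eis) ≠ 0) : AS s B 0 1 1 0 r = - s w B := by
  have e1 : Lf 0 1 2 r = w * (w * (r : Eis)) := by
    unfold Lf
    push_cast
    ring
  have e2 : Lf 1 0 1 r = 1 := by
    unfold Lf
    push_cast
    ring
  have e3 : Lf 0 1 1 r = w * (r : Eis) := by
    unfold Lf
    push_cast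
    ring
  have e4 : Lf 1 0 2 r = 1 := by
    unfold Lf
    push_cast
    ring
  unfold AS
  rw [e1, e2, e3, e4, LSym.mul_right hs hB w_ne (mul_ne_zero w_ne hr), hs.skew w B w_ne hB]
  ring

theorem key3 : ∀ a b c : ZMod 3, (a + b = 0 → -(a * c) = a * c - b * c) := by decide

theorem key3' : ∀ a b c : ZMod 3, (a ≠ 0 → b ≠ 0 → a + b ≠ 0 → 0 = a * c - b * c) := by decide

theorem cast3 (n : ℕ) : (n : ZMod 3) = 0 ↔ 3 ∣ n := ZMod.natCast_eq_zero_iff n 3

theorem local_eq (hSTM : STM) (hSPP : SPP) (hSLC : SLC) (hLCI : LCI) (hAVV : AVV) {B b : ℤ}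
    (hB : BOk B) (hb : Adm B b) (h9 : C9 b) (v : Pl) :
    TT v B b b 0 1 1 0 = sy v w (b : Eis) - sy v w (B : Eis) := by
  have hB0 : (B : Eis) ≠ 0 := cast_ne hB.ne
  have hb0 : (b : Eis) ≠ 0 := cast_ne hb.ne
  have hsym : ∃ e, LSym (uni v) (sy v) e := by
    cases v with
    | none => exact ⟨4, hSLC⟩
    | some π => exact ⟨1, hSTM π.1 π.2.1 (hSPP.2.2.2.1 π).1⟩
  obtain ⟨e, hs⟩ := hsym
  by_cases hLC : LC (uni v) b
  · have hBb : sy v (B : Eis) (b : Eis) = 0 := by
      rw [hs.skew _ _ hb0 hB0]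
      cases v with
      | none =>
        change - sl (b : Eis) (B : Eis) = 0
        unfold sl
        have h0 : (fun π : PP => tm π.1 (b : Eis) (B : Eis)) = fun _ => 0 := by
          funext π
          exact hb.sym π
        rw [h0, finsum_zero, neg_zero, neg_zero]
      | some π =>
        change - tm π.1 (b : Eis) (B : Eis) = 0
        rw [hb.sym π, neg_zero]
    have hSol : SolW b b 0 1 1 0 := ⟨by ring, by simpa using hb.ne⟩
    have hAV := (hAVV v B b b 0 1 1 0 hB.ne hb.ne hb.ne hSol hBb hLC).2 (- sy v w (B : Eis))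
      (V (uni v) (b : Eis) + 1) (by
        intro r hr
        refine AS_val hs hB0 ?_
        intro hr0
        rw [hr0, zero_pow three_ne_zero, zero_sub, dvd_neg] at hr
        exact (fin hs.prime hb0).not_pow_dvd_of_multiplicity_lt (Nat.lt_succ_self _) hr)
    have hwb : sy v w (b : Eis) = 0 := by
      have h1 := hLCI.2.2 (uni v) (sy v) e b w hs hLC hb.ne w_ne
      rw [hs.skew _ _ hb0 w_ne, h1, neg_zero]
    unfold TT
    rw [if_pos hLC, hAV, hwb]
    ring
  · cases v with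
    | none => exact absurd ((hLCI.2.1 b hb.three).mpr h9) hLC
    | some π =>
      have hVw : V π.1 w = 0 := by
        rw [V_eq_zero_iff]
        intro h
        have h1 : π.1 ∣ w ^ 3 := dvd_pow h three_ne_zero
        rw [w_cube] at h1
        exact π.2.1.not_isUnit (isUnit_of_dvd_one h1)
      have ht : ∀ x : Eis, tm π.1 w x = (V π.1 x : ZMod 3) * ch π.1 w := by
        intro x
        unfold tm
        rw [hVw]
        push_cast
        ring
      unfold TT
      rw [if_neg hLC]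
      change (if 3 ∣ V π.1 (b : Eis) + V π.1 (B : Eis) ∧ ¬ 3 ∣ V π.1 (b : Eis)
        then - tm π.1 w (b : Eis) else 0) = tm π.1 w (b : Eis) - tm π.1 w (B : Eis)
      rw [ht, ht]
      by_cases hd : π.1 ∣ (B : Eis)
      · have hV1 : V π.1 (B : Eis) ≠ 0 := by
          intro h
          exact (V_eq_zero_iff.mp h) hd
        have hV2 := hB.cf π
        have hVB : ¬ 3 ∣ V π.1 (B : Eis) := by omega
        have hVb : ¬ 3 ∣ V π.1 (b : Eis) := by
          intro h3
          apply hLC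
          refine (hLCI.1 π b hb.ne).mpr ⟨h3, ?_⟩
          have h4 := hb.sym π
          unfold tm at h4
          rw [(cast3 _).mpr h3, zero_mul, sub_zero] at h4
          rcases mul_eq_zero.mp h4 with h5 | h5
          · exact absurd ((cast3 _).mp h5) hVB
          · exact h5
        by_cases h6 : 3 ∣ V π.1 (b : Eis) + V π.1 (B : Eis)
        · rw [if_pos ⟨h6, hVb⟩]
          refine key3 _ _ _ ?_
          rw [← Nat.cast_add]
          exact (cast3 _).mpr h6
        · rw [if_neg (fun h => h6 h.1)]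
          refine key3' _ _ _ ?_ ?_ ?_
          · exact fun h => hVb ((cast3 _).mp h)
          · exact fun h => hVB ((cast3 _).mp h)
          · rw [← Nat.cast_add]
            exact fun h => h6 ((cast3 _).mp h)
      · have h1 : V π.1 (B : Eis) = 0 := V_eq_zero hd
        have h2 : V π.1 (b : Eis) = 0 := V_eq_zero (hb.unr π hd)
        rw [h1, h2, if_neg (fun h => h.2 (dvd_zero _))]
        push_cast
        ring

end TTH

/-- TTH. -/
theorem TTH_thm (hSTM : STM) (hSPP : SPP) (hSSL : SSL) (hSLC : SLC) (hSCJ : SCJ) (hLCI : LCI)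
    (hAVV : AVV) (hLFIN : LFIN) : TTH := by
  intro B b hB hb h9
  have hB0 : (B : Eis) ≠ 0 := TTH.cast_ne hB.ne
  have hb0 : (b : Eis) ≠ 0 := TTH.cast_ne hb.ne
  unfold OO
  have h1 : (fun v : Pl => TT v B b b 0 1 1 0) =
      fun v => sy v w (b : Eis) - sy v w (B : Eis) := by
    funext v
    exact TTH.local_eq hSTM hSPP hSLC hLCI hAVV hB hb h9 v
  rw [h1, finsum_sub_distrib (hSSL.2.2.2 w b TTH.w_ne hb0).1 (hSSL.2.2.2 w B TTH.w_ne hB0).1,
    (hSSL.2.2.2 w b TTH.w_ne hb0).2, (hSSL.2.2.2 w B TTH.w_ne hB0).2, sub_zero]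

end Pool.Agent.PT
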