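import Pool.Agent.PT.AVV
import Pool.Agent.PT.CLSC
import Pool.Agent.PT.DCNT
import Pool.Agent.PT.DCONST
import Pool.Agent.PT.DENS
import Pool.Agent.PT.DIR
import Pool.Agent.PT.EADM
import Pool.Agent.PT.EBAS
import Pool.Agent.PT.ECL
import Pool.Agent.PT.EDET
import Pool.Agent.PT.EHYP
import Pool.Agent.PT.EMAT
import Pool.Agent.PT.ENF
import Pool.Agent.PT.ESYS
import Pool.Agent.PT.EVEC
import Pool.Agent.PT.F2B
import Pool.Agent.PT.F3R
import Pool.Agent.PT.F3U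
import Pool.Agent.PT.F5L
import Pool.Agent.PT.F6R
import Pool.Agent.PT.F7U
import Pool.Agent.PT.FD1
import Pool.Agent.PT.FD2
import Pool.Agent.PT.FDA
import Pool.Agent.PT.FDC
import Pool.Agent.PT.FDK
import Pool.Agent.PT.FINA
import Pool.Agent.PT.GALD
import Pool.Agent.PT.GC
import Pool.Agent.PT.GCHI
import Pool.Agent.PT.GFR
import Pool.Agent.PT.GKI
import Pool.Agent.PT.GT
import Pool.Agent.PT.GZERO
import Pool.Agent.PT.HERBQ
import Pool.Agent.PT.HN
import Pool.Agent.PT.IF1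
import Pool.Agent.PT.IF2
import Pool.Agent.PT.IF4
import Pool.Agent.PT.IF4B
import Pool.Agent.PT.KUM
import Pool.Agent.PT.LAM
import Pool.Agent.PT.LCI
import Pool.Agent.PT.LEV
import Pool.Agent.PT.LFIN
import Pool.Agent.PT.MAINT
import Pool.Agent.PT.NAUX
import Pool.Agent.PT.NCNT
import Pool.Agent.PT.NDESC
import Pool.Agent.PT.NFIX
import Pool.Agent.PT.NFLD
import Pool.Agent.PT.NGEN
import Pool.Agent.PT.NHN
import Pool.Agent.PT.NHO
import Pool.Agent.PT.NMAIN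
import Pool.Agent.PT.NNS
import Pool.Agent.PT.NRK
import Pool.Agent.PT.NTR
import Pool.Agent.PT.ROOT
import Pool.Agent.PT.SCJ
import Pool.Agent.PT.SING
import Pool.Agent.PT.SLC
import Pool.Agent.PT.SLE
import Pool.Agent.PT.SPP
import Pool.Agent.PT.SREC
import Pool.Agent.PT.SSL
import Pool.Agent.PT.STAR
import Pool.Agent.PT.STM
import Pool.Agent.PT.SUN
import Pool.Agent.PT.TADD
import Pool.Agent.PT.TCA
import Pool.Agent.PT.TEND
import Pool.Agent.PT.TTH

/-!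
# Prime twists of rank zero: assembly
-/

namespace Pool.Agent.PT.Final

open Pool.Agent.PT

theorem fSPP : SPP := SPP_thm

theorem fENF : ENF := ENF_thm fSPP

theorem fEDET : EDET := EDET_thm

theorem fEMAT : EMAT := EMAT_thm fEDET

theorem fSTM : STM := STM_thm

theorem fSSL : SSL := SSL_thm fSTM fSPP

theorem fSREC : SREC := SREC_thm fSTM fSPP fSSL

theorem fSCJ : SCJ := SCJ_thm fSTM fSPP fSSL

theorem fEHYP : EHYP := EHYP_thm fSTM fSPP fSSL fSREC fSCJ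

theorem fEVEC : EVEC := EVEC_thm fSTM fSPP

theorem fEBAS : EBAS := EBAS_thm fEVEC fSPP

theorem fEADM : EADM := EADM_thm fSTM fSPP fSCJ

theorem fNFLD : NFLD := NFLD_thm

theorem fSLC : SLC := SLC_thm fSSL fSREC

theorem fLCI : LCI := LCI_thm fSTM fSPP fSLC

theorem fHERBQ : HERBQ := HERBQ_thm

theorem fSUN : SUN := SUN_thm

theorem fNRK : NRK := NRK_thm

theorem fNHN : NHN := NHN_thm

theorem fNTR : NTR := NTR_thm fSPP fNHN

theorem fNCNT : NCNT := NCNT_thm fSPP fLCI fNHN fNTR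

theorem fNFIX : NFIX := NFIX_thm fSPP fNHN fNTR

theorem fNHO : NHO := NHO_thm fSPP fNHN fNTR

theorem fNNS : NNS := NNS_thm

theorem fKUM : KUM := KUM_thm

theorem fNAUX : NAUX := NAUX_thm fSPP fKUM

theorem fNGEN : NGEN := NGEN_thm fSTM fSPP fSSL fSREC fLCI fNAUX

theorem fNMAIN : NMAIN := NMAIN_thm fSTM fSPP fSSL fSLC fLCI fHERBQ fSUN fNRK fNHN fNTR fNCNT fNFIX fNHO fNNS fNGEN

theorem fNDESC : NDESC := NDESC_thm

theorem fHN : HN := HN_thm fNFLD fNMAIN fNDESC fSTM fSPP fLCI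

theorem fESYS : ESYS := ESYS_thm fSTM fSPP fSCJ fHN

theorem fSTAR : STAR := STAR_thm

theorem fFDK : FDK := FDK_thm fSTM fSPP fSTAR

theorem fFDA : FDA := FDA_thm

theorem fFDC : FDC := FDC_thm

theorem fFD1 : FD1 := FD1_thm fFDK fFDA fFDC

theorem fFD2 : FD2 := FD2_thm fSTM fSPP

theorem fIF1 : IF1 := IF1_thm

theorem fIF2 : IF2 := IF2_thm fSTAR

theorem fIF4 : IF4 := IF4_thm fSTAR

theorem fIF4B : IF4B := IF4B_thm fSTAR

theorem fROOT : ROOT := ROOT_thm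

theorem fAVV : AVV := AVV_thm fSTM fSPP fSLC fROOT

theorem fF2B : F2B := F2B_thm fSTM fSPP fSLC fLCI fSCJ fSREC fSSL fIF2

theorem fF6R : F6R := F6R_thm fSTM

theorem fF7U : F7U := F7U_thm fSTM

theorem fSLE : SLE := SLE_thm fSSL fSREC

theorem fF5L : F5L := F5L_thm fSLE fSCJ fSSL

theorem fF3R : F3R := F3R_thm fSTM

theorem fF3U : F3U := F3U_thm fSTM

theorem fLEV : LEV := LEV_thm fSTM fSPP fSSL fSLC fSREC fSCJ fLCI fIF1 fIF2 fIF4 fIF4B fAVV fF2B fF6R fF7U fF5L fF3R fF3U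

theorem fLFIN : LFIN := LFIN_thm fSTM fSPP fSSL fSLC fLCI fAVV

theorem fTC : TC := TC_thm fLEV fLFIN

theorem fLAM : LAM := LAM_thm fSTM fSPP fSSL fSLC fSREC fSCJ fLCI fIF1 fAVV fF2B fF3R fF3U

theorem fTA : TA := TA_thm fLAM fLFIN

theorem fTADD : TADD := TADD_thm fSTM fSPP fSSL fSLC fSCJ fLCI fAVV fLFIN

theorem fTTH : TTH := TTH_thm fSTM fSPP fSSL fSLC fSCJ fLCI fAVV fLFIN

theorem fTEND : TEND := TEND_thm fTC fTA fTADD fTTH fSTM fSPP fSSL fSLC fLCI fAVV fLFIN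

theorem fECL : ECL := ECL_thm fEMAT fEHYP fEBAS fEADM fESYS fFD1 fFD2 fTEND

theorem fDCONST : DCONST := DCONST_thm fSTM fSPP fSSL fSLC fSCJ fLCI fAVV fLFIN

theorem fCLSC : CLSC := CLSC_thm fSPP

theorem fGZERO : GZERO := GZERO_thm

theorem fGCHI : GCHI := GCHI_thm

theorem fGT : GT := GT_thm

theorem fGKI : GKI := GKI_thm

theorem fGC : GC := GC_thm fKUM fGKI

theorem fGFR : GFR := GFR_thm

theorem fGALD : GALD := GALD_thm fGZERO fGCHI fGT fGC fGFR

theorem fSING : SING := SING_thm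

theorem fDCNT : DCNT := DCNT_thm fSING

theorem fDIR : DIR := DIR_thm

theorem fDENS : DENS := DENS_thm fGALD fDCNT fDIR

theorem fFINA : FINA := FINA_thm fSPP fECL fDCONST fCLSC fDENS fTEND

theorem fMAINT : MAINT := MAINT_thm fENF fFINA

end Pool.Agent.PT.Final
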