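import Pool.Agent.PT.Final
import Pool.Agent.PT.ALTK
import Pool.Agent.PT.BDENS
import Pool.Agent.PT.BFINA
import Pool.Agent.PT.BKER
import Pool.Agent.PT.BSYS
import Pool.Agent.PT.EQD
import Pool.Agent.PT.FDX

/-!
# Prime twists: assembly of theorem B
-/

namespace Pool.Agent.PT.FinalB

open Pool.Agent.PT Pool.Agent.PT.Final

theorem fBSYS : BSYS := BSYS_thm fEVEC fESYS fSPP

theorem fFDX : FDX := FDX_thm fSTM fSPP

theorem fBKER : BKER := BKER_thm fEADM fFDX fTEND fSPP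

theorem fALTK : ALTK := ALTK_thm

theorem fEQD : EQD := EQD_thm

theorem fBDENS : BDENS := BDENS_thm fGALD fALTK fEQD fDIR

theorem fBFIN : BFIN := BFIN_thm fSPP fBSYS fDCONST fCLSC fBKER fBDENS fTEND fEADM

/-- The groups are finitely generated. -/
theorem fin_gen {k : ℕ} (hk : 1 ≤ k) {p e : Fin k → ℕ} (hp : ∀ i, (p i).Prime)
    (h3 : ∀ i, p i % 3 = 2) (hinj : Function.Injective p) (he : ∀ i, e i = 1 ∨ e i = 2)
    {q : ℕ} (hq : q.Prime) (hq3 : q % 3 = 2) (h9 : q % 9 ≠ 8 ∨ ∃ i, p i % 9 ≠ 8)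
    (hne : ∀ i, p i ≠ q) :
    CubeRank.GenBy ((∏ i, (p i : ℤ) ^ e i) * q)
      (CubeRank.rr ((∏ i, (p i : ℤ) ^ e i) * q)) := by
  have h := CubeRank.gen_no (q := (Fin.cons q p : Fin (k + 1) → ℕ))
    (fun i => Fin.cases (by simpa using hq) (fun i => by simpa using hp i) i)
    (fun i => Fin.cases (by simpa using hq3) (fun i => by simpa using h3 i) i)
    (by
      rw [Fin.cons_injective_iff]
      exact ⟨fun ⟨i, hi⟩ => hne i hi, hinj⟩)
    (by
      rcases h9 with h9 | ⟨i, h9⟩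
      · exact ⟨0, by simpa using h9⟩
      · exact ⟨i.succ, by simpa using h9⟩)
    (by omega) (e := (Fin.cons 1 e : Fin (k + 1) → ℕ))
    (fun i => Fin.cases (by simp) (fun i => by simpa using he i) i)
  rw [Fin.prod_univ_succ] at h
  simp only [Fin.cons_zero, Fin.cons_succ, pow_one] at h
  rw [mul_comm] at h
  exact CubeRank.gen_rr h

end Pool.Agent.PT.FinalB
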