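import Pool.Agent.PT.Defs

/-!
# Prime twists of rank zero: statements, part 1 (symbols, identities, local and global theorem)
-/

namespace Pool.Agent.PT

open Pool.Agent.Lib_helper18 Pool.Agent.Lib_helper18.Eis Pool.Agent.Lib_helper84.Cub

/-! ### Symbols -/

/-- STM: the tame symbols. -/
def STM : Prop := ∀ π : Eis, Prime π → ¬ π ∣ 3 → LSym π (tm π) 1

/-- SPP: the set `PP`. -/
def SPP : Prop :=
  (∀ l : Eis, Prime l → ¬ l ∣ 3 → ∃ π : PP, Associated l π.1) ∧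
  (∀ π π' : PP, Associated π.1 π'.1 → π = π') ∧
  (∀ a : Eis, a ≠ 0 → {π : PP | π.1 ∣ a}.Finite) ∧
  (∀ π : PP, ¬ π.1 ∣ 3 ∧ ∃ π' : PP, π'.1 = conj π.1) ∧
  (∀ q : ℕ, q.Prime → q % 3 = 2 → ∃ π : PP, π.1 = (q : Eis)) ∧
  (∀ π : PP, ∃ p : ℕ, p.Prime ∧ ((p % 3 = 2 ∧ π.1 = (p : Eis)) ∨
    (p % 3 = 1 ∧ π.1.norm = p ∧ (p : Eis) = π.1 * conj π.1 ∧ ¬ Associated π.1 (conj π.1))))

/-- SSL: the symbol `sl` and the product formula. -/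
def SSL : Prop :=
  (∀ a b c : Eis, a ≠ 0 → b ≠ 0 → c ≠ 0 → sl (a * b) c = sl a c + sl b c) ∧
  (∀ a b : Eis, a ≠ 0 → b ≠ 0 → sl b a = - sl a b) ∧
  (∀ a b c : Eis, a ≠ 0 → b ≠ 0 → c ≠ 0 → a + b + c = 0 → sl a b + sl b c + sl c a = 0) ∧
  (∀ a b : Eis, a ≠ 0 → b ≠ 0 → (Function.support fun v : Pl => sy v a b).Finite ∧
    ∑ᶠ v : Pl, sy v a b = 0)

/-- SREC: cubic reciprocity for primary elements and the supplementary laws. -/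
def SREC : Prop :=
  (∀ c d : Eis, Prim c → Prim d → sl c d = 0) ∧
  (∀ c : Eis, Prim c → sl c w = wt c.norm) ∧
  (∀ c : Eis, Prim c → sl c lam = 2 * wt (c.re ^ 2)) ∧
  sl w lam = 0

/-- SLC: `sl` is a symbol at `lam` with exponent `4`. -/
def SLC : Prop := LSym lam sl 4

/-- SCJ: complex conjugation. -/
def SCJ : Prop :=
  (∀ π a b : Eis, Prime π → ¬ π ∣ 3 → a ≠ 0 → b ≠ 0 →
    tm (conj π) (conj a) (conj b) = - tm π a b) ∧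
  (∀ a b : Eis, a ≠ 0 → b ≠ 0 → sl (conj a) (conj b) = - sl a b) ∧
  (∀ m n : ℤ, m ≠ 0 → n ≠ 0 → sl m n = 0) ∧
  (∀ q : ℕ, q.Prime → q % 3 = 2 → ∀ m n : ℤ, m ≠ 0 → n ≠ 0 → tm (q : Eis) m n = 0)

/-- LCI: rational local cubes. -/
def LCI : Prop :=
  (∀ (π : PP) (b : ℤ), b ≠ 0 → (LC π.1 b ↔ 3 ∣ V π.1 (b : Eis) ∧ ch π.1 (b : Eis) = 0)) ∧
  (∀ b : ℤ, ¬ (3 : ℤ) ∣ b → (LC lam b ↔ C9 b)) ∧
  (∀ (π : Eis) (s : Eis → Eis → ZMod 3) (e : ℕ) (b : ℤ) (a : Eis), LSym π s e → LC π b →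
    b ≠ 0 → a ≠ 0 → s (b : Eis) a = 0)

/-! ### Identities -/

/-- STAR: the identity of symbols of linear forms `F_i = X + w^i ξ Y`, `G_i = u + w^i ξ v`,
`D_i = X v - w^i u Y`. -/
def STAR : Prop := ∀ (π : Eis) (s : Eis → Eis → ZMod 3) (e : ℕ), LSym π s e →
  ∀ (X Y u v ξ : Eis) (F G D : ℕ → Eis), (∀ i, F i = X + w ^ i * ξ * Y) →
    (∀ i, G i = u + w ^ i * ξ * v) → (∀ i, D i = X * v - w ^ i * u * Y) → ξ ≠ 0 →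
    (∀ i, F i ≠ 0) →
    s (F 1) (F 0 * F 1 * F 2) - s (F 2) (F 0 * F 1 * F 2) = s w (F 0 * F 1 * F 2) ∧
    ((∀ i, G i ≠ 0) → D 1 ≠ 0 → D 2 ≠ 0 →
      s (D 1) (G 0 * G 1 * G 2) - s (D 2) (G 0 * G 1 * G 2) -
        s (D 1) (F 0 * F 1 * F 2) + s (D 2) (F 0 * F 1 * F 2) =
      s w (F 0 * F 1 * F 2) + s (F 0 * F 1 * F 2) (G 2) - s (F 0 * F 1 * F 2) (G 1) +
        s (F 1) (G 0 * G 1 * G 2) - s (F 2) (G 0 * G 1 * G 2))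

/-- IF1: `α_b α_x = w⁻¹ k_0` modulo cubes. -/
def IF1 : Prop := ∀ (π : Eis) (s : Eis → Eis → ZMod 3) (e : ℕ), LSym π s e →
  ∀ b x p q p' q' : ℤ, b ≠ 0 → x ≠ 0 → Sol b x p q p' q' →
  ∃ N0 : ℕ, ∀ r ξ : ℤ, π ^ N0 ∣ (r : Eis) ^ 3 - (b : Eis) → π ^ N0 ∣ (ξ : Eis) ^ 3 - (x : Eis) →
    ∀ B : Eis, B ≠ 0 → AS s B p q p' q' r + AS s B p (-p') (-q) q' ξ =
      s B (Gf p q p' q' 1) - s B (Gf p q p' q' 2) + s w B

/-- IF2: `(x, α_b) = (x, k_0) + (w, x)`. -/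
def IF2 : Prop := ∀ (π : Eis) (s : Eis → Eis → ZMod 3) (e : ℕ), LSym π s e →
  ∀ b x p q p' q' : ℤ, b ≠ 0 → x ≠ 0 → Sol b x p q p' q' →
  ∃ N0 : ℕ, ∀ r : ℤ, π ^ N0 ∣ (r : Eis) ^ 3 - (b : Eis) →
    AS s (x : Eis) p q p' q' r =
      s (x : Eis) (Gf p q p' q' 1) - s (x : Eis) (Gf p q p' q' 2) + s w (x : Eis)

/-- IF4: the local term of a point when `x` is a local cube. -/
def IF4 : Prop := ∀ (π : Eis) (s : Eis → Eis → ZMod 3) (e : ℕ), LSym π s e →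
  ∀ b x p q p' q' X Y : ℤ, b ≠ 0 → x ≠ 0 → Sol b x p q p' q' → X ≠ 0 → Y ≠ 0 →
    X ^ 3 + x * Y ^ 3 ≠ 0 →
  ∃ N0 : ℕ, ∀ ξ : ℤ, π ^ N0 ∣ (ξ : Eis) ^ 3 - (x : Eis) →
    SV s x p q p' q' X Y =
      AS s ((X ^ 3 + x * Y ^ 3 : ℤ) : Eis) p (-p') (-q) q' ξ +
        s (Lf X Y 1 ξ) (b : Eis) - s (Lf X Y 2 ξ) (b : Eis)

/-- IF4B: `(F_1/F_2, n_0) = (w, n_0)`. -/
def IF4B : Prop := ∀ (π : Eis) (s : Eis → Eis → ZMod 3) (e : ℕ), LSym π s e →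
  ∀ x X Y : ℤ, x ≠ 0 → X ≠ 0 → Y ≠ 0 → X ^ 3 + x * Y ^ 3 ≠ 0 →
  ∃ N0 : ℕ, ∀ ξ : ℤ, π ^ N0 ∣ (ξ : Eis) ^ 3 - (x : Eis) →
    s (Lf X Y 1 ξ) ((X ^ 3 + x * Y ^ 3 : ℤ) : Eis) - s (Lf X Y 2 ξ) ((X ^ 3 + x * Y ^ 3 : ℤ) : Eis) =
      s w ((X ^ 3 + x * Y ^ 3 : ℤ) : Eis)

/-- ROOT: independence of the cube root. -/
def ROOT : Prop := ∀ (π : Eis) (s : Eis → Eis → ZMod 3) (e : ℕ), LSym π s e →
  ∀ (b x p q p' q' : ℤ) (B : Eis), b ≠ 0 → x ≠ 0 → SolW b x p q p' q' → B ≠ 0 →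
    s B (x : Eis) = 0 →
  ∃ N0 : ℕ, ∀ r r' : ℤ, π ^ N0 ∣ (r : Eis) ^ 3 - (b : Eis) → π ^ N0 ∣ (r' : Eis) ^ 3 - (b : Eis) →
    AS s B p q p' q' r = AS s B p q p' q' r'

/-! ### Local evaluation -/

/-- F2B: (B, α_b) = (B, k_0) + (w, B) when `b` is a local cube and `x` is not. -/
def F2B : Prop := ∀ (v : Pl) (B b x p q p' q' : ℤ), BOk B → Adm B b → Adm B x →
  Sol b x p q p' q' → LC (uni v) b → ¬ LC (uni v) x →
  ∃ N0 : ℕ, ∀ r : ℤ, uni v ^ N0 ∣ (r : Eis) ^ 3 - (b : Eis) →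
    AS (sy v) (B : Eis) p q p' q' r =
      sy v (B : Eis) (Gf p q p' q' 1) - sy v (B : Eis) (Gf p q p' q' 2) + sy v w (B : Eis)

/-- F6R: the local term of a point at a tame place where `x` has valuation prime to `3`. -/
def F6R : Prop := ∀ (π : PP) (b x p q p' q' X Y : ℤ), b ≠ 0 → x ≠ 0 → Sol b x p q p' q' →
  X ≠ 0 → Y ≠ 0 → ¬ 3 ∣ V π.1 (x : Eis) →
    (3 ∣ V π.1 ((X ^ 3 + x * Y ^ 3 : ℤ) : Eis) → SV (tm π.1) x p q p' q' X Y = 0) ∧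
    (¬ 3 ∣ V π.1 ((X ^ 3 + x * Y ^ 3 : ℤ) : Eis) →
      SV (tm π.1) x p q p' q' X Y = - tm π.1 w (b : Eis))

/-- F7U: the local term of a point at a tame place where `x` has valuation divisible by `3` and is
not a cube. -/
def F7U : Prop := ∀ (π : PP) (b x p q p' q' X Y : ℤ), b ≠ 0 → x ≠ 0 → Sol b x p q p' q' →
  X ≠ 0 → Y ≠ 0 → 3 ∣ V π.1 (x : Eis) → ch π.1 (x : Eis) ≠ 0 → SV (tm π.1) x p q p' q' X Y = 0

/-- SLE: the symbol at `lam` of `g + h w` and a rational integer. -/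
def SLE : Prop := ∀ (g h N : ℤ) (v : ℕ), ¬ (3 : ℤ) ∣ N →
  (¬ (3 : ℤ) ∣ g → (3 : ℤ) ∣ h →
    sl ((g : Eis) + h * w) ((3 ^ v * N : ℤ) : Eis) = v * ((g * (h / 3) : ℤ) : ZMod 3)) ∧
  ((3 : ℤ) ∣ g → ¬ (3 : ℤ) ∣ h →
    sl ((g : Eis) + h * w) ((3 ^ v * N : ℤ) : Eis) =
      - wt (N ^ 2) - v * ((h * (g / 3) : ℤ) : ZMod 3)) ∧
  (¬ (3 : ℤ) ∣ h → (3 : ℤ) ∣ g - h →
    sl ((g : Eis) + h * w) ((3 ^ v * N : ℤ) : Eis) =
      wt (N ^ 2) - v * ((h * ((g - h) / 3) : ℤ) : ZMod 3))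

/-- F5L: the local term of a point at `lam` when `b` is a cube and `x` is not. -/
def F5L : Prop := ∀ B b x p q p' q' X Y : ℤ, BOk B → Adm B b → Adm B x → Sol b x p q p' q' →
  Pt B x X Y → C9 b → ¬ C9 x → SV sl x p q p' q' X Y = 0

/-- F3R: the case of two noncubes at a place dividing `B`. -/
def F3R : Prop := ∀ (π : PP) (B b x p q p' q' : ℤ), BOk B → Adm B b → Adm B x →
  Sol b x p q p' q' → π.1 ∣ (B : Eis) → ¬ 3 ∣ V π.1 (b : Eis) → ¬ 3 ∣ V π.1 (x : Eis) →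
    UV (tm π.1) B b x p q p' q' =
      (if 3 ∣ V π.1 (b : Eis) + V π.1 (B : Eis) then - tm π.1 w (x : Eis) else 0) +
      (if 3 ∣ V π.1 (x : Eis) + V π.1 (B : Eis) then - tm π.1 w (b : Eis) else 0)

/-- F3U: the case of two noncubes at a place not dividing `B`. -/
def F3U : Prop := ∀ (π : PP) (B b x p q p' q' : ℤ), BOk B → Adm B b → Adm B x →
  Sol b x p q p' q' → ¬ π.1 ∣ (B : Eis) → ch π.1 (b : Eis) ≠ 0 → ch π.1 (x : Eis) ≠ 0 →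
    UV (tm π.1) B b x p q p' q' = 0

/-- AVV: the value `AV` is attained at all good approximations of the cube root, and is
characterised by this. -/
def AVV : Prop := ∀ (v : Pl) (B b x p q p' q' : ℤ), B ≠ 0 → b ≠ 0 → x ≠ 0 →
  SolW b x p q p' q' → sy v (B : Eis) (x : Eis) = 0 → LC (uni v) b →
  (∃ N0 : ℕ, ∀ r : ℤ, uni v ^ N0 ∣ (r : Eis) ^ 3 - (b : Eis) →
    AS (sy v) (B : Eis) p q p' q' r = AV v B b p q p' q') ∧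
  (∀ (c : ZMod 3) (N0 : ℕ), (∀ r : ℤ, uni v ^ N0 ∣ (r : Eis) ^ 3 - (b : Eis) →
    AS (sy v) (B : Eis) p q p' q' r = c) → AV v B b p q p' q' = c)

/-- LEV: the local evaluation. -/
def LEV : Prop := ∀ (v : Pl) (B b x p q p' q' X Y : ℤ), BOk B → Adm B b → Adm B x →
  Sol b x p q p' q' → Pt B x X Y → (C9 b ∨ C9 x) →
    TT v B b x p q p' q' = UV (sy v) B b x p q p' q' - SV (sy v) x p q p' q' X Y

/-- LAM: the local form of the antisymmetry. -/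
def LAM : Prop := ∀ (v : Pl) (B b x p q p' q' : ℤ), BOk B → Adm B b → Adm B x →
  Sol b x p q p' q' → (C9 b ∨ C9 x) →
    TT v B b x p q p' q' + TT v B x b p (-p') (-q) q' = UV (sy v) B b x p q p' q'

/-! ### Global theorems -/

/-- LFIN: finiteness of the supports. -/
def LFIN : Prop :=
  (∀ B b x p q p' q' : ℤ, BOk B → Adm B b → Adm B x → SolW b x p q p' q' →
    (Function.support fun v : Pl => TT v B b x p q p' q').Finite) ∧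
  (∀ B b x p q p' q' : ℤ, B ≠ 0 → b ≠ 0 → x ≠ 0 → Sol b x p q p' q' →
    (Function.support fun v : Pl => UV (sy v) B b x p q p' q').Finite ∧
    ∑ᶠ v : Pl, UV (sy v) B b x p q p' q' = 0) ∧
  (∀ b x p q p' q' X Y : ℤ, b ≠ 0 → x ≠ 0 → Sol b x p q p' q' → X ≠ 0 → Y ≠ 0 →
    X ^ 3 + x * Y ^ 3 ≠ 0 →
    (Function.support fun v : Pl => SV (sy v) x p q p' q' X Y).Finite ∧
    ∑ᶠ v : Pl, SV (sy v) x p q p' q' X Y = 0)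

/-- TC: the pairing vanishes on the class of a point. -/
def TC : Prop := ∀ B b x p q p' q' X Y : ℤ, BOk B → Adm B b → Adm B x →
  Sol b x p q p' q' → Pt B x X Y → (C9 b ∨ C9 x) → OO B b x p q p' q' = 0

/-- TA: antisymmetry. -/
def TA : Prop := ∀ B b x p q p' q' : ℤ, BOk B → Adm B b → Adm B x →
  Sol b x p q p' q' → (C9 b ∨ C9 x) → OO B b x p q p' q' + OO B x b p (-p') (-q) q' = 0

/-- TADD: additivity in the second variable. -/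
def TADD : Prop := ∀ b x₁ x₂ p₁ q₁ p₁' q₁' p₂ q₂ p₂' q₂' : ℤ, (¬ ∃ c : ℤ, c ^ 3 = b) →
  b ≠ 0 → x₁ ≠ 0 → x₂ ≠ 0 → SolW b x₁ p₁ q₁ p₁' q₁' → SolW b x₂ p₂ q₂ p₂' q₂' →
  ∃ p q p' q' : ℤ, SolW b (x₁ * x₂) p q p' q' ∧ ∀ B : ℤ, BOk B → Adm B b → Adm B x₁ →
    Adm B x₂ → OO B b (x₁ * x₂) p q p' q' = OO B b x₁ p₁ q₁ p₁' q₁' + OO B b x₂ p₂ q₂ p₂' q₂'

/-- TTH: `O_B(b, b^(1/3)) = 0`. -/
def TTH : Prop := ∀ B b : ℤ, BOk B → Adm B b → C9 b → OO B b b 0 1 1 0 = 0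

/-- A system of classes `b_i` with solutions of the norm equations. -/
structure Sys {s : ℕ} (b : Fin s → ℤ) (p q p' q' : Fin s → Fin s → ℤ) : Prop where
  ind : ∀ c : Fin s → ℕ, (∃ i, ¬ 3 ∣ c i) → ¬ ∃ t : ℤ, t ^ 3 = ∏ i, b i ^ c i
  c9 : ∀ i j, i ≠ j → C9 (b i) ∨ C9 (b j)
  sol : ∀ j i, j ≠ i → Sol (b j) (b i) (p j i) (q j i) (p' j i) (q' j i)
  sw : ∀ j i, j ≠ i → p i j = p j i ∧ q i j = - p' j i ∧ p' i j = - q j i ∧ q' i j = q' j i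

open Classical in
/-- the matrix of the pairing -/
noncomputable def Mat {s : ℕ} (b : Fin s → ℤ) (p q p' q' : Fin s → Fin s → ℤ) (B : ℤ) :
    Matrix (Fin s) (Fin s) (ZMod 3) := fun j i =>
  if j = i then 0 else OO B (b j) (b i) (p j i) (q j i) (p' j i) (q' j i)

/-- TEND: the matrix is alternating and the class of a point is in its kernel. -/
def TEND : Prop := ∀ (s : ℕ) (b : Fin s → ℤ) (p q p' q' : Fin s → Fin s → ℤ) (B : ℤ),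
  Sys b p q p' q' → BOk B → (∀ i, Adm B (b i)) →
  (∀ i j, Mat b p q p' q' B i j = - Mat b p q p' q' B j i) ∧
  ∀ (c : Fin s → ℕ) (X Y : ℤ), (∃ i, ¬ 3 ∣ c i) → Pt B (∏ i, b i ^ c i) X Y →
    ∀ j, ∑ i, Mat b p q p' q' B j i * (c i : ZMod 3) = 0

end Pool.Agent.PT
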