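import Pool.Agent.PT.Stmts1

/-!
# Prime twists of rank zero: statements, part 2 (first descent, choice of the class)
-/

namespace Pool.Agent.PT

open Pool.Agent.Lib_helper18 Pool.Agent.Lib_helper18.Eis Pool.Agent.Lib_helper84.Cub

/-! ### First descent -/

/-- The data of the first descent: `a_0 x_0^3 + a_1 x_1^3 + a_2 x_2^3 = 0`, `a_0 a_1 a_2 = B`. -/
structure Cell (B : ℤ) (a x : Fin 3 → ℤ) : Prop where
  ne : ∀ k, x k ≠ 0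
  sum : ∑ k, a k * x k ^ 3 = 0
  prod : ∏ k, a k = B
  cop : ∀ i j, i ≠ j → IsCoprime (a i) (a j)
  two : ∀ k, ∃ j, j ≠ k ∧ ¬ IsUnit (a j)
  nine : C9 B → ∀ k k', wt (a k ^ 2) = wt (a k' ^ 2)

/-- FDK: a primitive solution of `x^3 + y^3 = B z^3`: `x + w y = c w^2 δ^3`. -/
def FDK : Prop := ∀ B x y z : ℤ, BOk B → HypM B → IsCoprime x y → z ≠ 0 →
  x ^ 3 + y ^ 3 = B * z ^ 3 →
  ∃ (δ : Eis) (c d : ℤ), c ≠ 0 ∧ d ≠ 0 ∧ (∀ m : ℤ, (m : Eis) ∣ δ → IsUnit m) ∧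
    (d : Eis) * ((x : Eis) + w * y) = c * w ^ 2 * δ ^ 3

/-- FDA: three pairwise coprime integers `A_0 + A_1 + A_2 = 0` with product `B m^3`, and
`|z| = |m| N(δ)`, where `N(δ) > 1` unless `B = 2` or `B = -2`. -/
def FDA : Prop := ∀ (B x y z c d : ℤ) (δ : Eis), BOk B → 3 ≤ |B| → IsCoprime x y → z ≠ 0 →
  x ^ 3 + y ^ 3 = B * z ^ 3 → c ≠ 0 → d ≠ 0 → (∀ m : ℤ, (m : Eis) ∣ δ → IsUnit m) →
  (d : Eis) * ((x : Eis) + w * y) = c * w ^ 2 * δ ^ 3 →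
  ∃ (A : Fin 3 → ℤ) (m : ℤ), (∀ k, A k ≠ 0) ∧ A 0 + A 1 + A 2 = 0 ∧
    A 0 * A 1 * A 2 = B * m ^ 3 ∧ (∀ i j, i ≠ j → IsCoprime (A i) (A j)) ∧ |m| < |z|

/-- FDC: splitting into cells. -/
def FDC : Prop := ∀ (B m : ℤ) (A : Fin 3 → ℤ), BOk B → (∀ k, A k ≠ 0) → A 0 + A 1 + A 2 = 0 →
  A 0 * A 1 * A 2 = B * m ^ 3 → (∀ i j, i ≠ j → IsCoprime (A i) (A j)) →
  ∃ a x : Fin 3 → ℤ, (∀ k, A k = a k * x k ^ 3) ∧ ∏ k, a k = B ∧
    (∀ i j, i ≠ j → IsCoprime (a i) (a j)) ∧ (∀ i j, i ≠ j → IsCoprime (x i) (x j)) ∧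
    (C9 B → ∀ k k', wt (a k ^ 2) = wt (a k' ^ 2))

/-- FD1: the first descent. -/
def FD1 : Prop := ∀ B : ℤ, BOk B → 3 ≤ |B| → HypM B →
  (∃ X Y : ℚ, X ^ 3 + Y ^ 3 = (B : ℚ)) → ∃ a x : Fin 3 → ℤ, Cell B a x

/-- FD2: the class of a point; the prime `q` can be put into the last cell. -/
def FD2 : Prop := ∀ (n q : ℕ) (a x : Fin 3 → ℤ), q.Prime → q % 3 = 2 → ¬ q ∣ n → 0 < n →
  BOk ((n : ℤ) * q) → Cell ((n : ℤ) * q) a x →
  ∃ z X Y : ℤ, Pt ((n : ℤ) * q) z X Y ∧ Adm ((n : ℤ) * q) z ∧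
    (∀ l : ℕ, l.Prime → (l : ℤ) ∣ z → l ∣ n) ∧ ¬ ∃ t : ℤ, t ^ 3 = z

/-! ### Choice of the class -/

/-- Normal form of a cube-free number prime to `3`. -/
structure NF (n : ℕ) {m k : ℕ} (π : Fin m → PP) (p e : Fin m → ℕ) (r f : Fin k → ℕ) : Prop where
  pp : ∀ i, (p i).Prime
  p1 : ∀ i, p i % 3 = 1
  pπ : ∀ i, (p i : Eis) = (π i).1 * conj (π i).1
  pe : ∀ i, e i = 1 ∨ e i = 2
  pinj : Function.Injective p
  rp : ∀ j, (r j).Prime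
  r2 : ∀ j, r j % 3 = 2
  rf : ∀ j, f j = 1 ∨ f j = 2
  rinj : Function.Injective r
  eq : n = (∏ i, p i ^ e i) * ∏ j, r j ^ f j

/-- ENF: existence of the normal form; invariance under cubes. -/
def ENF : Prop := ∀ N : ℕ, 0 < N → ¬ 3 ∣ N → ∃ (n t : ℕ) (π : Fin (Nat.card {p : ℕ //
    p.Prime ∧ p % 3 = 1 ∧ ¬ 3 ∣ N.factorization p}) → PP)
    (p e : Fin (Nat.card {p : ℕ // p.Prime ∧ p % 3 = 1 ∧ ¬ 3 ∣ N.factorization p}) → ℕ)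
    (r f : Fin (Nat.card {p : ℕ // p.Prime ∧ p % 3 = 2 ∧ ¬ 3 ∣ N.factorization p}) → ℕ),
    0 < n ∧ 0 < t ∧ N = n * t ^ 3 ∧ NF n π p e r f ∧
    ∀ l : ℕ, l.Prime → ¬ 3 ∣ N.factorization l → l % 3 = 2 → ∃ j, r j = l

/-- EDET: the diagonal can be chosen such that two matrices become invertible. -/
def EDET : Prop := ∀ (m : ℕ) (A A' : Matrix (Fin (m + 1)) (Fin (m + 1)) (ZMod 3)),
  A 0 0 ≠ 0 → A' 0 0 ≠ 0 → ∃ d : Fin m → ZMod 3,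
    (A - Matrix.diagonal (Fin.cons 0 d : Fin (m + 1) → ZMod 3)).det ≠ 0 ∧
    (A' - Matrix.diagonal (Fin.cons 0 d : Fin (m + 1) → ZMod 3)).det ≠ 0

/-- The matrix of the conditions on the classes with `conj z = z⁻¹`. The first row and column
belong to the unit `w`; `j0` is the index of the inert prime used. -/
noncomputable def Mm (n : ℕ) {m k : ℕ} (π : Fin m → PP) (e : Fin m → ℕ) (r : Fin k → ℕ)
    (j0 : Option (Fin k)) (c : Fin m → ZMod 3) : Matrix (Fin (m + 1)) (Fin (m + 1)) (ZMod 3) :=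
  fun a b => Fin.cases
    (motive := fun _ => ZMod 3)
    (match j0 with
      | none => if b = 0 then 1 else 0
      | some j => Fin.cases (motive := fun _ => ZMod 3) (sym (r j : Eis) w)
          (fun i' => sym (r j : Eis) (π i').1 - sym (r j : Eis) (conj (π i').1)) b)
    (fun i => Fin.cases (motive := fun _ => ZMod 3) ((e i : ZMod 3) * sym (π i).1 w)
      (fun i' => if i' = i then
          - (e i : ZMod 3) * sym (π i).1 (conj (π i).1) - ch (π i).1 (n : Eis) - c i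
        else (e i : ZMod 3) * (sym (π i).1 (π i').1 - sym (π i).1 (conj (π i').1))) b) a

/-- The matrix of the conditions on the rational classes. The first column belongs to the inert
prime `r j0`, the first row to the condition modulo `9`. -/
noncomputable def Mp (n : ℕ) {m k : ℕ} (π : Fin m → PP) (p e : Fin m → ℕ) (r : Fin k → ℕ)
    (j0 : Option (Fin k)) (c : Fin m → ZMod 3) : Matrix (Fin (m + 1)) (Fin (m + 1)) (ZMod 3) :=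
  fun a b => Fin.cases
    (motive := fun _ => ZMod 3)
    (match j0 with
      | none => if b = 0 then 1 else 0
      | some j => Fin.cases (motive := fun _ => ZMod 3) (wt ((r j : ℤ) ^ 2))
          (fun i' => wt ((p i' : ℤ) ^ 2)) b)
    (fun i => Fin.cases (motive := fun _ => ZMod 3)
      (match j0 with
        | none => 0
        | some j => (e i : ZMod 3) * sym (π i).1 (r j : Eis))
      (fun i' => if i' = i then
          (e i : ZMod 3) * sym (π i).1 (conj (π i).1) - ch (π i).1 (n : Eis) - c i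
        else (e i : ZMod 3) * sym (π i).1 (p i' : Eis)) b) a

/-- EMAT: the class can be chosen such that both matrices are invertible. -/
def EMAT : Prop := ∀ (n m k : ℕ) (π : Fin m → PP) (p e : Fin m → ℕ) (r f : Fin k → ℕ)
  (j0 : Option (Fin k)), NF n π p e r f → (∀ j, j0 = some j → wt ((r j : ℤ) ^ 2) ≠ 0) →
  ∃ c : Fin m → ZMod 3, (Mm n π e r j0 c).det ≠ 0 ∧ (Mp n π p e r j0 c).det ≠ 0

/-- `q` is in the class `(w0, c)`. -/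
def InCl {m : ℕ} (π : Fin m → PP) (w0 : ZMod 3) (c : Fin m → ZMod 3) (q : ℕ) : Prop :=
  q % 3 = 2 ∧ wt ((q : ℤ) ^ 2) = w0 ∧ ∀ i, sym (π i).1 (q : Eis) = c i

/-- The rational classes that are admissible for `n q`, `q` in the class `(w0, c)`. -/
structure AdmC (n : ℕ) {m : ℕ} (π : Fin m → PP) (w0 : ZMod 3) (c : Fin m → ZMod 3) (x : ℤ) :
    Prop where
  ne : x ≠ 0
  three : ¬ (3 : ℤ) ∣ x
  supp : ∀ l : ℕ, l.Prime → (l : ℤ) ∣ x → l ∣ n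
  sym : ∀ i, (V (π i).1 (n : Eis) : ZMod 3) * ch (π i).1 (x : Eis) -
    (V (π i).1 (x : Eis) : ZMod 3) * (ch (π i).1 (n : Eis) + c i) = 0
  nine : wt ((n : ℤ) ^ 2) + w0 = 0 → C9 x

/-- EADM: `AdmC` and `Adm`. -/
def EADM : Prop := ∀ (n m k : ℕ) (π : Fin m → PP) (p e : Fin m → ℕ) (r f : Fin k → ℕ)
  (w0 : ZMod 3) (c : Fin m → ZMod 3) (q : ℕ), NF n π p e r f → q.Prime → InCl π w0 c q →
  ¬ q ∣ n → BOk ((n : ℤ) * q) ∧ ∀ x : ℤ, (∀ l : ℕ, l.Prime → (l : ℤ) ∣ x → l ∣ n) →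
    (AdmC n π w0 c x ↔ Adm ((n : ℤ) * q) x)

/-- EHYP: the minus part of the Selmer group is trivial for `q` in the class. -/
def EHYP : Prop := ∀ (n m k : ℕ) (π : Fin m → PP) (p e : Fin m → ℕ) (r f : Fin k → ℕ)
  (w0 : ZMod 3) (c : Fin m → ZMod 3) (j0 : Option (Fin k)) (q : ℕ), NF n π p e r f → q.Prime →
  InCl π w0 c q → ¬ q ∣ n → (j0 = none → wt ((n : ℤ) ^ 2) + w0 ≠ 0) →
  (Mm n π e r j0 c).det ≠ 0 → HypM ((n : ℤ) * q)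

/-- EVEC: the admissible classes in terms of exponent vectors. -/
def EVEC : Prop := ∀ (n m k : ℕ) (π : Fin m → PP) (p e : Fin m → ℕ) (r f : Fin k → ℕ)
  (w0 : ZMod 3) (c : Fin m → ZMod 3), NF n π p e r f →
  (∀ x : ℤ, x ≠ 0 → ¬ (3 : ℤ) ∣ x → (∀ l : ℕ, l.Prime → (l : ℤ) ∣ x → l ∣ n) →
    (AdmC n π w0 c x ↔
      (∀ i, (e i : ZMod 3) * (∑ i', (padicValInt (p i') x : ZMod 3) *
          (if i' = i then sym (π i).1 (conj (π i).1) else sym (π i).1 (p i' : Eis))) +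
        (e i : ZMod 3) * (∑ j, (padicValInt (r j) x : ZMod 3) * sym (π i).1 (r j : Eis)) -
        (padicValInt (p i) x : ZMod 3) * (ch (π i).1 (n : Eis) + c i) = 0) ∧
      (wt ((n : ℤ) ^ 2) + w0 = 0 → (∑ i, (padicValInt (p i) x : ZMod 3) * wt ((p i : ℤ) ^ 2)) +
        ∑ j, (padicValInt (r j) x : ZMod 3) * wt ((r j : ℤ) ^ 2) = 0)) ∧
    (C9 x ↔ (∑ i, (padicValInt (p i) x : ZMod 3) * wt ((p i : ℤ) ^ 2)) +
        ∑ j, (padicValInt (r j) x : ZMod 3) * wt ((r j : ℤ) ^ 2) = 0)) ∧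
  ∀ x x' : ℤ, x ≠ 0 → x' ≠ 0 → (∀ l : ℕ, l.Prime → (l : ℤ) ∣ x → l ∣ n) →
    (∀ l : ℕ, l.Prime → (l : ℤ) ∣ x' → l ∣ n) →
    ((∃ u v : ℤ, u ≠ 0 ∧ v ≠ 0 ∧ x * u ^ 3 = x' * v ^ 3) ↔
      (∀ i, (padicValInt (p i) x : ZMod 3) = padicValInt (p i) x') ∧
      ∀ j, (padicValInt (r j) x : ZMod 3) = padicValInt (r j) x')

/-- EBAS: basis of the admissible classes. -/
def EBAS : Prop := ∀ (n m k : ℕ) (π : Fin m → PP) (p e : Fin m → ℕ) (r f : Fin k → ℕ)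
  (w0 : ZMod 3) (c : Fin m → ZMod 3) (j0 : Option (Fin k)), NF n π p e r f →
  ((j0 = none ∧ Even k ∧ wt ((n : ℤ) ^ 2) + w0 ≠ 0) ∨
    (j0 ≠ none ∧ Odd k ∧ wt ((n : ℤ) ^ 2) + w0 = 0)) →
  (∀ j, j0 = some j → wt ((r j : ℤ) ^ 2) ≠ 0) →
  (Mp n π p e r j0 c).det ≠ 0 →
  ∃ (s : ℕ) (b : Fin s → ℤ), Even s ∧ (∀ i, AdmC n π w0 c (b i)) ∧
    (∀ i (π : PP), V π.1 (b i : Eis) ≤ 2) ∧
    (∀ g : Fin s → ℕ, (∃ i, ¬ 3 ∣ g i) → ¬ ∃ t : ℤ, t ^ 3 = ∏ i, b i ^ g i) ∧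
    (∀ i j, i ≠ j → C9 (b i) ∨ C9 (b j)) ∧
    (∀ x : ℤ, AdmC n π w0 c x → ∃ (g : Fin s → ℕ) (u v : ℤ), u ≠ 0 ∧ v ≠ 0 ∧
      x * u ^ 3 = (∏ i, b i ^ g i) * v ^ 3)

/-- HN: Hasse norm theorem for pure cubic fields, rational version. -/
def HN : Prop := ∀ x y : ℤ, x ≠ 0 → ¬ (3 : ℤ) ∣ x → (¬ ∃ c : ℤ, c ^ 3 = x) →
  (∀ π : PP, V π.1 (x : Eis) ≤ 2) → y ≠ 0 → ¬ (3 : ℤ) ∣ y →
  (∀ π : PP, tm π.1 (x : Eis) (y : Eis) = 0) →
  ∃ p q p' q' : ℤ, SolW x y p q p' q'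

/-- ESYS: from a basis to a system with solutions. -/
def ESYS : Prop := ∀ (n m k : ℕ) (π : Fin m → PP) (p e : Fin m → ℕ) (r f : Fin k → ℕ)
  (w0 : ZMod 3) (c : Fin m → ZMod 3) (s : ℕ) (b : Fin s → ℤ), NF n π p e r f →
  (∀ i, AdmC n π w0 c (b i)) → (∀ i (π : PP), V π.1 (b i : Eis) ≤ 2) →
  (∀ g : Fin s → ℕ, (∃ i, ¬ 3 ∣ g i) → ¬ ∃ t : ℤ, t ^ 3 = ∏ i, b i ^ g i) →
  (∀ i j, i ≠ j → C9 (b i) ∨ C9 (b j)) →
  ∃ P Q P' Q' : Fin s → Fin s → ℤ, Sys b P Q P' Q'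

/-- ECL: for every admissible `n` there are a class and a system such that for all primes `q` of
the class a rational point on `X^3 + Y^3 = n q` gives a nontrivial kernel of the matrix. -/
def ECL : Prop := ∀ (n m k : ℕ) (π : Fin m → PP) (p e : Fin m → ℕ) (r f : Fin k → ℕ),
  NF n π p e r f → (Even k ∨ ∃ j, r j % 9 = 2 ∨ r j % 9 = 5) →
  ∃ (w0 : ZMod 3) (c : Fin m → ZMod 3) (s : ℕ) (b : Fin s → ℤ) (P Q P' Q' : Fin s → Fin s → ℤ),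
    Even s ∧ (∀ i, AdmC n π w0 c (b i)) ∧ Sys b P Q P' Q' ∧
    ∀ q : ℕ, q.Prime → InCl π w0 c q → ¬ q ∣ n → 3 < q →
      (∀ i, Adm ((n : ℤ) * q) (b i)) ∧ BOk ((n : ℤ) * q) ∧
      ((∃ X Y : ℚ, X ^ 3 + Y ^ 3 = (n : ℚ) * q) → (Mat b P Q P' Q' ((n : ℤ) * q)).det = 0)

end Pool.Agent.PT
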