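import Pool.Agent.PT.Stmts2

/-!
# Prime twists of rank zero: statements, part 3 (the Hasse norm theorem for pure cubic fields)
-/

open NumberField IsDedekindDomain Finset
open scoped nonZeroDivisors Pointwise

namespace Pool.Agent.PT

open Pool.Agent.Lib_helper18 Pool.Agent.Lib_helper18.Eis Pool.Agent.Lib_helper84.Cub

/-! ### Abstract statements -/

/-- HERBQ: Herbrand quotient argument with a subgroup of invariants detected by symbols. -/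
def HERBQ : Prop := ∀ (p : ℕ) [Fact p.Prime] (A G : Type) [CommGroup A] [Group G]
    [MulDistribMulAction G A] (g : G) (E E' : Subgroup A) (κ : Type) (ψ : A → κ → ZMod p)
    (e : ℕ) (d : Fin e → A), g ^ p = 1 → E.FG →
    (∀ u ∈ E, g • u ∈ E) → (∀ u, u ∈ E' ↔ u ∈ E ∧ g • u = u) →
    (∀ u ∈ E, ∏ i ∈ range p, g ^ i • u = 1 → ∃ v ∈ E, u = v / g • v) →
    (∀ u ∈ E', ∀ v ∈ E', ψ (u * v) = ψ u + ψ v) →
    (∀ u ∈ E, ψ (∏ i ∈ range p, g ^ i • u) = 0) →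
    (∀ i, d i ∈ E') →
    (∀ n : Fin e → ℤ, ∏ i, d i ^ n i = 1 → n = 0) →
    (∀ n : Fin e → ZMod p, ∑ i, n i • ψ (d i) = 0 → n = 0) →
    Module.finrank ℤ (Additive E) + p * e = p * Module.finrank ℤ (Additive E') + e →
    ∀ y ∈ E', ψ y = 0 → ∃ η ∈ E, y = ∏ i ∈ range p, g ^ i • η

/-- SUN: the theorem on `S`-units. -/
def SUN : Prop := ∀ (L : Type) [Field L] [NumberField L]
    (A : Finset (HeightOneSpectrum (𝓞 L))),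
    ((A : Set (HeightOneSpectrum (𝓞 L))).unit L).FG ∧
    Module.finrank ℤ (Additive ((A : Set (HeightOneSpectrum (𝓞 L))).unit L)) =
      NumberField.Units.rank L + A.card

/-- KUM: Kummer theory. -/
def KUM : Prop := ∀ (F L : Type) [Field F] [Field L] [CharZero F] [Algebra F L]
    [FiniteDimensional F L] [IsGalois F L] (ω : F) (κ : Type) [Fintype κ] (a : κ → F)
    (A : κ → L), ω ^ 2 + ω + 1 = 0 → (∀ i, a i ≠ 0) → (∀ i, A i ^ 3 = algebraMap F L (a i)) →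
    (∀ n : κ → ℕ, (∃ b : F, ∏ i, a i ^ n i = b ^ 3) → ∀ i, 3 ∣ n i) →
    ∀ v : κ → ZMod 3, ∃ g : L ≃ₐ[F] L, ∀ i, g (A i) = algebraMap F L ω ^ (v i).val * A i

/-! ### The field `Q(w, x^(1/3))` -/

/-- The data of the field `L = Q(w, x^(1/3))`. -/
structure CubF (x : ℤ) (L : Type) [Field L] [NumberField L] (ι : Eis →+* L) (θ : L)
    (σ c : L ≃ₐ[ℚ] L) : Prop where
  inj : Function.Injective ι
  cube : θ ^ 3 = (x : L)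
  sθ : σ θ = ι w * θ
  sι : ∀ a : Eis, σ (ι a) = ι a
  cθ : c θ = θ
  cι : ∀ a : Eis, c (ι a) = ι (conj a)
  rep : ∀ z : L, ∃ (m : ℤ) (a b d : Eis), m ≠ 0 ∧ (m : L) * z = ι a + ι b * θ + ι d * θ ^ 2
  lin : ∀ a b d : Eis, ι a + ι b * θ + ι d * θ ^ 2 = 0 → a = 0 ∧ b = 0 ∧ d = 0

/-- NFLD: existence of the field. -/
def NFLD : Prop := ∀ x : ℤ, x ≠ 0 → (¬ ∃ c : ℤ, c ^ 3 = x) →
  ∃ (L : Type) (_ : Field L) (_ : NumberField L) (ι : Eis →+* L) (θ : L) (σ c : L ≃ₐ[ℚ] L),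
    CubF x L ι θ σ c

/-- NRK: the unit rank. -/
def NRK : Prop := ∀ (x : ℤ) (L : Type) [Field L] [NumberField L] (ι : Eis →+* L) (θ : L)
  (σ c : L ≃ₐ[ℚ] L), CubF x L ι θ σ c → NumberField.Units.rank L = 2

/-- NHN: Hilbert 90. -/
def NHN : Prop := ∀ (x : ℤ) (L : Type) [Field L] [NumberField L] (ι : Eis →+* L) (θ : L)
  (σ c : L ≃ₐ[ℚ] L), x ≠ 0 → CubF x L ι θ σ c →
  (∀ z : L, σ (σ (σ z)) = z) ∧
  (∀ z : L, σ z = z → ∃ a b : Eis, b ≠ 0 ∧ z * ι b = ι a) ∧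
  ∀ u : Lˣ, ∏ i ∈ range 3, σ ^ i • u = 1 → ∃ v : Lˣ, u = v / σ • v

/-- The primes of `L` above the place `v`. -/
def Abv {L : Type} [Field L] [NumberField L] (ι : Eis →+* L) (v : Pl) :
    Set (HeightOneSpectrum (𝓞 L)) := {P | P.valuation L (ι (uni v)) < 1}

/-- The `S`-units of `L`. -/
noncomputable def SU {L : Type} [Field L] [NumberField L] (ι : Eis →+* L) (S : Finset Pl) : Subgroup Lˣ :=
  (⋃ v ∈ S, Abv ι v).unit L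

/-- The `S`-units of `L` fixed by `σ`. -/
noncomputable def SF {L : Type} [Field L] [NumberField L] (ι : Eis →+* L) (σ : L ≃ₐ[ℚ] L) (S : Finset Pl) :
    Subgroup Lˣ where
  carrier := {u | u ∈ SU ι S ∧ σ • u = u}
  one_mem' := ⟨one_mem _, smul_one _⟩
  mul_mem' := fun {a b} ha hb => ⟨mul_mem ha.1 hb.1, by rw [smul_mul', ha.2, hb.2]⟩
  inv_mem' := fun {a} ha => ⟨inv_mem ha.1, by rw [smul_inv', ha.2]⟩

/-- NTR: the primes of `L` above the primes of `Z[w]`. -/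
def NTR : Prop := ∀ (x : ℤ) (L : Type) [Field L] [NumberField L] (ι : Eis →+* L) (θ : L)
  (σ c : L ≃ₐ[ℚ] L), x ≠ 0 → ¬ (3 : ℤ) ∣ x → CubF x L ι θ σ c →
  (∀ (P : HeightOneSpectrum (𝓞 L)) (a : Eis), P.valuation L (ι a) ≤ 1) ∧
  (∀ P : HeightOneSpectrum (𝓞 L), ∃ v : Pl, P ∈ Abv ι v ∧
    ∀ a : Eis, P.valuation L (ι a) < 1 → uni v ∣ a) ∧
  (∀ P : HeightOneSpectrum (𝓞 L), ∃ P' : HeightOneSpectrum (𝓞 L),
    ∀ z : L, P'.valuation L (σ z) = P.valuation L z) ∧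
  (∀ v : Pl, (Abv ι v).Finite ∧ (Abv ι v).Nonempty) ∧
  (∀ (v : Pl) (P P' : HeightOneSpectrum (𝓞 L)), P ∈ Abv ι v → P' ∈ Abv ι v →
    ∃ i : ℕ, ∀ z : L, P'.valuation L ((σ ^ i) z) = P.valuation L z) ∧
  (∀ (π : PP) (P : HeightOneSpectrum (𝓞 L)), ¬ π.1 ∣ (x : Eis) → P ∈ Abv ι (some π) →
    P.valuation L (ι π.1) = WithZero.exp (-1 : ℤ))

open Classical in
/-- NCNT: the number of primes above a place. -/
def NCNT : Prop := ∀ (x : ℤ) (L : Type) [Field L] [NumberField L] (ι : Eis →+* L) (θ : L)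
  (σ c : L ≃ₐ[ℚ] L), x ≠ 0 → ¬ (3 : ℤ) ∣ x → (∀ π : PP, V π.1 (x : Eis) ≤ 2) →
  CubF x L ι θ σ c → ∀ v : Pl, Nat.card (Abv ι v) = if LC (uni v) x then 3 else 1

/-- NFIX: the fixed `S`-units. -/
def NFIX : Prop := ∀ (x : ℤ) (L : Type) [Field L] [NumberField L] (ι : Eis →+* L) (θ : L)
  (σ c : L ≃ₐ[ℚ] L), x ≠ 0 → ¬ (3 : ℤ) ∣ x → CubF x L ι θ σ c → ∀ S : Finset Pl,
  (∀ (u : Lˣ) (a : Eis), (u : L) = ι a → (∀ v : Pl, uni v ∣ a → v ∈ S) → u ∈ SF ι σ S) ∧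
  (∀ u ∈ SF ι σ S, ∃ a b : Eis, a ≠ 0 ∧ b ≠ 0 ∧ (u : L) * ι b = ι a) ∧
  Module.finrank ℤ (Additive (SF ι σ S)) = S.card

/-- NHO: the first cohomology of the `S`-units. -/
def NHO : Prop := ∀ (x : ℤ) (L : Type) [Field L] [NumberField L] (ι : Eis →+* L) (θ : L)
  (σ c : L ≃ₐ[ℚ] L), x ≠ 0 → ¬ (3 : ℤ) ∣ x → CubF x L ι θ σ c → ∀ S : Finset Pl,
  none ∈ S → (∀ π : PP, π.1 ∣ (x : Eis) → some π ∈ S) →
  (∀ u ∈ SU ι S, σ • u ∈ SU ι S) ∧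
  ∀ u ∈ SU ι S, ∏ i ∈ range 3, σ ^ i • u = 1 → ∃ v ∈ SU ι S, u = v / σ • v

/-- NNS: norms have trivial symbols with `x`. -/
def NNS : Prop := ∀ (x : ℤ) (L : Type) [Field L] [NumberField L] (ι : Eis →+* L) (θ : L)
  (σ c : L ≃ₐ[ℚ] L), x ≠ 0 → CubF x L ι θ σ c →
  ∀ (π : Eis) (s : Eis → Eis → ZMod 3) (e : ℕ), LSym π s e →
  ∀ (z : L) (a b : Eis), z ≠ 0 → a ≠ 0 → b ≠ 0 → z * σ z * σ (σ z) * ι b = ι a →
    s a (x : Eis) = s b (x : Eis)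

/-! ### Auxiliary primes -/

/-- NAUX: primes with prescribed cubic residue symbols up to a common factor. -/
def NAUX : Prop := ∀ (t : ℕ) (π : Fin t → PP) (r : Fin t → ZMod 3) (A : Finset PP),
  Function.Injective π → ∃ ρ : PP, ρ ∉ A ∧ ∃ ε : ZMod 3, ε ≠ 0 ∧
    ∀ i, sym ρ.1 (π i).1 = ε * r i

open Classical in
/-- NGEN: a set of places and sufficiently many units with independent symbols. -/
def NGEN : Prop := ∀ (x : ℤ) (S₀ : Finset Pl), x ≠ 0 → ¬ (3 : ℤ) ∣ x →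
  (∀ π : PP, V π.1 (x : Eis) ≤ 2) → (¬ ∃ c : ℤ, c ^ 3 = x) → none ∈ S₀ →
  (∀ π : PP, π.1 ∣ (x : Eis) → some π ∈ S₀) →
  (∀ π : PP, some π ∈ S₀ → ¬ LC π.1 x → π.1 ∣ (x : Eis)) →
  ∃ (S : Finset Pl) (e : ℕ) (d : Fin e → Eis), S₀ ⊆ S ∧ (∀ v ∈ S, v ∉ S₀ → LC (uni v) x) ∧
    (S.filter fun v => ¬ LC (uni v) x).card = e + 1 ∧
    (∀ i, d i ≠ 0) ∧ (∀ i (v : Pl), uni v ∣ d i → v ∈ S) ∧
    (∀ n m : Fin e → ℕ, ∏ i, d i ^ n i = ∏ i, d i ^ m i → n = m) ∧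
    (∀ n : Fin e → ZMod 3, (∀ v : Pl, ∑ i, n i * sy v (d i) (x : Eis) = 0) → n = 0)

/-! ### The theorem -/

/-- NMAIN: the norm theorem for `L / Q(w)`. -/
def NMAIN : Prop := ∀ (x : ℤ) (L : Type) [Field L] [NumberField L] (ι : Eis →+* L) (θ : L)
  (σ c : L ≃ₐ[ℚ] L), x ≠ 0 → ¬ (3 : ℤ) ∣ x → (∀ π : PP, V π.1 (x : Eis) ≤ 2) →
  (¬ ∃ c : ℤ, c ^ 3 = x) → CubF x L ι θ σ c →
  ∀ y : ℤ, y ≠ 0 → ¬ (3 : ℤ) ∣ y → (∀ π : PP, tm π.1 (x : Eis) (y : Eis) = 0) →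
    (∀ π : PP, π.1 ∣ (y : Eis) → ¬ LC π.1 x → π.1 ∣ (x : Eis)) →
    ∃ z : L, z ≠ 0 ∧ z * σ z * σ (σ z) = (y : L)

/-- NDESC: descent to the real cubic field. -/
def NDESC : Prop := ∀ (x : ℤ) (L : Type) [Field L] [NumberField L] (ι : Eis →+* L) (θ : L)
  (σ c : L ≃ₐ[ℚ] L), x ≠ 0 → CubF x L ι θ σ c → ∀ (y : ℤ) (z : L), y ≠ 0 → z ≠ 0 →
    z * σ z * σ (σ z) = (y : L) → ∃ p q p' q' : ℤ, SolW x y p q p' q'

end Pool.Agent.PT
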