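import Pool.Agent.PT.Stmts3

/-!
# Prime twists of rank zero: statements, part 4 (the governing field, densities, final assembly)
-/

open NumberField IsDedekindDomain Finset
open scoped nonZeroDivisors Pointwise

namespace Pool.Agent.PT

open Pool.Agent.Lib_helper18 Pool.Agent.Lib_helper18.Eis Pool.Agent.Lib_helper84.Cub

/-! ### Dependence of the pairing on the prime -/

/-- The cubic residue symbol modulo the prime `Q` of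
`[(p + q w^2 r)(p' + q' w r)] / [(p + q w r)(p' + q' w^2 r)]`. -/
noncomputable def TAUV (Q : ℕ) (p q p' q' r : ℤ) : ZMod 3 :=
  sym (Q : Eis) (Lf p q 2 r) + sym (Q : Eis) (Lf p' q' 1 r) -
    sym (Q : Eis) (Lf p q 1 r) - sym (Q : Eis) (Lf p' q' 2 r)

/-- DCONST: the pairing `O_{nQ}(b, η)` as a function of the prime `Q`. -/
def DCONST : Prop := ∀ (n : ℕ) (b x p q p' q' : ℤ), 0 < n → ¬ 3 ∣ n → Sol b x p q p' q' →
  b ≠ 0 → x ≠ 0 → ∃ f₀ : ℕ, 0 < f₀ ∧ ∀ f : ℕ, 0 < f → f₀ ∣ f →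
  ∃ (C : ZMod 3) (Φ : (ZMod f)ˣ →* Multiplicative (ZMod 3)) (N₀ : ℕ),
    ∀ (Q : ℕ) (hQ : Q.Coprime f), Q.Prime → N₀ < Q → Q % 3 = 2 →
      BOk ((n : ℤ) * Q) → Adm ((n : ℤ) * Q) b → Adm ((n : ℤ) * Q) x →
      ∀ r : ℤ, (Q : ℤ) ∣ r ^ 3 - b → OO ((n : ℤ) * Q) b x p q p' q' =
        C + (Φ (ZMod.unitOfCoprime Q hQ)).toAdd - TAUV Q p q p' q' r

/-! ### The governing field -/

/-- `a` is `2` modulo `3`. -/
def M2 {f : ℕ} (a : (ZMod f)ˣ) : Prop := (a : ZMod f).val % 3 = 2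

/-- the numerator of `α` -/
def aN {L : Type} [Field L] (ω : L) (p q p' q' : ℤ) (ρ : L) : L :=
  (p + q * ω ^ 2 * ρ) * (p' + q' * ω * ρ)

/-- the denominator of `α` -/
def aD {L : Type} [Field L] (ω : L) (p q p' q' : ℤ) (ρ : L) : L :=
  (p + q * ω * ρ) * (p' + q' * ω ^ 2 * ρ)

/-- The governing field. -/
structure GovF {s : ℕ} (b : Fin s → ℤ) (p q p' q' : Fin s → Fin s → ℤ) (f : ℕ)
    (L : Type) [Field L] [NumberField L] (ζ ω : L) : Prop where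
  gal : IsGalois ℚ L
  prim : IsPrimitiveRoot ζ f
  nine : 9 ∣ f
  hω : ω = ζ ^ (f / 3)
  rel : ω ^ 2 + ω + 1 = 0
  root : ∀ j, ∃ θ : L, θ ^ 3 = (b j : L)
  A : ∀ j i, j ≠ i → ∀ ρ : L, ρ ^ 3 = (b j : L) → ∃ A : L,
    A ^ 3 * aD ω (p j i) (q j i) (p' j i) (q' j i) ρ = aN ω (p j i) (q j i) (p' j i) (q' j i) ρ
  D : ∀ j i, j ≠ i → ∀ ρ : L, ρ ^ 3 = (b j : L) →
    aD ω (p j i) (q j i) (p' j i) (q' j i) ρ ≠ 0 ∧ aN ω (p j i) (q j i) (p' j i) (q' j i) ρ ≠ 0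

/-- GZERO: existence of the governing field. -/
def GZERO : Prop := ∀ (s : ℕ) (b : Fin s → ℤ) (p q p' q' : Fin s → Fin s → ℤ) (f : ℕ),
  Sys b p q p' q' → 0 < f → 9 ∣ f →
  ∃ (L : Type) (_ : Field L) (_ : NumberField L) (ζ ω : L), GovF b p q p' q' f L ζ ω

/-- GCHI: the cyclotomic character. -/
def GCHI : Prop := ∀ (L : Type) [Field L] [NumberField L] [IsGalois ℚ L] (f : ℕ) (ζ : L),
  0 < f → IsPrimitiveRoot ζ f → ∃ χ : (L ≃ₐ[ℚ] L) →* (ZMod f)ˣ, Function.Surjective χ ∧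
    (∀ g : L ≃ₐ[ℚ] L, g ζ = ζ ^ ((χ g : ZMod f)).val) ∧
    (∀ (Q : ℕ) (hQ : Q.Coprime f), Q.Prime → ∀ (P : Ideal (𝓞 L)) (φ : L ≃ₐ[ℚ] L), P.IsPrime →
      (Q : 𝓞 L) ∈ P → IsArithFrobAt ℤ φ P → χ φ = ZMod.unitOfCoprime Q hQ)

/-- GKI: an integer that is a cube in a cyclotomic field is a cube. -/
def GKI : Prop := ∀ (L : Type) [Field L] [NumberField L] (f : ℕ) (ζ β : L) (d : ℤ),
  0 < f → ζ ^ f = 1 → β ∈ IntermediateField.adjoin ℚ {ζ} → β ^ 3 = (d : L) →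
  ∃ t : ℤ, t ^ 3 = d

/-- The relation between `g` and `t = t_{ji}(g)`: `g A * A = ω^t` for all `A` with
`A^3 = α_{ji}(ρ)`, `ρ^3 = b_j`, `g ρ = ρ`. -/
def IsT {s : ℕ} (b : Fin s → ℤ) (p q p' q' : Fin s → Fin s → ℤ) {L : Type} [Field L]
    [NumberField L] (ω : L) (g : L ≃ₐ[ℚ] L) (j i : Fin s) (t : ZMod 3) : Prop :=
  ∀ ρ A : L, ρ ^ 3 = (b j : L) → g ρ = ρ →
    A ^ 3 * aD ω (p j i) (q j i) (p' j i) (q' j i) ρ = aN ω (p j i) (q j i) (p' j i) (q' j i) ρ →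
    g A * A = ω ^ t.val

/-- GT: existence, uniqueness and properties of `t`. -/
def GT : Prop := ∀ (s : ℕ) (b : Fin s → ℤ) (p q p' q' : Fin s → Fin s → ℤ) (f : ℕ)
  (L : Type) [Field L] [NumberField L] (ζ ω : L), Sys b p q p' q' → GovF b p q p' q' f L ζ ω →
  ∀ j i, j ≠ i →
  (∀ g : L ≃ₐ[ℚ] L, g ω = ω ^ 2 → ∃! t : ZMod 3, IsT b p q p' q' ω g j i t) ∧
  (∀ (g τ : L ≃ₐ[ℚ] L) (t : ZMod 3), g ω = ω ^ 2 → IsT b p q p' q' ω g j i t →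
    IsT b p q p' q' ω (τ * g * τ⁻¹) j i t) ∧
  (∀ (g : L ≃ₐ[ℚ] L) (t : ZMod 3) (k : ℕ), g ω = ω ^ 2 → Odd k → IsT b p q p' q' ω g j i t →
    IsT b p q p' q' ω (g ^ k) j i (k * t))

/-- GC: the commutators. -/
def GC : Prop := ∀ (s : ℕ) (b : Fin s → ℤ) (p q p' q' : Fin s → Fin s → ℤ) (f : ℕ)
  (L : Type) [Field L] [NumberField L] (ζ ω : L), Sys b p q p' q' → GovF b p q p' q' f L ζ ω →
  ∀ v : Fin s → Fin s → ZMod 3, ∃ z : L ≃ₐ[ℚ] L, z ζ = ζ ∧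
    (∀ (j : Fin s) (ρ : L), ρ ^ 3 = (b j : L) → z ρ = ρ) ∧
    ∀ j i, j < i → ∀ ρ A : L, ρ ^ 3 = (b j : L) →
      A ^ 3 * aD ω (p j i) (q j i) (p' j i) (q' j i) ρ =
        aN ω (p j i) (q j i) (p' j i) (q' j i) ρ →
      z A = ω ^ (v j i).val * A

/-- GFR: Frobenius elements and `t`. -/
def GFR : Prop := ∀ (s : ℕ) (b : Fin s → ℤ) (p q p' q' : Fin s → Fin s → ℤ) (f : ℕ)
  (L : Type) [Field L] [NumberField L] (ζ ω : L), Sys b p q p' q' → GovF b p q p' q' f L ζ ω →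
  ∃ N₀ : ℕ, ∀ Q : ℕ, Q.Prime → N₀ < Q → ∀ (P : Ideal (𝓞 L)), P.IsPrime → (Q : 𝓞 L) ∈ P →
    (∀ g : L ≃ₐ[ℚ] L, MulAction.stabilizer (L ≃ₐ[ℚ] L) P = Subgroup.zpowers g →
      ∃ k : ℕ, k.Coprime (orderOf g) ∧ IsArithFrobAt ℤ (g ^ k) P) ∧
    ∀ φ : L ≃ₐ[ℚ] L, IsArithFrobAt ℤ φ P → Q % 3 = 2 → φ ω = ω ^ 2 ∧
      ∀ j i, j ≠ i → ∀ (r : ℤ) (t : ZMod 3), (Q : ℤ) ∣ r ^ 3 - b j →
        IsT b p q p' q' ω φ j i t → t = TAUV Q (p j i) (q j i) (p' j i) (q' j i) r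

/-- GALD: summary of the governing field. -/
def GALD : Prop := ∀ (s : ℕ) (b : Fin s → ℤ) (p q p' q' : Fin s → Fin s → ℤ) (f : ℕ),
  Sys b p q p' q' → 0 < f → 9 ∣ f →
  ∃ (L : Type) (_ : Field L) (_ : NumberField L) (_ : IsGalois ℚ L)
    (χ : (L ≃ₐ[ℚ] L) →* (ZMod f)ˣ) (t : (L ≃ₐ[ℚ] L) → Fin s → Fin s → ZMod 3) (N₀ : ℕ),
    Function.Surjective χ ∧
    (∀ g τ : L ≃ₐ[ℚ] L, M2 (χ g) → ∀ j i, j ≠ i → t (τ * g * τ⁻¹) j i = t g j i) ∧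
    (∀ (g : L ≃ₐ[ℚ] L) (k : ℕ), M2 (χ g) → Odd k → ∀ j i, j ≠ i → t (g ^ k) j i = k * t g j i) ∧
    (∀ (a : (ZMod f)ˣ) (v v' : Fin s → Fin s → ZMod 3), M2 a →
      Nat.card {g : L ≃ₐ[ℚ] L // χ g = a ∧ ∀ j i, j < i → t g j i = v j i} =
        Nat.card {g : L ≃ₐ[ℚ] L // χ g = a ∧ ∀ j i, j < i → t g j i = v' j i}) ∧
    ∀ (Q : ℕ) (hQ : Q.Coprime f), Q.Prime → N₀ < Q → ∀ (P : Ideal (𝓞 L)) (g : L ≃ₐ[ℚ] L),
      P.IsPrime → (Q : 𝓞 L) ∈ P →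
      MulAction.stabilizer (L ≃ₐ[ℚ] L) P = Subgroup.zpowers g →
      ∃ k : ℕ, k.Coprime (orderOf g) ∧ χ (g ^ k) = ZMod.unitOfCoprime Q hQ ∧
        (Q % 3 = 2 → ∀ j i, j ≠ i → ∀ r : ℤ, (Q : ℤ) ∣ r ^ 3 - b j →
          t (g ^ k) j i = TAUV Q (p j i) (q j i) (p' j i) (q' j i) r)

/-! ### Counting and densities -/

/-- The alternating matrix with given entries above the diagonal. -/
def alt {s : ℕ} (v : Fin s → Fin s → ZMod 3) : Matrix (Fin s) (Fin s) (ZMod 3) := fun j i =>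
  if j < i then v j i else if i < j then - v i j else 0

/-- SING: at most `3/8` of the alternating matrices of even size over `F_3` are singular. -/
def SING : Prop := ∀ s : ℕ, Even s →
  8 * Nat.card {v : Fin s → Fin s → ZMod 3 // (alt v).det = 0} ≤
    3 * Nat.card (Fin s → Fin s → ZMod 3)

/-- DCNT: elements with singular matrix in a class of the Galois group. -/
def DCNT : Prop := ∀ (s f : ℕ) (G : Type) [Group G] [Finite G] (χ : G →* (ZMod f)ˣ)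
  (t : G → Fin s → Fin s → ZMod 3), Even s → 0 < f → Function.Surjective χ →
  (∀ (a : (ZMod f)ˣ) (v v' : Fin s → Fin s → ZMod 3), M2 a →
    Nat.card {g : G // χ g = a ∧ ∀ j i, j < i → t g j i = v j i} =
      Nat.card {g : G // χ g = a ∧ ∀ j i, j < i → t g j i = v' j i}) →
  ∀ (a : (ZMod f)ˣ) (C : Fin s → Fin s → ZMod 3), M2 a →
    8 * Nat.card {g : G // χ g = a ∧ (alt (C - t g)).det = 0} ≤
      3 * Nat.card {g : G // χ g = a} ∧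
    8 * Nat.card {g : G // χ g = a ∧ (alt (C + t g)).det = 0} ≤
      3 * Nat.card {g : G // χ g = a} ∧
    Nat.card {g : G // χ g = a} * f.totient = Nat.card G

/-- DIR: upper bound for the number of primes in an arithmetic progression. -/
def DIR : Prop := ∀ (f : ℕ) (a : (ZMod f)ˣ), 0 < f → ∃ C : ℝ, ∀ s : ℝ, 1 < s → s ≤ 2 →
  ∑' q : {q : ℕ // q.Prime ∧ (q : ZMod f) = a}, (q : ℝ) ^ (-s) ≤
    (1 / (f.totient : ℝ)) * Real.log (1 / (s - 1)) + C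

/-- CLSC: the classes modulo `f` and their number. -/
def CLSC : Prop := ∀ (m : ℕ) (π : Fin m → PP) (p : Fin m → ℕ), (∀ i, (p i).Prime) →
  (∀ i, p i % 3 = 1) → (∀ i, (p i : Eis) = (π i).1 * conj (π i).1) → Function.Injective p →
  ∀ f : ℕ, 0 < f → 9 ∣ f → (∀ i, p i ∣ f) →
  ∃ κ : (ZMod f)ˣ →* Multiplicative (Fin (m + 1) → ZMod 3),
    (∀ (Q : ℕ) (hQ : Q.Coprime f), (κ (ZMod.unitOfCoprime Q hQ)).toAdd =
      Fin.cons (wt ((Q : ℤ) ^ 2)) (fun i => sym (π i).1 (Q : Eis))) ∧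
    ∀ c : Fin (m + 1) → ZMod 3,
      Nat.card {a : (ZMod f)ˣ // M2 a ∧ (κ a).toAdd = c} * (2 * 3 ^ (m + 1)) = f.totient

/-- DENS: the density of the primes with nonsingular matrix. -/
def DENS : Prop := ∀ (s : ℕ) (b : Fin s → ℤ) (p q p' q' : Fin s → Fin s → ℤ) (f m : ℕ)
  (κ : (ZMod f)ˣ →* Multiplicative (Fin (m + 1) → ZMod 3)) (c : Fin (m + 1) → ZMod 3)
  (C : Fin s → Fin s → ZMod 3) (Φ : (ZMod f)ˣ →* Multiplicative (Fin s → Fin s → ZMod 3)),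
  Sys b p q p' q' → Even s → 0 < f → 9 ∣ f →
  (∀ c : Fin (m + 1) → ZMod 3,
    Nat.card {a : (ZMod f)ˣ // M2 a ∧ (κ a).toAdd = c} * (2 * 3 ^ (m + 1)) = f.totient) →
  RI.DensityGE {Q : ℕ | ∃ hQ : Q.Coprime f, Q % 3 = 2 ∧
    (κ (ZMod.unitOfCoprime Q hQ)).toAdd = c ∧
    ∀ τ : Fin s → Fin s → ZMod 3,
      (∀ j i, j ≠ i → ∀ r : ℤ, (Q : ℤ) ∣ r ^ 3 - b j →
        τ j i = TAUV Q (p j i) (q j i) (p' j i) (q' j i) r) →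
      (alt (C + (Φ (ZMod.unitOfCoprime Q hQ)).toAdd - τ)).det ≠ 0}
    (1 / (24 * 3 ^ m))

/-- FINA: the theorem for numbers in normal form. -/
def FINA : Prop := ∀ (n m k : ℕ) (π : Fin m → PP) (p e : Fin m → ℕ) (r f : Fin k → ℕ),
  NF n π p e r f → (Even k ∨ ∃ j, r j % 9 = 2 ∨ r j % 9 = 5) →
  RI.DensityGE {q : ℕ | ¬ ∃ X Y : ℚ, X ^ 3 + Y ^ 3 = (n : ℚ) * q} (1 / (24 * 3 ^ m))

/-- MAINT: the theorem. -/
def MAINT : Prop := ∀ n : ℕ, 0 < n → ¬ 3 ∣ n →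
  (Even (Nat.card {p : ℕ // p.Prime ∧ p % 3 = 2 ∧ ¬ 3 ∣ n.factorization p}) ∨
    ∃ p : ℕ, p.Prime ∧ (p % 9 = 2 ∨ p % 9 = 5) ∧ ¬ 3 ∣ n.factorization p) →
  ∃ C : ℝ, ∀ s : ℝ, 1 < s → s ≤ 2 →
    1 / (24 * 3 ^ Nat.card {p : ℕ // p.Prime ∧ p % 3 = 1 ∧ ¬ 3 ∣ n.factorization p}) *
      Real.log (1 / (s - 1)) - C ≤
    ∑' q : {q : ℕ // q.Prime ∧ ¬ ∃ X Y : ℚ, X ^ 3 + Y ^ 3 = (n : ℚ) * q}, (q : ℝ) ^ (-s)

end Pool.Agent.PT
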