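import Pool.Agent.PT.Stmts4
import Pool.Agent.CubeRank.AvgFinal

/-!
# Prime twists: statements, part 5 (theorem B: the distribution of the rank over prime twists)
-/

open NumberField IsDedekindDomain Finset
open scoped nonZeroDivisors Pointwise

namespace Pool.Agent.PT

open Pool.Agent.Lib_helper18 Pool.Agent.Lib_helper18.Eis Pool.Agent.Lib_helper84.Cub

/-- FDX: the class of a point given by a cell decomposition, explicitly. -/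
def FDX : Prop := ∀ (B : ℤ) (a x : Fin 3 → ℤ), BOk B → (∀ k, x k ≠ 0) →
  ∑ k, a k * x k ^ 3 = 0 → ∏ k, a k = B →
  (∀ i j, i ≠ j → IsCoprime (a i * x i) (a j * x j)) →
  Pt B (a 0 ^ 2 * a 1) (a 0 * x 0) (x 1) ∧ Adm B (a 0 ^ 2 * a 1)

/-- BSYS: systems for products of primes `= 2 (mod 3)`, all classes of `q` modulo `9`. -/
def BSYS : Prop := ∀ (n k : ℕ) (π : Fin 0 → PP) (p e : Fin 0 → ℕ) (r f : Fin k → ℕ)
  (w0 : ZMod 3) (c : Fin 0 → ZMod 3), NF n π p e r f →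
  ∃ (s : ℕ) (b : Fin s → ℤ) (P Q P' Q' : Fin s → Fin s → ℤ),
    (∀ i, AdmC n π w0 c (b i)) ∧ Sys b P Q P' Q' ∧
    (∀ x : ℤ, AdmC n π w0 c x → ∃ (g : Fin s → ℕ) (u v : ℤ), u ≠ 0 ∧ v ≠ 0 ∧
      x * u ^ 3 = (∏ i, b i ^ g i) * v ^ 3)

/-- BKER: the rank is bounded by the dimension of the kernel of the matrix. -/
def BKER : Prop := ∀ (n k : ℕ) (π : Fin 0 → PP) (p e : Fin 0 → ℕ) (r f : Fin k → ℕ)
  (w0 : ZMod 3) (c : Fin 0 → ZMod 3) (s : ℕ) (b : Fin s → ℤ) (P Q P' Q' : Fin s → Fin s → ℤ)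
  (q : ℕ), NF n π p e r f → 1 ≤ k → (∀ i, AdmC n π w0 c (b i)) → Sys b P Q P' Q' →
  (∀ x : ℤ, AdmC n π w0 c x → ∃ (g : Fin s → ℕ) (u v : ℤ), u ≠ 0 ∧ v ≠ 0 ∧
      x * u ^ 3 = (∏ i, b i ^ g i) * v ^ 3) →
  q.Prime → q % 3 = 2 → wt ((q : ℤ) ^ 2) = w0 → ¬ q ∣ n →
  ((∃ j, r j % 9 ≠ 8) ∨ q % 9 ≠ 8) →
  CubeRank.GenBy ((n : ℤ) * q) (s - (Mat b P Q P' Q' ((n : ℤ) * q)).rank)

/-- ALTK: the number of alternating matrices with large kernel. -/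
def ALTK : Prop := ∀ s t : ℕ,
  3 ^ (t * (t - 1) / 2) * Nat.card {v : Fin s → Fin s → ZMod 3 // t ≤ s - (alt v).rank} ≤
    2 * Nat.card (Fin s → Fin s → ZMod 3)

/-- EQD: equidistribution of the matrices in a class of the Galois group. -/
def EQD : Prop := ∀ (s f : ℕ) (G : Type) [Group G] [Finite G] (χ : G →* (ZMod f)ˣ)
  (t : G → Fin s → Fin s → ZMod 3), 0 < f →
  (∀ (a : (ZMod f)ˣ) (v v' : Fin s → Fin s → ZMod 3), M2 a →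
    Nat.card {g : G // χ g = a ∧ ∀ j i, j < i → t g j i = v j i} =
      Nat.card {g : G // χ g = a ∧ ∀ j i, j < i → t g j i = v' j i}) →
  ∀ (a : (ZMod f)ˣ) (C : Fin s → Fin s → ZMod 3) (S : Set (Matrix (Fin s) (Fin s) (ZMod 3))),
    M2 a →
    Nat.card {g : G // χ g = a ∧ alt (C - t g) ∈ S} * Nat.card (Fin s → Fin s → ZMod 3) =
      Nat.card {v : Fin s → Fin s → ZMod 3 // alt v ∈ S} * Nat.card {g : G // χ g = a} ∧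
    Nat.card {g : G // χ g = a ∧ alt (C + t g) ∈ S} * Nat.card (Fin s → Fin s → ZMod 3) =
      Nat.card {v : Fin s → Fin s → ZMod 3 // alt v ∈ S} * Nat.card {g : G // χ g = a}

/-- BDENS: upper bound for the density of the primes with large kernel. -/
def BDENS : Prop := ∀ (s : ℕ) (b : Fin s → ℤ) (p q p' q' : Fin s → Fin s → ℤ) (f m t : ℕ)
  (κ : (ZMod f)ˣ →* Multiplicative (Fin (m + 1) → ZMod 3)) (c : Fin (m + 1) → ZMod 3)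
  (C : Fin s → Fin s → ZMod 3) (Φ : (ZMod f)ˣ →* Multiplicative (Fin s → Fin s → ZMod 3)),
  Sys b p q p' q' → 0 < f → 9 ∣ f →
  (∀ c : Fin (m + 1) → ZMod 3,
    Nat.card {a : (ZMod f)ˣ // M2 a ∧ (κ a).toAdd = c} * (2 * 3 ^ (m + 1)) = f.totient) →
  ∃ K : ℝ, ∀ σ : ℝ, 1 < σ → σ ≤ 2 →
    ∑' Q : {Q : ℕ // Q.Prime ∧ ∃ hQ : Q.Coprime f, Q % 3 = 2 ∧
      (κ (ZMod.unitOfCoprime Q hQ)).toAdd = c ∧
      ∀ τ : Fin s → Fin s → ZMod 3,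
        (∀ j i, j ≠ i → ∀ r : ℤ, (Q : ℤ) ∣ r ^ 3 - b j →
          τ j i = TAUV Q (p j i) (q j i) (p' j i) (q' j i) r) →
        t ≤ s - (alt (C + (Φ (ZMod.unitOfCoprime Q hQ)).toAdd - τ)).rank}, (Q : ℝ) ^ (-σ) ≤
      2 / 3 ^ (t * (t - 1) / 2) / 3 ^ (m + 1) * Real.log (1 / (σ - 1)) + K

/-- BFIN: the distribution of the rank over prime twists. -/
def BFIN : Prop := ∀ (k : ℕ) (r f : Fin k → ℕ), 1 ≤ k → (∀ i, (r i).Prime) →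
  (∀ i, r i % 3 = 2) → Function.Injective r → (∀ i, f i = 1 ∨ f i = 2) → ∀ t : ℕ,
  ∃ K : ℝ, ∀ σ : ℝ, 1 < σ → σ ≤ 2 →
    ∑' q : {q : ℕ // q.Prime ∧ q % 3 = 2 ∧ (q % 9 ≠ 8 ∨ ∃ i, r i % 9 ≠ 8) ∧
      t ≤ CubeRank.rr ((∏ i, (r i : ℤ) ^ f i) * q)}, (q : ℝ) ^ (-σ) ≤
    2 / 3 ^ (t * (t - 1) / 2) * Real.log (1 / (σ - 1)) + K

end Pool.Agent.PT
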